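import Pool.Agent.H96.LE.Lat

/-!
# Mean value property with error term for analytic functions of a logarithm
-/

namespace Pool.Agent.H96.LE

open Complex Metric

lemma norm_log_le_one {u : ℂ} (hu : ‖u‖ ≤ 1 / 2) : ‖log (1 + u)‖ ≤ 1 := by
  have := norm_log_one_add_half_le_self hu
  linarith

lemma slit_one_add {u : ℂ} (hu : ‖u‖ ≤ 1 / 2) : 1 + u ∈ slitPlane := by
  left
  have h1 := abs_re_le_norm u
  have h2 := (abs_le.1 h1).1
  simp only [add_re, one_re]
  linarith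

/-- mean value property with error -/
theorem mv (Φ : ℂ → ℂ) (hΦ : Differentiable ℂ Φ) (l ζ : ℂ) (hζ : 4 ≤ ‖ζ‖) (S : ℝ)
    (hS : ∀ v, ‖v‖ ≤ 1 → ‖Φ (l + v)‖ ≤ S) :
    ‖(Φ (l + log (1 + 1 / ζ)) + Φ (l + log (1 + (-1) / ζ)) + Φ (l + log (1 + I / ζ)) +
      Φ (l + log (1 + (-I) / ζ))) / 4 - Φ l‖ ≤ 32 * S / ‖ζ‖ ^ 4 := by
  set F : ℂ → ℂ := fun w => Φ (l + log (1 + w / ζ)) with hF
  have hζ0 : ζ ≠ 0 := by
    intro h; rw [h, norm_zero] at hζ; linarith
  set ρ : ℝ := ‖ζ‖ / 2 with hρ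
  have hρ2 : 2 ≤ ρ := by rw [hρ]; linarith
  have hρ0 : 0 < ρ := by linarith
  have hsmall : ∀ w : ℂ, ‖w‖ ≤ ρ → ‖w / ζ‖ ≤ 1 / 2 := by
    intro w hw
    rw [norm_div, div_le_iff₀ (by linarith)]
    rw [hρ] at hw; linarith
  have hdiff : ∀ w : ℂ, ‖w‖ ≤ ρ → DifferentiableAt ℂ F w := by
    intro w hw
    apply (hΦ _).comp
    apply (differentiableAt_const _).add
    apply DifferentiableAt.clog
    · exact (differentiableAt_const _).add (differentiableAt_id.div_const _)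
    · exact slit_one_add (hsmall w hw)
  have hdc : DiffContOnCl ℂ F (ball 0 ρ) := by
    apply DifferentiableOn.diffContOnCl
    intro w hw
    have : ‖w‖ ≤ ρ := by
      have := closure_ball_subset_closedBall hw
      simpa using this
    exact (hdiff w this).differentiableWithinAt
  have hbd : ∀ w : ℂ, ‖w‖ ≤ ρ → ‖F w‖ ≤ S := fun w hw => hS _ (norm_log_le_one (hsmall w hw))
  have hC : ∀ w : ℂ, ‖w‖ ≤ 1 → ((2 * Real.pi * I : ℂ)⁻¹ • ∮ z in C(0, ρ), (z - w)⁻¹ • F z) = F w := by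
    intro w hw
    apply hdc.two_pi_i_inv_smul_circleIntegral_sub_inv_smul
    simp only [mem_ball, dist_zero_right]
    linarith
  have hne : ∀ w : ℂ, ‖w‖ ≤ 1 → ∀ z ∈ sphere (0 : ℂ) ρ, z - w ≠ 0 := by
    intro w hw z hz h
    rw [sub_eq_zero] at h
    rw [mem_sphere, dist_zero_right] at hz
    rw [h] at hz
    linarith
  have hint : ∀ w : ℂ, ‖w‖ ≤ 1 → CircleIntegrable (fun z => (z - w)⁻¹ • F z) 0 ρ := by
    intro w hw
    apply ContinuousOn.circleIntegrable hρ0.le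
    show ContinuousOn ((fun z => (z - w)⁻¹) • F) (sphere 0 ρ)
    apply ContinuousOn.smul
    · apply ContinuousOn.inv₀
      · exact (continuous_id.sub continuous_const).continuousOn
      · exact hne w hw
    · intro z hz
      rw [mem_sphere, dist_zero_right] at hz
      exact (hdiff z hz.le).continuousAt.continuousWithinAt
  have n1 : ‖(1 : ℂ)‖ ≤ 1 := by simp
  have n2 : ‖(-1 : ℂ)‖ ≤ 1 := by simp
  have n3 : ‖I‖ ≤ 1 := by simp
  have n4 : ‖-I‖ ≤ 1 := by simp
  have n0 : ‖(0 : ℂ)‖ ≤ 1 := by simp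
  have key : (F 1 + F (-1) + F I + F (-I)) / 4 - F 0 =
      (2 * Real.pi * I : ℂ)⁻¹ • ∮ z in C(0, ρ), (z * (z ^ 4 - 1))⁻¹ * F z := by
    have h1 : (∮ z in C(0, ρ), (z * (z ^ 4 - 1))⁻¹ * F z) =
        ∮ z in C(0, ρ), ((4 : ℂ)⁻¹ • ((((z - 1)⁻¹ • F z + (z - (-1))⁻¹ • F z) + (z - I)⁻¹ • F z) +
          (z - (-I))⁻¹ • F z) - (z - 0)⁻¹ • F z) := by
      apply circleIntegral.integral_congr hρ0.le
      intro z hz
      simp only [smul_eq_mul]
      have e1 := hne 1 n1 z hz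
      have e2 := hne (-1) n2 z hz
      have e3 := hne I n3 z hz
      have e4 := hne (-I) n4 z hz
      have e0 := hne 0 n0 z hz
      rw [sub_zero] at e0
      have e5 : z ^ 4 - 1 ≠ 0 := by
        have : z ^ 4 - 1 = (z - 1) * (z - (-1)) * ((z - I) * (z - (-I))) := by
          have : (z - I) * (z - (-I)) = z ^ 2 + 1 := by
            have hI := I_sq
            linear_combination (-1 : ℂ) * hI
          rw [this]; ring
        rw [this]
        exact mul_ne_zero (mul_ne_zero e1 e2) (mul_ne_zero e3 e4)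
      have e6 : (z - 1)⁻¹ + (z - (-1))⁻¹ = 2 * z / (z ^ 2 - 1) := by
        have : z ^ 2 - 1 ≠ 0 := by
          have h : z ^ 2 - 1 = (z - 1) * (z - (-1)) := by ring
          rw [h]; exact mul_ne_zero e1 e2
        field_simp
        ring
      have e7 : (z - I)⁻¹ + (z - (-I))⁻¹ = 2 * z / (z ^ 2 + 1) := by
        have h : z ^ 2 + 1 = (z - I) * (z - (-I)) := by
          have hI := I_sq
          linear_combination hI
        rw [h]
        field_simp
        ring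
      have e8 : z ^ 2 - 1 ≠ 0 := by
        have h : z ^ 2 - 1 = (z - 1) * (z - (-1)) := by ring
        rw [h]; exact mul_ne_zero e1 e2
      have e9 : z ^ 2 + 1 ≠ 0 := by
        have h : z ^ 2 + 1 = (z - I) * (z - (-I)) := by
          have hI := I_sq
          linear_combination hI
        rw [h]; exact mul_ne_zero e3 e4
      have e10 : (z * (z ^ 4 - 1))⁻¹ = (4 : ℂ)⁻¹ * (2 * z / (z ^ 2 - 1) + 2 * z / (z ^ 2 + 1)) - z⁻¹ := by
        have : z ^ 4 - 1 = (z ^ 2 - 1) * (z ^ 2 + 1) := by ring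
        rw [this]
        field_simp
        ring
      rw [e10, ← e6, ← e7, sub_zero]
      ring
    rw [h1, circleIntegral.integral_sub, circleIntegral.integral_smul, circleIntegral.integral_add,
      circleIntegral.integral_add, circleIntegral.integral_add]
    · have c1 := hC 1 n1
      have c2 := hC (-1) n2
      have c3 := hC I n3
      have c4 := hC (-I) n4
      have c0 := hC 0 n0
      rw [← c1, ← c2, ← c3, ← c4, ← c0]
      simp only [smul_eq_mul]
      ring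
    · exact hint 1 n1
    · exact hint (-1) n2
    · exact (hint 1 n1).add (hint (-1) n2)
    · exact hint I n3
    · exact ((hint 1 n1).add (hint (-1) n2)).add (hint I n3)
    · exact hint (-I) n4
    · exact (((hint 1 n1).add (hint (-1) n2)).add (hint I n3)).add (hint (-I) n4) |>.const_smul
    · exact hint 0 n0
  have hS0 : 0 ≤ S := (norm_nonneg _).trans (hbd 0 (by simpa using hρ0.le))
  have hle : ‖(2 * Real.pi * I : ℂ)⁻¹ • ∮ z in C(0, ρ), (z * (z ^ 4 - 1))⁻¹ * F z‖ ≤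
      ρ * ((ρ * (ρ ^ 4 * (15 / 16)))⁻¹ * S) := by
    apply circleIntegral.norm_two_pi_i_inv_smul_integral_le_of_norm_le_const hρ0.le
    intro z hz
    rw [mem_sphere, dist_zero_right] at hz
    rw [norm_mul]
    apply mul_le_mul _ (hbd z hz.le) (norm_nonneg _) (by positivity)
    rw [norm_inv, norm_mul, hz]
    apply inv_anti₀ (by positivity)
    apply mul_le_mul_of_nonneg_left _ hρ0.le
    have h1 : ‖z ^ 4‖ - ‖(1 : ℂ)‖ ≤ ‖z ^ 4 - 1‖ := norm_sub_norm_le _ _
    rw [norm_pow, hz, norm_one] at h1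
    have h2 : (2 : ℝ) ^ 4 ≤ ρ ^ 4 := pow_le_pow_left₀ (by norm_num) hρ2 4
    linarith
  have hF0 : F 0 = Φ l := by simp [hF]
  have hgoal : (Φ (l + log (1 + 1 / ζ)) + Φ (l + log (1 + (-1) / ζ)) + Φ (l + log (1 + I / ζ)) +
      Φ (l + log (1 + (-I) / ζ))) / 4 - Φ l = (F 1 + F (-1) + F I + F (-I)) / 4 - F 0 := by
    rw [hF0]
  rw [hgoal, key]
  refine hle.trans ?_
  rw [hρ]
  have hz4 : 0 < ‖ζ‖ ^ 4 := by positivity
  have : ‖ζ‖ / 2 * ((‖ζ‖ / 2 * ((‖ζ‖ / 2) ^ 4 * (15 / 16)))⁻¹ * S) = (256 / 15) * S / ‖ζ‖ ^ 4 := by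
    have : ‖ζ‖ ≠ 0 := by linarith
    field_simp
    ring
  rw [this]
  gcongr
  norm_num

end Pool.Agent.H96.LE
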