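import Pool.Agent.H96.LE.Gauge
import Pool.Agent.H96.LE.Ana

/-!
# Annuli: harmonic functions on the lattice annulus and barriers
-/

namespace Pool.Agent.H96.LE

open Finset

/-- a large box -/
noncomputable def bigF (M : ℝ) : Finset Z2 :=
  (Icc (-(⌈M⌉ + 2)) (⌈M⌉ + 2)) ×ˢ (Icc (-(⌈M⌉ + 2)) (⌈M⌉ + 2))

/-- the lattice annulus -/
noncomputable def VV (R M : ℝ) : Finset Z2 :=
  (bigF M).filter (fun z => R < ‖cx z‖ ∧ ‖cx z‖ < M)

/-- the outer boundary of the lattice annulus -/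
noncomputable def OO (M : ℝ) : Finset Z2 :=
  (bigF M).filter (fun z => M ≤ ‖cx z‖ ∧ ‖cx z‖ < M + 1)

lemma mem_bigF {M : ℝ} {z : Z2} (h : ‖cx z‖ < M + 1) : z ∈ bigF M := by
  have h1 := abs_re_le_norm' z
  have h2 := abs_im_le_norm' z
  unfold bigF
  rw [Finset.mem_product, Finset.mem_Icc, Finset.mem_Icc]
  have hM := Int.le_ceil M
  have e1 : |(z.1 : ℝ)| < (⌈M⌉ : ℝ) + 1 := by linarith
  have e2 : |(z.2 : ℝ)| < (⌈M⌉ : ℝ) + 1 := by linarith
  have e3 : |z.1| < ⌈M⌉ + 1 := by exact_mod_cast e1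
  have e4 : |z.2| < ⌈M⌉ + 1 := by exact_mod_cast e2
  rw [abs_lt] at e3 e4
  omega
where
  abs_re_le_norm' (z : Z2) : |(z.1 : ℝ)| ≤ ‖cx z‖ := by
    have := Complex.abs_re_le_norm (cx z)
    simpa using this
  abs_im_le_norm' (z : Z2) : |(z.2 : ℝ)| ≤ ‖cx z‖ := by
    have := Complex.abs_im_le_norm (cx z)
    simpa using this

lemma mem_VV {R M : ℝ} {z : Z2} : z ∈ VV R M ↔ R < ‖cx z‖ ∧ ‖cx z‖ < M := by
  unfold VV
  rw [Finset.mem_filter]
  constructor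
  · exact fun h => h.2
  · exact fun h => ⟨mem_bigF (by linarith [h.2]), h⟩

lemma mem_OO {M : ℝ} {z : Z2} : z ∈ OO M ↔ M ≤ ‖cx z‖ ∧ ‖cx z‖ < M + 1 := by
  unfold OO
  rw [Finset.mem_filter]
  constructor
  · exact fun h => h.2
  · exact fun h => ⟨mem_bigF h.2, h⟩

lemma disj_VO (R M : ℝ) : Disjoint (VV R M) (OO M) := by
  rw [Finset.disjoint_left]
  intro z h1 h2
  rw [mem_VV] at h1
  rw [mem_OO] at h2
  linarith

lemma VV_nb {R M : ℝ} {z w : Z2} (hz : z ∈ VV R M) (hw : w ∈ nb z) (hwV : w ∉ VV R M) :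
    (‖cx w‖ ≤ R ∧ R - 1 ≤ ‖cx w‖) ∨ w ∈ OO M := by
  rw [mem_VV] at hz hwV
  rw [mem_OO]
  have h := norm_nb_ge hw
  by_cases h1 : ‖cx w‖ ≤ R
  · left; exact ⟨h1, by linarith⟩
  · right
    push Not at h1
    have : ¬ ‖cx w‖ < M := fun h2 => hwV ⟨h1, h2⟩
    exact ⟨not_lt.1 this, by linarith⟩

lemma nsq_nb_le {R M : ℝ} (_hM : 0 ≤ M) {z w : Z2} (hz : z ∈ VV R M) (hw : w ∈ nb z) :
    nsq w ≤ (M + 1) ^ 2 := by
  rw [nsq_eq]
  rw [mem_VV] at hz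
  have h := norm_nb_ge hw
  exact pow_le_pow_left₀ (norm_nonneg _) (by linarith) 2

/-! ### neighbours as complex numbers -/

lemma sum_nb_cx {E : Type*} [AddCommMonoid E] (z : Z2) (f : ℂ → E) :
    ∑ w ∈ nb z, f (cx w) = f (cx z + 1) + f (cx z + (-1)) + f (cx z + Complex.I)
      + f (cx z + (-Complex.I)) := by
  rw [sum_nb]
  have e1 : cx (z.1 + 1, z.2) = cx z + 1 := by
    apply Complex.ext <;> simp [cx]
  have e2 : cx (z.1 - 1, z.2) = cx z + (-1) := by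
    apply Complex.ext <;> simp [cx, sub_eq_add_neg]
  have e3 : cx (z.1, z.2 + 1) = cx z + Complex.I := by
    apply Complex.ext <;> simp [cx]
  have e4 : cx (z.1, z.2 - 1) = cx z + (-Complex.I) := by
    apply Complex.ext <;> simp [cx, sub_eq_add_neg]
  rw [e1, e2, e3, e4]

/-- mean value property with error, lattice form -/
theorem mv_nb (Φ : ℂ → ℂ) (hΦ : Differentiable ℂ Φ) (l p : ℂ) (z : Z2) (hz : 4 ≤ ‖cx z - p‖)
    (S : ℝ) (hS : ∀ v, ‖v‖ ≤ 1 → ‖Φ (l + v)‖ ≤ S) :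
    ‖(∑ w ∈ nb z, Φ (l + Complex.log ((cx w - p) / (cx z - p)))) / 4 - Φ l‖ ≤
      32 * S / ‖cx z - p‖ ^ 4 := by
  have hne : cx z - p ≠ 0 := by
    intro h; rw [h, norm_zero] at hz; linarith
  rw [sum_nb_cx z (fun w => Φ (l + Complex.log ((w - p) / (cx z - p))))]
  have e : ∀ c : ℂ, (cx z + c - p) / (cx z - p) = 1 + c / (cx z - p) := by
    intro c; field_simp; ring
  simp only [e]
  exact mv Φ hΦ l (cx z - p) hz S hS

lemma mv_log (p : ℂ) (z : Z2) (hz : 4 ≤ ‖cx z - p‖) :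
    |av (fun w => Real.log ‖cx w - p‖) z - Real.log ‖cx z - p‖| ≤ 32 / ‖cx z - p‖ ^ 4 := by
  have hne : cx z - p ≠ 0 := by
    intro h; rw [h, norm_zero] at hz; linarith
  have h := mv_nb id differentiable_id 0 p z hz 1 (fun v hv => by simpa using hv)
  rw [mul_one] at h
  refine le_trans ?_ h
  have h2 := Complex.abs_re_le_norm ((∑ w ∈ nb z, id (0 + Complex.log ((cx w - p) / (cx z - p)))) / 4 - id 0)
  refine le_trans (le_of_eq ?_) h2
  congr 1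
  have h3 : (∑ w ∈ nb z, id (0 + Complex.log ((cx w - p) / (cx z - p)))) / 4 - id 0 =
      ((4 : ℝ)⁻¹ : ℝ) * (∑ w ∈ nb z, Complex.log ((cx w - p) / (cx z - p))) := by
    simp only [id, zero_add, sub_zero]
    push_cast
    ring
  rw [h3, Complex.re_ofReal_mul, Complex.re_sum]
  have h4 : ∀ w ∈ nb z, (Complex.log ((cx w - p) / (cx z - p))).re =
      Real.log ‖cx w - p‖ - Real.log ‖cx z - p‖ := by
    intro w hw
    have hw1 := norm_nb hw
    have hwne : cx w - p ≠ 0 := by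
      intro h0
      have : cx z - p = -(cx w - cx z) := by linear_combination h0
      rw [this, norm_neg, hw1] at hz
      linarith
    rw [Complex.log_re, norm_div, Real.log_div (norm_ne_zero_iff.2 hwne) (norm_ne_zero_iff.2 hne)]
  rw [Finset.sum_congr rfl h4, Finset.sum_sub_distrib, Finset.sum_const, card_nb]
  unfold av
  simp only [nsmul_eq_mul]
  push_cast
  ring

/-- comparison with error -/
theorem cmp_err (D : Finset Z2) (u v : Z2 → ℝ) (ε β K : ℝ) (hε : 0 ≤ ε)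
    (hu : ∀ z ∈ D, u z ≤ av u z) (hv : ∀ z ∈ D, av v z ≤ v z + ε)
    (hb : ∀ z ∈ D, ∀ w ∈ nb z, w ∉ D → u w ≤ v w + β)
    (hK : ∀ z ∈ D, ∀ w ∈ nb z, nsq w ≤ K) : ∀ z ∈ D, u z ≤ v z + β + ε * K := by
  intro z hz
  have := max_prin_err D (fun w => u w - v w) β ε K hε (fun z hz => by
    rw [av_sub]
    have := hu z hz
    have := hv z hz
    linarith) (fun z hz w hw hwD => by
    have := hb z hz w hw hwD
    linarith) hK z hz
  linarith

/-! ### real path sums -/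

/-- real simple random walk weight -/
noncomputable def q1 : Z2 → Z2 → ℝ := fun _ _ => 1 / 4

lemma GW_q1 : GW q1 := by
  intro z w _
  simp [q1]

lemma wt_q1 (t : List Z2) : ∀ x, wt q1 x t = (1 / 4) ^ t.length := by
  induction t with
  | nil => intro x; simp
  | cons b t ih =>
    intro x
    rw [wt_cons, ih, List.length_cons, pow_succ']
    rfl

lemma psTerm_ofReal (D O : Finset Z2) (a : Z2) (Φ : List Z2 → ℝ) (t : List Z2) :
    psTerm q0 D O a (fun l => (Φ l : ℂ)) t = ((psTerm q1 D O a Φ t : ℝ) : ℂ) := by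
  unfold psTerm
  split_ifs with h
  · rw [wt_q0, wt_q1]; push_cast; rfl
  · simp

lemma PS_ofReal (D O : Finset Z2) (a : Z2) (Φ : List Z2 → ℝ) :
    PS q0 D O a (fun l => (Φ l : ℂ)) = ((PS q1 D O a Φ : ℝ) : ℂ) := by
  unfold PS
  simp only [psTerm_ofReal]
  exact (Complex.ofReal_tsum _).symm

lemma psTerm_nonneg {D O : Finset Z2} {a : Z2} {Φ : List Z2 → ℝ} (hΦ : ∀ l, 0 ≤ Φ l)
    (t : List Z2) : 0 ≤ psTerm q1 D O a Φ t := by
  unfold psTerm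
  split_ifs
  · rw [wt_q1]; exact mul_nonneg (by positivity) (hΦ _)
  · exact le_rfl

lemma PS_nonneg {D O : Finset Z2} {a : Z2} {Φ : List Z2 → ℝ} (hΦ : ∀ l, 0 ≤ Φ l) :
    0 ≤ PS q1 D O a Φ := tsum_nonneg (psTerm_nonneg hΦ)

lemma PS_mono {D O : Finset Z2} (hDO : Disjoint D O) {a : Z2} {Φ Ψ : List Z2 → ℝ} (C C' : ℝ)
    (hΦ : ∀ l, ‖Φ l‖ ≤ C) (hΨ : ∀ l, ‖Ψ l‖ ≤ C') (h : ∀ t, P D O a t → Φ (a :: t) ≤ Ψ (a :: t)) :
    PS q1 D O a Φ ≤ PS q1 D O a Ψ := by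
  unfold PS
  apply (summable_psTerm GW_q1 hDO a Φ C hΦ).tsum_le_tsum _ (summable_psTerm GW_q1 hDO a Ψ C' hΨ)
  intro t
  unfold psTerm
  split_ifs with ht
  · rw [wt_q1]
    exact mul_le_mul_of_nonneg_left (h t ht) (by positivity)
  · exact le_rfl

lemma PS_av {D O : Finset Z2} (hDO : Disjoint D O) {a : Z2} (ha : a ∈ D) (Φ : List Z2 → ℝ)
    (C : ℝ) (hΦ : ∀ l, ‖Φ l‖ ≤ C) :
    PS q1 D O a Φ = (∑ b ∈ nb a, PS q1 D O b (fun l => Φ (a :: l))) / 4 := by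
  rw [PS_step GW_q1 hDO ha Φ C hΦ, Finset.sum_div]
  apply Finset.sum_congr rfl
  intro b _
  simp only [q1]
  ring

/-- path sum of a function of the last vertex -/
noncomputable def PL {𝕜 : Type*} [RCLike 𝕜] (q : Z2 → Z2 → 𝕜) (D O : Finset Z2) (f : Z2 → 𝕜)
    (z : Z2) : 𝕜 := PS q D O z (fun l => if lst l ∈ O then f (lst l) else 0)

lemma PL_bound {𝕜 : Type*} [RCLike 𝕜] (O : Finset Z2) (f : Z2 → 𝕜) :
    ∃ C : ℝ, ∀ l : List Z2, ‖(if lst l ∈ O then f (lst l) else 0 : 𝕜)‖ ≤ C := by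
  refine ⟨∑ w ∈ O, ‖f w‖, fun l => ?_⟩
  split_ifs with h
  · exact Finset.single_le_sum (f := fun w => ‖f w‖) (fun _ _ => norm_nonneg _) h
  · rw [norm_zero]; exact Finset.sum_nonneg (fun _ _ => norm_nonneg _)

lemma PL_step {𝕜 : Type*} [RCLike 𝕜] {q : Z2 → Z2 → 𝕜} (hq : GW q) {D O : Finset Z2}
    (hDO : Disjoint D O) (f : Z2 → 𝕜) {z : Z2} (hz : z ∈ D) :
    PL q D O f z = ∑ w ∈ nb z, q z w * PL q D O f w := by
  obtain ⟨C, hC⟩ := PL_bound O f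
  unfold PL
  rw [PS_step hq hDO hz _ C hC]
  apply Finset.sum_congr rfl
  intro b _
  congr 1

lemma PL_out {𝕜 : Type*} [RCLike 𝕜] {q : Z2 → Z2 → 𝕜} {D O : Finset Z2} (f : Z2 → 𝕜) {z : Z2}
    (hz : z ∉ D) (hzO : z ∈ O) : PL q D O f z = f z := by
  unfold PL
  rw [PS_out hz hzO]
  simp [hzO]

lemma PL_none {𝕜 : Type*} [RCLike 𝕜] {q : Z2 → Z2 → 𝕜} {D O : Finset Z2} (f : Z2 → 𝕜) {z : Z2}
    (hz : z ∉ D) (hzO : z ∉ O) : PL q D O f z = 0 := PS_none hz hzO _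

lemma PL_av {D O : Finset Z2} (hDO : Disjoint D O) (f : Z2 → ℝ) {z : Z2} (hz : z ∈ D) :
    PL q1 D O f z = av (PL q1 D O f) z := by
  rw [PL_step GW_q1 hDO f hz, av, Finset.sum_div]
  apply Finset.sum_congr rfl
  intro b _
  simp only [q1]
  ring

end Pool.Agent.H96.LE
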