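import Pool.Agent.H96.LE.Ann

/-!
# Barriers and the harmonic function of the annulus
-/

namespace Pool.Agent.H96.LE

open Finset

/-- comparison for twisted equations -/
theorem cmp_q {𝕜 : Type*} [RCLike 𝕜] {q : Z2 → Z2 → 𝕜} (hq : GW q) (D : Finset Z2) (u v : Z2 → 𝕜)
    (ε β K : ℝ) (hε : 0 ≤ ε)
    (hu : ∀ z ∈ D, u z = ∑ w ∈ nb z, q z w * u w)
    (hv : ∀ z ∈ D, ‖v z - ∑ w ∈ nb z, q z w * v w‖ ≤ ε)
    (hb : ∀ z ∈ D, ∀ w ∈ nb z, w ∉ D → ‖u w - v w‖ ≤ β)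
    (hK : ∀ z ∈ D, ∀ w ∈ nb z, nsq w ≤ K) : ∀ z ∈ D, ‖u z - v z‖ ≤ β + ε * K := by
  apply max_prin_err D (fun w => ‖u w - v w‖) β ε K hε _ hb hK
  intro z hz
  have h1 : u z - v z = ∑ w ∈ nb z, q z w * (u w - v w) - (v z - ∑ w ∈ nb z, q z w * v w) := by
    rw [hu z hz]
    simp only [mul_sub, Finset.sum_sub_distrib]
    ring
  show ‖u z - v z‖ ≤ _
  rw [h1]
  calc ‖∑ w ∈ nb z, q z w * (u w - v w) - (v z - ∑ w ∈ nb z, q z w * v w)‖
      ≤ ‖∑ w ∈ nb z, q z w * (u w - v w)‖ + ‖v z - ∑ w ∈ nb z, q z w * v w‖ := norm_sub_le _ _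
    _ ≤ (∑ w ∈ nb z, ‖q z w * (u w - v w)‖) + ε := add_le_add (norm_sum_le _ _) (hv z hz)
    _ ≤ (∑ w ∈ nb z, 1 / 4 * ‖u w - v w‖) + ε := by
        gcongr with w hw
        rw [norm_mul]
        exact mul_le_mul_of_nonneg_right (hq z w hw) (norm_nonneg _)
    _ = av (fun w => ‖u w - v w‖) z + ε := by
        rw [av, ← Finset.mul_sum]; ring

lemma sum_q1 (z : Z2) (v : Z2 → ℝ) : ∑ w ∈ nb z, q1 z w * v w = av v z := by
  rw [av, Finset.sum_div]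
  apply Finset.sum_congr rfl
  intro w _
  simp only [q1]; ring

/-- logarithmic barrier -/
theorem barrier (D : Finset Z2) (M : ℝ) (hM : 0 ≤ M) (hD : ∀ z ∈ D, ‖cx z‖ < M) (p : ℂ) (ρ : ℝ)
    (hρ : 4 ≤ ρ) (hρM : 32 * (M + 1) ^ 2 ≤ ρ ^ 3) (h1 : ∀ z ∈ D, ρ ≤ ‖cx z - p‖) (β : ℝ)
    (hβ : 0 ≤ β) (u : Z2 → ℝ) (hu : ∀ z ∈ D, u z ≤ av u z)
    (hb : ∀ z ∈ D, ∀ w ∈ nb z, w ∉ D → u w ≤ 0 ∨ (u w ≤ β ∧ 9 / 8 * ρ ^ 2 ≤ ‖cx w - p‖ ^ 2)) :
    ∀ z ∈ D, u z ≤ 20 * β * (Real.log (‖cx z - p‖ / ρ) + 3 / ρ) := by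
  have hρ0 : 0 < ρ := by linarith
  intro z hz
  have h := cmp_err D u (fun w => 20 * β * (Real.log ‖cx w - p‖ + (- Real.log ρ + 2 / ρ)))
    (20 * β * (32 / ρ ^ 4)) 0 ((M + 1) ^ 2) (by positivity) hu (by
      intro z hz
      rw [av_const_mul, av_add, av_const]
      have h2 := mv_log p z (by linarith [h1 z hz])
      have h3 : 32 / ‖cx z - p‖ ^ 4 ≤ 32 / ρ ^ 4 := by
        apply div_le_div_of_nonneg_left (by norm_num) (by positivity)
        exact pow_le_pow_left₀ hρ0.le (h1 z hz) 4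
      have h4 := (abs_le.1 h2).2
      rw [← mul_add]
      apply mul_le_mul_of_nonneg_left _ (by positivity)
      linarith) (by
      intro z hz w hw hwD
      rw [add_zero]
      have hwρ : ρ - 1 ≤ ‖cx w - p‖ := by
        have h2 := h1 z hz
        have h3 := norm_nb hw
        have h4 : ‖cx z - p‖ ≤ ‖cx z - cx w‖ + ‖cx w - p‖ := norm_sub_le_norm_sub_add_norm_sub _ _ _
        rw [norm_sub_rev (cx z) (cx w), h3] at h4
        linarith
      have hwpos : 0 < ‖cx w - p‖ := by linarith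
      have hlog : Real.log ‖cx w - p‖ - Real.log ρ = Real.log (‖cx w - p‖ / ρ) := by
        rw [Real.log_div hwpos.ne' hρ0.ne']
      rcases hb z hz w hw hwD with h2 | ⟨h2, h3⟩
      · refine h2.trans (mul_nonneg (by positivity) ?_)
        have h3 : -(2 / ρ) ≤ Real.log (‖cx w - p‖ / ρ) := by
          have h4 : 1 - (‖cx w - p‖ / ρ)⁻¹ ≤ Real.log (‖cx w - p‖ / ρ) :=
            Real.one_sub_inv_le_log_of_pos (by positivity)
          refine le_trans ?_ h4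
          rw [inv_div]
          have h5 : ρ / ‖cx w - p‖ ≤ ρ / (ρ - 1) :=
            div_le_div_of_nonneg_left hρ0.le (by linarith) hwρ
          have h6 : ρ / (ρ - 1) ≤ 1 + 2 / ρ := by
            rw [div_le_iff₀ (by linarith)]
            have : (1 + 2 / ρ) * (ρ - 1) = ρ + 1 - 2 / ρ := by field_simp; ring
            rw [this]
            have : 2 / ρ ≤ 1 := by rw [div_le_one hρ0]; linarith
            linarith
          linarith
        linarith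
      · refine h2.trans ?_
        have h4 : (1 : ℝ) / 20 ≤ Real.log (‖cx w - p‖ / ρ) := by
          have h5 : 9 / 8 ≤ (‖cx w - p‖ / ρ) ^ 2 := by
            rw [div_pow, le_div_iff₀ (by positivity)]; exact h3
          have h6 : Real.log (9 / 8) ≤ Real.log ((‖cx w - p‖ / ρ) ^ 2) :=
            Real.log_le_log (by norm_num) h5
          rw [Real.log_pow] at h6
          have h7 : 1 - (9 / 8 : ℝ)⁻¹ ≤ Real.log (9 / 8) := Real.one_sub_inv_le_log_of_pos (by norm_num)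
          push_cast at h6
          norm_num at h7
          linarith
        have h5 : (1 : ℝ) / 20 ≤ Real.log ‖cx w - p‖ + (- Real.log ρ + 2 / ρ) := by
          have : 0 ≤ 2 / ρ := by positivity
          linarith
        nlinarith) (by
      intro z hz w hw
      rw [nsq_eq]
      have h2 := (norm_nb_ge hw).2
      exact pow_le_pow_left₀ (norm_nonneg _) (by linarith [hD z hz]) 2) z hz
  refine h.trans ?_
  have hz0 : 0 < ‖cx z - p‖ := by linarith [h1 z hz]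
  have hlog : Real.log (‖cx z - p‖ / ρ) = Real.log ‖cx z - p‖ - Real.log ρ := by
    rw [Real.log_div hz0.ne' hρ0.ne']
  rw [hlog, add_zero]
  have h5 : 32 / ρ ^ 4 * (M + 1) ^ 2 ≤ 1 / ρ := by
    rw [div_mul_eq_mul_div, div_le_div_iff₀ (by positivity) hρ0]
    calc 32 * (M + 1) ^ 2 * ρ ≤ ρ ^ 3 * ρ := by gcongr
      _ = 1 * ρ ^ 4 := by ring
  have h6 : 20 * β * (32 / ρ ^ 4) * (M + 1) ^ 2 ≤ 20 * β * (1 / ρ) := by
    rw [mul_assoc (20 * β)]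
    exact mul_le_mul_of_nonneg_left h5 (by positivity)
  have h7 : 20 * β * (Real.log ‖cx z - p‖ - Real.log ρ + 3 / ρ) =
      20 * β * (Real.log ‖cx z - p‖ + (- Real.log ρ + 2 / ρ)) + 20 * β * (1 / ρ) := by
    field_simp; ring
  rw [h7]
  linarith

lemma sq_norm_sub_real (z e : ℂ) (he : ‖e‖ = 1) (t : ℝ) :
    ‖z - t * e‖ ^ 2 = ‖z‖ ^ 2 - 2 * t * (z.re * e.re + z.im * e.im) + t ^ 2 := by
  have h1 : e.re ^ 2 + e.im ^ 2 = 1 := by
    have := Complex.normSq_eq_norm_sq e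
    rw [he, Complex.normSq_apply] at this
    linarith
  rw [← Complex.normSq_eq_norm_sq, ← Complex.normSq_eq_norm_sq, Complex.normSq_apply,
    Complex.normSq_apply]
  simp only [Complex.sub_re, Complex.sub_im, Complex.re_ofReal_mul, Complex.im_ofReal_mul]
  linear_combination (t ^ 2) * h1

/-- barrier at the inner circle -/
theorem barrier_in (D : Finset Z2) (R M : ℝ) (hM : 0 ≤ M) (hD : ∀ z ∈ D, R < ‖cx z‖ ∧ ‖cx z‖ < M)
    (ρ : ℝ) (hρ : 4 ≤ ρ) (hρR : ρ ≤ R / 2) (hρM : 32 * (M + 1) ^ 2 ≤ ρ ^ 3) (β : ℝ)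
    (hβ : 0 ≤ β) (u : Z2 → ℝ) (hu : ∀ z ∈ D, u z ≤ av u z) (x : Z2) (hx : x ∈ D) (e : ℂ)
    (he : ‖e‖ = 1) (hxe : cx x = ‖cx x‖ * e)
    (hb : ∀ z ∈ D, ∀ w ∈ nb z, w ∉ D → u w ≤ 0 ∨ (u w ≤ β ∧ R ≤ ‖cx w‖ ∧
      ρ / 2 ≤ ‖cx w - R * e‖)) :
    u x ≤ 20 * β * ((‖cx x‖ - R + 3) / ρ) := by
  have hρ0 : 0 < ρ := by linarith
  have hR0 : 0 < R := by linarith
  have hpn : ‖(((R - ρ : ℝ) : ℂ) * e)‖ = R - ρ := by
    rw [norm_mul, he, mul_one, Complex.norm_real, Real.norm_eq_abs, abs_of_nonneg (by linarith)]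
  have h := barrier D M hM (fun z hz => (hD z hz).2) (((R - ρ : ℝ) : ℂ) * e) ρ hρ hρM (by
    intro z hz
    have h1 := norm_sub_norm_le (cx z) (((R - ρ : ℝ) : ℂ) * e)
    rw [hpn] at h1
    linarith [(hD z hz).1]) β hβ u hu (by
    intro z hz w hw hwD
    rcases hb z hz w hw hwD with h1 | ⟨h1, h2, h3⟩
    · exact Or.inl h1
    · right
      refine ⟨h1, ?_⟩
      rw [sq_norm_sub_real _ _ he]
      have h4 := sq_norm_sub_real (cx w) e he R
      set s := (cx w).re * e.re + (cx w).im * e.im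
      have h5 : ρ ^ 2 / 4 ≤ ‖cx w - R * e‖ ^ 2 := by
        have := pow_le_pow_left₀ (by positivity) h3 2
        calc ρ ^ 2 / 4 = (ρ / 2) ^ 2 := by ring
          _ ≤ _ := this
      have h6 : R ^ 2 ≤ ‖cx w‖ ^ 2 := pow_le_pow_left₀ hR0.le h2 2
      -- identity multiplied by R
      have h7 : R * (‖cx w‖ ^ 2 - 2 * (R - ρ) * s + (R - ρ) ^ 2 - ρ ^ 2) =
          ρ * (‖cx w‖ ^ 2 - R ^ 2) + (R - ρ) * ‖cx w - R * e‖ ^ 2 := by
        rw [h4]; ring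
      have h8 : R / 2 * (ρ ^ 2 / 4) ≤ (R - ρ) * ‖cx w - R * e‖ ^ 2 :=
        mul_le_mul (by linarith) h5 (by positivity) (by linarith)
      have h9 : 0 ≤ ρ * (‖cx w‖ ^ 2 - R ^ 2) := mul_nonneg hρ0.le (by linarith)
      have h10 : R * (ρ ^ 2 / 8) ≤ R * (‖cx w‖ ^ 2 - 2 * (R - ρ) * s + (R - ρ) ^ 2 - ρ ^ 2) := by
        rw [h7]; nlinarith
      have h11 := le_of_mul_le_mul_left h10 hR0
      linarith) x hx
  refine h.trans (mul_le_mul_of_nonneg_left ?_ (by positivity))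
  have hxR := (hD x hx).1
  have h1 : ‖cx x - (((R - ρ : ℝ) : ℂ) * e)‖ = ‖cx x‖ - R + ρ := by
    have : cx x - (((R - ρ : ℝ) : ℂ) * e) = (((‖cx x‖ - R + ρ : ℝ)) : ℂ) * e := by
      conv_lhs => rw [hxe]
      push_cast; ring
    rw [this, norm_mul, he, mul_one, Complex.norm_real, Real.norm_eq_abs,
      abs_of_nonneg (by linarith)]
  rw [h1]
  have h2 := Real.log_le_sub_one_of_pos (x := (‖cx x‖ - R + ρ) / ρ) (by
    apply div_pos _ hρ0; linarith)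
  have h3 : (‖cx x‖ - R + 3) / ρ = ((‖cx x‖ - R + ρ) / ρ - 1) + 3 / ρ := by field_simp; ring
  rw [h3]
  linarith

/-- barrier at the outer circle -/
theorem barrier_out (D : Finset Z2) (M : ℝ) (hM : 1 ≤ M) (hD : ∀ z ∈ D, ‖cx z‖ < M)
    (ρ : ℝ) (hρ : 24 ≤ ρ) (hρM : 32 * (M + 1) ^ 2 ≤ ρ ^ 3) (β : ℝ)
    (hβ : 0 ≤ β) (u : Z2 → ℝ) (hu : ∀ z ∈ D, u z ≤ av u z) (x : Z2) (hx : x ∈ D) (e : ℂ)
    (he : ‖e‖ = 1) (hxe : cx x = ‖cx x‖ * e)
    (hb : ∀ z ∈ D, ∀ w ∈ nb z, w ∉ D → u w ≤ 0 ∨ (u w ≤ β ∧ ‖cx w‖ ≤ M + 1 ∧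
      ρ / 2 ≤ ‖cx w - M * e‖)) :
    u x ≤ 20 * β * ((M - ‖cx x‖ + 3) / ρ) := by
  have hρ0 : 0 < ρ := by linarith
  have hM0 : 0 < M := by linarith
  have hpn : ‖(((M + ρ : ℝ) : ℂ) * e)‖ = M + ρ := by
    rw [norm_mul, he, mul_one, Complex.norm_real, Real.norm_eq_abs, abs_of_nonneg (by linarith)]
  have h := barrier D M (by linarith) hD (((M + ρ : ℝ) : ℂ) * e) ρ (by linarith) hρM (by
    intro z hz
    have h1 := norm_sub_norm_le (((M + ρ : ℝ) : ℂ) * e) (cx z)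
    rw [hpn, norm_sub_rev] at h1
    linarith [hD z hz]) β hβ u hu (by
    intro z hz w hw hwD
    rcases hb z hz w hw hwD with h1 | ⟨h1, h2, h3⟩
    · exact Or.inl h1
    · right
      refine ⟨h1, ?_⟩
      rw [sq_norm_sub_real _ _ he]
      have h4 := sq_norm_sub_real (cx w) e he M
      set s := (cx w).re * e.re + (cx w).im * e.im
      have h5 : ρ ^ 2 / 4 ≤ ‖cx w - M * e‖ ^ 2 := by
        have := pow_le_pow_left₀ (by positivity) h3 2
        calc ρ ^ 2 / 4 = (ρ / 2) ^ 2 := by ring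
          _ ≤ _ := this
      have h6 : ‖cx w‖ ^ 2 ≤ (M + 1) ^ 2 := pow_le_pow_left₀ (norm_nonneg _) h2 2
      have h7 : M * (‖cx w‖ ^ 2 - 2 * (M + ρ) * s + (M + ρ) ^ 2) =
          (M + ρ) * ‖cx w - M * e‖ ^ 2 - ρ * ‖cx w‖ ^ 2 + M * ((M + ρ) * ρ) := by
        rw [h4]; ring
      have h8 : M * (ρ ^ 2 / 4) ≤ (M + ρ) * ‖cx w - M * e‖ ^ 2 :=
        mul_le_mul (by linarith) h5 (by positivity) (by linarith)
      have h9 : ρ * ‖cx w‖ ^ 2 ≤ ρ * (M + 1) ^ 2 := mul_le_mul_of_nonneg_left h6 hρ0.le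
      have h10 : M * (9 / 8 * ρ ^ 2) ≤ M * (‖cx w‖ ^ 2 - 2 * (M + ρ) * s + (M + ρ) ^ 2) := by
        rw [h7]
        have : ρ * (M + 1) ^ 2 ≤ M * (M * ρ + 3 * ρ) := by nlinarith
        have h11 : M * (3 * ρ) ≤ M * (ρ ^ 2 / 8) := by
          apply mul_le_mul_of_nonneg_left _ hM0.le
          nlinarith
        nlinarith
      exact le_of_mul_le_mul_left h10 hM0) x hx
  refine h.trans (mul_le_mul_of_nonneg_left ?_ (by positivity))
  have hxM := hD x hx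
  have h1 : ‖cx x - (((M + ρ : ℝ) : ℂ) * e)‖ = M + ρ - ‖cx x‖ := by
    have : cx x - (((M + ρ : ℝ) : ℂ) * e) = ((-(M + ρ - ‖cx x‖) : ℝ) : ℂ) * e := by
      conv_lhs => rw [hxe]
      push_cast; ring
    rw [this, norm_mul, he, mul_one, Complex.norm_real, Real.norm_eq_abs, abs_neg,
      abs_of_nonneg (by linarith)]
  rw [h1]
  have h2 := Real.log_le_sub_one_of_pos (x := (M + ρ - ‖cx x‖) / ρ) (by
    apply div_pos _ hρ0; linarith)
  have h3 : (M - ‖cx x‖ + 3) / ρ = ((M + ρ - ‖cx x‖) / ρ - 1) + 3 / ρ := by field_simp; ring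
  rw [h3]
  linarith

end Pool.Agent.H96.LE
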