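import Pool.Agent.H96.LE.Fomin

/-!
# Determinants and the change of weights
-/

namespace Pool.Agent.H96.LE

open Finset

variable {𝕜 : Type*} [RCLike 𝕜]

/-- transition matrix on `D` -/
def Qm (q : Z2 → Z2 → 𝕜) (D : Finset Z2) : Matrix D D 𝕜 :=
  Matrix.of (fun z w => if (w : Z2) ∈ nb (z : Z2) then q z w else 0)

/-- determinant of the Laplacian on `D` -/
noncomputable def dl (q : Z2 → Z2 → 𝕜) (D : Finset Z2) : 𝕜 := (1 - Qm q D).det

lemma mulVec_Qm (q : Z2 → Z2 → 𝕜) (D : Finset Z2) (u : Z2 → 𝕜) (hu : ∀ z, z ∉ D → u z = 0)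
    (z : D) : ((1 - Qm q D).mulVec (fun w => u w)) z = u z - ∑ w ∈ nb (z : Z2), q z w * u w := by
  rw [Matrix.sub_mulVec, Matrix.one_mulVec, Pi.sub_apply]
  congr 1
  unfold Matrix.mulVec dotProduct Qm
  simp only [Matrix.of_apply, ite_mul, zero_mul]
  rw [Finset.sum_coe_sort D (fun w => if w ∈ nb (z : Z2) then q z w * u w else 0)]
  rw [Finset.sum_ite_mem]
  have : ∑ w ∈ nb (z : Z2), q z w * u w =
      ∑ w ∈ D ∩ nb (z : Z2), q z w * u w := by
    symm
    apply Finset.sum_subset Finset.inter_subset_right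
    intro w _ hw2
    have : w ∉ D := by
      intro h
      exact hw2 (Finset.mem_inter.2 ⟨h, by assumption⟩)
    rw [hu w this, mul_zero]
  rw [this]

lemma dl_ne_zero {q : Z2 → Z2 → 𝕜} (hq : GW q) (D : Finset Z2) : dl q D ≠ 0 := by
  intro h
  unfold dl at h
  rw [← Matrix.exists_mulVec_eq_zero_iff] at h
  obtain ⟨v, hv, hv0⟩ := h
  apply hv
  let u : Z2 → 𝕜 := fun z => if hz : z ∈ D then v ⟨z, hz⟩ else 0
  have hu : ∀ z, z ∉ D → u z = 0 := fun z hz => by simp [u, hz]
  have huv : (fun w : D => u w) = v := by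
    funext w
    simp [u]
  have h0 := uniq hq D u (fun _ => 0) (by
    intro z hz
    have h1 := mulVec_Qm q D u hu ⟨z, hz⟩
    rw [huv, hv0] at h1
    simp only [Pi.zero_apply] at h1
    exact (sub_eq_zero.1 h1.symm)) (by simp) (by
    intro z _ w _ hw
    exact hu w hw)
  funext w
  rw [← huv]
  exact h0 w w.2

lemma dl_erase {q : Z2 → Z2 → 𝕜} (hq : GW q) (D : Finset Z2) {a : Z2} (ha : a ∈ D) :
    dl q D * gr q D a a = dl q (D.erase a) := by
  set A : Matrix D D 𝕜 := 1 - Qm q D with hA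
  set v : D → 𝕜 := fun w => gr q D a w with hv
  have h1 : A.mulVec v = Pi.single ⟨a, ha⟩ 1 := by
    funext z
    rw [hA, hv, mulVec_Qm q D (fun w => gr q D a w) (fun z hz => gr_out D a ha z hz) z]
    rw [gr_step hq D a ha z z.2]
    by_cases hz : (z : Z2) = a
    · have : z = ⟨a, ha⟩ := Subtype.ext hz
      subst this
      simp
    · have : z ≠ ⟨a, ha⟩ := fun e => hz (congrArg Subtype.val e)
      rw [if_neg hz, Pi.single_eq_of_ne this]
      ring
  have h2 : Matrix.cramer A (Pi.single ⟨a, ha⟩ 1) = A.det • v := by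
    rw [Matrix.cramer_eq_adjugate_mulVec, ← h1, Matrix.mulVec_mulVec, Matrix.adjugate_mul,
      Matrix.smul_mulVec, Matrix.one_mulVec]
  have h3 := congrFun h2 ⟨a, ha⟩
  rw [Matrix.cramer_apply] at h3
  simp only [Pi.smul_apply, smul_eq_mul] at h3
  have h4 : (A.updateCol ⟨a, ha⟩ (Pi.single ⟨a, ha⟩ 1)).det = dl q (D.erase a) := by
    rw [Matrix.twoBlockTriangular_det _ (fun w : D => (w : Z2) = a)]
    · have hb1 : ((A.updateCol ⟨a, ha⟩ (Pi.single ⟨a, ha⟩ 1)).toSquareBlockProp
          (fun w : D => (w : Z2) = a)).det = 1 := by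
        have U : Unique {w : D // (w : Z2) = a} :=
          { default := ⟨⟨a, ha⟩, rfl⟩
            uniq := fun w => Subtype.ext (Subtype.ext w.2) }
        rw [Matrix.det_unique]
        have : (default : {w : D // (w : Z2) = a}) = ⟨⟨a, ha⟩, rfl⟩ :=
          (U.eq_default ⟨⟨a, ha⟩, rfl⟩).symm
        rw [this]
        simp [Matrix.toSquareBlockProp, Matrix.toBlock]
      rw [hb1, one_mul]
      unfold dl
      let e : {w : D // ¬ (w : Z2) = a} ≃ (D.erase a : Finset Z2) :=
        { toFun := fun w => ⟨w.1, Finset.mem_erase.2 ⟨w.2, w.1.2⟩⟩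
          invFun := fun w => ⟨⟨w.1, Finset.mem_of_mem_erase w.2⟩, (Finset.mem_erase.1 w.2).1⟩
          left_inv := fun w => rfl
          right_inv := fun w => rfl }
      rw [← Matrix.det_submatrix_equiv_self e (1 - Qm q (D.erase a))]
      congr 1
      ext i j
      simp only [Matrix.toSquareBlockProp, Matrix.toBlock, Matrix.submatrix_apply]
      have hj : (j : D) ≠ ⟨a, ha⟩ := fun h => j.2 (congrArg Subtype.val h)
      rw [Matrix.updateCol_ne hj]
      rw [hA]
      simp only [Matrix.sub_apply, Qm, Matrix.of_apply, Matrix.one_apply]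
      have h6 : ((i : D) = (j : D)) ↔ e i = e j := by
        rw [e.apply_eq_iff_eq]
        exact Subtype.ext_iff.symm
      simp only [h6]
      rfl
    · intro i hi j hj
      have hj' : j = ⟨a, ha⟩ := Subtype.ext hj
      subst hj'
      rw [Matrix.updateCol_self]
      have : i ≠ ⟨a, ha⟩ := fun h => hi (congrArg Subtype.val h)
      exact Pi.single_eq_of_ne this _
  rw [← h4, h3, hA, dl]

/-- phase product of a list -/
def phl (c : Z2 → Z2 → 𝕜) : List Z2 → 𝕜
  | [] => 1
  | a :: t => wt c a t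

lemma norm_wt_le_one {c : Z2 → Z2 → 𝕜} (hc : ∀ z w, ‖c z w‖ ≤ 1) (a : Z2) (t : List Z2) :
    ‖wt c a t‖ ≤ 1 := by
  induction t generalizing a with
  | nil => simp
  | cons b t ih =>
    rw [wt_cons, norm_mul]
    exact mul_le_one₀ (hc a b) (norm_nonneg _) (ih b)

lemma norm_phl_le {c : Z2 → Z2 → 𝕜} (hc : ∀ z w, ‖c z w‖ ≤ 1) (l : List Z2) : ‖phl c l‖ ≤ 1 := by
  cases l with
  | nil => simp [phl]
  | cons a t => exact norm_wt_le_one hc a t

/-- change of weights for functionals of the loop erasure -/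
theorem change_weight {q0 q1 c : Z2 → Z2 → 𝕜} (hq0 : GW q0) (hq1 : GW q1)
    (hc : ∀ z w, ‖c z w‖ ≤ 1) (hqc : ∀ z, ∀ w ∈ nb z, q1 z w = q0 z w * c z w) {O : Finset Z2} (n : ℕ) :
    ∀ (D : Finset Z2) (_ : D.card ≤ n) (_ : Disjoint D O) (x : Z2) (Ψ : List Z2 → 𝕜) (C : ℝ)
      (_ : ∀ l, ‖Ψ l‖ ≤ C),
      dl q1 D * PS q1 D O x (fun l => Ψ (ler l)) =
      dl q0 D * PS q0 D O x (fun l => (fun η => Ψ η * phl c η *
        (dl q1 (D \ η.toFinset) / dl q0 (D \ η.toFinset))) (ler l)) := by
  induction n with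
  | zero =>
    intro D hD hDO x Ψ C hΨ
    have hD0 : D = ∅ := Finset.card_eq_zero.1 (Nat.le_zero.1 hD)
    subst hD0
    by_cases hxO : x ∈ O
    · rw [PS_out (by simp) hxO, PS_out (by simp) hxO]
      simp only [Finset.empty_sdiff]
      have : ler [x] = [x] := by simp [ler]
      rw [this]
      simp only [phl, wt_nil, mul_one]
      have := dl_ne_zero hq0 (∅ : Finset Z2)
      field_simp
    · rw [PS_none (by simp) hxO, PS_none (by simp) hxO]
      simp
  | succ n ih =>
    intro D hD hDO x Ψ C hΨ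
    have hdl0 := dl_ne_zero hq0 D
    by_cases hx : x ∈ D
    · have hDe : (D.erase x).card ≤ n := by
        rw [Finset.card_erase_of_mem hx]; omega
      have hDO' : Disjoint (D.erase x) O := hDO.mono_left (Finset.erase_subset _ _)
      rw [last_visit hq1 hDO hx Ψ C hΨ]
      -- bound for the ratio
      obtain ⟨B, hB⟩ : ∃ B : ℝ, ∀ η : List Z2,
          ‖dl q1 (D \ η.toFinset) / dl q0 (D \ η.toFinset)‖ ≤ B := by
        refine ⟨∑ S ∈ D.powerset, ‖dl q1 S / dl q0 S‖, fun η => ?_⟩
        exact Finset.single_le_sum (f := fun S => ‖dl q1 S / dl q0 S‖)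
          (fun S _ => norm_nonneg _) (Finset.mem_powerset.2 Finset.sdiff_subset)
      have hB0 : 0 ≤ B := (norm_nonneg _).trans (hB [])
      have hC0 : 0 ≤ C := (norm_nonneg _).trans (hΨ [])
      have hbd : ∀ l : List Z2, ‖(fun η : List Z2 => Ψ η * phl c η *
        (dl q1 (D \ η.toFinset) / dl q0 (D \ η.toFinset))) l‖ ≤ C * 1 * B := by
        intro l
        simp only [norm_mul]
        exact mul_le_mul (mul_le_mul (hΨ l) (norm_phl_le hc l) (norm_nonneg _) hC0) (hB l)
          (norm_nonneg _) (by positivity)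
      rw [last_visit hq0 hDO hx _ _ hbd]
      rw [← mul_assoc, dl_erase hq1 D hx, ← mul_assoc, dl_erase hq0 D hx]
      rw [Finset.mul_sum, Finset.mul_sum]
      apply Finset.sum_congr rfl
      intro b hb
      have h1 := ih (D.erase x) hDe hDO' b (fun η => Ψ (x :: η)) C (fun l => hΨ _)
      have h2 : dl q1 (D.erase x) * (q1 x b * PS q1 (D.erase x) O b (fun l => Ψ (x :: ler l))) =
          q1 x b * (dl q1 (D.erase x) * PS q1 (D.erase x) O b (fun l => Ψ (x :: ler l))) := by
        ring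
      rw [h2, h1, hqc x b hb]
      have h3 : PS q0 (D.erase x) O b (fun l => (fun η : List Z2 => Ψ η * phl c η *
          (dl q1 (D \ η.toFinset) / dl q0 (D \ η.toFinset))) (x :: ler l)) =
          c x b * PS q0 (D.erase x) O b (fun l => (fun η => Ψ (x :: η) * phl c η *
        (dl q1 ((D.erase x) \ η.toFinset) / dl q0 ((D.erase x) \ η.toFinset))) (ler l)) := by
        rw [← PS_mul_left]
        apply PS_congr
        intro t _
        simp only
        have h4 : D \ (x :: ler (b :: t)).toFinset = (D.erase x) \ (ler (b :: t)).toFinset := by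
          ext z
          simp only [Finset.mem_sdiff, List.mem_toFinset, List.mem_cons, Finset.mem_erase, not_or]
          tauto
        have h5 : phl c (x :: ler (b :: t)) = c x b * phl c (ler (b :: t)) := by
          rw [ler_eq]
          simp [phl]
        rw [h4, h5]
        ring
      rw [h3]
      ring
    · by_cases hxO : x ∈ O
      · rw [PS_out hx hxO, PS_out hx hxO]
        have h1 : ler [x] = [x] := by simp [ler]
        have h2 : D \ [x].toFinset = D := by
          ext z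
          simp only [List.toFinset_cons, List.toFinset_nil, insert_empty_eq,
            Finset.mem_sdiff, Finset.mem_singleton, and_iff_left_iff_imp]
          intro hz e
          exact hx (e ▸ hz)
        simp only [h1, h2, phl, wt_nil, mul_one]
        field_simp
      · rw [PS_none hx hxO, PS_none hx hxO]
        simp

/-- change of weights, when the complement of every loop erased path is gauge trivial -/
theorem change_weight' {q0 q1 c : Z2 → Z2 → 𝕜} (hq0 : GW q0) (hq1 : GW q1)
    (hc : ∀ z w, ‖c z w‖ ≤ 1) (hqc : ∀ z, ∀ w ∈ nb z, q1 z w = q0 z w * c z w) {D O : Finset Z2}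
    (hDO : Disjoint D O) (x : Z2) (Ψ : List Z2 → 𝕜) (C : ℝ) (hΨ : ∀ l, ‖Ψ l‖ ≤ C)
    (htriv : ∀ t, P D O x t →
      dl q1 (D \ (ler (x :: t)).toFinset) = dl q0 (D \ (ler (x :: t)).toFinset)) :
    PS q1 D O x (fun l => Ψ (ler l)) =
      (dl q0 D / dl q1 D) * PS q0 D O x (fun l => Ψ (ler l) * phl c (ler l)) := by
  have h := change_weight hq0 hq1 hc hqc D.card D le_rfl hDO x Ψ C hΨ
  have h2 : PS q0 D O x (fun l => (fun η => Ψ η * phl c η *
        (dl q1 (D \ η.toFinset) / dl q0 (D \ η.toFinset))) (ler l)) =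
      PS q0 D O x (fun l => Ψ (ler l) * phl c (ler l)) := by
    apply PS_congr
    intro t ht
    simp only
    rw [htriv t ht, div_self (dl_ne_zero hq0 _), mul_one]
  rw [h2] at h
  have h1 := dl_ne_zero hq1 D
  field_simp
  rw [mul_comm, h]

/-- gauge invariance -/
theorem dl_gauge {q0 q1 : Z2 → Z2 → 𝕜} (D : Finset Z2) (g : Z2 → 𝕜) (hg : ∀ z ∈ D, g z ≠ 0)
    (h : ∀ z ∈ D, ∀ w ∈ D, w ∈ nb z → q1 z w = (g z)⁻¹ * q0 z w * g w) :
    dl q1 D = dl q0 D := by
  unfold dl
  have h1 : (1 : Matrix D D 𝕜) - Qm q1 D = Matrix.diagonal (fun z : D => (g z)⁻¹) *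
      (1 - Qm q0 D) * Matrix.diagonal (fun z : D => g z) := by
    ext z w
    rw [Matrix.mul_diagonal, Matrix.diagonal_mul]
    simp only [Matrix.sub_apply, Matrix.one_apply, Qm, Matrix.of_apply]
    have hz := hg z z.2
    by_cases hzw : z = w
    · subst hzw
      have : (z : Z2) ∉ nb (z : Z2) := fun hh => nb_ne hh rfl
      simp [this, hz]
    · by_cases hn : (w : Z2) ∈ nb (z : Z2)
      · simp only [hzw, if_false, hn, if_true]
        rw [h z z.2 w w.2 hn]
        ring
      · simp [hzw, hn]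
  rw [h1, Matrix.det_mul, Matrix.det_mul, Matrix.det_diagonal, Matrix.det_diagonal]
  have h2 : (∏ z : D, (g z)⁻¹) * (∏ z : D, g z) = 1 := by
    rw [← Finset.prod_mul_distrib]
    apply Finset.prod_eq_one
    intro z _
    exact inv_mul_cancel₀ (hg z z.2)
  calc (∏ z : D, (g z)⁻¹) * (1 - Qm q0 D).det * ∏ z : D, g z =
      ((∏ z : D, (g z)⁻¹) * (∏ z : D, g z)) * (1 - Qm q0 D).det := by ring
    _ = _ := by rw [h2, one_mul]

end Pool.Agent.H96.LE
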