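import Pool.Agent.H96.LE.Tor5

/-!
# Limits of product laws on the torus
-/

namespace Pool.Agent.H96.LE

open Finset MeasureTheory Filter Topology
open scoped ENNReal

instance : Nontrivial T1 := ⟨⟨0, ((1/2 : ℝ) : T1), by
  intro h
  have := fo_coe 1 (1/2)
  rw [← h, fo_arg_zero] at this
  have h2 : 2 * (Real.pi : ℂ) * Complex.I * ((1 : ℤ) : ℂ) * (((1/2 : ℝ)) : ℂ) = Real.pi * Complex.I := by
    push_cast; ring
  rw [h2, Complex.exp_pi_mul_I] at this
  norm_num at this⟩⟩

lemma Ss_zero_iff (y : T1) (h : Ss y = 0) : y = 0 ∨ y = ((1 / 2 : ℝ) : T1) := by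
  induction y using QuotientAddGroup.induction_on with
  | H t =>
    change Ss ((t : ℝ) : T1) = 0 at h
    rw [Ss_coe, Real.sin_eq_zero_iff] at h
    obtain ⟨m, hm⟩ := h
    have ht : t = (m : ℝ) / 2 := by
      have := Real.pi_pos
      have h2 : Real.pi * (2 * t - m) = 0 := by linarith
      have h3 := (mul_eq_zero.1 h2).resolve_left this.ne'
      linarith
    rcases Int.even_or_odd' m with ⟨c, hc | hc⟩
    · left
      change ((t : ℝ) : T1) = 0
      rw [ht, hc, AddCircle.coe_eq_zero_iff]
      refine ⟨c, ?_⟩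
      push_cast
      simp
    · right
      change ((t : ℝ) : T1) = ((1 / 2 : ℝ) : T1)
      rw [ht, hc, ← sub_eq_zero, ← AddCircle.coe_sub, AddCircle.coe_eq_zero_iff]
      refine ⟨c, ?_⟩
      push_cast
      simp
      ring

lemma hr_null (u : T1) : hr {v | Ss (v - u) = 0} = 0 := by
  have h1 : {v | Ss (v - u) = 0} ⊆ {u} ∪ {u + ((1 / 2 : ℝ) : T1)} := by
    intro v hv
    rcases Ss_zero_iff _ hv with h | h
    · left; exact sub_eq_zero.1 h
    · right
      rw [Set.mem_singleton_iff, ← h]
      abel
  apply measure_mono_null h1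
  apply measure_union_null <;> exact measure_singleton _

/-- the sets of near ties -/
def Tie (k : ℕ) (r : ℝ) : Set (Fin k → T1) := {x | ∃ a b, a < b ∧ |Ss (x b - x a)| ≤ r}

lemma isClosed_Tie (k : ℕ) (r : ℝ) : IsClosed (Tie k r) := by
  have : Tie k r = ⋃ a, ⋃ b, {x | a < b ∧ |Ss (x b - x a)| ≤ r} := by
    ext x
    simp [Tie]
  rw [this]
  apply isClosed_iUnion_of_finite
  intro a
  apply isClosed_iUnion_of_finite
  intro b
  by_cases hab : a < b
  · simp only [hab, true_and]
    exact isClosed_le ((continuous_Ss.comp ((continuous_apply b).sub (continuous_apply a))).abs)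
      continuous_const
  · simp only [hab, false_and]
    exact isClosed_empty

lemma Dd_zero_iff {k : ℕ} (x : Fin k → T1) (h : Dd x = 0) : x ∈ Tie k 0 := by
  unfold Dd at h
  rw [Finset.prod_eq_zero_iff] at h
  obtain ⟨a, _, ha⟩ := h
  rw [Finset.prod_eq_zero_iff] at ha
  obtain ⟨b, hb, hab⟩ := ha
  exact ⟨a, b, Finset.mem_Ioi.1 hb, by rw [hab, abs_zero]⟩

lemma null_tie {k : ℕ} {n : ℝ} (hn : 0 < n) (c : Fin k → T1) (hpos : ∀ j x, 0 ≤ gR n (c j) x) :
    (Measure.pi (fun j => lM n (c j))) (Tie k 0) = 0 := by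
  have : ∀ j, IsProbabilityMeasure (lM n (c j)) := fun j => isProb_lM hn (c j) (hpos j)
  have h1 : Tie k 0 = ⋃ a, ⋃ b, {x | a < b ∧ |Ss (x b - x a)| ≤ 0} := by
    ext x
    simp [Tie]
  rw [h1]
  rw [measure_iUnion_null_iff]
  intro a
  rw [measure_iUnion_null_iff]
  intro b
  by_cases hab : a < b
  · have h2 : {x : Fin k → T1 | a < b ∧ |Ss (x b - x a)| ≤ 0} =
        {x | (x a, x b) ∈ {p : T1 × T1 | Ss (p.2 - p.1) = 0}} := by
      ext x
      simp [hab]
    have hS : MeasurableSet {p : T1 × T1 | Ss (p.2 - p.1) = 0} :=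
      (isClosed_eq (continuous_Ss.comp (continuous_snd.sub continuous_fst)) continuous_const).measurableSet
    rw [h2, pi_pair (fun j => lM n (c j)) hab.ne hS, Measure.measure_prod_null hS]
    apply Filter.Eventually.of_forall
    intro u
    have h3 : Prod.mk u ⁻¹' {p : T1 × T1 | Ss (p.2 - p.1) = 0} = {v | Ss (v - u) = 0} := rfl
    show (lM n (c b)) (Prod.mk u ⁻¹' {p : T1 × T1 | Ss (p.2 - p.1) = 0}) = 0
    rw [h3]
    exact withDensity_absolutelyContinuous _ _ (hr_null u)
  · have : {x : Fin k → T1 | a < b ∧ |Ss (x b - x a)| ≤ 0} = ∅ := by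
      ext x; simp [hab]
    rw [this, measure_empty]

lemma eps_eq {k : ℕ} (x : Fin k → T1) :
    eps x = Set.indicator {x | 0 < Dd x} (fun _ => (1 : ℝ)) x - Set.indicator {x | Dd x < 0} (fun _ => (1 : ℝ)) x := by
  unfold eps
  rcases lt_trichotomy (Dd x) 0 with h | h | h
  · rw [sign_neg h, Set.indicator_of_notMem (by simp [h.le]), Set.indicator_of_mem (by exact h)]; simp
  · rw [Set.indicator_of_notMem (by simp [h]), Set.indicator_of_notMem (by simp [h]), h]; simp
  · rw [sign_pos h, Set.indicator_of_mem (by exact h), Set.indicator_of_notMem (by simp [h.le])]; simp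

lemma integral_eps {k : ℕ} (μ : Measure (Fin k → T1)) [IsProbabilityMeasure μ] :
    ∫ x, eps x ∂μ = (μ {x | 0 < Dd x}).toReal - (μ {x | Dd x < 0}).toReal := by
  have h1 : MeasurableSet {x : Fin k → T1 | 0 < Dd x} :=
    (isOpen_lt continuous_const continuous_Dd).measurableSet
  have h2 : MeasurableSet {x : Fin k → T1 | Dd x < 0} :=
    (isOpen_lt continuous_Dd continuous_const).measurableSet
  simp only [eps_eq]
  rw [integral_sub, integral_indicator_const _ h1, integral_indicator_const _ h2]
  · simp [Measure.real]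
  · exact (integrable_const _).indicator h1
  · exact (integrable_const _).indicator h2

theorem tor_main {ι : Type*} {l : Filter ι} [l.NeBot] {k : ℕ} {n : ℝ} (hn : 0 < n)
    (c : Fin k → T1) (P : ι → Fin k → ProbabilityMeasure T1)
    (h : ∀ j, ∀ m : ℤ, Tendsto (fun i => ∫ x, fo m x ∂(P i j : Measure T1)) l
      (𝓝 ((al n m : ℂ) * fo m (c j)))) :
    Tendsto (fun i => ∫ x, (eps x : ℂ) ∂(Measure.pi (fun j => (P i j : Measure T1)))) l (𝓝 (FC n c)) ∧
    ∀ η : ℝ, 0 < η → ∃ r : ℝ, 0 < r ∧ ∀ᶠ i in l,
      (Measure.pi (fun j => (P i j : Measure T1))) (Tie k r) ≤ ENNReal.ofReal η := by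
  have hpos : ∀ j x, 0 ≤ gR n (c j) x := fun j => gR_nonneg hn (c j) (fun i => P i j) (h j)
  have : ∀ j, IsProbabilityMeasure (lM n (c j)) := fun j => isProb_lM hn (c j) (hpos j)
  set M : Fin k → ProbabilityMeasure T1 := fun j => ⟨lM n (c j), isProb_lM hn (c j) (hpos j)⟩ with hM
  have hP : Tendsto P l (𝓝 M) := by
    rw [tendsto_pi_nhds]
    intro j
    exact circ_weak hn (c j) (fun i => P i j) (h j)
  have hprod : Tendsto (fun i => ProbabilityMeasure.pi (P i)) l (𝓝 (ProbabilityMeasure.pi M)) :=
    (ProbabilityMeasure.continuous_pi.tendsto M).comp hP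
  have hMM : (ProbabilityMeasure.pi M : Measure (Fin k → T1)) = Measure.pi (fun j => lM n (c j)) := rfl
  have hnull := null_tie hn c hpos
  constructor
  · have h1 : ((ProbabilityMeasure.pi M : ProbabilityMeasure (Fin k → T1)) : Measure (Fin k → T1))
        (frontier {x | 0 < Dd x}) = 0 := by
      rw [hMM]
      apply measure_mono_null _ hnull
      intro x hx
      have := frontier_lt_subset_eq continuous_const continuous_Dd hx
      exact Dd_zero_iff x (Eq.symm this)
    have h2 : ((ProbabilityMeasure.pi M : ProbabilityMeasure (Fin k → T1)) : Measure (Fin k → T1))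
        (frontier {x | Dd x < 0}) = 0 := by
      rw [hMM]
      apply measure_mono_null _ hnull
      intro x hx
      have := frontier_lt_subset_eq continuous_Dd continuous_const hx
      exact Dd_zero_iff x this
    have h3 := ProbabilityMeasure.tendsto_measure_of_null_frontier_of_tendsto' hprod h1
    have h4 := ProbabilityMeasure.tendsto_measure_of_null_frontier_of_tendsto' hprod h2
    have h5 := (ENNReal.tendsto_toReal (measure_ne_top _ _)).comp h3
    have h6 := (ENNReal.tendsto_toReal (measure_ne_top _ _)).comp h4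
    have h7 := h5.sub h6
    have h8 := (Complex.continuous_ofReal.tendsto _).comp h7
    have e1 : FC n c = (((((ProbabilityMeasure.pi M : Measure (Fin k → T1)) {x | 0 < Dd x})).toReal -
        (((ProbabilityMeasure.pi M : Measure (Fin k → T1)) {x | Dd x < 0})).toReal : ℝ) : ℂ) := by
      rw [← integral_eps, hMM]
      have hg : ∀ j, Continuous (gR n (c j)) := fun j => continuous_gR hn (c j)
      have : ∀ j, IsProbabilityMeasure (hr.withDensity (fun x => ENNReal.ofReal (gR n (c j) x))) :=
        fun j => isProb_lM hn (c j) (hpos j)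
      have e2 : Measure.pi (fun j => lM n (c j)) =
          (hm k).withDensity (fun x => ENNReal.ofReal (∏ j, gR n (c j) (x j))) :=
        pi_withDensity (fun j => gR n (c j)) hg hpos
      rw [e2, integral_withDensity_eq_integral_toReal_smul]
      · unfold FC
        rw [← integral_complex_ofReal]
        congr 1
        funext x
        rw [ENNReal.toReal_ofReal (Finset.prod_nonneg (fun j _ => hpos j _)), smul_eq_mul]
        push_cast
        rw [mul_comm]
        congr 1
        apply Finset.prod_congr rfl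
        intro j _
        rw [gR_coe]
      · exact (continuous_finsetProd _ (fun j _ => (hg j).comp (continuous_apply j))).measurable.ennreal_ofReal
      · exact Filter.Eventually.of_forall (fun x => ENNReal.ofReal_lt_top)
    rw [e1]
    apply h8.congr
    intro i
    simp only [Function.comp_apply]
    rw [← integral_eps, ← integral_complex_ofReal]
    rfl
  · intro η hη
    have h1 : Tendsto ((fun s => (Measure.pi (fun j => lM n (c j))) s) ∘
        (fun m : ℕ => Tie k (1 / ((m : ℝ) + 1)))) atTop
        (𝓝 ((Measure.pi (fun j => lM n (c j))) (⋂ m : ℕ, Tie k (1 / ((m : ℝ) + 1))))) := by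
      apply tendsto_measure_iInter_atTop
      · intro m
        exact (isClosed_Tie k _).measurableSet.nullMeasurableSet
      · intro m m' hmm x hx
        obtain ⟨a, b, hab, hx⟩ := hx
        refine ⟨a, b, hab, hx.trans ?_⟩
        apply one_div_le_one_div_of_le (by positivity)
        have : (m : ℝ) ≤ m' := by exact_mod_cast hmm
        linarith
      · exact ⟨0, measure_ne_top _ _⟩
    have h2 : (⋂ m : ℕ, Tie k (1 / ((m : ℝ) + 1))) ⊆ Tie k 0 := by
      intro x hx
      rw [Set.mem_iInter] at hx
      by_contra hcon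
      have h3 : ∀ a b, a < b → 0 < |Ss (x b - x a)| := by
        intro a b hab
        by_contra hc
        push Not at hc
        exact hcon ⟨a, b, hab, hc⟩
      have h4 : ∃ ε : ℝ, 0 < ε ∧ ∀ a b, a < b → ε < |Ss (x b - x a)| := by
        classical
        set T : Finset (Fin k × Fin k) := univ.filter (fun p => p.1 < p.2) with hT
        by_cases hTe : T.Nonempty
        · obtain ⟨p, hp, hmin⟩ := T.exists_min_image (fun p => |Ss (x p.2 - x p.1)|) hTe
          have hp' : p.1 < p.2 := by simpa [hT] using hp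
          refine ⟨|Ss (x p.2 - x p.1)| / 2, by have := h3 _ _ hp'; positivity, fun a b hab => ?_⟩
          have h5 := hmin (a, b) (by simp [hT, hab])
          have h6 := h3 _ _ hp'
          simp only at h5
          linarith
        · refine ⟨1, one_pos, fun a b hab => ?_⟩
          exfalso
          exact hTe ⟨(a, b), by simp [hT, hab]⟩
      obtain ⟨ε, hε, h5⟩ := h4
      obtain ⟨m, hm⟩ := exists_nat_one_div_lt hε
      obtain ⟨a, b, hab, h6⟩ := hx m
      have := h5 a b hab
      linarith
    have h3 : (Measure.pi (fun j => lM n (c j))) (⋂ m : ℕ, Tie k (1 / ((m : ℝ) + 1))) = 0 :=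
      measure_mono_null h2 hnull
    rw [h3] at h1
    have h4 : ∀ᶠ m : ℕ in atTop, (Measure.pi (fun j => lM n (c j))) (Tie k (1 / ((m : ℝ) + 1))) <
        ENNReal.ofReal η := h1.eventually (gt_mem_nhds (ENNReal.ofReal_pos.2 hη))
    obtain ⟨m, hm⟩ := h4.exists
    refine ⟨1 / ((m : ℝ) + 1), by positivity, ?_⟩
    have h5 := ProbabilityMeasure.limsup_measure_closed_le_of_tendsto hprod (isClosed_Tie k (1 / ((m : ℝ) + 1)))
    have h6 := Filter.eventually_lt_of_limsup_lt (lt_of_le_of_lt h5 hm)
    filter_upwards [h6] with i hi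
    exact hi.le

end Pool.Agent.H96.LE
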