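import Pool.Agent.H96.LE.Ident3
import Pool.Agent.H96.LE.Tor6

/-!
# The limit of the discrete non-intersection probabilities
-/

namespace Pool.Agent.H96.LE

open Finset Complex MeasureTheory Filter Topology

lemma exists_path {R M : ℝ} (N : ℕ) : ∀ z ∈ VV R M, M - ‖cx z‖ ≤ N / 2 →
    ∃ t, P (VV R M) (OO M) z t := by
  induction N with
  | zero =>
    intro z hz h
    have := (mem_VV.1 hz).2
    simp at h
    linarith
  | succ N ih =>
    intro z hz h
    obtain ⟨w, hw, hw2⟩ := exists_out z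
    have hz' := mem_VV.1 hz
    by_cases hwV : w ∈ VV R M
    · obtain ⟨t, ht⟩ := ih w hwV (by push_cast at h; linarith)
      exact ⟨w :: t, hz, hw, ht⟩
    · have hwM : M ≤ ‖cx w‖ := by
        by_contra hc
        push Not at hc
        exact hwV (mem_VV.2 ⟨by linarith, hc⟩)
      have hwM2 : ‖cx w‖ < M + 1 := by
        have := (norm_nb_ge hw).2
        linarith
      exact ⟨[w], hz, hw, mem_OO.2 ⟨hwM, hwM2⟩⟩

lemma ZZ_pos {R M : ℝ} {z : Z2} (hz : z ∈ VV R M) : 0 < ZZ (VV R M) (OO M) z := by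
  obtain ⟨N, hN⟩ := exists_nat_ge (2 * (M - ‖cx z‖))
  obtain ⟨t, ht⟩ := exists_path N z hz (by linarith)
  rw [ZZ_eq]
  have h1 := (summable_pm (VV R M) (OO M) (disj_VO R M) z).le_tsum t (fun s _ => pm_nonneg _ _ _ s)
  refine lt_of_lt_of_le ?_ h1
  unfold pm
  rw [if_pos ht]
  positivity

lemma ZZ_hh (n R : ℝ) (z : Z2) : ZZ (VV R (Mn n R)) (OO (Mn n R)) z = hh n R z := by
  unfold ZZ hh PL
  apply PS_congr
  intro t ht
  rw [if_pos]
  exact P_en ht

lemma HA_PS (a n R : ℝ) (z : Z2) : HA a n R z = PS (qa a) (VV R (Mn n R)) (OO (Mn n R)) z (fun _ => 1) := by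
  unfold HA PL
  apply PS_congr
  intro t ht
  rw [if_pos]
  exact P_en ht

lemma fo_an (m : ℤ) (θ : ℝ) : fo m (an θ) = exp (((m : ℝ) / 2 * θ : ℝ) * I) := by
  unfold an
  rw [fo_coe]
  congr 1
  have := Real.pi_ne_zero
  have h2 : (Real.pi : ℂ) ≠ 0 := by exact_mod_cast this
  push_cast
  field_simp
  ring

lemma continuous_an : Continuous an := by
  unfold an
  exact (AddCircle.continuous_mk' 1).comp (continuous_id.div_const _)

lemma fourier_ex (n R : ℝ) {z : Z2} (hz : z ∈ VV R (Mn n R)) (β' : ℝ) (m : ℤ) :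
    ∫ l, fo m (an (β' + windl l)) ∂(ex (VV R (Mn n R)) (OO (Mn n R)) z) =
      exp (((m : ℝ) / 2 * β' : ℝ) * I) * (HA ((m : ℝ) / 2) n R z / (hh n R z : ℂ)) := by
  have h1 : ∀ l, fo m (an (β' + windl l)) = exp (((m : ℝ) / 2 * β' : ℝ) * I) * phl (ph ((m : ℝ) / 2)) l := by
    intro l
    rw [fo_an, phl_ph, ← Complex.exp_add]
    congr 1
    push_cast
    ring
  simp only [h1]
  rw [integral_const_mul, integral_ex (disj_VO R (Mn n R)) (ZZ_pos hz) _ 1 (fun l => by rw [norm_phl_ph]),
    HA_PS, PS_qa, ZZ_hh]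
  simp only [mul_one]

/-- the data of the discrete approximation -/
structure Dat {ι : Type*} (l : Filter ι) {k : ℕ} (n : ℝ) (θ : Fin k → ℝ) (R : ι → ℝ)
    (x b : ι → Fin k → Z2) : Prop where
  hR : Tendsto R l atTop
  hx : ∀ i j, x i j ∈ VV (R i) (Mn n (R i))
  hb : ∀ i j, b i j ∈ nb (x i j)
  hbR : ∀ i j, ‖cx (b i j)‖ ≤ R i
  hlim : ∀ j, Tendsto (fun i => cx (x i j) / (R i : ℂ)) l (𝓝 (exp (θ j * I)))

/-- the law of the family of discrete excursions -/
noncomputable abbrev EE {k : ℕ} (n R : ℝ) (x : Fin k → Z2) : Measure (Fin k → List Z2) :=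
  Measure.pi (fun j => ex (VV R (Mn n R)) (OO (Mn n R)) (x j))

lemma isProb_EE {k : ℕ} {n R : ℝ} {x : Fin k → Z2} (hx : ∀ j, x j ∈ VV R (Mn n R)) :
    IsProbabilityMeasure (EE n R x) := by
  have hp : ∀ j, IsProbabilityMeasure (ex (VV R (Mn n R)) (OO (Mn n R)) (x j)) := fun j =>
    isProb_ex (disj_VO _ _) (ZZ_pos (hx j))
  infer_instance

section main

variable {ι : Type*} {l : Filter ι} {k : ℕ} {n : ℝ} {θ : Fin k → ℝ} {R : ι → ℝ}
  {x b : ι → Fin k → Z2}

lemma Dat.b_lim (D : Dat l n θ R x b) (j : Fin k) :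
    Tendsto (fun i => cx (b i j) / (R i : ℂ)) l (𝓝 (exp (θ j * I))) := by
  have h1 : Tendsto (fun i => (cx (b i j) - cx (x i j)) / (R i : ℂ)) l (𝓝 0) := by
    rw [tendsto_zero_iff_norm_tendsto_zero]
    have h2 : Tendsto (fun i => 1 / R i) l (𝓝 0) := tendsto_const_nhds.div_atTop D.hR
    apply h2.congr'
    filter_upwards [D.hR.eventually_gt_atTop 0] with i hi
    rw [norm_div, norm_nb (D.hb i j), Complex.norm_real, Real.norm_eq_abs, abs_of_pos hi]
  have h3 := h1.add (D.hlim j)
  rw [zero_add] at h3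
  apply h3.congr
  intro i
  ring

/-- lifted angle of the inner neighbour -/
noncomputable def bet (θ : Fin k → ℝ) (b : Fin k → Z2) (j : Fin k) : ℝ :=
  θ j + arg (cx (b j) / exp (θ j * I))

lemma bet_polar (θ : Fin k → ℝ) (b : Fin k → Z2) (j : Fin k) :
    cx (b j) = ‖cx (b j)‖ * exp (bet θ b j * I) := by
  have h := polar_step (z := exp (θ j * I)) (w := cx (b j)) (Complex.exp_ne_zero _) (β := θ j) (by
    rw [norm_exp_ofReal_mul_I]; simp)
  exact h

lemma Dat.bet_lim (D : Dat l n θ R x b) (j : Fin k) :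
    Tendsto (fun i => bet θ (b i) j) l (𝓝 (θ j)) := by
  unfold bet
  have h1 : Tendsto (fun i => cx (b i j) / (R i : ℂ) / exp (θ j * I)) l (𝓝 1) := by
    have := (D.b_lim j).div_const (exp (θ j * I))
    rwa [div_self (Complex.exp_ne_zero _)] at this
  have h2 : ContinuousAt arg (1 : ℂ) := continuousAt_arg Complex.one_mem_slitPlane
  have h3 := h2.tendsto.comp h1
  rw [Complex.arg_one] at h3
  have h4 : Tendsto (fun i => arg (cx (b i j) / exp (θ j * I))) l (𝓝 0) := by
    apply h3.congr'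
    filter_upwards [D.hR.eventually_gt_atTop 0] with i hi
    simp only [Function.comp_apply]
    have e : cx (b i j) / (R i : ℂ) / exp (θ j * I) = ((R i)⁻¹ : ℝ) * (cx (b i j) / exp (θ j * I)) := by
      push_cast
      ring
    rw [e, Complex.arg_real_mul _ (inv_pos.2 hi)]
  have h5 := (tendsto_const_nhds (x := θ j)).add h4
  rw [add_zero] at h5
  exact h5

/-- lifted angle of the starting point -/
noncomputable def bet' (θ : Fin k → ℝ) (x b : Fin k → Z2) (j : Fin k) : ℝ :=
  bet θ b j + arg (cx (x j) / cx (b j))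

lemma bet'_polar (θ : Fin k → ℝ) (x b : Fin k → Z2) (j : Fin k) (h0 : cx (b j) ≠ 0) :
    cx (x j) = ‖cx (x j)‖ * exp (bet' θ x b j * I) :=
  polar_step h0 (bet_polar θ b j)

lemma Dat.bet'_lim (D : Dat l n θ R x b) (j : Fin k) :
    Tendsto (fun i => bet' θ (x i) (b i) j) l (𝓝 (θ j)) := by
  unfold bet'
  have h1 : Tendsto (fun i => (cx (x i j) / (R i : ℂ)) / (cx (b i j) / (R i : ℂ))) l (𝓝 1) := by
    have := (D.hlim j).div (D.b_lim j) (Complex.exp_ne_zero _)
    rwa [div_self (Complex.exp_ne_zero _)] at this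
  have h2 : ContinuousAt arg (1 : ℂ) := continuousAt_arg Complex.one_mem_slitPlane
  have h3 := h2.tendsto.comp h1
  rw [Complex.arg_one] at h3
  have h4 : Tendsto (fun i => arg (cx (x i j) / cx (b i j))) l (𝓝 0) := by
    apply h3.congr'
    filter_upwards [D.hR.eventually_gt_atTop 0] with i hi
    simp only [Function.comp_apply]
    have : (R i : ℂ) ≠ 0 := by exact_mod_cast hi.ne'
    rw [div_div_div_cancel_right₀ this]
  have h5 := (D.bet_lim j).add h4
  rw [add_zero] at h5
  exact h5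

/-- law of the end angle -/
noncomputable def Pl (n R : ℝ) (z : Z2) (hz : z ∈ VV R (Mn n R)) (β' : ℝ) : ProbabilityMeasure T1 :=
  ⟨(ex (VV R (Mn n R)) (OO (Mn n R)) z).map (fun l => an (β' + windl l)), by
    have := isProb_ex (disj_VO R (Mn n R)) (ZZ_pos hz)
    exact Measure.isProbabilityMeasure_map (Measurable.of_discrete).aemeasurable⟩

lemma Dat.fourier_lim (D : Dat l n θ R x b) (hn : 0 < n) (j : Fin k) (m : ℤ) :
    Tendsto (fun i => ∫ y, fo m y ∂(Pl n (R i) (x i j) (D.hx i j) (bet' θ (x i) (b i) j) : Measure T1)) l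
      (𝓝 ((al n m : ℂ) * fo m (an (θ j)))) := by
  have h1 : ∀ i, ∫ y, fo m y ∂(Pl n (R i) (x i j) (D.hx i j) (bet' θ (x i) (b i) j) : Measure T1) =
      exp (((m : ℝ) / 2 * bet' θ (x i) (b i) j : ℝ) * I) *
        (HA ((m : ℝ) / 2) n (R i) (x i j) / (hh n (R i) (x i j) : ℂ)) := by
    intro i
    rw [← fourier_ex n (R i) (D.hx i j)]
    unfold Pl
    rw [ProbabilityMeasure.coe_mk, integral_map (Measurable.of_discrete).aemeasurable
      (continuous_fo m).aestronglyMeasurable]
  simp only [h1]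
  rw [mul_comm, fo_an]
  apply Tendsto.mul
  · have h2 : Continuous (fun y : ℝ => exp (((m : ℝ) / 2 * y : ℝ) * I)) := by fun_prop
    exact (h2.tendsto (θ j)).comp (D.bet'_lim j)
  · rw [Metric.tendsto_nhds]
    intro ε hε
    have h3 := twist_limit n hn ((m : ℝ) / 2) (ε / 2) (by positivity)
    filter_upwards [D.hR.eventually h3] with i hi
    have h4 := hi (x i j) (D.hx i j) (b i j) (D.hb i j) (D.hbR i j)
    rw [dist_eq_norm]
    unfold al
    linarith

lemma EE_map (D : Dat l n θ R x b) (i : ι) :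
    Measure.pi (fun j => (Pl n (R i) (x i j) (D.hx i j) (bet' θ (x i) (b i) j) : Measure T1)) =
      (EE n (R i) (x i)).map (fun ls j => an (bet' θ (x i) (b i) j + windl (ls j))) := by
  have hp : ∀ j, IsProbabilityMeasure (ex (VV (R i) (Mn n (R i))) (OO (Mn n (R i))) (x i j)) := fun j =>
    isProb_ex (disj_VO _ _) (ZZ_pos (D.hx i j))
  have hp2 : ∀ j, SigmaFinite ((ex (VV (R i) (Mn n (R i))) (OO (Mn n (R i))) (x i j)).map
      (fun l => an (bet' θ (x i) (b i) j + windl l))) := fun j => by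
    have : IsProbabilityMeasure ((ex (VV (R i) (Mn n (R i))) (OO (Mn n (R i))) (x i j)).map
      (fun l => an (bet' θ (x i) (b i) j + windl l))) :=
      Measure.isProbabilityMeasure_map (Measurable.of_discrete).aemeasurable
    infer_instance
  unfold EE Pl
  simp only [ProbabilityMeasure.coe_mk]
  rw [← Measure.pi_map_pi (f := fun j l => an (bet' θ (x i) (b i) j + windl l))
    (fun j => (Measurable.of_discrete).aemeasurable)]

lemma Mn_atTop (hn : 0 < n) (hR : Tendsto R l atTop) : Tendsto (fun i => Mn n (R i)) l atTop := by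
  apply tendsto_atTop_mono' _ _ hR
  filter_upwards [hR.eventually_ge_atTop 0] with i hi
  exact Mn_ge hn.le hi

lemma Dat.b_ne (D : Dat l n θ R x b) {i : ι} (h : 10 ≤ R i) (j : Fin k) : cx (b i j) ≠ 0 := by
  intro h0
  have h1 := norm_nb (D.hb i j)
  rw [h0, zero_sub, norm_neg] at h1
  have := (mem_VV.1 (D.hx i j)).1
  linarith

/-- close end points are unlikely -/
theorem Dat.close_ends [l.NeBot] (D : Dat l n θ R x b) (hn : 0 < n) (η : ℝ) (hη : 0 < η) :
    ∃ r : ℝ, 0 < r ∧ ∀ᶠ i in l, (EE n (R i) (x i)) (NT k (r * Mn n (R i))) ≤ ENNReal.ofReal η := by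
  obtain ⟨r, hr, h⟩ := (tor_main hn (fun j => an (θ j))
    (fun i j => Pl n (R i) (x i j) (D.hx i j) (bet' θ (x i) (b i) j))
    (fun j m => D.fourier_lim hn j m)).2 η hη
  refine ⟨r, hr, ?_⟩
  filter_upwards [h, D.hR.eventually_ge_atTop 10] with i hi hR10
  rw [EE_map D i, Measure.map_apply (measurable_lists _) (isClosed_Tie k r).measurableSet] at hi
  refine le_trans ?_ hi
  have hM : 0 < Mn n (R i) := by unfold Mn; positivity
  apply measure_mono_ae
  filter_upwards [fam_ae (disj_VO (R i) (Mn n (R i))) (x i) (fun j => ZZ_pos (D.hx i j))] with ls hls hNT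
  exact NT_sub hM (fun z hz h0 => by
    have := (mem_VV.1 hz).1; rw [h0, norm_zero] at this; linarith)
    (fun z hz => (mem_OO.1 hz).1) (x i) _ (fun j => bet'_polar θ (x i) (b i) j (D.b_ne hR10 j)) r ls hls hNT

lemma dfac_tendsto (hn : 0 < n) (hR : Tendsto R l atTop) :
    Tendsto (fun i => dl q0 (VV (R i) (Mn n (R i))) / dl (qa (chi k)) (VV (R i) (Mn n (R i)))) l
      (𝓝 (if k % 2 = 0 then (Real.exp (-(Lf n)) : ℂ) else 1)) := by
  unfold chi
  split_ifs with h
  · obtain ⟨h1, h2⟩ := dfac_lim n hn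
    have h3 : Tendsto (fun R => (1 - Ah R (Mn n R) * Ah R (Mn n R)).det) atTop (𝓝 (Real.exp (-(Lf n)))) := by
      have h4 := (Real.continuous_exp.tendsto _).comp h2.neg
      apply h4.congr'
      filter_upwards [h1] with R hR
      simp only [Function.comp_apply, neg_neg]
      rw [Real.exp_log hR]
    have h5 := (Complex.continuous_ofReal.tendsto _).comp (h3.comp hR)
    have h6 : (Real.exp (-(Lf n)) : ℂ) = ((Real.exp (-(Lf n)) : ℝ) : ℂ) := rfl
    rw [h6]
    apply h5.congr'
    filter_upwards [hR.eventually_ge_atTop 1] with i hi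
    simp only [Function.comp_apply]
    rw [dl_ratio hi]
  · have h1 : ∀ i, dl q0 (VV (R i) (Mn n (R i))) / dl (qa 0) (VV (R i) (Mn n (R i))) = 1 := by
      intro i
      have : qa 0 = q0 := by
        funext z w
        simp [qa, ph]
      rw [this]
      exact div_self (dl_ne_zero GW_q0 _)
    simp only [h1]
    exact tendsto_const_nhds

lemma eps_const (D : Dat l n θ R x b) (hθ : Dd (fun j => an (θ j)) ≠ 0) :
    ∀ᶠ i in l, eps (fun j => an (bet θ (b i) j)) = eps (fun j => an (θ j)) := by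
  have h1 : Tendsto (fun i => Dd (fun j => an (bet θ (b i) j)) * Dd (fun j => an (θ j))) l
      (𝓝 (Dd (fun j => an (θ j)) * Dd (fun j => an (θ j)))) := by
    apply Tendsto.mul_const
    apply (continuous_Dd.tendsto _).comp
    rw [tendsto_pi_nhds]
    intro j
    exact (continuous_an.tendsto _).comp (D.bet_lim j)
  have h2 : 0 < Dd (fun j => an (θ j)) * Dd (fun j => an (θ j)) := mul_self_pos.2 hθ
  filter_upwards [h1.eventually (lt_mem_nhds h2)] with i hi
  unfold eps
  rcases lt_or_gt_of_ne hθ with h | h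
  · have : Dd (fun j => an (bet θ (b i) j)) < 0 := by
      by_contra hc
      push Not at hc
      nlinarith
    rw [sign_neg h, sign_neg this]
  · have : 0 < Dd (fun j => an (bet θ (b i) j)) := by
      by_contra hc
      push Not at hc
      nlinarith
    rw [sign_pos h, sign_pos this]

/-- **limit of the discrete non-intersection probabilities** -/
theorem Dat.disc_lim [l.NeBot] (D : Dat l n θ R x b) (hk : 1 ≤ k) (hn : 0 < n)
    (hθ : Dd (fun j => an (θ j)) ≠ 0) (hinj : ∀ i j, i ≠ j → exp (θ i * I) ≠ exp (θ j * I)) :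
    Tendsto (fun i => ((EE n (R i) (x i)) {ls | BB (VV (R i) (Mn n (R i))) ∅ ls}).toReal) l
      (𝓝 (pn n (fun j => an (θ j)))) := by
  set c : Fin k → T1 := fun j => an (θ j) with hc
  set s : ℝ := eps c with hs
  have hs1 : |s| = 1 := by
    simp only [hs]
    unfold eps
    rcases lt_or_gt_of_ne hθ with h | h
    · rw [sign_neg h]; simp
    · rw [sign_pos h]; simp
  set d : ι → ℂ := fun i => dl q0 (VV (R i) (Mn n (R i))) / dl (qa (chi k)) (VV (R i) (Mn n (R i))) with hd
  set D0 : ℂ := if k % 2 = 0 then (Real.exp (-(Lf n)) : ℂ) else 1 with hD0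
  have hD0n : ‖D0‖ = if k % 2 = 0 then Real.exp (-(Lf n)) else 1 := by
    simp only [hD0]
    split_ifs
    · rw [Complex.norm_real, Real.norm_eq_abs, abs_of_pos (Real.exp_pos _)]
    · simp
  have hD0p : 0 < ‖D0‖ := by rw [hD0n]; split_ifs <;> positivity
  have hdl : Tendsto d l (𝓝 D0) := dfac_tendsto hn D.hR
  set p : ι → ℝ := fun i => ((EE n (R i) (x i)) {ls | BB (VV (R i) (Mn n (R i))) ∅ ls}).toReal with hp
  set T : ι → ℝ := fun i => ((EE n (R i) (x i)) (NT k 4)).toReal with hT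
  set A : ι → ℂ := fun i => ∫ ls, (eps (fun j => an (bet' θ (x i) (b i) j + windl (ls j))) : ℂ)
    ∂(EE n (R i) (x i)) with hA
  -- the limit of A
  have hAl : Tendsto A l (𝓝 (FC n c)) := by
    have h1 := (tor_main hn c
      (fun i j => Pl n (R i) (x i j) (D.hx i j) (bet' θ (x i) (b i) j))
      (fun j m => D.fourier_lim hn j m)).1
    apply h1.congr
    intro i
    rw [EE_map D i, integral_map (measurable_lists _).aemeasurable measurable_epsC.aestronglyMeasurable]
  -- the limit of T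
  have hTl : Tendsto T l (𝓝 0) := by
    rw [Metric.tendsto_nhds]
    intro ε hε
    obtain ⟨r, hr, h⟩ := D.close_ends hn (ε / 2) (by positivity)
    filter_upwards [h, (Mn_atTop hn D.hR).eventually_ge_atTop (4 / r)] with i hi hM
    have := isProb_EE (D.hx i)
    have h2 : (EE n (R i) (x i)) (NT k 4) ≤ ENNReal.ofReal (ε / 2) := by
      refine le_trans (measure_mono ?_) hi
      rintro ls ⟨a, b', hab, h3⟩
      refine ⟨a, b', hab, h3.trans ?_⟩
      rw [div_le_iff₀ hr] at hM
      linarith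
    have h4 : T i ≤ ε / 2 := ENNReal.toReal_le_of_le_ofReal (by positivity) h2
    rw [Real.dist_eq, sub_zero, abs_of_nonneg ENNReal.toReal_nonneg]
    linarith
  -- separation of the inner neighbours
  have hsep : ∀ᶠ i in l, ∀ a b', a < b' → 6 ≤ ‖cx (b i a) - cx (b i b')‖ := by
    have h1 : ∀ a b' : Fin k, ∀ᶠ i in l, a < b' → 6 ≤ ‖cx (b i a) - cx (b i b')‖ := by
      intro a b'
      by_cases hab : a < b'
      · have h2 := ((D.b_lim a).sub (D.b_lim b')).norm
        have h3 : 0 < ‖exp (θ a * I) - exp (θ b' * I)‖ := by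
          rw [norm_pos_iff, sub_ne_zero]
          exact hinj a b' hab.ne
        have h4 := h2.eventually (lt_mem_nhds (half_lt_self h3))
        filter_upwards [h4, D.hR.eventually_ge_atTop (12 / ‖exp (θ a * I) - exp (θ b' * I)‖),
          D.hR.eventually_gt_atTop 0] with i hi hRi hR0 _
        rw [div_le_iff₀ h3] at hRi
        have h5 : cx (b i a) / (R i : ℂ) - cx (b i b') / (R i : ℂ) = (cx (b i a) - cx (b i b')) / (R i : ℂ) := by
          ring
        rw [h5, norm_div, Complex.norm_real, Real.norm_eq_abs, abs_of_pos hR0, lt_div_iff₀ hR0] at hi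
        nlinarith
      · exact Filter.Eventually.of_forall (fun i h => absurd h hab)
    rw [eventually_all]
    intro a
    rw [eventually_all]
    intro b'
    exact h1 a b'
  -- the identity
  have hid : ∀ᶠ i in l, ‖A i - d i * ((s : ℂ) * (p i : ℂ))‖ ≤ 2 * ‖d i‖ * T i := by
    filter_upwards [hsep, eps_const D hθ, D.hR.eventually_ge_atTop 10,
      D.hR.eventually_ge_atTop (10 / n)] with i h1 h2 h3 h4
    have hRM : R i + 10 ≤ Mn n (R i) := by
      have h5 := Mn_ge' (n := n) (R := R i) (by linarith)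
      rw [div_le_iff₀ hn] at h4
      nlinarith
    have h6 := ident_prob (M := Mn n (R i)) h3 hRM (fun z hz => mem_VV.1 hz) (fun z hz => (mem_OO.1 hz).1)
      (disj_VO _ _) hk (x i) (D.hx i) (fun j => ZZ_pos (D.hx i j)) (b i) (D.hb i) (D.hbR i)
      (bet θ (b i)) (bet_polar θ (b i)) (fun j => D.b_ne h3 j) h1
    rw [h2] at h6
    exact h6
  -- conclusion
  have h7 : Tendsto (fun i => A i - d i * ((s : ℂ) * (p i : ℂ))) l (𝓝 0) := by
    rw [tendsto_zero_iff_norm_tendsto_zero]
    have h8 : Tendsto (fun i => 2 * ‖d i‖ * T i) l (𝓝 0) := by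
      have := ((hdl.norm).const_mul 2).mul hTl
      rwa [mul_zero] at this
    exact squeeze_zero' (Filter.Eventually.of_forall (fun i => norm_nonneg _)) hid h8
  have h9 : Tendsto (fun i => d i * ((s : ℂ) * (p i : ℂ))) l (𝓝 (FC n c)) := by
    have := hAl.sub h7
    rw [sub_zero] at this
    apply this.congr
    intro i
    ring
  have h10 := h9.norm.div hdl.norm hD0p.ne'
  have h11 : ‖FC n c‖ / ‖D0‖ = pn n c := by
    unfold pn
    rw [hD0n]
    split_ifs
    · rw [Real.exp_neg, div_inv_eq_mul]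
    · rw [div_one, mul_one]
  rw [h11] at h10
  apply h10.congr'
  filter_upwards [hdl.norm.eventually_ne hD0p.ne'] with i hi
  show ‖d i * (↑s * ↑(p i))‖ / ‖d i‖ = p i
  rw [norm_mul, norm_mul, Complex.norm_real, Real.norm_eq_abs, hs1, one_mul, Complex.norm_real,
    Real.norm_eq_abs, abs_of_nonneg ENNReal.toReal_nonneg]
  exact mul_div_cancel_left₀ _ hi

end main

end Pool.Agent.H96.LE
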