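import Mathlib

/-!
# Discrete excursions, their loop erasures and scaling limits: definitions

The lattice is `δ ℤ²`; a vertex is given by its integer coordinates `v : ℤ × ℤ`.
-/

namespace Pool.Agent.H96.LE

open TopologicalSpace MeasureTheory Filter Topology

/-- The non-empty compact subsets of the plane (topologised by the Hausdorff metric) carry their
Borel sets. -/
noncomputable instance instMeasurableSpaceNC : MeasurableSpace (NonemptyCompacts ℂ) := borel _

instance instBorelSpaceNC : BorelSpace (NonemptyCompacts ℂ) := ⟨rfl⟩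

/-- The point `δ (v₁ + v₂ i)` of the lattice `δ ℤ²`. -/
noncomputable def emb (δ : ℝ) (v : ℤ × ℤ) : ℂ := (δ : ℂ) * ((v.1 : ℂ) + (v.2 : ℂ) * Complex.I)

/-- Nearest neighbours in `ℤ²`. -/
def Adj (v w : ℤ × ℤ) : Prop := |v.1 - w.1| + |v.2 - w.2| = 1

/-- The annulus `A_n = {z : 1 < |z| < e^n}`. -/
def annulus (n : ℝ) : Set ℂ := {z | 1 < ‖z‖ ∧ ‖z‖ < Real.exp n}

/-- `v :: t` is a nearest neighbour path all of whose vertices but the last lie in `A_n`, and the
last one lies on or outside the outer circle `|z| = e^n`. -/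
def IsExc (δ n : ℝ) : ℤ × ℤ → List (ℤ × ℤ) → Prop
  | v, [] => Real.exp n ≤ ‖emb δ v‖
  | v, w :: t => emb δ v ∈ annulus n ∧ Adj v w ∧ IsExc δ n w t

open Classical in
/-- The probability that simple random walk started at `a` follows the path `a :: t` and leaves
`A_n` at its end through the outer circle: `4 ^ (- number of steps)`. -/
noncomputable def excWeight (δ n : ℝ) (a : ℤ × ℤ) (t : List (ℤ × ℤ)) : ENNReal :=
  if IsExc δ n a t then (1 / 4) ^ t.length else 0

/-- Chronological loop erasure: the vertices are read one after the other; when a vertex is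
read that is already on the current self-avoiding path, the loop closed at that moment is
erased (the current path is cut back to that vertex), otherwise the vertex is appended. -/
def loopErase (l : List (ℤ × ℤ)) : List (ℤ × ℤ) :=
  l.foldl (fun p v => p.takeWhile (fun u => decide (u ≠ v)) ++ [v]) []

/-- The segment from `x` to `y`. -/
noncomputable def seg (x y : ℂ) : NonemptyCompacts ℂ :=
  ⟨⟨segment ℝ x y, by
    rw [segment_eq_image ℝ x y]
    exact isCompact_Icc.image (by fun_prop)⟩, ⟨x, left_mem_segment ℝ x y⟩⟩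

/-- The trace of the polygonal path through the vertices of a list. -/
noncomputable def trace (δ : ℝ) : List (ℤ × ℤ) → NonemptyCompacts ℂ
  | [] => {0}
  | [v] => {emb δ v}
  | v :: w :: t => seg (emb δ v) (emb δ w) ⊔ trace δ (w :: t)

/-- The joint law of (the trace of) the random walk `ω` on `δ ℤ²` started at `a` and conditioned to
stay in `A_n` until it exits through the outer circle, and (the trace of) its chronological loop
erasure `L(ω)`. -/
noncomputable def excLaw (δ n : ℝ) (a : ℤ × ℤ) : Measure (NonemptyCompacts ℂ × NonemptyCompacts ℂ) :=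
  (∑' t, excWeight δ n a t)⁻¹ • Measure.sum (fun t => excWeight δ n a t •
    Measure.dirac (trace δ (a :: t), trace δ (loopErase (a :: t))))

/-- A discrete approximation of the points `z_1, …, z_k` of the unit circle: meshes `δ i → 0` and
lattice points `a i j` of `A_n` next to the closed unit disc (that is, having a lattice neighbour
in it) which converge to `z_j`. -/
structure Approx {k : ℕ} (n : ℝ) (z : Fin k → ℂ) (δ : ℕ → ℝ) (a : ℕ → Fin k → ℤ × ℤ) : Prop where
  pos : ∀ i, 0 < δ i
  mesh : Tendsto δ atTop (𝓝 0)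
  mem : ∀ i j, emb (δ i) (a i j) ∈ annulus n
  start : ∀ i j, ∃ b, Adj (a i j) b ∧ ‖emb (δ i) b‖ ≤ 1
  lim : ∀ j, Tendsto (fun i => emb (δ i) (a i j)) atTop (𝓝 (z j))

/-- The probability measures `μ j` are the weak limits of the laws of the discrete pairs
`(ω, L(ω))` along the given approximation. -/
structure LimitAlong {k : ℕ} (n : ℝ) (δ : ℕ → ℝ) (a : ℕ → Fin k → ℤ × ℤ)
    (μ : Fin k → Measure (NonemptyCompacts ℂ × NonemptyCompacts ℂ)) : Prop where
  prob : ∀ j, IsProbabilityMeasure (μ j)
  conv : ∀ (j : Fin k) (f : BoundedContinuousFunction (NonemptyCompacts ℂ × NonemptyCompacts ℂ) ℝ),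
    Tendsto (fun i => ∫ ω, f ω ∂(excLaw (δ i) n (a i j))) atTop (𝓝 (∫ ω, f ω ∂(μ j)))

/-- `μ j` is the law of the pair `(ω^j, L(ω^j))` (as a pair of random compact sets) of the Brownian
excursion in `A_n` from `z_j`, for every `j`: the joint scaling limit of the discrete pairs, along
some discrete approximation. -/
def IsScalingLimit {k : ℕ} (n : ℝ) (z : Fin k → ℂ)
    (μ : Fin k → Measure (NonemptyCompacts ℂ × NonemptyCompacts ℂ)) : Prop :=
  ∃ δ a, Approx n z δ a ∧ LimitAlong n δ a μ

/-- The probability that `L(ω^j) ∩ ω^l = ∅` for all `j < l`, when the pairs `(ω^j, L(ω^j))` are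
independent with laws `μ j`. -/
noncomputable def nonInt {k : ℕ} (μ : Fin k → Measure (NonemptyCompacts ℂ × NonemptyCompacts ℂ)) : ℝ :=
  (Measure.pi μ).real {ω | ∀ j l, j < l → Disjoint ((ω j).2 : Set ℂ) ((ω l).1 : Set ℂ)}

end Pool.Agent.H96.LE
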