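import Mathlib

/-!
# A discrete Fejer kernel
-/

namespace Pool.Agent.H96.LE

open Finset

/-- Fejer kernel -/
noncomputable def KF (B : ℕ) (t : ℝ) : ℝ :=
  Complex.normSq (∑ l ∈ range B, Complex.exp ((l * t : ℝ) * Complex.I)) / (2 * (B : ℝ) ^ 2)

lemma KF_nonneg (B : ℕ) (t : ℝ) : 0 ≤ KF B t := div_nonneg (Complex.normSq_nonneg _) (by positivity)

lemma sum_exp_re (B : ℕ) (t c : ℝ) :
    (∑ l ∈ range B, Complex.exp ((l * t : ℝ) * Complex.I) *
      (starRingEnd ℂ) (Complex.exp ((c * t : ℝ) * Complex.I))).re = ∑ l ∈ range B, Real.cos ((c - l) * t) := by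
  rw [Complex.re_sum]
  apply Finset.sum_congr rfl
  intro l _
  rw [← Complex.exp_conj, ← Complex.exp_add]
  have : ((l * t : ℝ) : ℂ) * Complex.I + (starRingEnd ℂ) (((c * t : ℝ) : ℂ) * Complex.I) =
      ((-((c - l) * t) : ℝ) : ℂ) * Complex.I := by
    rw [map_mul, Complex.conj_ofReal, Complex.conj_I]
    push_cast; ring
  rw [this, Complex.exp_ofReal_mul_I_re, Real.cos_neg]

lemma normSq_sum (B : ℕ) (t : ℝ) :
    Complex.normSq (∑ l ∈ range B, Complex.exp ((l * t : ℝ) * Complex.I)) =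
      2 * ∑ j ∈ range B, ((B : ℝ) - j) * Real.cos (j * t) - B := by
  induction B with
  | zero => simp
  | succ B ih =>
    rw [Finset.sum_range_succ, Complex.normSq_add, ih, Finset.sum_mul, sum_exp_re]
    have h1 : Complex.normSq (Complex.exp (((B : ℝ) * t : ℝ) * Complex.I)) = 1 := by
      rw [Complex.normSq_eq_norm_sq, Complex.norm_exp_ofReal_mul_I]; norm_num
    rw [h1]
    have h2 : ∑ l ∈ range B, Real.cos (((B : ℝ) - l) * t) =
        ∑ j ∈ range B, Real.cos (((j : ℝ) + 1) * t) := by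
      rw [← Finset.sum_range_reflect]
      apply Finset.sum_congr rfl
      intro j hj
      rw [Finset.mem_range] at hj
      congr 2
      have : B - 1 - j + (j + 1) = B := by omega
      have h3 : ((B - 1 - j : ℕ) : ℝ) + (j + 1) = B := by exact_mod_cast this
      linarith
    have h3 : ∑ j ∈ range (B + 1), (((B + 1 : ℕ) : ℝ) - j) * Real.cos (j * t) =
        ∑ j ∈ range B, ((B : ℝ) - j) * Real.cos (j * t) + ∑ j ∈ range (B + 1), Real.cos (j * t) := by
      have : ∑ j ∈ range B, ((B : ℝ) - j) * Real.cos (j * t) =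
          ∑ j ∈ range (B + 1), ((B : ℝ) - j) * Real.cos (j * t) := by
        rw [Finset.sum_range_succ]; simp
      rw [this, ← Finset.sum_add_distrib]
      apply Finset.sum_congr rfl
      intro j _
      push_cast; ring
    have h4 : ∑ j ∈ range (B + 1), Real.cos (j * t) = 1 + ∑ j ∈ range B, Real.cos (((j : ℝ) + 1) * t) := by
      rw [Finset.sum_range_succ']
      simp only [Nat.cast_zero, zero_mul, Real.cos_zero]
      push_cast
      ring
    rw [h2, h3, h4]
    push_cast
    ring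

lemma KF_eq {B : ℕ} (t : ℝ) : KF B t =
    (2 * ∑ j ∈ range B, ((B : ℝ) - j) * Real.cos (j * t) - B) / (2 * (B : ℝ) ^ 2) := by
  unfold KF
  rw [normSq_sum]

lemma KF_le {B : ℕ} (hB : 1 ≤ B) {t s : ℝ} (hs : 0 < s) (h : s ≤ |Real.sin (t / 2)|) :
    KF B t ≤ 1 / (2 * (B : ℝ) ^ 2 * s ^ 2) := by
  have hB0 : (0 : ℝ) < B := by exact_mod_cast hB
  set G : ℂ := ∑ l ∈ range B, Complex.exp ((l * t : ℝ) * Complex.I) with hG
  have h1 : G = ∑ l ∈ range B, (Complex.exp ((t : ℝ) * Complex.I)) ^ l := by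
    rw [hG]
    apply Finset.sum_congr rfl
    intro l _
    rw [← Complex.exp_nat_mul]
    congr 1
    push_cast; ring
  have h2 : G * (Complex.exp ((t : ℝ) * Complex.I) - 1) = Complex.exp ((t : ℝ) * Complex.I) ^ B - 1 := by
    rw [h1]; exact geom_sum_mul _ _
  have h3 : ‖Complex.exp ((t : ℝ) * Complex.I) - 1‖ = 2 * |Real.sin (t / 2)| := by
    have := Complex.norm_exp_I_mul_ofReal_sub_one t
    rw [mul_comm] at this
    rw [this, norm_mul]
    simp
  have h4 : ‖Complex.exp ((t : ℝ) * Complex.I) ^ B - 1‖ ≤ 2 := by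
    refine (norm_sub_le _ _).trans ?_
    rw [norm_pow, Complex.norm_exp_ofReal_mul_I, one_pow, norm_one]
    norm_num
  have h5 : ‖G‖ * s ≤ 1 := by
    have h6 := congrArg norm h2
    rw [norm_mul, h3] at h6
    have h7 : ‖G‖ * s ≤ ‖G‖ * |Real.sin (t / 2)| := mul_le_mul_of_nonneg_left h (norm_nonneg _)
    nlinarith
  unfold KF
  rw [← hG, Complex.normSq_eq_norm_sq, div_le_div_iff₀ (by positivity) (by positivity)]
  have h6 : (‖G‖ * s) ^ 2 ≤ 1 := pow_le_one₀ (by positivity) h5
  nlinarith [sq_nonneg (B : ℝ)]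

/-- Dirichlet sums -/
lemma dir_sum {B j : ℕ} (hj : 1 ≤ j) (hjB : j < 2 * B) :
    2 * ∑ k ∈ Ico 1 B, Real.cos (Real.pi * j * k / B) = -(1 + (-1) ^ j) := by
  have hB : 0 < B := by omega
  have hB0 : (0 : ℝ) < B := by exact_mod_cast hB
  set x : ℝ := Real.pi * j / B with hx
  have hxj : (1 : ℝ) ≤ j := by exact_mod_cast hj
  have hxjB : (j : ℝ) < 2 * B := by exact_mod_cast hjB
  have hsin : 0 < Real.sin (x / 2) := by
    apply Real.sin_pos_of_pos_of_lt_pi
    · rw [hx]; have := Real.pi_pos; positivity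
    · rw [hx, div_div, div_lt_iff₀ (by positivity)]
      have := Real.pi_pos
      nlinarith
  have tel : ∀ C : ℕ, 1 ≤ C → ∑ k ∈ Ico 1 C, (2 * Real.sin (x / 2) * Real.cos (k * x)) =
      Real.sin ((C - 1 / 2) * x) - Real.sin (x / 2) := by
    intro C hC
    induction C, hC using Nat.le_induction with
    | base =>
      simp only [Finset.Ico_self, Finset.sum_empty, Nat.cast_one]
      have : ((1 : ℝ) - 1 / 2) * x = x / 2 := by ring
      rw [this, sub_self]
    | succ C hC ih =>
      rw [Finset.sum_Ico_succ_top hC, ih]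
      have e1 : Real.sin (((C + 1 : ℕ) : ℝ) * x - x / 2) = Real.sin (C * x + x / 2) := by
        congr 1; push_cast; ring
      have e2 : (((C + 1 : ℕ) : ℝ) - 1 / 2) * x = C * x + x / 2 := by push_cast; ring
      have e3 : ((C : ℝ) - 1 / 2) * x = C * x - x / 2 := by ring
      rw [e2, e3, Real.sin_add, Real.sin_sub]
      ring
  have h := tel B hB
  have h1 : Real.sin ((B - 1 / 2) * x) = -((-1) ^ j * Real.sin (x / 2)) := by
    have : ((B : ℝ) - 1 / 2) * x = j * Real.pi - x / 2 := by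
      rw [hx]; field_simp
    rw [this, Real.sin_sub, Real.sin_nat_mul_pi, Real.cos_nat_mul_pi]
    ring
  rw [h1, ← Finset.mul_sum] at h
  have h2 : ∑ k ∈ Ico 1 B, Real.cos (Real.pi * j * k / B) = ∑ k ∈ Ico 1 B, Real.cos (k * x) := by
    apply Finset.sum_congr rfl
    intro k _
    congr 1
    rw [hx]; ring
  rw [h2]
  have h3 : Real.sin (x / 2) * (2 * ∑ k ∈ Ico 1 B, Real.cos (k * x)) =
      Real.sin (x / 2) * (-(1 + (-1) ^ j)) := by
    linear_combination h
  exact mul_left_cancel₀ hsin.ne' h3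

/-- partition of unity -/
lemma KF_sum {B : ℕ} (hB : 1 ≤ B) (α : ℝ) :
    KF B α + KF B (α - Real.pi) + ∑ k ∈ Ico 1 B, (KF B (α - Real.pi * k / B) +
      KF B (α + Real.pi * k / B)) = 1 := by
  have hB0 : (0 : ℝ) < B := by exact_mod_cast hB
  have key : ∀ j ∈ range B, Real.cos (j * α) + Real.cos (j * (α - Real.pi)) +
      ∑ k ∈ Ico 1 B, (Real.cos (j * (α - Real.pi * k / B)) + Real.cos (j * (α + Real.pi * k / B))) =
      if j = 0 then 2 * (B : ℝ) else 0 := by
    intro j hj
    rw [Finset.mem_range] at hj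
    by_cases h0 : j = 0
    · subst h0
      simp only [Nat.cast_zero, zero_mul, Real.cos_zero, if_true, Finset.sum_const, Nat.card_Ico,
        nsmul_eq_mul]
      rw [Nat.cast_sub hB]
      push_cast; ring
    · rw [if_neg h0]
      have h1 := dir_sum (B := B) (j := j) (by omega) (by omega)
      have h2 : ∀ k ∈ Ico 1 B, Real.cos (j * (α - Real.pi * k / B)) +
          Real.cos (j * (α + Real.pi * k / B)) = 2 * Real.cos (j * α) *
            Real.cos (Real.pi * j * k / B) := by
        intro k _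
        have e1 : (j : ℝ) * (α - Real.pi * k / B) = j * α - Real.pi * j * k / B := by ring
        have e2 : (j : ℝ) * (α + Real.pi * k / B) = j * α + Real.pi * j * k / B := by ring
        rw [e1, e2, Real.cos_add, Real.cos_sub]
        ring
      rw [Finset.sum_congr rfl h2, ← Finset.mul_sum]
      have h3 : Real.cos (j * (α - Real.pi)) = (-1) ^ j * Real.cos (j * α) := by
        have : (j : ℝ) * (α - Real.pi) = j * α - j * Real.pi := by ring
        rw [this, Real.cos_sub, Real.sin_nat_mul_pi, Real.cos_nat_mul_pi]; ring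
      rw [h3]
      linear_combination (Real.cos (j * α)) * h1
  have hsum : KF B α + KF B (α - Real.pi) + ∑ k ∈ Ico 1 B, (KF B (α - Real.pi * k / B) +
      KF B (α + Real.pi * k / B)) = (2 * ∑ j ∈ range B, ((B : ℝ) - j) *
        (Real.cos (j * α) + Real.cos (j * (α - Real.pi)) +
      ∑ k ∈ Ico 1 B, (Real.cos (j * (α - Real.pi * k / B)) + Real.cos (j * (α + Real.pi * k / B))))
        - 2 * B * B) / (2 * (B : ℝ) ^ 2) := by
    simp only [KF_eq]
    have e1 : ∑ k ∈ Ico 1 B, ((2 * ∑ j ∈ range B, ((B : ℝ) - j) * Real.cos (j * (α - Real.pi * k / B)) - B)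
        / (2 * (B : ℝ) ^ 2) + (2 * ∑ j ∈ range B, ((B : ℝ) - j) * Real.cos (j * (α + Real.pi * k / B)) - B)
        / (2 * (B : ℝ) ^ 2)) = (2 * ∑ j ∈ range B, ((B : ℝ) - j) * ∑ k ∈ Ico 1 B,
          (Real.cos (j * (α - Real.pi * k / B)) + Real.cos (j * (α + Real.pi * k / B))) -
          2 * B * (B - 1)) / (2 * (B : ℝ) ^ 2) := by
      have e2 : ∑ j ∈ range B, ((B : ℝ) - j) * ∑ k ∈ Ico 1 B,
          (Real.cos (j * (α - Real.pi * k / B)) + Real.cos (j * (α + Real.pi * k / B))) =
          ∑ k ∈ Ico 1 B, (∑ j ∈ range B, ((B : ℝ) - j) * Real.cos (j * (α - Real.pi * k / B)) +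
            ∑ j ∈ range B, ((B : ℝ) - j) * Real.cos (j * (α + Real.pi * k / B))) := by
        simp only [Finset.mul_sum, mul_add]
        rw [Finset.sum_comm]
        apply Finset.sum_congr rfl
        intro k _
        rw [Finset.sum_add_distrib]
      rw [e2, Finset.mul_sum]
      have e3 : 2 * (B : ℝ) * (B - 1) = ∑ k ∈ Ico 1 B, 2 * (B : ℝ) := by
        rw [Finset.sum_const, Nat.card_Ico, nsmul_eq_mul, Nat.cast_sub hB]
        push_cast; ring
      rw [e3, ← Finset.sum_sub_distrib, Finset.sum_div]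
      apply Finset.sum_congr rfl
      intro k _
      ring
    rw [e1]
    rw [← add_div, ← add_div]
    congr 1
    simp only [mul_add, Finset.sum_add_distrib]
    ring
  rw [hsum]
  have h5 : ∑ j ∈ range B, ((B : ℝ) - j) *
        (Real.cos (j * α) + Real.cos (j * (α - Real.pi)) +
      ∑ k ∈ Ico 1 B, (Real.cos (j * (α - Real.pi * k / B)) + Real.cos (j * (α + Real.pi * k / B)))) =
      ∑ j ∈ range B, ((B : ℝ) - j) * (if j = 0 then 2 * (B : ℝ) else 0) :=
    Finset.sum_congr rfl (fun j hj => by rw [key j hj])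
  rw [h5]
  have h6 : ∑ j ∈ range B, ((B : ℝ) - j) * (if j = 0 then 2 * (B : ℝ) else 0) = B * (2 * B) := by
    rw [Finset.sum_eq_single 0]
    · simp
    · intro j _ hj; simp [hj]
    · intro h; exact absurd (Finset.mem_range.2 hB) h
  rw [h6]
  field_simp
  ring

end Pool.Agent.H96.LE
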