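import Pool.Agent.H96.LE.LErase

/-!
# The loop erased non-intersection identity (Fomin)
-/

namespace Pool.Agent.H96.LE

open Finset

/-- last vertex of a list -/
def lst : List Z2 → Z2
  | [] => (0, 0)
  | a :: t => en a t

@[simp] lemma lst_cons (a : Z2) (t : List Z2) : lst (a :: t) = en a t := rfl

lemma lst_cons' (a : Z2) {l : List Z2} (hl : l ≠ []) : lst (a :: l) = lst l := by
  cases l with
  | nil => exact absurd rfl hl
  | cons b t => simp

lemma lst_ler (a : Z2) (t : List Z2) : lst (ler (a :: t)) = en a t := by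
  rw [ler_eq, lst_cons, en_LEt]

lemma ler_ne_nil (a : Z2) (t : List Z2) : ler (a :: t) ≠ [] := by
  rw [ler_eq]; simp

variable {𝕜 : Type*} [RCLike 𝕜]

/-- the hitting kernel -/
noncomputable def H (q : Z2 → Z2 → 𝕜) (D O : Finset Z2) (x y : Z2) : 𝕜 :=
  PS q D O x (fun l => if lst l = y then 1 else 0)

lemma norm_ind_le (y : Z2) (l : List Z2) : ‖(if lst l = y then (1 : 𝕜) else 0)‖ ≤ 1 := by
  split_ifs <;> simp

lemma H_step {q : Z2 → Z2 → 𝕜} (hq : GW q) {D O : Finset Z2} (hDO : Disjoint D O)
    {x : Z2} (hx : x ∈ D) (y : Z2) :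
    H q D O x y = ∑ b ∈ nb x, q x b * H q D O b y := by
  unfold H
  rw [PS_step hq hDO hx _ 1 (norm_ind_le y)]
  rfl

lemma H_out {q : Z2 → Z2 → 𝕜} {D O : Finset Z2} {x : Z2} (hx : x ∉ D) (hxO : x ∈ O) (y : Z2) :
    H q D O x y = if x = y then 1 else 0 := by
  unfold H
  rw [PS_out hx hxO]
  rfl

lemma H_none {q : Z2 → Z2 → 𝕜} {D O : Finset Z2} {x : Z2} (hx : x ∉ D) (hxO : x ∉ O) (y : Z2) :
    H q D O x y = 0 := PS_none hx hxO _

lemma norm_H_le {q : Z2 → Z2 → 𝕜} (hq : GW q) {D O : Finset Z2} (hDO : Disjoint D O) (x y : Z2) :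
    ‖H q D O x y‖ ≤ 1 := norm_PS_le hq hDO x _ 1 (norm_ind_le y)

lemma PS_lst {q : Z2 → Z2 → 𝕜} (hq : GW q) {D O : Finset Z2} (hDO : Disjoint D O)
    (x : Z2) (f : Z2 → 𝕜) :
    PS q D O x (fun l => f (lst l)) = ∑ y ∈ O, H q D O x y * f y := by
  have h1 : PS q D O x (fun l => f (lst l)) =
      PS q D O x (fun l => ∑ y ∈ O, (f y * if lst l = y then 1 else 0)) := by
    apply PS_congr
    intro t ht
    have := P_en ht
    simp only [lst_cons]
    simp only [mul_ite, mul_one, mul_zero]
    rw [Finset.sum_ite_eq, if_pos this]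
  rw [h1, PS_sum hq hDO x O _ (fun y => ‖f y‖)]
  · apply Finset.sum_congr rfl
    intro y _
    rw [PS_mul_left, H, mul_comm]
  · intro y _ l
    rw [norm_mul]
    exact mul_le_of_le_one_right (norm_nonneg _) (norm_ind_le y l)

lemma H_last {q : Z2 → Z2 → 𝕜} (hq : GW q) {D O : Finset Z2} (hDO : Disjoint D O)
    {a : Z2} (ha : a ∈ D) (y : Z2) :
    H q D O a y = gr q D a a * ∑ b ∈ nb a, q a b * H q (D.erase a) O b y := by
  have h1 : H q D O a y = PS q D O a (fun l => (fun η => if lst η = y then 1 else 0) (ler l)) := by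
    apply PS_congr
    intro t _
    show (if lst (a :: t) = y then (1 : 𝕜) else 0) = if lst (ler (a :: t)) = y then (1 : 𝕜) else 0
    rw [lst_ler, lst_cons]
  rw [h1, last_visit hq hDO ha _ 1 (norm_ind_le y)]
  congr 1
  apply Finset.sum_congr rfl
  intro b _
  congr 1
  apply PS_congr
  intro t _
  rw [lst_cons' a (ler_ne_nil b t), lst_ler]
  rfl

/-- probability-like weight of reaching `a` -/
noncomputable def Kr (q : Z2 → Z2 → 𝕜) (D : Finset Z2) (a x : Z2) : 𝕜 :=
  PS q (D.erase a) {a} x (fun _ => 1)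

lemma disj_erase (D : Finset Z2) (a : Z2) : Disjoint (D.erase a) {a} := by
  rw [Finset.disjoint_singleton_right]
  simp

lemma H_first {q : Z2 → Z2 → 𝕜} (hq : GW q) {D O : Finset Z2} (hDO : Disjoint D O)
    {a : Z2} (ha : a ∈ D) (x y : Z2) :
    H q D O x y = H q (D.erase a) O x y + Kr q D a x * H q D O a y := by
  have haO : a ∉ O := Finset.disjoint_left.1 hDO ha
  have hDO' : Disjoint (D.erase a) O := hDO.mono_left (Finset.erase_subset _ _)
  have hout : ∀ w, w ∉ D.erase a → H q D O w y = H q (D.erase a) O w y + Kr q D a w * H q D O a y := by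
    intro w hw
    by_cases hwa : w = a
    · subst hwa
      have : Kr q D w w = 1 := by
        unfold Kr
        exact PS_out hw (by simp) _
      rw [H_none hw haO, this]
      ring
    · have hwD : w ∉ D := fun h => hw (Finset.mem_erase.2 ⟨hwa, h⟩)
      have hK : Kr q D a w = 0 := PS_none hw (by simpa using hwa) _
      rw [hK, zero_mul, add_zero]
      by_cases hwO : w ∈ O
      · rw [H_out hwD hwO, H_out hw hwO]
      · rw [H_none hwD hwO, H_none hw hwO]
  by_cases hx : x ∈ D.erase a
  · refine uniq hq (D.erase a) (fun z => H q D O z y)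
      (fun z => H q (D.erase a) O z y + Kr q D a z * H q D O a y) ?_ ?_ ?_ x hx
    · intro z hz
      exact H_step hq hDO (Finset.mem_of_mem_erase hz) y
    · intro z hz
      show H q (D.erase a) O z y + Kr q D a z * H q D O a y = _
      rw [H_step hq hDO' hz y]
      have : Kr q D a z = ∑ b ∈ nb z, q z b * Kr q D a b := by
        unfold Kr
        rw [PS_step hq (disj_erase D a) hz _ 1 (by simp)]
      rw [this, Finset.sum_mul, ← Finset.sum_add_distrib]
      apply Finset.sum_congr rfl
      intro b _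
      ring
    · intro z _ w _ hw
      exact hout w hw
  · exact hout x hx

section alt

variable {k : ℕ}

/-- alternating functions of `k` vertices -/
def Anti (E : (Fin k → Z2) → 𝕜) : Prop :=
  ∀ (σ : Equiv.Perm (Fin k)) (y : Fin k → Z2), E (y ∘ σ) = ((Equiv.Perm.sign σ : ℤ) : 𝕜) * E y

/-- the multilinear form -/
noncomputable def TT (O : Finset Z2) (u : Fin k → Z2 → 𝕜) (E : (Fin k → Z2) → 𝕜) : 𝕜 :=
  ∑ y : Fin k → O, (∏ i, u i (y i)) * E (fun i => (y i : Z2))

lemma sign_mul_self (σ : Equiv.Perm (Fin k)) :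
    ((Equiv.Perm.sign σ : ℤ) : 𝕜) * ((Equiv.Perm.sign σ : ℤ) : 𝕜) = 1 := by
  rcases Int.units_eq_one_or (Equiv.Perm.sign σ) with h | h <;> rw [h] <;> simp

lemma TT_perm (O : Finset Z2) (u : Fin k → Z2 → 𝕜) {E : (Fin k → Z2) → 𝕜} (hE : Anti E)
    (σ : Equiv.Perm (Fin k)) :
    TT O u E = ∑ y : Fin k → O, ((Equiv.Perm.sign σ : ℤ) : 𝕜) * (∏ i, u (σ i) (y i)) *
      E (fun i => (y i : Z2)) := by
  unfold TT
  refine Fintype.sum_equiv (Equiv.arrowCongr σ.symm (Equiv.refl O)) _ _ (fun y => ?_)
  have h1 : ∀ i, (Equiv.arrowCongr σ.symm (Equiv.refl O)) y i = y (σ i) := fun i => rfl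
  simp only [h1]
  have h2 : ∏ i, u (σ i) (y (σ i)) = ∏ i, u i (y i) :=
    Equiv.prod_comp σ (fun i => u i (y i))
  rw [h2]
  have h3 := hE σ (fun i => (y i : Z2))
  have h4 : ((fun i => (y i : Z2)) ∘ σ) = fun i => (y (σ i) : Z2) := rfl
  rw [h4] at h3
  rw [h3]
  have h5 := sign_mul_self (𝕜 := 𝕜) σ
  linear_combination (-(∏ i, u i (y i)) * E (fun i => (y i : Z2))) * h5

lemma TT_det (O : Finset Z2) (u : Fin k → Z2 → 𝕜) {E : (Fin k → Z2) → 𝕜} (hE : Anti E) :
    (Nat.factorial k : 𝕜) * TT O u E =
      ∑ y : Fin k → O, (Matrix.of (fun i j => u i (y j))).det * E (fun i => (y i : Z2)) := by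
  have h1 : (Nat.factorial k : 𝕜) * TT O u E = ∑ σ : Equiv.Perm (Fin k), TT O u E := by
    rw [Finset.sum_const, Finset.card_univ, Fintype.card_perm, Fintype.card_fin, nsmul_eq_mul]
  rw [h1]
  rw [Finset.sum_congr rfl (fun σ _ => TT_perm O u hE σ)]
  rw [Finset.sum_comm]
  apply Finset.sum_congr rfl
  intro y _
  rw [Matrix.det_apply', Finset.sum_mul]
  apply Finset.sum_congr rfl
  intro σ _
  simp only [Matrix.of_apply]

lemma TT_rowop (O : Finset Z2) (u u' : Fin (k + 1) → Z2 → 𝕜) {E : (Fin (k + 1) → Z2) → 𝕜}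
    (hE : Anti E) (c : Fin (k + 1) → 𝕜) (hc : c 0 = 0)
    (h : ∀ i y, u i y = u' i y + c i * u' 0 y) : TT O u E = TT O u' E := by
  have h1 : ∀ y : Fin (k + 1) → O, (Matrix.of (fun i j => u i (y j))).det =
      (Matrix.of (fun i j => u' i (y j))).det := by
    intro y
    apply Matrix.det_eq_of_forall_row_eq_smul_add_const c 0 hc
    intro i j
    simp only [Matrix.of_apply]
    exact h i (y j)
  have h2 := TT_det O u hE
  have h3 := TT_det O u' hE
  simp only [h1] at h2
  rw [← h3] at h2
  exact mul_left_cancel₀ (by exact_mod_cast Nat.factorial_ne_zero _) h2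

lemma TT_cons (O : Finset Z2) (u : Fin (k + 1) → Z2 → 𝕜) (E : (Fin (k + 1) → Z2) → 𝕜) :
    TT O u E = ∑ y0 ∈ O, u 0 y0 * TT O (fun i => u i.succ) (fun y' => E (Fin.cons y0 y')) := by
  unfold TT
  rw [← Fintype.sum_equiv (Fin.consEquiv (fun _ : Fin (k + 1) => (O : Type))) (fun p =>
    (∏ i, u i ((Fin.cons p.1 p.2 : Fin (k + 1) → O) i)) *
      E (fun i => (((Fin.cons p.1 p.2 : Fin (k + 1) → O) i : O) : Z2))) _ (fun p => rfl)]
  rw [Fintype.sum_prod_type]
  rw [← Finset.sum_coe_sort O]
  apply Finset.sum_congr rfl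
  intro y0 _
  rw [Finset.mul_sum]
  apply Finset.sum_congr rfl
  intro y _
  rw [Fin.prod_univ_succ]
  simp only [Fin.cons_zero, Fin.cons_succ]
  have : (fun i => (((Fin.cons y0 y : Fin (k + 1) → O) i : O) : Z2)) =
      Fin.cons (y0 : Z2) (fun i => (y i : Z2)) := by
    ext i
    · refine Fin.cases ?_ (fun j => ?_) i <;> simp
    · refine Fin.cases ?_ (fun j => ?_) i <;> simp
  rw [this, mul_assoc]

lemma Anti_cons {E : (Fin (k + 1) → Z2) → 𝕜} (hE : Anti E) (y0 : Z2) :
    Anti (fun y : Fin k → Z2 => E (Fin.cons y0 y)) := by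
  intro σ y
  have h := hE (Equiv.Perm.decomposeFin.symm (0, σ)) (Fin.cons y0 y)
  have h2 : (Fin.cons y0 y : Fin (k + 1) → Z2) ∘ (Equiv.Perm.decomposeFin.symm (0, σ)) =
      Fin.cons y0 (y ∘ σ) := by
    funext i
    refine Fin.cases ?_ (fun j => ?_) i
    · simp
    · simp [Equiv.swap_self]
  rw [h2] at h
  show E (Fin.cons y0 (y ∘ σ)) = _
  rw [h]
  simp

end alt

/-- signed sum over families of paths with loop-erased non-intersection -/
noncomputable def NN (q : Z2 → Z2 → 𝕜) (O : Finset Z2) :
    (k : ℕ) → Finset Z2 → (Fin k → Z2) → ((Fin k → Z2) → 𝕜) → 𝕜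
  | 0, _, x, E => E x
  | k + 1, D, x, E => PS q D O (x 0) (fun l => NN q O k (D \ (ler l).toFinset) (Fin.tail x)
      (fun y => E (Fin.cons (lst l) y)))

lemma norm_NN_le {q : Z2 → Z2 → 𝕜} (hq : GW q) {O : Finset Z2} (k : ℕ) :
    ∀ (D : Finset Z2) (_ : Disjoint D O) (x : Fin k → Z2) (E : (Fin k → Z2) → 𝕜) (C : ℝ)
      (_ : ∀ y, ‖E y‖ ≤ C), ‖NN q O k D x E‖ ≤ C := by
  induction k with
  | zero => intro D _ x E C hE; exact hE x
  | succ k ih =>
    intro D hDO x E C hE
    exact norm_PS_le hq hDO _ _ C (fun l => ih _ (hDO.mono_left Finset.sdiff_subset) _ _ C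
      (fun y => hE _))

lemma norm_TT_le {k : ℕ} (O : Finset Z2) (u : Fin k → Z2 → 𝕜) (E : (Fin k → Z2) → 𝕜) (C : ℝ)
    (hE : ∀ y, ‖E y‖ ≤ C) (hu : ∀ i y, ‖u i y‖ ≤ 1) : ‖TT O u E‖ ≤ (O.card ^ k : ℕ) * C := by
  unfold TT
  calc ‖∑ y : Fin k → O, (∏ i, u i (y i)) * E (fun i => (y i : Z2))‖
      ≤ ∑ y : Fin k → O, ‖(∏ i, u i (y i)) * E (fun i => (y i : Z2))‖ := norm_sum_le _ _
    _ ≤ ∑ _y : Fin k → O, C := by
        apply Finset.sum_le_sum
        intro y _
        rw [norm_mul, norm_prod]
        have h1 : ∏ i, ‖u i (y i)‖ ≤ 1 := Finset.prod_le_one (fun _ _ => norm_nonneg _)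
          (fun i _ => hu i _)
        calc (∏ i, ‖u i (y i)‖) * ‖E (fun i => (y i : Z2))‖ ≤ 1 * C :=
              mul_le_mul h1 (hE _) (norm_nonneg _) (by norm_num)
          _ = C := one_mul C
    _ = (O.card ^ k : ℕ) * C := by
        rw [Finset.sum_const, Finset.card_univ, nsmul_eq_mul]
        simp

/-- **Fomin's identity** in the form of a cancellation statement -/
theorem fomin {q : Z2 → Z2 → 𝕜} (hq : GW q) {O : Finset Z2} (k : ℕ) :
    ∀ (D : Finset Z2) (_ : Disjoint D O) (x : Fin k → Z2) (E : (Fin k → Z2) → 𝕜) (C : ℝ)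
      (_ : ∀ y, ‖E y‖ ≤ C) (_ : Anti E),
      NN q O k D x E = TT O (fun i => H q D O (x i)) E := by
  induction k with
  | zero =>
    intro D _ x E C _ _
    unfold TT
    simp only [NN, Finset.univ_unique, Finset.univ_eq_empty, Finset.prod_empty, one_mul,
      Finset.sum_singleton]
    congr 1
    funext i
    exact i.elim0
  | succ k ihk =>
    -- inner induction on the size of the domain
    suffices hin : ∀ (n : ℕ) (D : Finset Z2) (_ : D.card ≤ n) (_ : Disjoint D O) (x0 : Z2)
        (x' : Fin k → Z2) (E : (Fin (k + 1) → Z2) → 𝕜) (C : ℝ) (_ : ∀ y, ‖E y‖ ≤ C) (_ : Anti E),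
        PS q D O x0 (fun l => (fun η => TT O (fun i => H q (D \ η.toFinset) O (x' i))
          (fun y => E (Fin.cons (lst η) y))) (ler l)) =
        TT O (Fin.cons (H q D O x0) (fun i => H q D O (x' i))) E by
      intro D hDO x E C hE hA
      have h := hin D.card D le_rfl hDO (x 0) (Fin.tail x) E C hE hA
      have h2 : (Fin.cons (H q D O (x 0)) (fun i => H q D O (Fin.tail x i)) :
          Fin (k + 1) → Z2 → 𝕜) = fun i => H q D O (x i) := by
        funext i
        refine Fin.cases ?_ (fun j => ?_) i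
        · simp
        · simp [Fin.tail]
      rw [h2] at h
      rw [← h]
      simp only [NN]
      apply PS_congr
      intro t _
      rw [ihk _ (hDO.mono_left Finset.sdiff_subset) _ _ C (fun y => hE _) (Anti_cons hA _)]
      simp only [lst_ler, lst_cons]
    intro n
    induction n with
    | zero =>
      intro D hD hDO x0 x' E C hE hA
      have hD0 : D = ∅ := Finset.card_eq_zero.1 (Nat.le_zero.1 hD)
      subst hD0
      by_cases hxO : x0 ∈ O
      · rw [PS_out (by simp) hxO]
        rw [TT_cons]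
        simp only [Fin.cons_zero, Fin.cons_succ]
        rw [Finset.sum_eq_single x0]
        · rw [H_out (by simp) hxO]
          simp only [if_true, one_mul]
          simp [ler, lst]
        · intro b _ hb
          rw [H_out (by simp) hxO, if_neg hb.symm, zero_mul]
        · intro h; exact absurd hxO h
      · rw [PS_none (by simp) hxO, TT_cons]
        symm
        apply Finset.sum_eq_zero
        intro y _
        simp only [Fin.cons_zero]
        rw [H_none (by simp) hxO, zero_mul]
    | succ n ihn =>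
      intro D hD hDO x0 x' E C hE hA
      by_cases hx : x0 ∈ D
      · have hbound : ∀ l : List Z2, ‖(fun η : List Z2 => TT O
            (fun i => H q (D \ η.toFinset) O (x' i)) (fun y => E (Fin.cons (lst η) y))) l‖ ≤
            (O.card ^ k : ℕ) * C := by
          intro l
          apply norm_TT_le
          · intro y; exact hE _
          · intro i y
            exact norm_H_le hq (hDO.mono_left Finset.sdiff_subset) _ _
        rw [last_visit hq hDO hx _ _ hbound]
        have hDe : (D.erase x0).card ≤ n := by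
          rw [Finset.card_erase_of_mem hx]; omega
        have hDO' : Disjoint (D.erase x0) O := hDO.mono_left (Finset.erase_subset _ _)
        have h1 : ∀ b ∈ nb x0, q x0 b * PS q (D.erase x0) O b (fun l =>
            (fun η : List Z2 => TT O (fun i => H q (D \ η.toFinset) O (x' i))
              (fun y => E (Fin.cons (lst η) y))) (x0 :: ler l)) =
            q x0 b * TT O (Fin.cons (H q (D.erase x0) O b)
              (fun i => H q (D.erase x0) O (x' i))) E := by
          intro b _
          congr 1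
          rw [← ihn (D.erase x0) hDe hDO' b x' E C hE hA]
          apply PS_congr
          intro t _
          simp only
          rw [lst_cons' _ (ler_ne_nil b t)]
          congr 1
          funext i
          congr 1
          ext z
          simp only [Finset.mem_sdiff, List.mem_toFinset, List.mem_cons, Finset.mem_erase, not_or]
          tauto
        rw [Finset.sum_congr rfl h1]
        -- right side
        have h2 : TT O (Fin.cons (H q D O x0) (fun i => H q D O (x' i))) E =
            TT O (Fin.cons (H q D O x0) (fun i => H q (D.erase x0) O (x' i))) E := by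
          apply TT_rowop O _ _ hA (Fin.cons 0 (fun i => Kr q D x0 (x' i))) (by simp)
          intro i y
          refine Fin.cases ?_ (fun j => ?_) i
          · simp
          · simp only [Fin.cons_succ, Fin.cons_zero]
            exact H_first hq hDO hx (x' j) y
        rw [h2, TT_cons]
        simp only [Fin.cons_zero, Fin.cons_succ]
        have h3 : ∀ y0 ∈ O, H q D O x0 y0 * TT O (fun i => H q (D.erase x0) O (x' i))
            (fun y' => E (Fin.cons y0 y')) = gr q D x0 x0 * ∑ b ∈ nb x0, q x0 b *
              (H q (D.erase x0) O b y0 * TT O (fun i => H q (D.erase x0) O (x' i))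
            (fun y' => E (Fin.cons y0 y'))) := by
          intro y0 _
          rw [H_last hq hDO hx y0, mul_assoc, Finset.sum_mul]
          congr 1
          apply Finset.sum_congr rfl
          intro b _
          ring
        rw [Finset.sum_congr rfl h3, ← Finset.mul_sum, Finset.sum_comm]
        congr 1
        apply Finset.sum_congr rfl
        intro b _
        rw [← Finset.mul_sum, TT_cons]
        simp only [Fin.cons_zero, Fin.cons_succ]
      · by_cases hxO : x0 ∈ O
        · rw [PS_out hx hxO, TT_cons]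
          simp only [Fin.cons_zero, Fin.cons_succ]
          rw [Finset.sum_eq_single x0]
          · rw [H_out hx hxO]
            simp only [if_true, one_mul]
            have hD1 : D \ (ler [x0]).toFinset = D := by
              ext z
              simp only [ler, List.foldl_cons, List.takeWhile_nil, List.nil_append,
                List.foldl_nil, List.toFinset_cons, List.toFinset_nil, insert_empty_eq,
                Finset.mem_sdiff, Finset.mem_singleton, and_iff_left_iff_imp]
              intro hz e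
              exact hx (e ▸ hz)
            have hl1 : lst (ler [x0]) = x0 := by rw [lst_ler]; rfl
            simp only [hD1, hl1]
          · intro b _ hb
            rw [H_out hx hxO, if_neg hb.symm, zero_mul]
          · intro h; exact absurd hxO h
        · rw [PS_none hx hxO, TT_cons]
          symm
          apply Finset.sum_eq_zero
          intro y _
          simp only [Fin.cons_zero]
          rw [H_none hx hxO, zero_mul]

end Pool.Agent.H96.LE
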