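import Pool.Agent.H96.LE.Top4

/-!
# Twisted weights: gauge triviality off a crossing
-/

namespace Pool.Agent.H96.LE

open Complex

/-- simple random walk weight -/
noncomputable def q0 : Z2 → Z2 → ℂ := fun _ _ => 1 / 4

/-- phase factor -/
noncomputable def ph (a : ℝ) (z w : Z2) : ℂ := exp ((a * arg (cx w / cx z) : ℝ) * I)

/-- twisted weight -/
noncomputable def qa (a : ℝ) : Z2 → Z2 → ℂ := fun z w => q0 z w * ph a z w

lemma norm_ph (a : ℝ) (z w : Z2) : ‖ph a z w‖ = 1 := norm_exp_ofReal_mul_I _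

lemma GW_q0 : GW q0 := by
  intro z w _
  simp [q0]

lemma GW_qa (a : ℝ) : GW (qa a) := by
  intro z w _
  rw [qa, norm_mul, norm_ph, mul_one]
  simp [q0]

lemma wt_ph (a : ℝ) (t : List Z2) : ∀ x, wt (ph a) x t = exp ((a * wind x t : ℝ) * I) := by
  induction t with
  | nil => intro x; simp
  | cons b t ih =>
    intro x
    rw [wt_cons, ih, wind_cons, ph, ← exp_add]
    congr 1
    push_cast
    ring

lemma wt_q0 (t : List Z2) : ∀ x, wt q0 x t = (1 / 4) ^ t.length := by
  induction t with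
  | nil => intro x; simp
  | cons b t ih =>
    intro x
    rw [wt_cons, ih, List.length_cons, pow_succ']
    rfl

lemma wt_qa (a : ℝ) (t : List Z2) (x : Z2) :
    wt (qa a) x t = (1 / 4) ^ t.length * exp ((a * wind x t : ℝ) * I) := by
  induction t generalizing x with
  | nil => simp
  | cons b t ih =>
    rw [wt_cons, ih, wind_cons, List.length_cons, qa, ph, q0]
    have : exp ((a * (arg (cx b / cx x) + wind b t) : ℝ) * I) =
        exp ((a * arg (cx b / cx x) : ℝ) * I) * exp ((a * wind b t : ℝ) * I) := by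
      rw [← exp_add]; congr 1; push_cast; ring
    rw [this]
    ring

lemma wind_append (a : Z2) (s t : List Z2) : wind a (s ++ t) = wind a s + wind (en a s) t := by
  induction s generalizing a with
  | nil => simp
  | cons b s ih => simp [ih, add_assoc]

lemma Wk_append (a : Z2) (s t : List Z2) : Wk a (s ++ t) ↔ Wk a s ∧ Wk (en a s) t := by
  induction s generalizing a with
  | nil => simp [Wk]
  | cons b s ih => simp [Wk, ih, and_assoc]

/-- reversal of walks -/
lemma exists_reverse (s : List Z2) : ∀ z, Wk z s → (∀ w ∈ z :: s, 1 < ‖cx w‖) →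
    ∃ s', Wk (en z s) s' ∧ en (en z s) s' = z ∧ (∀ w ∈ en z s :: s', w ∈ z :: s) ∧
      wind (en z s) s' = - wind z s := by
  induction s with
  | nil => intro z _ _; exact ⟨[], trivial, rfl, by simp, by simp⟩
  | cons b s ih =>
    intro z hW h1
    obtain ⟨s', h2, h3, h4, h5⟩ := ih b hW.2 (fun w hw => h1 w (List.mem_cons_of_mem _ hw))
    refine ⟨s' ++ [z], ?_, ?_, ?_, ?_⟩
    · rw [en_cons, Wk_append, h3]
      exact ⟨h2, nb_symm.1 hW.1, trivial⟩
    · rw [en_cons, en_append, h3]
      rfl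
    · intro w hw
      simp only [en_cons, List.mem_cons, List.mem_append, List.not_mem_nil, or_false] at hw
      rcases hw with hw | hw | hw
      · exact List.mem_cons_of_mem _ (h4 w (by rw [hw]; simp))
      · exact List.mem_cons_of_mem _ (h4 w (List.mem_cons_of_mem _ hw))
      · rw [hw]; simp
    · rw [en_cons, wind_append, h5, h3, wind_cons, wind_cons, wind_nil]
      have hs := ratio_slit hW.1 (h1 z (by simp))
      have h6 : arg (cx z / cx b) = - arg (cx b / cx z) := by
        rw [← inv_div, arg_inv, if_neg (slitPlane_arg_ne_pi hs)]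
      rw [h6]
      ring

section data

variable {R M : ℝ} {V O : Finset Z2}

/-- gauge triviality of the complement of a crossing -/
theorem dl_compl (hR : 10 ≤ R) (hRM : R + 10 ≤ M)
    (hV : ∀ z ∈ V, R < ‖cx z‖ ∧ ‖cx z‖ < M) (hO : ∀ z ∈ O, M ≤ ‖cx z‖)
    {x b : Z2} {t : List Z2} (hx : x ∈ V) (hP : P V O x t)
    (hb : b ∈ nb x) (hbR : ‖cx b‖ ≤ R) (a : ℝ) :
    dl (qa a) (V \ (x :: t).toFinset) = dl q0 (V \ (x :: t).toFinset) := by
  set D := V \ (x :: t).toFinset with hD
  have hDV : ∀ z ∈ D, z ∈ V ∧ z ∉ x :: t := by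
    intro z hz
    rw [hD, Finset.mem_sdiff, List.mem_toFinset] at hz
    exact hz
  -- reachability inside D
  let Rch : D → D → Prop := fun z w => ∃ s, Wk (z : Z2) s ∧ (∀ v ∈ (z : Z2) :: s, v ∈ D) ∧
    en (z : Z2) s = w
  have hnorm : ∀ z ∈ D, 1 < ‖cx z‖ := fun z hz => by linarith [(hV z (hDV z hz).1).1]
  have hsymm : ∀ z w, Rch z w → Rch w z := by
    rintro z w ⟨s, h1, h2, h3⟩
    obtain ⟨s', k1, k2, k3, _⟩ := exists_reverse s z h1 (fun v hv => hnorm v (h2 v hv))
    rw [h3] at k1 k2 k3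
    exact ⟨s', k1, fun v hv => h2 v (k3 v hv), k2⟩
  have htrans : ∀ z w v, Rch z w → Rch w v → Rch z v := by
    rintro z w v ⟨s, h1, h2, h3⟩ ⟨s', k1, k2, k3⟩
    refine ⟨s ++ s', ?_, ?_, ?_⟩
    · rw [Wk_append, h3]; exact ⟨h1, k1⟩
    · intro u hu
      rw [← List.cons_append, List.mem_append] at hu
      rcases hu with hu | hu
      · exact h2 u hu
      · exact k2 u (List.mem_cons_of_mem _ hu)
    · rw [en_append, h3, k3]
  let S : Setoid D := ⟨Rch, ⟨fun z => ⟨[], trivial, fun v hv => by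
      simp only [List.mem_singleton] at hv; rw [hv]; exact z.2, rfl⟩,
      fun {z w} h => hsymm z w h, fun {z w v} h k => htrans z w v h k⟩⟩
  let root : D → D := fun z => Quotient.out (Quotient.mk S z)
  have hroot : ∀ z : D, Rch (root z) z := fun z => Quotient.exact (Quotient.out_eq (Quotient.mk S z))
  choose sp hsp1 hsp2 hsp3 using hroot
  let G : D → ℝ := fun z => wind (root z) (sp z)
  have hG : ∀ z w : D, (w : Z2) ∈ nb (z : Z2) → G w = G z + arg (cx w / cx z) := by
    intro z w hzw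
    have hrw : root z = root w := by
      have : Quotient.mk S z = Quotient.mk S w := by
        apply Quotient.sound
        refine ⟨[(w : Z2)], ⟨hzw, trivial⟩, ?_, rfl⟩
        intro v hv
        simp only [List.mem_cons, List.not_mem_nil, or_false] at hv
        rcases hv with hv | hv
        · rw [hv]; exact z.2
        · rw [hv]; exact w.2
      simp only [root, this]
    obtain ⟨s', k1, k2, k3, k4⟩ := exists_reverse (sp w) (root w) (hsp1 w)
      (fun v hv => hnorm v (hsp2 w v hv))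
    rw [hsp3 w] at k1 k2 k3 k4
    have hcl := closed_wind hR hRM hV hO hx hP hb hbR (z := root z)
      (s := sp z ++ ((w : Z2) :: s')) (by
        rw [Wk_append, hsp3 z]
        exact ⟨hsp1 z, hzw, k1⟩) (by
        rw [en_append, en_cons, k2, hrw]) (by
        intro v hv
        rw [← List.cons_append, List.mem_append] at hv
        rcases hv with hv | hv
        · exact hDV v (hsp2 z v hv)
        · exact hDV v (hsp2 w v (k3 v hv)))
    rw [wind_append, hsp3 z, wind_cons, k4] at hcl
    simp only [G]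
    linarith
  let g : Z2 → ℂ := fun z => if hz : z ∈ D then exp ((a * G ⟨z, hz⟩ : ℝ) * I) else 1
  apply dl_gauge D g
  · intro z hz
    simp only [g, dif_pos hz]
    exact exp_ne_zero _
  · intro z hz w hw hzw
    simp only [g, dif_pos hz, dif_pos hw]
    have h1 := hG ⟨z, hz⟩ ⟨w, hw⟩ hzw
    simp only at h1
    rw [h1, qa, ph, ← exp_neg]
    have : exp (((a * (G ⟨z, hz⟩ + arg (cx w / cx z)) : ℝ) : ℂ) * I) =
        exp ((a * G ⟨z, hz⟩ : ℝ) * I) * exp ((a * arg (cx w / cx z) : ℝ) * I) := by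
      rw [← exp_add]; congr 1; push_cast; ring
    rw [this]
    have h2 : exp (-(((a * G ⟨z, hz⟩ : ℝ) : ℂ) * I)) * exp (((a * G ⟨z, hz⟩ : ℝ) : ℂ) * I) = 1 := by
      rw [← exp_add]; simp
    linear_combination (-(q0 z w * exp (((a * arg (cx w / cx z) : ℝ) : ℂ) * I))) * h2

/-- change of weights from twisted to untwisted, for functionals of the loop erasure -/
theorem twist_change (hR : 10 ≤ R) (hRM : R + 10 ≤ M)
    (hV : ∀ z ∈ V, R < ‖cx z‖ ∧ ‖cx z‖ < M) (hO : ∀ z ∈ O, M ≤ ‖cx z‖) (hVO : Disjoint V O)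
    {x b : Z2} (hx : x ∈ V) (hb : b ∈ nb x) (hbR : ‖cx b‖ ≤ R) (a : ℝ)
    (Ψ : List Z2 → ℂ) (C : ℝ) (hΨ : ∀ l, ‖Ψ l‖ ≤ C) :
    PS (qa a) V O x (fun l => Ψ (ler l)) =
      (dl q0 V / dl (qa a) V) * PS q0 V O x (fun l => Ψ (ler l) * phl (ph a) (ler l)) := by
  apply change_weight' GW_q0 (GW_qa a) (fun z w => (norm_ph a z w).le) (fun z w _ => rfl) hVO x Ψ C hΨ
  intro t ht
  rw [ler_eq]
  exact dl_compl hR hRM hV hO hx (P_LE ht) hb hbR a

end data

end Pool.Agent.H96.LE
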