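import Pool.Agent.H96.LE.Near2

/-!
# Near misses are unlikely
-/

namespace Pool.Agent.H96.LE

open Finset Filter Topology MeasureTheory

lemma end_close {V O : Finset Z2} {a : Z2} {t : List Z2} (hP : P V O a t) (hVO : Disjoint V O)
    {s q : ℝ} (hq : 0 ≤ q) (h : ¬ Far2 V s q (a :: t)) {v : Z2} (hv : v ∈ a :: t) (hs : s ≤ ‖cx v‖) :
    ‖cx (en a t) - cx v‖ ≤ q := by
  rcases P_mem_or t a hP v hv with hvV | hv2
  · obtain ⟨l1, l2, hl⟩ := List.append_of_mem hv
    cases l2 with
    | nil =>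
      have h1 := getLast?_eq a t
      rw [hl, List.getLast?_append] at h1
      simp only [List.getLast?_singleton, Option.some_or, Option.some.injEq] at h1
      rw [← h1, sub_self, norm_zero]
      exact hq
    | cons c l2 =>
      have h1 := getLast?_eq a t
      have h2 : (a :: t).getLast? = (c :: l2).getLast? := by
        rw [hl, List.getLast?_append, List.getLast?_cons_cons, getLast?_eq c l2]
        rfl
      rw [h2] at h1
      have h3 : en a t ∈ c :: l2 := List.mem_of_getLast? h1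
      by_contra hc
      push Not at hc
      exact h ⟨l1, v, c :: l2, hl, hvV, hs, en a t, h3, hc.le⟩
  · rw [← hv2, sub_self, norm_zero]
    exact hq

lemma near_cases {n R ρ ε r : ℝ} (hR : 0 < R) (hρ : 0 < ρ) (hr : 0 < r)
    (hερ : ε ≤ ρ / 4) (hεr : ε ≤ r)
    {a a' : Z2} {t t' : List Z2}
    (hP : P (VV R (Mn n R)) (OO (Mn n R)) a t) (hP' : P (VV R (Mn n R)) (OO (Mn n R)) a' t') {e e' : ℂ}
    (h1 : ¬ ∃ v ∈ a :: t, v ∈ VV R (Mn n R) ∧ ‖cx v‖ ≤ (1 + ρ) * R ∧ r * R ≤ ‖cx v - R * e‖)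
    (h1' : ¬ ∃ v ∈ a' :: t', v ∈ VV R (Mn n R) ∧ ‖cx v‖ ≤ (1 + ρ) * R ∧ r * R ≤ ‖cx v - R * e'‖)
    (h2 : ¬ Far2 (VV R (Mn n R)) (Mn n R - 2 * ρ * R) (r * R) (a :: t))
    (h2' : ¬ Far2 (VV R (Mn n R)) (Mn n R - 2 * ρ * R) (r * R) (a' :: t'))
    (h4 : ¬ ∃ w ∈ a' :: t', Mid n R ρ ε (ler (a :: t)) w)
    (hee : 3 * r < ‖e - e'‖) {v w : Z2} (hv : v ∈ ler (a :: t)) (hw : w ∈ a' :: t')
    (hvw : ‖cx v - cx w‖ ≤ ε * R) : ‖cx (en a t) - cx (en a' t')‖ ≤ 3 * r * R := by
  have hVO := disj_VO R (Mn n R)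
  have hv' : v ∈ a :: t := ler_subset _ v hv
  have hrR : 0 ≤ r * R := by positivity
  have hρR : 0 < ρ * R := by positivity
  have hεR : ε * R ≤ ρ / 4 * R := mul_le_mul_of_nonneg_right hερ hR.le
  have hεR2 : ε * R ≤ r * R := mul_le_mul_of_nonneg_right hεr hR.le
  have n1 := norm_sub_norm_le (cx v) (cx w)
  have n2 := norm_sub_norm_le (cx w) (cx v)
  rw [norm_sub_rev] at n2
  by_cases c1 : Mn n R - ρ * R ≤ ‖cx w‖
  · have e1 := end_close hP hVO hrR h2 hv' (by linarith)
    have e2 := end_close hP' hVO hrR h2' hw (by linarith)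
    have e3 : cx (en a t) - cx (en a' t') = (cx (en a t) - cx v) + (cx v - cx w) - (cx (en a' t') - cx w) := by
      ring
    rw [e3]
    have e4 := norm_sub_le ((cx (en a t) - cx v) + (cx v - cx w)) (cx (en a' t') - cx w)
    have e5 := norm_add_le (cx (en a t) - cx v) (cx v - cx w)
    linarith
  · push Not at c1
    have hMR : Mn n R = Real.exp n * R := by unfold Mn; ring
    have hwV : w ∈ VV R (Mn n R) := by
      rcases P_mem_or t' a' hP' w hw with h | h
      · exact h
      · exfalso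
        have := (mem_OO.1 (P_en hP')).1
        rw [← h] at this
        linarith
    by_cases c2 : (1 + ρ / 2) * R ≤ ‖cx w‖
    · exfalso
      apply h4
      refine ⟨w, hw, hwV, c2, c1.le, v, hv, ?_⟩
      rw [norm_sub_rev]; exact hvw
    · exfalso
      push Not at c2
      have hvb : ‖cx v‖ ≤ (1 + ρ) * R := by nlinarith
      have hvV : v ∈ VV R (Mn n R) := by
        rcases P_mem_or t a hP v hv' with h | h
        · exact h
        · exfalso
          have h5 := (mem_OO.1 (P_en hP)).1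
          rw [← h, hMR] at h5
          nlinarith
      have f1 : ‖cx v - R * e‖ < r * R := by
        by_contra hc
        push Not at hc
        exact h1 ⟨v, hv', hvV, hvb, hc⟩
      have f2 : ‖cx w - R * e'‖ < r * R := by
        by_contra hc
        push Not at hc
        exact h1' ⟨w, hw, hwV, by nlinarith, hc⟩
      have f3 : (R : ℂ) * (e - e') = (cx v - cx w) - (cx v - R * e) + (cx w - R * e') := by ring
      have f4 : ‖(R : ℂ) * (e - e')‖ = R * ‖e - e'‖ := by
        rw [norm_mul, Complex.norm_real, Real.norm_eq_abs, abs_of_pos hR]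
      have f5 : ‖(R : ℂ) * (e - e')‖ ≤ ε * R + r * R + r * R := by
        rw [f3]
        have g1 := norm_add_le ((cx v - cx w) - (cx v - R * e)) (cx w - R * e')
        have g2 := norm_sub_le (cx v - cx w) (cx v - R * e)
        linarith
      rw [f4] at f5
      nlinarith

section main

variable {ι : Type*} {l : Filter ι} {k : ℕ} {n : ℝ} {θ : Fin k → ℝ} {R : ι → ℝ}
  {x b : ι → Fin k → Z2}

/-- direction of the starting point -/
noncomputable def dir (z : Z2) : ℂ := cx z / ‖cx z‖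

lemma norm_dir {z : Z2} (h : cx z ≠ 0) : ‖dir z‖ = 1 := by
  unfold dir
  rw [norm_div, Complex.norm_real, norm_norm, div_self (norm_ne_zero_iff.2 h)]

lemma dir_eq {z : Z2} (h : cx z ≠ 0) : cx z = ‖cx z‖ * dir z := by
  unfold dir
  have : (‖cx z‖ : ℂ) ≠ 0 := by exact_mod_cast norm_ne_zero_iff.2 h
  field_simp

lemma Dat.dir_lim (D : Dat l n θ R x b) (j : Fin k) :
    Tendsto (fun i => dir (x i j)) l (𝓝 (Complex.exp (θ j * Complex.I))) := by
  have h1 := D.hlim j
  have h2 := h1.norm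
  rw [Complex.norm_exp_ofReal_mul_I] at h2
  have h3 := (Complex.continuous_ofReal.tendsto _).comp h2
  have h4 := h1.div h3 (by simp)
  simp only [Complex.ofReal_one, div_one] at h4
  apply h4.congr'
  filter_upwards [D.hR.eventually_gt_atTop 0] with i hi
  show cx (x i j) / (R i : ℂ) / ((‖cx (x i j) / (R i : ℂ)‖ : ℝ) : ℂ) = dir (x i j)
  unfold dir
  rw [norm_div, Complex.norm_real, Real.norm_eq_abs, abs_of_pos hi]
  have : (R i : ℂ) ≠ 0 := by exact_mod_cast hi.ne'
  push_cast
  rw [div_div_div_cancel_right₀ this]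

/-- the families with a near miss -/
def NM (k : ℕ) (V : Finset Z2) (q : ℝ) : Set (Fin k → List Z2) :=
  {ls | BB V ∅ ls ∧ ∃ a b', a < b' ∧ ∃ v ∈ ler (ls a), ∃ w ∈ ls b', ‖cx v - cx w‖ ≤ q}

theorem Dat.near_miss [l.NeBot] (D : Dat l n θ R x b) (hn : 0 < n)
    (hinj : ∀ i j, i ≠ j → Complex.exp (θ i * Complex.I) ≠ Complex.exp (θ j * Complex.I))
    (η : ℝ) (hη : 0 < η) :
    ∃ ε : ℝ, 0 < ε ∧ ∀ᶠ i in l,
      (EE n (R i) (x i)) (NM k (VV (R i) (Mn n (R i))) (ε * R i)) ≤ ENNReal.ofReal η := by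
  classical
  -- separation
  obtain ⟨σ, hσ, hsep⟩ : ∃ σ : ℝ, 0 < σ ∧ ∀ a b' : Fin k, a ≠ b' →
      σ ≤ ‖Complex.exp (θ a * Complex.I) - Complex.exp (θ b' * Complex.I)‖ := by
    set T : Finset (Fin k × Fin k) := univ.filter (fun p => p.1 ≠ p.2) with hT
    by_cases hTe : T.Nonempty
    · obtain ⟨p, hp, hmin⟩ := T.exists_min_image
        (fun p => ‖Complex.exp (θ p.1 * Complex.I) - Complex.exp (θ p.2 * Complex.I)‖) hTe
      have hp' : p.1 ≠ p.2 := by simpa [hT] using hp
      refine ⟨_, norm_pos_iff.2 (sub_ne_zero.2 (hinj _ _ hp')), fun a b' hab => ?_⟩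
      exact hmin (a, b') (by simp [hT, hab])
    · refine ⟨1, one_pos, fun a b' hab => ?_⟩
      exact absurd ⟨(a, b'), by simp [hT, hab]⟩ hTe
  obtain ⟨r', hr', hends⟩ := D.close_ends hn (η / 4) (by positivity)
  set r : ℝ := min (min (1 / 2) (σ / 8)) (r' / 3) with hr
  have hr0 : 0 < r := lt_min (lt_min (by norm_num) (by positivity)) (by positivity)
  have hr1 : r ≤ 1 / 2 := (min_le_left _ _).trans (min_le_left _ _)
  have hr2 : r ≤ σ / 8 := (min_le_left _ _).trans (min_le_right _ _)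
  have hr3 : r ≤ r' / 3 := min_le_right _ _
  obtain ⟨C1, hC1, hev1⟩ := ev1 n hn
  obtain ⟨ρ0, hρ0, hev2⟩ := ev2 n hn
  have hexp : 0 < Real.exp n - 1 := by
    have := Real.add_one_lt_exp hn.ne'
    linarith
  set K : ℝ := (k : ℝ) + 1 with hK
  have hK0 : 0 < K := by positivity
  set ρ : ℝ := min (min (min (ρ0 / 2) (r / 8)) (min (r * η / (4 * K * C1)) (r * η / (4 * K * 640))))
    ((Real.exp n - 1) / 2) with hρ
  have hρp : 0 < ρ := by
    apply lt_min
    · apply lt_min
      · exact lt_min (by positivity) (by positivity)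
      · exact lt_min (by positivity) (by positivity)
    · positivity
  have hρ1 : 2 * ρ ≤ ρ0 := by
    have : ρ ≤ ρ0 / 2 := (min_le_left _ _).trans ((min_le_left _ _).trans (min_le_left _ _))
    linarith
  have hρ2 : 2 * ρ ≤ r / 4 := by
    have : ρ ≤ r / 8 := (min_le_left _ _).trans ((min_le_left _ _).trans (min_le_right _ _))
    linarith
  have hρ3 : ρ ≤ r * η / (4 * K * C1) :=
    (min_le_left _ _).trans ((min_le_right _ _).trans (min_le_left _ _))
  have hρ4 : ρ ≤ r * η / (4 * K * 640) :=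
    (min_le_left _ _).trans ((min_le_right _ _).trans (min_le_right _ _))
  have hρ5 : 2 * ρ ≤ Real.exp n - 1 := by
    have : ρ ≤ (Real.exp n - 1) / 2 := min_le_right _ _
    linarith
  obtain ⟨ε0, hε0, hev4⟩ := ev4 n hn ρ hρp (η / (4 * K ^ 2)) (by positivity)
  set ε : ℝ := min ε0 (min (ρ / 4) r) with hε
  have hεp : 0 < ε := lt_min hε0 (lt_min (by positivity) hr0)
  have hε1 : ε ≤ ρ / 4 := (min_le_right _ _).trans (min_le_left _ _)
  have hε2 : ε ≤ r := (min_le_right _ _).trans (min_le_right _ _)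
  refine ⟨ε, hεp, ?_⟩
  -- directions are separated
  have hdir : ∀ᶠ i in l, ∀ a b' : Fin k, a ≠ b' → 3 * r < ‖dir (x i a) - dir (x i b')‖ := by
    rw [eventually_all]
    intro a
    rw [eventually_all]
    intro b'
    by_cases hab : a = b'
    · exact Filter.Eventually.of_forall (fun i h => absurd hab h)
    · have h2 := ((D.dir_lim a).sub (D.dir_lim b')).norm
      have h3 : 3 * r < ‖Complex.exp (θ a * Complex.I) - Complex.exp (θ b' * Complex.I)‖ := by
        have := hsep a b' hab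
        linarith
      filter_upwards [h2.eventually (lt_mem_nhds h3)] with i hi _
      exact hi
  filter_upwards [hdir, hends, D.hR.eventually (hev1 r hr0 hr1 ρ hρp),
    D.hR.eventually (hev2 r hr0 (2 * ρ) (by positivity) hρ1 hρ2),
    D.hR.eventually (hev4 ε hεp (min_le_left _ _)), D.hR.eventually_ge_atTop 10] with i hd he h1 h2 h4 hR10
  have hR0 : 0 < R i := by linarith
  set V := VV (R i) (Mn n (R i)) with hV
  set O := OO (Mn n (R i)) with hO
  have hVO : Disjoint V O := disj_VO _ _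
  have hp : ∀ j, IsProbabilityMeasure (ex V O (x i j)) := fun j =>
    isProb_ex (disj_VO _ _) (ZZ_pos (D.hx i j))
  set μ := EE n (R i) (x i) with hμ
  have hxne : ∀ j, cx (x i j) ≠ 0 := by
    intro j h0
    have := (mem_VV.1 (D.hx i j)).1
    rw [h0, norm_zero] at this
    linarith
  -- the exceptional sets
  set A1 : Fin k → Set (List Z2) := fun j => {s | ∃ v ∈ s, v ∈ V ∧ ‖cx v‖ ≤ (1 + ρ) * R i ∧
        r * R i ≤ ‖cx v - R i * dir (x i j)‖} with hA1
  set A2 : Set (List Z2) := {s | Far2 V (Mn n (R i) - 2 * ρ * R i) (r * R i) s} with hA2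
  set A4 : Set (List Z2 × List Z2) := {p | Av V (ler p.1).toFinset p.2 ∧
    ∃ w ∈ p.2, Mid n (R i) ρ ε (ler p.1) w} with hA4
  have m1 : ∀ j, μ {ls | ls j ∈ A1 j} ≤ ENNReal.ofReal (η / (4 * K)) := by
    intro j
    have e1 : μ {ls | ls j ∈ A1 j} = ex V O (x i j) (A1 j) :=
      (measurePreserving_eval (fun j => ex V O (x i j)) j).measure_preimage
        (show MeasurableSet (A1 j) from trivial).nullMeasurableSet
    rw [e1]
    refine (h1 (x i j) (D.hx i j) (b i j) (D.hb i j) (D.hbR i j) (dir (x i j)) (norm_dir (hxne j))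
      (dir_eq (hxne j))).trans ?_
    apply ENNReal.ofReal_le_ofReal
    rw [← mul_div_assoc, div_le_iff₀ hr0]
    rw [le_div_iff₀ (by positivity)] at hρ3
    rw [div_mul_eq_mul_div, le_div_iff₀ (by positivity)]
    linarith
  have m2 : ∀ j, μ {ls | ls j ∈ A2} ≤ ENNReal.ofReal (η / (4 * K)) := by
    intro j
    have e1 : μ {ls | ls j ∈ A2} = ex V O (x i j) A2 :=
      (measurePreserving_eval (fun j => ex V O (x i j)) j).measure_preimage
        (show MeasurableSet A2 from trivial).nullMeasurableSet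
    rw [e1]
    refine (h2 (x i j) (D.hx i j)).trans ?_
    apply ENNReal.ofReal_le_ofReal
    rw [← mul_div_assoc, div_le_iff₀ hr0]
    rw [le_div_iff₀ (by positivity)] at hρ4
    rw [div_mul_eq_mul_div, le_div_iff₀ (by positivity)]
    linarith
  have m4 : ∀ a b' : Fin k, μ {ls | a < b' ∧ (ls a, ls b') ∈ A4} ≤ ENNReal.ofReal (η / (4 * K ^ 2)) := by
    intro a b'
    by_cases hab : a < b'
    · have e0 : {ls : Fin k → List Z2 | a < b' ∧ (ls a, ls b') ∈ A4} = {ls | (ls a, ls b') ∈ A4} := by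
        ext ls; simp [hab]
      have hS : MeasurableSet A4 := (Set.to_countable A4).measurableSet
      have e1 : μ {ls | (ls a, ls b') ∈ A4} = ((ex V O (x i a)).prod (ex V O (x i b'))) A4 :=
        pi_pair (fun j => ex V O (x i j)) hab.ne hS
      rw [e0, e1, Measure.prod_apply hS]
      calc ∫⁻ s, (ex V O (x i b')) (Prod.mk s ⁻¹' A4) ∂(ex V O (x i a))
          ≤ ∫⁻ _s, ENNReal.ofReal (η / (4 * K ^ 2)) ∂(ex V O (x i a)) := by
            apply lintegral_mono_ae
            filter_upwards [ex_ae V O (x i a)] with s hs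
            obtain ⟨t, ht, rfl⟩ := hs
            have h5 := h4 (x i a) (LEt (x i a) t) (P_LE ht) (x i b') (D.hx i b')
            have h6 : Prod.mk (x i a :: t) ⁻¹' A4 = {l | Av V (x i a :: LEt (x i a) t).toFinset l ∧
                ∃ w ∈ l, Mid n (R i) ρ ε (x i a :: LEt (x i a) t) w} := by
              ext l
              simp only [hA4, Set.mem_preimage, Set.mem_ofPred_eq, ler_eq]
            rw [h6]
            exact h5
        _ = ENNReal.ofReal (η / (4 * K ^ 2)) := by simp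
    · have e0 : {ls : Fin k → List Z2 | a < b' ∧ (ls a, ls b') ∈ A4} = ∅ := by
        ext ls; simp [hab]
      rw [e0, measure_empty]
      exact bot_le
  -- inclusion
  have hincl : ∀ᵐ ls ∂μ, ls ∈ NM k V (ε * R i) → ls ∈ ((⋃ j, {ls | ls j ∈ A1 j}) ∪ (⋃ j, {ls | ls j ∈ A2})) ∪
      ((⋃ a, ⋃ b', {ls | a < b' ∧ (ls a, ls b') ∈ A4}) ∪ NT k (r' * Mn n (R i))) := by
    filter_upwards [fam_ae hVO (x i) (fun j => ZZ_pos (D.hx i j))] with ls hls hNM
    by_contra hcon
    simp only [Set.mem_union, Set.mem_iUnion, not_or, not_exists, Set.mem_ofPred_eq, not_and] at hcon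
    obtain ⟨⟨c1, c2⟩, c4, c5⟩ := hcon
    obtain ⟨hB, a, b', hab, v, hv, w, hw, hvw⟩ := hNM
    obtain ⟨t, ht, hl⟩ := hls a
    obtain ⟨t', ht', hl'⟩ := hls b'
    apply c5
    refine ⟨a, b', hab, ?_⟩
    have g4 : ¬ ∃ w ∈ x i b' :: t', Mid n (R i) ρ ε (ler (x i a :: t)) w := by
      intro hcon
      apply c4 a b' hab
      refine ⟨hB.2 a b' hab, ?_⟩
      rw [hl, hl']
      exact hcon
    have g1 := c1 a
    have g1' := c1 b'
    have g2 := c2 a
    have g2' := c2 b'
    rw [hl] at g1 g2 hv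
    rw [hl'] at g1' g2' hw
    have h5 := near_cases hR0 hρp hr0 hε1 hε2 ht ht' g1 g1' g2 g2' g4 (hd a b' hab.ne) hv hw hvw
    rw [hl, hl', lst_cons, lst_cons]
    refine h5.trans ?_
    have hMR : R i ≤ Mn n (R i) := Mn_ge hn.le hR0.le
    calc 3 * r * R i ≤ r' * R i := by nlinarith
      _ ≤ r' * Mn n (R i) := mul_le_mul_of_nonneg_left hMR hr'.le
  have hK1 : (k : ℝ) ≤ K := by rw [hK]; linarith
  have s1 : μ (⋃ j, {ls | ls j ∈ A1 j}) ≤ ENNReal.ofReal (η / 4) := by
    refine (measure_iUnion_fintype_le _ _).trans ?_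
    refine (Finset.sum_le_sum (fun j _ => m1 j)).trans ?_
    rw [Finset.sum_const, Finset.card_univ, Fintype.card_fin, nsmul_eq_mul,
      ← ENNReal.ofReal_natCast, ← ENNReal.ofReal_mul (by positivity)]
    apply ENNReal.ofReal_le_ofReal
    rw [← mul_div_assoc, div_le_div_iff₀ (by positivity) (by norm_num)]
    nlinarith
  have s2 : μ (⋃ j, {ls | ls j ∈ A2}) ≤ ENNReal.ofReal (η / 4) := by
    refine (measure_iUnion_fintype_le _ _).trans ?_
    refine (Finset.sum_le_sum (fun j _ => m2 j)).trans ?_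
    rw [Finset.sum_const, Finset.card_univ, Fintype.card_fin, nsmul_eq_mul,
      ← ENNReal.ofReal_natCast, ← ENNReal.ofReal_mul (by positivity)]
    apply ENNReal.ofReal_le_ofReal
    rw [← mul_div_assoc, div_le_div_iff₀ (by positivity) (by norm_num)]
    nlinarith
  have s4 : μ (⋃ a, ⋃ b', {ls | a < b' ∧ (ls a, ls b') ∈ A4}) ≤ ENNReal.ofReal (η / 4) := by
    refine (measure_iUnion_fintype_le _ _).trans ?_
    refine (Finset.sum_le_sum (fun a _ => (measure_iUnion_fintype_le _ _).trans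
      (Finset.sum_le_sum (fun b' _ => m4 a b')))).trans ?_
    rw [Finset.sum_const, Finset.sum_const, Finset.card_univ, Fintype.card_fin, nsmul_eq_mul, nsmul_eq_mul,
      ← ENNReal.ofReal_natCast, ← ENNReal.ofReal_mul (by positivity), ← ENNReal.ofReal_mul (by positivity)]
    apply ENNReal.ofReal_le_ofReal
    rw [← mul_div_assoc, ← mul_div_assoc, div_le_div_iff₀ (by positivity) (by norm_num)]
    have hk0 : (0 : ℝ) ≤ k := Nat.cast_nonneg k
    have : (k : ℝ) * k ≤ K ^ 2 := by nlinarith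
    nlinarith
  calc μ (NM k V (ε * R i)) ≤ μ (((⋃ j, {ls | ls j ∈ A1 j}) ∪ (⋃ j, {ls | ls j ∈ A2})) ∪
      ((⋃ a, ⋃ b', {ls | a < b' ∧ (ls a, ls b') ∈ A4}) ∪ NT k (r' * Mn n (R i)))) := measure_mono_ae hincl
    _ ≤ (ENNReal.ofReal (η / 4) + ENNReal.ofReal (η / 4)) + (ENNReal.ofReal (η / 4) + ENNReal.ofReal (η / 4)) := by
        refine (measure_union_le _ _).trans (add_le_add ?_ ?_)
        · exact (measure_union_le _ _).trans (add_le_add s1 s2)
        · exact (measure_union_le _ _).trans (add_le_add s4 he)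
    _ = ENNReal.ofReal η := by
        rw [← ENNReal.ofReal_add (by positivity) (by positivity),
          ← ENNReal.ofReal_add (by positivity) (by positivity)]
        congr 1
        ring

end main

end Pool.Agent.H96.LE
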