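import Pool.Agent.H96.LE.ExcDefs
import Pool.Agent.H96.LE.Near3

/-!
# Traces of lattice paths
-/

namespace Pool.Agent.H96.LE

open TopologicalSpace MeasureTheory Filter Topology
open scoped ENNReal

lemma emb_eq (δ : ℝ) (v : Z2) : emb δ v = (δ : ℂ) * cx v := by
  unfold emb
  congr 1
  apply Complex.ext <;> simp

lemma norm_emb {δ : ℝ} (hδ : 0 < δ) (v : Z2) : ‖emb δ v‖ = δ * ‖cx v‖ := by
  rw [emb_eq, norm_mul, Complex.norm_real, Real.norm_eq_abs, abs_of_pos hδ]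

lemma adj_iff (v w : Z2) : Adj v w ↔ w ∈ nb v := by
  unfold Adj
  rw [mem_nb]
  rcases v with ⟨a, b⟩
  rcases w with ⟨c, d⟩
  simp only [Prod.mk.injEq]
  constructor
  · intro h
    rcases abs_cases (a - c) with ⟨h1, h2⟩ | ⟨h1, h2⟩ <;>
      rcases abs_cases (b - d) with ⟨h3, h4⟩ | ⟨h3, h4⟩ <;> omega
  · rintro (⟨h1, h2⟩ | ⟨h1, h2⟩ | ⟨h1, h2⟩ | ⟨h1, h2⟩) <;> subst h1 <;> subst h2 <;> simp

lemma loopErase_eq (l : List Z2) : loopErase l = ler l := rfl

lemma mem_ann_iff {δ n : ℝ} (hδ : 0 < δ) (v : Z2) :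
    emb δ v ∈ annulus n ↔ v ∈ VV (1 / δ) (Mn n (1 / δ)) := by
  unfold annulus
  rw [Set.mem_ofPred_eq, norm_emb hδ, mem_VV]
  unfold Mn
  constructor
  · rintro ⟨h1, h2⟩
    constructor
    · rw [div_lt_iff₀ hδ]; linarith
    · rw [div_mul_eq_mul_div, one_mul, lt_div_iff₀ hδ]; linarith
  · rintro ⟨h1, h2⟩
    rw [div_lt_iff₀ hδ] at h1
    rw [div_mul_eq_mul_div, one_mul, lt_div_iff₀ hδ] at h2
    constructor <;> linarith

lemma isExc_iff {δ n : ℝ} (hδ : 0 < δ) (t : List Z2) : ∀ v, ‖cx v‖ < Mn n (1 / δ) + 1 →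
    (IsExc δ n v t ↔ P (VV (1 / δ) (Mn n (1 / δ))) (OO (Mn n (1 / δ))) v t) := by
  induction t with
  | nil =>
    intro v hv
    unfold IsExc
    rw [P_nil, mem_OO, norm_emb hδ]
    have e : Mn n (1 / δ) ≤ ‖cx v‖ ↔ Real.exp n ≤ δ * ‖cx v‖ := by
      unfold Mn
      rw [div_mul_eq_mul_div, one_mul, div_le_iff₀ hδ, mul_comm δ]
    rw [e]
    exact ⟨fun h => ⟨h, hv⟩, fun h => h.1⟩
  | cons w t ih =>
    intro v hv
    simp only [IsExc, P_cons]
    rw [mem_ann_iff hδ, adj_iff]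
    constructor
    · rintro ⟨h1, h2, h3⟩
      refine ⟨h1, h2, (ih w ?_).1 h3⟩
      have := (norm_nb_ge h2).2
      have := (mem_VV.1 h1).2
      linarith
    · rintro ⟨h1, h2, h3⟩
      refine ⟨h1, h2, (ih w ?_).2 h3⟩
      have := (norm_nb_ge h2).2
      have := (mem_VV.1 h1).2
      linarith

lemma excWeight_eq {δ n : ℝ} (hδ : 0 < δ) {a : Z2} (ha : emb δ a ∈ annulus n) (t : List Z2) :
    excWeight δ n a t = ENNReal.ofReal (pm (VV (1 / δ) (Mn n (1 / δ))) (OO (Mn n (1 / δ))) a t) := by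
  have ha' := (mem_ann_iff hδ a).1 ha
  have h1 := isExc_iff (n := n) hδ t a (by have := (mem_VV.1 ha').2; linarith)
  unfold excWeight pm
  by_cases h : IsExc δ n a t
  · rw [if_pos h, if_pos (h1.1 h), ENNReal.ofReal_pow (by norm_num)]
    congr 1
    rw [one_div, one_div, ENNReal.ofReal_inv_of_pos (by norm_num)]
    simp
  · rw [if_neg h, if_neg (fun h2 => h (h1.2 h2)), ENNReal.ofReal_zero]

/-- traces of the path and its loop erasure -/
noncomputable def Tr (δ : ℝ) (l : List Z2) : NonemptyCompacts ℂ × NonemptyCompacts ℂ :=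
  (trace δ l, trace δ (ler l))

lemma excLaw_eq {δ n : ℝ} (hδ : 0 < δ) {a : Z2} (ha : emb δ a ∈ annulus n) :
    excLaw δ n a = (ex (VV (1 / δ) (Mn n (1 / δ))) (OO (Mn n (1 / δ))) a).map (Tr δ) := by
  have ha' := (mem_ann_iff hδ a).1 ha
  set V := VV (1 / δ) (Mn n (1 / δ)) with hV
  set O := OO (Mn n (1 / δ)) with hO
  have hVO : Disjoint V O := disj_VO _ _
  have hZ : 0 < ZZ V O a := ZZ_pos ha'
  ext s hs
  rw [Measure.map_apply (Measurable.of_discrete) hs, ex_apply]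
  unfold excLaw
  rw [Measure.smul_apply, Measure.sum_apply _ hs, smul_eq_mul]
  have h1 : ∑' t, excWeight δ n a t = ENNReal.ofReal (ZZ V O a) := by
    simp only [excWeight_eq hδ ha]
    rw [← ENNReal.ofReal_tsum_of_nonneg (pm_nonneg V O a) (summable_pm V O hVO a), ZZ_eq]
  rw [h1, ← ENNReal.tsum_mul_left]
  congr 1
  funext t
  rw [Measure.smul_apply, Measure.dirac_apply' _ hs, smul_eq_mul, excWeight_eq hδ ha,
    ENNReal.ofReal_div_of_pos hZ, ← mul_assoc]
  congr 1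
  rw [mul_comm, ENNReal.div_eq_inv_mul, mul_comm]

/-- trace and polygon -/
lemma trace_eq {δ : ℝ} (t : List Z2) : ∀ v, (trace δ (v :: t) : Set ℂ) =
    (fun z => (δ : ℂ) * z) '' poly (cx v) (t.map cx) := by
  induction t with
  | nil =>
    intro v
    simp only [trace, poly, List.map_nil, Set.image_singleton]
    rw [emb_eq]
    rfl
  | cons w t ih =>
    intro v
    have h1 : (trace δ (v :: w :: t) : Set ℂ) =
        (seg (emb δ v) (emb δ w) : Set ℂ) ∪ (trace δ (w :: t) : Set ℂ) := rfl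
    rw [h1, ih w]
    simp only [List.map_cons, poly, Set.image_union]
    congr 1
    show segment ℝ (emb δ v) (emb δ w) = _
    rw [emb_eq, emb_eq]
    have h2 := image_segment ℝ (LinearMap.toAffineMap ((δ : ℂ) • (LinearMap.id : ℂ →ₗ[ℝ] ℂ))) (cx v) (cx w)
    exact h2.symm

lemma mem_trace {δ : ℝ} (t : List Z2) : ∀ v, ∀ w ∈ v :: t, emb δ w ∈ (trace δ (v :: t) : Set ℂ) := by
  induction t with
  | nil =>
    intro v w hw
    rw [List.mem_singleton] at hw
    rw [hw]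
    exact Set.mem_singleton _
  | cons u t ih =>
    intro v w hw
    have h1 : (trace δ (v :: u :: t) : Set ℂ) =
        (seg (emb δ v) (emb δ u) : Set ℂ) ∪ (trace δ (u :: t) : Set ℂ) := rfl
    rw [h1]
    rcases List.mem_cons.1 hw with rfl | hw
    · left
      exact left_mem_segment ℝ _ _
    · right
      exact ih u w hw

lemma near_vertex {δ : ℝ} (hδ : 0 < δ) {t : List Z2} {v : Z2} (hW : Wk v t) {p : ℂ}
    (hp : p ∈ (trace δ (v :: t) : Set ℂ)) : ∃ w ∈ v :: t, ‖p - emb δ w‖ ≤ δ := by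
  rw [trace_eq] at hp
  obtain ⟨q, hq, rfl⟩ := hp
  have hkey : ∃ w ∈ v :: t, ‖q - cx w‖ ≤ 1 := by
    rcases mem_poly_edge t v hW hq with h | ⟨u, hu, w, hw, huw, hseg⟩
    · exact ⟨en v t, en_mem v t, by rw [h, sub_self, norm_zero]; norm_num⟩
    · refine ⟨u, hu, ?_⟩
      exact (seg_near hseg (norm_nb huw).le).1
  obtain ⟨w, hw, h⟩ := hkey
  refine ⟨w, hw, ?_⟩
  simp only
  rw [emb_eq, ← mul_sub, norm_mul, Complex.norm_real, Real.norm_eq_abs, abs_of_pos hδ]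
  nlinarith

lemma traces_disjoint_iff {δ : ℝ} (hδ : 0 < δ) {v v' : Z2} {t t' : List Z2} (hW : Wk v t)
    (hW' : Wk v' t') : Disjoint (trace δ (v :: t) : Set ℂ) (trace δ (v' :: t') : Set ℂ) ↔
      ∀ z ∈ v :: t, z ∉ v' :: t' := by
  constructor
  · intro h z hz hz'
    exact Set.disjoint_left.1 h (mem_trace t v z hz) (mem_trace t' v' z hz')
  · intro h
    rw [Set.disjoint_left]
    intro p hp hp'
    rw [trace_eq] at hp hp'
    obtain ⟨q, hq, rfl⟩ := hp
    obtain ⟨q', hq', hqq⟩ := hp'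
    have hδ' : (δ : ℂ) ≠ 0 := by exact_mod_cast hδ.ne'
    have : q' = q := mul_left_cancel₀ hδ' hqq
    rw [this] at hq'
    exact poly_disj t t' v v' hW hW' h hq hq'

/-! ### topology of pairs of compact sets -/

/-- pairs at distance less than `ε` -/
def HH (ε : ℝ) : Set (NonemptyCompacts ℂ × NonemptyCompacts ℂ) :=
  {p | ∃ x ∈ (p.1 : Set ℂ), ∃ y ∈ (p.2 : Set ℂ), dist x y < ε}

lemma isOpen_HH (ε : ℝ) : IsOpen (HH ε) := by
  rw [isOpen_iff_forall_mem_open]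
  rintro ⟨K, L⟩ ⟨x, hx, y, hy, hd⟩
  set η : ℝ := (ε - dist x y) / 2 with hη
  have hη0 : 0 < η := by simp only [hη]; linarith
  refine ⟨{K : NonemptyCompacts ℂ | ((K : Set ℂ) ∩ Metric.ball x η).Nonempty} ×ˢ
    {L : NonemptyCompacts ℂ | ((L : Set ℂ) ∩ Metric.ball y η).Nonempty}, ?_,
    (NonemptyCompacts.isOpen_inter_nonempty_of_isOpen Metric.isOpen_ball).prod
      (NonemptyCompacts.isOpen_inter_nonempty_of_isOpen Metric.isOpen_ball),
    ⟨x, hx, Metric.mem_ball_self hη0⟩, ⟨y, hy, Metric.mem_ball_self hη0⟩⟩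
  rintro ⟨K', L'⟩ ⟨⟨x', hx', hxx⟩, ⟨y', hy', hyy⟩⟩
  refine ⟨x', hx', y', hy', ?_⟩
  rw [Metric.mem_ball] at hxx hyy
  have h1 := dist_triangle x' x y'
  have h2 := dist_triangle x y y'
  rw [dist_comm y y'] at h2
  simp only [hη] at hxx hyy
  linarith

/-- the non-intersection event -/
def GG (k : ℕ) : Set (Fin k → NonemptyCompacts ℂ × NonemptyCompacts ℂ) :=
  {ω | ∀ j l, j < l → Disjoint ((ω j).2 : Set ℂ) ((ω l).1 : Set ℂ)}

lemma isOpen_GG (k : ℕ) : IsOpen (GG k) := by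
  have h1 : GG k = ⋂ j, ⋂ l, {ω | j < l → Disjoint ((ω j).2 : Set ℂ) ((ω l).1 : Set ℂ)} := by
    ext ω
    simp [GG]
  rw [h1]
  apply isOpen_iInter_of_finite
  intro j
  apply isOpen_iInter_of_finite
  intro l
  by_cases hjl : j < l
  · simp only [hjl, forall_const]
    have : Continuous (fun ω : Fin k → NonemptyCompacts ℂ × NonemptyCompacts ℂ => ((ω j).2, (ω l).1)) :=
      ((continuous_apply j).snd).prodMk ((continuous_apply l).fst)
    exact NonemptyCompacts.isOpen_setOfPred_disjoint_coe.preimage this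
  · simp only [hjl, false_implies]
    exact isOpen_univ

/-- some pair is at distance less than `ε` -/
def UU (k : ℕ) (ε : ℝ) : Set (Fin k → NonemptyCompacts ℂ × NonemptyCompacts ℂ) :=
  {ω | ∃ j l, j < l ∧ ((ω j).2, (ω l).1) ∈ HH ε}

lemma isOpen_UU (k : ℕ) (ε : ℝ) : IsOpen (UU k ε) := by
  have h1 : UU k ε = ⋃ j, ⋃ l, {ω | j < l ∧ ((ω j).2, (ω l).1) ∈ HH ε} := by
    ext ω
    simp [UU]
  rw [h1]
  apply isOpen_iUnion
  intro j
  apply isOpen_iUnion
  intro l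
  by_cases hjl : j < l
  · simp only [hjl, true_and]
    have : Continuous (fun ω : Fin k → NonemptyCompacts ℂ × NonemptyCompacts ℂ => ((ω j).2, (ω l).1)) :=
      ((continuous_apply j).snd).prodMk ((continuous_apply l).fst)
    exact (isOpen_HH ε).preimage this
  · simp only [hjl, false_and]
    exact isOpen_empty

lemma compl_UU_sub {k : ℕ} {ε : ℝ} (hε : 0 < ε) : (UU k ε)ᶜ ⊆ GG k := by
  intro ω hω j l hjl
  rw [Set.disjoint_left]
  intro x hx hx'
  apply hω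
  exact ⟨j, l, hjl, x, hx, x, hx', by rw [dist_self]; exact hε⟩

end Pool.Agent.H96.LE
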