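import Pool.Agent.H96.LE.Barrier

/-!
# The harmonic function of the annulus
-/

namespace Pool.Agent.H96.LE

open Finset Filter

/-- outer radius -/
noncomputable def Mn (n R : ℝ) : ℝ := R * Real.exp n

lemma Mn_ge {n R : ℝ} (hn : 0 ≤ n) (hR : 0 ≤ R) : R ≤ Mn n R := by
  unfold Mn
  have : 1 ≤ Real.exp n := Real.one_le_exp hn
  nlinarith

lemma Mn_ge' {n R : ℝ} (hR : 0 ≤ R) : R + n * R ≤ Mn n R := by
  unfold Mn
  have := Real.add_one_le_exp n
  nlinarith

/-- harmonic function of the annulus: probability to leave through the outer boundary -/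
noncomputable def hh (n R : ℝ) (z : Z2) : ℝ :=
  PL q1 (VV R (Mn n R)) (OO (Mn n R)) (fun _ => 1) z

lemma hh_nonneg (n R : ℝ) (z : Z2) : 0 ≤ hh n R z := by
  unfold hh PL
  apply PS_nonneg
  intro l
  split_ifs <;> norm_num

lemma hh_le_one (n R : ℝ) (z : Z2) : hh n R z ≤ 1 := by
  have h := norm_PS_le GW_q1 (disj_VO R (Mn n R)) z
    (fun l => if lst l ∈ OO (Mn n R) then (1 : ℝ) else 0) 1 (fun l => by split_ifs <;> simp)
  exact (le_abs_self _).trans h

lemma inner_log {R t : ℝ} (hR : 2 ≤ R) (h1 : R - 1 ≤ t) (h2 : t ≤ R) :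
    |Real.log (t / R)| ≤ 2 / R := by
  have hR0 : 0 < R := by linarith
  have ht : 0 < t := by linarith
  rw [abs_le]
  constructor
  · have h3 := Real.one_sub_inv_le_log_of_pos (show 0 < t / R by positivity)
    rw [inv_div] at h3
    refine le_trans ?_ h3
    have h4 : R / t ≤ R / (R - 1) := div_le_div_of_nonneg_left hR0.le (by linarith) h1
    have h5 : R / (R - 1) ≤ 1 + 2 / R := by
      rw [div_le_iff₀ (by linarith)]
      have : (1 + 2 / R) * (R - 1) = R + 1 - 2 / R := by field_simp; ring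
      rw [this]
      have : 2 / R ≤ 1 := by rw [div_le_one hR0]; linarith
      linarith
    linarith
  · have : Real.log (t / R) ≤ 0 := Real.log_nonpos (by positivity) (by rw [div_le_one hR0]; exact h2)
    have : 0 ≤ 2 / R := by positivity
    linarith

lemma outer_log {n R t : ℝ} (hn : 0 ≤ n) (hR : 1 ≤ R) (h1 : Mn n R ≤ t) (h2 : t ≤ Mn n R + 1) :
    |Real.log (t / R) - n| ≤ 2 / R := by
  have hR0 : 0 < R := by linarith
  have hM : R ≤ Mn n R := Mn_ge hn hR0.le
  have hM0 : 0 < Mn n R := by linarith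
  have hn' : n = Real.log (Mn n R / R) := by
    unfold Mn
    rw [mul_div_assoc, mul_comm, div_mul_cancel₀ _ hR0.ne', Real.log_exp]
  have h3 : Real.log (t / R) - n = Real.log (t / Mn n R) := by
    conv_lhs => rw [hn']
    rw [Real.log_div (by linarith) hR0.ne', Real.log_div hM0.ne' hR0.ne',
      Real.log_div (by linarith) hM0.ne']
    ring
  rw [h3, abs_le]
  constructor
  · have : 0 ≤ Real.log (t / Mn n R) := Real.log_nonneg (by rw [le_div_iff₀ hM0]; linarith)
    have : 0 ≤ 2 / R := by positivity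
    linarith
  · have h4 := Real.log_le_sub_one_of_pos (show 0 < t / Mn n R from div_pos (by linarith) hM0)
    have h5 : t / Mn n R - 1 ≤ 1 / Mn n R := by
      rw [div_sub_one hM0.ne']
      gcongr
      linarith
    have h6 : 1 / Mn n R ≤ 2 / R := by
      rw [div_le_div_iff₀ hM0 hR0]
      linarith
    linarith

lemma M_sq_bd {n R : ℝ} (hn : 0 ≤ n) (hR : 1 ≤ R) :
    (Mn n R + 1) ^ 2 ≤ 4 * Real.exp (2 * n) * R ^ 2 := by
  have hM : 1 ≤ Mn n R := hR.trans (Mn_ge hn (by linarith))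
  have h1 : (Mn n R + 1) ^ 2 ≤ (2 * Mn n R) ^ 2 := pow_le_pow_left₀ (by linarith) (by linarith) 2
  refine h1.trans (le_of_eq ?_)
  unfold Mn
  have : Real.exp (2 * n) = Real.exp n * Real.exp n := by rw [← Real.exp_add]; ring_nf
  rw [this]; ring

theorem hh_close (n : ℝ) (hn : 0 < n) : ∃ C > 0, ∀ᶠ R in atTop, ∀ z ∈ VV R (Mn n R),
    |hh n R z - Real.log (‖cx z‖ / R) / n| ≤ C / R := by
  refine ⟨(2 + 128 * Real.exp (2 * n)) / n, by positivity, ?_⟩
  filter_upwards [eventually_ge_atTop 4] with R hR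
  have hR0 : 0 < R := by linarith
  have hMR : R ≤ Mn n R := Mn_ge hn.le hR0.le
  have hMR' : R < Mn n R := by
    have := Mn_ge' (n := n) hR0.le
    nlinarith
  intro z hz
  have h := cmp_q GW_q1 (VV R (Mn n R)) (hh n R) (fun z => Real.log (‖cx z‖ / R) / n)
    (32 / (n * R ^ 4)) (2 / R / n) ((Mn n R + 1) ^ 2) (by positivity)
    (fun z hz => PL_step GW_q1 (disj_VO R (Mn n R)) _ hz)
    (by
      intro z hz
      rw [mem_VV] at hz
      rw [sum_q1 z (fun z => Real.log (‖cx z‖ / R) / n), Real.norm_eq_abs]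
      have h1 := mv_log 0 z (by rw [sub_zero]; linarith [hz.1])
      simp only [sub_zero] at h1
      have h2 : av (fun w => Real.log (‖cx w‖ / R) / n) z =
          (av (fun w => Real.log ‖cx w‖) z - Real.log R) / n := by
        have h3 : av (fun w => Real.log (‖cx w‖ / R) / n) z =
            av (fun w => (Real.log ‖cx w‖ - Real.log R) / n) z := by
          unfold av
          congr 1
          apply Finset.sum_congr rfl
          intro w hw
          have := (norm_nb_ge hw).1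
          show Real.log (‖cx w‖ / R) / n = (Real.log ‖cx w‖ - Real.log R) / n
          rw [Real.log_div (by linarith [hz.1]) hR0.ne']
        rw [h3]
        simp only [av_eq]; ring
      rw [h2, Real.log_div (by linarith [hz.1]) hR0.ne']
      have h4 : (Real.log ‖cx z‖ - Real.log R) / n - (av (fun w => Real.log ‖cx w‖) z - Real.log R) / n
          = -((av (fun w => Real.log ‖cx w‖) z - Real.log ‖cx z‖) / n) := by ring
      rw [h4, abs_neg, abs_div, abs_of_pos hn, div_le_iff₀ hn]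
      refine h1.trans ?_
      have h5 : 32 / (n * R ^ 4) * n = 32 / R ^ 4 := by field_simp
      rw [h5]
      apply div_le_div_of_nonneg_left (by norm_num) (by positivity)
      exact pow_le_pow_left₀ hR0.le hz.1.le 4)
    (by
      intro z hz w hw hwV
      rw [Real.norm_eq_abs]
      rcases VV_nb hz hw hwV with h1 | h1
      · have h2 : hh n R w = 0 := PL_none _ hwV (by rw [mem_OO]; intro h; linarith [h.1])
        rw [h2, zero_sub, abs_neg, abs_div, abs_of_pos hn]
        gcongr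
        exact inner_log (by linarith) h1.2 h1.1
      · have h2 : hh n R w = 1 := PL_out _ hwV h1
        rw [mem_OO] at h1
        have h3 := outer_log hn.le (by linarith) h1.1 h1.2.le
        rw [h2]
        have h4 : 1 - Real.log (‖cx w‖ / R) / n = -((Real.log (‖cx w‖ / R) - n) / n) := by
          field_simp; ring
        rw [h4, abs_neg, abs_div, abs_of_pos hn]
        gcongr)
    (fun z hz w hw => nsq_nb_le (by linarith) hz hw) z hz
  rw [Real.norm_eq_abs] at h
  refine h.trans ?_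
  have h6 := M_sq_bd hn.le (show 1 ≤ R by linarith)
  have h7 : 32 / (n * R ^ 4) * (Mn n R + 1) ^ 2 ≤ 32 / (n * R ^ 4) * (4 * Real.exp (2 * n) * R ^ 2) := by
    gcongr
  have h8 : 32 / (n * R ^ 4) * (4 * Real.exp (2 * n) * R ^ 2) = 128 * Real.exp (2 * n) / n / R ^ 2 := by
    field_simp; ring
  have h9 : 128 * Real.exp (2 * n) / n / R ^ 2 ≤ 128 * Real.exp (2 * n) / n / R := by
    apply div_le_div_of_nonneg_left (by positivity) hR0
    nlinarith
  calc 2 / R / n + 32 / (n * R ^ 4) * (Mn n R + 1) ^ 2 ≤ 2 / R / n + 128 * Real.exp (2 * n) / n / R := by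
        linarith
    _ = (2 + 128 * Real.exp (2 * n)) / n / R := by field_simp

lemma norm_sq_cx (z : Z2) : ‖cx z‖ ^ 2 = (z.1 : ℝ) ^ 2 + (z.2 : ℝ) ^ 2 := by
  rw [← nsq_eq]; rfl

lemma exists_out (z : Z2) : ∃ w ∈ nb z, ‖cx z‖ + 1 / 2 ≤ ‖cx w‖ := by
  have h0 := norm_nonneg (cx z)
  have hz := norm_sq_cx z
  have key : ∀ w : Z2, ∀ m : ℝ, 0 ≤ m → ‖cx z‖ ^ 2 ≤ 2 * m ^ 2 → ‖cx w‖ ^ 2 = ‖cx z‖ ^ 2 + 2 * m + 1 →
      ‖cx z‖ + 1 / 2 ≤ ‖cx w‖ := by
    intro w m hm h1 h2
    have h3 : ‖cx z‖ ≤ 2 * m := by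
      have : ‖cx z‖ ^ 2 ≤ (2 * m) ^ 2 := by nlinarith
      exact abs_le_of_sq_le_sq' this (by linarith) |>.2
    have h4 : (‖cx z‖ + 1 / 2) ^ 2 ≤ ‖cx w‖ ^ 2 := by rw [h2]; nlinarith
    exact abs_le_of_sq_le_sq' h4 (norm_nonneg _) |>.2
  rcases le_total (|(z.2 : ℝ)|) (|(z.1 : ℝ)|) with h | h
  · have h2 : (z.2 : ℝ) ^ 2 ≤ (z.1 : ℝ) ^ 2 := sq_le_sq.2 h
    have h3 : ‖cx z‖ ^ 2 ≤ 2 * |(z.1 : ℝ)| ^ 2 := by rw [hz, sq_abs]; linarith
    rcases le_total 0 (z.1 : ℝ) with h4 | h4
    · refine ⟨(z.1 + 1, z.2), mem_nb.2 (Or.inl rfl), key _ _ (abs_nonneg _) h3 ?_⟩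
      rw [hz, norm_sq_cx, abs_of_nonneg h4]
      push_cast; ring
    · refine ⟨(z.1 - 1, z.2), mem_nb.2 (Or.inr (Or.inl rfl)), key _ _ (abs_nonneg _) h3 ?_⟩
      rw [hz, norm_sq_cx, abs_of_nonpos h4]
      push_cast; ring
  · have h2 : (z.1 : ℝ) ^ 2 ≤ (z.2 : ℝ) ^ 2 := sq_le_sq.2 h
    have h3 : ‖cx z‖ ^ 2 ≤ 2 * |(z.2 : ℝ)| ^ 2 := by rw [hz, sq_abs]; linarith
    rcases le_total 0 (z.2 : ℝ) with h4 | h4
    · refine ⟨(z.1, z.2 + 1), mem_nb.2 (Or.inr (Or.inr (Or.inl rfl))), key _ _ (abs_nonneg _) h3 ?_⟩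
      rw [hz, norm_sq_cx, abs_of_nonneg h4]
      push_cast; ring
    · refine ⟨(z.1, z.2 - 1), mem_nb.2 (Or.inr (Or.inr (Or.inr rfl))), key _ _ (abs_nonneg _) h3 ?_⟩
      rw [hz, norm_sq_cx, abs_of_nonpos h4]
      push_cast; ring

lemma av_ge_quarter {u : Z2 → ℝ} (hu : ∀ z, 0 ≤ u z) {z w : Z2} (hw : w ∈ nb z) :
    u w / 4 ≤ av u z := by
  unfold av
  have := Finset.single_le_sum (f := u) (fun v _ => hu v) hw
  linarith

theorem hh_ge (n : ℝ) (hn : 0 < n) : ∃ c > 0, ∀ᶠ R in atTop, ∀ z ∈ VV R (Mn n R),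
    c / R ≤ hh n R z := by
  obtain ⟨C, hC0, hC⟩ := hh_close n hn
  set K1 : ℝ := 4 * n * C with hK1
  have hK10 : 0 < K1 := by positivity
  set m0 : ℕ := ⌈2 * K1⌉₊ with hm0
  refine ⟨(1 / 4) ^ m0 * C, by positivity, ?_⟩
  filter_upwards [hC, eventually_ge_atTop 4, eventually_ge_atTop K1,
    eventually_gt_atTop ((K1 + 1) / n)] with R hCR hR4 hRK hRn
  have hR0 : 0 < R := by linarith
  have hMR := Mn_ge' (n := n) hR0.le
  have hM1 : R + K1 + 1 < Mn n R := by
    rw [div_lt_iff₀ hn] at hRn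
    nlinarith
  have base : ∀ z ∈ VV R (Mn n R), R + K1 ≤ ‖cx z‖ → C / R ≤ hh n R z := by
    intro z hz h1
    have h2 := (abs_le.1 (hCR z hz)).1
    have h3 : 2 * C / R ≤ Real.log (‖cx z‖ / R) / n := by
      rw [le_div_iff₀ hn]
      have h4 : 0 < ‖cx z‖ := by linarith
      have h5 := Real.one_sub_inv_le_log_of_pos (show 0 < ‖cx z‖ / R by positivity)
      rw [inv_div] at h5
      refine le_trans ?_ h5
      have h6 : R / ‖cx z‖ ≤ R / (R + K1) := div_le_div_of_nonneg_left hR0.le (by linarith) h1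
      have h7 : 2 * C / R * n ≤ 1 - R / (R + K1) := by
        rw [one_sub_div (by linarith), add_sub_cancel_left, le_div_iff₀ (by linarith)]
        have h8 : 2 * C / R * n * (R + K1) = 2 * C * n * (1 + K1 / R) := by field_simp
        rw [h8]
        have h9 : K1 / R ≤ 1 := by rw [div_le_one hR0]; exact hRK
        have h10 : 0 < 2 * C * n := by positivity
        nlinarith
      linarith
    have h10 : 2 * C / R = C / R + C / R := by ring
    linarith
  have step : ∀ m : ℕ, ∀ z ∈ VV R (Mn n R), R + K1 - m / 2 ≤ ‖cx z‖ →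
      (1 / 4) ^ m * C / R ≤ hh n R z := by
    intro m
    induction m with
    | zero =>
      intro z hz h1
      simp only [Nat.cast_zero, zero_div, sub_zero] at h1
      simpa using base z hz h1
    | succ m ih =>
      intro z hz h1
      by_cases h2 : R + K1 ≤ ‖cx z‖
      · refine le_trans ?_ (base z hz h2)
        gcongr
        have : (1 / 4 : ℝ) ^ (m + 1) ≤ 1 := pow_le_one₀ (by norm_num) (by norm_num)
        nlinarith
      · push Not at h2
        obtain ⟨w, hw, hw2⟩ := exists_out z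
        have hz' := mem_VV.1 hz
        have h3 := (norm_nb_ge hw).2
        have hwV : w ∈ VV R (Mn n R) := mem_VV.2 ⟨by linarith, by linarith⟩
        have h4 := ih w hwV (by push_cast at h1; linarith)
        have h5 : hh n R z = av (hh n R) z := PL_av (disj_VO R (Mn n R)) _ hz
        rw [h5]
        refine le_trans ?_ (av_ge_quarter (hh_nonneg n R) hw)
        have h6 : (1 / 4 : ℝ) ^ (m + 1) * C / R = ((1 / 4) ^ m * C / R) / 4 := by
          rw [pow_succ]; ring
        rw [h6]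
        linarith
  intro z hz
  apply step m0 z hz
  have := Nat.le_ceil (2 * K1)
  have hz' := mem_VV.1 hz
  linarith

lemma hh_upper {n C R : ℝ} (hn : 0 < n) (hR : 0 < R)
    (h : ∀ z ∈ VV R (Mn n R), |hh n R z - Real.log (‖cx z‖ / R) / n| ≤ C / R) {z : Z2}
    (hz : z ∈ VV R (Mn n R)) : hh n R z ≤ ((‖cx z‖ - R) / n + C) / R := by
  have h1 := (abs_le.1 (h z hz)).2
  have hz' := mem_VV.1 hz
  have hz0 : 0 < ‖cx z‖ := by linarith
  have h2 := Real.log_le_sub_one_of_pos (show 0 < ‖cx z‖ / R by positivity)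
  have h3 : Real.log (‖cx z‖ / R) / n ≤ (‖cx z‖ / R - 1) / n := by gcongr
  have h4 : ((‖cx z‖ - R) / n + C) / R = (‖cx z‖ / R - 1) / n + C / R := by field_simp
  rw [h4]
  linarith

end Pool.Agent.H96.LE
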