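import Mathlib

/-!
# The sign function on the torus and its Fourier coefficients
-/

namespace Pool.Agent.H96.LE

open Finset MeasureTheory

abbrev T1 := UnitAddCircle

/-- characters of the circle -/
noncomputable def fo (m : ℤ) (x : T1) : ℂ := fourier m x

lemma continuous_fo (m : ℤ) : Continuous (fo m) := (fourier (T := (1 : ℝ)) m).continuous

lemma fo_coe (m : ℤ) (t : ℝ) : fo m (t : T1) = Complex.exp (2 * Real.pi * Complex.I * m * t) := by
  unfold fo
  rw [fourier_coe_apply]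
  simp

lemma norm_fo (m : ℤ) (x : T1) : ‖fo m x‖ = 1 := Circle.norm_coe _

lemma fo_zero (x : T1) : fo 0 x = 1 := fourier_zero

lemma fo_add (m n : ℤ) (x : T1) : fo (m + n) x = fo m x * fo n x := fourier_add

lemma fo_neg (m : ℤ) (x : T1) : fo (-m) x = (starRingEnd ℂ) (fo m x) := fourier_neg

lemma fo_arg_add (m : ℤ) (x y : T1) : fo m (x + y) = fo m x * fo m y := by
  unfold fo
  rw [fourier_apply, fourier_apply, fourier_apply, zsmul_add, AddCircle.toCircle_add,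
    Circle.coe_mul]

lemma fo_arg_zero (m : ℤ) : fo m 0 = 1 := fourier_eval_zero m

lemma fo_arg_neg (m : ℤ) (x : T1) : fo m (-x) = (starRingEnd ℂ) (fo m x) := by
  have h1 : fo m (-x) * fo m x = 1 := by rw [← fo_arg_add]; simp [fo_arg_zero]
  have h2 : (starRingEnd ℂ) (fo m x) * fo m x = 1 := by
    rw [mul_comm, Complex.mul_conj, Complex.normSq_eq_norm_sq, norm_fo]
    simp
  have h3 : fo m x ≠ 0 := by
    intro h
    have := norm_fo m x
    rw [h, norm_zero] at this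
    exact zero_ne_one this
  exact mul_right_cancel₀ h3 (h1.trans h2.symm)

lemma fo_ne_zero (m : ℤ) (x : T1) : fo m x ≠ 0 := by
  intro h
  have := norm_fo m x
  rw [h, norm_zero] at this
  exact zero_ne_one this

lemma fo_conj_mul (m : ℤ) (x : T1) : (starRingEnd ℂ) (fo m x) * fo m x = 1 := by
  rw [mul_comm, Complex.mul_conj, Complex.normSq_eq_norm_sq, norm_fo]
  simp

/-- sine of half the angle -/
noncomputable def Ss (x : T1) : ℝ := (fo 1 x).im

lemma continuous_Ss : Continuous Ss := Complex.continuous_im.comp (continuous_fo 1)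

lemma Ss_coe (t : ℝ) : Ss (t : T1) = Real.sin (2 * Real.pi * t) := by
  unfold Ss
  rw [fo_coe]
  have : 2 * (Real.pi : ℂ) * Complex.I * ((1 : ℤ) : ℂ) * (t : ℂ) = ((2 * Real.pi * t : ℝ) : ℂ) * Complex.I := by
    push_cast; ring
  rw [this, Complex.exp_ofReal_mul_I_im]

lemma abs_Ss_le (x : T1) : |Ss x| ≤ 1 := by
  have := Complex.abs_im_le_norm (fo 1 x)
  rwa [norm_fo] at this

lemma fo_two_sub (x y : T1) : fo 2 y - fo 2 x = (fo 1 x * fo 1 y) * ((2 * Complex.I) * (Ss (y - x) : ℂ)) := by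
  have e2 : ∀ z : T1, fo 2 z = fo 1 z * fo 1 z := fun z => by
    rw [← fo_add]; rfl
  have e1 : fo 1 (y - x) = fo 1 y * (starRingEnd ℂ) (fo 1 x) := by
    rw [sub_eq_add_neg, fo_arg_add, fo_arg_neg]
  have e3 : (2 * Complex.I) * (Ss (y - x) : ℂ) = fo 1 (y - x) - (starRingEnd ℂ) (fo 1 (y - x)) := by
    unfold Ss
    apply Complex.ext
    · simp
    · simp; ring
  rw [e3, e1, e2, e2, map_mul, Complex.conj_conj]
  have hx := fo_conj_mul 1 x
  have hy := fo_conj_mul 1 y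
  linear_combination (-(fo 1 y * fo 1 y)) * hx + (fo 1 x * fo 1 x) * hy

/-- the product of the sines -/
noncomputable def Dd {k : ℕ} (x : Fin k → T1) : ℝ := ∏ i, ∏ j ∈ Ioi i, Ss (x j - x i)

lemma continuous_Dd {k : ℕ} : Continuous (Dd (k := k)) := by
  unfold Dd
  refine continuous_finsetProd _ (fun i _ => continuous_finsetProd _ (fun j _ => ?_))
  exact continuous_Ss.comp ((continuous_apply j).sub (continuous_apply i))

/-- the sign function -/
noncomputable def eps {k : ℕ} (x : Fin k → T1) : ℝ := ((SignType.sign (Dd x) : SignType) : ℝ)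

lemma abs_eps_le {k : ℕ} (x : Fin k → T1) : |eps x| ≤ 1 := by
  unfold eps
  rcases lt_trichotomy (Dd x) 0 with h | h | h
  · rw [sign_neg h]; simp
  · rw [h]; simp
  · rw [sign_pos h]; simp

/-- the frequencies -/
def rh (k : ℕ) (l : Fin k) : ℤ := 2 * (l : ℤ) - ((k : ℤ) - 1)

lemma prod_pairs {k : ℕ} (u : Fin k → ℂ) :
    ∏ i, ∏ j ∈ Ioi i, (u i * u j) = ∏ j, u j ^ (k - 1) := by
  simp only [Finset.prod_mul_distrib]
  have h1 : ∏ i : Fin k, ∏ _j ∈ Ioi i, u i = ∏ i, u i ^ (k - 1 - (i : ℕ)) := by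
    apply Finset.prod_congr rfl
    intro i _
    rw [Finset.prod_const, Fin.card_Ioi]
  have h2 : ∏ i : Fin k, ∏ j ∈ Ioi i, u j = ∏ j, u j ^ (j : ℕ) := by
    rw [Finset.prod_comm' (t' := univ) (s' := fun j => Iio j)]
    · apply Finset.prod_congr rfl
      intro j _
      rw [Finset.prod_const, Fin.card_Iio]
    · intro x y
      simp
  rw [h1, h2, ← Finset.prod_mul_distrib]
  apply Finset.prod_congr rfl
  intro i _
  rw [← pow_add]
  congr 1
  have := i.isLt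
  omega

/-- number of pairs -/
def np (k : ℕ) : ℕ := ∑ i : Fin k, (Ioi i).card

/-- the character matrix -/
noncomputable def Km {k : ℕ} (x : Fin k → T1) : Matrix (Fin k) (Fin k) ℂ :=
  Matrix.of (fun j l => fo (rh k l) (x j))

lemma fo_pow (m : ℤ) (x : T1) (l : ℕ) : fo m x ^ l = fo (m * l) x := by
  induction l with
  | zero => simp [fo_zero]
  | succ l ih =>
    rw [pow_succ, ih, ← fo_add]
    congr 1
    push_cast
    ring

lemma det_Km {k : ℕ} (x : Fin k → T1) : (Km x).det = (2 * Complex.I) ^ (np k) * (Dd x : ℂ) := by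
  have h1 : Km x = Matrix.of (fun j l => fo (-((k : ℤ) - 1)) (x j) *
      Matrix.vandermonde (fun j => fo 2 (x j)) j l) := by
    ext j l
    simp only [Km, Matrix.of_apply, Matrix.vandermonde_apply]
    rw [fo_pow, ← fo_add]
    congr 1
    unfold rh
    ring
  rw [h1, Matrix.det_mul_column, Matrix.det_vandermonde]
  have h2 : ∏ i : Fin k, ∏ j ∈ Ioi i, (fo 2 (x j) - fo 2 (x i)) =
      (∏ j, fo 1 (x j) ^ (k - 1)) * ((2 * Complex.I) ^ (np k) * (Dd x : ℂ)) := by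
    rw [← prod_pairs]
    unfold np Dd
    rw [← Finset.prod_pow_eq_pow_sum]
    push_cast
    rw [← Finset.prod_mul_distrib, ← Finset.prod_mul_distrib]
    apply Finset.prod_congr rfl
    intro i _
    rw [← Finset.prod_const, ← Finset.prod_mul_distrib, ← Finset.prod_mul_distrib]
    apply Finset.prod_congr rfl
    intro j _
    exact fo_two_sub (x i) (x j)
  rw [h2, ← mul_assoc, ← Finset.prod_mul_distrib]
  have h3 : ∏ i : Fin k, fo (-((k : ℤ) - 1)) (x i) * fo 1 (x i) ^ (k - 1) = 1 := by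
    apply Finset.prod_eq_one
    intro i _
    have hk : 1 ≤ k := by have := i.isLt; omega
    rw [fo_pow, ← fo_add]
    have : -((k : ℤ) - 1) + 1 * ((k - 1 : ℕ) : ℤ) = 0 := by
      rw [Nat.cast_sub hk]; push_cast; ring
    rw [this, fo_zero]
  rw [h3, one_mul]

lemma Dd_perm {k : ℕ} (x : Fin k → T1) (σ : Equiv.Perm (Fin k)) :
    Dd (x ∘ σ) = ((Equiv.Perm.sign σ : ℤ) : ℝ) * Dd x := by
  have h1 := det_Km (x ∘ σ)
  have h2 : Km (x ∘ σ) = (Km x).submatrix σ id := rfl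
  rw [h2, Matrix.det_permute, det_Km] at h1
  have h3 : (2 * Complex.I) ^ (np k) ≠ 0 := pow_ne_zero _ (by simp)
  have h4 : (2 * Complex.I) ^ (np k) * (Dd (x ∘ σ) : ℂ) =
      (2 * Complex.I) ^ (np k) * (((Equiv.Perm.sign σ : ℤ) : ℂ) * (Dd x : ℂ)) := by
    rw [← h1]; ring
  have h5 := mul_left_cancel₀ h3 h4
  exact_mod_cast h5

lemma eps_perm {k : ℕ} (x : Fin k → T1) (σ : Equiv.Perm (Fin k)) :
    eps (x ∘ σ) = ((Equiv.Perm.sign σ : ℤ) : ℝ) * eps x := by
  unfold eps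
  rw [Dd_perm]
  rcases Int.units_eq_one_or (Equiv.Perm.sign σ) with h | h <;> rw [h]
  · simp
  · simp [Left.sign_neg]

lemma fo_half (m : ℤ) (j : ℤ) : fo m (((j : ℝ) / 2 : ℝ) : T1) = ((-1 : ℂ) ^ j) ^ m := by
  rw [fo_coe]
  have h1 : 2 * (Real.pi : ℂ) * Complex.I * (m : ℂ) * (((j : ℝ) / 2 : ℝ) : ℂ) =
      (m : ℂ) * ((j : ℂ) * (Real.pi * Complex.I)) := by
    push_cast; ring
  rw [h1, Complex.exp_int_mul, Complex.exp_int_mul, Complex.exp_pi_mul_I]

lemma negone_zpow (j : ℤ) : (-1 : ℂ) ^ j = 1 ∨ (-1 : ℂ) ^ j = -1 := by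
  rcases Int.even_or_odd j with h | h
  · left; exact h.neg_one_zpow
  · right; exact h.neg_one_zpow

lemma negone_rh {k : ℕ} (l : Fin k) (j : ℤ) :
    ((-1 : ℂ) ^ j) ^ (rh k l) = ((-1 : ℂ) ^ j) ^ ((k : ℤ) - 1) := by
  have hne : (-1 : ℂ) ^ j ≠ 0 := zpow_ne_zero _ (by norm_num)
  have hsq : ((-1 : ℂ) ^ j) ^ (2 : ℤ) = 1 := by
    rcases negone_zpow j with h | h <;> rw [h] <;> norm_num
  have : rh k l = 2 * ((l : ℤ) - ((k : ℤ) - 1)) + ((k : ℤ) - 1) := by unfold rh; ring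
  rw [this, zpow_add₀ hne, zpow_mul, hsq, one_zpow, one_mul]

/-- shifts by half periods -/
lemma Dd_shift {k : ℕ} (x : Fin k → T1) (m : Fin k → ℤ) :
    (Dd (fun j => x j + (((m j : ℝ) / 2 : ℝ) : T1)) : ℂ) =
      (∏ j, ((-1 : ℂ) ^ (m j)) ^ ((k : ℤ) - 1)) * (Dd x : ℂ) := by
  have h3 : (2 * Complex.I) ^ (np k) ≠ 0 := pow_ne_zero _ (by simp)
  apply mul_left_cancel₀ h3
  rw [← det_Km]
  have h1 : Km (fun j => x j + (((m j : ℝ) / 2 : ℝ) : T1)) =
      Matrix.of (fun j l => ((-1 : ℂ) ^ (m j)) ^ ((k : ℤ) - 1) * Km x j l) := by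
    ext j l
    simp only [Km, Matrix.of_apply]
    rw [fo_arg_add, fo_half, negone_rh]
    ring
  rw [h1, Matrix.det_mul_column, det_Km]
  ring

lemma prod_pm {k : ℕ} (m : Fin k → ℤ) (e : ℤ) :
    (∏ j, ((-1 : ℂ) ^ (m j)) ^ e) = 1 ∨ (∏ j, ((-1 : ℂ) ^ (m j)) ^ e) = -1 := by
  have h1 : (∏ j, ((-1 : ℂ) ^ (m j)) ^ e) = (-1 : ℂ) ^ ((∑ j, m j) * e) := by
    have : ∀ j, ((-1 : ℂ) ^ (m j)) ^ e = (-1 : ℂ) ^ (m j * e) := fun j => by rw [zpow_mul]
    simp only [this]
    rw [Finset.sum_mul]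
    induction (univ : Finset (Fin k)) using Finset.induction_on with
    | empty => simp
    | insert a s ha ih => rw [Finset.prod_insert ha, Finset.sum_insert ha, ih, zpow_add₀ (by norm_num)]
  rw [h1]
  exact negone_zpow _

lemma eps_shift {k : ℕ} (x : Fin k → T1) (m : Fin k → ℤ) :
    (eps (fun j => x j + (((m j : ℝ) / 2 : ℝ) : T1)) : ℂ) =
      (∏ j, ((-1 : ℂ) ^ (m j)) ^ ((k : ℤ) - 1)) * (eps x : ℂ) := by
  have h := Dd_shift x m
  unfold eps
  rcases prod_pm m ((k : ℤ) - 1) with h1 | h1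
  · rw [h1, one_mul] at h ⊢
    have : Dd (fun j => x j + (((m j : ℝ) / 2 : ℝ) : T1)) = Dd x := by exact_mod_cast h
    rw [this]
  · rw [h1, neg_one_mul] at h ⊢
    have : Dd (fun j => x j + (((m j : ℝ) / 2 : ℝ) : T1)) = - Dd x := by exact_mod_cast h
    rw [this, Left.sign_neg]
    push_cast
    simp

end Pool.Agent.H96.LE
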