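import Pool.Agent.H96.LE.PM
import Pool.Agent.H96.LE.Gauge
import Pool.Agent.H96.LE.Tor1

/-!
# The key identity, first part
-/

namespace Pool.Agent.H96.LE

open Finset Complex

/-- winding of a list -/
noncomputable def windl : List Z2 → ℝ
  | [] => 0
  | a :: t => wind a t

@[simp] lemma windl_cons (a : Z2) (t : List Z2) : windl (a :: t) = wind a t := rfl

lemma phl_ph (χ : ℝ) (l : List Z2) : phl (ph χ) l = exp ((χ * windl l : ℝ) * I) := by
  cases l with
  | nil => simp [phl, windl]
  | cons a t => exact wt_ph χ t a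

lemma norm_phl_ph (χ : ℝ) (l : List Z2) : ‖phl (ph χ) l‖ = 1 := by
  rw [phl_ph]; exact norm_exp_ofReal_mul_I _

lemma PS_qa (χ : ℝ) (D O : Finset Z2) (x : Z2) (Φ : List Z2 → ℂ) :
    PS (qa χ) D O x Φ = PS q0 D O x (fun l => phl (ph χ) l * Φ l) := by
  unfold PS
  congr 1
  funext t
  unfold psTerm
  split_ifs with h
  · have : wt (qa χ) x t = wt q0 x t * phl (ph χ) (x :: t) := by
      rw [wt_qa, wt_q0, phl_ph, windl_cons]
    rw [this]
    ring
  · rfl

lemma MP_qa (χ : ℝ) (D O : Finset Z2) (k : ℕ) : ∀ (x : Fin k → Z2) (Φ : (Fin k → List Z2) → ℂ),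
    MP (qa χ) D O k x Φ = MP q0 D O k x (fun ls => (∏ j, phl (ph χ) (ls j)) * Φ ls) := by
  induction k with
  | zero => intro x Φ; simp [MP]
  | succ k ih =>
    intro x Φ
    simp only [MP]
    rw [PS_qa]
    congr 1
    funext l
    rw [ih, ← MP_mul_left]
    congr 1
    funext ls
    rw [Fin.prod_univ_succ]
    simp only [Fin.cons_zero, Fin.cons_succ]
    ring

/-- the part of the list in `V` avoids `η` -/
def Av (V η : Finset Z2) (l : List Z2) : Prop := ∀ v ∈ l, v ∈ V → v ∉ η

lemma P_sdiff {V O : Finset Z2} (hVO : Disjoint V O) (η : Finset Z2) (t : List Z2) : ∀ x,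
    P (V \ η) O x t ↔ P V O x t ∧ Av V η (x :: t) := by
  induction t with
  | nil =>
    intro x
    simp only [P_nil, Av, List.mem_singleton]
    constructor
    · intro h
      refine ⟨h, ?_⟩
      rintro v rfl hv
      exact absurd h (Finset.disjoint_left.1 hVO hv)
    · exact fun h => h.1
  | cons b t ih =>
    intro x
    simp only [P_cons, ih, Finset.mem_sdiff]
    constructor
    · rintro ⟨⟨h1, h2⟩, h3, h4, h5⟩
      refine ⟨⟨h1, h3, h4⟩, ?_⟩
      intro v hv hvV
      rcases List.mem_cons.1 hv with rfl | hv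
      · exact h2
      · exact h5 v hv hvV
    · rintro ⟨⟨h1, h3, h4⟩, h5⟩
      exact ⟨⟨h1, h5 x (by simp) h1⟩, h3, h4, fun v hv hvV => h5 v (List.mem_cons_of_mem _ hv) hvV⟩

open Classical in
lemma PS_sdiff {𝕜 : Type*} [RCLike 𝕜] (q : Z2 → Z2 → 𝕜) {V O : Finset Z2} (hVO : Disjoint V O)
    (η : Finset Z2) (x : Z2) (Ψ : List Z2 → 𝕜) :
    PS q (V \ η) O x Ψ = PS q V O x (fun l => if Av V η l then Ψ l else 0) := by
  unfold PS
  congr 1
  funext t
  unfold psTerm
  simp only
  by_cases h : P (V \ η) O x t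
  · have h2 := (P_sdiff hVO η t x).1 h
    rw [if_pos h, if_pos h2.1, if_pos h2.2]
  · rw [if_neg h]
    by_cases h3 : P V O x t
    · rw [if_pos h3, if_neg (fun h4 => h ((P_sdiff hVO η t x).2 ⟨h3, h4⟩)), mul_zero]
    · rw [if_neg h3]

/-- non-intersection of a family -/
def BB (V η : Finset Z2) {k : ℕ} (ls : Fin k → List Z2) : Prop :=
  (∀ j, Av V η (ls j)) ∧ ∀ i j, i < j → Av V (ler (ls i)).toFinset (ls j)

lemma Av_union {V η ξ : Finset Z2} {l : List Z2} : Av V (η ∪ ξ) l ↔ Av V η l ∧ Av V ξ l := by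
  unfold Av
  simp only [Finset.mem_union, not_or]
  exact ⟨fun h => ⟨fun v hv hV => (h v hv hV).1, fun v hv hV => (h v hv hV).2⟩,
    fun h v hv hV => ⟨h.1 v hv hV, h.2 v hv hV⟩⟩

lemma BB_cons {V η : Finset Z2} {k : ℕ} (l : List Z2) (ls : Fin k → List Z2) :
    BB V η (Fin.cons l ls : Fin (k + 1) → List Z2) ↔
      Av V η l ∧ BB V (η ∪ (ler l).toFinset) ls := by
  unfold BB
  constructor
  · rintro ⟨h1, h2⟩
    refine ⟨by simpa using h1 0, fun j => ?_, fun i j hij => ?_⟩
    · rw [Av_union]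
      exact ⟨by simpa using h1 j.succ, by simpa using h2 0 j.succ (Fin.succ_pos j)⟩
    · simpa using h2 i.succ j.succ (Fin.succ_lt_succ_iff.2 hij)
  · rintro ⟨h1, h2, h3⟩
    constructor
    · intro j
      refine Fin.cases ?_ (fun i => ?_) j
      · simpa using h1
      · simpa using (Av_union.1 (h2 i)).1
    · intro i j hij
      revert hij
      refine Fin.cases ?_ (fun j' => ?_) j
      · intro hij; exact absurd hij (Fin.not_lt_zero i)
      · refine Fin.cases ?_ (fun i' => ?_) i
        · intro _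
          simpa using (Av_union.1 (h2 j')).2
        · intro hij
          simpa using h3 i' j' (Fin.succ_lt_succ_iff.1 hij)

lemma W_mem {V : Finset Z2} (s : List Z2) : ∀ x, W V x s → en x s ∈ V → ∀ w ∈ x :: s, w ∈ V := by
  induction s with
  | nil =>
    intro x _ h w hw
    rw [List.mem_singleton] at hw
    rw [hw]; exact h
  | cons b s ih =>
    intro x h1 h2 w hw
    rcases List.mem_cons.1 hw with rfl | hw
    · exact h1.1
    · exact ih b h1.2.2 h2 w hw

lemma W_Wk {V : Finset Z2} (s : List Z2) : ∀ x, W V x s → Wk x s := by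
  induction s with
  | nil => intro x _; trivial
  | cons b s ih => intro x h; exact ⟨h.2.1, ih b h.2.2⟩

section data

variable {R M : ℝ} {V O : Finset Z2}

lemma wind_LEt (hR : 10 ≤ R) (hRM : R + 10 ≤ M)
    (hV : ∀ z ∈ V, R < ‖cx z‖ ∧ ‖cx z‖ < M) (hO : ∀ z ∈ O, M ≤ ‖cx z‖) (hVO : Disjoint V O)
    {x0 b0 : Z2} {t0 : List Z2} (hx0 : x0 ∈ V) (hP0 : P V O x0 t0)
    (hb0 : b0 ∈ nb x0) (hb0R : ‖cx b0‖ ≤ R) {η : Finset Z2} (hη : ∀ z ∈ x0 :: t0, z ∈ η) (n : ℕ) :
    ∀ (t : List Z2) (x : Z2), t.length ≤ n → P V O x t → Av V η (x :: t) →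
      wind x (LEt x t) = wind x t := by
  induction n with
  | zero =>
    intro t x ht _ _
    have : t = [] := List.length_eq_zero_iff.1 (Nat.le_zero.1 ht)
    subst this
    simp [LEt, aft, ler_nil]
  | succ n ih =>
    intro t x ht hP hA
    have h1 := bef_append_aft x t
    have hP' := hP
    rw [← h1, P_append, en_bef] at hP'
    have hsub : ∀ w ∈ x :: bef x t, w ∈ x :: t := by
      intro w hw
      rcases List.mem_cons.1 hw with rfl | hw
      · simp
      · apply List.mem_cons_of_mem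
        rw [← h1]
        exact List.mem_append_left _ hw
    cases hAft : aft x t with
    | nil =>
      rw [hAft] at hP' h1
      have hxO : x ∈ O := hP'.2
      cases hB : bef x t with
      | nil =>
        rw [hB] at h1
        simp only [List.append_nil] at h1
        rw [← h1]
        simp [LEt, aft, ler_nil]
      | cons b s =>
        rw [hB] at hP'
        exact absurd hxO (Finset.disjoint_left.1 hVO hP'.1.1)
    | cons c t' =>
      rw [hAft] at hP' h1
      have hxV : x ∈ V := hP'.2.1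
      have hcl : wind x (bef x t) = 0 := by
        apply closed_wind hR hRM hV hO hx0 hP0 hb0 hb0R (W_Wk _ _ hP'.1) (en_bef x t)
        intro w hw
        have hwV : w ∈ V := W_mem _ _ hP'.1 (by rw [en_bef]; exact hxV) w hw
        exact ⟨hwV, fun h => hA w (hsub w hw) hwV (hη w h)⟩
      have h2 : wind x t = wind x (c :: t') := by
        conv_lhs => rw [← h1]
        rw [wind_append, hcl, en_bef, zero_add]
      have h3 : LEt x t = c :: LEt c t' := by
        unfold LEt
        rw [hAft, ler_cons]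
      rw [h2, h3, wind_cons, wind_cons]
      congr 1
      apply ih t' c
      · have : (bef x t).length + (t'.length + 1) = t.length := by
          rw [← List.length_cons, ← List.length_append, h1]
        omega
      · exact hP'.2.2.2
      · intro w hw hwV
        apply hA w _ hwV
        apply List.mem_cons_of_mem
        rw [← h1]
        exact List.mem_append_right _ hw

open Classical in
lemma NN_restrict (hR : 10 ≤ R) (hRM : R + 10 ≤ M)
    (hV : ∀ z ∈ V, R < ‖cx z‖ ∧ ‖cx z‖ < M) (hO : ∀ z ∈ O, M ≤ ‖cx z‖) (hVO : Disjoint V O)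
    {x0 b0 : Z2} {t0 : List Z2} (hx0 : x0 ∈ V) (hP0 : P V O x0 t0)
    (hb0 : b0 ∈ nb x0) (hb0R : ‖cx b0‖ ≤ R) (χ : ℝ) (k : ℕ) :
    ∀ (η : Finset Z2) (_ : ∀ z ∈ x0 :: t0, z ∈ η) (x : Fin k → Z2) (E : (Fin k → Z2) → ℂ),
      NN (qa χ) O k (V \ η) x E = MP q0 V O k x (fun ls => if BB V η ls then
        E (fun j => lst (ls j)) * ∏ j, phl (ph χ) (ler (ls j)) else 0) := by
  induction k with
  | zero =>
    intro η _ x E
    simp only [NN, MP]
    rw [if_pos]
    · simp only [Finset.univ_eq_empty, Finset.prod_empty, mul_one]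
      congr 1
      funext i
      exact i.elim0
    · exact ⟨fun j => j.elim0, fun i => i.elim0⟩
  | succ k ih =>
    intro η hη x E
    simp only [NN, MP]
    rw [PS_sdiff _ hVO, PS_qa]
    apply PS_congr
    intro t ht
    by_cases hA : Av V η (x 0 :: t)
    · rw [if_pos hA]
      have e1 : (V \ η) \ (ler (x 0 :: t)).toFinset = V \ (η ∪ (ler (x 0 :: t)).toFinset) := by
        ext z
        simp only [Finset.mem_sdiff, Finset.mem_union, not_or]
        tauto
      rw [e1, ih (η ∪ (ler (x 0 :: t)).toFinset) (fun z hz => Finset.mem_union_left _ (hη z hz)),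
        ← MP_mul_left]
      have e2 : phl (ph χ) (x 0 :: t) = phl (ph χ) (ler (x 0 :: t)) := by
        rw [phl_ph, phl_ph, ler_eq, windl_cons, windl_cons,
          wind_LEt hR hRM hV hO hVO hx0 hP0 hb0 hb0R hη t.length t (x 0) le_rfl ht hA]
      congr 1
      funext ls
      by_cases hB : BB V (η ∪ (ler (x 0 :: t)).toFinset) ls
      · rw [if_pos hB, if_pos ((BB_cons _ _).2 ⟨hA, hB⟩), Fin.prod_univ_succ]
        simp only [Fin.cons_zero, Fin.cons_succ]
        rw [e2]
        have e3 : (fun j => lst ((Fin.cons (x 0 :: t) ls : Fin (k + 1) → List Z2) j)) =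
            Fin.cons (lst (x 0 :: t)) (fun j => lst (ls j)) := by
          funext j
          refine Fin.cases ?_ (fun i => ?_) j <;> simp
        rw [e3]
        ring
      · rw [if_neg hB, if_neg (fun h => hB ((BB_cons _ _).1 h).2), mul_zero]
    · rw [if_neg hA, mul_zero]
      have e4 : (fun ls : Fin k → List Z2 => if BB V η (Fin.cons (x 0 :: t) ls : Fin (k + 1) → List Z2) then
          E (fun j => lst ((Fin.cons (x 0 :: t) ls : Fin (k + 1) → List Z2) j)) *
            ∏ j, phl (ph χ) (ler ((Fin.cons (x 0 :: t) ls : Fin (k + 1) → List Z2) j)) else 0) =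
          fun ls => (0 : ℂ) * 0 := by
        funext ls
        rw [if_neg (fun h => hA ((BB_cons _ _).1 h).1), mul_zero]
      rw [e4, MP_mul_left, zero_mul]

open Classical in
theorem NN_full (hR : 10 ≤ R) (hRM : R + 10 ≤ M)
    (hV : ∀ z ∈ V, R < ‖cx z‖ ∧ ‖cx z‖ < M) (hO : ∀ z ∈ O, M ≤ ‖cx z‖) (hVO : Disjoint V O)
    (χ : ℝ) (k : ℕ) (x : Fin (k + 1) → Z2) (hx : x 0 ∈ V) {b0 : Z2}
    (hb0 : b0 ∈ nb (x 0)) (hb0R : ‖cx b0‖ ≤ R) (E : (Fin (k + 1) → Z2) → ℂ) (C : ℝ)
    (hE : ∀ y, ‖E y‖ ≤ C) :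
      NN (qa χ) O (k + 1) V x E = (dl q0 V / dl (qa χ) V) *
        MP q0 V O (k + 1) x (fun ls => if BB V ∅ ls then
          E (fun j => lst (ls j)) * ∏ j, phl (ph χ) (ler (ls j)) else 0) := by
  set Ψ : List Z2 → ℂ := fun ξ => NN (qa χ) O k (V \ ξ.toFinset) (Fin.tail x)
    (fun y => E (Fin.cons (lst ξ) y)) with hΨ
  have h1 : NN (qa χ) O (k + 1) V x E = PS (qa χ) V O (x 0) (fun l => Ψ (ler l)) := by
    simp only [NN]
    apply PS_congr
    intro t _
    simp only [hΨ]
    rw [lst_ler, lst_cons]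
  have h2 := twist_change hR hRM hV hO hVO hx hb0 hb0R χ Ψ C (fun ξ =>
    norm_NN_le (GW_qa χ) k _ (hVO.mono_left Finset.sdiff_subset) _ _ C (fun y => hE _))
  rw [h1, h2]
  congr 1
  simp only [MP]
  apply PS_congr
  intro t ht
  have e1 : Ψ (ler (x 0 :: t)) = MP q0 V O k (Fin.tail x) (fun ls =>
      if BB V (ler (x 0 :: t)).toFinset ls then
        (fun y => E (Fin.cons (lst (ler (x 0 :: t))) y)) (fun j => lst (ls j)) *
          ∏ j, phl (ph χ) (ler (ls j)) else 0) := by
    simp only [hΨ]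
    rw [ler_eq]
    apply NN_restrict hR hRM hV hO hVO hx (P_LE ht) hb0 hb0R
    intro z hz
    rw [List.mem_toFinset]
    exact hz
  rw [e1, mul_comm, ← MP_mul_left]
  congr 1
  funext ls
  have hA : Av V ∅ (x 0 :: t) := fun v _ _ => by simp
  by_cases hB : BB V (ler (x 0 :: t)).toFinset ls
  · have hB' : BB V ∅ (Fin.cons (x 0 :: t) ls : Fin (k + 1) → List Z2) := by
      rw [BB_cons]
      refine ⟨hA, ?_⟩
      rw [Finset.empty_union]
      exact hB
    rw [if_pos hB, if_pos hB', Fin.prod_univ_succ]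
    simp only [Fin.cons_zero, Fin.cons_succ]
    have e3 : (fun j => lst ((Fin.cons (x 0 :: t) ls : Fin (k + 1) → List Z2) j)) =
        Fin.cons (lst (ler (x 0 :: t))) (fun j => lst (ls j)) := by
      funext j
      refine Fin.cases ?_ (fun i => ?_) j
      · simp [lst_ler]
      · simp
    rw [e3]
    ring
  · rw [if_neg hB, if_neg, mul_zero]
    rw [BB_cons, Finset.empty_union]
    exact fun h => hB h.2

end data

end Pool.Agent.H96.LE
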