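import Pool.Agent.H96.LE.Ident

/-!
# The key identity, second part
-/

namespace Pool.Agent.H96.LE

open Finset Complex MeasureTheory

/-- angle on the double cover -/
noncomputable def an (θ : ℝ) : T1 := ((θ / (4 * Real.pi) : ℝ) : T1)

lemma Ss_an (θ θ' : ℝ) : Ss (an θ - an θ') = Real.sin ((θ - θ') / 2) := by
  unfold an
  rw [← AddCircle.coe_sub, Ss_coe]
  congr 1
  have := Real.pi_ne_zero
  field_simp
  ring

lemma an_add (θ : ℝ) (m : ℤ) : an (θ + 2 * Real.pi * m) = an θ + (((m : ℝ) / 2 : ℝ) : T1) := by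
  unfold an
  rw [← AddCircle.coe_add]
  congr 1
  have := Real.pi_ne_zero
  field_simp
  ring

/-- twist of the problem with `k` paths -/
noncomputable def chi (k : ℕ) : ℝ := if k % 2 = 0 then 1 / 2 else 0

lemma chi_phase (k : ℕ) (hk : 1 ≤ k) (m : ℤ) :
    exp ((chi k * (2 * Real.pi * m) : ℝ) * I) = ((-1 : ℂ) ^ m) ^ ((k : ℤ) - 1) := by
  unfold chi
  split_ifs with h
  · have h1 : ((1 / 2 * (2 * Real.pi * m) : ℝ) : ℂ) * I = (m : ℂ) * (Real.pi * I) := by
      push_cast; ring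
    rw [h1, Complex.exp_int_mul, Complex.exp_pi_mul_I]
    obtain ⟨j, hj⟩ : ∃ j : ℤ, (k : ℤ) - 1 = 2 * j + 1 := ⟨((k : ℤ) - 2) / 2, by omega⟩
    rw [hj]
    rcases negone_zpow m with h2 | h2 <;> rw [h2]
    · simp
    · rw [zpow_add₀ (by norm_num), zpow_mul]
      norm_num
  · rw [zero_mul]
    simp only [ofReal_zero, zero_mul, Complex.exp_zero]
    obtain ⟨j, hj⟩ : ∃ j : ℤ, (k : ℤ) - 1 = 2 * j := ⟨((k : ℤ) - 1) / 2, by omega⟩
    rw [hj]
    rcases negone_zpow m with h2 | h2 <;> rw [h2]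
    · simp
    · rw [zpow_mul]; norm_num

/-- the boundary functional -/
noncomputable def Ef (χ : ℝ) {k : ℕ} (y : Fin k → Z2) : ℂ :=
  (eps (fun j => an (arg (cx (y j)))) : ℂ) * ∏ j, exp ((-(χ * arg (cx (y j))) : ℝ) * I)

lemma Anti_Ef (χ : ℝ) (k : ℕ) : Anti (Ef χ (k := k)) := by
  intro σ y
  unfold Ef
  have h1 : eps (fun j => an (arg (cx ((y ∘ σ) j)))) =
      ((Equiv.Perm.sign σ : ℤ) : ℝ) * eps (fun j => an (arg (cx (y j)))) :=
    eps_perm (fun j => an (arg (cx (y j)))) σ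
  rw [h1]
  have h2 : ∏ j, exp ((-(χ * arg (cx ((y ∘ σ) j))) : ℝ) * I) = ∏ j, exp ((-(χ * arg (cx (y j))) : ℝ) * I) :=
    Equiv.prod_comp σ (fun j => exp ((-(χ * arg (cx (y j))) : ℝ) * I))
  rw [h2]
  push_cast
  ring

lemma norm_Ef (χ : ℝ) {k : ℕ} (y : Fin k → Z2) : ‖Ef χ y‖ ≤ 1 := by
  unfold Ef
  rw [norm_mul, norm_prod]
  simp only [norm_exp_ofReal_mul_I, Finset.prod_const_one, mul_one]
  rw [Complex.norm_real]
  exact abs_eps_le _

lemma Ef_phase {k : ℕ} (hk : 1 ≤ k) (y : Fin k → Z2) (Θ : Fin k → ℝ)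
    (h : ∀ j, ∃ m : ℤ, Θ j = arg (cx (y j)) + 2 * Real.pi * m) :
    Ef (chi k) y * ∏ j, exp ((chi k * Θ j : ℝ) * I) = (eps (fun j => an (Θ j)) : ℂ) := by
  choose m hm using h
  have h1 : (fun j => an (Θ j)) = fun j => an (arg (cx (y j))) + (((m j : ℝ) / 2 : ℝ) : T1) := by
    funext j
    rw [hm j, an_add]
  rw [h1, eps_shift]
  unfold Ef
  rw [mul_assoc, ← Finset.prod_mul_distrib, mul_comm]
  congr 1
  apply Finset.prod_congr rfl
  intro j _
  rw [← chi_phase k hk, ← Complex.exp_add, hm j]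
  congr 1
  push_cast
  ring

lemma exists_int_arg {z : ℂ} (hz : z ≠ 0) {β : ℝ} (h : z = ‖z‖ * exp (β * I)) :
    ∃ m : ℤ, β = arg z + 2 * Real.pi * m := by
  have h1 : exp (β * I) = exp (arg z * I) := by
    have h2 := Complex.norm_mul_exp_arg_mul_I z
    have h3 : (‖z‖ : ℂ) ≠ 0 := by exact_mod_cast (norm_pos_iff.2 hz).ne'
    apply mul_left_cancel₀ h3
    rw [← h, h2]
  rw [Complex.exp_eq_exp_iff_exists_int] at h1
  obtain ⟨m, hm⟩ := h1
  refine ⟨m, ?_⟩
  have h4 : (β : ℂ) * I = ((arg z + 2 * Real.pi * m : ℝ) : ℂ) * I := by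
    rw [hm]; push_cast; ring
  have h5 := mul_right_cancel₀ Complex.I_ne_zero h4
  exact_mod_cast h5

lemma polar_step {z w : ℂ} (hz : z ≠ 0) {β : ℝ} (h : z = ‖z‖ * exp (β * I)) :
    w = ‖w‖ * exp ((β + arg (w / z) : ℝ) * I) := by
  have h1 := Complex.norm_mul_exp_arg_mul_I (w / z)
  have h3 : (‖z‖ : ℂ) ≠ 0 := by exact_mod_cast (norm_pos_iff.2 hz).ne'
  have h2 : w = z * (w / z) := by field_simp
  calc w = z * (w / z) := h2
    _ = (‖z‖ * exp (β * I)) * (‖w / z‖ * exp (arg (w / z) * I)) := by rw [← h, h1]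
    _ = ‖w‖ * exp ((β + arg (w / z) : ℝ) * I) := by
        rw [norm_div]
        have : ((β + arg (w / z) : ℝ) : ℂ) * I = β * I + arg (w / z) * I := by push_cast; ring
        rw [this, Complex.exp_add]
        push_cast
        field_simp

lemma wind_arg {D O : Finset Z2} (h0 : ∀ z ∈ D, cx z ≠ 0) (h0' : ∀ z ∈ O, cx z ≠ 0) (t : List Z2) :
    ∀ (x : Z2) (β : ℝ), P D O x t → cx x = ‖cx x‖ * exp (β * I) →
      cx (en x t) = ‖cx (en x t)‖ * exp ((β + wind x t : ℝ) * I) ∧ cx (en x t) ≠ 0 := by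
  induction t with
  | nil =>
    intro x β h hβ
    simp only [en_nil, wind_nil, add_zero]
    exact ⟨hβ, h0' x h⟩
  | cons b t ih =>
    intro x β h hβ
    have h1 := ih b (β + arg (cx b / cx x)) h.2.2 (polar_step (h0 x h.1) hβ)
    simp only [en_cons, wind_cons]
    rw [← add_assoc]
    exact h1

section data

variable {R M : ℝ} {V O : Finset Z2}

open Classical in
theorem ident_main (hR : 10 ≤ R) (hRM : R + 10 ≤ M)
    (hV : ∀ z ∈ V, R < ‖cx z‖ ∧ ‖cx z‖ < M) (hO : ∀ z ∈ O, M ≤ ‖cx z‖) (hVO : Disjoint V O)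
    {k : ℕ} (hk : 1 ≤ k) (x : Fin k → Z2) (hx : ∀ j, x j ∈ V) (b : Fin k → Z2)
    (hb : ∀ j, b j ∈ nb (x j)) (hbR : ∀ j, ‖cx (b j)‖ ≤ R) (β' : Fin k → ℝ)
    (hβ' : ∀ j, cx (x j) = ‖cx (x j)‖ * exp (β' j * I)) :
    MP q0 V O k x (fun ls => (eps (fun j => an (β' j + windl (ls j))) : ℂ)) =
      (dl q0 V / dl (qa (chi k)) V) * MP q0 V O k x (fun ls => if BB V ∅ ls then
        (eps (fun j => an (β' j + windl (ler (ls j)))) : ℂ) else 0) := by
  have h0 : ∀ z ∈ V, cx z ≠ 0 := fun z hz h => by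
    have := (hV z hz).1; rw [h, norm_zero] at this; linarith
  have h0' : ∀ z ∈ O, cx z ≠ 0 := fun z hz h => by
    have := hO z hz; rw [h, norm_zero] at this; linarith
  set χ := chi k with hχ
  -- phases
  have hph : ∀ (j : Fin k) (l : List Z2), phl (ph χ) l * exp ((χ * β' j : ℝ) * I) =
      exp ((χ * (β' j + windl l) : ℝ) * I) := by
    intro j l
    rw [phl_ph, ← Complex.exp_add]
    congr 1
    push_cast
    ring
  have key1 : MP q0 V O k x (fun ls => (eps (fun j => an (β' j + windl (ls j))) : ℂ)) =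
      (∏ j, exp ((χ * β' j : ℝ) * I)) * MP (qa χ) V O k x (fun ls => Ef χ (fun j => lst (ls j))) := by
    rw [MP_qa, ← MP_mul_left]
    apply MP_congr
    intro ls hls
    have h1 : ∀ j, ∃ m : ℤ, β' j + windl (ls j) = arg (cx (lst (ls j))) + 2 * Real.pi * m := by
      intro j
      obtain ⟨t, ht, hl⟩ := hls j
      have h2 := wind_arg h0 h0' t (x j) (β' j) ht (hβ' j)
      rw [hl]
      exact exists_int_arg h2.2 h2.1
    rw [← Ef_phase hk _ _ h1, ← mul_assoc, ← Finset.prod_mul_distrib, mul_comm]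
    congr 1
    apply Finset.prod_congr rfl
    intro j _
    rw [← hph j (ls j)]
    ring
  obtain ⟨k', rfl⟩ : ∃ k', k = k' + 1 := ⟨k - 1, by omega⟩
  have key2 : MP (qa χ) V O (k' + 1) x (fun ls => Ef χ (fun j => lst (ls j))) =
      NN (qa χ) O (k' + 1) V x (Ef χ) := by
    rw [fomin (GW_qa χ) (k' + 1) V hVO x (Ef χ) 1 (norm_Ef χ) (Anti_Ef χ _),
      TT_MP (GW_qa χ) hVO]
  rw [key1, key2, NN_full hR hRM hV hO hVO χ k' x (hx 0) (hb 0) (hbR 0) (Ef χ) 1 (norm_Ef χ)]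
  rw [mul_left_comm, ← MP_mul_left]
  congr 1
  apply MP_congr
  intro ls hls
  by_cases hB : BB V ∅ ls
  · rw [if_pos hB, if_pos hB]
    have h1 : ∀ j, ∃ m : ℤ, β' j + windl (ler (ls j)) = arg (cx (lst (ls j))) + 2 * Real.pi * m := by
      intro j
      obtain ⟨t, ht, hl⟩ := hls j
      have h2 := wind_arg h0 h0' (LEt (x j) t) (x j) (β' j) (P_LE ht) (hβ' j)
      rw [hl, ler_eq, windl_cons, lst_cons, ← en_LEt]
      exact exists_int_arg h2.2 h2.1
    rw [← Ef_phase hk _ _ h1, mul_left_comm, ← Finset.prod_mul_distrib]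
    congr 1
    apply Finset.prod_congr rfl
    intro j _
    rw [← hph j (ler (ls j))]
    ring
  · rw [if_neg hB, if_neg hB, mul_zero]

lemma P_mem_or {D O : Finset Z2} (t : List Z2) : ∀ x, P D O x t → ∀ z ∈ x :: t, z ∈ D ∨ z = en x t := by
  induction t with
  | nil =>
    intro x _ z hz
    rw [List.mem_singleton] at hz
    exact Or.inr hz
  | cons b t ih =>
    intro x h z hz
    rcases List.mem_cons.1 hz with rfl | hz
    · exact Or.inl h.1
    · exact ih b h.2.2 z hz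

lemma sin_same {y1 y2 : ℝ} (m : ℤ) (h1 : Real.pi * m < y1) (h2 : y1 < Real.pi * m + Real.pi)
    (h3 : Real.pi * m < y2) (h4 : y2 < Real.pi * m + Real.pi) : 0 < Real.sin y1 * Real.sin y2 := by
  have e1 := Real.sin_sub_int_mul_pi y1 m
  have e2 := Real.sin_sub_int_mul_pi y2 m
  have p1 : 0 < Real.sin (y1 - m * Real.pi) :=
    Real.sin_pos_of_pos_of_lt_pi (by linarith) (by linarith)
  have p2 : 0 < Real.sin (y2 - m * Real.pi) :=
    Real.sin_pos_of_pos_of_lt_pi (by linarith) (by linarith)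
  have p3 := mul_pos p1 p2
  rw [e1, e2] at p3
  have p4 : ((-1 : ℝ) ^ m) * ((-1 : ℝ) ^ m) = 1 := by
    rcases Int.even_or_odd m with h | h <;> rw [h.neg_one_zpow] <;> norm_num
  have p5 : (-1 : ℝ) ^ m * Real.sin y1 * ((-1 : ℝ) ^ m * Real.sin y2) = Real.sin y1 * Real.sin y2 := by
    linear_combination (Real.sin y1 * Real.sin y2) * p4
  rwa [p5] at p3

lemma eps_eq_of_pos {k : ℕ} (x y : Fin k → T1)
    (h : ∀ i j, i < j → 0 < Ss (x j - x i) * Ss (y j - y i)) : eps x = eps y := by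
  have h1 : 0 < Dd x * Dd y := by
    unfold Dd
    rw [← Finset.prod_mul_distrib]
    apply Finset.prod_pos
    intro i _
    rw [← Finset.prod_mul_distrib]
    apply Finset.prod_pos
    intro j hj
    exact h i j (Finset.mem_Ioi.1 hj)
  unfold eps
  rcases lt_trichotomy (Dd x) 0 with hx | hx | hx
  · have hy : Dd y < 0 := by
      by_contra hc
      push Not at hc
      nlinarith
    rw [sign_neg hx, sign_neg hy]
  · rw [hx, zero_mul] at h1
    exact absurd h1 (lt_irrefl _)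
  · have hy : 0 < Dd y := by
      by_contra hc
      push Not at hc
      nlinarith
    rw [sign_pos hx, sign_pos hy]

lemma pair_sign (hR : 10 ≤ R) (hRM : R + 10 ≤ M)
    (hV : ∀ z ∈ V, R < ‖cx z‖ ∧ ‖cx z‖ < M) (hO : ∀ z ∈ O, M ≤ ‖cx z‖) (hVO : Disjoint V O)
    {x x' b b' : Z2} {t t' : List Z2} (hx : x ∈ V) (hx' : x' ∈ V) (hP : P V O x t)
    (hP' : P V O x' t') (hb : b ∈ nb x) (hb' : b' ∈ nb x') (hbR : ‖cx b‖ ≤ R)
    (hbR' : ‖cx b'‖ ≤ R) (hdis : ∀ z ∈ x :: t, z ∉ x' :: t') (hfar : 6 ≤ ‖cx b - cx b'‖)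
    (hfar2 : 4 ≤ ‖cx (en x t) - cx (en x' t')‖) {β β' : ℝ}
    (hβ : cx b = ‖cx b‖ * exp (β * I)) (hβ' : cx b' = ‖cx b'‖ * exp (β' * I)) :
    0 < Ss (an (β' + arg (cx x' / cx b') + wind x' t') - an (β + arg (cx x / cx b) + wind x t)) *
      Ss (an β' - an β) := by
  have hpi := Real.pi_pos
  have nb1 : R - 1 ≤ ‖cx b‖ := by
    have h1 := norm_nb hb
    have h2 := norm_sub_norm_le (cx x) (cx b)
    rw [norm_sub_rev] at h2
    have := (hV x hx).1
    linarith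
  have nb2 : R - 1 ≤ ‖cx b'‖ := by
    have h1 := norm_nb hb'
    have h2 := norm_sub_norm_le (cx x') (cx b')
    rw [norm_sub_rev] at h2
    have := (hV x' hx').1
    linarith
  -- shifts of the angle
  have hshift : ∀ (z : ℂ) (γ : ℝ) (m : ℤ), z = ‖z‖ * exp (γ * I) →
      z = ‖z‖ * exp ((γ + 2 * Real.pi * m : ℝ) * I) := by
    intro z γ m h
    have : ((γ + 2 * Real.pi * m : ℝ) : ℂ) * I = γ * I + m * (2 * Real.pi * I) := by
      push_cast; ring
    rw [this, Complex.exp_add, Complex.exp_int_mul_two_pi_mul_I, mul_one]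
    exact h
  have hne : ∀ m : ℤ, β' ≠ β + 2 * Real.pi * m := by
    intro m h
    have h1 := hshift _ β m hβ
    rw [← h] at h1
    have h2 : cx b - cx b' = ((‖cx b‖ - ‖cx b'‖ : ℝ) : ℂ) * exp (β' * I) := by
      conv_lhs => rw [h1, hβ']
      push_cast
      ring
    rw [h2, norm_mul, norm_exp_ofReal_mul_I, mul_one, Complex.norm_real, Real.norm_eq_abs] at hfar
    have h3 : |‖cx b‖ - ‖cx b'‖| ≤ 1 := by rw [abs_le]; constructor <;> linarith
    linarith
  set m : ℤ := ⌊(β' - β) / (2 * Real.pi)⌋ with hm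
  have f1 : (m : ℝ) ≤ (β' - β) / (2 * Real.pi) := Int.floor_le _
  have f2 : (β' - β) / (2 * Real.pi) < m + 1 := Int.lt_floor_add_one _
  rw [le_div_iff₀ (by positivity)] at f1
  rw [div_lt_iff₀ (by positivity)] at f2
  have g1 : β + 2 * Real.pi * m < β' := by
    rcases lt_or_eq_of_le (by linarith : β + 2 * Real.pi * m ≤ β') with h | h
    · exact h
    · exact absurd h.symm (hne m)
  have g2 : β' < β + 2 * Real.pi * ((m + 1 : ℤ) : ℝ) := by push_cast; linarith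
  have o1 := paths_order hR hRM hV hO hVO hx hx' hP hP' hb hb' hbR hbR' hdis hfar hfar2
    (hshift _ β m hβ) hβ' g1
  have o2 := paths_order hR hRM hV hO hVO hx' hx hP' hP hb' hb hbR' hbR
    (fun z hz hz' => hdis z hz' hz) (by rw [norm_sub_rev]; exact hfar)
    (by rw [norm_sub_rev]; exact hfar2) hβ' (hshift _ β (m + 1) hβ) g2
  rw [Ss_an, Ss_an]
  push_cast at o2 g2
  apply sin_same m <;> linarith

theorem order_eps (hR : 10 ≤ R) (hRM : R + 10 ≤ M)
    (hV : ∀ z ∈ V, R < ‖cx z‖ ∧ ‖cx z‖ < M) (hO : ∀ z ∈ O, M ≤ ‖cx z‖) (hVO : Disjoint V O)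
    {k : ℕ} (x : Fin k → Z2) (hx : ∀ j, x j ∈ V) (b : Fin k → Z2)
    (hb : ∀ j, b j ∈ nb (x j)) (hbR : ∀ j, ‖cx (b j)‖ ≤ R) (β : Fin k → ℝ)
    (hβ : ∀ j, cx (b j) = ‖cx (b j)‖ * exp (β j * I))
    (hfar : ∀ i j, i < j → 6 ≤ ‖cx (b i) - cx (b j)‖)
    (ls : Fin k → List Z2) (hls : Fam V O x ls) (hB : BB V ∅ ls)
    (hfar2 : ∀ i j, i < j → 4 ≤ ‖cx (lst (ls i)) - cx (lst (ls j))‖) :
    eps (fun j => an (β j + arg (cx (x j) / cx (b j)) + windl (ler (ls j)))) =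
      eps (fun j => an (β j)) := by
  apply eps_eq_of_pos
  intro i j hij
  obtain ⟨t, ht, hl⟩ := hls i
  obtain ⟨t', ht', hl'⟩ := hls j
  have hf2 := hfar2 i j hij
  rw [hl, hl', lst_cons, lst_cons] at hf2
  have hBij := hB.2 i j hij
  rw [hl, hl'] at hBij
  rw [hl, hl', ler_eq, ler_eq, windl_cons, windl_cons]
  apply pair_sign hR hRM hV hO hVO (hx i) (hx j) (P_LE ht) (P_LE ht') (hb i) (hb j) (hbR i) (hbR j) _
    (hfar i j hij) _ (hβ i) (hβ j)
  · intro z hz hz'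
    have hz1 : z ∈ ler (x i :: t) := by rw [ler_eq]; exact hz
    have hz2 : z ∈ x j :: t' := by
      apply ler_subset
      rw [ler_eq]; exact hz'
    have hzV : z ∉ V := fun h => hBij z hz2 h (List.mem_toFinset.2 hz1)
    have e1 := (P_mem_or _ _ (P_LE ht) z hz).resolve_left hzV
    have e2 := (P_mem_or _ _ (P_LE ht') z hz').resolve_left hzV
    rw [en_LEt] at e1 e2
    rw [← e1, ← e2, sub_self, norm_zero] at hf2
    linarith
  · rw [en_LEt, en_LEt]
    exact hf2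

end data

end Pool.Agent.H96.LE
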