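import Pool.Agent.H96.LE.Ident2

/-!
# The key identity in probabilistic form
-/

namespace Pool.Agent.H96.LE

open Finset Complex MeasureTheory

lemma ex_ae (D O : Finset Z2) (a : Z2) : ∀ᵐ l ∂(ex D O a), ∃ t, P D O a t ∧ l = a :: t := by
  rw [ae_iff, ex_apply, ENNReal.tsum_eq_zero]
  intro t
  by_cases h : P D O a t
  · have : (a :: t) ∉ {l | ¬ ∃ t, P D O a t ∧ l = a :: t} := by
      simp only [Set.mem_ofPred_eq, not_not]
      exact ⟨t, h, rfl⟩
    rw [Set.indicator_of_notMem this, mul_zero]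
  · unfold pm
    rw [if_neg h]
    simp

lemma fam_ae {D O : Finset Z2} (hDO : Disjoint D O) {k : ℕ} (x : Fin k → Z2)
    (hZ : ∀ j, 0 < ZZ D O (x j)) : ∀ᵐ ls ∂(Measure.pi (fun j => ex D O (x j))), Fam D O x ls := by
  have hp : ∀ j, IsProbabilityMeasure (ex D O (x j)) := fun j => isProb_ex hDO (hZ j)
  unfold Fam
  rw [ae_all_iff]
  intro j
  exact (Measure.quasiMeasurePreserving_eval (μ := fun j => ex D O (x j)) j).ae (ex_ae D O (x j))

lemma measurable_lists {k : ℕ} {β : Type*} [MeasurableSpace β] (f : (Fin k → List Z2) → β) :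
    Measurable f := measurable_of_countable f

lemma measurableSet_lists {k : ℕ} (s : Set (Fin k → List Z2)) : MeasurableSet s :=
  Set.to_countable s |>.measurableSet

section data

variable {R M : ℝ} {V O : Finset Z2}

/-- families with close end points -/
def NT (k : ℕ) (r : ℝ) : Set (Fin k → List Z2) :=
  {ls | ∃ i j, i < j ∧ ‖cx (lst (ls i)) - cx (lst (ls j))‖ ≤ r}

theorem ident_prob (hR : 10 ≤ R) (hRM : R + 10 ≤ M)
    (hV : ∀ z ∈ V, R < ‖cx z‖ ∧ ‖cx z‖ < M) (hO : ∀ z ∈ O, M ≤ ‖cx z‖) (hVO : Disjoint V O)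
    {k : ℕ} (hk : 1 ≤ k) (x : Fin k → Z2) (hx : ∀ j, x j ∈ V) (hZ : ∀ j, 0 < ZZ V O (x j))
    (b : Fin k → Z2) (hb : ∀ j, b j ∈ nb (x j)) (hbR : ∀ j, ‖cx (b j)‖ ≤ R) (β : Fin k → ℝ)
    (hβ : ∀ j, cx (b j) = ‖cx (b j)‖ * exp (β j * I)) (hb0 : ∀ j, cx (b j) ≠ 0)
    (hfar : ∀ i j, i < j → 6 ≤ ‖cx (b i) - cx (b j)‖) :
    ‖∫ ls, (eps (fun j => an (β j + arg (cx (x j) / cx (b j)) + windl (ls j))) : ℂ)
        ∂(Measure.pi (fun j => ex V O (x j))) -
      (dl q0 V / dl (qa (chi k)) V) * ((eps (fun j => an (β j)) : ℂ) *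
        (((Measure.pi (fun j => ex V O (x j))) {ls | BB V ∅ ls}).toReal : ℂ))‖ ≤
    2 * ‖dl q0 V / dl (qa (chi k)) V‖ *
      ((Measure.pi (fun j => ex V O (x j))) (NT k 4)).toReal := by
  classical
  have hp : ∀ j, IsProbabilityMeasure (ex V O (x j)) := fun j => isProb_ex hVO (hZ j)
  set μ := Measure.pi (fun j => ex V O (x j)) with hμ
  set d := dl q0 V / dl (qa (chi k)) V with hd
  set β' : Fin k → ℝ := fun j => β j + arg (cx (x j) / cx (b j)) with hβ'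
  have hβ'' : ∀ j, cx (x j) = ‖cx (x j)‖ * exp (β' j * I) := fun j => polar_step (hb0 j) (hβ j)
  have h1 := ident_main hR hRM hV hO hVO hk x hx b hb hbR β' hβ''
  have hZ' : (∏ j, (ZZ V O (x j) : ℂ)) ≠ 0 := by
    rw [Finset.prod_ne_zero_iff]
    intro j _
    exact_mod_cast (hZ j).ne'
  have bd : ∀ x : Fin k → T1, ‖(eps x : ℂ)‖ ≤ 1 := fun x => by
    rw [Complex.norm_real]; exact abs_eps_le x
  set F1 : (Fin k → List Z2) → ℂ := fun ls => if BB V ∅ ls then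
        (eps (fun j => an (β' j + windl (ler (ls j)))) : ℂ) else 0 with hF1
  have bF1 : ∀ ls, ‖F1 ls‖ ≤ 1 := by
    intro ls
    simp only [hF1]
    split_ifs
    · exact bd _
    · simp
  rw [MP_integral hVO k x hZ _ 1 (fun ls => bd _), MP_integral hVO k x hZ F1 1 bF1,
    mul_left_comm] at h1
  have h2 := mul_left_cancel₀ hZ' h1
  rw [h2]
  set F2 : (Fin k → List Z2) → ℂ := fun ls => if BB V ∅ ls then (eps (fun j => an (β j)) : ℂ) else 0
    with hF2
  have bF2 : ∀ ls, ‖F2 ls‖ ≤ 1 := by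
    intro ls
    simp only [hF2]
    split_ifs
    · exact bd _
    · simp
  have h3 : (eps (fun j => an (β j)) : ℂ) * ((μ {ls | BB V ∅ ls}).toReal : ℂ) = ∫ ls, F2 ls ∂μ := by
    have : F2 = Set.indicator {ls | BB V ∅ ls} (fun _ => (eps (fun j => an (β j)) : ℂ)) := by
      funext ls
      simp only [hF2, Set.indicator_apply, Set.mem_ofPred_eq]
    rw [this, integral_indicator_const _ (measurableSet_lists _)]
    simp only [Measure.real, Complex.real_smul]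
    ring
  rw [h3, ← mul_sub, norm_mul]
  have hi1 : Integrable F1 μ := Integrable.of_bound (measurable_lists F1).aestronglyMeasurable 1
    (Filter.Eventually.of_forall bF1)
  have hi2 : Integrable F2 μ := Integrable.of_bound (measurable_lists F2).aestronglyMeasurable 1
    (Filter.Eventually.of_forall bF2)
  have h4 : ‖∫ ls, F1 ls ∂μ - ∫ ls, F2 ls ∂μ‖ ≤ 2 * (μ (NT k 4)).toReal := by
    rw [← integral_sub hi1 hi2]
    have h5 : ∀ᵐ ls ∂μ, ‖F1 ls - F2 ls‖ ≤ Set.indicator (NT k 4) (fun _ => (2 : ℝ)) ls := by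
      filter_upwards [fam_ae hVO x hZ] with ls hls
      by_cases hn : ls ∈ NT k 4
      · rw [Set.indicator_of_mem hn]
        calc ‖F1 ls - F2 ls‖ ≤ ‖F1 ls‖ + ‖F2 ls‖ := norm_sub_le _ _
          _ ≤ 2 := by linarith [bF1 ls, bF2 ls]
      · rw [Set.indicator_of_notMem hn]
        have h6 : F1 ls = F2 ls := by
          simp only [hF1, hF2]
          by_cases hB : BB V ∅ ls
          · rw [if_pos hB, if_pos hB]
            have h7 := order_eps hR hRM hV hO hVO x hx b hb hbR β hβ hfar ls hls hB (fun i j hij => by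
              by_contra hc
              push Not at hc
              exact hn ⟨i, j, hij, hc.le⟩)
            rw [h7]
          · rw [if_neg hB, if_neg hB]
        rw [h6, sub_self, norm_zero]
    have h8 := norm_integral_le_of_norm_le
      ((integrable_const (2 : ℝ)).indicator (measurableSet_lists (NT k 4))) h5
    rw [integral_indicator_const _ (measurableSet_lists _)] at h8
    simp only [Measure.real, smul_eq_mul] at h8
    linarith
  calc ‖d‖ * ‖∫ ls, F1 ls ∂μ - ∫ ls, F2 ls ∂μ‖ ≤ ‖d‖ * (2 * (μ (NT k 4)).toReal) :=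
        mul_le_mul_of_nonneg_left h4 (norm_nonneg _)
    _ = 2 * ‖d‖ * (μ (NT k 4)).toReal := by ring

/-- close end points have close angles -/
lemma close_angles {y y' : ℂ} (hM : 0 < M) (hy : M ≤ ‖y‖) {Θ Θ' : ℝ}
    (h : y = ‖y‖ * exp (Θ * I)) (h' : y' = ‖y'‖ * exp (Θ' * I)) :
    |Ss (an Θ' - an Θ)| ≤ ‖y - y'‖ / M := by
  rw [Ss_an]
  have e1 : ‖exp (Θ' * I) - exp (Θ * I)‖ = 2 * |Real.sin ((Θ' - Θ) / 2)| := by
    have h1 : exp (Θ' * I) - exp (Θ * I) = exp (((Θ' + Θ) / 2 : ℝ) * I) *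
        (2 * I * (Real.sin ((Θ' - Θ) / 2) : ℂ)) := by
      have h2 : exp (Θ' * I) = exp (((Θ' + Θ) / 2 : ℝ) * I) * exp (((Θ' - Θ) / 2 : ℝ) * I) := by
        rw [← Complex.exp_add]; congr 1; push_cast; ring
      have h3 : exp (Θ * I) = exp (((Θ' + Θ) / 2 : ℝ) * I) * exp (-(((Θ' - Θ) / 2 : ℝ) * I)) := by
        rw [← Complex.exp_add]; congr 1; push_cast; ring
      rw [h2, h3, ← mul_sub]
      congr 1
      rw [Complex.ofReal_sin, Complex.sin]
      have h4 : -(((((Θ' - Θ) / 2 : ℝ)) : ℂ) * I) = -((((Θ' - Θ) / 2 : ℝ)) : ℂ) * I := by ring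
      rw [h4]
      linear_combination (exp (((((Θ' - Θ) / 2 : ℝ)) : ℂ) * I) - exp (-((((Θ' - Θ) / 2 : ℝ)) : ℂ) * I)) * I_mul_I
    rw [h1, norm_mul, norm_exp_ofReal_mul_I, one_mul, norm_mul, norm_mul, norm_I, Complex.norm_real,
      Real.norm_eq_abs]
    norm_num
  have hy0 : 0 < ‖y‖ := lt_of_lt_of_le hM hy
  have e2 : (‖y‖ : ℂ) * (exp (Θ' * I) - exp (Θ * I)) = (y' - y) + ((‖y‖ - ‖y'‖ : ℝ) : ℂ) * exp (Θ' * I) := by
    conv_rhs => rw [h, h']
    rw [norm_mul, norm_mul, norm_exp_ofReal_mul_I, norm_exp_ofReal_mul_I]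
    simp only [Complex.norm_real, norm_norm, mul_one]
    push_cast
    ring
  have e3 : ‖y‖ * (2 * |Real.sin ((Θ' - Θ) / 2)|) ≤ 2 * ‖y - y'‖ := by
    rw [← e1]
    have : ‖(‖y‖ : ℂ) * (exp (Θ' * I) - exp (Θ * I))‖ = ‖y‖ * ‖exp (Θ' * I) - exp (Θ * I)‖ := by
      rw [norm_mul, Complex.norm_real, norm_norm]
    rw [← this, e2]
    refine (norm_add_le _ _).trans ?_
    rw [norm_mul, norm_exp_ofReal_mul_I, mul_one, Complex.norm_real, Real.norm_eq_abs, norm_sub_rev]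
    have := abs_norm_sub_norm_le y y'
    linarith
  have e4 : |Real.sin ((Θ' - Θ) / 2)| ≤ ‖y - y'‖ / ‖y‖ := by
    rw [le_div_iff₀ hy0]
    linarith
  exact e4.trans (div_le_div_of_nonneg_left (norm_nonneg _) hM hy)

lemma NT_sub (hM : 0 < M) (h0 : ∀ z ∈ V, cx z ≠ 0) (hO : ∀ z ∈ O, M ≤ ‖cx z‖) {k : ℕ} (x : Fin k → Z2)
    (β' : Fin k → ℝ) (hβ' : ∀ j, cx (x j) = ‖cx (x j)‖ * exp (β' j * I)) (r : ℝ)
    (ls : Fin k → List Z2) (hls : Fam V O x ls) (h : ls ∈ NT k (r * M)) :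
    (fun j => an (β' j + windl (ls j))) ∈ {y : Fin k → T1 | ∃ a b, a < b ∧ |Ss (y b - y a)| ≤ r} := by
  have h0' : ∀ z ∈ O, cx z ≠ 0 := fun z hz h => by
    have := hO z hz; rw [h, norm_zero] at this; linarith
  obtain ⟨i, j, hij, hd⟩ := h
  refine ⟨i, j, hij, ?_⟩
  obtain ⟨t, ht, hl⟩ := hls i
  obtain ⟨t', ht', hl'⟩ := hls j
  have h1 := wind_arg h0 h0' t (x i) (β' i) ht (hβ' i)
  have h2 := wind_arg h0 h0' t' (x j) (β' j) ht' (hβ' j)
  have h3 := close_angles hM (hO _ (P_en ht)) h1.1 h2.1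
  rw [hl, hl', lst_cons, lst_cons] at hd
  simp only
  rw [hl, hl', windl_cons, windl_cons]
  refine h3.trans ?_
  rw [div_le_iff₀ hM]
  exact hd

end data

end Pool.Agent.H96.LE
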