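import Pool.Agent.H96.LE.Path

/-!
# Chronological loop erasure and the last visit decomposition
-/

namespace Pool.Agent.H96.LE

open Finset
open scoped ENNReal

/-- Chronological loop erasure: the vertices are read one after the other; when a vertex is
read that is already on the current self-avoiding path, the loop closed at that moment is
erased (the current path is cut back to that vertex), otherwise the vertex is appended. -/
def ler (l : List Z2) : List Z2 := l.foldl (fun p v => p.takeWhile (fun u => decide (u ≠ v)) ++ [v]) []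

/-- part of `t` after the last visit to `a` -/
def aft (a : Z2) (t : List Z2) : List Z2 := t.rtakeWhile (fun u => decide (u ≠ a))

/-- part of `t` up to the last visit to `a` -/
def bef (a : Z2) (t : List Z2) : List Z2 := t.rdropWhile (fun u => decide (u ≠ a))

lemma bef_append_aft (a : Z2) (t : List Z2) : bef a t ++ aft a t = t :=
  List.rdropWhile_append_rtakeWhile

lemma not_mem_aft (a : Z2) (t : List Z2) : a ∉ aft a t := by
  intro h
  have := List.mem_rtakeWhile_imp h
  simp at this

lemma en_bef (a : Z2) (t : List Z2) : en a (bef a t) = a := by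
  unfold bef
  induction t using List.reverseRecOn with
  | nil => simp
  | append_singleton l v ih =>
    rw [List.rdropWhile_concat]
    split_ifs with h
    · exact ih
    · simp only [ne_eq, decide_not, Bool.not_eq_eq_eq_not, Bool.not_true, decide_eq_false_iff_not,
        not_not] at h
      rw [en_append]
      simp [h]

lemma aft_append {a : Z2} {s t : List Z2} (hs : en a s = a) (ht : a ∉ t) : aft a (s ++ t) = t := by
  unfold aft
  induction t using List.reverseRecOn with
  | nil =>
    rw [List.append_nil, List.rtakeWhile_eq_nil_iff]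
    intro hl
    induction s using List.reverseRecOn with
    | nil => exact absurd rfl hl
    | append_singleton l v _ =>
      rw [en_append] at hs
      simp only [en_cons, en_nil] at hs
      simp [hs]
  | append_singleton l v ih =>
    have hv : v ≠ a := by
      intro h
      apply ht
      simp [h]
    rw [← List.append_assoc, List.rtakeWhile_concat_pos _ _ _ (by simp [hv]), ih]
    intro h
    exact ht (by simp [h])

lemma bef_append {a : Z2} {s t : List Z2} (hs : en a s = a) (ht : a ∉ t) : bef a (s ++ t) = s := by
  have h1 := bef_append_aft a (s ++ t)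
  rw [aft_append hs ht] at h1
  exact List.append_cancel_right h1

lemma foldl_aux (a : Z2) (l : List Z2) :
    l.foldl (fun p v => p.takeWhile (fun u => decide (u ≠ v)) ++ [v]) [a] = a :: ler (aft a l) := by
  induction l using List.reverseRecOn with
  | nil => simp [ler, aft]
  | append_singleton l v ih =>
    rw [List.foldl_append]
    simp only [List.foldl_cons, List.foldl_nil]
    rw [ih]
    by_cases h : v = a
    · subst h
      unfold aft
      rw [List.rtakeWhile_concat_neg _ _ _ (by simp)]
      simp [ler]
    · unfold aft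
      rw [List.rtakeWhile_concat_pos _ _ _ (by simp [h])]
      have h2 : a ≠ v := fun e => h e.symm
      rw [List.takeWhile_cons_of_pos (by simp [h2])]
      simp [ler, List.foldl_append]

lemma ler_nil : ler [] = [] := rfl

lemma ler_cons (a : Z2) (l : List Z2) : ler (a :: l) = a :: ler (aft a l) := by
  rw [← foldl_aux]
  simp [ler]

lemma ler_concat (l : List Z2) (v : Z2) :
    ler (l ++ [v]) = (ler l).takeWhile (fun u => decide (u ≠ v)) ++ [v] := by
  simp [ler, List.foldl_append]

lemma ler_subset (l : List Z2) : ∀ v ∈ ler l, v ∈ l := by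
  induction l using List.reverseRecOn with
  | nil => simp [ler_nil]
  | append_singleton l v ih =>
    intro u hu
    rw [ler_concat, List.mem_append] at hu
    rw [List.mem_append]
    rcases hu with hu | hu
    · exact Or.inl (ih u (List.takeWhile_subset _ hu))
    · exact Or.inr hu

/-- tail of the loop erasure of `a :: t` -/
def LEt (a : Z2) (t : List Z2) : List Z2 := ler (aft a t)

lemma ler_eq (a : Z2) (t : List Z2) : ler (a :: t) = a :: LEt a t := ler_cons a t

lemma getLast?_eq (a : Z2) (t : List Z2) : (a :: t).getLast? = some (en a t) := by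
  induction t generalizing a with
  | nil => simp
  | cons b t ih =>
    rw [List.getLast?_cons_cons, ih, en_cons]

lemma getLast?_ler (l : List Z2) : (ler l).getLast? = l.getLast? := by
  induction l using List.reverseRecOn with
  | nil => simp [ler_nil]
  | append_singleton l v _ => rw [ler_concat]; simp

lemma en_LEt (a : Z2) (t : List Z2) : en a (LEt a t) = en a t := by
  have h := getLast?_ler (a :: t)
  rw [ler_eq, getLast?_eq, getLast?_eq] at h
  exact Option.some_injective _ h

/-- `a :: s` is a path all of whose vertices but possibly the last lie in `D` -/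
def W (D : Finset Z2) : Z2 → List Z2 → Prop
  | _, [] => True
  | a, b :: t => a ∈ D ∧ b ∈ nb a ∧ W D b t

@[simp] lemma W_nil (D : Finset Z2) (a : Z2) : W D a [] ↔ True := Iff.rfl
@[simp] lemma W_cons (D : Finset Z2) (a b : Z2) (t : List Z2) :
    W D a (b :: t) ↔ a ∈ D ∧ b ∈ nb a ∧ W D b t := Iff.rfl

lemma P_append {D O : Finset Z2} (a : Z2) (s t : List Z2) :
    P D O a (s ++ t) ↔ W D a s ∧ P D O (en a s) t := by
  induction s generalizing a with
  | nil => simp
  | cons b s ih => simp [ih, and_assoc]

lemma P_erase {D O : Finset Z2} {a : Z2} (haO : a ∉ O) (b : Z2) (t : List Z2) :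
    P (D.erase a) O b t ↔ P D O b t ∧ a ∉ b :: t := by
  induction t generalizing b with
  | nil =>
    simp only [P_nil, List.mem_singleton]
    constructor
    · intro h
      exact ⟨h, fun e => haO (e ▸ h)⟩
    · exact fun h => h.1
  | cons c t ih =>
    simp only [P_cons, ih, Finset.mem_erase, List.mem_cons, not_or]
    constructor
    · rintro ⟨⟨h1, h2⟩, h3, h4, h5, h6⟩
      exact ⟨⟨h2, h3, h4⟩, fun e => h1 e.symm, h5, h6⟩
    · rintro ⟨⟨h2, h3, h4⟩, h1, h5, h6⟩
      exact ⟨⟨fun e => h1 e.symm, h2⟩, h3, h4, h5, h6⟩

/-- the loop erasure of a path is a path -/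
lemma P_LEt {D O : Finset Z2} (n : ℕ) : ∀ (t : List Z2) (a : Z2), t.length ≤ n → P D O a t →
    P D O a (LEt a t) := by
  induction n with
  | zero =>
    intro t a ht h
    have : t = [] := List.length_eq_zero_iff.1 (Nat.le_zero.1 ht)
    subst this
    simpa [LEt, aft, ler_nil] using h
  | succ n ih =>
    intro t a ht h
    have h1 := bef_append_aft a t
    rw [← h1, P_append, en_bef] at h
    unfold LEt
    cases hA : aft a t with
    | nil =>
      rw [hA] at h
      simpa [ler_nil] using h.2
    | cons b t' =>
      rw [hA] at h h1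
      rw [ler_eq]
      have h2 := h.2
      rw [P_cons] at h2 ⊢
      refine ⟨h2.1, h2.2.1, ih t' b ?_ h2.2.2⟩
      have : (bef a t).length + (t'.length + 1) = t.length := by
        rw [← List.length_cons, ← List.length_append, h1]
      omega

lemma P_LE {D O : Finset Z2} {t : List Z2} {a : Z2} (h : P D O a t) : P D O a (LEt a t) :=
  P_LEt t.length t a le_rfl h

section loops

open Classical in
/-- mass of closed loops -/
noncomputable def lmass (D : Finset Z2) (a z : Z2) (s : List Z2) : ℝ :=
  if W D z s ∧ en z s = a then (1 / 4 : ℝ) ^ s.length else 0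

lemma lmass_nonneg (D : Finset Z2) (a z : Z2) (s : List Z2) : 0 ≤ lmass D a z s := by
  unfold lmass; split_ifs <;> positivity

/-- a bound for the coordinates -/
lemma exists_nsq_bound (D : Finset Z2) : ∃ K : ℝ, 0 ≤ K ∧ (∀ z ∈ D, nsq z ≤ K) ∧
    ∀ z ∈ D, ∀ w ∈ nb z, nsq w ≤ K := by
  refine ⟨∑ z ∈ D, (nsq z + ∑ w ∈ nb z, nsq w), ?_, ?_, ?_⟩
  · exact Finset.sum_nonneg (fun z _ => add_nonneg (nsq_nonneg z)
      (Finset.sum_nonneg (fun w _ => nsq_nonneg w)))
  · intro z hz
    calc nsq z ≤ nsq z + ∑ w ∈ nb z, nsq w := by
          have := Finset.sum_nonneg (fun w (_ : w ∈ nb z) => nsq_nonneg w)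
          linarith
      _ ≤ _ := Finset.single_le_sum (f := fun z => nsq z + ∑ w ∈ nb z, nsq w)
          (fun z _ => add_nonneg (nsq_nonneg z) (Finset.sum_nonneg (fun w _ => nsq_nonneg w))) hz
  · intro z hz w hw
    calc nsq w ≤ ∑ w ∈ nb z, nsq w := Finset.single_le_sum (f := nsq)
          (fun w _ => nsq_nonneg w) hw
      _ ≤ nsq z + ∑ w ∈ nb z, nsq w := by linarith [nsq_nonneg z]
      _ ≤ _ := Finset.single_le_sum (f := fun z => nsq z + ∑ w ∈ nb z, nsq w)
          (fun z _ => add_nonneg (nsq_nonneg z) (Finset.sum_nonneg (fun w _ => nsq_nonneg w))) hz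

lemma sum_trunc_loop (D : Finset Z2) (a : Z2) (ha : a ∈ D) (K : ℝ)
    (hK1 : ∀ z ∈ D, nsq z ≤ K) (hK2 : ∀ z ∈ D, ∀ w ∈ nb z, nsq w ≤ K) (N : ℕ) :
    ∀ z, ∑' s, (if s.length < N then ENNReal.ofReal (lmass D a z s) else 0)
      ≤ ENNReal.ofReal (if nsq z ≤ K then K - nsq z else 0) := by
  induction N with
  | zero => intro z; simp
  | succ N ih =>
    intro z
    rw [tsum_list_ennreal _ (nb z)]
    · by_cases hzD : z ∈ D
      · have h0 : lmass D a z [] ≤ 1 := by
          unfold lmass
          split_ifs <;> simp
        simp only [List.length_nil, Nat.succ_pos, if_true]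
        have hb : ∀ b ∈ nb z, ∑' t : List Z2, (if (b :: t).length < N + 1 then
            ENNReal.ofReal (lmass D a z (b :: t)) else 0) ≤
            ENNReal.ofReal (1 / 4 * (K - nsq b)) := by
          intro b hb
          have : ∀ t : List Z2, (if (b :: t).length < N + 1 then
            ENNReal.ofReal (lmass D a z (b :: t)) else 0) =
            ENNReal.ofReal (1 / 4 : ℝ) *
              (if t.length < N then ENNReal.ofReal (lmass D a b t) else 0) := by
            intro t
            simp only [List.length_cons, Nat.add_lt_add_iff_right]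
            split_ifs with h1
            · have : lmass D a z (b :: t) = 1 / 4 * lmass D a b t := by
                have hP : (W D z (b :: t) ∧ en z (b :: t) = a) ↔ (W D b t ∧ en b t = a) := by
                  simp [hzD, hb]
                unfold lmass
                by_cases h2 : W D b t ∧ en b t = a
                · rw [if_pos h2, if_pos (hP.2 h2), List.length_cons, pow_succ']
                · rw [if_neg h2, if_neg (fun h3 => h2 (hP.1 h3)), mul_zero]
              rw [this, ENNReal.ofReal_mul (by norm_num)]
            · simp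
          simp_rw [this]
          rw [ENNReal.tsum_mul_left, ENNReal.ofReal_mul (by norm_num)]
          gcongr
          refine (ih b).trans ?_
          rw [if_pos (hK2 z hzD b hb)]
        have hbs := Finset.sum_le_sum hb
        rw [← ENNReal.ofReal_sum_of_nonneg (fun b hb => by
          have := hK2 z hzD b hb
          linarith)] at hbs
        have h1 : ∑ b ∈ nb z, 1 / 4 * (K - nsq b) = K - nsq z - 1 := by
          have h2 := av_nsq z
          unfold av at h2
          have h3 : ∑ b ∈ nb z, 1 / 4 * (K - nsq b) = K - (∑ b ∈ nb z, nsq b) / 4 := by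
            rw [← Finset.mul_sum, Finset.sum_sub_distrib, Finset.sum_const, card_nb]
            simp only [nsmul_eq_mul]
            push_cast
            ring
          rw [h3, h2]
          ring
        rw [h1] at hbs
        rw [if_pos (hK1 z hzD)]
        have h4 : 0 ≤ K - nsq z - 1 := by
          rw [← h1]
          exact Finset.sum_nonneg (fun b hb => by
            have := hK2 z hzD b hb
            linarith)
        calc _ ≤ ENNReal.ofReal 1 + ENNReal.ofReal (K - nsq z - 1) :=
              add_le_add (ENNReal.ofReal_le_ofReal h0) hbs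
          _ = ENNReal.ofReal (K - nsq z) := by
              rw [← ENNReal.ofReal_add (by norm_num) h4]
              congr 1
              ring
      · have : ∀ b ∈ nb z, ∑' t : List Z2, (if (b :: t).length < N + 1 then
            ENNReal.ofReal (lmass D a z (b :: t)) else 0) = 0 := by
          intro b _
          simp [lmass, hzD]
        rw [Finset.sum_eq_zero this]
        have hza : z ≠ a := fun e => hzD (e ▸ ha)
        simp [lmass, hza]
    · intro b t hb
      simp [lmass, hb]

lemma summable_lmass (D : Finset Z2) (a : Z2) (ha : a ∈ D) (z : Z2) : Summable (lmass D a z) := by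
  obtain ⟨K, hK, hK1, hK2⟩ := exists_nsq_bound D
  have h : ∑' t, ENNReal.ofReal (lmass D a z t) ≤
      ENNReal.ofReal (if nsq z ≤ K then K - nsq z else 0) := by
    rw [ENNReal.tsum_eq_iSup_sum]
    apply iSup_le
    intro s
    obtain ⟨N, hN⟩ : ∃ N, ∀ t ∈ s, t.length < N := by
      refine ⟨(s.sup List.length) + 1, fun t ht => ?_⟩
      exact Nat.lt_succ_of_le (Finset.le_sup (f := List.length) ht)
    calc ∑ t ∈ s, ENNReal.ofReal (lmass D a z t)
        = ∑ t ∈ s, (if t.length < N then ENNReal.ofReal (lmass D a z t) else 0) := by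
          apply Finset.sum_congr rfl
          intro t ht
          rw [if_pos (hN t ht)]
      _ ≤ ∑' t, (if t.length < N then ENNReal.ofReal (lmass D a z t) else 0) :=
          ENNReal.sum_le_tsum s
      _ ≤ _ := sum_trunc_loop D a ha K hK1 hK2 N z
  have h2 : ∑' t, ENNReal.ofReal (lmass D a z t) ≠ ∞ := (h.trans_lt ENNReal.ofReal_lt_top).ne
  have := ENNReal.summable_toReal h2
  refine this.congr (fun t => ?_)
  rw [ENNReal.toReal_ofReal (lmass_nonneg D a z t)]

end loops

section weights

variable {𝕜 : Type*} [RCLike 𝕜]

open Classical in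
/-- term of the closed loop sum -/
noncomputable def gTerm (q : Z2 → Z2 → 𝕜) (D : Finset Z2) (a z : Z2) (s : List Z2) : 𝕜 :=
  if W D z s ∧ en z s = a then wt q z s else 0

/-- the sum over all paths from `z` to `a` through `D` (Green function) -/
noncomputable def gr (q : Z2 → Z2 → 𝕜) (D : Finset Z2) (a z : Z2) : 𝕜 := ∑' s, gTerm q D a z s

lemma norm_wt_le' {q : Z2 → Z2 → 𝕜} (hq : GW q) {D : Finset Z2} :
    ∀ (t : List Z2) (a : Z2), W D a t → ‖wt q a t‖ ≤ (1 / 4) ^ t.length := by
  intro t
  induction t with
  | nil => intro a _; simp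
  | cons b t ih =>
    intro a h
    rw [W_cons] at h
    rw [wt_cons, norm_mul, List.length_cons, pow_succ']
    exact mul_le_mul (hq a b h.2.1) (ih b h.2.2) (norm_nonneg _) (by norm_num)

lemma summable_gTerm {q : Z2 → Z2 → 𝕜} (hq : GW q) (D : Finset Z2) (a : Z2) (ha : a ∈ D) (z : Z2) :
    Summable (fun s => ‖gTerm q D a z s‖) := by
  refine Summable.of_nonneg_of_le (fun _ => norm_nonneg _) (fun s => ?_) (summable_lmass D a ha z)
  unfold gTerm lmass
  split_ifs with h
  · exact norm_wt_le' hq s z h.1
  · simp

/-- first step equation for the Green function -/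
lemma gr_step {q : Z2 → Z2 → 𝕜} (hq : GW q) (D : Finset Z2) (a : Z2) (ha : a ∈ D) (z : Z2)
    (hz : z ∈ D) : gr q D a z = (if z = a then 1 else 0) + ∑ b ∈ nb z, q z b * gr q D a b := by
  unfold gr
  rw [tsum_list _ (summable_gTerm hq D a ha z).of_norm (nb z)]
  · congr 1
    · simp [gTerm]
    · apply Finset.sum_congr rfl
      intro b hb
      rw [← tsum_mul_left]
      congr 1
      ext t
      have hP : (W D z (b :: t) ∧ en z (b :: t) = a) ↔ (W D b t ∧ en b t = a) := by
        simp [hz, hb]
      unfold gTerm
      by_cases h2 : W D b t ∧ en b t = a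
      · rw [if_pos h2, if_pos (hP.2 h2), wt_cons]
      · rw [if_neg h2, if_neg (fun h3 => h2 (hP.1 h3)), mul_zero]
  · intro b t hb
    simp [gTerm, hb]

lemma gr_out {q : Z2 → Z2 → 𝕜} (D : Finset Z2) (a : Z2) (ha : a ∈ D) (z : Z2)
    (hz : z ∉ D) : gr q D a z = 0 := by
  unfold gr
  have : gTerm q D a z = fun _ => 0 := by
    ext t
    have hza : z ≠ a := fun e => hz (e ▸ ha)
    cases t with
    | nil => simp [gTerm, hza]
    | cons b t => simp [gTerm, hz]
  rw [this, tsum_zero]

open Classical in
/-- the part after the last visit -/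
noncomputable def bTerm (q : Z2 → Z2 → 𝕜) (D O : Finset Z2) (a : Z2) (Ψ : List Z2 → 𝕜)
    (t : List Z2) : 𝕜 := if a ∉ t ∧ P D O a t then wt q a t * Ψ (a :: ler t) else 0

/-- last visit decomposition for functionals of the loop erasure -/
theorem last_visit {q : Z2 → Z2 → 𝕜} (hq : GW q) {D O : Finset Z2} (hDO : Disjoint D O)
    {a : Z2} (ha : a ∈ D) (Ψ : List Z2 → 𝕜) (C : ℝ) (hΨ : ∀ l, ‖Ψ l‖ ≤ C) :
    PS q D O a (fun l => Ψ (ler l)) = gr q D a a *
      ∑ b ∈ nb a, q a b * PS q (D.erase a) O b (fun l => Ψ (a :: ler l)) := by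
  have haO : a ∉ O := Finset.disjoint_left.1 hDO ha
  have hC : 0 ≤ C := (norm_nonneg _).trans (hΨ [])
  have hB : Summable (fun t => ‖bTerm q D O a Ψ t‖) := by
    refine Summable.of_nonneg_of_le (fun _ => norm_nonneg _) (fun t => ?_)
      ((summable_pm D O hDO a).mul_left C)
    unfold bTerm pm
    split_ifs with h1 h2 h3
    · rw [norm_mul, mul_comm C]
      exact mul_le_mul (norm_wt_le hq t a h2) (hΨ _) (norm_nonneg _) (by positivity)
    · exact absurd h1.2 h2
    · simpa using mul_nonneg hC (pow_nonneg (by norm_num : (0:ℝ) ≤ 4⁻¹) t.length)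
    · simp
  have e_inj : Function.Injective (fun t : List Z2 => (bef a t, aft a t)) := by
    intro s t h
    simp only [Prod.mk.injEq] at h
    rw [← bef_append_aft a s, ← bef_append_aft a t, h.1, h.2]
  have h1 : PS q D O a (fun l => Ψ (ler l)) =
      ∑' t, gTerm q D a a (bef a t) * bTerm q D O a Ψ (aft a t) := by
    unfold PS
    congr 1
    ext t
    have hP : P D O a t ↔ W D a (bef a t) ∧ P D O a (aft a t) := by
      conv_lhs => rw [← bef_append_aft a t]
      rw [P_append, en_bef]
    unfold psTerm gTerm bTerm
    by_cases h : P D O a t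
    · rw [if_pos h, if_pos ⟨(hP.1 h).1, en_bef a t⟩, if_pos ⟨not_mem_aft a t, (hP.1 h).2⟩]
      have hw : wt q a t = wt q a (bef a t) * wt q a (aft a t) := by
        conv_lhs => rw [← bef_append_aft a t]
        rw [wt_append, en_bef]
      show wt q a t * Ψ (ler (a :: t)) = _
      rw [ler_cons, hw]
      ring
    · rw [if_neg h]
      by_cases h2 : W D a (bef a t)
      · have h3 : ¬ P D O a (aft a t) := fun h3 => h (hP.2 ⟨h2, h3⟩)
        simp [h3]
      · simp [h2]
  have h2 : ∑' t, gTerm q D a a (bef a t) * bTerm q D O a Ψ (aft a t) =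
      ∑' p : List Z2 × List Z2, gTerm q D a a p.1 * bTerm q D O a Ψ p.2 := by
    apply e_inj.tsum_eq (f := fun p : List Z2 × List Z2 => gTerm q D a a p.1 * bTerm q D O a Ψ p.2)
    rintro ⟨s, t⟩ hp
    simp only [Function.mem_support, ne_eq, mul_eq_zero, not_or] at hp
    obtain ⟨hp1, hp2⟩ := hp
    unfold gTerm at hp1
    unfold bTerm at hp2
    have hs : W D a s ∧ en a s = a := by
      by_contra h
      exact hp1 (if_neg h)
    have ht : a ∉ t ∧ P D O a t := by
      by_contra h
      exact hp2 (if_neg h)
    exact ⟨s ++ t, by simp only [bef_append hs.2 ht.1, aft_append hs.2 ht.1]⟩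
  rw [h1, h2]
  · rw [← tsum_mul_tsum_of_summable_norm (summable_gTerm hq D a ha a) hB]
    rw [gr]
    congr 1
    rw [tsum_list _ hB.of_norm (nb a)]
    · have h0 : bTerm q D O a Ψ [] = 0 := by simp [bTerm, haO]
      rw [h0, zero_add]
      apply Finset.sum_congr rfl
      intro b hb
      unfold PS
      rw [← tsum_mul_left]
      congr 1
      ext t
      have hP : (a ∉ b :: t ∧ P D O a (b :: t)) ↔ P (D.erase a) O b t := by
        rw [P_erase haO]
        simp only [P_cons, ha, hb, true_and]
        tauto
      unfold bTerm psTerm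
      by_cases h2 : P (D.erase a) O b t
      · rw [if_pos h2, if_pos (hP.2 h2), wt_cons]; ring
      · rw [if_neg h2, if_neg (fun h3 => h2 (hP.1 h3)), mul_zero]
    · intro b t hb
      simp [bTerm, hb]

end weights

end Pool.Agent.H96.LE
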