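import Mathlib

/-!
# The square lattice: neighbours, discrete maximum principle
-/

namespace Pool.Agent.H96.LE

open Finset

abbrev Z2 := ℤ × ℤ

/-- lattice point as a complex number -/
noncomputable def cx (z : Z2) : ℂ := ⟨(z.1 : ℝ), (z.2 : ℝ)⟩

@[simp] lemma cx_re (z : Z2) : (cx z).re = (z.1 : ℝ) := rfl
@[simp] lemma cx_im (z : Z2) : (cx z).im = (z.2 : ℝ) := rfl

/-- the four lattice neighbours -/
def nb (z : Z2) : Finset Z2 :=
  {(z.1 + 1, z.2), (z.1 - 1, z.2), (z.1, z.2 + 1), (z.1, z.2 - 1)}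

lemma mem_nb {z w : Z2} : w ∈ nb z ↔
    w = (z.1 + 1, z.2) ∨ w = (z.1 - 1, z.2) ∨ w = (z.1, z.2 + 1) ∨ w = (z.1, z.2 - 1) := by
  simp [nb]

lemma sum_nb {E : Type*} [AddCommMonoid E] (z : Z2) (f : Z2 → E) :
    ∑ w ∈ nb z, f w = f (z.1 + 1, z.2) + f (z.1 - 1, z.2) + f (z.1, z.2 + 1)
      + f (z.1, z.2 - 1) := by
  unfold nb
  rw [Finset.sum_insert, Finset.sum_insert, Finset.sum_insert, Finset.sum_singleton]
  · abel
  · simp only [Finset.mem_singleton, Prod.mk.injEq, not_and]; omega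
  · simp only [Finset.mem_insert, Finset.mem_singleton, Prod.mk.injEq, not_or, not_and]
    omega
  · simp only [Finset.mem_insert, Finset.mem_singleton, Prod.mk.injEq, not_or, not_and]
    omega

lemma nb_symm {z w : Z2} : w ∈ nb z ↔ z ∈ nb w := by
  rw [mem_nb, mem_nb]
  rcases z with ⟨a, b⟩
  rcases w with ⟨c, d⟩
  simp only [Prod.mk.injEq]
  omega

lemma nb_ne {z w : Z2} (h : w ∈ nb z) : w ≠ z := by
  rw [mem_nb] at h
  rcases z with ⟨a, b⟩
  rcases w with ⟨c, d⟩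
  simp only [Prod.mk.injEq, ne_eq] at h ⊢
  omega

lemma card_nb (z : Z2) : (nb z).card = 4 := by
  have := sum_nb z (fun _ => (1 : ℕ))
  simpa using this

/-- the average over the four neighbours -/
noncomputable def av (u : Z2 → ℝ) (z : Z2) : ℝ := (∑ w ∈ nb z, u w) / 4

lemma av_eq (u : Z2 → ℝ) (z : Z2) : av u z =
    (u (z.1 + 1, z.2) + u (z.1 - 1, z.2) + u (z.1, z.2 + 1) + u (z.1, z.2 - 1)) / 4 := by
  rw [av, sum_nb]

lemma av_add (u v : Z2 → ℝ) (z : Z2) : av (fun w => u w + v w) z = av u z + av v z := by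
  simp only [av_eq]; ring

lemma av_sub (u v : Z2 → ℝ) (z : Z2) : av (fun w => u w - v w) z = av u z - av v z := by
  simp only [av_eq]; ring

lemma av_const_mul (c : ℝ) (u : Z2 → ℝ) (z : Z2) : av (fun w => c * u w) z = c * av u z := by
  simp only [av_eq]; ring

lemma av_const (c : ℝ) (z : Z2) : av (fun _ => c) z = c := by
  simp only [av_eq]; ring

lemma av_mono {u v : Z2 → ℝ} {z : Z2} (h : ∀ w ∈ nb z, u w ≤ v w) : av u z ≤ av v z := by
  unfold av
  have := Finset.sum_le_sum h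
  linarith

/-- squared modulus -/
noncomputable def nsq (z : Z2) : ℝ := (z.1 : ℝ) ^ 2 + (z.2 : ℝ) ^ 2

lemma nsq_nonneg (z : Z2) : 0 ≤ nsq z := by unfold nsq; positivity

lemma nsq_eq (z : Z2) : nsq z = ‖cx z‖ ^ 2 := by
  rw [← Complex.normSq_eq_norm_sq, Complex.normSq_apply]
  simp [nsq, sq]

lemma av_nsq (z : Z2) : av nsq z = nsq z + 1 := by
  rw [av_eq]
  simp only [nsq]
  push_cast
  ring

/-- discrete maximum principle -/
theorem max_prin (D : Finset Z2) (u : Z2 → ℝ) (M : ℝ) (hsub : ∀ z ∈ D, u z ≤ av u z)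
    (hb : ∀ z ∈ D, ∀ w ∈ nb z, w ∉ D → u w ≤ M) : ∀ z ∈ D, u z ≤ M := by
  by_contra hcon
  push Not at hcon
  obtain ⟨z0, hz0, hz0M⟩ := hcon
  obtain ⟨zm, hzm, hmax⟩ := D.exists_max_image u ⟨z0, hz0⟩
  have hMm : M < u zm := lt_of_lt_of_le hz0M (hmax z0 hz0)
  obtain ⟨zs, hzs, hxs⟩ := (D.filter (fun z => u z = u zm)).exists_max_image (fun z => z.1)
    ⟨zm, by simp [hzm]⟩
  rw [Finset.mem_filter] at hzs
  have hle : ∀ w ∈ nb zs, u w ≤ u zm := by
    intro w hw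
    by_cases hwD : w ∈ D
    · exact hmax w hwD
    · exact (hb zs hzs.1 w hw hwD).trans hMm.le
  have h1 := hsub zs hzs.1
  rw [av_eq, hzs.2] at h1
  have e1 := hle (zs.1 + 1, zs.2) (mem_nb.2 (Or.inl rfl))
  have e2 := hle (zs.1 - 1, zs.2) (mem_nb.2 (Or.inr (Or.inl rfl)))
  have e3 := hle (zs.1, zs.2 + 1) (mem_nb.2 (Or.inr (Or.inr (Or.inl rfl))))
  have e4 := hle (zs.1, zs.2 - 1) (mem_nb.2 (Or.inr (Or.inr (Or.inr rfl))))
  have e5 : u (zs.1 + 1, zs.2) = u zm := by linarith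
  by_cases hE : (zs.1 + 1, zs.2) ∈ D
  · have := hxs (zs.1 + 1, zs.2) (by rw [Finset.mem_filter]; exact ⟨hE, e5⟩)
    simp at this
  · have := hb zs hzs.1 _ (mem_nb.2 (Or.inl rfl)) hE
    linarith

/-- comparison -/
theorem comparison (D : Finset Z2) (u v : Z2 → ℝ) (hu : ∀ z ∈ D, u z ≤ av u z)
    (hv : ∀ z ∈ D, av v z ≤ v z)
    (hb : ∀ z ∈ D, ∀ w ∈ nb z, w ∉ D → u w ≤ v w) : ∀ z ∈ D, u z ≤ v z := by
  intro z hz
  have := max_prin D (fun w => u w - v w) 0 (fun z hz => by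
    rw [av_sub]
    have := hu z hz
    have := hv z hz
    linarith) (fun z hz w hw hwD => by
    have := hb z hz w hw hwD
    linarith) z hz
  simpa using this

/-- maximum principle with error -/
theorem max_prin_err (D : Finset Z2) (u : Z2 → ℝ) (M ε K : ℝ) (hε : 0 ≤ ε)
    (hsub : ∀ z ∈ D, u z ≤ av u z + ε)
    (hb : ∀ z ∈ D, ∀ w ∈ nb z, w ∉ D → u w ≤ M)
    (hK : ∀ z ∈ D, ∀ w ∈ nb z, nsq w ≤ K) : ∀ z ∈ D, u z ≤ M + ε * K := by
  intro z hz
  have h := max_prin D (fun w => u w + ε * nsq w) (M + ε * K) (fun z hz => by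
    rw [av_add, av_const_mul, av_nsq]
    have := hsub z hz
    linarith) (fun z hz w hw hwD => by
    have h1 := hb z hz w hw hwD
    have h2 := mul_le_mul_of_nonneg_left (hK z hz w hw) hε
    linarith) z hz
  have h3 : 0 ≤ ε * nsq z := mul_nonneg hε (nsq_nonneg z)
  linarith

end Pool.Agent.H96.LE
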