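import Mathlib

/-!
# Trace series for the logarithm of a determinant
-/

namespace Pool.Agent.H96.LE

open Finset Filter Topology

variable {ι : Type*} [Fintype ι] [DecidableEq ι]

lemma abs_mpow_le {B : Matrix ι ι ℝ} {σ : ℝ} (hσ : 0 ≤ σ) (hr : ∀ i, ∑ j, |B i j| ≤ σ) (m : ℕ) :
    ∀ i, ∑ j, |(B ^ m) i j| ≤ σ ^ m := by
  induction m with
  | zero =>
    intro i
    have h1 : ∀ x, |((1 : Matrix ι ι ℝ) i x)| = if i = x then 1 else 0 := by
      intro x
      rw [Matrix.one_apply]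
      split_ifs <;> simp
    simp only [pow_zero, h1]
    rw [Finset.sum_ite_eq, if_pos (Finset.mem_univ i)]
  | succ m ih =>
    intro i
    rw [pow_succ]
    calc ∑ j, |(B ^ m * B) i j| ≤ ∑ j, ∑ k, |(B ^ m) i k| * |B k j| := by
          apply Finset.sum_le_sum
          intro j _
          rw [Matrix.mul_apply]
          refine (Finset.abs_sum_le_sum_abs _ _).trans (Finset.sum_le_sum fun k _ => ?_)
          rw [abs_mul]
      _ = ∑ k, |(B ^ m) i k| * ∑ j, |B k j| := by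
          rw [Finset.sum_comm]
          apply Finset.sum_congr rfl; intro k _
          rw [Finset.mul_sum]
      _ ≤ ∑ k, |(B ^ m) i k| * σ := Finset.sum_le_sum (fun k _ =>
          mul_le_mul_of_nonneg_left (hr k) (abs_nonneg _))
      _ = (∑ k, |(B ^ m) i k|) * σ := by rw [Finset.sum_mul]
      _ ≤ σ ^ m * σ := mul_le_mul_of_nonneg_right (ih i) hσ
      _ = σ ^ (m + 1) := (pow_succ σ m).symm

lemma abs_entry_le {B : Matrix ι ι ℝ} {σ : ℝ} (hσ : 0 ≤ σ) (hr : ∀ i, ∑ j, |B i j| ≤ σ) (m : ℕ)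
    (i j : ι) : |(B ^ m) i j| ≤ σ ^ m :=
  (Finset.single_le_sum (f := fun j => |(B ^ m) i j|) (fun _ _ => abs_nonneg _)
    (Finset.mem_univ j)).trans (abs_mpow_le hσ hr m i)

lemma summable_entry {B : Matrix ι ι ℝ} {σ : ℝ} (hσ : 0 ≤ σ) (hσ1 : σ < 1)
    (hr : ∀ i, ∑ j, |B i j| ≤ σ) {t : ℝ} (ht : |t| ≤ 1) (i j : ι) :
    Summable (fun k : ℕ => t ^ k * (B ^ k) i j) := by
  apply Summable.of_norm_bounded (summable_geometric_of_lt_one hσ hσ1)
  intro k
  rw [Real.norm_eq_abs, abs_mul, abs_pow]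
  calc |t| ^ k * |(B ^ k) i j| ≤ 1 * σ ^ k := by
        apply mul_le_mul (pow_le_one₀ (abs_nonneg _) ht) (abs_entry_le hσ hr k i j) (abs_nonneg _)
          zero_le_one
    _ = σ ^ k := one_mul _

/-- resolvent -/
noncomputable def rsv (B : Matrix ι ι ℝ) (t : ℝ) : Matrix ι ι ℝ :=
  Matrix.of (fun i j => ∑' k : ℕ, t ^ k * (B ^ k) i j)

lemma rsv_mul {B : Matrix ι ι ℝ} {σ : ℝ} (hσ : 0 ≤ σ) (hσ1 : σ < 1)
    (hr : ∀ i, ∑ j, |B i j| ≤ σ) {t : ℝ} (ht : |t| ≤ 1) : (1 - t • B) * rsv B t = 1 := by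
  ext i j
  rw [Matrix.sub_mul, Matrix.one_mul, Matrix.sub_apply, Matrix.smul_mul, Matrix.smul_apply,
    Matrix.mul_apply]
  simp only [rsv, Matrix.of_apply]
  have h1 : ∑ l, B i l * ∑' k : ℕ, t ^ k * (B ^ k) l j = ∑' k : ℕ, t ^ k * (B ^ (k + 1)) i j := by
    have : ∀ l, B i l * ∑' k : ℕ, t ^ k * (B ^ k) l j = ∑' k : ℕ, B i l * (t ^ k * (B ^ k) l j) :=
      fun l => tsum_mul_left.symm
    simp only [this]
    rw [← Summable.tsum_finsetSum (fun l _ => (summable_entry hσ hσ1 hr ht l j).mul_left _)]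
    congr 1
    ext k
    rw [pow_succ' B, Matrix.mul_apply, Finset.mul_sum]
    apply Finset.sum_congr rfl
    intro l _; ring
  rw [h1, (summable_entry hσ hσ1 hr ht i j).tsum_eq_zero_add, smul_eq_mul, ← tsum_mul_left]
  have h2 : (fun k : ℕ => t * (t ^ k * (B ^ (k + 1)) i j)) = fun k : ℕ => t ^ (k + 1) * (B ^ (k + 1)) i j := by
    funext k; ring
  rw [h2]
  simp

lemma trace_rsv {B : Matrix ι ι ℝ} {σ : ℝ} (hσ : 0 ≤ σ) (hσ1 : σ < 1)
    (hr : ∀ i, ∑ j, |B i j| ≤ σ) {t : ℝ} (ht : |t| ≤ 1) :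
    (rsv B t * B).trace = ∑' k : ℕ, t ^ k * (B ^ (k + 1)).trace := by
  unfold Matrix.trace
  simp only [Matrix.diag_apply, Matrix.mul_apply, rsv, Matrix.of_apply, ← tsum_mul_right]
  have h1 : ∀ i, ∑ x, ∑' k : ℕ, t ^ k * (B ^ k) i x * B x i = ∑' k : ℕ, t ^ k * (B ^ (k + 1)) i i := by
    intro i
    rw [← Summable.tsum_finsetSum (fun l _ => (summable_entry hσ hσ1 hr ht i l).mul_right _)]
    congr 1
    ext k
    rw [pow_succ B, Matrix.mul_apply, Finset.mul_sum]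
    apply Finset.sum_congr rfl
    intro l _; ring
  simp only [h1]
  have hs : ∀ i, Summable (fun k : ℕ => t ^ k * (B ^ (k + 1)) i i) := by
    intro i
    apply Summable.of_norm_bounded ((summable_geometric_of_lt_one hσ hσ1))
    intro k
    rw [Real.norm_eq_abs, abs_mul, abs_pow]
    calc |t| ^ k * |(B ^ (k + 1)) i i| ≤ 1 * σ ^ (k + 1) := by
          apply mul_le_mul (pow_le_one₀ (abs_nonneg _) ht) (abs_entry_le hσ hr _ i i) (abs_nonneg _)
            zero_le_one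
      _ ≤ σ ^ k := by
          rw [one_mul, pow_succ]
          have : 0 ≤ σ ^ k := pow_nonneg hσ k
          nlinarith
  rw [← Summable.tsum_finsetSum (fun i _ => hs i)]
  congr 1
  ext k
  rw [Finset.mul_sum]

lemma hasDerivAt_det_one {M : Matrix ι ι ℝ} :
    HasDerivAt (fun s : ℝ => (1 + s • M).det) M.trace 0 := by
  set p := ((1 + (Polynomial.X : Polynomial ℝ) • M.map Polynomial.C).det).divX.divX with hp
  have h : (fun s : ℝ => (1 + s • M).det) = fun s => 1 + M.trace * s + p.eval s * s ^ 2 := by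
    funext s
    exact Matrix.det_one_add_smul s M
  rw [h]
  have h1 : HasDerivAt (fun s : ℝ => p.eval s * s ^ 2)
      (p.derivative.eval 0 * 0 ^ 2 + p.eval 0 * (((2 : ℕ) : ℝ) * 0 ^ (2 - 1))) 0 :=
    (p.hasDerivAt 0).mul (hasDerivAt_pow 2 (0 : ℝ))
  have h2 : HasDerivAt (fun s : ℝ => 1 + M.trace * s) (M.trace * 1) 0 :=
    ((hasDerivAt_id (0 : ℝ)).const_mul M.trace).const_add 1
  have h3 := h2.fun_add h1
  simpa using h3

lemma hasDerivAt_det {B : Matrix ι ι ℝ} {σ : ℝ} (hσ : 0 ≤ σ) (hσ1 : σ < 1)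
    (hr : ∀ i, ∑ j, |B i j| ≤ σ) {t : ℝ} (ht : |t| ≤ 1) :
    HasDerivAt (fun s : ℝ => (1 - s • B).det)
      (-((1 - t • B).det * ∑' k : ℕ, t ^ k * (B ^ (k + 1)).trace)) t := by
  have h1 := rsv_mul hσ hσ1 hr ht
  have h2 : (fun s : ℝ => (1 - s • B).det) =
      fun s => (1 - t • B).det * (1 + (s - t) • (-(rsv B t * B))).det := by
    funext s
    rw [← Matrix.det_mul]
    congr 1
    rw [Matrix.mul_add, Matrix.mul_one, Matrix.mul_smul, Matrix.mul_neg, ← Matrix.mul_assoc, h1,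
      Matrix.one_mul, sub_smul, smul_neg, smul_neg]
    abel
  rw [h2]
  have h3 := (hasDerivAt_det_one (M := -(rsv B t * B)))
  have h4 : HasDerivAt (fun s : ℝ => (1 + (s - t) • (-(rsv B t * B))).det)
      ((-(rsv B t * B)).trace * 1) t := by
    have h5 : HasDerivAt (fun s : ℝ => s - t) 1 t := (hasDerivAt_id t).sub_const t
    have h6 : HasDerivAt (fun s : ℝ => (1 + s • (-(rsv B t * B))).det) (-(rsv B t * B)).trace
        ((fun s : ℝ => s - t) t) := by
      simpa using h3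
    exact HasDerivAt.comp (h := fun s : ℝ => s - t)
      (h₂ := fun s : ℝ => (1 + s • (-(rsv B t * B))).det) t h6 h5
  have h7 := h4.const_mul (1 - t • B).det
  rw [Matrix.trace_neg, trace_rsv hσ hσ1 hr ht, mul_one, mul_neg] at h7
  exact h7

lemma det_ne_zero' {B : Matrix ι ι ℝ} {σ : ℝ} (hσ : 0 ≤ σ) (hσ1 : σ < 1)
    (hr : ∀ i, ∑ j, |B i j| ≤ σ) {t : ℝ} (ht : |t| ≤ 1) : (1 - t • B).det ≠ 0 := by
  intro h
  have h1 := congrArg Matrix.det (rsv_mul hσ hσ1 hr ht)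
  rw [Matrix.det_mul, h, zero_mul, Matrix.det_one] at h1
  exact zero_ne_one h1

lemma det_pos' {B : Matrix ι ι ℝ} {σ : ℝ} (hσ : 0 ≤ σ) (hσ1 : σ < 1)
    (hr : ∀ i, ∑ j, |B i j| ≤ σ) {t : ℝ} (ht0 : 0 ≤ t) (ht : t ≤ 1) : 0 < (1 - t • B).det := by
  by_contra hcon
  push Not at hcon
  have hcont : ContinuousOn (fun s : ℝ => (1 - s • B).det) (Set.Icc 0 t) := by
    intro s hs
    exact (hasDerivAt_det hσ hσ1 hr (by rw [abs_of_nonneg hs.1]; linarith [hs.2])).continuousAt.continuousWithinAt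
  have h0 : (0 : ℝ) ∈ Set.Icc ((fun s : ℝ => (1 - s • B).det) t) ((fun s : ℝ => (1 - s • B).det) 0) := by
    simp only [zero_smul, sub_zero, Matrix.det_one]
    exact ⟨hcon, zero_le_one⟩
  obtain ⟨s, hs, hs0⟩ := intermediate_value_Icc' ht0 hcont h0
  exact det_ne_zero' hσ hσ1 hr (show |s| ≤ 1 by rw [abs_of_nonneg hs.1]; linarith [hs.2]) hs0

theorem log_det_series {B : Matrix ι ι ℝ} {σ : ℝ} (hσ : 0 ≤ σ) (hσ1 : σ < 1)
    (hr : ∀ i, ∑ j, |B i j| ≤ σ) :
    0 < (1 - B).det ∧ -Real.log (1 - B).det = ∑' m : ℕ, (B ^ (m + 1)).trace / (m + 1) := by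
  have hpos : 0 < (1 - B).det := by
    have := det_pos' hσ hσ1 hr (t := 1) zero_le_one le_rfl
    rwa [one_smul] at this
  refine ⟨hpos, ?_⟩
  set K : ℝ := (Fintype.card ι : ℝ) with hK
  have hK0 : 0 ≤ K := Nat.cast_nonneg _
  set c : ℕ → ℝ := fun m => (B ^ (m + 1)).trace with hc
  have hcb : ∀ m, |c m| ≤ K * σ ^ m := by
    intro m
    calc |c m| ≤ ∑ i, |(B ^ (m + 1)) i i| := Finset.abs_sum_le_sum_abs _ _
      _ ≤ ∑ _i : ι, σ ^ m := by
          apply Finset.sum_le_sum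
          intro i _
          refine (abs_entry_le hσ hr _ i i).trans ?_
          rw [pow_succ]
          have : 0 ≤ σ ^ m := pow_nonneg hσ m
          nlinarith
      _ = K * σ ^ m := by rw [Finset.sum_const, Finset.card_univ, nsmul_eq_mul]
  set r : ℝ := 2 / (1 + σ) with hr'
  have hr1 : 1 < r := by rw [hr', lt_div_iff₀ (by linarith)]; linarith
  have hrσ : σ * r < 1 := by
    rw [hr', mul_div_assoc', div_lt_one (by linarith)]; linarith
  have hT : ∀ t ∈ Set.Ioo (-r) r, HasDerivAt (fun z : ℝ => ∑' m : ℕ, c m / (m + 1) * z ^ (m + 1))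
      (∑' m : ℕ, c m * t ^ m) t := by
    intro t ht
    refine hasDerivAt_tsum_of_isPreconnected (u := fun m => K * (σ * r) ^ m)
      (g := fun (m : ℕ) (z : ℝ) => c m / (m + 1) * z ^ (m + 1))
      (g' := fun (m : ℕ) (z : ℝ) => c m * z ^ m) (t := Set.Ioo (-r) r) (y₀ := 0)
      ((summable_geometric_of_lt_one (by positivity) hrσ).mul_left K) isOpen_Ioo
      isPreconnected_Ioo ?_ ?_ ⟨by linarith, by linarith⟩ ?_ ht
    · intro m y _
      have h1 := (hasDerivAt_pow (m + 1) y).const_mul (c m / (m + 1))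
      have h2 : c m / (m + 1) * (((m + 1 : ℕ) : ℝ) * y ^ (m + 1 - 1)) = c m * y ^ m := by
        have : (m : ℝ) + 1 ≠ 0 := by positivity
        push_cast
        field_simp
      rw [h2] at h1
      exact h1
    · intro m y hy
      rw [Real.norm_eq_abs, abs_mul, abs_pow, mul_pow]
      have h1 : |y| ^ m ≤ r ^ m := pow_le_pow_left₀ (abs_nonneg _) (abs_lt.2 hy).le m
      calc |c m| * |y| ^ m ≤ (K * σ ^ m) * r ^ m := by
            apply mul_le_mul (hcb m) h1 (by positivity) (by positivity)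
        _ = K * (σ ^ m * r ^ m) := by ring
    · have : (fun m : ℕ => c m / (m + 1) * (0 : ℝ) ^ (m + 1)) = fun _ => 0 := by
        funext m; simp
      rw [this]; exact summable_zero
  set φ : ℝ → ℝ := fun t => Real.log (1 - t • B).det + ∑' m : ℕ, c m / (m + 1) * t ^ (m + 1) with hφ
  have hder : ∀ t ∈ Set.Icc (0 : ℝ) 1, HasDerivAt φ 0 t := by
    intro t ht
    have ht' : |t| ≤ 1 := by rw [abs_of_nonneg ht.1]; exact ht.2
    have hne := det_ne_zero' hσ hσ1 hr ht'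
    have h1 := (hasDerivAt_det hσ hσ1 hr ht').log hne
    have h2 := hT t ⟨by linarith [ht.1], by linarith [ht.2]⟩
    have h3 := h1.fun_add h2
    have h4 : -((1 - t • B).det * ∑' k : ℕ, t ^ k * (B ^ (k + 1)).trace) / (1 - t • B).det +
        ∑' m : ℕ, c m * t ^ m = 0 := by
      rw [neg_div, mul_div_cancel_left₀ _ hne]
      have : (fun m : ℕ => c m * t ^ m) = fun k : ℕ => t ^ k * (B ^ (k + 1)).trace := by
        funext k; simp only [hc]; ring
      rw [this]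
      ring
    rw [h4] at h3
    exact h3
  have hconst := constant_of_has_deriv_right_zero (f := φ) (a := 0) (b := 1)
    (fun t ht => (hder t ht).continuousAt.continuousWithinAt)
    (fun t ht => (hder t ⟨ht.1, ht.2.le⟩).hasDerivWithinAt) 1 ⟨zero_le_one, le_rfl⟩
  simp only [hφ, one_smul, zero_smul, sub_zero, Matrix.det_one, Real.log_one, one_pow, mul_one,
    zero_add] at hconst
  have h0 : ∑' m : ℕ, c m / (m + 1) * (0 : ℝ) ^ (m + 1) = 0 := by
    have : (fun m : ℕ => c m / (m + 1) * (0 : ℝ) ^ (m + 1)) = fun _ => 0 := by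
      funext m; simp
    rw [this, tsum_zero]
  rw [h0] at hconst
  linarith

end Pool.Agent.H96.LE
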