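import Pool.Agent.H96.LE.Schur
import Pool.Agent.H96.LE.Hfun

/-!
# The determinant ratio for the sign twist
-/

namespace Pool.Agent.H96.LE

open Finset

/-- integer points of the positive axis in the annulus -/
noncomputable def XI (R M : ℝ) : Finset ℤ := (Icc 0 ⌈M⌉).filter (fun j => R < (j : ℝ) ∧ (j : ℝ) < M)

lemma mem_XI {R M : ℝ} (hR : 0 ≤ R) {j : ℤ} : j ∈ XI R M ↔ R < (j : ℝ) ∧ (j : ℝ) < M := by
  unfold XI
  rw [Finset.mem_filter, Finset.mem_Icc]
  constructor
  · exact fun h => h.2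
  · intro h
    refine ⟨⟨?_, ?_⟩, h⟩
    · have : (0 : ℝ) < j := by linarith [h.1]
      have : 0 < j := by exact_mod_cast this
      omega
    · have := h.2.le.trans (Int.le_ceil M)
      exact_mod_cast this

/-- positive axis -/
noncomputable def Xp (R M : ℝ) : Finset Z2 := (XI R M).image (fun j => (j, 0))

/-- negative axis -/
noncomputable def Xm (R M : ℝ) : Finset Z2 := (XI R M).image (fun j => (-j, 0))

/-- annulus without the axis -/
noncomputable def V0 (R M : ℝ) : Finset Z2 := (VV R M) \ (Xp R M ∪ Xm R M)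

lemma mem_Xp {R M : ℝ} (hR : 0 ≤ R) {z : Z2} : z ∈ Xp R M ↔ z.2 = 0 ∧ R < (z.1 : ℝ) ∧ (z.1 : ℝ) < M := by
  unfold Xp
  rw [Finset.mem_image]
  constructor
  · rintro ⟨j, hj, rfl⟩
    exact ⟨rfl, (mem_XI hR).1 hj⟩
  · intro h
    exact ⟨z.1, (mem_XI hR).2 h.2, Prod.ext rfl h.1.symm⟩

lemma mem_Xm {R M : ℝ} (hR : 0 ≤ R) {z : Z2} : z ∈ Xm R M ↔ z.2 = 0 ∧ R < -(z.1 : ℝ) ∧ -(z.1 : ℝ) < M := by
  unfold Xm
  rw [Finset.mem_image]
  constructor
  · rintro ⟨j, hj, rfl⟩
    have := (mem_XI hR).1 hj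
    refine ⟨rfl, ?_⟩
    push_cast
    simpa using this
  · intro h
    refine ⟨-z.1, (mem_XI hR).2 (by push_cast; exact h.2), Prod.ext (by simp) h.1.symm⟩

lemma norm_axis {z : Z2} (h : z.2 = 0) : ‖cx z‖ = |(z.1 : ℝ)| := by
  have : cx z = ((z.1 : ℝ) : ℂ) := by
    apply Complex.ext
    · simp
    · simp [h]
  rw [this, Complex.norm_real, Real.norm_eq_abs]

lemma Xp_sub {R M : ℝ} (hR : 0 ≤ R) : Xp R M ⊆ VV R M := by
  intro z hz
  rw [mem_Xp hR] at hz
  rw [mem_VV, norm_axis hz.1, abs_of_pos (by linarith [hz.2.1])]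
  exact hz.2

lemma Xm_sub {R M : ℝ} (hR : 0 ≤ R) : Xm R M ⊆ VV R M := by
  intro z hz
  rw [mem_Xm hR] at hz
  rw [mem_VV, norm_axis hz.1, abs_of_neg (by linarith [hz.2.1])]
  exact hz.2

lemma V0_im {R M : ℝ} (hR : 0 ≤ R) {z : Z2} (hz : z ∈ V0 R M) : z.2 ≠ 0 := by
  intro h
  unfold V0 at hz
  rw [Finset.mem_sdiff, Finset.mem_union, not_or, mem_VV, norm_axis h] at hz
  obtain ⟨h1, h2, h3⟩ := hz
  rcases le_total 0 (z.1 : ℝ) with h4 | h4
  · rw [abs_of_nonneg h4] at h1
    exact h2 ((mem_Xp hR).2 ⟨h, h1⟩)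
  · rw [abs_of_nonpos h4] at h1
    exact h3 ((mem_Xm hR).2 ⟨h, h1⟩)

lemma mem_V0 {R M : ℝ} (hR : 0 ≤ R) {z : Z2} : z ∈ V0 R M ↔ z ∈ VV R M ∧ z.2 ≠ 0 := by
  constructor
  · intro h
    exact ⟨(Finset.mem_sdiff.1 h).1, V0_im hR h⟩
  · rintro ⟨h1, h2⟩
    unfold V0
    rw [Finset.mem_sdiff, Finset.mem_union, mem_Xp hR, mem_Xm hR]
    tauto

lemma VV_eq {R M : ℝ} (hR : 0 ≤ R) : VV R M = (V0 R M ∪ Xp R M) ∪ Xm R M := by
  unfold V0
  rw [Finset.union_assoc, Finset.sdiff_union_of_subset]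
  exact Finset.union_subset (Xp_sub hR) (Xm_sub hR)

lemma disj_V0_Xp (R M : ℝ) : Disjoint (V0 R M) (Xp R M) := by
  unfold V0
  exact Finset.disjoint_of_subset_right Finset.subset_union_left Finset.sdiff_disjoint

lemma disj_V0_Xm (R M : ℝ) : Disjoint (V0 R M) (Xm R M) := by
  unfold V0
  exact Finset.disjoint_of_subset_right Finset.subset_union_right Finset.sdiff_disjoint

lemma disj_Xp_Xm {R M : ℝ} (hR : 0 ≤ R) : Disjoint (Xp R M) (Xm R M) := by
  rw [Finset.disjoint_left]
  intro z h1 h2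
  rw [mem_Xp hR] at h1
  rw [mem_Xm hR] at h2
  linarith [h1.2.1, h2.2.1]

/-! ### sign weights -/

/-- edges crossing the cut -/
def cross (z w : Z2) : Prop := (z.2 = 0 ∧ z.1 < 0 ∧ w.2 < 0) ∨ (w.2 = 0 ∧ w.1 < 0 ∧ z.2 < 0)

open Classical in
/-- sign weight -/
noncomputable def qs : Z2 → Z2 → ℂ := fun z w => if cross z w then -(1 / 4) else 1 / 4

lemma GW_qs : GW qs := by
  intro z w _
  unfold qs
  split_ifs <;> simp

lemma arg_cases {z w : Z2} (hw : w ∈ nb z) (hz : 1 < ‖cx z‖) (hw1 : 1 < ‖cx w‖) :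
    (¬ cross z w ∧ Complex.arg (cx w / cx z) = Complex.arg (cx w) - Complex.arg (cx z)) ∨
    (cross z w ∧ (Complex.arg (cx w / cx z) = Complex.arg (cx w) - Complex.arg (cx z) + 2 * Real.pi ∨
      Complex.arg (cx w / cx z) = Complex.arg (cx w) - Complex.arg (cx z) - 2 * Real.pi)) := by
  have hz0 : cx z ≠ 0 := by intro h; rw [h, norm_zero] at hz; linarith
  have hw0 : cx w ≠ 0 := by intro h; rw [h, norm_zero] at hw1; linarith
  have hpi := Real.pi_pos
  set A := Complex.arg (cx z) with hA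
  set B := Complex.arg (cx w / cx z) with hB
  set C := Complex.arg (cx w) with hC
  have hB2 : |B| < Real.pi / 2 := by
    rw [Complex.abs_arg_lt_pi_div_two_iff]
    left
    have h1 : ‖cx w / cx z - 1‖ < 1 := by
      have : cx w / cx z - 1 = (cx w - cx z) / cx z := by field_simp
      rw [this, norm_div, norm_nb hw, div_lt_one (by linarith)]
      exact hz
    have h2 := Complex.abs_re_le_norm (cx w / cx z - 1)
    have h3 := (abs_lt.1 (lt_of_le_of_lt h2 h1)).1
    simp only [Complex.sub_re, Complex.one_re] at h3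
    linarith
  have hA1 : -Real.pi < A := Complex.neg_pi_lt_arg _
  have hA2 : A ≤ Real.pi := Complex.arg_le_pi _
  have hC1 : -Real.pi < C := Complex.neg_pi_lt_arg _
  have hC2 : C ≤ Real.pi := Complex.arg_le_pi _
  have hexp : Complex.exp (C * Complex.I) = Complex.exp ((A + B) * Complex.I) := by
    have e1 : ((‖cx w‖ : ℝ) : ℂ) * Complex.exp (C * Complex.I) = cx w := Complex.norm_mul_exp_arg_mul_I _
    have e2 : ((‖cx z‖ : ℝ) : ℂ) * Complex.exp (A * Complex.I) = cx z := Complex.norm_mul_exp_arg_mul_I _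
    have e3 : ((‖cx w / cx z‖ : ℝ) : ℂ) * Complex.exp (B * Complex.I) = cx w / cx z :=
      Complex.norm_mul_exp_arg_mul_I _
    have hzn : ((‖cx z‖ : ℝ) : ℂ) ≠ 0 := by
      have : ‖cx z‖ ≠ 0 := by linarith
      exact_mod_cast this
    have hwn : ((‖cx w‖ : ℝ) : ℂ) ≠ 0 := by
      have : ‖cx w‖ ≠ 0 := by linarith
      exact_mod_cast this
    have e4 : cx w = cx z * (cx w / cx z) := by field_simp
    have e5 : ((‖cx w‖ : ℝ) : ℂ) * Complex.exp (C * Complex.I) =
        ((‖cx w‖ : ℝ) : ℂ) * Complex.exp ((A + B) * Complex.I) := by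
      have e6 : cx w = (((‖cx z‖ : ℝ) : ℂ) * Complex.exp (A * Complex.I)) *
          (((‖cx w / cx z‖ : ℝ) : ℂ) * Complex.exp (B * Complex.I)) := by
        rw [e2, e3]; exact e4
      refine e1.trans (e6.trans ?_)
      rw [add_mul, Complex.exp_add, norm_div]
      push_cast
      field_simp
    exact mul_left_cancel₀ hwn e5
  rw [Complex.exp_eq_exp_iff_exists_int] at hexp
  obtain ⟨k, hk⟩ := hexp
  have hk2 : C = A + B + k * (2 * Real.pi) := by
    have h1 : ((C : ℝ) : ℂ) * Complex.I = ((A + B + k * (2 * Real.pi) : ℝ) : ℂ) * Complex.I := by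
      rw [hk]; push_cast; ring
    have h2 := mul_right_cancel₀ Complex.I_ne_zero h1
    exact_mod_cast h2
  rw [abs_lt] at hB2
  have hkl : -2 < k := by
    by_contra h
    push Not at h
    have : (k : ℝ) ≤ -2 := by exact_mod_cast h
    nlinarith
  have hkr : k < 2 := by
    by_contra h
    push Not at h
    have : (2 : ℝ) ≤ k := by exact_mod_cast h
    nlinarith
  have himz : (cx z).im < 0 ↔ z.2 < 0 := by simp
  have himw : (cx w).im < 0 ↔ w.2 < 0 := by simp
  have hadj : w.2 = z.2 ∨ (w.2 = z.2 + 1 ∧ w.1 = z.1) ∨ (w.2 = z.2 - 1 ∧ w.1 = z.1) := by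
    rw [mem_nb] at hw
    rcases hw with h | h | h | h <;> rw [h] <;> simp
  have hcase : k = -1 ∨ k = 0 ∨ k = 1 := by omega
  rcases hcase with rfl | rfl | rfl
  · right
    have hA3 : Real.pi / 2 < A := by push_cast at hk2; linarith
    have hC3 : C < 0 := by push_cast at hk2; linarith
    have hw2 : w.2 < 0 := by rw [← himw, ← Complex.arg_neg_iff]; exact hC3
    have hz2 : 0 ≤ z.2 := by
      by_contra h
      push Not at h
      rw [← himz, ← Complex.arg_neg_iff] at h
      linarith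
    have hz1 : z.1 < 0 := by
      have h1 : ¬ |A| ≤ Real.pi / 2 := by
        rw [not_le]; exact lt_of_lt_of_le hA3 (le_abs_self _)
      rw [hA, Complex.abs_arg_le_pi_div_two_iff] at h1
      simpa using h1
    refine ⟨Or.inl ⟨by omega, hz1, hw2⟩, Or.inl ?_⟩
    push_cast at hk2; linarith
  · left
    have hk3 : C = A + B := by push_cast at hk2; linarith
    refine ⟨?_, by linarith⟩
    rintro (⟨h1, h2, h3⟩ | ⟨h1, h2, h3⟩)
    · have hAp : A = Real.pi := by
        rw [hA, Complex.arg_eq_pi_iff]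
        simp only [cx_re, cx_im, h1]
        exact ⟨by exact_mod_cast h2, by simp⟩
      rw [← himw, ← Complex.arg_neg_iff] at h3
      have : C < 0 := h3
      linarith
    · have hCp : C = Real.pi := by
        rw [hC, Complex.arg_eq_pi_iff]
        simp only [cx_re, cx_im, h1]
        exact ⟨by exact_mod_cast h2, by simp⟩
      rw [← himz, ← Complex.arg_neg_iff] at h3
      have : A < 0 := h3
      linarith
  · right
    have hA3 : A < 0 := by push_cast at hk2; linarith
    have hC3 : Real.pi / 2 < C := by push_cast at hk2; linarith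
    have hz2 : z.2 < 0 := by rw [← himz, ← Complex.arg_neg_iff]; exact hA3
    have hw2 : 0 ≤ w.2 := by
      by_contra h
      push Not at h
      rw [← himw, ← Complex.arg_neg_iff] at h
      linarith
    have hw1' : w.1 < 0 := by
      have h1 : ¬ |C| ≤ Real.pi / 2 := by
        rw [not_le]; exact lt_of_lt_of_le hC3 (le_abs_self _)
      rw [hC, Complex.abs_arg_le_pi_div_two_iff] at h1
      simpa using h1
    refine ⟨Or.inr ⟨by omega, hw1', hz2⟩, Or.inr ?_⟩
    push_cast at hk2; linarith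

lemma dl_half {R M : ℝ} (hR : 1 ≤ R) : dl (qa (1 / 2)) (VV R M) = dl qs (VV R M) := by
  apply dl_gauge (VV R M) (fun z => Complex.exp ((Complex.arg (cx z) / 2 : ℝ) * Complex.I))
  · intro z _; exact Complex.exp_ne_zero _
  · intro z hz w hw hzw
    rw [mem_VV] at hz hw
    have h := arg_cases hzw (by linarith [hz.1]) (by linarith [hw.1])
    rw [qa, ph, q0, ← Complex.exp_neg]
    unfold qs
    have hmul : ∀ c : ℂ, Complex.exp (-(((Complex.arg (cx z) / 2 : ℝ) : ℂ) * Complex.I)) * c *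
        Complex.exp ((Complex.arg (cx w) / 2 : ℝ) * Complex.I) =
        c * Complex.exp (((Complex.arg (cx w) - Complex.arg (cx z)) / 2 : ℝ) * Complex.I) := by
      intro c
      rw [mul_comm _ c, mul_assoc, ← Complex.exp_add]
      congr 2
      push_cast; ring
    rw [hmul]
    rcases h with ⟨h1, h2⟩ | ⟨h1, h2⟩
    · rw [if_neg h1, h2]
      congr 3
      push_cast; ring
    · rw [if_pos h1]
      have hm : ∀ s : ℝ, s = Real.pi ∨ s = -Real.pi →
          Complex.exp (((Complex.arg (cx w) - Complex.arg (cx z)) / 2 + s : ℝ) * Complex.I) =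
          - Complex.exp (((Complex.arg (cx w) - Complex.arg (cx z)) / 2 : ℝ) * Complex.I) := by
        intro s hs
        rw [Complex.ofReal_add, add_mul, Complex.exp_add]
        have : Complex.exp ((s : ℂ) * Complex.I) = -1 := by
          rcases hs with rfl | rfl
          · exact Complex.exp_pi_mul_I
          · push_cast
            rw [neg_mul, Complex.exp_neg, Complex.exp_pi_mul_I]; norm_num
        rw [this]; ring
      rcases h2 with h2 | h2
      · rw [h2]
        have e : (1 / 2 * (Complex.arg (cx w) - Complex.arg (cx z) + 2 * Real.pi) : ℝ) =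
            (Complex.arg (cx w) - Complex.arg (cx z)) / 2 + Real.pi := by ring
        rw [e, hm _ (Or.inl rfl)]
        ring
      · rw [h2]
        have e : (1 / 2 * (Complex.arg (cx w) - Complex.arg (cx z) - 2 * Real.pi) : ℝ) =
            (Complex.arg (cx w) - Complex.arg (cx z)) / 2 + (-Real.pi) := by ring
        rw [e, hm _ (Or.inr rfl)]
        ring

end Pool.Agent.H96.LE
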