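import Pool.Agent.H96.LE.Top2

/-!
# Rectangle crossing estimates and the loop lemma
-/

namespace Pool.Agent.H96.LE

open Finset

/-- an explicit discrete harmonic function on a rectangle -/
theorem rect_fun (w h : ℤ) (hw : 1 ≤ w) (hh : 1 ≤ h) : ∃ f : ℤ → ℤ → ℝ,
    (∀ x y, f (x + 1) y + f (x - 1) y + f x (y + 1) + f x (y - 1) = 4 * f x y) ∧
    (∀ y, f 0 y = 0) ∧ (∀ y, f w y = 0) ∧ (∀ x, f x 0 = 0) ∧ (∀ x, f x h ≤ 1) ∧
    (∀ x y, 0 ≤ x → x ≤ w → 0 ≤ y → y ≤ h →
      Real.sin (Real.pi * x / w) * ((y / h) * Real.exp (-(Real.pi * h / w))) ≤ f x y) := by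
  have hwR : (1 : ℝ) ≤ w := by exact_mod_cast hw
  have hhR : (1 : ℝ) ≤ h := by exact_mod_cast hh
  have hpi := Real.pi_pos
  set c : ℝ := Real.pi / w with hc
  have hc0 : 0 < c := by positivity
  have hcpi : c ≤ Real.pi := by rw [hc, div_le_iff₀ (by linarith)]; nlinarith
  have hcos : Real.cos c < 1 := by
    have := Real.cos_lt_cos_of_nonneg_of_le_pi le_rfl hcpi hc0
    rwa [Real.cos_zero] at this
  set β : ℝ := Real.arcosh (2 - Real.cos c) with hβ
  have h1 : (1 : ℝ) ≤ 2 - Real.cos c := by linarith [Real.cos_le_one c]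
  have hβcosh : Real.cosh β = 2 - Real.cos c := Real.cosh_arcosh h1
  have hβ0 : 0 < β := by
    rcases (Real.arcosh_nonneg h1).lt_or_eq with h | h
    · exact h
    · exfalso
      rw [← hβ] at h
      rw [← h, Real.cosh_zero] at hβcosh
      linarith
  have hβc : β ≤ c := by
    have e1 : 1 + β ^ 2 / 2 ≤ Real.cosh β := by
      have e2 : β / 2 ≤ Real.sinh (β / 2) := Real.self_le_sinh_iff.2 (by positivity)
      have e3 := Real.cosh_two_mul (β / 2)
      have e4 := Real.cosh_sq (β / 2)
      have e5 : 2 * (β / 2) = β := by ring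
      rw [e5] at e3
      have : 0 < β / 2 := by positivity
      nlinarith
    have e6 := Real.one_sub_sq_div_two_le_cos (x := c)
    have : β ^ 2 ≤ c ^ 2 := by linarith
    exact abs_le_of_sq_le_sq' this hc0.le |>.2
  have hS : 0 < Real.sinh (β * h) := Real.sinh_pos_iff.2 (by positivity)
  refine ⟨fun x y => Real.sin (c * x) * (Real.sinh (β * y) / Real.sinh (β * h)), ?_, ?_, ?_, ?_, ?_, ?_⟩
  · intro x y
    push_cast
    have e1 : Real.sin (c * (x + 1)) + Real.sin (c * (x - 1)) = 2 * Real.cos c * Real.sin (c * x) := by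
      rw [mul_add, mul_sub, mul_one, Real.sin_add, Real.sin_sub]; ring
    have e2 : Real.sinh (β * (y + 1)) + Real.sinh (β * (y - 1)) =
        2 * Real.cosh β * Real.sinh (β * y) := by
      rw [mul_add, mul_sub, mul_one, Real.sinh_add, Real.sinh_sub]; ring
    have e3 : Real.sin (c * (x + 1)) * (Real.sinh (β * y) / Real.sinh (β * h)) +
        Real.sin (c * (x - 1)) * (Real.sinh (β * y) / Real.sinh (β * h)) +
        Real.sin (c * x) * (Real.sinh (β * (y + 1)) / Real.sinh (β * h)) +
        Real.sin (c * x) * (Real.sinh (β * (y - 1)) / Real.sinh (β * h)) =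
        (Real.sin (c * (x + 1)) + Real.sin (c * (x - 1))) * (Real.sinh (β * y) / Real.sinh (β * h)) +
        Real.sin (c * x) * ((Real.sinh (β * (y + 1)) + Real.sinh (β * (y - 1))) /
          Real.sinh (β * h)) := by ring
    rw [e3, e1, e2, hβcosh]
    ring
  · intro y; simp
  · intro y
    have : c * w = Real.pi := by rw [hc]; field_simp
    simp [this]
  · intro x; simp
  · intro x
    show Real.sin (c * x) * (Real.sinh (β * h) / Real.sinh (β * h)) ≤ 1
    rw [div_self hS.ne', mul_one]
    exact Real.sin_le_one _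
  · intro x y hx0 hxw hy0 hyh
    have hx0' : (0 : ℝ) ≤ x := by exact_mod_cast hx0
    have hxw' : (x : ℝ) ≤ w := by exact_mod_cast hxw
    have hy0' : (0 : ℝ) ≤ y := by exact_mod_cast hy0
    have hs : Real.pi * x / w = c * x := by rw [hc]; ring
    rw [hs]
    apply mul_le_mul_of_nonneg_left
    · rw [le_div_iff₀ hS]
      have e1 : β * y ≤ Real.sinh (β * y) := Real.self_le_sinh_iff.2 (by positivity)
      have e2 : Real.sinh (β * h) ≤ (β * h) * Real.exp (β * h) := by
        have k0 : 0 < Real.exp (β * h) := Real.exp_pos _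
        have k2 : Real.exp (-(β * h)) = Real.exp (β * h) * Real.exp (-(2 * (β * h))) := by
          rw [← Real.exp_add]; congr 1; ring
        have k3 : 1 - 2 * (β * h) ≤ Real.exp (-(2 * (β * h))) := by
          have := Real.add_one_le_exp (-(2 * (β * h)))
          linarith
        rw [Real.sinh_eq, k2]
        nlinarith
      have e3 : Real.exp (-(Real.pi * h / w)) ≤ Real.exp (-(β * h)) := by
        rw [Real.exp_le_exp]
        have : Real.pi * h / w = c * h := by rw [hc]; ring
        rw [this]
        nlinarith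
      calc (y : ℝ) / h * Real.exp (-(Real.pi * h / w)) * Real.sinh (β * h)
          ≤ (y : ℝ) / h * Real.exp (-(β * h)) * ((β * h) * Real.exp (β * h)) := by
            gcongr
        _ = (y / h * (β * h)) * (Real.exp (-(β * h)) * Real.exp (β * h)) := by ring
        _ = β * y := by
            rw [← Real.exp_add]
            simp only [neg_add_cancel, Real.exp_zero, mul_one]
            field_simp
        _ ≤ Real.sinh (β * y) := e1
    · apply Real.sin_nonneg_of_nonneg_of_le_pi (by positivity)
      calc c * x ≤ c * w := by gcongr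
        _ = Real.pi := by rw [hc]; field_simp

/-- open rectangle -/
noncomputable def rct (X0 X1 Y0 Y1 : ℤ) : Finset Z2 := (Ioo X0 X1) ×ˢ (Ioo Y0 Y1)

lemma mem_rct {X0 X1 Y0 Y1 : ℤ} {z : Z2} :
    z ∈ rct X0 X1 Y0 Y1 ↔ (X0 < z.1 ∧ z.1 < X1) ∧ (Y0 < z.2 ∧ z.2 < Y1) := by
  simp [rct]

/-- general rectangle estimate: exit through the top -/
theorem rect_est {X0 X1 Y0 Y1 : ℤ} (hX : X0 < X1) (hY : Y0 < Y1) (D : Finset Z2)
    (hD : D ⊆ rct X0 X1 Y0 Y1) (u : Z2 → ℝ) (m : ℝ) (hm : 0 ≤ m)
    (hsup : ∀ z ∈ D, av u z ≤ u z)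
    (hb : ∀ z ∈ D, ∀ w ∈ nb z, w ∉ D → m ≤ u w ∨ (0 ≤ u w ∧ (w.1 = X0 ∨ w.1 = X1 ∨ w.2 = Y0))) :
    ∀ z ∈ D, m * (Real.sin (Real.pi * (z.1 - X0) / (X1 - X0)) * (((z.2 - Y0) / (Y1 - Y0)) *
      Real.exp (-(Real.pi * (Y1 - Y0) / (X1 - X0))))) ≤ u z := by
  obtain ⟨f, f1, f2, f3, f4, f5, f6⟩ := rect_fun (X1 - X0) (Y1 - Y0) (by omega) (by omega)
  -- bound f ≤ 1 inside
  have hharm : ∀ z : Z2, av (fun w => f (w.1 - X0) (w.2 - Y0)) z = f (z.1 - X0) (z.2 - Y0) := by
    intro z
    rw [av_eq]
    have := f1 (z.1 - X0) (z.2 - Y0)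
    have e1 : z.1 + 1 - X0 = z.1 - X0 + 1 := by ring
    have e2 : z.1 - 1 - X0 = z.1 - X0 - 1 := by ring
    have e3 : z.2 + 1 - Y0 = z.2 - Y0 + 1 := by ring
    have e4 : z.2 - 1 - Y0 = z.2 - Y0 - 1 := by ring
    simp only [e1, e2, e3, e4]
    linarith
  have hle1 : ∀ z ∈ rct X0 X1 Y0 Y1, f (z.1 - X0) (z.2 - Y0) ≤ 1 := by
    apply max_prin (rct X0 X1 Y0 Y1) (fun z => f (z.1 - X0) (z.2 - Y0)) 1
    · intro z _
      exact (hharm z).ge
    · intro z hz w hw hwD
      rw [mem_rct] at hz
      have : w.1 = X0 ∨ w.1 = X1 ∨ w.2 = Y0 ∨ w.2 = Y1 := by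
        rw [mem_rct] at hwD
        rw [mem_nb] at hw
        rcases hw with h | h | h | h <;> rw [h] at hwD ⊢ <;> simp only at hwD ⊢ <;> omega
      rcases this with h | h | h | h
      · simp only [h, sub_self, f2]; norm_num
      · simp only [h, f3]; norm_num
      · simp only [h, sub_self, f4]; norm_num
      · simp only [h]; exact f5 _
  have hcmp := comparison D (fun z => m * f (z.1 - X0) (z.2 - Y0)) u
    (fun z hz => by
      rw [av_const_mul, hharm]) hsup (by
    intro z hz w hw hwD
    rcases hb z hz w hw hwD with h | ⟨h0, h⟩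
    · refine le_trans ?_ h
      have hzr := mem_rct.1 (hD hz)
      have hf : f (w.1 - X0) (w.2 - Y0) ≤ 1 := by
        by_cases hwr : w ∈ rct X0 X1 Y0 Y1
        · exact hle1 w hwr
        · have : w.1 = X0 ∨ w.1 = X1 ∨ w.2 = Y0 ∨ w.2 = Y1 := by
            rw [mem_rct] at hwr
            rw [mem_nb] at hw
            rcases hw with h | h | h | h <;> rw [h] at hwr ⊢ <;> simp only at hwr ⊢ <;> omega
          rcases this with h | h | h | h
          · simp only [h, sub_self, f2]; norm_num
          · simp only [h, f3]; norm_num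
          · simp only [h, sub_self, f4]; norm_num
          · simp only [h]; exact f5 _
      calc m * f (w.1 - X0) (w.2 - Y0) ≤ m * 1 := by gcongr
        _ = m := mul_one m
    · rcases h with h | h | h
      · simp only [h, sub_self, f2, mul_zero]; exact h0
      · simp only [h, f3, mul_zero]; exact h0
      · simp only [h, sub_self, f4, mul_zero]; exact h0)
  intro z hz
  refine le_trans ?_ (hcmp z hz)
  have hzr := mem_rct.1 (hD hz)
  apply mul_le_mul_of_nonneg_left _ hm
  have := f6 (z.1 - X0) (z.2 - Y0) (by omega) (by omega) (by omega) (by omega)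
  push_cast at this
  exact this

/-- lattice symmetries -/
def IsSym (φ : Z2 → Z2) : Prop := ∀ z, (nb z).image φ = nb (φ z) ∧ ∀ a b, φ a = φ b → a = b

lemma av_sym {φ : Z2 → Z2} (hφ : IsSym φ) (u : Z2 → ℝ) (z : Z2) :
    av (fun w => u (φ w)) z = av u (φ z) := by
  unfold av
  rw [← (hφ z).1, Finset.sum_image (fun a _ b _ h => (hφ z).2 a b h)]

lemma nb_sym {φ : Z2 → Z2} (hφ : IsSym φ) {z w : Z2} (h : w ∈ nb z) : φ w ∈ nb (φ z) := by
  rw [← (hφ z).1]
  exact Finset.mem_image_of_mem _ h

lemma Wk_sym {φ : Z2 → Z2} (hφ : IsSym φ) (t : List Z2) : ∀ a, Wk a t → Wk (φ a) (t.map φ) := by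
  induction t with
  | nil => intro a _; trivial
  | cons b t ih => intro a h; exact ⟨nb_sym hφ h.1, ih b h.2⟩

lemma en_map (φ : Z2 → Z2) (t : List Z2) : ∀ a, en (φ a) (t.map φ) = φ (en a t) := by
  induction t with
  | nil => intro a; rfl
  | cons b t ih => intro a; exact ih b

lemma sym_reflect (c : ℤ) : IsSym (fun z : Z2 => (c - z.1, z.2)) := by
  intro z
  constructor
  · ext w
    simp only [Finset.mem_image, mem_nb]
    rcases w with ⟨x, y⟩
    constructor
    · rintro ⟨v, hv, he⟩
      simp only [Prod.mk.injEq] at he ⊢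
      rcases hv with h | h | h | h <;> rw [h] at he <;> simp only at he <;> omega
    · intro h
      refine ⟨(c - x, y), ?_, by simp⟩
      simp only [Prod.ext_iff] at h ⊢
      omega
  · intro a b h
    simp only [Prod.mk.injEq] at h
    exact Prod.ext (by omega) h.2

lemma sym_swap : IsSym (fun z : Z2 => (z.2, z.1)) := by
  intro z
  constructor
  · ext w
    simp only [Finset.mem_image, mem_nb]
    rcases w with ⟨x, y⟩
    constructor
    · rintro ⟨v, hv, he⟩
      simp only [Prod.mk.injEq] at he ⊢
      rcases hv with h | h | h | h <;> rw [h] at he <;> simp only at he <;> omega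
    · intro h
      refine ⟨(y, x), ?_, by simp⟩
      simp only [Prod.ext_iff] at h ⊢
      omega
  · intro a b h
    simp only [Prod.mk.injEq] at h
    exact Prod.ext h.2 h.1

lemma sym_shift (z0 : Z2) : IsSym (fun z : Z2 => (z.1 + z0.1, z.2 + z0.2)) := by
  intro z
  constructor
  · ext w
    simp only [Finset.mem_image, mem_nb]
    rcases w with ⟨x, y⟩
    constructor
    · rintro ⟨v, hv, he⟩
      simp only [Prod.mk.injEq] at he ⊢
      rcases hv with h | h | h | h <;> rw [h] at he <;> simp only at he <;> omega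
    · intro h
      refine ⟨(x - z0.1, y - z0.2), ?_, by simp⟩
      simp only [Prod.ext_iff] at h ⊢
      omega
  · intro a b h
    simp only [Prod.mk.injEq] at h
    exact Prod.ext (by omega) (by omega)

lemma IsSym.comp {φ ψ : Z2 → Z2} (hφ : IsSym φ) (hψ : IsSym ψ) : IsSym (fun z => φ (ψ z)) := by
  intro z
  constructor
  · rw [← (hφ (ψ z)).1, ← (hψ z).1, Finset.image_image]
    rfl
  · intro a b h
    exact (hψ z).2 a b ((hφ z).2 _ _ h)

/-- constant of the loop lemma -/
noncomputable def cLL : ℝ := (1 / 2 * (1 / 7 * Real.exp (-Real.pi))) *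
  ((1 / 14 * Real.exp (-(7 * Real.pi))) * (1 / 20 * Real.exp (-(10 / 3 * Real.pi))))

lemma cLL_pos : 0 < cLL := by unfold cLL; positivity

/-- loop lemma, case of a path leaving through the left side -/
theorem LL_left (N : ℤ) (hN : 1 ≤ N) (u : Z2 → ℝ)
    (hpos : ∀ z : Z2, |z.1| ≤ 12 * N → |z.2| ≤ 12 * N → 0 ≤ u z)
    (hsup : ∀ z : Z2, |z.1| < 12 * N → |z.2| < 12 * N → av u z ≤ u z)
    (a : Z2) (t : List Z2) (hW : Wk a t) (ha : -(2 * N) ≤ a.1) (hex : (en a t).1 ≤ -(8 * N))
    (hy : ∀ v ∈ a :: t, -(8 * N) ≤ v.2 ∧ v.2 ≤ 8 * N)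
    (hΓ : ∀ v ∈ a :: t, 1 ≤ u v) :
    ∀ z : Z2, |z.1| ≤ 2 * N → |z.2| ≤ 2 * N → cLL ≤ u z := by
  have hpi := Real.pi_pos
  have hNR : (1 : ℝ) ≤ N := by exact_mod_cast hN
  -- step 1
  set c1 : ℝ := 1 / 20 * Real.exp (-(10 / 3 * Real.pi)) with hc1
  have hc1p : 0 < c1 := by positivity
  have hc1l : c1 ≤ 1 := by
    have : Real.exp (-(10 / 3 * Real.pi)) ≤ 1 := Real.exp_le_one_iff.2 (by linarith)
    linarith
  have step1 : ∀ y : ℤ, -(11 * N) < y → y < -(9 * N) → c1 ≤ u (-(5 * N), y) := by
    intro y hy1 hy2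
    classical
    let Rg := rct (-(8 * N)) (-(2 * N)) (-(12 * N)) (8 * N)
    let z : Z2 := (-(5 * N), y)
    let D := Rg.filter (fun w => ∃ s, Wk z s ∧ en z s = w ∧ ∀ v ∈ z :: s, v ∈ Rg ∧ v ∉ a :: t)
    have hzR : z ∈ Rg := by
      rw [mem_rct]; simp only [z]; omega
    have hzt : z ∉ a :: t := by
      intro h
      have := (hy z h).1
      simp only [z] at this
      omega
    have hzD : z ∈ D := by
      simp only [D, Finset.mem_filter]
      refine ⟨hzR, [], trivial, rfl, ?_⟩
      intro v hv
      simp only [List.mem_singleton] at hv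
      rw [hv]
      exact ⟨hzR, hzt⟩
    have h := rect_est (X0 := -(8 * N)) (X1 := -(2 * N)) (Y0 := -(12 * N)) (Y1 := 8 * N)
      (by omega) (by omega) D (Finset.filter_subset _ _) u 1 zero_le_one
      (fun v hv => by
        have := mem_rct.1 (Finset.mem_filter.1 hv).1
        apply hsup <;> rw [abs_lt] <;> omega)
      (by
        intro v hv w hw hwD
        obtain ⟨hvR, s, hs1, hs2, hs3⟩ := Finset.mem_filter.1 hv
        have hvR' := mem_rct.1 hvR
        by_cases hwt : w ∈ a :: t
        · left; exact hΓ w hwt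
        · right
          have hwR : w ∉ Rg := by
            intro hwR
            apply hwD
            simp only [D, Finset.mem_filter]
            refine ⟨hwR, s ++ [w], ?_, ?_, ?_⟩
            · rw [show Wk z (s ++ [w]) ↔ Wk z s ∧ Wk (en z s) [w] from ?_]
              · rw [hs2]; exact ⟨hs1, hw, trivial⟩
              · have : ∀ (s : List Z2) (a : Z2), Wk a (s ++ [w]) ↔ Wk a s ∧ Wk (en a s) [w] := by
                  intro s
                  induction s with
                  | nil => intro a; simp [Wk]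
                  | cons b s ih => intro a; simp [Wk, ih, and_assoc]
                exact this s z
            · rw [en_append]; rfl
            · intro x hx
              rw [← List.cons_append, List.mem_append] at hx
              rcases hx with hx | hx
              · exact hs3 x hx
              · simp only [List.mem_singleton] at hx
                rw [hx]; exact ⟨hwR, hwt⟩
          have hside : w.1 = -(8 * N) ∨ w.1 = -(2 * N) ∨ w.2 = -(12 * N) ∨ w.2 = 8 * N := by
            rw [mem_rct] at hwR
            rw [mem_nb] at hw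
            rcases hw with h | h | h | h <;> rw [h] at hwR ⊢ <;> simp only at hwR ⊢ <;> omega
          have hwb : |w.1| ≤ 12 * N ∧ |w.2| ≤ 12 * N := by
            rw [mem_nb] at hw
            rw [abs_le, abs_le]
            rcases hw with h | h | h | h <;> rw [h] <;> simp only <;> omega
          refine ⟨hpos w hwb.1 hwb.2, ?_⟩
          rcases hside with h | h | h | h
          · exact Or.inl h
          · exact Or.inr (Or.inl h)
          · exact Or.inr (Or.inr h)
          · exfalso
            -- the walk z -> w crosses the strip from bottom to top; reflect to use `cross_rect`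
            have hφ := sym_reflect 0
            have hWw : Wk z (s ++ [w]) := by
              have : ∀ (s : List Z2) (a : Z2), Wk a s → w ∈ nb (en a s) → Wk a (s ++ [w]) := by
                intro s
                induction s with
                | nil => intro a _ h; exact ⟨h, trivial⟩
                | cons b s ih => intro a h h'; exact ⟨h.1, ih b h.2 h'⟩
              exact this s z hs1 (by rw [hs2]; exact hw)
            have hcr := cross_rect (x0 := 2 * N) (x1 := 8 * N) (y0 := -(8 * N)) (y1 := 8 * N)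
              ((fun z : Z2 => (0 - z.1, z.2)) a) ((fun z : Z2 => (0 - z.1, z.2)) z)
              (t.map (fun z : Z2 => (0 - z.1, z.2))) ((s ++ [w]).map (fun z : Z2 => (0 - z.1, z.2)))
              (Wk_sym hφ t a hW) (Wk_sym hφ _ z hWw)
              (by
                intro v hv
                rw [← List.map_cons (f := fun z : Z2 => (0 - z.1, z.2))] at hv
                obtain ⟨v', hv', rfl⟩ := List.mem_map.1 hv
                exact hy v' hv')
              (by
                intro v hv
                rw [← List.map_cons (f := fun z : Z2 => (0 - z.1, z.2))] at hv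
                obtain ⟨v', hv', rfl⟩ := List.mem_map.1 hv
                rw [← List.cons_append, List.mem_append] at hv'
                rcases hv' with hv' | hv'
                · have := mem_rct.1 (hs3 v' hv').1
                  simp only; omega
                · simp only [List.mem_singleton] at hv'
                  rw [hv']
                  rw [mem_nb] at hw
                  simp only
                  rcases hw with h' | h' | h' | h' <;> rw [h'] at h ⊢ <;> simp only at h ⊢ <;> omega)
              (by simp only; omega) (by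
                have h9 := en_map (fun z : Z2 => (0 - z.1, z.2)) t a
                simp only at h9 ⊢
                rw [h9]; simp only; omega)
              (by simp only [z]; omega) (by
                have h9 := en_map (fun z : Z2 => (0 - z.1, z.2)) (s ++ [w]) z
                rw [en_append] at h9
                simp only [en_cons, en_nil] at h9 ⊢
                rw [h9]; simp only
                omega)
            obtain ⟨v, hv1, hv2⟩ := hcr
            rw [← List.map_cons (f := fun z : Z2 => (0 - z.1, z.2))] at hv1 hv2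
            obtain ⟨v1, hv1', rfl⟩ := List.mem_map.1 hv1
            obtain ⟨v2, hv2', he⟩ := List.mem_map.1 hv2
            have hvv : v2 = v1 := by
              simp only [Prod.mk.injEq] at he
              exact Prod.ext (by omega) he.2
            rw [hvv, ← List.cons_append, List.mem_append] at hv2'
            rcases hv2' with hv2' | hv2'
            · exact (hs3 v1 hv2').2 hv1'
            · simp only [List.mem_singleton] at hv2'
              rw [hv2'] at hv1'
              exact hwt hv1') z hzD
    refine le_trans ?_ h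
    simp only [z]
    push_cast
    have e1 : Real.pi * (-(5 * (N : ℝ)) - -(8 * N)) / (-(2 * N) - -(8 * N)) = Real.pi / 2 := by
      field_simp; ring
    have e2 : Real.pi * (8 * (N : ℝ) - -(12 * N)) / (-(2 * N) - -(8 * N)) = 10 / 3 * Real.pi := by
      field_simp; ring
    rw [e1, e2, Real.sin_pi_div_two, one_mul, one_mul, hc1]
    apply mul_le_mul_of_nonneg_right _ (Real.exp_pos _).le
    rw [le_div_iff₀ (by linarith)]
    have : -(11 * (N : ℝ)) < y := by exact_mod_cast hy1
    linarith
  -- step 2
  set c2 : ℝ := 1 / 14 * Real.exp (-(7 * Real.pi)) with hc2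
  have hc2p : 0 < c2 := by positivity
  have hc2l : c2 ≤ 1 := by
    have : Real.exp (-(7 * Real.pi)) ≤ 1 := Real.exp_le_one_iff.2 (by linarith)
    linarith
  have step2 : ∀ x : ℤ, -(8 * N) ≤ x → x ≤ 8 * N → c2 * c1 ≤ u (x, -(10 * N)) := by
    intro x hx1 hx2
    -- use the symmetric coordinates `(y, x)` : top side is `x = -5N`
    rcases lt_trichotomy x (-(5 * N)) with hlt | heq | hgt
    · -- move right : u'(p, q) = u (q, p), rectangle p in (-11N, -9N), q in (-12 N, -5N)
      have h := rect_est (X0 := -(11 * N)) (X1 := -(9 * N)) (Y0 := -(12 * N)) (Y1 := -(5 * N))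
        (by omega) (by omega) (rct (-(11 * N)) (-(9 * N)) (-(12 * N)) (-(5 * N))) le_rfl
        (fun z => u (z.2, z.1)) c1 hc1p.le (fun v hv => by
          rw [av_sym sym_swap]
          have := mem_rct.1 hv
          apply hsup <;> simp only <;> rw [abs_lt] <;> omega) (by
          intro v hv w hw hwD
          have hv' := mem_rct.1 hv
          have hside : w.1 = -(11 * N) ∨ w.1 = -(9 * N) ∨ w.2 = -(12 * N) ∨
              (w.2 = -(5 * N) ∧ -(11 * N) < w.1 ∧ w.1 < -(9 * N)) := by
            rw [mem_rct] at hwD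
            rw [mem_nb] at hw
            rcases hw with h | h | h | h <;> rw [h] at hwD ⊢ <;> simp only at hwD ⊢ <;> omega
          have hwb : |w.1| ≤ 12 * N ∧ |w.2| ≤ 12 * N := by
            rw [mem_nb] at hw
            rw [abs_le, abs_le]
            rcases hw with h | h | h | h <;> rw [h] <;> simp only <;> omega
          rcases hside with h | h | h | ⟨h, h', h''⟩
          · exact Or.inr ⟨hpos _ hwb.2 hwb.1, Or.inl h⟩
          · exact Or.inr ⟨hpos _ hwb.2 hwb.1, Or.inr (Or.inl h)⟩
          · exact Or.inr ⟨hpos _ hwb.2 hwb.1, Or.inr (Or.inr h)⟩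
          · left
            rw [h]
            exact step1 w.1 h' h'') (-(10 * N), x) (by rw [mem_rct]; simp only; omega)
      refine le_trans ?_ h
      push_cast
      have e1 : Real.pi * (-(10 * (N : ℝ)) - -(11 * N)) / (-(9 * N) - -(11 * N)) = Real.pi / 2 := by
        field_simp; ring
      have e2 : Real.pi * (-(5 * (N : ℝ)) - -(12 * N)) / (-(9 * N) - -(11 * N)) = 7 / 2 * Real.pi := by
        field_simp; ring
      rw [e1, e2, Real.sin_pi_div_two, one_mul, mul_comm c2 c1]
      apply mul_le_mul_of_nonneg_left _ hc1p.le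
      rw [hc2]
      apply mul_le_mul _ (Real.exp_le_exp.2 (by linarith)) (Real.exp_pos _).le _
      · rw [le_div_iff₀ (by linarith)]
        have : -(8 * (N : ℝ)) ≤ x := by exact_mod_cast hx1
        linarith
      · apply div_nonneg
        · have : -(8 * (N : ℝ)) ≤ x := by exact_mod_cast hx1
          linarith
        · linarith
    · have h1 := step1 (-(10 * N)) (by omega) (by omega)
      rw [heq]
      nlinarith
    · -- move left: u'(p, q) = u (-q, p), rectangle p in (-11N,-9N), q in (-9N, 5N)
      have hsym : IsSym (fun z : Z2 => (0 - z.2, z.1)) := by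
        have := (sym_reflect 0).comp sym_swap
        exact this
      have h := rect_est (X0 := -(11 * N)) (X1 := -(9 * N)) (Y0 := -(9 * N)) (Y1 := 5 * N)
        (by omega) (by omega) (rct (-(11 * N)) (-(9 * N)) (-(9 * N)) (5 * N)) le_rfl
        (fun z => u (0 - z.2, z.1)) c1 hc1p.le (fun v hv => by
          rw [av_sym hsym]
          have := mem_rct.1 hv
          apply hsup <;> simp only <;> rw [abs_lt] <;> omega) (by
          intro v hv w hw hwD
          have hv' := mem_rct.1 hv
          have hside : w.1 = -(11 * N) ∨ w.1 = -(9 * N) ∨ w.2 = -(9 * N) ∨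
              (w.2 = (5 * N) ∧ -(11 * N) < w.1 ∧ w.1 < -(9 * N)) := by
            rw [mem_rct] at hwD
            rw [mem_nb] at hw
            rcases hw with h | h | h | h <;> rw [h] at hwD ⊢ <;> simp only at hwD ⊢ <;> omega
          have hwb : |w.1| ≤ 12 * N ∧ |0 - w.2| ≤ 12 * N := by
            rw [mem_nb] at hw
            rw [abs_le, abs_le]
            rcases hw with h | h | h | h <;> rw [h] <;> simp only <;> omega
          rcases hside with h | h | h | ⟨h, h', h''⟩
          · exact Or.inr ⟨hpos _ hwb.2 hwb.1, Or.inl h⟩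
          · exact Or.inr ⟨hpos _ hwb.2 hwb.1, Or.inr (Or.inl h)⟩
          · exact Or.inr ⟨hpos _ hwb.2 hwb.1, Or.inr (Or.inr h)⟩
          · left
            rw [h]
            have := step1 w.1 h' h''
            simpa using this) (-(10 * N), -x) (by rw [mem_rct]; simp only; omega)
      simp only [sub_neg_eq_add, zero_add] at h
      refine le_trans ?_ h
      push_cast
      have e1 : Real.pi * (-(10 * (N : ℝ)) - -(11 * N)) / (-(9 * N) - -(11 * N)) = Real.pi / 2 := by
        field_simp; ring
      have e2 : Real.pi * ((5 * (N : ℝ)) - -(9 * N)) / (-(9 * N) - -(11 * N)) = 7 * Real.pi := by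
        field_simp; ring
      rw [e1, e2, Real.sin_pi_div_two, one_mul, mul_comm c2 c1]
      apply mul_le_mul_of_nonneg_left _ hc1p.le
      rw [hc2]
      apply mul_le_mul_of_nonneg_right _ (Real.exp_pos _).le
      rw [le_div_iff₀ (by linarith)]
      have : (x : ℝ) ≤ 8 * N := by exact_mod_cast hx2
      linarith
  -- step 3
  intro z hz1 hz2
  have hz1' := abs_le.1 hz1
  have hz2' := abs_le.1 hz2
  have hsym : IsSym (fun z : Z2 => (z.1, 0 - z.2)) := by
    have := (sym_swap.comp (sym_reflect 0)).comp sym_swap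
    exact this
  have h := rect_est (X0 := -(8 * N)) (X1 := 8 * N) (Y0 := -(4 * N)) (Y1 := 10 * N)
    (by omega) (by omega) (rct (-(8 * N)) (8 * N) (-(4 * N)) (10 * N)) le_rfl
    (fun z => u (z.1, 0 - z.2)) (c2 * c1) (by positivity) (fun v hv => by
      rw [av_sym hsym]
      have := mem_rct.1 hv
      apply hsup <;> simp only <;> rw [abs_lt] <;> omega) (by
      intro v hv w hw hwD
      have hv' := mem_rct.1 hv
      have hside : w.1 = -(8 * N) ∨ w.1 = (8 * N) ∨ w.2 = -(4 * N) ∨
          (w.2 = (10 * N) ∧ -(8 * N) < w.1 ∧ w.1 < (8 * N)) := by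
        rw [mem_rct] at hwD
        rw [mem_nb] at hw
        rcases hw with h | h | h | h <;> rw [h] at hwD ⊢ <;> simp only at hwD ⊢ <;> omega
      have hwb : |w.1| ≤ 12 * N ∧ |0 - w.2| ≤ 12 * N := by
        rw [mem_nb] at hw
        rw [abs_le, abs_le]
        rcases hw with h | h | h | h <;> rw [h] <;> simp only <;> omega
      rcases hside with h | h | h | ⟨h, h', h''⟩
      · exact Or.inr ⟨hpos _ hwb.1 hwb.2, Or.inl h⟩
      · exact Or.inr ⟨hpos _ hwb.1 hwb.2, Or.inr (Or.inl h)⟩
      · exact Or.inr ⟨hpos _ hwb.1 hwb.2, Or.inr (Or.inr h)⟩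
      · left
        rw [h]
        have := step2 w.1 (by omega) (by omega)
        simpa using this) (z.1, -z.2) (by rw [mem_rct]; simp only; omega)
  simp only [sub_neg_eq_add, zero_add] at h
  refine le_trans ?_ h
  push_cast
  have hzR1 : -(2 * (N : ℝ)) ≤ z.1 := by exact_mod_cast hz1'.1
  have hzR1' : (z.1 : ℝ) ≤ 2 * N := by exact_mod_cast hz1'.2
  have hzR2 : (z.2 : ℝ) ≤ 2 * N := by exact_mod_cast hz2'.2
  have e2 : Real.pi * (10 * (N : ℝ) - -(4 * N)) / (8 * N - -(8 * N)) = 7 / 8 * Real.pi := by
    field_simp; ring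
  have hsin : 1 / 2 ≤ Real.sin (Real.pi * (z.1 - -(8 * (N : ℝ))) / (8 * N - -(8 * N))) := by
    set θ := Real.pi * (z.1 - -(8 * (N : ℝ))) / (8 * N - -(8 * N)) with hθ
    have h16 : (8 * (N : ℝ) - -(8 * N)) = 16 * N := by ring
    have hNpos : (0 : ℝ) < 16 * N := by linarith
    have t1 : Real.pi * (6 / 16) ≤ θ := by
      rw [hθ, h16, le_div_iff₀ hNpos]
      nlinarith
    have t2 : θ ≤ Real.pi * (10 / 16) := by
      rw [hθ, h16, div_le_iff₀ hNpos]
      nlinarith
    have : Real.sin θ = Real.cos (θ - Real.pi / 2) := by rw [Real.cos_sub_pi_div_two]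
    rw [this]
    have h3 : |θ - Real.pi / 2| ≤ Real.pi / 3 := by
      rw [abs_le]; constructor <;> nlinarith
    rw [← Real.cos_abs, ← Real.cos_pi_div_three]
    exact Real.cos_le_cos_of_nonneg_of_le_pi (abs_nonneg _) (by linarith) h3
  rw [e2]
  have hy2 : 1 / 7 ≤ (-(z.2 : ℝ) - -(4 * N)) / (10 * N - -(4 * N)) := by
    rw [le_div_iff₀ (by linarith)]
    linarith
  have hexp : Real.exp (-Real.pi) ≤ Real.exp (-(7 / 8 * Real.pi)) :=
    Real.exp_le_exp.2 (by linarith)
  unfold cLL
  rw [mul_comm (1 / 2 * (1 / 7 * Real.exp (-Real.pi)))]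
  gcongr

end Pool.Agent.H96.LE
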