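import Pool.Agent.H96.LE.Loop1
import Pool.Agent.H96.LE.Rect

/-!
# The determinant ratio as a determinant of the crossing matrix
-/

namespace Pool.Agent.H96.LE

open Finset

lemma sum_sym {E : Type*} [AddCommMonoid E] {φ : Z2 → Z2} (hφ : IsSym φ) (f : Z2 → E) (z : Z2) :
    ∑ w ∈ nb z, f (φ w) = ∑ w ∈ nb (φ z), f w := by
  rw [← (hφ z).1, Finset.sum_image (fun a _ b _ h => (hφ z).2 a b h)]

/-- symmetry of the hitting kernel -/
lemma H_sym {φ : Z2 → Z2} (hφ : IsSym φ) {D D' O O' : Finset Z2} (hDO : Disjoint D O)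
    (hDO' : Disjoint D' O') (h1 : ∀ z, φ z ∈ D' ↔ z ∈ D) (h2 : ∀ z, φ z ∈ O' ↔ z ∈ O) (z y : Z2) :
    H q0 D' O' (φ z) (φ y) = H q0 D O z y := by
  have hout : ∀ v, v ∉ D → H q0 D' O' (φ v) (φ y) = H q0 D O v y := by
    intro v hv
    have hv' : φ v ∉ D' := fun h => hv ((h1 v).1 h)
    by_cases hvO : v ∈ O
    · rw [H_out hv hvO, H_out hv' ((h2 v).2 hvO)]
      have : φ v = φ y ↔ v = y := ⟨(hφ v).2 v y, fun h => by rw [h]⟩
      simp only [this]
    · rw [H_none hv hvO, H_none hv' (fun h => hvO ((h2 v).1 h))]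
  by_cases hz : z ∈ D
  · refine uniq GW_q0 D (fun v => H q0 D' O' (φ v) (φ y)) (fun v => H q0 D O v y) ?_ ?_ ?_ z hz
    · intro v hv
      show H q0 D' O' (φ v) (φ y) = _
      rw [H_step GW_q0 hDO' ((h1 v).2 hv)]
      exact (sum_sym hφ (fun b => (1 / 4 : ℂ) * H q0 D' O' b (φ y)) v).symm
    · intro v hv
      exact H_step GW_q0 hDO hv y
    · intro v _ w _ hw
      exact hout w hw
  · exact hout z hz

lemma sym_conj : IsSym (fun z : Z2 => (z.1, 0 - z.2)) :=
  (sym_swap.comp (sym_reflect 0)).comp sym_swap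

lemma sym_rot : IsSym (fun z : Z2 => (0 - z.1, 0 - z.2)) :=
  (sym_reflect 0).comp sym_conj

lemma norm_cx_conj (z : Z2) : ‖cx (z.1, 0 - z.2)‖ = ‖cx z‖ := by
  have h1 : ‖cx (z.1, 0 - z.2)‖ ^ 2 = ‖cx z‖ ^ 2 := by
    rw [norm_sq_cx, norm_sq_cx]; push_cast; ring
  exact (pow_left_inj₀ (norm_nonneg _) (norm_nonneg _) (by norm_num)).1 h1

lemma norm_cx_neg (z : Z2) : ‖cx (0 - z.1, 0 - z.2)‖ = ‖cx z‖ := by
  have h1 : ‖cx (0 - z.1, 0 - z.2)‖ ^ 2 = ‖cx z‖ ^ 2 := by
    rw [norm_sq_cx, norm_sq_cx]; push_cast; ring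
  exact (pow_left_inj₀ (norm_nonneg _) (norm_nonneg _) (by norm_num)).1 h1

variable {R M : ℝ}

/-- side -/
noncomputable def sg (z : Z2) : ℂ := if z.2 < 0 then -1 else 1

lemma H_qs (hR : 0 ≤ R) (y : Z2) (hy : y ∈ Xm R M) (z : Z2) :
    H qs (V0 R M ∪ Xp R M) (Xm R M) z y = sg z * H q0 (V0 R M) (Xm R M) z y := by
  have hd : Disjoint (V0 R M ∪ Xp R M) (Xm R M) :=
    Finset.disjoint_union_left.2 ⟨disj_V0_Xm R M, disj_Xp_Xm hR⟩
  have hconj : ∀ v : Z2, H q0 (V0 R M) (Xm R M) (v.1, 0 - v.2) y = H q0 (V0 R M) (Xm R M) v y := by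
    intro v
    have h := H_sym sym_conj (disj_V0_Xm R M) (disj_V0_Xm R M) (fun z => by
      rw [mem_V0 hR, mem_V0 hR, mem_VV, mem_VV, norm_cx_conj]; simp) (fun z => by
      rw [mem_Xm hR, mem_Xm hR]; simp) v y
    have hy' : ((y.1, 0 - y.2) : Z2) = y := by
      rw [mem_Xm hR] at hy
      exact Prod.ext rfl (by simp [hy.1])
    simp only [hy'] at h
    exact h
  have hout : ∀ v, v ∉ V0 R M ∪ Xp R M → H qs (V0 R M ∪ Xp R M) (Xm R M) v y =
      sg v * H q0 (V0 R M) (Xm R M) v y := by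
    intro v hv
    have hv0 : v ∉ V0 R M := fun h => hv (Finset.mem_union_left _ h)
    by_cases hvX : v ∈ Xm R M
    · rw [H_out hv hvX, H_out hv0 hvX]
      have : sg v = 1 := by
        unfold sg; rw [if_neg]; rw [(mem_Xm hR).1 hvX |>.1]; simp
      rw [this, one_mul]
    · rw [H_none hv hvX, H_none hv0 hvX, mul_zero]
  by_cases hz : z ∈ V0 R M ∪ Xp R M
  · refine uniq GW_qs (V0 R M ∪ Xp R M) (fun v => H qs (V0 R M ∪ Xp R M) (Xm R M) v y)
      (fun v => sg v * H q0 (V0 R M) (Xm R M) v y) ?_ ?_ (fun v _ w _ hw => hout w hw) z hz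
    · intro v hv; exact H_step GW_qs hd hv y
    · intro v hv
      rcases Finset.mem_union.1 hv with hv0 | hvp
      · have hv2 := V0_im hR hv0
        show sg v * H q0 (V0 R M) (Xm R M) v y = _
        rw [H_step GW_q0 (disj_V0_Xm R M) hv0, Finset.mul_sum]
        apply Finset.sum_congr rfl
        intro w hw
        rcases lt_or_gt_of_ne hv2 with h1 | h1
        · have hsv : sg v = -1 := by unfold sg; rw [if_pos h1]
          have hw2 : w.2 ≤ 0 := by
            rw [mem_nb] at hw
            rcases hw with h | h | h | h <;> rw [h] <;> simp only <;> omega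
          rcases hw2.lt_or_eq with h2 | h2
          · have hsw : sg w = -1 := by unfold sg; rw [if_pos h2]
            have hq : qs v w = 1 / 4 := by
              unfold qs
              rw [if_neg]
              unfold cross; omega
            rw [hsv, hsw, hq, q0]; ring
          · have hsw : sg w = 1 := by unfold sg; rw [if_neg (by omega)]
            by_cases h3 : w.1 < 0
            · have hq : qs v w = -(1 / 4) := by
                unfold qs
                rw [if_pos]
                unfold cross; omega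
              rw [hsv, hsw, hq, q0]; ring
            · have : H q0 (V0 R M) (Xm R M) w y = 0 := by
                apply H_none
                · intro h; exact V0_im hR h h2
                · rw [mem_Xm hR]
                  rintro ⟨_, h4, _⟩
                  have : (0 : ℝ) ≤ w.1 := by exact_mod_cast not_lt.1 h3
                  linarith
              rw [this]; ring
        · have hsv : sg v = 1 := by unfold sg; rw [if_neg (by omega)]
          have hw2 : 0 ≤ w.2 := by
            rw [mem_nb] at hw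
            rcases hw with h | h | h | h <;> rw [h] <;> simp only <;> omega
          have hsw : sg w = 1 := by unfold sg; rw [if_neg (by omega)]
          have hq : qs v w = 1 / 4 := by
            unfold qs
            rw [if_neg]
            unfold cross; omega
          rw [hsv, hsw, hq, q0]; ring
      · have hvp' := (mem_Xp hR).1 hvp
        have hv1 : 0 < v.1 := by
          have : (0 : ℝ) < v.1 := by linarith [hvp'.2.1]
          exact_mod_cast this
        have hz0 : H q0 (V0 R M) (Xm R M) v y = 0 :=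
          H_none (fun h => V0_im hR h hvp'.1) (fun h => Finset.disjoint_left.1 (disj_Xp_Xm hR) hvp h) _
        show sg v * H q0 (V0 R M) (Xm R M) v y = _
        rw [hz0, mul_zero, sum_nb]
        have h0 : ∀ c : ℤ, 0 ≤ c → H q0 (V0 R M) (Xm R M) (c, v.2) y = 0 := by
          intro c hc
          apply H_none
          · intro h; exact V0_im hR h hvp'.1
          · rw [mem_Xm hR]
            rintro ⟨_, h4, _⟩
            have : (0 : ℝ) ≤ c := by exact_mod_cast hc
            simp only at h4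
            linarith
        rw [h0 (v.1 + 1) (by omega), h0 (v.1 - 1) (by omega)]
        have h1 : sg (v.1, v.2 + 1) = 1 := by
          unfold sg; rw [if_neg]; simp only; omega
        have h2 : sg (v.1, v.2 - 1) = -1 := by
          unfold sg; rw [if_pos]; simp only; omega
        have h3 : qs v (v.1, v.2 + 1) = 1 / 4 := by
          unfold qs
          rw [if_neg]
          unfold cross; simp only; omega
        have h4 : qs v (v.1, v.2 - 1) = 1 / 4 := by
          unfold qs
          rw [if_neg]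
          unfold cross; simp only; omega
        have h5 := hconj (v.1, v.2 - 1)
        simp only at h5
        have h6 : ((v.1, 0 - (v.2 - 1)) : Z2) = (v.1, v.2 + 1) := Prod.ext rfl (by
          simp only; omega)
        rw [h6] at h5
        rw [h1, h2, h3, h4, h5]
        ring
  · exact hout z hz

lemma KK_qs (hR : 0 ≤ R) : KK qs (V0 R M ∪ Xp R M) (Xm R M) = KK q0 (V0 R M) (Xm R M) := by
  ext x y
  simp only [KK, Matrix.of_apply]
  apply Finset.sum_congr rfl
  intro b _
  rw [H_qs hR y y.2 b]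
  have hx := (mem_Xm hR).1 x.2
  have hx1 : (x : Z2).1 < 0 := by
    have : ((x : Z2).1 : ℝ) < 0 := by linarith [hx.2.1]
    exact_mod_cast this
  by_cases hb : b.2 < 0
  · have h1 : sg b = -1 := by unfold sg; rw [if_pos hb]
    have h2 : qs x b = -(1 / 4) := by
      unfold qs; rw [if_pos]; unfold cross; omega
    rw [h1, h2, q0]; ring
  · have h1 : sg b = 1 := by unfold sg; rw [if_neg hb]
    have h2 : qs x b = 1 / 4 := by
      unfold qs; rw [if_neg]; unfold cross; omega
    rw [h1, h2, q0]; ring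

/-- crossing matrix -/
noncomputable def Ah (R M : ℝ) : Matrix (XI R M) (XI R M) ℝ :=
  Matrix.of (fun i j => H q1 (V0 R M ∪ Xp R M) (Xm R M) ((i : ℤ), 0) (-(j : ℤ), 0))

lemma H_ofReal (D O : Finset Z2) (z y : Z2) : H q0 D O z y = ((H q1 D O z y : ℝ) : ℂ) := by
  unfold H
  rw [← PS_ofReal]
  congr 1
  funext l
  split_ifs <;> simp

theorem dl_ratio (hR : 1 ≤ R) :
    dl q0 (VV R M) / dl (qa (1 / 2)) (VV R M) = (((1 - Ah R M * Ah R M).det : ℝ) : ℂ) := by
  have hR0 : 0 ≤ R := by linarith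
  have hd : Disjoint (V0 R M ∪ Xp R M) (Xm R M) :=
    Finset.disjoint_union_left.2 ⟨disj_V0_Xm R M, disj_Xp_Xm hR0⟩
  have hd' : Disjoint (V0 R M ∪ Xm R M) (Xp R M) :=
    Finset.disjoint_union_left.2 ⟨disj_V0_Xp R M, (disj_Xp_Xm hR0).symm⟩
  rw [dl_half hR]
  have hs : dl qs (VV R M) = dl qs (V0 R M ∪ Xp R M) * (1 - KK q0 (V0 R M) (Xm R M)).det := by
    conv_lhs => rw [VV_eq hR0]
    rw [dl_schur GW_qs _ _ hd, KK_qs hR0]
  have h0 : dl q0 (VV R M) = dl q0 (V0 R M ∪ Xp R M) *
      (1 - KK q0 (V0 R M ∪ Xp R M) (Xm R M)).det := by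
    conv_lhs => rw [VV_eq hR0]
    rw [dl_schur GW_q0 _ _ hd]
  have hsame : dl qs (V0 R M ∪ Xp R M) = dl q0 (V0 R M ∪ Xp R M) := by
    unfold dl
    congr 2
    ext z w
    simp only [Qm, Matrix.of_apply]
    split_ifs with h1
    · have hne : ¬ cross z w := by
        have hz : ¬ ((z : Z2).2 = 0 ∧ (z : Z2).1 < 0) := by
          rintro ⟨k1, k2⟩
          rcases Finset.mem_union.1 z.2 with k3 | k3
          · exact V0_im hR0 k3 k1
          · have := ((mem_Xp hR0).1 k3).2.1
            have k4 : ((z : Z2).1 : ℝ) < 0 := by exact_mod_cast k2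
            linarith
        have hw : ¬ ((w : Z2).2 = 0 ∧ (w : Z2).1 < 0) := by
          rintro ⟨k1, k2⟩
          rcases Finset.mem_union.1 w.2 with k3 | k3
          · exact V0_im hR0 k3 k1
          · have := ((mem_Xp hR0).1 k3).2.1
            have k4 : ((w : Z2).1 : ℝ) < 0 := by exact_mod_cast k2
            linarith
        unfold cross
        tauto
      unfold qs q0
      rw [if_neg hne]
    · rfl
  -- matrices
  set Kmm : Matrix (Xm R M) (Xm R M) ℂ := KK q0 (V0 R M) (Xm R M) with hKmm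
  let A1 : Matrix (Xp R M) (Xm R M) ℂ :=
    Matrix.of (fun w y => H q0 (V0 R M ∪ Xp R M) (Xm R M) w y)
  let A2 : Matrix (Xm R M) (Xp R M) ℂ :=
    Matrix.of (fun x w => H q0 (V0 R M ∪ Xm R M) (Xp R M) x w)
  let Kmp : Matrix (Xm R M) (Xp R M) ℂ :=
    Matrix.of (fun x w => ∑ b ∈ nb (x : Z2), q0 x b * H q0 (V0 R M) (Xp R M) b w)
  have hK0 : KK q0 (V0 R M ∪ Xp R M) (Xm R M) = Kmm + Kmp * A1 := by
    ext x y
    rw [Matrix.add_apply, Matrix.mul_apply]
    simp only [hKmm, KK, Kmp, A1, Matrix.of_apply]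
    rw [Finset.sum_coe_sort (Xp R M) (fun w => (∑ b ∈ nb (x : Z2), q0 x b * H q0 (V0 R M) (Xp R M) b w) *
      H q0 (V0 R M ∪ Xp R M) (Xm R M) w y)]
    have : ∀ w ∈ Xp R M, (∑ b ∈ nb (x : Z2), q0 x b * H q0 (V0 R M) (Xp R M) b w) *
      H q0 (V0 R M ∪ Xp R M) (Xm R M) w y = ∑ b ∈ nb (x : Z2), q0 x b * (H q0 (V0 R M) (Xp R M) b w *
      H q0 (V0 R M ∪ Xp R M) (Xm R M) w y) := by
      intro w _
      rw [Finset.sum_mul]
      apply Finset.sum_congr rfl
      intro b _; ring
    rw [Finset.sum_congr rfl this, Finset.sum_comm, ← Finset.sum_add_distrib]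
    apply Finset.sum_congr rfl
    intro b _
    rw [H_split GW_q0 (disj_V0_Xm R M) (disj_V0_Xp R M) (disj_Xp_Xm hR0), mul_add, Finset.mul_sum]
  have hA2 : A2 = Kmp + Kmm * A2 := by
    ext x w
    rw [Matrix.add_apply, Matrix.mul_apply]
    simp only [hKmm, KK, Kmp, A2, Matrix.of_apply]
    rw [Finset.sum_coe_sort (Xm R M) (fun y => (∑ b ∈ nb (x : Z2), q0 x b * H q0 (V0 R M) (Xm R M) b y) *
      H q0 (V0 R M ∪ Xm R M) (Xp R M) y w)]
    have : ∀ y ∈ Xm R M, (∑ b ∈ nb (x : Z2), q0 x b * H q0 (V0 R M) (Xm R M) b y) *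
      H q0 (V0 R M ∪ Xm R M) (Xp R M) y w = ∑ b ∈ nb (x : Z2), q0 x b * (H q0 (V0 R M) (Xm R M) b y *
      H q0 (V0 R M ∪ Xm R M) (Xp R M) y w) := by
      intro y _
      rw [Finset.sum_mul]
      apply Finset.sum_congr rfl
      intro b _; ring
    rw [Finset.sum_congr rfl this, Finset.sum_comm, ← Finset.sum_add_distrib,
      H_step GW_q0 hd' (Finset.mem_union_right _ x.2)]
    apply Finset.sum_congr rfl
    intro b _
    rw [H_split GW_q0 (disj_V0_Xp R M) (disj_V0_Xm R M) (disj_Xp_Xm hR0).symm b w, mul_add,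
      Finset.mul_sum]
  have hfac : (1 : Matrix (Xm R M) (Xm R M) ℂ) - KK q0 (V0 R M ∪ Xp R M) (Xm R M) =
      (1 - Kmm) * (1 - A2 * A1) := by
    rw [hK0]
    have h1 : (1 - Kmm) * A2 = Kmp := by
      rw [Matrix.sub_mul, Matrix.one_mul]
      nth_rewrite 1 [hA2]
      abel
    calc (1 : Matrix (Xm R M) (Xm R M) ℂ) - (Kmm + Kmp * A1) = (1 - Kmm) - ((1 - Kmm) * A2) * A1 := by
          rw [h1]; abel
      _ = (1 - Kmm) * (1 - A2 * A1) := by
          rw [Matrix.mul_sub, Matrix.mul_one, Matrix.mul_assoc]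
  -- reindex
  let e : (XI R M) ≃ (Xm R M) :=
    { toFun := fun j => ⟨(-(j : ℤ), 0), Finset.mem_image.2 ⟨j, j.2, rfl⟩⟩
      invFun := fun z => ⟨-(z : Z2).1, by
        have := (mem_Xm hR0).1 z.2
        rw [mem_XI hR0]; push_cast; exact this.2⟩
      left_inv := fun j => Subtype.ext (by simp)
      right_inv := fun z => Subtype.ext (Prod.ext (by simp) ((mem_Xm hR0).1 z.2).1.symm) }
  let e' : (XI R M) ≃ (Xp R M) :=
    { toFun := fun j => ⟨((j : ℤ), 0), Finset.mem_image.2 ⟨j, j.2, rfl⟩⟩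
      invFun := fun z => ⟨(z : Z2).1, by
        have := (mem_Xp hR0).1 z.2
        rw [mem_XI hR0]; exact this.2⟩
      left_inv := fun j => Subtype.ext (by simp)
      right_inv := fun z => Subtype.ext (Prod.ext (by simp) ((mem_Xp hR0).1 z.2).1.symm) }
  have hdet : (1 - A2 * A1).det = (((1 - Ah R M * Ah R M).det : ℝ) : ℂ) := by
    rw [← Matrix.det_submatrix_equiv_self e (1 - A2 * A1)]
    have hmap : (((1 - Ah R M * Ah R M).det : ℝ) : ℂ) =
        (((1 - Ah R M * Ah R M).map (Complex.ofRealHom)).det) := by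
      have := RingHom.map_det Complex.ofRealHom (1 - Ah R M * Ah R M)
      exact this
    rw [hmap]
    congr 1
    ext i j
    rw [Matrix.submatrix_apply, Matrix.map_apply, Matrix.sub_apply, Matrix.sub_apply,
      Matrix.mul_apply, Matrix.mul_apply, map_sub, map_sum]
    congr 1
    · simp only [Matrix.one_apply, e.apply_eq_iff_eq]
      split_ifs <;> simp
    · rw [← e'.sum_comp]
      apply Finset.sum_congr rfl
      intro k _
      rw [map_mul]
      simp only [A1, A2, Ah, Matrix.of_apply, e, e', Equiv.coe_fn_mk]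
      have h1 : H q0 (V0 R M ∪ Xm R M) (Xp R M) (-(i : ℤ), 0) ((k : ℤ), 0) =
          H q0 (V0 R M ∪ Xp R M) (Xm R M) ((i : ℤ), 0) (-(k : ℤ), 0) := by
        have hmp : ∀ z : Z2, ((0 - z.1, 0 - z.2) : Z2) ∈ Xp R M ↔ z ∈ Xm R M := by
          intro z
          rw [mem_Xp hR0, mem_Xm hR0]
          push_cast
          constructor
          · rintro ⟨a1, a2, a3⟩
            exact ⟨by omega, by linarith, by linarith⟩
          · rintro ⟨a1, a2, a3⟩
            exact ⟨by omega, by linarith, by linarith⟩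
        have hmp' : ∀ z : Z2, ((0 - z.1, 0 - z.2) : Z2) ∈ Xm R M ↔ z ∈ Xp R M := by
          intro z
          rw [mem_Xp hR0, mem_Xm hR0]
          push_cast
          constructor
          · rintro ⟨a1, a2, a3⟩
            exact ⟨by omega, by linarith, by linarith⟩
          · rintro ⟨a1, a2, a3⟩
            exact ⟨by omega, by linarith, by linarith⟩
        have hm0 : ∀ z : Z2, ((0 - z.1, 0 - z.2) : Z2) ∈ V0 R M ↔ z ∈ V0 R M := by
          intro z
          rw [mem_V0 hR0, mem_V0 hR0, mem_VV, mem_VV, norm_cx_neg]; simp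
        have h := H_sym sym_rot hd hd' (fun z => by
          rw [Finset.mem_union, Finset.mem_union, hm0, hmp']) hmp ((i : ℤ), 0) (-(k : ℤ), 0)
        simp only [sub_zero, zero_sub, neg_neg] at h
        exact h
      rw [h1, H_ofReal, H_ofReal]
      rfl
  have hne : dl q0 (V0 R M ∪ Xp R M) ≠ 0 := dl_ne_zero GW_q0 _
  have hne2 : dl qs (VV R M) ≠ 0 := dl_ne_zero GW_qs _
  rw [hs, hsame] at hne2
  have hne3 : (1 - Kmm).det ≠ 0 := right_ne_zero_of_mul hne2
  rw [h0, hs, hsame, hfac, Matrix.det_mul, hdet]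
  field_simp

end Pool.Agent.H96.LE
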