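import Pool.Agent.H96.LE.Loop2

/-!
# Test functions in the slit annulus
-/

namespace Pool.Agent.H96.LE

open Finset Filter

lemma arg_abs {z w : Z2} (hw : w ∈ nb z) (hz : 1 < ‖cx z‖) (hw1 : 1 < ‖cx w‖)
    (hneg : ¬ (z.2 = 0 ∧ z.1 < 0)) :
    |Complex.arg (cx z) + Complex.arg (cx w / cx z)| = |Complex.arg (cx w)| := by
  rcases arg_cases hw hz hw1 with ⟨_, h⟩ | ⟨hc, h⟩
  · rw [h]; congr 1; ring
  · have hpi := Real.pi_pos
    have hc2 : w.2 = 0 ∧ w.1 < 0 ∧ z.2 < 0 := by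
      unfold cross at hc; tauto
    have hC : Complex.arg (cx w) = Real.pi := by
      rw [Complex.arg_eq_pi_iff]
      simp only [cx_re, cx_im, hc2.1]
      exact ⟨by exact_mod_cast hc2.2.1, by simp⟩
    have hA : Complex.arg (cx z) < 0 := by
      rw [Complex.arg_neg_iff]
      simp only [cx_im]
      exact_mod_cast hc2.2.2
    have hB := Complex.arg_le_pi (cx w / cx z)
    rcases h with h | h
    · exfalso; rw [hC] at h; linarith
    · rw [h, hC]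
      have : Complex.arg (cx z) + (Real.pi - Complex.arg (cx z) - 2 * Real.pi) = -Real.pi := by ring
      rw [this, abs_neg]

/-- test function attached to an entire function -/
noncomputable def tf (Φ : ℂ → ℂ) (R : ℝ) (z : Z2) : ℝ :=
  (Φ ((Real.log (‖cx z‖ / R) : ℂ) + (Complex.arg (cx z) : ℂ) * Complex.I)).re

lemma re_sym {Φ : ℂ → ℂ} (hsym : ∀ u, Φ ((starRingEnd ℂ) u) = (starRingEnd ℂ) (Φ u))
    {s a b : ℝ} (h : |a| = |b|) : (Φ ((s : ℂ) + (a : ℂ) * Complex.I)).re =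
      (Φ ((s : ℂ) + (b : ℂ) * Complex.I)).re := by
  rcases abs_eq_abs.1 h with h | h
  · rw [h]
  · have : (s : ℂ) + (a : ℂ) * Complex.I = (starRingEnd ℂ) ((s : ℂ) + (b : ℂ) * Complex.I) := by
      rw [h]
      simp only [map_add, map_mul, Complex.conj_ofReal, Complex.conj_I]
      push_cast; ring
    rw [this, hsym, Complex.conj_re]

lemma exists_bound {Φ : ℂ → ℂ} (hΦ : Differentiable ℂ Φ) (n : ℝ) :
    ∃ S > 0, ∀ u : ℂ, |u.re| ≤ n + 2 → |u.im| ≤ Real.pi + 1 → ‖Φ u‖ ≤ S := by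
  have hK : IsCompact (Set.Icc (-(n + 2)) (n + 2) ×ℂ Set.Icc (-(Real.pi + 1)) (Real.pi + 1)) :=
    isCompact_Icc.reProdIm isCompact_Icc
  obtain ⟨S, hS⟩ := hK.exists_bound_of_continuousOn hΦ.continuous.continuousOn
  refine ⟨|S| + 1, by positivity, fun u h1 h2 => ?_⟩
  have := hS u ⟨abs_le.1 h1, abs_le.1 h2⟩
  linarith [le_abs_self S]

theorem slit_mv {Φ : ℂ → ℂ} (hΦ : Differentiable ℂ Φ)
    (hsym : ∀ u, Φ ((starRingEnd ℂ) u) = (starRingEnd ℂ) (Φ u)) {n S R : ℝ} (hn : 0 < n)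
    (hS : ∀ u : ℂ, |u.re| ≤ n + 2 → |u.im| ≤ Real.pi + 1 → ‖Φ u‖ ≤ S) (hR : 4 ≤ R) {z : Z2}
    (hz : z ∈ VV R (Mn n R)) (hneg : ¬ (z.2 = 0 ∧ z.1 < 0)) :
    |av (tf Φ R) z - tf Φ R z| ≤ 32 * S / R ^ 4 := by
  have hR0 : 0 < R := by linarith
  rw [mem_VV] at hz
  have hz0 : 0 < ‖cx z‖ := by linarith
  set s : ℝ := Real.log (‖cx z‖ / R) with hs
  set θ : ℝ := Complex.arg (cx z) with hθ
  have hs0 : 0 ≤ s := Real.log_nonneg (by rw [le_div_iff₀ hR0]; linarith)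
  have hsn : s ≤ n := by
    have h1 : Real.log (‖cx z‖ / R) ≤ Real.log (Real.exp n) := by
      apply Real.log_le_log (by positivity)
      rw [div_le_iff₀ hR0, mul_comm]; exact hz.2.le
    rwa [Real.log_exp] at h1
  have hθ1 : |θ| ≤ Real.pi := Complex.abs_arg_le_pi _
  have hS0 : 0 ≤ S := (norm_nonneg _).trans (hS 0 (by simp; linarith) (by simp; positivity))
  set l : ℂ := (s : ℂ) + (θ : ℂ) * Complex.I with hl
  have hlre : l.re = s := by simp [hl]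
  have hlim : l.im = θ := by simp [hl]
  have h := mv_nb Φ hΦ l 0 z (by rw [sub_zero]; linarith) S (fun v hv => by
    apply hS
    · rw [Complex.add_re, hlre]
      have h1 := Complex.abs_re_le_norm v
      have h2 := abs_add_le s v.re
      rw [abs_of_nonneg hs0] at h2
      linarith
    · rw [Complex.add_im, hlim]
      have h1 := Complex.abs_im_le_norm v
      have h2 := abs_add_le θ v.im
      linarith)
  simp only [sub_zero] at h
  have h2 := (Complex.abs_re_le_norm _).trans h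
  have hterm : ∀ w ∈ nb z, (Φ (l + Complex.log (cx w / cx z))).re = tf Φ R w := by
    intro w hw
    have hwn := (norm_nb_ge hw).1
    have hw0 : 0 < ‖cx w‖ := by linarith
    have hlog : Complex.log (cx w / cx z) = (Real.log ‖cx w / cx z‖ : ℂ) +
        (Complex.arg (cx w / cx z) : ℂ) * Complex.I := rfl
    have e1 : l + Complex.log (cx w / cx z) = ((Real.log (‖cx w‖ / R) : ℝ) : ℂ) +
        ((θ + Complex.arg (cx w / cx z) : ℝ) : ℂ) * Complex.I := by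
      rw [hlog, hl, hs, norm_div, Real.log_div hw0.ne' hz0.ne', Real.log_div hz0.ne' hR0.ne',
        Real.log_div hw0.ne' hR0.ne']
      push_cast; ring
    rw [e1]
    unfold tf
    exact re_sym hsym (arg_abs hw (by linarith) (by linarith) hneg)
  have h3 : ((∑ w ∈ nb z, Φ (l + Complex.log (cx w / cx z))) / 4 - Φ l).re =
      av (tf Φ R) z - tf Φ R z := by
    rw [Complex.sub_re]
    have : (∑ w ∈ nb z, Φ (l + Complex.log (cx w / cx z))) / 4 =
        (((4 : ℝ)⁻¹ : ℝ) : ℂ) * (∑ w ∈ nb z, Φ (l + Complex.log (cx w / cx z))) := by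
      push_cast; ring
    rw [this, Complex.re_ofReal_mul, Complex.re_sum, Finset.sum_congr rfl hterm]
    unfold av
    have h4 : tf Φ R z = (Φ l).re := rfl
    rw [h4]; ring
  rw [h3] at h2
  refine h2.trans ?_
  apply div_le_div_of_nonneg_left (by positivity) (by positivity)
  exact pow_le_pow_left₀ hR0.le hz.1.le 4

/-- the slit annulus -/
noncomputable def SA (R M : ℝ) : Finset Z2 := V0 R M ∪ Xp R M

lemma mem_SA {R M : ℝ} (hR : 0 ≤ R) {z : Z2} : z ∈ SA R M ↔ z ∈ VV R M ∧ ¬ (z.2 = 0 ∧ z.1 < 0) := by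
  unfold SA
  rw [Finset.mem_union, mem_V0 hR, mem_Xp hR, mem_VV]
  constructor
  · rintro (⟨h1, h2⟩ | ⟨h1, h2, h3⟩)
    · exact ⟨h1, fun h => h2 h.1⟩
    · rw [norm_axis h1, abs_of_pos (by linarith)]
      refine ⟨⟨h2, h3⟩, fun h => ?_⟩
      have : (z.1 : ℝ) < 0 := by exact_mod_cast h.2
      linarith
  · rintro ⟨h1, h2⟩
    by_cases h3 : z.2 = 0
    · right
      have h4 : 0 ≤ z.1 := by
        by_contra h; exact h2 ⟨h3, not_le.1 h⟩
      have h5 : (0 : ℝ) ≤ z.1 := by exact_mod_cast h4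
      rw [norm_axis h3, abs_of_nonneg h5] at h1
      exact ⟨h3, h1⟩
    · left; exact ⟨h1, h3⟩

lemma disj_SA {R M : ℝ} (hR : 0 ≤ R) : Disjoint (SA R M) (Xm R M) :=
  Finset.disjoint_union_left.2 ⟨disj_V0_Xm R M, disj_Xp_Xm hR⟩

lemma SA_nb {R M : ℝ} (hR : 0 ≤ R) {z w : Z2} (hz : z ∈ SA R M) (hw : w ∈ nb z) (hwS : w ∉ SA R M) :
    w ∈ Xm R M ∨ (w ∉ Xm R M ∧ ((R - 1 ≤ ‖cx w‖ ∧ ‖cx w‖ ≤ R) ∨ (M ≤ ‖cx w‖ ∧ ‖cx w‖ ≤ M + 1))) := by
  by_cases h1 : w ∈ Xm R M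
  · exact Or.inl h1
  · right
    refine ⟨h1, ?_⟩
    have hzV := ((mem_SA hR).1 hz).1
    have hwV : w ∉ VV R M := by
      intro h
      rw [VV_eq hR] at h
      rcases Finset.mem_union.1 h with h | h
      · exact hwS h
      · exact h1 h
    rcases VV_nb hzV hw hwV with h | h
    · exact Or.inl ⟨h.2, h.1⟩
    · rw [mem_OO] at h
      exact Or.inr ⟨h.1, h.2.le⟩

theorem slit_upper {Φ : ℂ → ℂ} (hΦ : Differentiable ℂ Φ)
    (hsym : ∀ u, Φ ((starRingEnd ℂ) u) = (starRingEnd ℂ) (Φ u)) {n : ℝ} (hn : 0 < n) :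
    ∃ C > 0, ∀ R ≥ (4 : ℝ), ∀ (g : Z2 → ℝ) (β : ℝ), 
      (∀ w ∈ Xm R (Mn n R), g w ≤ tf Φ R w + β) →
      (∀ w : Z2, ((R - 1 ≤ ‖cx w‖ ∧ ‖cx w‖ ≤ R) ∨ (Mn n R ≤ ‖cx w‖ ∧ ‖cx w‖ ≤ Mn n R + 1)) →
        0 ≤ tf Φ R w + β) →
      ∀ z ∈ SA R (Mn n R), PL q1 (SA R (Mn n R)) (Xm R (Mn n R)) g z ≤ tf Φ R z + β + C / R := by
  obtain ⟨S, hS0, hS⟩ := exists_bound hΦ n
  refine ⟨128 * S * Real.exp (2 * n), by positivity, ?_⟩
  intro R hR g β h1 h2 z hz
  have hR0 : 0 < R := by linarith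
  have hMR := Mn_ge hn.le hR0.le
  have h := cmp_err (SA R (Mn n R)) (PL q1 (SA R (Mn n R)) (Xm R (Mn n R)) g) (tf Φ R)
    (32 * S / R ^ 4) β ((Mn n R + 1) ^ 2) (by positivity)
    (fun z hz => (PL_av (disj_SA hR0.le) g hz).le)
    (fun z hz => by
      have hz' := (mem_SA hR0.le).1 hz
      have := (abs_le.1 (slit_mv hΦ hsym hn hS hR hz'.1 hz'.2)).2
      linarith)
    (fun z hz w hw hwS => by
      rcases SA_nb hR0.le hz hw hwS with h3 | ⟨h3, h4⟩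
      · rw [PL_out g hwS h3]; exact h1 w h3
      · rw [PL_none g hwS h3]; exact h2 w h4)
    (fun z hz w hw => nsq_nb_le (by linarith) ((mem_SA hR0.le).1 hz).1 hw) z hz
  refine h.trans ?_
  have h6 := M_sq_bd hn.le (show 1 ≤ R by linarith)
  have h7 : 32 * S / R ^ 4 * (Mn n R + 1) ^ 2 ≤ 32 * S / R ^ 4 * (4 * Real.exp (2 * n) * R ^ 2) := by
    gcongr
  have h8 : 32 * S / R ^ 4 * (4 * Real.exp (2 * n) * R ^ 2) = 128 * S * Real.exp (2 * n) / R ^ 2 := by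
    field_simp; ring
  have h9 : 128 * S * Real.exp (2 * n) / R ^ 2 ≤ 128 * S * Real.exp (2 * n) / R := by
    apply div_le_div_of_nonneg_left (by positivity) hR0
    nlinarith
  linarith

lemma PL_neg' {D O : Finset Z2} (g : Z2 → ℝ) (z : Z2) :
    PL q1 D O (fun w => - g w) z = - PL q1 D O g z := by
  unfold PL
  have : (fun l : List Z2 => if lst l ∈ O then - g (lst l) else 0) =
      fun l => (-1) * (if lst l ∈ O then g (lst l) else 0) := by
    funext l; split_ifs <;> ring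
  rw [this, PS_mul_left]; ring

/-- two-sided comparison -/
theorem slit_close {Φ : ℂ → ℂ} (hΦ : Differentiable ℂ Φ)
    (hsym : ∀ u, Φ ((starRingEnd ℂ) u) = (starRingEnd ℂ) (Φ u)) {n : ℝ} (hn : 0 < n) :
    ∃ C > 0, ∀ R ≥ (4 : ℝ), ∀ (g : Z2 → ℝ) (β : ℝ), 0 ≤ β →
      (∀ w ∈ Xm R (Mn n R), g w = tf Φ R w) →
      (∀ w : Z2, ((R - 1 ≤ ‖cx w‖ ∧ ‖cx w‖ ≤ R) ∨ (Mn n R ≤ ‖cx w‖ ∧ ‖cx w‖ ≤ Mn n R + 1)) →
        |tf Φ R w| ≤ β) →
      ∀ z ∈ SA R (Mn n R), |PL q1 (SA R (Mn n R)) (Xm R (Mn n R)) g z - tf Φ R z| ≤ β + C / R := by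
  obtain ⟨C1, hC1, H1⟩ := slit_upper hΦ hsym hn
  have hΦ' : Differentiable ℂ (fun u => - Φ u) := hΦ.neg
  obtain ⟨C2, hC2, H2⟩ := slit_upper hΦ' (fun u => by rw [hsym, map_neg]) hn
  refine ⟨C1 + C2, by positivity, ?_⟩
  intro R hR g β hβ h1 h2 z hz
  have hR0 : 0 < R := by linarith
  have e1 := H1 R hR g β (fun w hw => by rw [h1 w hw]; linarith)
    (fun w hw => by linarith [(abs_le.1 (h2 w hw)).1]) z hz
  have htf : ∀ w, tf (fun u => - Φ u) R w = - tf Φ R w := by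
    intro w; unfold tf; rw [Complex.neg_re]
  have e2 := H2 R hR (fun w => - g w) β (fun w hw => by rw [htf, h1 w hw]; linarith)
    (fun w hw => by rw [htf]; linarith [(abs_le.1 (h2 w hw)).2]) z hz
  rw [PL_neg', htf] at e2
  have : 0 < C1 / R := by positivity
  have : 0 < C2 / R := by positivity
  rw [add_div, abs_le]
  constructor <;> linarith

end Pool.Agent.H96.LE
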