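import Pool.Agent.H96.LE.Loop3

/-!
# Row sums and approximate eigenfunctions of the crossing matrix
-/

namespace Pool.Agent.H96.LE

open Finset Filter

lemma PL_eq_sum {𝕜 : Type*} [RCLike 𝕜] {q : Z2 → Z2 → 𝕜} (hq : GW q) {D O : Finset Z2}
    (hDO : Disjoint D O) (f : Z2 → 𝕜) (z : Z2) : PL q D O f z = ∑ y ∈ O, H q D O z y * f y := by
  rw [← PS_lst hq hDO z f]
  unfold PL
  apply PS_congr
  intro t ht
  have := P_en ht
  simp only [lst_cons, if_pos this]

lemma H_q1_nonneg (D O : Finset Z2) (x y : Z2) : 0 ≤ H q1 D O x y := by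
  unfold H
  apply PS_nonneg
  intro l
  split_ifs <;> norm_num

lemma Ah_nonneg (R M : ℝ) (i j : XI R M) : 0 ≤ Ah R M i j := H_q1_nonneg _ _ _ _

lemma Ah_mulVec {R M : ℝ} (hR : 0 ≤ R) (F : ℤ → ℝ) (i : XI R M) :
    ∑ j : XI R M, Ah R M i j * F j = PL q1 (SA R M) (Xm R M) (fun w => F (-w.1)) ((i : ℤ), 0) := by
  rw [PL_eq_sum GW_q1 (disj_SA hR)]
  have h1 : ∑ j : XI R M, Ah R M i j * F j =
      ∑ j ∈ XI R M, H q1 (SA R M) (Xm R M) ((i : ℤ), 0) (-j, 0) * F j := by
    rw [← Finset.sum_coe_sort (XI R M)]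
    rfl
  have h2 : ∑ y ∈ Xm R M, H q1 (SA R M) (Xm R M) ((i : ℤ), 0) y * F (-y.1) =
      ∑ j ∈ XI R M, H q1 (SA R M) (Xm R M) ((i : ℤ), 0) (-j, 0) * F j := by
    unfold Xm
    rw [Finset.sum_image]
    · apply Finset.sum_congr rfl
      intro j _
      simp
    · intro a _ b _ h
      simpa using h
  rw [h1, ← h2]

lemma axis_mem_SA {R M : ℝ} (hR : 0 ≤ R) {i : ℤ} (hi : i ∈ XI R M) : ((i, 0) : Z2) ∈ SA R M := by
  unfold SA
  rw [Finset.mem_union]
  right
  rw [mem_Xp hR]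
  exact ⟨rfl, (mem_XI hR).1 hi⟩

lemma tf_pos (Φ : ℂ → ℂ) {R : ℝ} {i : ℤ} (hi : 0 < i) :
    tf Φ R (i, 0) = (Φ (Real.log ((i : ℝ) / R) : ℂ)).re := by
  have hi' : (0 : ℝ) < i := by exact_mod_cast hi
  have h1 : cx (i, 0) = ((i : ℝ) : ℂ) := by
    apply Complex.ext <;> simp
  unfold tf
  rw [h1, Complex.arg_ofReal_of_nonneg hi'.le, Complex.norm_real, Real.norm_eq_abs,
    abs_of_pos hi']
  simp

lemma tf_neg (Φ : ℂ → ℂ) {R : ℝ} {w : Z2} (h2 : w.2 = 0) (h1 : (w.1 : ℝ) < 0) :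
    tf Φ R w = (Φ ((Real.log (-(w.1 : ℝ) / R) : ℂ) + (Real.pi : ℂ) * Complex.I)).re := by
  have h3 : cx w = ((w.1 : ℝ) : ℂ) := by
    apply Complex.ext <;> simp [h2]
  unfold tf
  rw [h3, Complex.arg_ofReal_of_neg h1, Complex.norm_real, Real.norm_eq_abs,
    abs_of_neg h1]

/-- the function used for the row sums -/
noncomputable def PhiC (n : ℝ) : ℂ → ℂ :=
  fun u => 1 - Complex.cosh ((u - (n / 2 : ℝ)) / 2) / (Real.cosh (n / 4) : ℝ)

lemma PhiC_diff (n : ℝ) : Differentiable ℂ (PhiC n) := by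
  unfold PhiC
  apply (differentiable_const _).sub
  apply Differentiable.div_const
  exact Complex.differentiable_cosh.comp ((differentiable_id.sub_const _).div_const _)

lemma PhiC_sym (n : ℝ) (u : ℂ) : PhiC n ((starRingEnd ℂ) u) = (starRingEnd ℂ) (PhiC n u) := by
  unfold PhiC
  have h4 : (starRingEnd ℂ) (2 : ℂ) = 2 := Complex.conj_ofNat 2
  rw [map_sub, map_one, map_div₀, Complex.conj_ofReal, ← Complex.cosh_conj, map_div₀, map_sub,
    Complex.conj_ofReal, h4]

lemma PhiC_re (n s θ : ℝ) : (PhiC n ((s : ℂ) + (θ : ℂ) * Complex.I)).re =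
    1 - Real.cosh ((s - n / 2) / 2) * Real.cos (θ / 2) / Real.cosh (n / 4) := by
  unfold PhiC
  have h1 : ((s : ℂ) + (θ : ℂ) * Complex.I - ((n / 2 : ℝ) : ℂ)) / 2 =
      (((s - n / 2) / 2 : ℝ) : ℂ) + ((θ / 2 : ℝ) : ℂ) * Complex.I := by
    push_cast; ring
  rw [h1, Complex.cosh_add, Complex.cosh_mul_I, Complex.sinh_mul_I]
  have h2 : Complex.cosh (((s - n / 2) / 2 : ℝ) : ℂ) * Complex.cos ((θ / 2 : ℝ) : ℂ) +
      Complex.sinh (((s - n / 2) / 2 : ℝ) : ℂ) * (Complex.sin ((θ / 2 : ℝ) : ℂ) * Complex.I) =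
      ((Real.cosh ((s - n / 2) / 2) * Real.cos (θ / 2) : ℝ) : ℂ) +
      ((Real.sinh ((s - n / 2) / 2) * Real.sin (θ / 2) : ℝ) : ℂ) * Complex.I := by
    push_cast; ring
  rw [h2, Complex.sub_re, Complex.one_re, Complex.div_ofReal_re, Complex.add_re,
    Complex.ofReal_re, Complex.mul_I_re, Complex.ofReal_im]
  ring

theorem row_sums (n : ℝ) (hn : 0 < n) : ∃ σ : ℝ, 0 < σ ∧ σ < 1 ∧ ∀ᶠ R in atTop,
    ∀ i : XI R (Mn n R), ∑ j, Ah R (Mn n R) i j ≤ σ := by
  obtain ⟨C, hC0, hC⟩ := slit_upper (PhiC_diff n) (PhiC_sym n) hn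
  have hch : 1 ≤ Real.cosh (n / 4) := Real.one_le_cosh _
  have hch0 : 0 < Real.cosh (n / 4) := by linarith
  refine ⟨1 - 1 / (2 * Real.cosh (n / 4)), ?_, ?_, ?_⟩
  · have : 1 / (2 * Real.cosh (n / 4)) ≤ 1 / 2 := by
      apply div_le_div_of_nonneg_left (by norm_num) (by norm_num); linarith
    linarith
  · have : 0 < 1 / (2 * Real.cosh (n / 4)) := by positivity
    linarith
  filter_upwards [eventually_ge_atTop 4, eventually_ge_atTop ((C + 2) * (2 * Real.cosh (n / 4)))] with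
    R hR4 hRC i
  have hR0 : 0 < R := by linarith
  have hi := (mem_XI hR0.le).1 i.2
  have hipos : (0 : ℤ) < i := by
    have : (0 : ℝ) < ((i : ℤ) : ℝ) := by linarith [hi.1]
    exact_mod_cast this
  have h := Ah_mulVec hR0.le (fun _ => (1 : ℝ)) i
  simp only [mul_one] at h
  rw [h]
  have h2 := hC R hR4 (fun _ => 1) (2 / R) (by
    intro w hw
    rw [mem_Xm hR0.le] at hw
    rw [tf_neg _ hw.1 (by linarith [hw.2.1]), PhiC_re, Real.cos_pi_div_two]
    have : 0 < 2 / R := by positivity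
    simp only [mul_zero, zero_div, sub_zero]
    linarith) (by
    intro w hw
    unfold tf
    rw [PhiC_re]
    set s := Real.log (‖cx w‖ / R) with hs
    have hsb : |s - n / 2| ≤ n / 2 + 2 / R := by
      rcases hw with hw | hw
      · have h3 := inner_log (by linarith) hw.1 hw.2
        rw [abs_le] at h3 ⊢
        constructor <;> linarith [h3.1, h3.2]
      · have h3 := outer_log hn.le (by linarith) hw.1 hw.2
        rw [abs_le] at h3 ⊢
        constructor <;> linarith [h3.1, h3.2]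
    have h4 : Real.cosh ((s - n / 2) / 2) ≤ Real.cosh (n / 4) * (1 + 2 / R) := by
      have h5 : Real.cosh ((s - n / 2) / 2) ≤ Real.cosh (n / 4 + 1 / R) := by
        rw [Real.cosh_le_cosh, abs_div, abs_two, abs_of_pos (show 0 < n / 4 + 1 / R by positivity)]
        have : (n / 2 + 2 / R) / 2 = n / 4 + 1 / R := by ring
        rw [← this]
        gcongr
      refine h5.trans ?_
      rw [Real.cosh_add]
      have h6 : Real.sinh (n / 4) ≤ Real.cosh (n / 4) := (Real.sinh_lt_cosh _).le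
      have h7 : 0 ≤ Real.sinh (1 / R) := Real.sinh_nonneg_iff.2 (by positivity)
      have h8 : Real.cosh (1 / R) + Real.sinh (1 / R) = Real.exp (1 / R) := Real.cosh_add_sinh _
      have h9 : Real.exp (1 / R) ≤ 1 + 2 / R := by
        have h10 := Real.exp_bound_div_one_sub_of_interval (x := 1 / R) (by positivity) (by
          rw [div_lt_one hR0]; linarith)
        refine h10.trans ?_
        have h11 : 1 / R ≤ 1 / 2 := by
          apply div_le_div_of_nonneg_left (by norm_num) (by norm_num); linarith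
        rw [div_le_iff₀ (by linarith)]
        have h12 : 2 / R = 2 * (1 / R) := by ring
        rw [h12]
        have : 0 ≤ 1 / R := by positivity
        nlinarith
      nlinarith
    have h5 : Real.cosh ((s - n / 2) / 2) * Real.cos (Complex.arg (cx w) / 2) / Real.cosh (n / 4) ≤
        1 + 2 / R := by
      rw [div_le_iff₀ hch0]
      have h6 := Real.cos_le_one (Complex.arg (cx w) / 2)
      have h7 := Real.cosh_pos ((s - n / 2) / 2)
      nlinarith
    linarith) ((i : ℤ), 0) (axis_mem_SA hR0.le i.2)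
  refine h2.trans ?_
  rw [tf_pos _ hipos]
  have h3 := PhiC_re n (Real.log (((i : ℤ) : ℝ) / R)) 0
  simp only [Complex.ofReal_zero, zero_mul, add_zero, zero_div, Real.cos_zero, mul_one] at h3
  rw [h3]
  have h4 : 1 / Real.cosh (n / 4) ≤
      Real.cosh ((Real.log (((i : ℤ) : ℝ) / R) - n / 2) / 2) / Real.cosh (n / 4) := by
    gcongr
    exact Real.one_le_cosh _
  have h5 : 2 / R + C / R ≤ 1 / (2 * Real.cosh (n / 4)) := by
    rw [← add_div, div_le_div_iff₀ hR0 (by positivity)]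
    linarith
  have h6 : 1 / Real.cosh (n / 4) = 2 * (1 / (2 * Real.cosh (n / 4))) := by field_simp
  linarith

/-- sine functions -/
noncomputable def PhiS (b : ℝ) : ℂ → ℂ := fun u => Complex.sin (b * u) / (Real.cosh (b * Real.pi) : ℝ)

lemma PhiS_diff (b : ℝ) : Differentiable ℂ (PhiS b) := by
  unfold PhiS
  apply Differentiable.div_const
  exact Complex.differentiable_sin.comp ((differentiable_const _).mul differentiable_id)

lemma PhiS_sym (b : ℝ) (u : ℂ) : PhiS b ((starRingEnd ℂ) u) = (starRingEnd ℂ) (PhiS b u) := by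
  unfold PhiS
  rw [map_div₀, Complex.conj_ofReal, ← Complex.sin_conj, map_mul, Complex.conj_ofReal]

lemma PhiS_re (b s θ : ℝ) : (PhiS b ((s : ℂ) + (θ : ℂ) * Complex.I)).re =
    Real.sin (b * s) * Real.cosh (b * θ) / Real.cosh (b * Real.pi) := by
  unfold PhiS
  have h1 : (b : ℂ) * ((s : ℂ) + (θ : ℂ) * Complex.I) =
      ((b * s : ℝ) : ℂ) + ((b * θ : ℝ) : ℂ) * Complex.I := by
    push_cast; ring
  rw [h1, Complex.sin_add_mul_I]
  rw [Complex.div_ofReal_re, Complex.add_re]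
  congr 1
  rw [← Complex.ofReal_cosh, ← Complex.ofReal_cos, ← Complex.ofReal_sinh, ← Complex.ofReal_sin,
    ← Complex.ofReal_mul, ← Complex.ofReal_mul, Complex.ofReal_re, Complex.mul_I_re,
    Complex.ofReal_im]
  ring

theorem eig (n : ℝ) (hn : 0 < n) (j : ℕ) : ∃ C > 0, ∀ᶠ R in atTop,
    ∀ i : XI R (Mn n R), |∑ k : XI R (Mn n R), Ah R (Mn n R) i k *
      Real.sin (Real.pi * j / n * Real.log (((k : ℤ) : ℝ) / R)) -
      Real.sin (Real.pi * j / n * Real.log (((i : ℤ) : ℝ) / R)) /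
        Real.cosh (Real.pi * j / n * Real.pi)| ≤ C / R := by
  set b : ℝ := Real.pi * j / n with hb
  have hb0 : 0 ≤ b := by positivity
  have hbn : b * n = Real.pi * j := by rw [hb]; field_simp
  obtain ⟨C, hC0, hC⟩ := slit_close (PhiS_diff b) (PhiS_sym b) hn
  refine ⟨2 * b + C, by positivity, ?_⟩
  filter_upwards [eventually_ge_atTop 4] with R hR4 i
  have hR0 : 0 < R := by linarith
  have hi := (mem_XI hR0.le).1 i.2
  have hipos : (0 : ℤ) < i := by
    have : (0 : ℝ) < ((i : ℤ) : ℝ) := by linarith [hi.1]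
    exact_mod_cast this
  have h := Ah_mulVec hR0.le (fun k => Real.sin (b * Real.log ((k : ℝ) / R))) i
  rw [h]
  have h2 := hC R hR4 (fun w => Real.sin (b * Real.log (((-w.1 : ℤ) : ℝ) / R))) (2 * b / R)
    (by positivity) (by
    intro w hw
    rw [mem_Xm hR0.le] at hw
    rw [tf_neg _ hw.1 (by linarith [hw.2.1]), PhiS_re, mul_div_assoc, div_self (Real.cosh_pos _).ne',
      mul_one]
    push_cast
    rfl) (by
    intro w hw
    unfold tf
    rw [PhiS_re]
    set s := Real.log (‖cx w‖ / R) with hs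
    have hsin : |Real.sin (b * s)| ≤ 2 * b / R := by
      rcases hw with hw | hw
      · have h3 := inner_log (by linarith) hw.1 hw.2
        refine Real.abs_sin_le_abs.trans ?_
        rw [abs_mul, abs_of_nonneg hb0]
        calc b * |s| ≤ b * (2 / R) := by gcongr
          _ = 2 * b / R := by ring
      · have h3 := outer_log hn.le (by linarith) hw.1 hw.2
        have h4 := Real.abs_sin_sub_sin_le (b * s) (b * n)
        rw [hbn] at h4
        have h5 : Real.sin (Real.pi * j) = 0 := by rw [mul_comm]; exact Real.sin_nat_mul_pi j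
        rw [h5, sub_zero, ← hbn, ← mul_sub, abs_mul, abs_of_nonneg hb0] at h4
        refine h4.trans ?_
        calc b * |s - n| ≤ b * (2 / R) := by gcongr
          _ = 2 * b / R := by ring
    rw [abs_div, abs_mul, abs_of_pos (Real.cosh_pos _), abs_of_pos (Real.cosh_pos _),
      div_le_iff₀ (Real.cosh_pos _)]
    apply mul_le_mul hsin _ (Real.cosh_pos _).le (by positivity)
    rw [Real.cosh_le_cosh, abs_mul, abs_mul]
    apply mul_le_mul_of_nonneg_left _ (abs_nonneg _)
    rw [abs_of_pos Real.pi_pos]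
    exact Complex.abs_arg_le_pi _) ((i : ℤ), 0) (axis_mem_SA hR0.le i.2)
  rw [tf_pos _ hipos] at h2
  have h3 := PhiS_re b (Real.log (((i : ℤ) : ℝ) / R)) 0
  simp only [Complex.ofReal_zero, zero_mul, add_zero, mul_zero, Real.cosh_zero, mul_one] at h3
  rw [h3] at h2
  have h4 : (2 * b + C) / R = 2 * b / R + C / R := by ring
  rw [h4]
  exact h2

end Pool.Agent.H96.LE
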