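import Pool.Agent.H96.LE.Rect

/-!
# Loop lemma in general position, Harnack inequality, oscillation, weak Beurling estimate
-/

namespace Pool.Agent.H96.LE

open Finset

/-- sup-norm box -/
def bx (z0 : Z2) (c : ℤ) (z : Z2) : Prop := |z.1 - z0.1| ≤ c ∧ |z.2 - z0.2| ≤ c

lemma bx_mono {z0 : Z2} {c c' : ℤ} (h : c ≤ c') {z : Z2} (hz : bx z0 c z) : bx z0 c' z :=
  ⟨hz.1.trans h, hz.2.trans h⟩

lemma bx_nb {z0 : Z2} {c : ℤ} {z w : Z2} (hz : bx z0 c z) (hw : w ∈ nb z) : bx z0 (c + 1) w := by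
  unfold bx at *
  rw [abs_le, abs_le] at *
  rw [mem_nb] at hw
  rcases hw with h | h | h | h <;> rw [h] <;> simp only <;> omega

lemma bx_self (z0 : Z2) {c : ℤ} (hc : 0 ≤ c) : bx z0 c z0 := by
  unfold bx; simp [hc]

/-- the box as a finite set -/
noncomputable def bxF (z0 : Z2) (c : ℤ) : Finset Z2 :=
  (Icc (z0.1 - c) (z0.1 + c)) ×ˢ (Icc (z0.2 - c) (z0.2 + c))

lemma mem_bxF {z0 : Z2} {c : ℤ} {z : Z2} : z ∈ bxF z0 c ↔ bx z0 c z := by
  unfold bxF bx
  rw [Finset.mem_product, Finset.mem_Icc, Finset.mem_Icc, abs_le, abs_le]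
  omega

lemma Wk_concat (w : Z2) (s : List Z2) : ∀ a, Wk a s → w ∈ nb (en a s) → Wk a (s ++ [w]) := by
  induction s with
  | nil => intro a _ h; exact ⟨h, trivial⟩
  | cons b s ih => intro a h h'; exact ⟨h.1, ih b h.2 h'⟩

/-- cut a walk at its first exit of the open box -/
lemma cut_box (z0 : Z2) (c : ℤ) (t : List Z2) : ∀ a, Wk a t → bx z0 (c - 1) a →
    ¬ bx z0 (c - 1) (en a t) → ∃ t', Wk a t' ∧ (∀ v ∈ a :: t', v ∈ a :: t) ∧
      (∀ v ∈ a :: t', bx z0 c v) ∧ ¬ bx z0 (c - 1) (en a t') := by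
  induction t with
  | nil => intro a _ h1 h2; exact absurd h1 h2
  | cons b t ih =>
    intro a hW h1 h2
    by_cases hb : bx z0 (c - 1) b
    · obtain ⟨t', k1, k2, k3, k4⟩ := ih b hW.2 hb h2
      refine ⟨b :: t', ⟨hW.1, k1⟩, ?_, ?_, k4⟩
      · intro v hv
        rcases List.mem_cons.1 hv with h | h
        · rw [h]; simp
        · exact List.mem_cons_of_mem _ (k2 v h)
      · intro v hv
        rcases List.mem_cons.1 hv with h | h
        · rw [h]; exact bx_mono (by omega) h1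
        · exact k3 v h
    · refine ⟨[b], ⟨hW.1, trivial⟩, ?_, ?_, hb⟩
      · intro v hv
        simp only [List.mem_cons, List.not_mem_nil, or_false] at hv ⊢
        tauto
      · intro v hv
        simp only [List.mem_cons, List.not_mem_nil, or_false] at hv
        rcases hv with h | h
        · rw [h]; exact bx_mono (by omega) h1
        · rw [h]
          have := bx_nb h1 hW.1
          rwa [sub_add_cancel] at this

lemma LL_aux {φ ψ : Z2 → Z2} (hφ : IsSym φ) (hψ : IsSym ψ) (h1 : ∀ z, φ (ψ z) = z)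
    (h2 : ∀ z, ψ (φ z) = z) (z0 : Z2) (hb : ∀ z c, bx z0 c (φ z) ↔ |z.1| ≤ c ∧ |z.2| ≤ c)
    (N : ℤ) (hN : 1 ≤ N) (u : Z2 → ℝ) (hpos : ∀ z, bx z0 (12 * N) z → 0 ≤ u z)
    (hsup : ∀ z, bx z0 (12 * N - 1) z → av u z ≤ u z)
    (a : Z2) (t : List Z2) (hW : Wk a t) (ha : bx z0 (2 * N) a)
    (ht : ∀ v ∈ a :: t, bx z0 (8 * N) v) (hex : (ψ (en a t)).1 = - (8 * N))
    (hΓ : ∀ v ∈ a :: t, 1 ≤ u v) : ∀ z, bx z0 (2 * N) z → cLL ≤ u z := by
  intro z hz
  have h := LL_left N hN (fun w => u (φ w)) (fun w h1 h2 => hpos _ ((hb w _).2 ⟨h1, h2⟩))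
    (fun w k1 k2 => by
      rw [av_sym hφ]
      exact hsup _ ((hb w _).2 ⟨by omega, by omega⟩)) (ψ a) (t.map ψ) (Wk_sym hψ t a hW)
    (by
      have := (hb (ψ a) (2 * N)).1 (by rw [h1]; exact ha)
      have := abs_le.1 this.1
      omega)
    (by rw [en_map, hex])
    (by
      intro v hv
      rw [← List.map_cons] at hv
      obtain ⟨v', hv', rfl⟩ := List.mem_map.1 hv
      have := (hb (ψ v') (8 * N)).1 (by rw [h1]; exact ht v' hv')
      exact abs_le.1 this.2)
    (by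
      intro v hv
      rw [← List.map_cons] at hv
      obtain ⟨v', hv', rfl⟩ := List.mem_map.1 hv
      simp only [h1]
      exact hΓ v' hv') (ψ z)
  have h3 := (hb (ψ z) (2 * N)).1 (by rw [h1]; exact hz)
  have h4 := h h3.1 h3.2
  simpa only [h1] using h4

/-- **loop lemma** -/
theorem LL (N : ℤ) (hN : 1 ≤ N) (z0 : Z2) (u : Z2 → ℝ)
    (hpos : ∀ z, bx z0 (12 * N) z → 0 ≤ u z)
    (hsup : ∀ z, bx z0 (12 * N - 1) z → av u z ≤ u z)
    (a : Z2) (t : List Z2) (hW : Wk a t) (ha : bx z0 (2 * N) a)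
    (hex : ¬ bx z0 (8 * N - 1) (en a t))
    (hΓ : ∀ v ∈ a :: t, 1 ≤ u v) : ∀ z, bx z0 (2 * N) z → cLL ≤ u z := by
  obtain ⟨t', k1, k2, k3, k4⟩ := cut_box z0 (8 * N) t a hW (bx_mono (by omega) ha) hex
  have hΓ' : ∀ v ∈ a :: t', 1 ≤ u v := fun v hv => hΓ v (k2 v hv)
  have he := k3 _ (en_mem a t')
  have hcase : (en a t').1 - z0.1 = -(8 * N) ∨ (en a t').1 - z0.1 = 8 * N ∨
      (en a t').2 - z0.2 = -(8 * N) ∨ (en a t').2 - z0.2 = 8 * N := by
    unfold bx at he k4
    rw [abs_le, abs_le] at he k4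
    omega
  rcases hcase with h | h | h | h
  · exact LL_aux (sym_shift z0) (sym_shift (-z0.1, -z0.2)) (fun z => by ext <;> simp)
      (fun z => by ext <;> simp) z0 (fun z c => by
        unfold bx; simp only [add_sub_cancel_right]) N hN u hpos hsup a t' k1 ha k3
      (by simp only; omega) hΓ'
  · exact LL_aux ((sym_shift z0).comp (sym_reflect 0)) ((sym_reflect 0).comp (sym_shift (-z0.1, -z0.2)))
      (fun z => by ext <;> simp)
      (fun z => by ext <;> simp) z0 (fun z c => by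
        unfold bx; simp only [add_sub_cancel_right, zero_sub, abs_neg]) N hN u hpos hsup a t' k1 ha k3
      (by simp only; omega) hΓ'
  · exact LL_aux ((sym_shift z0).comp sym_swap) (sym_swap.comp (sym_shift (-z0.1, -z0.2)))
      (fun z => by ext <;> simp)
      (fun z => by ext <;> simp) z0 (fun z c => by
        unfold bx; simp only [add_sub_cancel_right]; exact and_comm) N hN u hpos hsup a t' k1 ha k3
      (by simp only; omega) hΓ'
  · exact LL_aux ((sym_shift z0).comp (sym_swap.comp (sym_reflect 0)))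
      (((sym_reflect 0).comp sym_swap).comp (sym_shift (-z0.1, -z0.2)))
      (fun z => by ext <;> simp)
      (fun z => by ext <;> simp) z0 (fun z c => by
        unfold bx; simp only [add_sub_cancel_right, zero_sub, abs_neg]; exact and_comm)
      N hN u hpos hsup a t' k1 ha k3
      (by simp only; omega) hΓ'

/-- the superlevel set of a subharmonic function reaches the boundary -/
lemma reach (N : ℤ) (hN : 1 ≤ N) (z0 : Z2) (u : Z2 → ℝ)
    (hsub : ∀ z, bx z0 (12 * N - 1) z → u z ≤ av u z) (z1 : Z2) (h1 : bx z0 (2 * N) z1)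
    (c : ℝ) (hc : c ≤ u z1) :
    ∃ t, Wk z1 t ∧ ¬ bx z0 (8 * N - 1) (en z1 t) ∧ ∀ v ∈ z1 :: t, c ≤ u v := by
  classical
  by_contra hcon
  push Not at hcon
  let S : Finset Z2 := (bxF z0 (12 * N - 1)).filter
    (fun w => ∃ t, Wk z1 t ∧ en z1 t = w ∧ ∀ v ∈ z1 :: t, c ≤ u v)
  have hS : ∀ w ∈ S, bx z0 (8 * N - 1) w := by
    intro w hw
    obtain ⟨_, t, k1, k2, k3⟩ := Finset.mem_filter.1 hw
    by_contra hb
    obtain ⟨v, hv, hv2⟩ := hcon t k1 (by rw [k2]; exact hb)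
    exact absurd (k3 v hv) (not_le.2 hv2)
  have hbd : ∀ z ∈ S, ∀ w ∈ nb z, w ∉ S → u w < c := by
    intro z hz w hw hwS
    by_contra hcw
    push Not at hcw
    apply hwS
    obtain ⟨_, t, k1, k2, k3⟩ := Finset.mem_filter.1 hz
    refine Finset.mem_filter.2 ⟨?_, t ++ [w], Wk_concat w t z1 k1 (by rw [k2]; exact hw), ?_, ?_⟩
    · rw [mem_bxF]
      exact bx_mono (by omega) (bx_nb (hS z hz) hw)
    · rw [en_append]; rfl
    · intro v hv
      rw [← List.cons_append, List.mem_append] at hv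
      rcases hv with hv | hv
      · exact k3 v hv
      · simp only [List.mem_singleton] at hv
        rw [hv]; exact hcw
  have hz1 : z1 ∈ S := by
    refine Finset.mem_filter.2 ⟨mem_bxF.2 (bx_mono (by omega) h1), [], trivial, rfl, ?_⟩
    intro v hv
    simp only [List.mem_singleton] at hv
    rw [hv]; exact hc
  obtain ⟨M', hM', hM'c⟩ : ∃ M' : ℝ, (∀ z ∈ S, ∀ w ∈ nb z, w ∉ S → u w ≤ M') ∧ M' < c := by
    by_cases hT : ((S.biUnion nb).filter (fun w => w ∉ S)).Nonempty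
    · obtain ⟨m, hm, hm2⟩ := Finset.exists_max_image _ u hT
      refine ⟨u m, ?_, ?_⟩
      · intro z hz w hw hwS
        exact hm2 w (Finset.mem_filter.2 ⟨Finset.mem_biUnion.2 ⟨z, hz, hw⟩, hwS⟩)
      · rw [Finset.mem_filter, Finset.mem_biUnion] at hm
        obtain ⟨⟨z, hz, hw⟩, hmS⟩ := hm
        exact hbd z hz m hw hmS
    · refine ⟨c - 1, ?_, by linarith⟩
      intro z hz w hw hwS
      exact absurd ⟨w, Finset.mem_filter.2 ⟨Finset.mem_biUnion.2 ⟨z, hz, hw⟩, hwS⟩⟩ hT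
  have := max_prin S u M' (fun z hz => hsub z (mem_bxF.1 (Finset.mem_filter.1 hz).1)) hM' z1 hz1
  linarith

lemma cLL_le_one : cLL ≤ 1 := by
  unfold cLL
  have hpi := Real.pi_pos
  have e1 : Real.exp (-Real.pi) ≤ 1 := Real.exp_le_one_iff.2 (by linarith)
  have e2 : Real.exp (-(7 * Real.pi)) ≤ 1 := Real.exp_le_one_iff.2 (by linarith)
  have e3 : Real.exp (-(10 / 3 * Real.pi)) ≤ 1 := Real.exp_le_one_iff.2 (by linarith)
  have p1 := Real.exp_pos (-Real.pi)
  have p2 := Real.exp_pos (-(7 * Real.pi))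
  have p3 := Real.exp_pos (-(10 / 3 * Real.pi))
  calc _ ≤ (1 : ℝ) * (1 * 1) := by
        apply mul_le_mul (by linarith) _ (by positivity) (by norm_num)
        apply mul_le_mul (by linarith) (by linarith) (by positivity) (by norm_num)
    _ = 1 := by norm_num

lemma av_div (u : Z2 → ℝ) (c : ℝ) (z : Z2) : av (fun w => u w / c) z = av u z / c := by
  simp only [av_eq]; ring

/-- **Harnack inequality** -/
theorem harnack (N : ℤ) (hN : 1 ≤ N) (z0 : Z2) (u : Z2 → ℝ)
    (hpos : ∀ z, bx z0 (12 * N) z → 0 ≤ u z)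
    (hharm : ∀ z, bx z0 (12 * N - 1) z → av u z = u z) :
    ∀ z w, bx z0 (2 * N) z → bx z0 (2 * N) w → cLL * u z ≤ u w := by
  intro z w hz hw
  have hz0 := hpos z (bx_mono (by omega) hz)
  rcases hz0.lt_or_eq with hlt | heq
  · obtain ⟨t, k1, k2, k3⟩ := reach N hN z0 u (fun v hv => (hharm v hv).ge) z hz (u z) le_rfl
    have h := LL N hN z0 (fun v => u v / u z) (fun v hv => div_nonneg (hpos v hv) hz0)
      (fun v hv => by rw [av_div, hharm v hv]) z t k1 hz k2 (fun v hv => by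
        rw [le_div_iff₀ hlt, one_mul]; exact k3 v hv) w hw
    rwa [le_div_iff₀ hlt] at h
  · rw [← heq, mul_zero]
    exact hpos w (bx_mono (by omega) hw)

/-- **oscillation decay** -/
theorem osc (N : ℤ) (hN : 1 ≤ N) (z0 : Z2) (u : Z2 → ℝ)
    (hharm : ∀ z, bx z0 (12 * N - 1) z → av u z = u z) (D : ℝ)
    (hD : ∀ z w, bx z0 (12 * N) z → bx z0 (12 * N) w → u z - u w ≤ D) :
    ∀ z w, bx z0 (2 * N) z → bx z0 (2 * N) w → u z - u w ≤ (1 - cLL / 2) * D := by
  intro z w hz hw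
  have hne : (bxF z0 (12 * N)).Nonempty := ⟨z0, mem_bxF.2 (bx_self z0 (by omega))⟩
  obtain ⟨mA, hA1, hA2⟩ := Finset.exists_min_image _ u hne
  obtain ⟨mB, hB1, hB2⟩ := Finset.exists_max_image _ u hne
  rw [mem_bxF] at hA1 hB1
  set A := u mA
  set B := u mB
  have hBA : B - A ≤ D := hD mB mA hB1 hA1
  have hlow : ∀ v, bx z0 (12 * N) v → A ≤ u v := fun v hv => hA2 v (mem_bxF.2 hv)
  have hup : ∀ v, bx z0 (12 * N) v → u v ≤ B := fun v hv => hB2 v (mem_bxF.2 hv)
  have hz12 : bx z0 (12 * N) z := bx_mono (by omega) hz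
  have hw12 : bx z0 (12 * N) w := bx_mono (by omega) hw
  have hc0 := cLL_pos
  have hc1 := cLL_le_one
  have hAB : A ≤ B := (hlow z hz12).trans (hup z hz12)
  suffices h : u z - u w ≤ (1 - cLL / 2) * (B - A) by
    refine h.trans ?_
    exact mul_le_mul_of_nonneg_left hBA (by linarith)
  by_cases hm : (A + B) / 2 ≤ u z
  · rcases hAB.lt_or_eq with hlt | heq
    · obtain ⟨t, k1, k2, k3⟩ := reach N hN z0 u (fun v hv => (hharm v hv).ge) z hz ((A + B) / 2) hm
      have hpos : 0 < (B - A) / 2 := by linarith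
      have h := LL N hN z0 (fun v => (u v - A) / ((B - A) / 2))
        (fun v hv => div_nonneg (by linarith [hlow v hv]) hpos.le)
        (fun v hv => by
          rw [av_div (fun v => u v - A), av_sub, av_const, hharm v hv]) z t k1 hz k2 (fun v hv => by
          rw [le_div_iff₀ hpos, one_mul]; linarith [k3 v hv]) w hw
      rw [le_div_iff₀ hpos] at h
      have := hup z hz12
      nlinarith
    · have := hup z hz12
      have := hlow w hw12
      have e : B - A = 0 := by linarith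
      rw [e, mul_zero]
      linarith
  · push Not at hm
    have := hlow w hw12
    nlinarith

lemma osc_iter (m : ℕ) : ∀ (N : ℤ) (_ : 1 ≤ N) (z0 : Z2) (u : Z2 → ℝ)
    (_ : ∀ z, bx z0 (2 * N * 6 ^ m - 1) z → av u z = u z) (D : ℝ)
    (_ : ∀ z w, bx z0 (2 * N * 6 ^ m) z → bx z0 (2 * N * 6 ^ m) w → u z - u w ≤ D),
    ∀ z w, bx z0 (2 * N) z → bx z0 (2 * N) w → u z - u w ≤ (1 - cLL / 2) ^ m * D := by
  induction m with
  | zero =>
    intro N hN z0 u hharm D hD z w hz hw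
    simp only [pow_zero, mul_one, one_mul] at *
    exact hD z w hz hw
  | succ m ih =>
    intro N hN z0 u hharm D hD z w hz hw
    have h6 : (0 : ℤ) < 6 ^ m := by positivity
    have e : 2 * N * 6 ^ (m + 1) = 12 * (N * 6 ^ m) := by ring
    rw [e] at hharm hD
    have hN' : 1 ≤ N * 6 ^ m := by nlinarith
    have h1 := osc (N * 6 ^ m) hN' z0 u hharm D hD
    have e2 : 2 * (N * 6 ^ m) = 2 * N * 6 ^ m := by ring
    rw [e2] at h1
    have h2 := ih N hN z0 u (fun z hz => hharm z (bx_mono (by nlinarith) hz)) _ h1 z w hz hw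
    rw [pow_succ, mul_assoc]
    exact h2

/-- one step of the **weak Beurling estimate** -/
theorem beurling_step (N : ℤ) (hN : 1 ≤ N) (z0 : Z2) (g : Z2 → ℝ)
    (hsub : ∀ z, bx z0 (12 * N - 1) z → g z ≤ av g z) (s : ℝ) (hs : 0 ≤ s)
    (hg0 : ∀ z, 0 ≤ g z)
    (hgs : ∀ z, bx z0 (12 * N) z → g z ≤ s)
    (a : Z2) (t : List Z2) (hW : Wk a t) (ha : bx z0 (2 * N) a)
    (hex : ¬ bx z0 (8 * N - 1) (en a t)) (hΓ : ∀ v ∈ a :: t, g v = 0) :
    ∀ z, bx z0 (2 * N) z → g z ≤ (1 - cLL) * s := by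
  intro z hz
  rcases hs.lt_or_eq with hlt | heq
  · have h := LL N hN z0 (fun v => (s - g v) / s) (fun v hv => div_nonneg (by linarith [hgs v hv]) hs)
      (fun v hv => by
        rw [av_div (fun v => s - g v), av_sub, av_const]
        gcongr
        exact hsub v hv) a t hW ha hex (fun v hv => by
        rw [hΓ v hv, sub_zero, div_self hlt.ne']) z hz
    rw [le_div_iff₀ hlt] at h
    nlinarith
  · have := hgs z (bx_mono (by omega) hz)
    rw [← heq] at this ⊢
    linarith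

theorem beurling (m : ℕ) : ∀ (N : ℤ) (_ : 1 ≤ N) (z0 : Z2) (g : Z2 → ℝ)
    (_ : ∀ z, bx z0 (2 * N * 6 ^ m - 1) z → g z ≤ av g z) (s : ℝ) (_ : 0 ≤ s)
    (_ : ∀ z, 0 ≤ g z)
    (_ : ∀ z, bx z0 (2 * N * 6 ^ m) z → g z ≤ s)
    (a : Z2) (t : List Z2) (_ : Wk a t) (_ : bx z0 (2 * N) a)
    (_ : ¬ bx z0 (2 * N * 6 ^ m - 1) (en a t)) (_ : ∀ v ∈ a :: t, g v = 0),
    ∀ z, bx z0 (2 * N) z → g z ≤ (1 - cLL) ^ m * s := by
  induction m with
  | zero =>
    intro N hN z0 g hsub s hs hg0 hgs a t hW ha hex hΓ z hz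
    simp only [pow_zero, mul_one, one_mul] at *
    exact hgs z hz
  | succ m ih =>
    intro N hN z0 g hsub s hs hg0 hgs a t hW ha hex hΓ z hz
    have h6 : (0 : ℤ) < 6 ^ m := by positivity
    have h61 : (1 : ℤ) ≤ 6 ^ m := by omega
    have e : 2 * N * 6 ^ (m + 1) = 12 * (N * 6 ^ m) := by ring
    rw [e] at hsub hgs hex
    have hN' : 1 ≤ N * 6 ^ m := by nlinarith
    have h1 := beurling_step (N * 6 ^ m) hN' z0 g hsub s hs hg0 hgs a t hW
      (bx_mono (by nlinarith) ha) (fun h => hex (bx_mono (by omega) h)) hΓ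
    have e2 : 2 * (N * 6 ^ m) = 2 * N * 6 ^ m := by ring
    rw [e2] at h1
    have hc1 := cLL_le_one
    have h2 := ih N hN z0 g (fun z hz => hsub z (bx_mono (by nlinarith) hz)) _
      (mul_nonneg (by linarith) hs) hg0 h1 a t hW ha
      (fun h => hex (bx_mono (by nlinarith) h)) hΓ z hz
    rw [pow_succ, mul_assoc]
    exact h2

end Pool.Agent.H96.LE
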