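import Pool.Agent.H96.LE.Loop4
import Pool.Agent.H96.LE.Rect2

/-!
# Regularity of the crossing kernel
-/

namespace Pool.Agent.H96.LE

open Finset Filter

section fixed

variable {n R : ℝ}

/-- kernel of the annulus -/
noncomputable def uk (n R : ℝ) (j : ℤ) (z : Z2) : ℝ :=
  H q1 (SA R (Mn n R)) (Xm R (Mn n R)) z (-j, 0)

/-- kernel of the larger annulus -/
noncomputable def ut (n R : ℝ) (j : ℤ) (z : Z2) : ℝ :=
  H q1 (SA (R / 2) (2 * Mn n R)) (Xm (R / 2) (2 * Mn n R)) z (-j, 0)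

lemma uk_nonneg (j : ℤ) (z : Z2) : 0 ≤ uk n R j z := H_q1_nonneg _ _ _ _
lemma ut_nonneg (j : ℤ) (z : Z2) : 0 ≤ ut n R j z := H_q1_nonneg _ _ _ _

lemma H_av {D O : Finset Z2} (hDO : Disjoint D O) {z : Z2} (hz : z ∈ D) (y : Z2) :
    av (fun w => H q1 D O w y) z = H q1 D O z y := by
  rw [H_step GW_q1 hDO hz, sum_q1 z (fun w => H q1 D O w y)]

lemma uk_le_ut (hn : 0 < n) (hR : 1 ≤ R) (j : ℤ) (hj : j ∈ XI R (Mn n R)) (z : Z2) :
    uk n R j z ≤ ut n R j z := by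
  have hR0 : 0 ≤ R := by linarith
  have hR2 : 0 ≤ R / 2 := by linarith
  have hMR := Mn_ge hn.le hR0
  have hsub : ∀ z ∈ SA R (Mn n R), z ∈ SA (R / 2) (2 * Mn n R) := by
    intro z hz
    rw [mem_SA hR0, mem_VV] at hz
    rw [mem_SA hR2, mem_VV]
    exact ⟨⟨by linarith [hz.1.1], by linarith [hz.1.2]⟩, hz.2⟩
  have hout : ∀ w, w ∉ SA R (Mn n R) → uk n R j w ≤ ut n R j w := by
    intro w hw
    by_cases hwX : w ∈ Xm R (Mn n R)
    · have h1 : uk n R j w = if w = (-j, 0) then 1 else 0 := H_out hw hwX _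
      have hw' : w ∈ Xm (R / 2) (2 * Mn n R) := by
        rw [mem_Xm hR0] at hwX
        rw [mem_Xm hR2]
        exact ⟨hwX.1, by linarith [hwX.2.1], by linarith [hwX.2.2]⟩
      have h2 : ut n R j w = if w = (-j, 0) then 1 else 0 :=
        H_out (fun h => Finset.disjoint_left.1 (disj_SA hR2) h hw') hw' _
      rw [h1, h2]
    · have h1 : uk n R j w = 0 := H_none hw hwX _
      rw [h1]; exact ut_nonneg _ _
  by_cases hz : z ∈ SA R (Mn n R)
  · exact comparison (SA R (Mn n R)) (uk n R j) (ut n R j)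
      (fun v hv => (H_av (disj_SA hR0) hv _).ge) (fun v hv => (H_av (disj_SA hR2) (hsub v hv) _).le)
      (fun v _ w _ hw => hout w hw) z hz
  · exact hout z hz

lemma norm_le_sum (z : Z2) : ‖cx z‖ ≤ |(z.1 : ℝ)| + |(z.2 : ℝ)| := by
  have := Complex.norm_le_abs_re_add_abs_im (cx z)
  simpa using this

lemma re_le_norm (z : Z2) : (z.1 : ℝ) ≤ ‖cx z‖ := by
  have := Complex.re_le_norm (cx z)
  simpa using this

lemma box_mem_big (hn : 0 < n) (hR : 1 ≤ R) {N k : ℤ} (hN : (N : ℝ) ≤ R / 40) (hk : R ≤ (k : ℝ))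
    (hkM : (k : ℝ) ≤ Mn n R) {z : Z2} (hz : bx (k, 0) (12 * N) z) :
    z ∈ SA (R / 2) (2 * Mn n R) := by
  have hMR := Mn_ge (n := n) hn.le (show 0 ≤ R by linarith)
  unfold bx at hz
  simp only [sub_zero] at hz
  rw [abs_le, abs_le] at hz
  have h1 : ((k : ℝ) - 12 * N) ≤ z.1 := by
    have : k - 12 * N ≤ z.1 := by omega
    exact_mod_cast this
  have h2 : (z.1 : ℝ) ≤ k + 12 * N := by
    have : z.1 ≤ k + 12 * N := by omega
    exact_mod_cast this
  have h3 : |(z.2 : ℝ)| ≤ 12 * N := by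
    rw [abs_le]
    constructor
    · have : -(12 * N) ≤ z.2 := hz.2.1
      exact_mod_cast this
    · exact_mod_cast hz.2.2
  rw [mem_SA (by linarith), mem_VV]
  have h4 := re_le_norm z
  have h5 := norm_le_sum z
  have hz1 : (0 : ℝ) < z.1 := by linarith
  rw [abs_of_pos hz1] at h5
  refine ⟨⟨by linarith, by linarith⟩, ?_⟩
  rintro ⟨_, h6⟩
  have : (z.1 : ℝ) < 0 := by exact_mod_cast h6
  linarith

lemma ut_harnack (hn : 0 < n) (hR : 1 ≤ R) {N k : ℤ} (hN1 : 1 ≤ N) (hN : (N : ℝ) ≤ R / 40)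
    (hk : R ≤ (k : ℝ)) (hkM : (k : ℝ) ≤ Mn n R) (j : ℤ) {z w : Z2} (hz : bx (k, 0) (2 * N) z)
    (hw : bx (k, 0) (2 * N) w) : cLL * ut n R j z ≤ ut n R j w := by
  apply harnack N hN1 (k, 0) (ut n R j) (fun v _ => ut_nonneg _ _) _ z w hz hw
  intro v hv
  exact H_av (disj_SA (by linarith)) (box_mem_big hn hR hN hk hkM (bx_mono (by omega) hv)) _

lemma ut_chain (hn : 0 < n) (hR : 1 ≤ R) {N x0 : ℤ} (hN1 : 1 ≤ N) (hN : (N : ℝ) ≤ R / 40)
    (hx0 : R ≤ (x0 : ℝ)) (j : ℤ) (m : ℕ) : ∀ k : ℤ, x0 ≤ k → k ≤ x0 + 2 * N * m →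
      (k : ℝ) ≤ Mn n R → cLL ^ m * ut n R j (k, 0) ≤ ut n R j (x0, 0) := by
  have hc0 := cLL_pos
  have hc1 := cLL_le_one
  induction m with
  | zero =>
    intro k h1 h2 h3
    have : k = x0 := by simp at h2; omega
    rw [this]; simp
  | succ m ih =>
    intro k h1 h2 h3
    have hu := ut_nonneg (n := n) (R := R) j (k, 0)
    by_cases h4 : k ≤ x0 + 2 * N * m
    · refine le_trans ?_ (ih k h1 h4 h3)
      rw [pow_succ]
      have : 0 ≤ cLL ^ m * ut n R j (k, 0) := by positivity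
      nlinarith
    · push Not at h4
      set k' : ℤ := max x0 (k - 2 * N) with hk'
      have e1 : x0 ≤ k' := le_max_left _ _
      have e2 : k' ≤ x0 + 2 * N * m := by
        apply max_le
        · have : (0 : ℤ) ≤ 2 * N * m := by positivity
          omega
        · have : 2 * N * ((m + 1 : ℕ) : ℤ) = 2 * N * m + 2 * N := by push_cast; ring
          rw [this] at h2
          omega
      have e3 : k - 2 * N ≤ k' := le_max_right _ _
      have e4 : k' ≤ k := max_le h1 (by omega)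
      have e5 : (k' : ℝ) ≤ k := by exact_mod_cast e4
      have e6 : (x0 : ℝ) ≤ k' := by exact_mod_cast e1
      have h5 := ih k' e1 e2 (by linarith)
      have h6 := ut_harnack hn hR hN1 hN (k := k') (by linarith) (by linarith) j (z := (k, 0))
        (w := (k', 0)) (by
          unfold bx; simp only [sub_self, abs_zero]
          rw [abs_le]; omega) (bx_self _ (by omega))
      rw [pow_succ, mul_assoc]
      refine le_trans ?_ h5
      apply mul_le_mul_of_nonneg_left h6 (by positivity)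

/-- chain constant -/
noncomputable def mch (n : ℝ) : ℕ := ⌈40 * Real.exp n⌉₊

/-- the majorant -/
noncomputable def nu (n R : ℝ) (j : ℤ) : ℝ := ut n R j (⌊R⌋ + 1, 0) / cLL ^ (mch n + 1)

lemma nu_nonneg (j : ℤ) : 0 ≤ nu n R j :=
  div_nonneg (ut_nonneg _ _) (pow_nonneg cLL_pos.le _)

lemma sum_nu (hR : 1 ≤ R) (hn : 0 < n) :
    ∑ j : XI R (Mn n R), nu n R j ≤ 1 / cLL ^ (mch n + 1) := by
  have hR0 : 0 ≤ R := by linarith
  have hR2 : 0 ≤ R / 2 := by linarith
  have hc0 := cLL_pos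
  have hMR := Mn_ge hn.le hR0
  unfold nu
  rw [← Finset.sum_div]
  apply div_le_div_of_nonneg_right _ (by positivity)
  rw [Finset.sum_coe_sort (XI R (Mn n R)) (fun j => ut n R j (⌊R⌋ + 1, 0))]
  have h1 : ∑ j ∈ XI R (Mn n R), ut n R j (⌊R⌋ + 1, 0) ≤
      ∑ j ∈ XI (R / 2) (2 * Mn n R), ut n R j (⌊R⌋ + 1, 0) := by
    apply Finset.sum_le_sum_of_subset_of_nonneg
    · intro j hj
      rw [mem_XI hR0] at hj
      rw [mem_XI hR2]
      exact ⟨by linarith [hj.1], by linarith [hj.2]⟩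
    · intro j _ _; exact ut_nonneg _ _
  refine h1.trans ?_
  have h2 : ∑ j ∈ XI (R / 2) (2 * Mn n R), ut n R j (⌊R⌋ + 1, 0) =
      PL q1 (SA (R / 2) (2 * Mn n R)) (Xm (R / 2) (2 * Mn n R)) (fun _ => 1) (⌊R⌋ + 1, 0) := by
    rw [PL_eq_sum GW_q1 (disj_SA hR2)]
    unfold Xm
    rw [Finset.sum_image (by
      intro a _ b _ h
      simpa using h)]
    simp only [mul_one]
    rfl
  rw [h2]
  unfold PL
  have h := norm_PS_le GW_q1 (disj_SA (R := R / 2) (M := 2 * Mn n R) hR2) (⌊R⌋ + 1, 0)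
    (fun l => if lst l ∈ Xm (R / 2) (2 * Mn n R) then (1 : ℝ) else 0) 1 (fun l => by
      split_ifs <;> simp)
  exact (le_abs_self _).trans h

lemma floor_facts (hR : 80 ≤ R) : (1 : ℤ) ≤ ⌊R / 40⌋ ∧ ((⌊R / 40⌋ : ℤ) : ℝ) ≤ R / 40 ∧
    R / 80 ≤ ((⌊R / 40⌋ : ℤ) : ℝ) := by
  have h1 := Int.floor_le (R / 40)
  have h2 := Int.lt_floor_add_one (R / 40)
  refine ⟨?_, h1, by linarith⟩
  rw [Int.le_floor]
  push_cast
  linarith

lemma ut_le_nu (hn : 0 < n) (hR : 80 ≤ R) (j : ℤ) {k : ℤ} (hk : R ≤ (k : ℝ))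
    (hkM : (k : ℝ) ≤ Mn n R) (hk2 : ⌊R⌋ + 1 ≤ k) {z : Z2} (hz : bx (k, 0) (2 * ⌊R / 40⌋) z) :
    ut n R j z ≤ nu n R j := by
  obtain ⟨hN1, hN, hN2⟩ := floor_facts hR
  have hc0 := cLL_pos
  have hx0 : R ≤ ((⌊R⌋ + 1 : ℤ) : ℝ) := by
    push_cast
    exact (Int.lt_floor_add_one R).le
  have h1 := ut_chain hn (by linarith) hN1 hN hx0 j (mch n) k hk2 (by
    have h2 : (k : ℝ) ≤ ((⌊R⌋ + 1 + 2 * ⌊R / 40⌋ * (mch n : ℤ) : ℤ) : ℝ) := by
      push_cast
      push_cast at hx0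
      have h3 : 40 * Real.exp n ≤ mch n := Nat.le_ceil _
      have h4 : R / 40 * (40 * Real.exp n) ≤ 2 * ((⌊R / 40⌋ : ℤ) : ℝ) * mch n := by
        apply mul_le_mul _ h3 (by positivity) (by linarith)
        linarith
      have h5 : R / 40 * (40 * Real.exp n) = Mn n R := by unfold Mn; ring
      linarith
    exact_mod_cast h2) hkM
  have h2 := ut_harnack hn (by linarith) hN1 hN hk hkM j hz (bx_self (k, 0) (by omega))
  unfold nu
  rw [le_div_iff₀ (by positivity), pow_succ]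
  calc ut n R j z * (cLL ^ mch n * cLL) = cLL ^ mch n * (cLL * ut n R j z) := by ring
    _ ≤ cLL ^ mch n * ut n R j (k, 0) := by gcongr
    _ ≤ _ := h1

lemma XI_ge {i : ℤ} (hR : 0 ≤ R) (hi : i ∈ XI R (Mn n R)) : ⌊R⌋ + 1 ≤ i := by
  have h1 := ((mem_XI hR).1 hi).1
  have h2 : ⌊R⌋ < i := Int.floor_lt.2 h1
  omega

lemma uk_le_nu (hn : 0 < n) (hR : 80 ≤ R) {j : ℤ} (hj : j ∈ XI R (Mn n R)) {k : ℤ}
    (hk : R ≤ (k : ℝ))
    (hkM : (k : ℝ) ≤ Mn n R) (hk2 : ⌊R⌋ + 1 ≤ k) {z : Z2} (hz : bx (k, 0) (2 * ⌊R / 40⌋) z) :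
    uk n R j z ≤ nu n R j :=
  (uk_le_ut hn (by linarith) j hj z).trans (ut_le_nu hn hR j hk hkM hk2 hz)

/-- near the inner circle -/
lemma uk_inner (hn : 0 < n) (hR : 2000 ≤ R) (hcube : 32 * (Mn n R + 1) ^ 2 ≤ (R / 80) ^ 3)
    (hbig : R + 100 ≤ Mn n R)
    {i j : ℤ} (hi : i ∈ XI R (Mn n R)) (hj : j ∈ XI R (Mn n R))
    (hin : (i : ℝ) - R < R / 160) : uk n R j (i, 0) ≤ 1600 * nu n R j * (((i : ℝ) - R + 3) / R) := by
  have hR80 : 80 ≤ R := by linarith
  obtain ⟨hN1, hN, hN2⟩ := floor_facts hR80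
  have hR0 : 0 < R := by linarith
  have hMR := Mn_ge hn.le hR0.le
  have hi' := (mem_XI hR0.le).1 hi
  have hipos : (0 : ℝ) < i := by linarith
  have hcxi : cx (i, 0) = ((i : ℝ) : ℂ) := by apply Complex.ext <;> simp
  have hni : ‖cx (i, 0)‖ = i := by
    rw [hcxi, Complex.norm_real, Real.norm_eq_abs, abs_of_pos hipos]
  set D : Finset Z2 := (SA R (Mn n R)).filter (fun z => ‖cx z - (R : ℂ)‖ < R / 160) with hD
  have hDm : ∀ z ∈ D, z ∈ SA R (Mn n R) ∧ ‖cx z - (R : ℂ)‖ < R / 160 := fun z hz =>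
    Finset.mem_filter.1 hz
  have h := barrier_in D R (Mn n R) (by linarith) (fun z hz => by
      have := ((mem_SA hR0.le).1 (hDm z hz).1).1
      exact mem_VV.1 this) (R / 80) (by linarith) (by linarith) hcube (nu n R j) (nu_nonneg j)
    (uk n R j) (fun z hz => (H_av (disj_SA hR0.le) (hDm z hz).1 _).ge) (i, 0)
    (Finset.mem_filter.2 ⟨axis_mem_SA hR0.le hi, by
      rw [hcxi, ← Complex.ofReal_sub, Complex.norm_real, Real.norm_eq_abs,
        abs_of_pos (by linarith)]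
      exact hin⟩) 1 (by simp) (by rw [hni, mul_one, hcxi]) (by
    intro z hz w hw hwD
    obtain ⟨hzS, hz2⟩ := hDm z hz
    have hw1 := norm_nb hw
    have hwR : ‖cx w - (R : ℂ)‖ ≤ R / 160 + 1 := by
      have h1 : ‖cx w - (R : ℂ)‖ ≤ ‖cx w - cx z‖ + ‖cx z - (R : ℂ)‖ :=
        norm_sub_le_norm_sub_add_norm_sub _ _ _
      rw [hw1] at h1; linarith
    have hwre : (w.1 : ℝ) - R ≤ R / 160 + 1 ∧ -(R / 160 + 1) ≤ (w.1 : ℝ) - R := by
      have h1 := (Complex.abs_re_le_norm (cx w - (R : ℂ))).trans hwR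
      simp only [Complex.sub_re, cx_re, Complex.ofReal_re] at h1
      rw [abs_le] at h1
      exact ⟨h1.2, h1.1⟩
    have hwim : |(w.2 : ℝ)| ≤ R / 160 + 1 := by
      have h1 := (Complex.abs_im_le_norm (cx w - (R : ℂ))).trans hwR
      simpa using h1
    by_cases hwS : w ∈ SA R (Mn n R)
    · right
      have hwn : R / 160 ≤ ‖cx w - (R : ℂ)‖ := by
        by_contra hcon
        exact hwD (Finset.mem_filter.2 ⟨hwS, not_le.1 hcon⟩)
      refine ⟨?_, (mem_VV.1 ((mem_SA hR0.le).1 hwS).1).1.le, ?_⟩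
      · apply uk_le_nu hn hR80 hj (k := ⌊R⌋ + 1)
        · push_cast; exact (Int.lt_floor_add_one R).le
        · push_cast; linarith [Int.floor_le R]
        · exact le_rfl
        · unfold bx
          simp only [sub_zero]
          have f1 := Int.floor_le R
          have f2 := Int.lt_floor_add_one R
          constructor
          · have : |((w.1 - (⌊R⌋ + 1) : ℤ) : ℝ)| ≤ ((2 * ⌊R / 40⌋ : ℤ) : ℝ) := by
              push_cast
              rw [abs_le]
              constructor <;> linarith [hwre.1, hwre.2]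
            exact_mod_cast this
          · have : |((w.2 : ℤ) : ℝ)| ≤ ((2 * ⌊R / 40⌋ : ℤ) : ℝ) := by
              push_cast
              linarith
            exact_mod_cast this
      · rw [mul_one]; linarith
    · left
      rcases SA_nb hR0.le hzS hw hwS with h1 | ⟨h1, _⟩
      · exfalso
        rw [mem_Xm hR0.le] at h1
        linarith [h1.2.1, hwre.2]
      · have : uk n R j w = 0 := H_none hwS h1 _
        rw [this])
  rw [hni] at h
  refine h.trans (le_of_eq ?_)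
  field_simp
  ring

/-- near the outer circle -/
lemma uk_outer (hn : 0 < n) (hR : 2000 ≤ R) (hcube : 32 * (Mn n R + 1) ^ 2 ≤ (R / 80) ^ 3)
    (hbig : R + 100 ≤ Mn n R)
    {i j : ℤ} (hi : i ∈ XI R (Mn n R)) (hj : j ∈ XI R (Mn n R))
    (hin : Mn n R - i < R / 160) :
    uk n R j (i, 0) ≤ 1600 * nu n R j * ((Mn n R - i + 3) / R) := by
  have hR80 : 80 ≤ R := by linarith
  obtain ⟨hN1, hN, hN2⟩ := floor_facts hR80
  have hR0 : 0 < R := by linarith
  have hMR := Mn_ge hn.le hR0.le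
  have hi' := (mem_XI hR0.le).1 hi
  have hipos : (0 : ℝ) < i := by linarith
  have hcxi : cx (i, 0) = ((i : ℝ) : ℂ) := by apply Complex.ext <;> simp
  have hni : ‖cx (i, 0)‖ = i := by
    rw [hcxi, Complex.norm_real, Real.norm_eq_abs, abs_of_pos hipos]
  set M : ℝ := Mn n R with hM
  set D : Finset Z2 := (SA R M).filter (fun z => ‖cx z - (M : ℂ)‖ < R / 160) with hD
  have hDm : ∀ z ∈ D, z ∈ SA R M ∧ ‖cx z - (M : ℂ)‖ < R / 160 := fun z hz =>
    Finset.mem_filter.1 hz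
  have h := barrier_out D M (by linarith) (fun z hz => by
      have := ((mem_SA hR0.le).1 (hDm z hz).1).1
      exact (mem_VV.1 this).2) (R / 80) (by linarith) hcube (nu n R j) (nu_nonneg j)
    (uk n R j) (fun z hz => (H_av (disj_SA hR0.le) (hDm z hz).1 _).ge) (i, 0)
    (Finset.mem_filter.2 ⟨axis_mem_SA hR0.le hi, by
      rw [hcxi, ← Complex.ofReal_sub, Complex.norm_real, Real.norm_eq_abs,
        abs_of_neg (by linarith)]
      linarith⟩) 1 (by simp) (by rw [hni, mul_one, hcxi]) (by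
    intro z hz w hw hwD
    obtain ⟨hzS, hz2⟩ := hDm z hz
    have hw1 := norm_nb hw
    have hwR : ‖cx w - (M : ℂ)‖ ≤ R / 160 + 1 := by
      have h1 : ‖cx w - (M : ℂ)‖ ≤ ‖cx w - cx z‖ + ‖cx z - (M : ℂ)‖ :=
        norm_sub_le_norm_sub_add_norm_sub _ _ _
      rw [hw1] at h1; linarith
    have hwre : (w.1 : ℝ) - M ≤ R / 160 + 1 ∧ -(R / 160 + 1) ≤ (w.1 : ℝ) - M := by
      have h1 := (Complex.abs_re_le_norm (cx w - (M : ℂ))).trans hwR
      simp only [Complex.sub_re, cx_re, Complex.ofReal_re] at h1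
      rw [abs_le] at h1
      exact ⟨h1.2, h1.1⟩
    have hwim : |(w.2 : ℝ)| ≤ R / 160 + 1 := by
      have h1 := (Complex.abs_im_le_norm (cx w - (M : ℂ))).trans hwR
      simpa using h1
    have hwM : ‖cx w‖ ≤ M + 1 := by
      have := (norm_nb_ge hw).2
      have := (mem_VV.1 ((mem_SA hR0.le).1 hzS).1).2
      linarith
    by_cases hwS : w ∈ SA R M
    · right
      have hwn : R / 160 ≤ ‖cx w - (M : ℂ)‖ := by
        by_contra hcon
        exact hwD (Finset.mem_filter.2 ⟨hwS, not_le.1 hcon⟩)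
      refine ⟨?_, hwM, ?_⟩
      · have f1 := Int.le_ceil M
        have f2 := Int.ceil_lt_add_one M
        apply uk_le_nu hn hR80 hj (k := ⌈M⌉ - 1)
        · push_cast; linarith
        · push_cast; rw [← hM]; linarith
        · have : ((⌊R⌋ + 1 : ℤ) : ℝ) ≤ ((⌈M⌉ - 1 : ℤ) : ℝ) := by
            push_cast
            linarith [Int.floor_le R]
          exact_mod_cast this
        · unfold bx
          simp only [sub_zero]
          constructor
          · have : |((w.1 - (⌈M⌉ - 1) : ℤ) : ℝ)| ≤ ((2 * ⌊R / 40⌋ : ℤ) : ℝ) := by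
              push_cast
              rw [abs_le]
              constructor <;> linarith [hwre.1, hwre.2]
            exact_mod_cast this
          · have : |((w.2 : ℤ) : ℝ)| ≤ ((2 * ⌊R / 40⌋ : ℤ) : ℝ) := by
              push_cast
              linarith
            exact_mod_cast this
      · rw [mul_one]; linarith
    · left
      rcases SA_nb hR0.le hzS hw hwS with h1 | ⟨h1, _⟩
      · exfalso
        rw [mem_Xm hR0.le] at h1
        linarith [h1.2.1, hwre.2]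
      · have : uk n R j w = 0 := H_none hwS h1 _
        rw [this])
  rw [hni] at h
  refine h.trans (le_of_eq ?_)
  field_simp
  ring

/-- interior regularity -/
lemma uk_mid (hn : 0 < n) (hR : 80 ≤ R) {i i' j N0 : ℤ} {m : ℕ} (hi : i ∈ XI R (Mn n R))
    (hj : j ∈ XI R (Mn n R)) (hN0 : 1 ≤ N0) (h1 : R + 2 * N0 * 6 ^ m < i)
    (h2 : (i : ℝ) + 2 * (2 * N0 * 6 ^ m) < Mn n R) (h3 : 2 * N0 * 6 ^ m ≤ 2 * ⌊R / 40⌋)
    (h4 : |i' - i| ≤ 2 * N0) :
    |uk n R j (i, 0) - uk n R j (i', 0)| ≤ (1 - cLL / 2) ^ m * nu n R j := by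
  have hR0 : 0 < R := by linarith
  have hi' := (mem_XI hR0.le).1 hi
  set c : ℤ := 2 * N0 * 6 ^ m with hc
  have hcR : (c : ℝ) = 2 * N0 * 6 ^ m := by rw [hc]; push_cast; ring
  rw [← hcR] at h1 h2
  have hc0 : 0 ≤ c := by
    rw [hc]
    have : (0 : ℤ) ≤ 6 ^ m := by positivity
    have : 0 ≤ N0 := by omega
    positivity
  have hcR0 : (0 : ℝ) ≤ c := by exact_mod_cast hc0
  have hbox : ∀ z, bx (i, 0) c z → z ∈ SA R (Mn n R) := by
    intro z hz
    unfold bx at hz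
    simp only [sub_zero] at hz
    have e1 : |(z.1 : ℝ) - i| ≤ c := by exact_mod_cast hz.1
    have e2 : |(z.2 : ℝ)| ≤ c := by exact_mod_cast hz.2
    rw [abs_le] at e1
    have hz1 : (0 : ℝ) < z.1 := by linarith [e1.1]
    have e3 := re_le_norm z
    have e4 := norm_le_sum z
    rw [abs_of_pos hz1] at e4
    rw [mem_SA hR0.le, mem_VV]
    refine ⟨⟨by linarith [e1.1], by linarith [e1.2]⟩, ?_⟩
    rintro ⟨_, h6⟩
    have : (z.1 : ℝ) < 0 := by exact_mod_cast h6
    linarith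
  have hosc := osc_iter m N0 hN0 (i, 0) (uk n R j)
    (fun z hz => H_av (disj_SA hR0.le) (hbox z (bx_mono (by omega) hz)) _) (nu n R j)
    (fun z w hz hw => by
      have e1 := uk_le_nu hn hR hj hi'.1.le hi'.2.le (XI_ge hR0.le hi) (bx_mono h3 hz)
      have e2 := uk_nonneg (n := n) (R := R) j w
      linarith)
  have b1 : bx (i, 0) (2 * N0) (i, 0) := bx_self _ (by omega)
  have b2 : bx (i, 0) (2 * N0) (i', 0) := by
    unfold bx
    simp only [sub_self, abs_zero]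
    exact ⟨h4, by omega⟩
  rw [abs_le]
  constructor
  · linarith [hosc _ _ b2 b1]
  · exact hosc _ _ b1 b2

end fixed

lemma exp_sub_one_le {δ : ℝ} (h0 : 0 ≤ δ) (h1 : δ ≤ 1 / 2) : Real.exp δ - 1 ≤ 2 * δ := by
  rcases h0.lt_or_eq with h | h
  · have h10 := Real.exp_bound_div_one_sub_of_interval (x := δ) h0 (by linarith)
    have h11 : 1 / (1 - δ) ≤ 1 + 2 * δ := by
      rw [div_le_iff₀ (by linarith)]
      nlinarith
    linarith
  · rw [← h]; simp

theorem kernel_reg (n : ℝ) (hn : 0 < n) : ∃ C > 0, ∀ ε > 0, ∃ δ > 0, ∀ᶠ R in atTop,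
    ∃ ν : ℤ → ℝ, (∀ j, 0 ≤ ν j) ∧ (∑ j : XI R (Mn n R), ν j ≤ C) ∧
      (∀ i j : XI R (Mn n R), Ah R (Mn n R) i j ≤ ν j) ∧
      (∀ i i' j : XI R (Mn n R), |Real.log (((i : ℤ) : ℝ) / R) - Real.log (((i' : ℤ) : ℝ) / R)| ≤ δ →
        |Ah R (Mn n R) i j - Ah R (Mn n R) i' j| ≤ ε * ν j) ∧
      (∀ i j : XI R (Mn n R), (Real.log (((i : ℤ) : ℝ) / R) ≤ δ ∨
        n - δ ≤ Real.log (((i : ℤ) : ℝ) / R)) → Ah R (Mn n R) i j ≤ ε * ν j) := by
  have hc0 := cLL_pos
  have hc1 := cLL_le_one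
  have hexp1 : 1 ≤ Real.exp n := Real.one_le_exp hn.le
  refine ⟨1 / cLL ^ (mch n + 1), by positivity, ?_⟩
  intro ε hε
  obtain ⟨m, hm⟩ : ∃ m : ℕ, (1 - cLL / 2) ^ m < ε :=
    exists_pow_lt_of_lt_one hε (by linarith)
  set δ1 : ℝ := min (min (ε / 6400) (1 / 320)) (n / 4) with hδ1
  have hδ10 : 0 < δ1 := lt_min (lt_min (by positivity) (by norm_num)) (by positivity)
  have hδ1a : δ1 ≤ ε / 6400 := (min_le_left _ _).trans (min_le_left _ _)
  have hδ1b : δ1 ≤ 1 / 320 := (min_le_left _ _).trans (min_le_right _ _)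
  set δ : ℝ := δ1 / (16 * 6 ^ m * Real.exp n) with hδ
  have h6m : (1 : ℝ) ≤ 6 ^ m := one_le_pow₀ (by norm_num)
  have hδ0 : 0 < δ := by positivity
  have hδδ1 : 2 * δ * Real.exp n ≤ δ1 / 8 := by
    have h1 : 2 * δ * Real.exp n = δ1 / (8 * 6 ^ m) := by
      rw [hδ]; field_simp; norm_num
    rw [h1]
    apply div_le_div_of_nonneg_left hδ10.le (by norm_num)
    linarith
  have hδ2 : 2 * δ ≤ δ1 / 8 := by
    refine le_trans ?_ hδδ1
    nlinarith
  have hδh : δ ≤ 1 / 2 := by linarith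
  refine ⟨δ, hδ0, ?_⟩
  have hcube : ∀ᶠ R : ℝ in atTop, 128 * Real.exp (2 * n) * 80 ^ 3 ≤ R := eventually_ge_atTop _
  filter_upwards [eventually_ge_atTop 2000, hcube, eventually_ge_atTop (100 / n),
    eventually_ge_atTop (19200 / ε), eventually_ge_atTop (16 * 6 ^ m / δ1)] with
    R hR hRc hRn hRε hRm
  have hR0 : 0 < R := by linarith
  have hMR' := Mn_ge' (n := n) hR0.le
  have hMR := Mn_ge hn.le hR0.le
  have hbig : R + 100 ≤ Mn n R := by
    rw [div_le_iff₀ hn] at hRn; linarith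
  have hcb : 32 * (Mn n R + 1) ^ 2 ≤ (R / 80) ^ 3 := by
    have h1 := M_sq_bd hn.le (show 1 ≤ R by linarith)
    calc 32 * (Mn n R + 1) ^ 2 ≤ 32 * (4 * Real.exp (2 * n) * R ^ 2) := by gcongr
      _ = (128 * Real.exp (2 * n) * 80 ^ 3) * R ^ 2 / 80 ^ 3 := by ring
      _ ≤ R * R ^ 2 / 80 ^ 3 := by gcongr
      _ = (R / 80) ^ 3 := by ring
  have hRe : 1600 * (3 / R) ≤ ε / 4 := by
    rw [div_le_iff₀ hε] at hRε
    rw [mul_div_assoc', div_le_div_iff₀ hR0 (by norm_num)]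
    linarith
  -- end zones
  have zone1 : ∀ i j : XI R (Mn n R), ((i : ℤ) : ℝ) - R ≤ δ1 * R →
      Ah R (Mn n R) i j ≤ ε / 2 * nu n R j := by
    intro i j hi
    have h1 : ((i : ℤ) : ℝ) - R < R / 160 := by nlinarith
    have h2 := uk_inner hn hR hcb hbig i.2 j.2 h1
    refine (show Ah R (Mn n R) i j ≤ _ from h2).trans ?_
    have h3 : (((i : ℤ) : ℝ) - R + 3) / R ≤ δ1 + 3 / R := by
      rw [add_div]
      gcongr
      rw [div_le_iff₀ hR0]; exact hi
    have hν := nu_nonneg (n := n) (R := R) (j : ℤ)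
    calc 1600 * nu n R j * ((((i : ℤ) : ℝ) - R + 3) / R) ≤ 1600 * nu n R j * (δ1 + 3 / R) := by gcongr
      _ = nu n R j * (1600 * δ1 + 1600 * (3 / R)) := by ring
      _ ≤ nu n R j * (ε / 4 + ε / 4) := by
          apply mul_le_mul_of_nonneg_left _ hν
          linarith
      _ = ε / 2 * nu n R j := by ring
  have zone2 : ∀ i j : XI R (Mn n R), Mn n R - ((i : ℤ) : ℝ) ≤ δ1 * R →
      Ah R (Mn n R) i j ≤ ε / 2 * nu n R j := by
    intro i j hi
    have h1 : Mn n R - ((i : ℤ) : ℝ) < R / 160 := by nlinarith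
    have h2 := uk_outer hn hR hcb hbig i.2 j.2 h1
    refine (show Ah R (Mn n R) i j ≤ _ from h2).trans ?_
    have h3 : (Mn n R - ((i : ℤ) : ℝ) + 3) / R ≤ δ1 + 3 / R := by
      rw [add_div]
      gcongr
      rw [div_le_iff₀ hR0]; exact hi
    have hν := nu_nonneg (n := n) (R := R) (j : ℤ)
    calc 1600 * nu n R j * ((Mn n R - ((i : ℤ) : ℝ) + 3) / R) ≤
          1600 * nu n R j * (δ1 + 3 / R) := by gcongr
      _ = nu n R j * (1600 * δ1 + 1600 * (3 / R)) := by ring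
      _ ≤ nu n R j * (ε / 4 + ε / 4) := by
          apply mul_le_mul_of_nonneg_left _ hν
          linarith
      _ = ε / 2 * nu n R j := by ring
  -- logarithmic distance versus distance
  have hdist : ∀ a b : ℝ, 0 < a → 0 < b → b ≤ Mn n R → Real.log a - Real.log b ≤ δ →
      a - b ≤ 2 * δ * Real.exp n * R := by
    intro a b ha hb hbM h
    have h1 : a ≤ b * Real.exp δ := by
      have h2 : Real.log a ≤ Real.log (b * Real.exp δ) := by
        rw [Real.log_mul hb.ne' (Real.exp_pos _).ne', Real.log_exp]; linarith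
      exact (Real.log_le_log_iff ha (by positivity)).1 h2
    have h3 := exp_sub_one_le hδ0.le hδh
    calc a - b ≤ b * (Real.exp δ - 1) := by linarith
      _ ≤ Mn n R * (2 * δ) := by
          apply mul_le_mul hbM h3 _ (by linarith)
          have := Real.add_one_le_exp δ
          linarith
      _ = 2 * δ * Real.exp n * R := by unfold Mn; ring
  have hpos : ∀ i : XI R (Mn n R), (0 : ℝ) < ((i : ℤ) : ℝ) ∧ ((i : ℤ) : ℝ) ≤ Mn n R ∧
      R < ((i : ℤ) : ℝ) := by
    intro i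
    have := (mem_XI hR0.le).1 i.2
    exact ⟨by linarith [this.1], this.2.le, this.1⟩
  refine ⟨nu n R, fun j => nu_nonneg j, sum_nu (by linarith) hn, ?_, ?_, ?_⟩
  · intro i j
    have hi := (mem_XI hR0.le).1 i.2
    exact uk_le_nu hn (by linarith) j.2 hi.1.le hi.2.le (XI_ge hR0.le i.2) (bx_self _ (by
      have := (floor_facts (show (80 : ℝ) ≤ R by linarith)).1
      omega))
  · intro i i' j hii
    have hν := nu_nonneg (n := n) (R := R) (j : ℤ)
    obtain ⟨p1, p2, p3⟩ := hpos i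
    obtain ⟨q1', q2', q3'⟩ := hpos i'
    rw [Real.log_div p1.ne' hR0.ne', Real.log_div q1'.ne' hR0.ne'] at hii
    have hii' := abs_le.1 hii
    have d1 := hdist _ _ p1 q1' q2' (by linarith [hii'.2])
    have d2 := hdist _ _ q1' p1 p2 (by linarith [hii'.1])
    have d3 : 2 * δ * Real.exp n * R ≤ δ1 / 8 * R := by gcongr
    have small : ∀ a b : XI R (Mn n R), Ah R (Mn n R) a j ≤ ε / 2 * nu n R j →
        Ah R (Mn n R) b j ≤ ε / 2 * nu n R j →
        |Ah R (Mn n R) a j - Ah R (Mn n R) b j| ≤ ε * nu n R j := by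
      intro a b ha hb
      have e1 := Ah_nonneg R (Mn n R) a j
      have e2 := Ah_nonneg R (Mn n R) b j
      have e3 : ε / 2 * nu n R j ≤ ε * nu n R j := by nlinarith
      rw [abs_le]; constructor <;> linarith
    by_cases hz1 : ((i : ℤ) : ℝ) - R ≤ δ1 / 2 * R
    · apply small i i' (zone1 i j (by nlinarith)) (zone1 i' j (by nlinarith))
    by_cases hz2 : Mn n R - ((i : ℤ) : ℝ) ≤ δ1 / 2 * R
    · apply small i i' (zone2 i j (by nlinarith)) (zone2 i' j (by nlinarith))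
    push Not at hz1 hz2
    -- interior
    set N0 : ℤ := ⌊δ1 * R / (8 * 6 ^ m)⌋ with hN0
    have f1 : (N0 : ℝ) ≤ δ1 * R / (8 * 6 ^ m) := Int.floor_le _
    have f2 : δ1 * R / (8 * 6 ^ m) < N0 + 1 := Int.lt_floor_add_one _
    have f0 : 2 ≤ δ1 * R / (8 * 6 ^ m) := by
      rw [le_div_iff₀ (by positivity)]
      rw [div_le_iff₀ hδ10] at hRm
      linarith
    have hN01 : 1 ≤ N0 := by
      rw [hN0, Int.le_floor]; push_cast; linarith
    have f3 : 2 * (N0 : ℝ) * 6 ^ m ≤ δ1 / 4 * R := by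
      calc 2 * (N0 : ℝ) * 6 ^ m ≤ 2 * (δ1 * R / (8 * 6 ^ m)) * 6 ^ m := by gcongr
        _ = δ1 / 4 * R := by field_simp; ring
    have f4 : 2 * N0 * 6 ^ m ≤ 2 * ⌊R / 40⌋ := by
      have : ((2 * N0 * 6 ^ m : ℤ) : ℝ) ≤ ((2 * ⌊R / 40⌋ : ℤ) : ℝ) := by
        push_cast
        have := (floor_facts (show (80 : ℝ) ≤ R by linarith)).2.2
        nlinarith
      exact_mod_cast this
    have f5 : |(i' : ℤ) - (i : ℤ)| ≤ 2 * N0 := by
      have : |((i' : ℤ) : ℝ) - ((i : ℤ) : ℝ)| ≤ 2 * N0 := by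
        have h1 : 2 * δ * Real.exp n * R = δ1 * R / (8 * 6 ^ m) := by
          rw [hδ]; field_simp; norm_num
        rw [h1] at d1 d2
        rw [abs_le]; constructor <;> linarith
      exact_mod_cast this
    have h := uk_mid hn (show 80 ≤ R by linarith) i.2 j.2 hN01 (m := m) (by linarith)
      (by linarith) f4 f5
    refine (show |Ah R (Mn n R) i j - Ah R (Mn n R) i' j| ≤ _ from h).trans ?_
    gcongr
  · intro i j hij
    have hν := nu_nonneg (n := n) (R := R) (j : ℤ)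
    obtain ⟨p1, p2, p3⟩ := hpos i
    have e3 : ε / 2 * nu n R j ≤ ε * nu n R j := by nlinarith
    have d3 : 2 * δ * Real.exp n * R ≤ δ1 / 8 * R := by gcongr
    rcases hij with h | h
    · apply (zone1 i j ?_).trans e3
      rw [Real.log_div p1.ne' hR0.ne'] at h
      have := hdist _ _ p1 hR0 hMR h
      nlinarith
    · apply (zone2 i j ?_).trans e3
      rw [Real.log_div p1.ne' hR0.ne'] at h
      have hM0 : 0 < Mn n R := by linarith
      have hlogM : Real.log (Mn n R) = Real.log R + n := by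
        unfold Mn
        rw [Real.log_mul hR0.ne' (Real.exp_pos _).ne', Real.log_exp]
      have := hdist _ _ hM0 p1 p2 (by rw [hlogM]; linarith)
      nlinarith

end Pool.Agent.H96.LE
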