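import Pool.Agent.H96.LE.Loop5
import Pool.Agent.H96.LE.Fejer

/-!
# Traces of the powers of the crossing matrix
-/

namespace Pool.Agent.H96.LE

open Finset Filter

/-- smoothing weights -/
noncomputable def hk (n : ℝ) (B k : ℕ) (X : ℝ) : ℝ :=
  KF B (Real.pi * X / n - Real.pi * k / B) - KF B (Real.pi * X / n + Real.pi * k / B)

lemma term_bd {K w ν ε κ : ℝ} (hK : 0 ≤ K) (hκ : 0 ≤ κ) (hε : 0 ≤ ε) (hν : 0 ≤ ν)
    (hw : |w| ≤ 2 * ν) (h : |w| ≤ 2 * ε * ν ∨ K ≤ κ) : |K * w| ≤ K * (2 * ε * ν) + κ * (2 * ν) := by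
  rw [abs_mul, abs_of_nonneg hK]
  rcases h with h | h
  · have h1 : K * |w| ≤ K * (2 * ε * ν) := mul_le_mul_of_nonneg_left h hK
    have h2 : 0 ≤ κ * (2 * ν) := by positivity
    linarith
  · have h1 : K * |w| ≤ κ * (2 * ν) := mul_le_mul h hw (abs_nonneg _) hκ
    have h2 : 0 ≤ K * (2 * ε * ν) := by positivity
    linarith

lemma fejer_approx {n : ℝ} (hn : 0 < n) {B : ℕ} (hB : 1 ≤ B) {ν ε δ v X : ℝ} (f : ℕ → ℝ)
    (hν : 0 ≤ ν) (hε : 0 ≤ ε) (hδ : 0 < δ) (hδn : δ ≤ n) (hX0 : 0 ≤ X) (hXn : X ≤ n)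
    (hv : 0 ≤ v ∧ v ≤ ν) (hf : ∀ k ∈ Ico 1 B, 0 ≤ f k ∧ f k ≤ ν)
    (h1 : ∀ k ∈ Ico 1 B, |X - k * n / B| ≤ δ → |v - f k| ≤ ε * ν)
    (h2 : X ≤ δ ∨ n - δ ≤ X → v ≤ ε * ν)
    (h3 : ∀ k ∈ Ico 1 B, (k * n / B ≤ δ ∨ n - δ ≤ k * n / B) → f k ≤ ε * ν) :
    |v - ∑ k ∈ Ico 1 B, hk n B k X * f k| ≤
      (2 * ε + 2 / (B * Real.sin (Real.pi * δ / (2 * n)) ^ 2)) * ν := by
  have hpi := Real.pi_pos
  have hB0 : (0 : ℝ) < B := by exact_mod_cast hB
  set s : ℝ := Real.sin (Real.pi * δ / (2 * n)) with hs
  set α : ℝ := Real.pi * X / n with hα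
  set a0 : ℝ := Real.pi * δ / (2 * n) with ha0
  have ha00 : 0 < a0 := by positivity
  have ha01 : a0 ≤ Real.pi / 2 := by
    rw [ha0, div_le_div_iff₀ (by positivity) (by norm_num)]
    nlinarith
  have hs0 : 0 < s := Real.sin_pos_of_pos_of_lt_pi ha00 (by linarith)
  have hα0 : 0 ≤ α := by positivity
  have hαpi : α ≤ Real.pi := by
    rw [hα, div_le_iff₀ hn]; nlinarith
  set κ : ℝ := 1 / (2 * (B : ℝ) ^ 2 * s ^ 2) with hκ
  have hκ0 : 0 ≤ κ := by positivity
  -- sine lower bound
  have sin_lb : ∀ t : ℝ, a0 ≤ t → t ≤ Real.pi - a0 → s ≤ |Real.sin t| := by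
    intro t ht1 ht2
    refine le_trans ?_ (le_abs_self _)
    rcases le_total t (Real.pi / 2) with h | h
    · exact Real.sin_le_sin_of_le_of_le_pi_div_two (by linarith) h ht1
    · rw [← Real.sin_pi_sub t]
      exact Real.sin_le_sin_of_le_of_le_pi_div_two (by linarith) (by linarith) (by linarith)
  have hkα : ∀ k ∈ Ico 1 B, (0 : ℝ) ≤ Real.pi * k / B ∧ Real.pi * k / B ≤ Real.pi ∧
      Real.pi * k / B = Real.pi * (k * n / B) / n := by
    intro k hk'
    rw [Finset.mem_Ico] at hk'
    refine ⟨by positivity, ?_, by field_simp⟩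
    rw [div_le_iff₀ hB0]
    have : (k : ℝ) ≤ B := by exact_mod_cast hk'.2.le
    nlinarith
  have hid : v - ∑ k ∈ Ico 1 B, hk n B k X * f k = KF B α * v + KF B (α - Real.pi) * v +
      ∑ k ∈ Ico 1 B, (KF B (α - Real.pi * k / B) * (v - f k) +
        KF B (α + Real.pi * k / B) * (v + f k)) := by
    have h := KF_sum hB α
    have e1 : ∑ k ∈ Ico 1 B, (KF B (α - Real.pi * k / B) * (v - f k) +
        KF B (α + Real.pi * k / B) * (v + f k)) = (∑ k ∈ Ico 1 B, (KF B (α - Real.pi * k / B) +
        KF B (α + Real.pi * k / B))) * v - ∑ k ∈ Ico 1 B, hk n B k X * f k := by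
      rw [Finset.sum_mul, ← Finset.sum_sub_distrib]
      apply Finset.sum_congr rfl
      intro k _
      unfold hk
      rw [← hα]
      ring
    rw [e1]
    linear_combination (-v) * h
  have conv : ∀ x : ℝ, Real.pi * x / n / 2 < a0 → x ≤ δ := by
    intro x hx
    rw [ha0, div_div, div_lt_div_iff₀ (by positivity) (by positivity)] at hx
    have h : Real.pi * n * x < Real.pi * n * δ := by nlinarith
    exact (lt_of_mul_lt_mul_left h (by positivity)).le
  have t1 : |KF B α * v| ≤ KF B α * (2 * ε * ν) + κ * (2 * ν) := by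
    apply term_bd (KF_nonneg _ _) hκ0 hε hν
    · rw [abs_of_nonneg hv.1]; linarith
    · by_cases h : a0 ≤ α / 2
      · right
        exact KF_le hB hs0 (sin_lb _ h (by linarith))
      · left
        push Not at h
        rw [abs_of_nonneg hv.1]
        have := h2 (Or.inl (conv X h))
        nlinarith
  have t2 : |KF B (α - Real.pi) * v| ≤ KF B (α - Real.pi) * (2 * ε * ν) + κ * (2 * ν) := by
    apply term_bd (KF_nonneg _ _) hκ0 hε hν
    · rw [abs_of_nonneg hv.1]; linarith
    · by_cases h : a0 ≤ (Real.pi - α) / 2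
      · right
        apply KF_le hB hs0
        have e : (α - Real.pi) / 2 = -((Real.pi - α) / 2) := by ring
        rw [e, Real.sin_neg, abs_neg]
        exact sin_lb _ h (by linarith)
      · left
        push Not at h
        rw [abs_of_nonneg hv.1]
        have h4 : n - X ≤ δ := by
          apply conv
          have : Real.pi * (n - X) / n / 2 = (Real.pi - α) / 2 := by rw [hα]; field_simp
          rw [this]; exact h
        have := h2 (Or.inr (by linarith))
        nlinarith
  have t3 : ∀ k ∈ Ico 1 B, |KF B (α - Real.pi * k / B) * (v - f k)| ≤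
      KF B (α - Real.pi * k / B) * (2 * ε * ν) + κ * (2 * ν) := by
    intro k hk'
    obtain ⟨k1, k2, k3⟩ := hkα k hk'
    apply term_bd (KF_nonneg _ _) hκ0 hε hν
    · have := hf k hk'
      rw [abs_le]; constructor <;> linarith [hv.1, hv.2]
    · by_cases h : a0 ≤ |α - Real.pi * k / B| / 2
      · right
        apply KF_le hB hs0
        have h5 : |Real.sin ((α - Real.pi * k / B) / 2)| = |Real.sin (|α - Real.pi * k / B| / 2)| := by
          rcases abs_choice (α - Real.pi * k / B) with h6 | h6 <;> rw [h6]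
          rw [neg_div, Real.sin_neg, abs_neg]
        rw [h5]
        apply sin_lb _ h
        have : |α - Real.pi * k / B| ≤ Real.pi := by
          rw [abs_le]; constructor <;> linarith
        linarith
      · left
        push Not at h
        have h4 : |X - k * n / B| ≤ δ := by
          apply conv
          have : Real.pi * |X - k * n / B| / n / 2 = |α - Real.pi * k / B| / 2 := by
            rw [hα, k3, ← sub_div, ← mul_sub, abs_div, abs_mul, abs_of_pos hpi, abs_of_pos hn]
          rw [this]; exact h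
        have := h1 k hk' h4
        nlinarith
  have t4 : ∀ k ∈ Ico 1 B, |KF B (α + Real.pi * k / B) * (v + f k)| ≤
      KF B (α + Real.pi * k / B) * (2 * ε * ν) + κ * (2 * ν) := by
    intro k hk'
    obtain ⟨k1, k2, k3⟩ := hkα k hk'
    have hfk := hf k hk'
    apply term_bd (KF_nonneg _ _) hκ0 hε hν
    · rw [abs_le]; constructor <;> linarith [hv.1, hv.2]
    · by_cases h : a0 ≤ (α + Real.pi * k / B) / 2 ∧ (α + Real.pi * k / B) / 2 ≤ Real.pi - a0
      · right
        exact KF_le hB hs0 (sin_lb _ h.1 h.2)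
      · left
        rw [not_and_or] at h
        rw [abs_of_nonneg (by linarith [hv.1, hfk.1])]
        rcases h with h | h
        · push Not at h
          have h4 : X + k * n / B ≤ δ := by
            apply conv
            have : Real.pi * (X + k * n / B) / n / 2 = (α + Real.pi * k / B) / 2 := by
              rw [hα, k3]; ring
            rw [this]; exact h
          have hkn : 0 ≤ (k : ℝ) * n / B := by positivity
          have := h2 (Or.inl (by linarith))
          have := h3 k hk' (Or.inl (by linarith))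
          linarith
        · push Not at h
          have h4 : (n - X) + (n - k * n / B) ≤ δ := by
            apply conv
            have : Real.pi * ((n - X) + (n - k * n / B)) / n / 2 =
                Real.pi - (α + Real.pi * k / B) / 2 := by
              rw [hα, k3]; field_simp; ring
            rw [this]; linarith
          have hkn : (k : ℝ) * n / B ≤ n := by
            rw [div_le_iff₀ hB0]
            rw [Finset.mem_Ico] at hk'
            have : (k : ℝ) ≤ B := by exact_mod_cast hk'.2.le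
            nlinarith
          have := h2 (Or.inr (by linarith))
          have := h3 k hk' (Or.inr (by linarith))
          linarith
  rw [hid]
  have hsum := KF_sum hB α
  have hcard : ∑ k ∈ Ico 1 B, (κ * (2 * ν) + κ * (2 * ν)) = ((B : ℝ) - 1) * (κ * (2 * ν) + κ * (2 * ν)) := by
    rw [Finset.sum_const, Nat.card_Ico, nsmul_eq_mul, Nat.cast_sub hB]; norm_num
  calc |KF B α * v + KF B (α - Real.pi) * v +
      ∑ k ∈ Ico 1 B, (KF B (α - Real.pi * k / B) * (v - f k) +
        KF B (α + Real.pi * k / B) * (v + f k))| ≤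
      |KF B α * v| + |KF B (α - Real.pi) * v| +
      ∑ k ∈ Ico 1 B, (|KF B (α - Real.pi * k / B) * (v - f k)| +
        |KF B (α + Real.pi * k / B) * (v + f k)|) := by
        refine (abs_add_le _ _).trans (add_le_add (abs_add_le _ _) ?_)
        refine (Finset.abs_sum_le_sum_abs _ _).trans ?_
        exact Finset.sum_le_sum (fun k _ => abs_add_le _ _)
    _ ≤ (KF B α * (2 * ε * ν) + κ * (2 * ν)) + (KF B (α - Real.pi) * (2 * ε * ν) + κ * (2 * ν)) +
      ∑ k ∈ Ico 1 B, ((KF B (α - Real.pi * k / B) + KF B (α + Real.pi * k / B)) * (2 * ε * ν) +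
        (κ * (2 * ν) + κ * (2 * ν))) := by
        refine add_le_add (add_le_add t1 t2) (Finset.sum_le_sum fun k hk' => ?_)
        have a1 := t3 k hk'
        have a2 := t4 k hk'
        linarith
    _ = (KF B α + KF B (α - Real.pi) + ∑ k ∈ Ico 1 B, (KF B (α - Real.pi * k / B) +
        KF B (α + Real.pi * k / B))) * (2 * ε * ν) + 2 * (κ * (2 * ν)) +
        ((B : ℝ) - 1) * (κ * (2 * ν) + κ * (2 * ν)) := by
        rw [Finset.sum_add_distrib, hcard, ← Finset.sum_mul]
        ring
    _ = (2 * ε + 2 / (B * s ^ 2)) * ν := by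
        rw [hsum, hκ]
        field_simp
        ring

lemma hk_eq {n : ℝ} {B : ℕ} (k : ℕ) (X : ℝ) :
    hk n B k X = ∑ j ∈ range B, (2 / (B : ℝ) ^ 2 * ((B : ℝ) - j) * Real.sin (Real.pi * j * k / B)) *
      Real.sin (Real.pi * j / n * X) := by
  unfold hk
  rw [KF_eq, KF_eq, div_sub_div_same]
  have h1 : (2 * ∑ j ∈ range B, ((B : ℝ) - j) * Real.cos (j * (Real.pi * X / n - Real.pi * k / B)) - B) -
      (2 * ∑ j ∈ range B, ((B : ℝ) - j) * Real.cos (j * (Real.pi * X / n + Real.pi * k / B)) - B) =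
      ∑ j ∈ range B, 4 * (((B : ℝ) - j) * (Real.sin (Real.pi * j * k / B) *
        Real.sin (Real.pi * j / n * X))) := by
    have : ∀ j ∈ range B, 4 * (((B : ℝ) - j) * (Real.sin (Real.pi * j * k / B) *
        Real.sin (Real.pi * j / n * X))) =
        2 * (((B : ℝ) - j) * Real.cos (j * (Real.pi * X / n - Real.pi * k / B))) -
        2 * (((B : ℝ) - j) * Real.cos (j * (Real.pi * X / n + Real.pi * k / B))) := by
      intro j _
      have e1 : (j : ℝ) * (Real.pi * X / n - Real.pi * k / B) = Real.pi * j / n * X - Real.pi * j * k / B := by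
        ring
      have e2 : (j : ℝ) * (Real.pi * X / n + Real.pi * k / B) = Real.pi * j / n * X + Real.pi * j * k / B := by
        ring
      rw [e1, e2, Real.cos_add, Real.cos_sub]
      ring
    rw [Finset.sum_congr rfl this, Finset.sum_sub_distrib, ← Finset.mul_sum, ← Finset.mul_sum]
    ring
  rw [h1, Finset.sum_div]
  apply Finset.sum_congr rfl
  intro j _
  ring

end Pool.Agent.H96.LE
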