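import Pool.Agent.H96.LE.Loop6

/-!
# Limits of the traces
-/

namespace Pool.Agent.H96.LE

open Finset Filter Topology

section mat

variable {ι : Type*} [Fintype ι] [DecidableEq ι]

lemma mpow_nonneg {A : Matrix ι ι ℝ} (hA : ∀ i j, 0 ≤ A i j) (m : ℕ) : ∀ i j, 0 ≤ (A ^ m) i j := by
  induction m with
  | zero =>
    intro i j
    rw [pow_zero, Matrix.one_apply]
    split_ifs <;> norm_num
  | succ m ih =>
    intro i j
    rw [pow_succ, Matrix.mul_apply]
    exact Finset.sum_nonneg (fun k _ => mul_nonneg (ih i k) (hA k j))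

lemma mpow_rows {A : Matrix ι ι ℝ} (hA : ∀ i j, 0 ≤ A i j) {σ : ℝ} (hσ : 0 ≤ σ)
    (hr : ∀ i, ∑ j, A i j ≤ σ) (m : ℕ) : ∀ i, ∑ j, (A ^ m) i j ≤ σ ^ m := by
  induction m with
  | zero =>
    intro i
    simp [pow_zero, Matrix.one_apply]
  | succ m ih =>
    intro i
    have h1 : ∑ j, (A ^ (m + 1)) i j = ∑ k, (A ^ m) i k * ∑ j, A k j := by
      simp only [pow_succ, Matrix.mul_apply]
      rw [Finset.sum_comm]
      apply Finset.sum_congr rfl
      intro k _
      rw [Finset.mul_sum]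
    rw [h1, pow_succ]
    calc ∑ k, (A ^ m) i k * ∑ j, A k j ≤ ∑ k, (A ^ m) i k * σ :=
          Finset.sum_le_sum (fun k _ => mul_le_mul_of_nonneg_left (hr k) (mpow_nonneg hA m i k))
      _ = (∑ k, (A ^ m) i k) * σ := by rw [Finset.sum_mul]
      _ ≤ σ ^ m * σ := by
          apply mul_le_mul_of_nonneg_right (ih i) hσ

lemma trace_err {A E : Matrix ι ι ℝ} (hA : ∀ i j, 0 ≤ A i j) {σ : ℝ} (hσ : 0 ≤ σ)
    (hr : ∀ i, ∑ j, A i j ≤ σ) (m : ℕ) (e : ι → ℝ) (he : ∀ i l, |E i l| ≤ e l) :
    |∑ i, ∑ l, E i l * (A ^ m) l i| ≤ (∑ l, e l) * σ ^ m := by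
  rcases isEmpty_or_nonempty ι with hι | ⟨⟨i0⟩⟩
  · simp
  have he0 : ∀ l, 0 ≤ e l := fun l => (abs_nonneg _).trans (he i0 l)
  calc |∑ i, ∑ l, E i l * (A ^ m) l i| ≤ ∑ i, ∑ l, |E i l * (A ^ m) l i| := by
        refine (Finset.abs_sum_le_sum_abs _ _).trans ?_
        exact Finset.sum_le_sum (fun i _ => Finset.abs_sum_le_sum_abs _ _)
    _ ≤ ∑ i, ∑ l, e l * (A ^ m) l i := by
        apply Finset.sum_le_sum; intro i _
        apply Finset.sum_le_sum; intro l _
        rw [abs_mul, abs_of_nonneg (mpow_nonneg hA m l i)]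
        exact mul_le_mul_of_nonneg_right (he i l) (mpow_nonneg hA m l i)
    _ = ∑ l, e l * ∑ i, (A ^ m) l i := by
        rw [Finset.sum_comm]
        apply Finset.sum_congr rfl; intro l _
        rw [Finset.mul_sum]
    _ ≤ ∑ l, e l * σ ^ m := Finset.sum_le_sum (fun l _ =>
        mul_le_mul_of_nonneg_left (mpow_rows hA hσ hr m l) (he0 l))
    _ = (∑ l, e l) * σ ^ m := by rw [Finset.sum_mul]

lemma trace_succ (A : Matrix ι ι ℝ) (m : ℕ) : (A ^ (m + 1)).trace = ∑ i, ∑ l, A i l * (A ^ m) l i := by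
  rw [pow_succ', Matrix.trace]
  simp only [Matrix.diag_apply, Matrix.mul_apply]

lemma approx_pow {A : Matrix ι ι ℝ} (hA : ∀ i j, 0 ≤ A i j)
    (hr : ∀ i, ∑ j, A i j ≤ 1) {lam err : ℝ} (h0 : 0 ≤ lam) (h1 : lam ≤ 1) (herr : 0 ≤ err) (φ : ι → ℝ)
    (h : ∀ i, |∑ k, A i k * φ k - lam * φ i| ≤ err) (m : ℕ) :
    ∀ i, |∑ k, (A ^ m) i k * φ k - lam ^ m * φ i| ≤ m * err := by
  induction m with
  | zero =>
    intro i
    simp [Matrix.one_apply]
  | succ m ih =>
    intro i
    have e1 : ∑ k, (A ^ (m + 1)) i k * φ k = ∑ l, (A ^ m) i l * ∑ k, A l k * φ k := by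
      simp only [pow_succ, Matrix.mul_apply, Finset.sum_mul, Finset.mul_sum]
      rw [Finset.sum_comm]
      apply Finset.sum_congr rfl; intro l _
      apply Finset.sum_congr rfl; intro k _
      ring
    have e2 : ∑ k, (A ^ (m + 1)) i k * φ k - lam ^ (m + 1) * φ i =
        ∑ l, (A ^ m) i l * (∑ k, A l k * φ k - lam * φ l) +
        lam * (∑ k, (A ^ m) i k * φ k - lam ^ m * φ i) := by
      rw [e1]
      simp only [mul_sub, Finset.sum_sub_distrib, Finset.mul_sum]
      have : ∑ x, (A ^ m) i x * (lam * φ x) = ∑ x, lam * ((A ^ m) i x * φ x) := by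
        apply Finset.sum_congr rfl; intro l _; ring
      rw [this]
      ring
    rw [e2]
    refine (abs_add_le _ _).trans ?_
    have e3 : |∑ l, (A ^ m) i l * (∑ k, A l k * φ k - lam * φ l)| ≤ err := by
      calc _ ≤ ∑ l, |(A ^ m) i l * (∑ k, A l k * φ k - lam * φ l)| := Finset.abs_sum_le_sum_abs _ _
        _ ≤ ∑ l, (A ^ m) i l * err := by
            apply Finset.sum_le_sum; intro l _
            rw [abs_mul, abs_of_nonneg (mpow_nonneg hA m i l)]
            exact mul_le_mul_of_nonneg_left (h l) (mpow_nonneg hA m i l)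
        _ = (∑ l, (A ^ m) i l) * err := by rw [Finset.sum_mul]
        _ ≤ 1 * err := by
            apply mul_le_mul_of_nonneg_right _ herr
            have := mpow_rows hA zero_le_one hr m i
            simpa using this
        _ = err := one_mul _
    have e4 : |lam * (∑ k, (A ^ m) i k * φ k - lam ^ m * φ i)| ≤ m * err := by
      rw [abs_mul, abs_of_nonneg h0]
      calc lam * _ ≤ 1 * (m * err) := by
            apply mul_le_mul h1 (ih i) (abs_nonneg _) zero_le_one
        _ = _ := one_mul _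
    push_cast
    linarith

end mat

/-- limiting eigenvalues -/
noncomputable def lam (n : ℝ) (j : ℕ) : ℝ := 1 / Real.cosh (Real.pi * j / n * Real.pi)

lemma lam_pos (n : ℝ) (j : ℕ) : 0 < lam n j := by
  unfold lam; have := Real.cosh_pos (Real.pi * j / n * Real.pi); positivity

lemma lam_le_one (n : ℝ) (j : ℕ) : lam n j ≤ 1 := by
  unfold lam
  rw [div_le_one (Real.cosh_pos _)]
  exact Real.one_le_cosh _

lemma lam_le_exp {n : ℝ} (hn : 0 < n) (j : ℕ) : lam n j ≤ 2 * (Real.exp (-(Real.pi ^ 2 / n))) ^ j := by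
  unfold lam
  rw [← Real.exp_nat_mul, div_le_iff₀ (Real.cosh_pos _), Real.cosh_eq]
  have e1 : (j : ℝ) * -(Real.pi ^ 2 / n) = -(Real.pi * j / n * Real.pi) := by ring
  rw [e1]
  have h1 : Real.exp (-(Real.pi * j / n * Real.pi)) * Real.exp (Real.pi * j / n * Real.pi) = 1 := by
    rw [← Real.exp_add]; simp
  have h2 := Real.exp_pos (-(Real.pi * j / n * Real.pi))
  nlinarith [mul_pos h2 h2]

lemma summable_lam {n : ℝ} (hn : 0 < n) : Summable (fun j : ℕ => lam n (j + 1)) := by
  have hr : Real.exp (-(Real.pi ^ 2 / n)) < 1 := by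
    rw [Real.exp_lt_one_iff]
    have := Real.pi_pos
    have : 0 < Real.pi ^ 2 / n := by positivity
    linarith
  have h := (summable_geometric_of_lt_one (Real.exp_pos _).le hr).mul_left 2
  have h2 := (summable_nat_add_iff 1).2 h
  exact Summable.of_nonneg_of_le (fun j => (lam_pos n _).le) (fun j => lam_le_exp hn _) h2

lemma summable_lam_pow {n : ℝ} (hn : 0 < n) (m : ℕ) : Summable (fun j : ℕ => lam n (j + 1) ^ (m + 1)) := by
  apply Summable.of_nonneg_of_le (fun j => pow_nonneg (lam_pos n _).le _) _ (summable_lam hn)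
  intro j
  rw [pow_succ]
  have h1 : lam n (j + 1) ^ m ≤ 1 := pow_le_one₀ (lam_pos n _).le (lam_le_one n _)
  have h2 := lam_pos n (j + 1)
  nlinarith

lemma cesaro_lim {f : ℕ → ℝ} (hf0 : ∀ j, 0 ≤ f j) (hf : Summable f) :
    Tendsto (fun B : ℕ => ∑ j ∈ Ico 1 B, (1 - (j : ℝ) / B) * f (j - 1)) atTop (𝓝 (∑' j, f j)) := by
  have h := tendsto_tsum_of_dominated_convergence (𝓕 := atTop)
    (f := fun (B : ℕ) (j : ℕ) => if j + 1 < B then (1 - ((j : ℝ) + 1) / B) * f j else 0)
    (g := f) (bound := f) hf (by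
    intro j
    have h1 : Tendsto (fun B : ℕ => (1 - ((j : ℝ) + 1) / B) * f j) atTop (𝓝 ((1 - 0) * f j)) := by
      apply Tendsto.mul_const
      apply Tendsto.const_sub
      exact tendsto_const_div_atTop_nhds_zero_nat _
    simp only [sub_zero, one_mul] at h1
    apply h1.congr'
    filter_upwards [eventually_gt_atTop (j + 1)] with B hB
    rw [if_pos hB]) (by
    filter_upwards with B j
    split_ifs with h1
    · rw [Real.norm_eq_abs, abs_mul, abs_of_nonneg (hf0 j)]
      have hB : (0 : ℝ) < B := by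
        have : 0 < B := by omega
        exact_mod_cast this
      have h2 : ((j : ℝ) + 1) / B ≤ 1 := by
        rw [div_le_one hB]
        exact_mod_cast h1.le
      have h3 : 0 ≤ ((j : ℝ) + 1) / B := by positivity
      have h4 : |1 - ((j : ℝ) + 1) / B| ≤ 1 := by rw [abs_le]; constructor <;> linarith
      have := hf0 j
      nlinarith
    · rw [norm_zero]; exact hf0 j)
  apply h.congr
  intro B
  rw [tsum_eq_sum (s := range (B - 1))]
  · rw [Finset.sum_Ico_eq_sum_range]
    apply Finset.sum_congr rfl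
    intro j hj
    rw [Finset.mem_range] at hj
    rw [if_pos (by omega)]
    have : 1 + j - 1 = j := by omega
    rw [this]
    push_cast
    ring
  · intro j hj
    rw [Finset.mem_range] at hj
    rw [if_neg (by omega)]

lemma sin_sq_sum {B j : ℕ} (hj : 1 ≤ j) (hjB : j < B) :
    ∑ k ∈ Ico 1 B, Real.sin (Real.pi * j * k / B) ^ 2 = B / 2 := by
  have h := dir_sum (B := B) (j := 2 * j) (by omega) (by omega)
  have h1 : ∀ k ∈ Ico 1 B, Real.sin (Real.pi * j * k / B) ^ 2 =
      1 / 2 - Real.cos (Real.pi * ((2 * j : ℕ) : ℝ) * k / B) / 2 := by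
    intro k _
    have : Real.pi * ((2 * j : ℕ) : ℝ) * k / B = 2 * (Real.pi * j * k / B) := by push_cast; ring
    rw [this, Real.cos_two_mul]
    have := Real.sin_sq_add_cos_sq (Real.pi * j * k / B)
    linarith
  rw [Finset.sum_congr rfl h1, Finset.sum_sub_distrib, Finset.sum_const,
    Nat.card_Ico, nsmul_eq_mul, Nat.cast_sub (by omega)]
  have h2 : ((-1 : ℝ)) ^ (2 * j) = 1 := by rw [pow_mul]; norm_num
  rw [h2] at h
  rw [← Finset.sum_div]
  push_cast
  push_cast at h
  linarith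

lemma grid_points {n : ℝ} (hn : 0 < n) {B : ℕ} (hB : 1 ≤ B) : ∀ᶠ R in atTop,
    ∃ x : ℕ → XI R (Mn n R), ∀ k < B,
      |Real.log (((x k : ℤ) : ℝ) / R) - k * n / B| ≤ 1 / R := by
  have hB0 : (0 : ℝ) < B := by exact_mod_cast hB
  set t : ℝ := (B - 1) * n / B with ht
  have htn : t < n := by
    rw [ht, div_lt_iff₀ hB0]; nlinarith
  have hgap : 0 < Real.exp n - Real.exp t := by
    have := Real.exp_lt_exp.2 htn; linarith
  filter_upwards [eventually_gt_atTop (1 / (Real.exp n - Real.exp t)), eventually_gt_atTop 1] with R hR hR1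
  have hR0 : 0 < R := by linarith
  have key : ∀ k < B, ∃ i : XI R (Mn n R), |Real.log (((i : ℤ) : ℝ) / R) - k * n / B| ≤ 1 / R := by
    intro k hk'
    set X : ℝ := k * n / B with hX
    have hX0 : 0 ≤ X := by positivity
    have hXt : X ≤ t := by
      rw [hX, ht]
      have : (k : ℝ) ≤ B - 1 := by
        have : (k : ℝ) + 1 ≤ B := by exact_mod_cast hk'
        linarith
      gcongr
    have f1 := Int.floor_le (R * Real.exp X)
    have f2 := Int.lt_floor_add_one (R * Real.exp X)
    have hXexp : 1 ≤ Real.exp X := Real.one_le_exp hX0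
    have hRX : R ≤ R * Real.exp X := by nlinarith
    have hup : R * Real.exp X + 1 < Mn n R := by
      unfold Mn
      have h1 : Real.exp X ≤ Real.exp t := Real.exp_le_exp.2 hXt
      rw [div_lt_iff₀ hgap] at hR
      nlinarith
    refine ⟨⟨⌊R * Real.exp X⌋ + 1, (mem_XI hR0.le).2 ⟨?_, ?_⟩⟩, ?_⟩
    · push_cast; linarith
    · push_cast; linarith
    · push_cast
      set y : ℝ := (⌊R * Real.exp X⌋ : ℝ) + 1 with hy
      have hy0 : 0 < y := by linarith
      have hRX0 : 0 < R * Real.exp X := by positivity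
      have h1 : Real.log (y / R) - X = Real.log (y / (R * Real.exp X)) := by
        rw [Real.log_div hy0.ne' hR0.ne', Real.log_div hy0.ne' hRX0.ne',
          Real.log_mul hR0.ne' (Real.exp_pos _).ne', Real.log_exp]
        ring
      rw [h1, abs_le]
      have h2 : 1 ≤ y / (R * Real.exp X) := by rw [le_div_iff₀ hRX0]; linarith
      have h3 := Real.log_nonneg h2
      have h4 := Real.log_le_sub_one_of_pos (show 0 < y / (R * Real.exp X) by positivity)
      have h5 : y / (R * Real.exp X) - 1 ≤ 1 / R := by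
        rw [div_sub_one hRX0.ne', div_le_div_iff₀ hRX0 hR0]
        nlinarith
      have h6 : 0 < 1 / R := by positivity
      constructor <;> linarith
  obtain ⟨i0, hi0⟩ := key 0 (by omega)
  refine ⟨fun k => if h : k < B then (key k h).choose else i0, fun k hk' => ?_⟩
  simp only [dif_pos hk']
  exact (key k hk').choose_spec

theorem trace_lim (n : ℝ) (hn : 0 < n) (m : ℕ) :
    Tendsto (fun R => (Ah R (Mn n R) ^ (m + 1)).trace) atTop
      (𝓝 (∑' j : ℕ, lam n (j + 1) ^ (m + 1))) := by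
  rw [Metric.tendsto_nhds]
  intro ε0 hε0
  obtain ⟨C, hC0, hC⟩ := kernel_reg n hn
  obtain ⟨σ, hσ0, hσ1, hσ⟩ := row_sums n hn
  set ε : ℝ := ε0 / (8 * (C + 1)) with hε
  have hεp : 0 < ε := by positivity
  obtain ⟨δ, hδ0, hδ⟩ := hC ε hεp
  set δ' : ℝ := min (δ / 2) n with hδ'
  have hδ'0 : 0 < δ' := lt_min (by positivity) hn
  have hδ'n : δ' ≤ n := min_le_right _ _
  have hδ'2 : δ' ≤ δ / 2 := min_le_left _ _
  set s : ℝ := Real.sin (Real.pi * δ' / (2 * n)) with hs
  have hs0 : 0 < s := by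
    apply Real.sin_pos_of_pos_of_lt_pi
    · have := Real.pi_pos; positivity
    · rw [div_lt_iff₀ (by positivity)]
      have := Real.pi_pos
      nlinarith
  -- choose B
  set f : ℕ → ℝ := fun j => lam n (j + 1) ^ (m + 1) with hf
  have hces := cesaro_lim (f := f) (fun j => pow_nonneg (lam_pos n _).le _) (summable_lam_pow hn m)
  rw [Metric.tendsto_nhds] at hces
  have hB1 : ∀ᶠ B : ℕ in atTop, 2 / (B * s ^ 2) * C < ε0 / 8 := by
    have h1 : Tendsto (fun B : ℕ => (2 / s ^ 2 * C) / (B : ℝ)) atTop (𝓝 0) :=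
      tendsto_const_div_atTop_nhds_zero_nat _
    have h2 := h1.eventually (gt_mem_nhds (show (0 : ℝ) < ε0 / 8 by positivity))
    filter_upwards [h2, eventually_gt_atTop 0] with B hB hB0
    have hB0' : (0 : ℝ) < B := by exact_mod_cast hB0
    have : 2 / (B * s ^ 2) * C = (2 / s ^ 2 * C) / (B : ℝ) := by field_simp
    rw [this]; exact hB
  obtain ⟨B, hBa, hBb, hB⟩ := ((hces (ε0 / 8) (by positivity)).and (hB1.and
    (eventually_ge_atTop 1))).exists
  have hB0 : (0 : ℝ) < B := by exact_mod_cast hB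
  -- eigenfunction errors
  set ε1 : ℝ := ε0 / (16 * B) with hε1
  have hε1p : 0 < ε1 := by positivity
  have heig : ∀ᶠ R in atTop, ∀ j ∈ range B, ∀ i : XI R (Mn n R),
      |∑ k : XI R (Mn n R), Ah R (Mn n R) i k *
      Real.sin (Real.pi * j / n * Real.log (((k : ℤ) : ℝ) / R)) -
      lam n j * Real.sin (Real.pi * j / n * Real.log (((i : ℤ) : ℝ) / R))| ≤ ε1 / (2 * (m + 1)) := by
    rw [Filter.eventually_all_finset]
    intro j _
    obtain ⟨Cj, hCj0, hCj⟩ := eig n hn j
    filter_upwards [hCj, eventually_ge_atTop (Cj / (ε1 / (2 * (m + 1)))), eventually_gt_atTop 0] with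
      R h1 h2 hR0 i
    have h3 := h1 i
    have h4 : Cj / R ≤ ε1 / (2 * (m + 1)) := by
      rw [div_le_iff₀ (by positivity)] at h2
      rw [div_le_iff₀ hR0]; linarith
    have h5 : lam n j * Real.sin (Real.pi * j / n * Real.log (((i : ℤ) : ℝ) / R)) =
        Real.sin (Real.pi * j / n * Real.log (((i : ℤ) : ℝ) / R)) /
        Real.cosh (Real.pi * j / n * Real.pi) := by
      unfold lam; ring
    rw [h5]
    exact h3.trans h4
  filter_upwards [hδ, hσ, grid_points hn hB, heig, eventually_gt_atTop 1,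
    eventually_ge_atTop (2 / δ), eventually_ge_atTop (Real.pi * B / n / (ε1 / 2))] with
    R hR1 hR2 hR3 hR4 hR5 hR6 hR7
  obtain ⟨ν, ν0, ν1, ν2, ν3, ν4⟩ := hR1
  obtain ⟨x, hx⟩ := hR3
  have hR0 : 0 < R := by linarith
  set A := Ah R (Mn n R) with hA
  have hA0 : ∀ i j, 0 ≤ A i j := Ah_nonneg R (Mn n R)
  have hrow1 : ∀ i, ∑ j, A i j ≤ 1 := fun i => (hR2 i).trans hσ1.le
  have hRδ : 1 / R ≤ δ / 2 := by
    rw [div_le_iff₀ hδ0] at hR6
    rw [div_le_div_iff₀ hR0 (by norm_num)]; linarith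
  set xl : XI R (Mn n R) → ℝ := fun i => Real.log (((i : ℤ) : ℝ) / R) with hxl
  have hxl0 : ∀ i, 0 ≤ xl i ∧ xl i ≤ n := by
    intro i
    have hi := (mem_XI hR0.le).1 i.2
    constructor
    · apply Real.log_nonneg; rw [le_div_iff₀ hR0]; linarith [hi.1]
    · have h1 : Real.log (((i : ℤ) : ℝ) / R) ≤ Real.log (Real.exp n) := by
        apply Real.log_le_log (div_pos (by linarith [hi.1]) hR0)
        rw [div_le_iff₀ hR0, mul_comm]; exact hi.2.le
      rwa [Real.log_exp] at h1
  -- smoothing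
  let F : Matrix (XI R (Mn n R)) (XI R (Mn n R)) ℝ :=
    Matrix.of (fun i l => ∑ k ∈ Ico 1 B, hk n B k (xl i) * A (x k) l)
  have hE : ∀ i l, |(A - F) i l| ≤ (2 * ε + 2 / (B * s ^ 2)) * ν l := by
    intro i l
    rw [Matrix.sub_apply]
    apply fejer_approx hn hB (fun k => A (x k) l) (ν0 l) hεp.le hδ'0 hδ'n (hxl0 i).1 (hxl0 i).2
      ⟨hA0 i l, ν2 i l⟩ (fun k _ => ⟨hA0 _ l, ν2 _ l⟩)
    · intro k hk' hclose
      rw [Finset.mem_Ico] at hk'
      apply ν3
      have h1 := hx k hk'.2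
      have h2 : xl i - xl (x k) = (xl i - k * n / B) - (xl (x k) - k * n / B) := by ring
      show |xl i - xl (x k)| ≤ δ
      rw [h2]
      refine (abs_sub _ _).trans ?_
      have : |xl (x k) - k * n / B| ≤ 1 / R := h1
      linarith
    · intro h
      apply ν4
      rcases h with h | h
      · left; show xl i ≤ δ; linarith
      · right; show n - δ ≤ xl i; linarith
    · intro k hk' h
      rw [Finset.mem_Ico] at hk'
      have h1 := abs_le.1 (hx k hk'.2)
      apply ν4
      rcases h with h | h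
      · left; linarith [h1.2]
      · right; linarith [h1.1]
  have htr1 := trace_err (E := A - F) hA0 zero_le_one hrow1 m
    (fun l => (2 * ε + 2 / (B * s ^ 2)) * ν l) hE
  rw [one_pow, mul_one, ← Finset.mul_sum] at htr1
  have hnum : (2 * ε + 2 / (B * s ^ 2)) * ∑ l : XI R (Mn n R), ν l ≤ ε0 / 4 + ε0 / 8 := by
    have h1 : (2 * ε + 2 / (B * s ^ 2)) * ∑ l : XI R (Mn n R), ν l ≤ (2 * ε + 2 / (B * s ^ 2)) * C :=
      mul_le_mul_of_nonneg_left ν1 (by positivity)
    have h2 : 2 * ε * C ≤ ε0 / 4 := by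
      rw [hε, mul_div_assoc', div_mul_eq_mul_div, div_le_iff₀ (by positivity)]
      nlinarith
    linarith
  -- the smoothed trace
  have hT : ∑ i, ∑ l, F i l * (A ^ m) l i = ∑ k ∈ Ico 1 B, ∑ j ∈ range B,
      (2 / (B : ℝ) ^ 2 * ((B : ℝ) - j) * Real.sin (Real.pi * j * k / B)) *
        ∑ i, (A ^ (m + 1)) (x k) i * Real.sin (Real.pi * j / n * xl i) := by
    have h1 : ∀ i, ∑ l, F i l * (A ^ m) l i = ∑ k ∈ Ico 1 B, hk n B k (xl i) * (A ^ (m + 1)) (x k) i := by
      intro i
      simp only [F, Matrix.of_apply, Finset.sum_mul]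
      rw [Finset.sum_comm]
      apply Finset.sum_congr rfl
      intro k _
      rw [pow_succ', Matrix.mul_apply, Finset.mul_sum]
      apply Finset.sum_congr rfl
      intro l _; ring
    simp only [h1]
    rw [Finset.sum_comm]
    apply Finset.sum_congr rfl
    intro k _
    simp only [hk_eq, Finset.sum_mul, Finset.mul_sum]
    rw [Finset.sum_comm]
    apply Finset.sum_congr rfl
    intro j _
    apply Finset.sum_congr rfl
    intro i _
    ring
  -- limits of the terms
  have hterm : ∀ k ∈ Ico 1 B, ∀ j ∈ range B,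
      |∑ i, (A ^ (m + 1)) (x k) i * Real.sin (Real.pi * j / n * xl i) -
        lam n j ^ (m + 1) * Real.sin (Real.pi * j * k / B)| ≤ ε1 := by
    intro k hk' j hj
    rw [Finset.mem_Ico] at hk'
    have h1 := approx_pow hA0 hrow1 (lam_pos n j).le (lam_le_one n j)
      (show 0 ≤ ε1 / (2 * (m + 1)) by positivity)
      (fun i => Real.sin (Real.pi * j / n * xl i)) (hR4 j hj) (m + 1) (x k)
    have h2 : ((m + 1 : ℕ) : ℝ) * (ε1 / (2 * (m + 1))) = ε1 / 2 := by
      push_cast; field_simp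
    rw [h2] at h1
    have h3 : |Real.sin (Real.pi * j / n * xl (x k)) - Real.sin (Real.pi * j * k / B)| ≤ ε1 / 2 := by
      have h4 : Real.pi * j * k / B = Real.pi * j / n * (k * n / B) := by field_simp
      rw [h4]
      refine (Real.abs_sin_sub_sin_le _ _).trans ?_
      rw [← mul_sub, abs_mul]
      have hb : |Real.pi * j / n| ≤ Real.pi * B / n := by
        rw [abs_of_nonneg (by have := Real.pi_pos; positivity)]
        have := Real.pi_pos
        have hjB : (j : ℝ) ≤ B := by exact_mod_cast (Finset.mem_range.1 hj).le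
        gcongr
      calc |Real.pi * j / n| * |xl (x k) - k * n / B| ≤ (Real.pi * B / n) * (1 / R) :=
            mul_le_mul hb (hx k hk'.2) (abs_nonneg _) (by have := Real.pi_pos; positivity)
        _ ≤ ε1 / 2 := by
            rw [div_le_iff₀ (by positivity)] at hR7
            rw [mul_one_div, div_le_iff₀ hR0]; linarith
    have h5 : ∑ i, (A ^ (m + 1)) (x k) i * Real.sin (Real.pi * j / n * xl i) -
        lam n j ^ (m + 1) * Real.sin (Real.pi * j * k / B) =
        (∑ i, (A ^ (m + 1)) (x k) i * Real.sin (Real.pi * j / n * xl i) -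
        lam n j ^ (m + 1) * Real.sin (Real.pi * j / n * xl (x k))) +
        lam n j ^ (m + 1) * (Real.sin (Real.pi * j / n * xl (x k)) - Real.sin (Real.pi * j * k / B)) := by
      ring
    rw [h5]
    refine (abs_add_le _ _).trans ?_
    have h6 : |lam n j ^ (m + 1) * (Real.sin (Real.pi * j / n * xl (x k)) -
        Real.sin (Real.pi * j * k / B))| ≤ ε1 / 2 := by
      rw [abs_mul, abs_of_nonneg (pow_nonneg (lam_pos n j).le _)]
      calc _ ≤ 1 * (ε1 / 2) := mul_le_mul (pow_le_one₀ (lam_pos n j).le (lam_le_one n j)) h3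
            (abs_nonneg _) zero_le_one
        _ = _ := one_mul _
    linarith
  have hmain : |∑ i, ∑ l, F i l * (A ^ m) l i -
      ∑ j ∈ Ico 1 B, (1 - (j : ℝ) / B) * f (j - 1)| ≤ ε0 / 8 := by
    have h1 : ∑ j ∈ Ico 1 B, (1 - (j : ℝ) / B) * f (j - 1) = ∑ k ∈ Ico 1 B, ∑ j ∈ range B,
      (2 / (B : ℝ) ^ 2 * ((B : ℝ) - j) * Real.sin (Real.pi * j * k / B)) *
        (lam n j ^ (m + 1) * Real.sin (Real.pi * j * k / B)) := by
      rw [Finset.sum_comm, Finset.range_eq_Ico, Finset.sum_eq_sum_Ico_succ_bot hB]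
      simp only [Nat.cast_zero, mul_zero, zero_mul, zero_div, Real.sin_zero, Finset.sum_const_zero,
        zero_add]
      apply Finset.sum_congr rfl
      intro j hj
      rw [Finset.mem_Ico] at hj
      have h2 : ∑ k ∈ Ico 1 B, (2 / (B : ℝ) ^ 2 * ((B : ℝ) - j) * Real.sin (Real.pi * j * k / B)) *
        (lam n j ^ (m + 1) * Real.sin (Real.pi * j * k / B)) =
        2 / (B : ℝ) ^ 2 * ((B : ℝ) - j) * lam n j ^ (m + 1) *
          ∑ k ∈ Ico 1 B, Real.sin (Real.pi * j * k / B) ^ 2 := by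
        rw [Finset.mul_sum]
        apply Finset.sum_congr rfl
        intro k _; ring
      rw [h2, sin_sq_sum hj.1 hj.2]
      simp only [hf]
      have h3 : j - 1 + 1 = j := by omega
      rw [h3]
      field_simp
    rw [hT, h1, ← Finset.sum_sub_distrib]
    calc _ ≤ ∑ k ∈ Ico 1 B, ∑ j ∈ range B, (2 / (B : ℝ) * ε1) := by
          refine (Finset.abs_sum_le_sum_abs _ _).trans (Finset.sum_le_sum fun k hk' => ?_)
          rw [← Finset.sum_sub_distrib]
          refine (Finset.abs_sum_le_sum_abs _ _).trans (Finset.sum_le_sum fun j hj => ?_)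
          rw [← mul_sub, abs_mul]
          have hjB : (j : ℝ) ≤ B := by exact_mod_cast (Finset.mem_range.1 hj).le
          have h2 : |2 / (B : ℝ) ^ 2 * ((B : ℝ) - j) * Real.sin (Real.pi * j * k / B)| ≤ 2 / (B : ℝ) := by
            rw [abs_mul]
            have h3 : |2 / (B : ℝ) ^ 2 * ((B : ℝ) - j)| ≤ 2 / (B : ℝ) := by
              rw [abs_of_nonneg (mul_nonneg (by positivity) (by linarith))]
              calc 2 / (B : ℝ) ^ 2 * ((B : ℝ) - j) ≤ 2 / (B : ℝ) ^ 2 * (B : ℝ) := by
                    apply mul_le_mul_of_nonneg_left _ (by positivity)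
                    have : (0 : ℝ) ≤ j := Nat.cast_nonneg j
                    linarith
                _ = 2 / (B : ℝ) := by field_simp
            calc _ ≤ 2 / (B : ℝ) * 1 := mul_le_mul h3 (Real.abs_sin_le_one _) (abs_nonneg _) (by positivity)
              _ = _ := mul_one _
          exact mul_le_mul h2 (hterm k hk' j hj) (abs_nonneg _) (by positivity)
      _ = ((B - 1 : ℕ) : ℝ) * (2 * ε1) := by
          rw [Finset.sum_const, Finset.sum_const, Nat.card_Ico, Finset.card_range, nsmul_eq_mul,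
            nsmul_eq_mul]
          field_simp
      _ ≤ B * (2 * ε1) := by
          apply mul_le_mul_of_nonneg_right _ (by positivity)
          exact_mod_cast Nat.sub_le B 1
      _ = ε0 / 8 := by rw [hε1]; field_simp; ring
  have htrace : (A ^ (m + 1)).trace = ∑ i, ∑ l, (A - F) i l * (A ^ m) l i +
      ∑ i, ∑ l, F i l * (A ^ m) l i := by
    rw [trace_succ, ← Finset.sum_add_distrib]
    apply Finset.sum_congr rfl
    intro i _
    rw [← Finset.sum_add_distrib]
    apply Finset.sum_congr rfl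
    intro l _
    rw [Matrix.sub_apply]; ring
  rw [Real.dist_eq] at hBa ⊢
  rw [htrace]
  rw [abs_le] at hmain htr1
  rw [abs_lt] at hBa ⊢
  constructor <;> linarith [hmain.1, hmain.2, htr1.1, htr1.2, hBa.1, hBa.2]

end Pool.Agent.H96.LE
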