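import Pool.Agent.H96.LE.Loop7
import Pool.Agent.H96.LE.LogDet

/-!
# Limit of the determinant ratio
-/

namespace Pool.Agent.H96.LE

open Finset Filter Topology

/-- limit of minus the logarithm of the determinant ratio -/
noncomputable def Lf (n : ℝ) : ℝ := ∑' j : ℕ, -Real.log (1 - lam n (j + 1) ^ 2)

lemma lam_lt_one {n : ℝ} (hn : 0 < n) (j : ℕ) : lam n (j + 1) < 1 := by
  unfold lam
  rw [div_lt_one (Real.cosh_pos _), Real.one_lt_cosh]
  have := Real.pi_pos
  positivity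

lemma lam_anti {n : ℝ} (hn : 0 < n) (j : ℕ) : lam n (j + 1) ≤ lam n 1 := by
  unfold lam
  apply div_le_div_of_nonneg_left zero_le_one (Real.cosh_pos _)
  rw [Real.cosh_le_cosh]
  have := Real.pi_pos
  rw [abs_of_nonneg (by positivity), abs_of_nonneg (by positivity)]
  gcongr
  omega

lemma double_sum {n : ℝ} (hn : 0 < n) :
    ∑' m : ℕ, (∑' j : ℕ, lam n (j + 1) ^ (2 * m + 1 + 1)) / ((m : ℝ) + 1) = Lf n := by
  have hl0 : ∀ j, 0 ≤ lam n (j + 1) := fun j => (lam_pos n _).le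
  have hsum : Summable (Function.uncurry (fun (m j : ℕ) => lam n (j + 1) ^ (2 * m + 1 + 1) / ((m : ℝ) + 1))) := by
    have h1 : Summable (fun m : ℕ => lam n 1 ^ m) :=
      summable_geometric_of_lt_one (lam_pos n 1).le (lam_lt_one hn 0)
    have h2 := h1.mul_of_nonneg (summable_lam hn) (fun m => pow_nonneg (lam_pos n 1).le m) hl0
    apply Summable.of_nonneg_of_le _ _ h2
    · rintro ⟨m, j⟩
      simp only [Function.uncurry]
      exact div_nonneg (pow_nonneg (hl0 j) _) (by positivity)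
    · rintro ⟨m, j⟩
      simp only [Function.uncurry]
      have e1 : lam n (j + 1) ^ (2 * m + 1 + 1) / ((m : ℝ) + 1) ≤ lam n (j + 1) ^ (2 * m + 1 + 1) := by
        apply div_le_self (pow_nonneg (hl0 j) _)
        have : (0 : ℝ) ≤ m := Nat.cast_nonneg m
        linarith
      refine e1.trans ?_
      have e2 : lam n (j + 1) ^ (2 * m + 1 + 1) = lam n (j + 1) ^ m * lam n (j + 1) * lam n (j + 1) ^ (m + 1) := by
        rw [← pow_succ, ← pow_add]; congr 1; ring
      rw [e2]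
      have e3 : lam n (j + 1) ^ (m + 1) ≤ 1 := pow_le_one₀ (hl0 j) (lam_le_one n _)
      have e4 : lam n (j + 1) ^ m ≤ lam n 1 ^ m := pow_le_pow_left₀ (hl0 j) (lam_anti hn j) m
      calc lam n (j + 1) ^ m * lam n (j + 1) * lam n (j + 1) ^ (m + 1) ≤
          lam n (j + 1) ^ m * lam n (j + 1) * 1 := by
            apply mul_le_mul_of_nonneg_left e3
            have := hl0 j
            positivity
        _ = lam n (j + 1) ^ m * lam n (j + 1) := mul_one _
        _ ≤ lam n 1 ^ m * lam n (j + 1) := mul_le_mul_of_nonneg_right e4 (hl0 j)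
  have h1 : ∑' m : ℕ, (∑' j : ℕ, lam n (j + 1) ^ (2 * m + 1 + 1)) / ((m : ℝ) + 1) =
      ∑' m : ℕ, ∑' j : ℕ, lam n (j + 1) ^ (2 * m + 1 + 1) / ((m : ℝ) + 1) := by
    congr 1; ext m
    rw [tsum_div_const]
  rw [h1, Summable.tsum_comm (f := fun (j m : ℕ) => lam n (j + 1) ^ (2 * m + 1 + 1) / ((m : ℝ) + 1)) (by
    have h := hsum.prod_symm
    exact h)]
  unfold Lf
  congr 1; ext j
  have hx : |lam n (j + 1) ^ 2| < 1 := by
    rw [abs_of_nonneg (by positivity)]
    exact pow_lt_one₀ (hl0 j) (lam_lt_one hn j) (by norm_num)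
  rw [← (Real.hasSum_pow_div_log_of_abs_lt_one hx).tsum_eq]
  congr 1; ext m
  congr 1
  rw [← pow_mul]
  rfl

theorem dfac_lim (n : ℝ) (hn : 0 < n) :
    (∀ᶠ R in atTop, 0 < (1 - Ah R (Mn n R) * Ah R (Mn n R)).det) ∧
    Tendsto (fun R => -Real.log (1 - Ah R (Mn n R) * Ah R (Mn n R)).det) atTop (𝓝 (Lf n)) := by
  obtain ⟨C, hC0, hC⟩ := kernel_reg n hn
  obtain ⟨σ, hσ0, hσ1, hσ⟩ := row_sums n hn
  obtain ⟨δ, hδ0, hδ⟩ := hC 1 one_pos
  have hbase : ∀ᶠ R in atTop, (0 < (1 - Ah R (Mn n R) * Ah R (Mn n R)).det ∧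
      -Real.log (1 - Ah R (Mn n R) * Ah R (Mn n R)).det =
        ∑' m : ℕ, (Ah R (Mn n R) ^ (2 * m + 1 + 1)).trace / ((m : ℝ) + 1)) := by
    filter_upwards [hσ] with R hR
    set A := Ah R (Mn n R) with hA
    have hA0 : ∀ i j, 0 ≤ A i j := Ah_nonneg R (Mn n R)
    have hr : ∀ i, ∑ j, |(A * A) i j| ≤ σ ^ 2 := by
      intro i
      have h1 := mpow_rows hA0 hσ0.le hR 2 i
      rw [pow_two A] at h1
      have h2 : ∀ j, |(A * A) i j| = (A * A) i j := by
        intro j
        apply abs_of_nonneg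
        have := mpow_nonneg hA0 2 i j
        rwa [pow_two] at this
      simp only [h2]
      exact h1
    have h := log_det_series (B := A * A) (σ := σ ^ 2) (by positivity)
      (pow_lt_one₀ hσ0.le hσ1 (by norm_num)) hr
    refine ⟨h.1, h.2.trans ?_⟩
    congr 1; ext m
    rw [← pow_two, ← pow_mul]
    have : 2 * (m + 1) = 2 * m + 1 + 1 := by ring
    rw [this]
  refine ⟨hbase.mono (fun R h => h.1), ?_⟩
  have hlim := tendsto_tsum_of_dominated_convergence (𝓕 := (atTop : Filter ℝ))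
    (f := fun (R : ℝ) (m : ℕ) => (Ah R (Mn n R) ^ (2 * m + 1 + 1)).trace / ((m : ℝ) + 1))
    (g := fun m : ℕ => (∑' j : ℕ, lam n (j + 1) ^ (2 * m + 1 + 1)) / ((m : ℝ) + 1))
    (bound := fun m => C * σ ^ m)
    ((summable_geometric_of_lt_one hσ0.le hσ1).mul_left C)
    (fun m => (trace_lim n hn (2 * m + 1)).div_const _) (by
      filter_upwards [hσ, hδ] with R hR hR2 m
      obtain ⟨ν, ν0, ν1, ν2, _, _⟩ := hR2
      have hA0 : ∀ i j, 0 ≤ Ah R (Mn n R) i j := Ah_nonneg R (Mn n R)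
      have h1 := trace_err (E := Ah R (Mn n R)) hA0 hσ0.le hR (2 * m + 1) (fun l => ν l)
        (fun i l => by rw [abs_of_nonneg (hA0 i l)]; exact ν2 i l)
      rw [← trace_succ] at h1
      rw [Real.norm_eq_abs, abs_div]
      have hm : (0 : ℝ) < |(m : ℝ) + 1| := by positivity
      have hm1 : 1 ≤ |(m : ℝ) + 1| := by
        rw [abs_of_pos (by positivity)]
        have : (0 : ℝ) ≤ m := Nat.cast_nonneg m
        linarith
      refine (div_le_self (abs_nonneg _) hm1).trans (h1.trans ?_)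
      apply mul_le_mul ν1 _ (by positivity) hC0.le
      exact pow_le_pow_of_le_one hσ0.le hσ1.le (by omega))
  rw [double_sum hn] at hlim
  apply hlim.congr'
  filter_upwards [hbase] with R hR
  exact hR.2.symm

/-! ### asymptotics -/

lemma odd_zeta : HasSum (fun i : ℕ => 1 / ((2 * i + 1 : ℕ) : ℝ) ^ 2) (Real.pi ^ 2 / 8) := by
  have h := hasSum_zeta_two
  have he : Summable (fun i : ℕ => (1 : ℝ) / ((2 * i : ℕ) : ℝ) ^ 2) := by
    apply h.summable.comp_injective (i := fun i : ℕ => 2 * i)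
    intro a b hab; simpa using hab
  have ho : Summable (fun i : ℕ => (1 : ℝ) / ((2 * i + 1 : ℕ) : ℝ) ^ 2) := by
    apply h.summable.comp_injective (i := fun i : ℕ => 2 * i + 1)
    intro a b hab; simpa using hab
  have h1 := tsum_even_add_odd (f := fun k : ℕ => (1 : ℝ) / ((k : ℕ) : ℝ) ^ 2) he ho
  rw [h.tsum_eq] at h1
  have h2 : ∑' i : ℕ, (1 : ℝ) / ((2 * i : ℕ) : ℝ) ^ 2 = 1 / 4 * (Real.pi ^ 2 / 6) := by
    rw [← h.tsum_eq, ← tsum_mul_left]
    congr 1; ext i
    push_cast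
    ring
  rw [h2] at h1
  have h3 : ∑' i : ℕ, (1 : ℝ) / ((2 * i + 1 : ℕ) : ℝ) ^ 2 = Real.pi ^ 2 / 8 := by linarith
  rw [← h3]
  exact ho.hasSum

lemma neg_log_term {y : ℝ} (hy : 0 < y) :
    HasSum (fun i : ℕ => 4 / ((2 * i + 1 : ℕ) : ℝ) * Real.exp (-(2 * ((2 * i + 1 : ℕ) : ℝ) * y)))
      (-Real.log (1 - (1 / Real.cosh y) ^ 2)) := by
  set x : ℝ := Real.exp (-(2 * y)) with hx
  have hx0 : 0 < x := Real.exp_pos _
  have hx1 : x < 1 := by rw [hx, Real.exp_lt_one_iff]; linarith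
  have h := (Real.hasSum_log_sub_log_of_abs_lt_one (x := x) (by rwa [abs_of_pos hx0])).mul_left 2
  have hc := Real.cosh_pos y
  have hs : 0 < Real.sinh y := Real.sinh_pos_iff.2 hy
  have h1 : 1 - (1 / Real.cosh y) ^ 2 = (Real.sinh y / Real.cosh y) ^ 2 := by
    have := Real.cosh_sq y
    field_simp
    linarith
  have h2 : Real.sinh y / Real.cosh y = (1 - x) / (1 + x) := by
    rw [Real.sinh_eq, Real.cosh_eq]
    have e1 : x = Real.exp (-y) * Real.exp (-y) := by rw [hx, ← Real.exp_add]; congr 1; ring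
    have e2 : Real.exp y * Real.exp (-y) = 1 := by rw [← Real.exp_add]; simp
    have e3 := Real.exp_pos y
    have e4 := Real.exp_pos (-y)
    rw [div_div_div_cancel_right₀ (by norm_num), div_eq_div_iff (by positivity) (by positivity), e1]
    linear_combination (2 * Real.exp (-y)) * e2
  have h3 : -Real.log (1 - (1 / Real.cosh y) ^ 2) = 2 * (Real.log (1 + x) - Real.log (1 - x)) := by
    rw [h1, h2, Real.log_pow, Real.log_div (by linarith) (by linarith)]
    push_cast; ring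
  rw [h3]
  have heq : (fun i : ℕ => 4 / ((2 * i + 1 : ℕ) : ℝ) * Real.exp (-(2 * ((2 * i + 1 : ℕ) : ℝ) * y))) =
      fun i : ℕ => 2 * (2 * (1 / (2 * (i : ℝ) + 1)) * x ^ (2 * i + 1)) := by
    funext i
    rw [hx, ← Real.exp_nat_mul]
    have e : ((2 * i + 1 : ℕ) : ℝ) * -(2 * y) = -(2 * ((2 * i + 1 : ℕ) : ℝ) * y) := by ring
    rw [e]
    push_cast
    ring
  rw [heq]
  exact h

lemma Lf_series {n : ℝ} (hn : 0 < n) : Lf n = ∑' i : ℕ, 4 / ((2 * i + 1 : ℕ) : ℝ) *
    (1 / (Real.exp (2 * ((2 * i + 1 : ℕ) : ℝ) * Real.pi ^ 2 / n) - 1)) := by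
  have hpi := Real.pi_pos
  set w : ℕ → ℝ := fun i => 2 * ((2 * i + 1 : ℕ) : ℝ) * Real.pi ^ 2 / n with hw
  have hw0 : ∀ i, 0 < w i := fun i => by simp only [hw]; positivity
  have hy : ∀ j : ℕ, 0 < Real.pi * ((j + 1 : ℕ) : ℝ) / n * Real.pi := fun j => by positivity
  have hterm : ∀ j i : ℕ, Real.exp (-(2 * ((2 * i + 1 : ℕ) : ℝ) * (Real.pi * ((j + 1 : ℕ) : ℝ) / n * Real.pi))) =
      Real.exp (-w i) ^ (j + 1) := by
    intro j i
    rw [← Real.exp_nat_mul]
    congr 1
    simp only [hw]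
    ring
  have h1 : Lf n = ∑' j : ℕ, ∑' i : ℕ, 4 / ((2 * i + 1 : ℕ) : ℝ) * Real.exp (-w i) ^ (j + 1) := by
    unfold Lf lam
    congr 1; ext j
    rw [← (neg_log_term (hy j)).tsum_eq]
    congr 1; ext i
    rw [hterm]
  have hq : ∀ i, Real.exp (-w i) < 1 := fun i => by rw [Real.exp_lt_one_iff]; linarith [hw0 i]
  have hsum : Summable (Function.uncurry (fun (j i : ℕ) => 4 / ((2 * i + 1 : ℕ) : ℝ) *
      Real.exp (-w i) ^ (j + 1))) := by
    have hr : Real.exp (-(2 * Real.pi ^ 2 / n)) < 1 := by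
      rw [Real.exp_lt_one_iff]
      have : 0 < 2 * Real.pi ^ 2 / n := by positivity
      linarith
    have g1 := summable_geometric_of_lt_one (Real.exp_pos _).le hr
    have g2 := g1.mul_of_nonneg (g1.mul_left 4) (fun m => pow_nonneg (Real.exp_pos _).le m)
      (fun m => by positivity)
    apply Summable.of_nonneg_of_le _ _ g2
    · rintro ⟨j, i⟩
      simp only [Function.uncurry]
      positivity
    · rintro ⟨j, i⟩
      simp only [Function.uncurry]
      have a1 : 4 / ((2 * i + 1 : ℕ) : ℝ) ≤ 4 := by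
        apply div_le_self (by norm_num)
        push_cast
        have : (0 : ℝ) ≤ i := Nat.cast_nonneg i
        linarith
      have a2 : Real.exp (-w i) ^ (j + 1) ≤ Real.exp (-(2 * Real.pi ^ 2 / n)) ^ j *
          Real.exp (-(2 * Real.pi ^ 2 / n)) ^ i := by
        rw [← pow_add, ← Real.exp_nat_mul, ← Real.exp_nat_mul, Real.exp_le_exp]
        simp only [hw]
        push_cast
        have b1 : 0 < Real.pi ^ 2 / n := by positivity
        have b2 : (0 : ℝ) ≤ i := Nat.cast_nonneg i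
        have b3 : (0 : ℝ) ≤ j := Nat.cast_nonneg j
        have b4 : 2 * (2 * (i : ℝ) + 1) * Real.pi ^ 2 / n = 2 * (2 * (i : ℝ) + 1) * (Real.pi ^ 2 / n) := by
          ring
        have b5 : 2 * Real.pi ^ 2 / n = 2 * (Real.pi ^ 2 / n) := by ring
        rw [b4, b5]
        nlinarith [mul_nonneg b2 b3, mul_nonneg (mul_nonneg b2 b3) b1.le, mul_nonneg b2 b1.le,
          mul_nonneg b3 b1.le]
      calc 4 / ((2 * i + 1 : ℕ) : ℝ) * Real.exp (-w i) ^ (j + 1) ≤
          4 * (Real.exp (-(2 * Real.pi ^ 2 / n)) ^ j * Real.exp (-(2 * Real.pi ^ 2 / n)) ^ i) :=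
            mul_le_mul a1 a2 (by positivity) (by norm_num)
        _ = Real.exp (-(2 * Real.pi ^ 2 / n)) ^ j * (4 * Real.exp (-(2 * Real.pi ^ 2 / n)) ^ i) := by ring
  rw [h1, Summable.tsum_comm (f := fun (i j : ℕ) => 4 / ((2 * i + 1 : ℕ) : ℝ) *
      Real.exp (-w i) ^ (j + 1)) (by
    have h := hsum.prod_symm
    exact h)]
  congr 1; ext i
  rw [tsum_mul_left]
  congr 1
  have h2 : ∑' j : ℕ, Real.exp (-w i) ^ (j + 1) = Real.exp (-w i) * (1 - Real.exp (-w i))⁻¹ := by
    rw [← tsum_geometric_of_lt_one (Real.exp_pos _).le (hq i), ← tsum_mul_left]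
    congr 1; ext j; rw [pow_succ']
  rw [h2]
  have h3 : Real.exp (-w i) = 1 / Real.exp (w i) := by rw [Real.exp_neg, one_div]
  have h4 : 1 < Real.exp (w i) := Real.one_lt_exp_iff.2 (hw0 i)
  have h5 : Real.exp (w i) - 1 ≠ 0 := by linarith
  rw [h3]
  have h6 : Real.exp (w i) ≠ 0 := (Real.exp_pos _).ne'
  have h7 : Real.exp (2 * ((2 * i + 1 : ℕ) : ℝ) * Real.pi ^ 2 / n) = Real.exp (w i) := rfl
  rw [h7]
  generalize Real.exp (w i) = E at *
  field_simp

theorem Lf_asym : Tendsto (fun n : ℝ => Lf n / n) atTop (𝓝 (1 / 4)) := by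
  have hpi := Real.pi_pos
  set w : ℕ → ℝ := fun i => 2 * ((2 * i + 1 : ℕ) : ℝ) * Real.pi ^ 2 with hw
  have hw0 : ∀ i, 0 < w i := fun i => by simp only [hw]; positivity
  have hval : ∑' i : ℕ, 4 / ((2 * i + 1 : ℕ) : ℝ) * (1 / w i) = 1 / 4 := by
    have h1 : ∀ i : ℕ, 4 / ((2 * i + 1 : ℕ) : ℝ) * (1 / w i) =
        2 / Real.pi ^ 2 * (1 / ((2 * i + 1 : ℕ) : ℝ) ^ 2) := by
      intro i
      simp only [hw]
      have : ((2 * i + 1 : ℕ) : ℝ) ≠ 0 := by positivity
      field_simp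
      norm_num
    simp only [h1]
    rw [tsum_mul_left, odd_zeta.tsum_eq]
    field_simp
    norm_num
  have hsumm : Summable (fun i : ℕ => 4 / ((2 * i + 1 : ℕ) : ℝ) * (1 / w i)) := by
    have h1 : ∀ i : ℕ, 4 / ((2 * i + 1 : ℕ) : ℝ) * (1 / w i) =
        2 / Real.pi ^ 2 * (1 / ((2 * i + 1 : ℕ) : ℝ) ^ 2) := by
      intro i
      simp only [hw]
      have : ((2 * i + 1 : ℕ) : ℝ) ≠ 0 := by positivity
      field_simp
      norm_num
    simp only [h1]
    exact odd_zeta.summable.mul_left _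
  have hkey : ∀ u : ℝ, 0 < u → 0 ≤ u / (Real.exp u - 1) ∧ u / (Real.exp u - 1) ≤ 1 := by
    intro u hu
    have h1 : u < Real.exp u - 1 := by linarith [Real.add_one_lt_exp hu.ne']
    constructor
    · apply div_nonneg hu.le; linarith
    · rw [div_le_one (by linarith)]; exact h1.le
  have hlim := tendsto_tsum_of_dominated_convergence (𝓕 := (atTop : Filter ℝ))
    (f := fun (n : ℝ) (i : ℕ) => 4 / ((2 * i + 1 : ℕ) : ℝ) *
      (1 / w i * ((w i / n) / (Real.exp (w i / n) - 1))))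
    (g := fun i : ℕ => 4 / ((2 * i + 1 : ℕ) : ℝ) * (1 / w i))
    (bound := fun i : ℕ => 4 / ((2 * i + 1 : ℕ) : ℝ) * (1 / w i)) hsumm
    (by
      intro i
      apply Tendsto.const_mul
      have h1 : Tendsto (fun n : ℝ => w i / n) atTop (𝓝[≠] 0) := by
        rw [tendsto_nhdsWithin_iff]
        constructor
        · exact tendsto_const_nhds.div_atTop tendsto_id
        · filter_upwards [eventually_gt_atTop 0] with n hn
          exact (div_pos (hw0 i) hn).ne'
      have h2 : Tendsto (fun u : ℝ => (Real.exp u - 1) / u) (𝓝[≠] 0) (𝓝 1) := by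
        have h3 := (Real.hasDerivAt_exp 0)
        rw [Real.exp_zero, hasDerivAt_iff_tendsto_slope] at h3
        apply h3.congr
        intro u
        rw [slope_def_field, Real.exp_zero, sub_zero]
      have h3 : Tendsto (fun u : ℝ => u / (Real.exp u - 1)) (𝓝[≠] 0) (𝓝 1) := by
        have := h2.inv₀ one_ne_zero
        rw [inv_one] at this
        apply this.congr
        intro u
        rw [inv_div]
      have h4 := (h3.comp h1).const_mul (1 / w i)
      rw [mul_one] at h4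
      exact h4)
    (by
      filter_upwards [eventually_gt_atTop 0] with n hn i
      have h1 := hkey (w i / n) (div_pos (hw0 i) hn)
      have h2 : 0 ≤ 1 / w i := (div_pos one_pos (hw0 i)).le
      rw [Real.norm_eq_abs, abs_of_nonneg (mul_nonneg (by positivity) (mul_nonneg h2 h1.1))]
      apply mul_le_mul_of_nonneg_left _ (by positivity)
      nlinarith [h1.2])
  rw [hval] at hlim
  apply hlim.congr'
  filter_upwards [eventually_gt_atTop 0] with n hn
  rw [Lf_series hn, ← tsum_div_const]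
  congr 1; ext i
  have h1 : 1 < Real.exp (w i / n) := Real.one_lt_exp_iff.2 (div_pos (hw0 i) hn)
  have h2 : Real.exp (w i / n) - 1 ≠ 0 := by linarith
  have h3 := (hw0 i).ne'
  have h4 : 2 * ((2 * i + 1 : ℕ) : ℝ) * Real.pi ^ 2 / n = w i / n := rfl
  rw [h4]
  field_simp

end Pool.Agent.H96.LE
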