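import Pool.Agent.H96.LE.Geo

/-!
# The probability in the scaling limit
-/

namespace Pool.Agent.H96.LE

open TopologicalSpace MeasureTheory Filter Topology
open scoped ENNReal

section

variable {k : ℕ} {n : ℝ} {z : Fin k → ℂ} {δ : ℕ → ℝ} {a : ℕ → Fin k → ℤ × ℤ}

lemma Approx.R_lim (A : Approx n z δ a) : Tendsto (fun i => 1 / δ i) atTop atTop := by
  have h1 : Tendsto δ atTop (𝓝[>] 0) := by
    rw [tendsto_nhdsWithin_iff]
    exact ⟨A.mesh, Eventually.of_forall (fun i => A.pos i)⟩
  have h2 := tendsto_inv_nhdsGT_zero.comp h1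
  apply h2.congr
  intro i
  simp

lemma Approx.dat (A : Approx n z δ a) (hz : ∀ j, ‖z j‖ = 1) : ∃ b : ℕ → Fin k → Z2,
    Dat atTop n (fun j => Complex.arg (z j)) (fun i => 1 / δ i) a b := by
  choose b hb using A.start
  refine ⟨b, ⟨A.R_lim, ?_, ?_, ?_, ?_⟩⟩
  · intro i j
    exact (mem_ann_iff (A.pos i) _).1 (A.mem i j)
  · intro i j
    exact (adj_iff _ _).1 (hb i j).1
  · intro i j
    have h := (hb i j).2
    rw [norm_emb (A.pos i)] at h
    rw [le_div_iff₀ (A.pos i)]
    linarith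
  · intro j
    have h1 : Complex.exp (Complex.arg (z j) * Complex.I) = z j := by
      have := Complex.norm_mul_exp_arg_mul_I (z j)
      rwa [hz j, Complex.ofReal_one, one_mul] at this
    rw [h1]
    apply (A.lim j).congr
    intro i
    rw [emb_eq]
    have : (δ i : ℂ) ≠ 0 := by exact_mod_cast (A.pos i).ne'
    push_cast
    field_simp

lemma exp_arg_eq (hz : ∀ j, ‖z j‖ = 1) (j : Fin k) : Complex.exp (Complex.arg (z j) * Complex.I) = z j := by
  have := Complex.norm_mul_exp_arg_mul_I (z j)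
  rwa [hz j, Complex.ofReal_one, one_mul] at this

lemma Dd_ne_zero (hz : ∀ j, ‖z j‖ = 1) (hinj : Function.Injective z) :
    Dd (fun j => an (Complex.arg (z j))) ≠ 0 := by
  intro h
  obtain ⟨i, j, hij, hs⟩ := Dd_zero_iff _ h
  have hs0 : Ss (an (Complex.arg (z j)) - an (Complex.arg (z i))) = 0 := abs_eq_zero.1 (le_antisymm hs (abs_nonneg _))
  rw [Ss_an, Real.sin_eq_zero_iff] at hs0
  obtain ⟨m, hm⟩ := hs0
  have h1 : Complex.arg (z j) = Complex.arg (z i) + 2 * Real.pi * m := by linarith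
  have h2 : z j = z i := by
    rw [← exp_arg_eq hz j, ← exp_arg_eq hz i, h1]
    have : ((Complex.arg (z i) + 2 * Real.pi * m : ℝ) : ℂ) * Complex.I =
        Complex.arg (z i) * Complex.I + m * (2 * Real.pi * Complex.I) := by push_cast; ring
    rw [this, Complex.exp_add, Complex.exp_int_mul_two_pi_mul_I, mul_one]
  exact hij.ne (hinj h2.symm)

/-- vertex version of the non-intersection event -/
def GV (k : ℕ) : Set (Fin k → List Z2) := {ls | ∀ j l, j < l → ∀ v ∈ ler (ls j), v ∉ ls l}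

lemma Fam_Wk {D O : Finset Z2} {x : Fin k → Z2} {ls : Fin k → List Z2} (h : Fam D O x ls) (j : Fin k) :
    ∃ t, P D O (x j) t ∧ ls j = x j :: t ∧ Wk (x j) t ∧ Wk (x j) (LEt (x j) t) := by
  obtain ⟨t, ht, hl⟩ := h j
  exact ⟨t, ht, hl, P_Wk _ _ ht, P_Wk _ _ (P_LE ht)⟩

lemma GG_iff {D O : Finset Z2} {x : Fin k → Z2} {ls : Fin k → List Z2} (h : Fam D O x ls) {d : ℝ}
    (hd : 0 < d) : (fun j => Tr d (ls j)) ∈ GG k ↔ ls ∈ GV k := by
  have key : ∀ j l, (Disjoint (trace d (ler (ls j)) : Set ℂ) (trace d (ls l) : Set ℂ) ↔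
      ∀ v ∈ ler (ls j), v ∉ ls l) := by
    intro j l
    obtain ⟨t, _, hl, _, hW⟩ := Fam_Wk h j
    obtain ⟨t', _, hl', hW', _⟩ := Fam_Wk h l
    rw [hl, hl', ler_eq]
    exact traces_disjoint_iff hd hW hW'
  constructor
  · intro h1 j l hjl
    exact (key j l).1 (h1 j l hjl)
  · intro h1 j l hjl
    exact (key j l).2 (h1 j l hjl)

lemma GV_sub_BB (V : Finset Z2) : GV k ⊆ {ls | BB V ∅ ls} := by
  intro ls h
  refine ⟨fun j v _ _ => by simp, fun i j hij v hv _ hv' => ?_⟩
  exact h i j hij v (List.mem_toFinset.1 hv') hv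

lemma BB_sub_GV {V O : Finset Z2} {x : Fin k → Z2} {ls : Fin k → List Z2} (h : Fam V O x ls)
    (hB : BB V ∅ ls) (hN : ls ∉ NT k 4) : ls ∈ GV k := by
  intro j l hjl v hv hv'
  obtain ⟨t, ht, hl⟩ := h j
  obtain ⟨t', ht', hl'⟩ := h l
  have hvV : v ∉ V := fun h1 => hB.2 j l hjl v hv' h1 (List.mem_toFinset.2 hv)
  rw [hl, ler_eq] at hv
  rw [hl'] at hv'
  have e1 := (P_mem_or _ _ (P_LE ht) v hv).resolve_left hvV
  have e2 := (P_mem_or _ _ ht' v hv').resolve_left hvV
  rw [en_LEt] at e1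
  apply hN
  refine ⟨j, l, hjl, ?_⟩
  rw [hl, hl', lst_cons, lst_cons, ← e1, ← e2, sub_self, norm_zero]
  norm_num

variable {R : ℕ → ℝ} {θ : Fin k → ℝ} {x b : ℕ → Fin k → Z2}

/-- limit of the probability of vertex non-intersection -/
lemma Dat.GV_lim (D : Dat atTop n θ R x b) (hk : 1 ≤ k) (hn : 0 < n)
    (hθ : Dd (fun j => an (θ j)) ≠ 0)
    (hinj : ∀ i j, i ≠ j → Complex.exp (θ i * Complex.I) ≠ Complex.exp (θ j * Complex.I)) :
    Tendsto (fun i => (EE n (R i) (x i)) (GV k)) atTop (𝓝 (ENNReal.ofReal (pn n (fun j => an (θ j))))) := by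
  have h1 := D.disc_lim hk hn hθ hinj
  have hT : Tendsto (fun i => (EE n (R i) (x i)) (NT k 4)) atTop (𝓝 0) := by
    rw [ENNReal.tendsto_nhds_zero]
    intro ε hε
    by_cases hε' : ε = ∞
    · exact Eventually.of_forall (fun i => by rw [hε']; exact le_top)
    · have hε2 : 0 < ε.toReal := ENNReal.toReal_pos hε.ne' hε'
      obtain ⟨r, hr, h⟩ := D.close_ends hn ε.toReal hε2
      filter_upwards [h, (Mn_atTop hn D.hR).eventually_ge_atTop (4 / r)] with i hi hM
      rw [ENNReal.ofReal_toReal hε'] at hi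
      refine le_trans (measure_mono ?_) hi
      rintro ls ⟨c, d, hcd, h3⟩
      refine ⟨c, d, hcd, h3.trans ?_⟩
      rw [div_le_iff₀ hr] at hM
      linarith
  have h2 : Tendsto (fun i => (EE n (R i) (x i)) {ls | BB (VV (R i) (Mn n (R i))) ∅ ls}) atTop
      (𝓝 (ENNReal.ofReal (pn n (fun j => an (θ j))))) := by
    have h3 := ENNReal.tendsto_ofReal h1
    apply h3.congr
    intro i
    have := isProb_EE (D.hx i)
    rw [ENNReal.ofReal_toReal (measure_ne_top _ _)]
  have h3 : Tendsto (fun i => (EE n (R i) (x i)) {ls | BB (VV (R i) (Mn n (R i))) ∅ ls} -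
      (EE n (R i) (x i)) (NT k 4)) atTop (𝓝 (ENNReal.ofReal (pn n (fun j => an (θ j))))) := by
    have := ENNReal.Tendsto.sub h2 hT (Or.inl ENNReal.ofReal_ne_top)
    rwa [tsub_zero] at this
  apply tendsto_of_tendsto_of_tendsto_of_le_of_le h3 h2
  · intro i
    simp only
    rw [tsub_le_iff_right]
    refine le_trans (measure_mono_ae ?_) (measure_union_le _ _)
    filter_upwards [fam_ae (disj_VO (R i) (Mn n (R i))) (x i) (fun j => ZZ_pos (D.hx i j))] with ls hls hB
    by_cases hN : ls ∈ NT k 4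
    · exact Or.inr hN
    · exact Or.inl (BB_sub_GV hls hB hN)
  · intro i
    exact measure_mono (GV_sub_BB _)

/-- law of the family of pairs of traces -/
noncomputable def LL2 (δ n : ℝ) (a : Fin k → Z2) : Measure (Fin k → NonemptyCompacts ℂ × NonemptyCompacts ℂ) :=
  Measure.pi (fun j => excLaw δ n (a j))

lemma isProb_excLaw {δ n : ℝ} (hδ : 0 < δ) {a : Z2} (ha : emb δ a ∈ annulus n) :
    IsProbabilityMeasure (excLaw δ n a) := by
  rw [excLaw_eq hδ ha]
  have := isProb_ex (disj_VO (1 / δ) (Mn n (1 / δ))) (ZZ_pos ((mem_ann_iff hδ a).1 ha))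
  exact Measure.isProbabilityMeasure_map (Measurable.of_discrete).aemeasurable

lemma LL2_apply {δ n : ℝ} (hδ : 0 < δ) {a : Fin k → Z2} (ha : ∀ j, emb δ (a j) ∈ annulus n)
    {S : Set (Fin k → NonemptyCompacts ℂ × NonemptyCompacts ℂ)} (hS : MeasurableSet S) :
    LL2 δ n a S = EE n (1 / δ) a {ls | (fun j => Tr δ (ls j)) ∈ S} := by
  have hp : ∀ j, IsProbabilityMeasure (ex (VV (1 / δ) (Mn n (1 / δ))) (OO (Mn n (1 / δ))) (a j)) := fun j =>
    isProb_ex (disj_VO _ _) (ZZ_pos ((mem_ann_iff hδ (a j)).1 (ha j)))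
  have h1 : LL2 δ n a = (EE n (1 / δ) a).map (fun ls j => Tr δ (ls j)) := by
    unfold LL2 EE
    have h2 : (fun j => excLaw δ n (a j)) = fun j =>
        (ex (VV (1 / δ) (Mn n (1 / δ))) (OO (Mn n (1 / δ))) (a j)).map (Tr δ) := by
      funext j
      exact excLaw_eq hδ (ha j)
    rw [h2]
    have hp2 : ∀ j, SigmaFinite ((ex (VV (1 / δ) (Mn n (1 / δ))) (OO (Mn n (1 / δ))) (a j)).map (Tr δ)) :=
      fun j => by
        have : IsProbabilityMeasure
          ((ex (VV (1 / δ) (Mn n (1 / δ))) (OO (Mn n (1 / δ))) (a j)).map (Tr δ)) :=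
          Measure.isProbabilityMeasure_map (Measurable.of_discrete).aemeasurable
        infer_instance
    rw [← Measure.pi_map_pi (f := fun _ l => Tr δ l) (fun j => (Measurable.of_discrete).aemeasurable)]
  rw [h1, Measure.map_apply (measurable_lists _) hS]
  rfl

/-- **the probability in the scaling limit** -/
theorem nonInt_eq (hk : 1 ≤ k) (hn : 0 < n) (hz : ∀ j, ‖z j‖ = 1) (hinj : Function.Injective z)
    (A : Approx n z δ a) (μ : Fin k → Measure (NonemptyCompacts ℂ × NonemptyCompacts ℂ))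
    (hμ : LimitAlong n δ a μ) : nonInt μ = pn n (fun j => an (Complex.arg (z j))) := by
  obtain ⟨b, D⟩ := A.dat hz
  have hθ := Dd_ne_zero hz hinj
  have hinj' : ∀ i j : Fin k, i ≠ j → Complex.exp (Complex.arg (z i) * Complex.I) ≠
      Complex.exp (Complex.arg (z j) * Complex.I) := by
    intro i j hij h
    rw [exp_arg_eq hz, exp_arg_eq hz] at h
    exact hij (hinj h)
  have hp := hμ.prob
  have hpe : ∀ i j, IsProbabilityMeasure (excLaw (δ i) n (a i j)) := fun i j =>
    isProb_excLaw (A.pos i) (A.mem i j)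
  set p : ℝ := pn n (fun j => an (Complex.arg (z j))) with hpdef
  have hp0 : 0 ≤ p := by
    simp only [hpdef]
    unfold pn
    split_ifs <;> positivity
  -- weak convergence of the products
  set ν : ℕ → Fin k → ProbabilityMeasure (NonemptyCompacts ℂ × NonemptyCompacts ℂ) :=
    fun i j => ⟨excLaw (δ i) n (a i j), hpe i j⟩ with hν
  set μ' : Fin k → ProbabilityMeasure (NonemptyCompacts ℂ × NonemptyCompacts ℂ) :=
    fun j => ⟨μ j, hp j⟩ with hμ'
  have hconv : Tendsto ν atTop (𝓝 μ') := by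
    rw [tendsto_pi_nhds]
    intro j
    rw [ProbabilityMeasure.tendsto_iff_forall_integral_tendsto]
    intro f
    exact hμ.conv j f
  have hprod : Tendsto (fun i => ProbabilityMeasure.pi (ν i)) atTop (𝓝 (ProbabilityMeasure.pi μ')) :=
    (ProbabilityMeasure.continuous_pi.tendsto μ').comp hconv
  have hνm : ∀ i, (ProbabilityMeasure.pi (ν i) : Measure (Fin k → NonemptyCompacts ℂ × NonemptyCompacts ℂ)) =
      LL2 (δ i) n (a i) := fun i => rfl
  have hμm : (ProbabilityMeasure.pi μ' : Measure (Fin k → NonemptyCompacts ℂ × NonemptyCompacts ℂ)) =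
      Measure.pi μ := rfl
  -- the discrete probabilities converge
  have hGm : MeasurableSet (GG k) := (isOpen_GG k).measurableSet
  have hG : Tendsto (fun i => LL2 (δ i) n (a i) (GG k)) atTop (𝓝 (ENNReal.ofReal p)) := by
    have h1 := D.GV_lim hk hn hθ hinj'
    apply h1.congr
    intro i
    rw [LL2_apply (A.pos i) (A.mem i) hGm]
    apply measure_congr
    filter_upwards [fam_ae (disj_VO (1 / δ i) (Mn n (1 / δ i))) (a i) (fun j => ZZ_pos (D.hx i j))] with ls hls
    exact propext (GG_iff hls (A.pos i)).symm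
  -- lower bound
  have hlow : Measure.pi μ (GG k) ≤ ENNReal.ofReal p := by
    have h1 := ProbabilityMeasure.le_liminf_measure_open_of_tendsto hprod (isOpen_GG k)
    rw [hμm] at h1
    simp only [hνm] at h1
    rwa [hG.liminf_eq] at h1
  -- upper bound
  have hupp : ENNReal.ofReal p ≤ Measure.pi μ (GG k) := by
    apply ENNReal.le_of_forall_pos_le_add
    intro η hη _
    have hη' : (0 : ℝ) < (η : ℝ) / 2 := by positivity
    obtain ⟨ε', hε', hnear⟩ := D.near_miss hn hinj' ((η : ℝ) / 2) hη'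
    set ε : ℝ := ε' / 2 with hε
    have hε0 : 0 < ε := by positivity
    have h1 := ProbabilityMeasure.limsup_measure_closed_le_of_tendsto hprod (isOpen_UU k ε).isClosed_compl
    rw [hμm] at h1
    simp only [hνm] at h1
    have h2 : Measure.pi μ (UU k ε)ᶜ < Measure.pi μ (GG k) + ENNReal.ofReal ((η : ℝ) / 2) := by
      refine lt_of_le_of_lt (measure_mono (compl_UU_sub hε0)) ?_
      exact ENNReal.lt_add_right (measure_ne_top _ _) (ENNReal.ofReal_pos.2 hη').ne'
    have h3 := Filter.eventually_lt_of_limsup_lt (lt_of_le_of_lt h1 h2)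
    have h4 : ∀ᶠ i in atTop, LL2 (δ i) n (a i) (GG k) ≤ Measure.pi μ (GG k) + η := by
      have hmesh : ∀ᶠ i in atTop, δ i < ε' / 4 := A.mesh.eventually (gt_mem_nhds (by positivity))
      filter_upwards [h3, hnear, hmesh] with i hi3 hi4 hi5
      have e1 : LL2 (δ i) n (a i) (GG k ∩ UU k ε) ≤ ENNReal.ofReal ((η : ℝ) / 2) := by
        rw [LL2_apply (A.pos i) (A.mem i) (hGm.inter (isOpen_UU k ε).measurableSet)]
        refine le_trans (measure_mono_ae ?_) hi4
        filter_upwards [fam_ae (disj_VO (1 / δ i) (Mn n (1 / δ i))) (a i) (fun j => ZZ_pos (D.hx i j))] with ls hls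
        rintro ⟨g1, j, l, hjl, u, hu, v, hv, huv⟩
        refine ⟨GV_sub_BB _ ((GG_iff hls (A.pos i)).1 g1), j, l, hjl, ?_⟩
        obtain ⟨t, _, hl, _, hW⟩ := Fam_Wk hls j
        obtain ⟨t', _, hl', hW', _⟩ := Fam_Wk hls l
        change u ∈ (trace (δ i) (ler (ls j)) : Set ℂ) at hu
        change v ∈ (trace (δ i) (ls l) : Set ℂ) at hv
        rw [hl, ler_eq] at hu
        rw [hl'] at hv
        obtain ⟨w, hw, hwu⟩ := near_vertex (A.pos i) hW hu
        obtain ⟨w', hw', hwv⟩ := near_vertex (A.pos i) hW' hv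
        refine ⟨w, ?_, w', ?_, ?_⟩
        · rw [hl, ler_eq]; exact hw
        · rw [hl']; exact hw'
        · have e2 : ‖emb (δ i) w - emb (δ i) w'‖ ≤ ε' := by
            have e3 : emb (δ i) w - emb (δ i) w' = (u - v) - (u - emb (δ i) w) + (v - emb (δ i) w') := by ring
            rw [e3]
            have g2 := norm_add_le ((u - v) - (u - emb (δ i) w)) (v - emb (δ i) w')
            have g3 := norm_sub_le (u - v) (u - emb (δ i) w)
            rw [dist_eq_norm] at huv
            simp only [hε] at huv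
            linarith
          rw [emb_eq, emb_eq, ← mul_sub, norm_mul, Complex.norm_real, Real.norm_eq_abs,
            abs_of_pos (A.pos i)] at e2
          rw [← mul_div_assoc, mul_one, le_div_iff₀ (A.pos i)]
          linarith
      calc LL2 (δ i) n (a i) (GG k) ≤ LL2 (δ i) n (a i) ((GG k ∩ UU k ε) ∪ (UU k ε)ᶜ) := by
            apply measure_mono
            intro ω hω
            by_cases h : ω ∈ UU k ε
            · exact Or.inl ⟨hω, h⟩
            · exact Or.inr h
        _ ≤ ENNReal.ofReal ((η : ℝ) / 2) + (Measure.pi μ (GG k) + ENNReal.ofReal ((η : ℝ) / 2)) :=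
            (measure_union_le _ _).trans (add_le_add e1 hi3.le)
        _ = Measure.pi μ (GG k) + η := by
            rw [add_comm, add_assoc, ← ENNReal.ofReal_add (by positivity) (by positivity)]
            congr 1
            rw [add_halves]
            exact ENNReal.ofReal_coe_nnreal
    exact le_of_tendsto hG h4
  have h5 : Measure.pi μ (GG k) = ENNReal.ofReal p := le_antisymm hlow hupp
  have h6 : nonInt μ = (Measure.pi μ (GG k)).toReal := rfl
  rw [h6, h5, ENNReal.toReal_ofReal hp0]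

end

end Pool.Agent.H96.LE
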