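import Pool.Agent.H96.LE.Main1

/-!
# Existence of approximations and of scaling limits
-/

namespace Pool.Agent.H96.LE

open TopologicalSpace MeasureTheory Filter Topology
open scoped ENNReal

lemma emb_re (δ : ℝ) (v : ℤ × ℤ) : (emb δ v).re = δ * v.1 := by
  unfold emb
  simp

lemma emb_im (δ : ℝ) (v : ℤ × ℤ) : (emb δ v).im = δ * v.2 := by
  unfold emb
  simp

lemma norm_emb_le {δ : ℝ} (v : ℤ × ℤ) {r : ℝ} (hr : 0 ≤ r) :
    ‖emb δ v‖ ≤ r ↔ (δ * v.1) ^ 2 + (δ * v.2) ^ 2 ≤ r ^ 2 := by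
  rw [← abs_of_nonneg hr, ← abs_norm, ← sq_le_sq, Complex.sq_norm, Complex.normSq_apply, emb_re,
    emb_im, sq_abs]
  constructor <;> intro h <;> nlinarith

/-- rounding toward zero -/
lemma exists_round {δ : ℝ} (hδ : 0 < δ) (s : ℝ) : ∃ y : ℤ, |δ * y - s| ≤ δ ∧ |δ * y| ≤ |s| := by
  rcases le_or_gt 0 s with hs | hs
  · refine ⟨⌊s / δ⌋, ?_, ?_⟩
    · have h1 := Int.floor_le (s / δ)
      have h2 := Int.lt_floor_add_one (s / δ)
      rw [le_div_iff₀ hδ] at h1
      rw [div_lt_iff₀ hδ] at h2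
      rw [abs_le]
      constructor <;> nlinarith
    · have h1 := Int.floor_le (s / δ)
      rw [le_div_iff₀ hδ] at h1
      have h0 : (0 : ℝ) ≤ ⌊s / δ⌋ := by exact_mod_cast Int.floor_nonneg.2 (by positivity)
      rw [abs_of_nonneg (by positivity), abs_of_nonneg hs]
      linarith
  · refine ⟨⌈s / δ⌉, ?_, ?_⟩
    · have h1 := Int.le_ceil (s / δ)
      have h2 := Int.ceil_lt_add_one (s / δ)
      rw [div_le_iff₀ hδ] at h1
      have h3 : (⌈s / δ⌉ : ℝ) - 1 < s / δ := by linarith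
      rw [lt_div_iff₀ hδ] at h3
      rw [abs_le]
      constructor <;> nlinarith
    · have h1 := Int.le_ceil (s / δ)
      rw [div_le_iff₀ hδ] at h1
      have h0 : (⌈s / δ⌉ : ℝ) ≤ 0 := by
        have : ⌈s / δ⌉ ≤ 0 := Int.ceil_le.2 (by
          rw [Int.cast_zero]
          exact (div_nonpos_of_nonpos_of_nonneg hs.le hδ.le))
        exact_mod_cast this
      rw [abs_of_nonpos (by nlinarith), abs_of_neg hs]
      linarith

/-- a lattice vertex next to the closed unit disc near a point of the circle -/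
lemma exists_vertex {δ : ℝ} (hδ : 0 < δ) {z : ℂ} (hz : ‖z‖ = 1) : ∃ v : ℤ × ℤ,
    (∃ b, Adj v b ∧ ‖emb δ b‖ ≤ 1) ∧ 1 < ‖emb δ v‖ ∧ ‖emb δ v‖ ≤ 1 + δ ∧
      |(emb δ v).im - z.im| ≤ δ ∧ (0 ≤ z.re → 0 ≤ (emb δ v).re) ∧ (z.re < 0 → (emb δ v).re ≤ 0) := by
  obtain ⟨y, hy1, hy2⟩ := exists_round hδ z.im
  have him : |z.im| ≤ 1 := by rw [← hz]; exact Complex.abs_im_le_norm z
  have hy3 : (δ * y) ^ 2 ≤ 1 := by
    have := hy2.trans him
    rw [abs_le] at this
    nlinarith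
  have hex : ∃ x : ℕ, 1 < (δ * x) ^ 2 + (δ * y) ^ 2 := by
    obtain ⟨x, hx⟩ := exists_nat_gt (1 / δ)
    refine ⟨x, ?_⟩
    rw [div_lt_iff₀ hδ] at hx
    nlinarith [sq_nonneg (δ * y)]
  classical
  set x := Nat.find hex with hx
  have hx1 := Nat.find_spec hex
  rw [← hx] at hx1
  have hx0 : 1 ≤ x := by
    by_contra h
    have : x = 0 := by omega
    rw [this, Nat.cast_zero, mul_zero] at hx1
    linarith
  have hx2 : (δ * ((x : ℝ) - 1)) ^ 2 + (δ * y) ^ 2 ≤ 1 := by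
    have := Nat.find_min hex (m := x - 1) (by omega)
    rw [Nat.cast_sub hx0, Nat.cast_one] at this
    linarith
  -- the sign
  obtain ⟨s, hs, hs1, hs2⟩ : ∃ s : ℤ, (s = 1 ∨ s = -1) ∧ (0 ≤ z.re → s = 1) ∧ (z.re < 0 → s = -1) := by
    rcases le_or_gt 0 z.re with h | h
    · exact ⟨1, Or.inl rfl, fun _ => rfl, fun h' => absurd h (not_le.2 h')⟩
    · exact ⟨-1, Or.inr rfl, fun h' => absurd h' (not_le.2 h), fun _ => rfl⟩
  have hsq : ((s : ℝ)) ^ 2 = 1 := by rcases hs with rfl | rfl <;> norm_num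
  have e1 : ∀ m : ℤ, (δ * ((s * m : ℤ) : ℝ)) ^ 2 = (δ * m) ^ 2 := by
    intro m
    push_cast
    rw [show δ * (s * (m : ℝ)) = s * (δ * m) by ring, mul_pow, hsq, one_mul]
  have hadj : Adj ((s * x : ℤ), y) ((s * ((x : ℤ) - 1) : ℤ), y) := by
    unfold Adj
    rcases hs with rfl | rfl
    · simp
    · have : (-1 * (x : ℤ)) - (-1 * ((x : ℤ) - 1)) = -1 := by ring
      simp only [this]
      simp
  have hb : ‖emb δ ((s * ((x : ℤ) - 1) : ℤ), y)‖ ≤ 1 := by
    rw [norm_emb_le _ zero_le_one]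
    simp only
    rw [e1]
    push_cast
    linarith
  refine ⟨((s * x : ℤ), y), ⟨_, hadj, hb⟩, ?_, ?_, ?_, ?_, ?_⟩
  · rw [← not_le, norm_emb_le _ zero_le_one]
    simp only
    rw [e1]
    push_cast
    rw [not_le]
    linarith
  · have h1 : emb δ ((s * x : ℤ), y) = emb δ ((s * ((x : ℤ) - 1) : ℤ), y) + (δ * s : ℝ) := by
      apply Complex.ext
      · rw [Complex.add_re, emb_re, emb_re, Complex.ofReal_re]
        push_cast
        ring
      · rw [Complex.add_im, emb_im, emb_im, Complex.ofReal_im]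
        ring
    rw [h1]
    refine (norm_add_le _ _).trans ?_
    have h2 : ‖((δ * s : ℝ) : ℂ)‖ = δ := by
      rw [Complex.norm_real, Real.norm_eq_abs, abs_mul, abs_of_pos hδ]
      rcases hs with rfl | rfl <;> simp
    rw [h2]
    linarith
  · rw [emb_im]
    exact hy1
  · intro h
    rw [emb_re]
    simp only
    rw [hs1 h]
    push_cast
    positivity
  · intro h
    rw [emb_re]
    simp only
    rw [hs2 h]
    push_cast
    have : 0 ≤ δ * (x : ℝ) := by positivity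
    linarith

lemma lim_of_bounds {z : ℂ} (hz : ‖z‖ = 1) {δ : ℕ → ℝ} (hδ : Tendsto δ atTop (𝓝 0)) {w : ℕ → ℂ}
    (h1 : ∀ i, 1 < ‖w i‖) (h2 : ∀ i, ‖w i‖ ≤ 1 + δ i) (h3 : ∀ i, |(w i).im - z.im| ≤ δ i)
    (h4 : 0 ≤ z.re → ∀ i, 0 ≤ (w i).re) (h5 : z.re < 0 → ∀ i, (w i).re ≤ 0) :
    Tendsto w atTop (𝓝 z) := by
  have hn : Tendsto (fun i => ‖w i‖) atTop (𝓝 1) := by
    have h6 : Tendsto (fun i => 1 + δ i) atTop (𝓝 1) := by
      have := hδ.const_add 1
      rwa [add_zero] at this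
    exact tendsto_of_tendsto_of_tendsto_of_le_of_le tendsto_const_nhds h6 (fun i => (h1 i).le) h2
  have him : Tendsto (fun i => (w i).im) atTop (𝓝 z.im) := by
    rw [tendsto_iff_dist_tendsto_zero]
    exact squeeze_zero (fun i => dist_nonneg) (fun i => by rw [Real.dist_eq]; exact h3 i) hδ
  have hre2 : Tendsto (fun i => (w i).re ^ 2) atTop (𝓝 (z.re ^ 2)) := by
    have e : ∀ u : ℂ, u.re ^ 2 = ‖u‖ ^ 2 - u.im ^ 2 := by
      intro u
      rw [Complex.sq_norm, Complex.normSq_apply]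
      ring
    rw [e z, hz]
    have := (hn.pow 2).sub (him.pow 2)
    apply this.congr
    intro i
    exact (e (w i)).symm
  have habs : Tendsto (fun i => |(w i).re|) atTop (𝓝 |z.re|) := by
    have := hre2.sqrt
    simp only [Real.sqrt_sq_eq_abs] at this
    exact this
  have hre : Tendsto (fun i => (w i).re) atTop (𝓝 z.re) := by
    rcases le_or_gt 0 z.re with h | h
    · rw [abs_of_nonneg h] at habs
      apply habs.congr
      intro i
      exact abs_of_nonneg (h4 h i)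
    · rw [abs_of_neg h] at habs
      have := habs.neg
      rw [neg_neg] at this
      apply this.congr
      intro i
      rw [abs_of_nonpos (h5 h i), neg_neg]
  rw [tendsto_iff_norm_sub_tendsto_zero]
  have h7 : Tendsto (fun i => |(w i).re - z.re| + |(w i).im - z.im|) atTop (𝓝 0) := by
    have a1 := (hre.sub_const z.re).abs
    have a2 := (him.sub_const z.im).abs
    rw [sub_self, abs_zero] at a1 a2
    have := a1.add a2
    rwa [add_zero] at this
  refine squeeze_zero (fun i => norm_nonneg _) (fun i => ?_) h7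
  have := Complex.norm_le_abs_re_add_abs_im (w i - z)
  simpa using this

/-- **discrete approximations exist** -/
theorem exists_approx {k : ℕ} {n : ℝ} (hn : 0 < n) {z : Fin k → ℂ} (hz : ∀ j, ‖z j‖ = 1) :
    ∃ δ a, Approx n z δ a := by
  have he : 0 < Real.exp n - 1 := by
    have := Real.add_one_lt_exp hn.ne'
    linarith
  set c : ℝ := (Real.exp n - 1) / 2 with hc
  have hc0 : 0 < c := by positivity
  set δ : ℕ → ℝ := fun i => c / ((i : ℝ) + 1) with hδ
  have hδ0 : ∀ i, 0 < δ i := fun i => by simp only [hδ]; positivity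
  have hδlim : Tendsto δ atTop (𝓝 0) := by
    have := tendsto_one_div_add_atTop_nhds_zero_nat (𝕜 := ℝ)
    have h2 := this.const_mul c
    rw [mul_zero] at h2
    apply h2.congr
    intro i
    simp only [hδ]
    ring
  have hδc : ∀ i, δ i ≤ c := by
    intro i
    simp only [hδ]
    rw [div_le_iff₀ (by positivity)]
    have : (0 : ℝ) ≤ i := Nat.cast_nonneg i
    nlinarith
  choose a h1 h2 h3 h4 h5 h6 using fun i j => exists_vertex (hδ0 i) (hz j)
  refine ⟨δ, a, ⟨hδ0, hδlim, ?_, h1, ?_⟩⟩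
  · intro i j
    refine ⟨h2 i j, lt_of_le_of_lt (h3 i j) ?_⟩
    have := hδc i
    simp only [hc] at this
    linarith
  · intro j
    exact lim_of_bounds (hz j) hδlim (fun i => h2 i j) (fun i => h3 i j) (fun i => h4 i j)
      (fun h i => h5 i j h) (fun h i => h6 i j h)

/-! ### compactness -/

/-- pairs of compact subsets of a closed ball -/
def KB (r : ℝ) : Set (NonemptyCompacts ℂ × NonemptyCompacts ℂ) :=
  {L : NonemptyCompacts ℂ | (L : Set ℂ) ⊆ Metric.closedBall 0 r} ×ˢ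
    {L : NonemptyCompacts ℂ | (L : Set ℂ) ⊆ Metric.closedBall 0 r}

lemma isCompact_KB (r : ℝ) : IsCompact (KB r) :=
  (NonemptyCompacts.isCompact_subsets_of_isCompact (isCompact_closedBall 0 r)).prod
    (NonemptyCompacts.isCompact_subsets_of_isCompact (isCompact_closedBall 0 r))

lemma P_norm_emb {δ n : ℝ} (hδ : 0 < δ) {a : Z2} {t : List Z2}
    (h : P (VV (1 / δ) (Mn n (1 / δ))) (OO (Mn n (1 / δ))) a t) {v : Z2} (hv : v ∈ a :: t) :
    ‖emb δ v‖ ≤ Real.exp n + δ := by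
  have h1 : ‖cx v‖ < Mn n (1 / δ) + 1 := by
    rcases P_mem_or _ _ h v hv with h2 | h2
    · have := (mem_VV.1 h2).2
      linarith
    · have h3 := P_en h
      rw [h2]
      exact (mem_OO.1 h3).2
  rw [norm_emb hδ]
  have h2 : δ * ‖cx v‖ ≤ δ * (Mn n (1 / δ) + 1) := by nlinarith
  refine h2.trans (le_of_eq ?_)
  unfold Mn
  field_simp

lemma trace_sub {δ n : ℝ} (hδ : 0 < δ) {a : Z2} {t : List Z2}
    (h : P (VV (1 / δ) (Mn n (1 / δ))) (OO (Mn n (1 / δ))) a t) {r : ℝ} (hr : Real.exp n + 2 * δ ≤ r) :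
    (trace δ (a :: t) : Set ℂ) ⊆ Metric.closedBall 0 r := by
  intro p hp
  obtain ⟨w, hw, hpw⟩ := near_vertex hδ (P_Wk _ _ h) hp
  have h1 := P_norm_emb hδ h hw
  rw [mem_closedBall_zero_iff]
  have h2 : p = (p - emb δ w) + emb δ w := by ring
  rw [h2]
  refine (norm_add_le _ _).trans ?_
  linarith

lemma excLaw_KB {δ n : ℝ} (hδ : 0 < δ) {a : Z2} (ha : emb δ a ∈ annulus n) {r : ℝ}
    (hr : Real.exp n + 2 * δ ≤ r) : excLaw δ n a (KB r)ᶜ = 0 := by
  rw [excLaw_eq hδ ha, Measure.map_apply (Measurable.of_discrete)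
    (isCompact_KB r).isClosed.measurableSet.compl]
  have h1 := ex_ae (VV (1 / δ) (Mn n (1 / δ))) (OO (Mn n (1 / δ))) a
  rw [← nonpos_iff_eq_zero]
  refine le_trans (measure_mono_ae ?_) (le_of_eq (measure_empty (μ := ex (VV (1 / δ) (Mn n (1 / δ)))
    (OO (Mn n (1 / δ))) a)))
  filter_upwards [h1] with l hl hmem
  obtain ⟨t, ht, rfl⟩ := hl
  apply hmem
  refine ⟨trace_sub hδ ht hr, ?_⟩
  change (trace δ (ler (a :: t)) : Set ℂ) ⊆ _
  rw [ler_eq]
  exact trace_sub hδ (P_LE ht) hr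

/-- **scaling limits exist along subsequences** -/
theorem exists_limit {k : ℕ} {n : ℝ} {z : Fin k → ℂ} {δ : ℕ → ℝ} {a : ℕ → Fin k → ℤ × ℤ}
    (A : Approx n z δ a) : ∃ φ : ℕ → ℕ, StrictMono φ ∧
      ∃ μ, LimitAlong n (fun i => δ (φ i)) (fun i => a (φ i)) μ := by
  obtain ⟨C, hC⟩ : ∃ C, ∀ i, δ i ≤ C := by
    obtain ⟨C, hC⟩ := A.mesh.bddAbove_range
    exact ⟨C, fun i => hC ⟨i, rfl⟩⟩
  set r : ℝ := Real.exp n + 2 * C with hr
  have hpe : ∀ i j, IsProbabilityMeasure (excLaw (δ i) n (a i j)) := fun i j =>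
    isProb_excLaw (A.pos i) (A.mem i j)
  set ν : ℕ → Fin k → ProbabilityMeasure (NonemptyCompacts ℂ × NonemptyCompacts ℂ) :=
    fun i j => ⟨excLaw (δ i) n (a i j), hpe i j⟩ with hν
  set S : Set (ProbabilityMeasure (NonemptyCompacts ℂ × NonemptyCompacts ℂ)) :=
    {μ | ∀ m : ℕ, μ ((fun _ : ℕ => KB r) m)ᶜ ≤ (fun _ : ℕ => (0 : NNReal)) m} with hS
  have hScomp : IsCompact S :=
    isCompact_setOfPred_probabilityMeasure_mass_eq_compl_isCompact_le tendsto_const_nhds
      (fun _ => isCompact_KB r) (Or.inr monotone_const)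
  have hpi : IsCompact (Set.pi Set.univ (fun _ : Fin k => S)) := isCompact_univ_pi (fun _ => hScomp)
  have hmem : ∀ i, ν i ∈ Set.pi Set.univ (fun _ : Fin k => S) := by
    intro i j _ m
    simp only [nonpos_iff_eq_zero]
    rw [ProbabilityMeasure.null_iff_toMeasure_null]
    exact excLaw_KB (A.pos i) (A.mem i j) (by simp only [hr]; linarith [hC i])
  obtain ⟨μ, _, φ, hφ, hlim⟩ := hpi.tendsto_subseq hmem
  refine ⟨φ, hφ, fun j => (μ j : Measure (NonemptyCompacts ℂ × NonemptyCompacts ℂ)), ⟨fun j => (μ j).2, ?_⟩⟩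
  intro j f
  have h1 := (tendsto_pi_nhds.1 hlim) j
  exact (ProbabilityMeasure.tendsto_iff_forall_integral_tendsto.1 h1) f

/-- the discrete non-intersection probabilities converge -/
theorem disc_nonInt_lim {k : ℕ} {n : ℝ} {z : Fin k → ℂ} {δ : ℕ → ℝ} {a : ℕ → Fin k → ℤ × ℤ}
    (hk : 1 ≤ k) (hn : 0 < n) (hz : ∀ j, ‖z j‖ = 1) (hinj : Function.Injective z)
    (A : Approx n z δ a) :
    Tendsto (fun i => nonInt (fun j => excLaw (δ i) n (a i j))) atTop
      (𝓝 (pn n (fun j => an (Complex.arg (z j))))) := by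
  obtain ⟨b, D⟩ := A.dat hz
  have hθ := Dd_ne_zero hz hinj
  have hinj' : ∀ i j : Fin k, i ≠ j → Complex.exp (Complex.arg (z i) * Complex.I) ≠
      Complex.exp (Complex.arg (z j) * Complex.I) := by
    intro i j hij h
    rw [exp_arg_eq hz, exp_arg_eq hz] at h
    exact hij (hinj h)
  have hp0 : 0 ≤ pn n (fun j => an (Complex.arg (z j))) := by
    unfold pn
    split_ifs <;> positivity
  have hGm : MeasurableSet (GG k) := (isOpen_GG k).measurableSet
  have hG : Tendsto (fun i => LL2 (δ i) n (a i) (GG k)) atTop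
      (𝓝 (ENNReal.ofReal (pn n (fun j => an (Complex.arg (z j)))))) := by
    have h1 := D.GV_lim hk hn hθ hinj'
    apply h1.congr
    intro i
    rw [LL2_apply (A.pos i) (A.mem i) hGm]
    apply measure_congr
    filter_upwards [fam_ae (disj_VO (1 / δ i) (Mn n (1 / δ i))) (a i) (fun j => ZZ_pos (D.hx i j))] with ls hls
    exact propext (GG_iff hls (A.pos i)).symm
  have h2 := (ENNReal.tendsto_toReal ENNReal.ofReal_ne_top).comp hG
  rw [ENNReal.toReal_ofReal hp0] at h2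
  exact h2

end Pool.Agent.H96.LE
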