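import Pool.Agent.H96.LE.Disc
import Pool.Agent.H96.LE.Barrier

/-!
# Near misses: estimates for one excursion
-/

namespace Pool.Agent.H96.LE

open Finset Filter Topology MeasureTheory

open Classical in
/-- path sum of an indicator -/
noncomputable def uu (D O : Finset Z2) (Φ : List Z2 → Prop) (z : Z2) : ℝ :=
  PS q1 D O z (fun l => if Φ l then 1 else 0)

lemma ind_bd (Φ : List Z2 → Prop) [DecidablePred Φ] (l : List Z2) : ‖(if Φ l then (1 : ℝ) else 0)‖ ≤ 1 := by
  split_ifs <;> simp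

lemma uu_nonneg (D O : Finset Z2) (Φ : List Z2 → Prop) (z : Z2) : 0 ≤ uu D O Φ z :=
  PS_nonneg (fun l => by split_ifs <;> simp)

lemma uu_mono {D O : Finset Z2} (hDO : Disjoint D O) {Φ Ψ : List Z2 → Prop} {z : Z2}
    (h : ∀ t, P D O z t → Φ (z :: t) → Ψ (z :: t)) : uu D O Φ z ≤ uu D O Ψ z := by
  classical
  apply PS_mono hDO 1 1 (ind_bd _) (ind_bd _)
  intro t ht
  by_cases h1 : Φ (z :: t)
  · rw [if_pos h1, if_pos (h t ht h1)]
  · rw [if_neg h1]; split_ifs <;> simp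

lemma uu_le_ZZ {D O : Finset Z2} (hDO : Disjoint D O) (Φ : List Z2 → Prop) (z : Z2) :
    uu D O Φ z ≤ ZZ D O z := by
  classical
  apply PS_mono hDO 1 1 (ind_bd _) (fun l => by simp)
  intro t _
  split_ifs <;> simp

lemma uu_le_one {D O : Finset Z2} (hDO : Disjoint D O) (Φ : List Z2 → Prop) (z : Z2) :
    uu D O Φ z ≤ 1 := by
  classical
  have h := norm_PS_le GW_q1 hDO z (fun l => if Φ l then (1 : ℝ) else 0) 1 (ind_bd _)
  rw [Real.norm_eq_abs] at h
  exact (le_abs_self _).trans h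

lemma uu_av {D O : Finset Z2} (hDO : Disjoint D O) {Φ : List Z2 → Prop} {z : Z2} (hz : z ∈ D)
    (h : ∀ l, Φ (z :: l) ↔ Φ l) : uu D O Φ z = av (uu D O Φ) z := by
  classical
  unfold uu
  rw [PS_av hDO hz _ 1 (ind_bd _)]
  unfold av
  congr 1
  apply Finset.sum_congr rfl
  intro b _
  congr 1
  funext l
  simp only [h l]

lemma uu_out {D O : Finset Z2} {Φ : List Z2 → Prop} {z : Z2} (hz : z ∉ D) (hzO : z ∈ O)
    (h : ¬ Φ [z]) : uu D O Φ z = 0 := by
  unfold uu
  rw [PS_out hz hzO, if_neg h]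

lemma uu_none {D O : Finset Z2} {Φ : List Z2 → Prop} {z : Z2} (hz : z ∉ D) (hzO : z ∉ O) :
    uu D O Φ z = 0 := PS_none hz hzO _

/-- comparison of visiting masses -/
lemma visit_bound {D O : Finset Z2} (hDO : Disjoint D O) (A : Z2 → Prop) (Φ : List Z2 → Prop)
    (hΦ : ∀ z ∈ D, ¬ A z → ∀ l, (Φ (z :: l) ↔ Φ l)) (v : Z2 → ℝ)
    (hv : ∀ z ∈ D, ¬ A z → av v z ≤ v z) (hv0 : ∀ z, 0 ≤ v z) (hO : ∀ o ∈ O, ¬ Φ [o])
    (hA : ∀ z ∈ D, A z → uu D O Φ z ≤ v z) : ∀ z ∈ D, uu D O Φ z ≤ v z := by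
  classical
  intro z hz
  by_cases hAz : A z
  · exact hA z hz hAz
  · apply comparison (D.filter (fun z => ¬ A z)) (uu D O Φ) v _ _ _ z
      (Finset.mem_filter.2 ⟨hz, hAz⟩)
    · intro z hz
      rw [Finset.mem_filter] at hz
      exact (uu_av hDO hz.1 (hΦ z hz.1 hz.2)).le
    · intro z hz
      rw [Finset.mem_filter] at hz
      exact hv z hz.1 hz.2
    · intro z _ w _ hw
      by_cases hwD : w ∈ D
      · have : A w := by
          by_contra hc
          exact hw (Finset.mem_filter.2 ⟨hwD, hc⟩)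
        exact hA w hwD this
      · by_cases hwO : w ∈ O
        · rw [uu_out hwD hwO (hO w hwO)]
          exact hv0 w
        · rw [uu_none hwD hwO]
          exact hv0 w

lemma hh_av {n R : ℝ} {z : Z2} (hz : z ∈ VV R (Mn n R)) : hh n R z = av (hh n R) z := by
  unfold hh
  exact PL_av (disj_VO _ _) _ hz

lemma prob_uu {n R : ℝ} {x : Z2} (hx : x ∈ VV R (Mn n R)) (Φ : List Z2 → Prop) :
    ex (VV R (Mn n R)) (OO (Mn n R)) x {l | Φ l} =
      ENNReal.ofReal (uu (VV R (Mn n R)) (OO (Mn n R)) Φ x / hh n R x) := by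
  classical
  rw [ex_prob (disj_VO _ _) (ZZ_pos hx), ZZ_hh]
  rfl

lemma inner_norm {R : ℝ} {x b : Z2} (hb : b ∈ nb x) (hbR : ‖cx b‖ ≤ R) : ‖cx x‖ ≤ R + 1 := by
  have h1 := (norm_nb_ge (nb_symm.1 hb)).2
  linarith

/-- **first event**: visits of the inner ring far from the start -/
theorem ev1 (n : ℝ) (hn : 0 < n) : ∃ C > 0, ∀ r : ℝ, 0 < r → r ≤ 1 / 2 → ∀ ρ : ℝ, 0 < ρ →
    ∀ᶠ R in atTop, ∀ x ∈ VV R (Mn n R), ∀ b ∈ nb x, ‖cx b‖ ≤ R → ∀ e : ℂ, ‖e‖ = 1 →
      cx x = ‖cx x‖ * e →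
      ex (VV R (Mn n R)) (OO (Mn n R)) x {l | ∃ v ∈ l, v ∈ VV R (Mn n R) ∧ ‖cx v‖ ≤ (1 + ρ) * R ∧
        r * R ≤ ‖cx v - R * e‖} ≤ ENNReal.ofReal (C * (ρ / r)) := by
  obtain ⟨C0, hC0, hclose⟩ := hh_close n hn
  obtain ⟨c, hc, hge⟩ := hh_ge n hn
  refine ⟨160 / (c * n), by positivity, fun r hr hr2 ρ hρ => ?_⟩
  filter_upwards [hclose, hge, eventually_ge_atTop (4 / r), eventually_gt_atTop (2 / r),
    eventually_ge_atTop (C0 * n / ρ), eventually_ge_atTop 1,
    eventually_ge_atTop (128 * Real.exp (2 * n) / r ^ 3)] with R hcl hge' hR1 hR2 hR3 hR4 hR5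
  intro x hx b hb hbR e he hxe
  have hR0 : 0 < R := by linarith
  set V := VV R (Mn n R) with hV
  set O := OO (Mn n R) with hO
  set Φ : List Z2 → Prop := fun l => ∃ v ∈ l, v ∈ V ∧ ‖cx v‖ ≤ (1 + ρ) * R ∧
        r * R ≤ ‖cx v - R * e‖ with hΦ
  rw [prob_uu hx Φ]
  apply ENNReal.ofReal_le_ofReal
  have hhx := hge' x hx
  have hhx0 : 0 < hh n R x := lt_of_lt_of_le (by positivity) hhx
  rw [div_le_iff₀ hhx0]
  set A : Z2 → Prop := fun v => ‖cx v‖ ≤ (1 + ρ) * R ∧ r * R ≤ ‖cx v - R * e‖ with hA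
  classical
  set β : ℝ := 2 * ρ / n with hβ
  have hβ0 : 0 < β := by positivity
  have hΦ1 : ∀ z ∈ V, ¬ A z → ∀ l, (Φ (z :: l) ↔ Φ l) := by
    intro z _ hz l
    simp only [hΦ, List.mem_cons]
    constructor
    · rintro ⟨v, rfl | hv, h1, h2⟩
      · exact absurd h2 hz
      · exact ⟨v, hv, h1, h2⟩
    · rintro ⟨v, hv, h⟩
      exact ⟨v, Or.inr hv, h⟩
  have hxn : ‖cx x‖ ≤ R + 1 := inner_norm hb hbR
  have hRr : 4 ≤ r * R := by rw [div_le_iff₀ hr] at hR1; linarith
  have hxA : ¬ A x := by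
    rintro ⟨_, h2⟩
    have h3 : cx x - R * e = ((‖cx x‖ - R : ℝ) : ℂ) * e := by
      conv_lhs => rw [hxe]
      push_cast; ring
    rw [h3, norm_mul, he, mul_one, Complex.norm_real, Real.norm_eq_abs, abs_of_pos (by
      have := (mem_VV.1 hx).1; linarith)] at h2
    linarith
  have hub : ∀ z ∈ V, A z → uu V O Φ z ≤ β := by
    intro z hz hAz
    have h1 := uu_le_ZZ (disj_VO R (Mn n R)) Φ z
    rw [ZZ_hh] at h1
    have h2 := hh_upper hn hR0 hcl hz
    have h3 : ((‖cx z‖ - R) / n + C0) / R ≤ β := by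
      rw [div_le_iff₀ hR0, hβ]
      have h4 : (‖cx z‖ - R) / n ≤ ρ * R / n := by
        apply div_le_div_of_nonneg_right _ hn.le
        have := hAz.1
        linarith
      have h5 : C0 ≤ ρ * R / n := by
        rw [div_le_iff₀ hρ] at hR3
        rw [le_div_iff₀ hn]
        linarith
      calc (‖cx z‖ - R) / n + C0 ≤ ρ * R / n + ρ * R / n := add_le_add h4 h5
        _ = 2 * ρ / n * R := by ring
    linarith
  have hMR : 32 * (Mn n R + 1) ^ 2 ≤ (r * R) ^ 3 := by
    have h1 := M_sq_bd (n := n) (R := R) hn.le hR4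
    have h2 : 128 * Real.exp (2 * n) ≤ R * r ^ 3 := by
      rw [div_le_iff₀ (by positivity)] at hR5
      linarith
    calc 32 * (Mn n R + 1) ^ 2 ≤ 32 * (4 * Real.exp (2 * n) * R ^ 2) := by linarith
      _ = (128 * Real.exp (2 * n)) * R ^ 2 := by ring
      _ ≤ (R * r ^ 3) * R ^ 2 := mul_le_mul_of_nonneg_right h2 (by positivity)
      _ = (r * R) ^ 3 := by ring
  have hbar := barrier_in (V.filter (fun z => ¬ A z)) R (Mn n R) (by unfold Mn; positivity)
    (fun z hz => mem_VV.1 (Finset.mem_filter.1 hz).1) (r * R) hRr (by nlinarith) hMR β hβ0.le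
    (uu V O Φ) (fun z hz => (uu_av (disj_VO _ _) (Finset.mem_filter.1 hz).1
      (hΦ1 z (Finset.mem_filter.1 hz).1 (Finset.mem_filter.1 hz).2)).le) x
    (Finset.mem_filter.2 ⟨hx, hxA⟩) e he hxe (by
      intro z hz w hw hwD
      by_cases hwV : w ∈ V
      · have hAw : A w := by
          by_contra hc
          exact hwD (Finset.mem_filter.2 ⟨hwV, hc⟩)
        right
        refine ⟨hub w hwV hAw, (mem_VV.1 hwV).1.le, ?_⟩
        have := hAw.2
        linarith
      · left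
        by_cases hwO : w ∈ O
        · rw [uu_out hwV hwO]
          rintro ⟨v, hv, h1, _⟩
          rw [List.mem_singleton] at hv
          exact hwV (hv ▸ h1)
        · rw [uu_none hwV hwO])
  calc uu V O Φ x ≤ 20 * β * ((‖cx x‖ - R + 3) / (r * R)) := hbar
    _ ≤ 20 * β * (4 / (r * R)) := by
        apply mul_le_mul_of_nonneg_left _ (by positivity)
        apply div_le_div_of_nonneg_right _ (by positivity)
        linarith
    _ = 160 / (c * n) * (ρ / r) * (c / R) := by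
        rw [hβ]; field_simp; ring
    _ ≤ 160 / (c * n) * (ρ / r) * hh n R x := mul_le_mul_of_nonneg_left hhx (by positivity)

/-- **second event**: long travels after reaching the outer ring -/
def Far2 (V : Finset Z2) (s q : ℝ) (l : List Z2) : Prop :=
  ∃ l1 v l2, l = l1 ++ v :: l2 ∧ v ∈ V ∧ s ≤ ‖cx v‖ ∧ ∃ w ∈ l2, q ≤ ‖cx w - cx v‖

lemma Far2_cons {V : Finset Z2} {s q : ℝ} {z : Z2} (hz : ¬ (s ≤ ‖cx z‖)) (l : List Z2) :
    Far2 V s q (z :: l) ↔ Far2 V s q l := by
  constructor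
  · rintro ⟨l1, v, l2, h1, h2, h3, h4⟩
    cases l1 with
    | nil =>
      simp only [List.nil_append, List.cons.injEq] at h1
      exact absurd (h1.1 ▸ h3) hz
    | cons a l1 =>
      simp only [List.cons_append, List.cons.injEq] at h1
      exact ⟨l1, v, l2, h1.2, h2, h3, h4⟩
  · rintro ⟨l1, v, l2, h1, h2, h3, h4⟩
    exact ⟨z :: l1, v, l2, by rw [h1]; rfl, h2, h3, h4⟩

lemma Far2_near {V : Finset Z2} {s q : ℝ} {z : Z2} {l : List Z2} (h : Far2 V s q (z :: l)) :
    ∃ w ∈ z :: l, q / 2 ≤ ‖cx w - cx z‖ := by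
  obtain ⟨l1, v, l2, h1, _, _, w, hw, h4⟩ := h
  by_contra hc
  push Not at hc
  have hv : v ∈ z :: l := by rw [h1]; simp
  have hw' : w ∈ z :: l := by
    rw [h1]
    exact List.mem_append_right _ (List.mem_cons_of_mem _ hw)
  have h5 := hc v hv
  have h6 := hc w hw'
  have h7 : ‖cx w - cx v‖ ≤ ‖cx w - cx z‖ + ‖cx v - cx z‖ := by
    have : cx w - cx v = (cx w - cx z) - (cx v - cx z) := by ring
    rw [this]
    exact norm_sub_le _ _
  linarith

theorem ev2 (n : ℝ) (hn : 0 < n) : ∃ ρ0 > 0, ∀ r : ℝ, 0 < r → ∀ ρ : ℝ, 0 < ρ → ρ ≤ ρ0 → ρ ≤ r / 4 →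
    ∀ᶠ R in atTop, ∀ x ∈ VV R (Mn n R),
      ex (VV R (Mn n R)) (OO (Mn n R)) x {l | Far2 (VV R (Mn n R)) (Mn n R - ρ * R) (r * R) l} ≤
        ENNReal.ofReal (320 * (ρ / r)) := by
  obtain ⟨C0, hC0, hclose⟩ := hh_close n hn
  have hexp : Real.exp (n / 2) < Real.exp n := Real.exp_lt_exp.2 (by linarith)
  refine ⟨Real.exp n - Real.exp (n / 2), by linarith, fun r hr ρ hρ hρ0 hρr => ?_⟩
  filter_upwards [hclose, eventually_ge_atTop (48 / r), eventually_ge_atTop (3 / ρ),
    eventually_ge_atTop (4 * C0), eventually_ge_atTop 1,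
    eventually_ge_atTop (1024 * Real.exp (2 * n) / r ^ 3)] with R hcl hR1 hR2 hR3 hR4 hR5
  intro x hx
  have hR0 : 0 < R := by linarith
  set V := VV R (Mn n R) with hV
  set O := OO (Mn n R) with hO
  set Φ : List Z2 → Prop := Far2 V (Mn n R - ρ * R) (r * R) with hΦ
  have hMR1 : 1 ≤ Mn n R := le_trans hR4 (Mn_ge hn.le hR0.le)
  have hx0 : 0 < hh n R x := by rw [← ZZ_hh]; exact ZZ_pos hx
  have h3R : 3 ≤ ρ * R := by rw [div_le_iff₀ hρ] at hR2; linarith
  rw [prob_uu hx Φ]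
  apply ENNReal.ofReal_le_ofReal
  rw [div_le_iff₀ hx0]
  apply visit_bound (disj_VO R (Mn n R)) (fun v => Mn n R - ρ * R ≤ ‖cx v‖) Φ
    (fun z _ hz l => Far2_cons hz l) (fun z => 320 * (ρ / r) * hh n R z) _
    (fun z => mul_nonneg (by positivity) (hh_nonneg n R z)) _ _ x hx
  · intro z hz _
    rw [av_const_mul, ← hh_av hz]
  · rintro o _ ⟨l1, v, l2, h1, _, _, w, hw, _⟩
    cases l1 with
    | nil =>
      simp only [List.nil_append, List.cons.injEq] at h1
      rw [← h1.2] at hw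
      exact absurd hw (by simp)
    | cons a l1 =>
      simp only [List.cons_append, List.cons.injEq] at h1
      exact absurd h1.2.symm (by simp)
  · intro z hz hzA
    have hz' := mem_VV.1 hz
    -- lower bound of the harmonic function
    have hlow : 1 / 4 ≤ hh n R z := by
      have h1 := (abs_le.1 (hcl z hz)).1
      have h2 : n / 2 ≤ Real.log (‖cx z‖ / R) := by
        rw [Real.le_log_iff_exp_le (div_pos (by linarith) hR0), le_div_iff₀ hR0]
        have h3 : Mn n R - ρ * R = (Real.exp n - ρ) * R := by unfold Mn; ring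
        rw [h3] at hzA
        refine le_trans (mul_le_mul_of_nonneg_right (by linarith) hR0.le) hzA
      have h3 : C0 / R ≤ 1 / 4 := by rw [div_le_iff₀ hR0]; linarith
      have h4 : 1 / 2 ≤ Real.log (‖cx z‖ / R) / n := by
        rw [le_div_iff₀ hn]; linarith
      linarith
    -- the direction
    set e : ℂ := cx z / ‖cx z‖ with he
    have hz0 : 0 < ‖cx z‖ := by linarith
    have he1 : ‖e‖ = 1 := by
      rw [he, norm_div, Complex.norm_real, norm_norm, div_self hz0.ne']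
    have hze : cx z = ‖cx z‖ * e := by
      rw [he]
      have : (‖cx z‖ : ℂ) ≠ 0 := by exact_mod_cast hz0.ne'
      field_simp
    set Ψ : List Z2 → Prop := fun l => ∃ w ∈ l, r * R / 2 ≤ ‖cx w - cx z‖ with hΨ
    have hrR : 0 < r * R := by positivity
    have h1 : uu V O Φ z ≤ uu V O Ψ z := uu_mono (disj_VO _ _) (fun t _ h => Far2_near h)
    set B : Z2 → Prop := fun w => r * R / 2 ≤ ‖cx w - cx z‖ with hB
    classical
    have hΨ1 : ∀ y, ¬ B y → ∀ l, (Ψ (y :: l) ↔ Ψ l) := by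
      intro y hy l
      simp only [hΨ, List.mem_cons]
      constructor
      · rintro ⟨v, rfl | hv, h1⟩
        · exact absurd h1 hy
        · exact ⟨v, hv, h1⟩
      · rintro ⟨v, hv, h⟩
        exact ⟨v, Or.inr hv, h⟩
    have hzB : ¬ B z := by
      simp only [hB, sub_self, norm_zero, not_le]
      positivity
    have hfar : ∀ w, B w → r * R / 2 / 2 ≤ ‖cx w - (Mn n R : ℂ) * e‖ := by
      intro w hw
      have h2 : cx w - (Mn n R : ℂ) * e = (cx w - cx z) - ((Mn n R - ‖cx z‖ : ℝ) : ℂ) * e := by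
        conv_rhs => rw [hze]
        rw [norm_mul, he1, mul_one, Complex.norm_real, norm_norm]
        push_cast
        ring
      have h3 : ‖(((Mn n R - ‖cx z‖ : ℝ) : ℂ) * e)‖ ≤ ρ * R := by
        rw [norm_mul, he1, mul_one, Complex.norm_real, Real.norm_eq_abs, abs_of_pos (by linarith)]
        linarith
      rw [h2]
      have h4 := norm_sub_norm_le (cx w - cx z) (((Mn n R - ‖cx z‖ : ℝ) : ℂ) * e)
      have h5 : ρ * R ≤ r / 4 * R := mul_le_mul_of_nonneg_right hρr hR0.le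
      have h6 : r * R / 2 ≤ ‖cx w - cx z‖ := hw
      linarith
    have h24 : 24 ≤ r * R / 2 := by rw [div_le_iff₀ hr] at hR1; linarith
    have hMR : 32 * (Mn n R + 1) ^ 2 ≤ (r * R / 2) ^ 3 := by
      have h1 := M_sq_bd (n := n) (R := R) hn.le hR4
      have h2 : 1024 * Real.exp (2 * n) ≤ R * r ^ 3 := by
        rw [div_le_iff₀ (by positivity)] at hR5
        linarith
      calc 32 * (Mn n R + 1) ^ 2 ≤ 32 * (4 * Real.exp (2 * n) * R ^ 2) := by linarith
        _ = (1024 * Real.exp (2 * n)) * (R ^ 2 / 8) := by ring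
        _ ≤ (R * r ^ 3) * (R ^ 2 / 8) := mul_le_mul_of_nonneg_right h2 (by positivity)
        _ = (r * R / 2) ^ 3 := by ring
    have hbar := barrier_out (V.filter (fun z => ¬ B z)) (Mn n R) hMR1
      (fun z hz => (mem_VV.1 (Finset.mem_filter.1 hz).1).2) (r * R / 2) h24 hMR 1 zero_le_one
      (uu V O Ψ) (fun z hz => (uu_av (disj_VO _ _) (Finset.mem_filter.1 hz).1
        (hΨ1 z (Finset.mem_filter.1 hz).2)).le) z
      (Finset.mem_filter.2 ⟨hz, hzB⟩) e he1 hze (by
        intro y hy w hw hwD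
        by_cases hwV : w ∈ V
        · have hBw : B w := by
            by_contra hc
            exact hwD (Finset.mem_filter.2 ⟨hwV, hc⟩)
          right
          refine ⟨uu_le_one (disj_VO _ _) _ _, ?_, hfar w hBw⟩
          have := (mem_VV.1 hwV).2
          linarith
        · by_cases hwO : w ∈ O
          · by_cases hBw : B w
            · right
              refine ⟨uu_le_one (disj_VO _ _) _ _, (mem_OO.1 hwO).2.le, hfar w hBw⟩
            · left
              rw [uu_out hwV hwO]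
              rintro ⟨v, hv, h1⟩
              rw [List.mem_singleton] at hv
              exact hBw (hv ▸ h1)
          · left
            rw [uu_none hwV hwO])
    have h2 : uu V O Ψ z ≤ 80 * (ρ / r) := by
      refine hbar.trans ?_
      have h3 : (Mn n R - ‖cx z‖ + 3) / (r * R / 2) ≤ (2 * (ρ * R)) / (r * R / 2) := by
        apply div_le_div_of_nonneg_right _ (by positivity)
        linarith
      calc 20 * 1 * ((Mn n R - ‖cx z‖ + 3) / (r * R / 2)) ≤ 20 * 1 * ((2 * (ρ * R)) / (r * R / 2)) :=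
            mul_le_mul_of_nonneg_left h3 (by norm_num)
        _ = 80 * (ρ / r) := by field_simp; ring
    calc uu V O Φ z ≤ 80 * (ρ / r) := h1.trans h2
      _ = 320 * (ρ / r) * (1 / 4) := by ring
      _ ≤ 320 * (ρ / r) * hh n R z := mul_le_mul_of_nonneg_left hlow (by positivity)

end Pool.Agent.H96.LE
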