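import Pool.Agent.H96.LE.Near1
import Pool.Agent.H96.LE.Rect2

/-!
# Near misses in the middle of the annulus
-/

namespace Pool.Agent.H96.LE

open Finset Filter Topology MeasureTheory

lemma P_suffix {D O : Finset Z2} (s : List Z2) : ∀ a, P D O a s → ∀ v ∈ a :: s,
    ∃ t, P D O v t ∧ ∀ w ∈ v :: t, w ∈ a :: s := by
  induction s with
  | nil =>
    intro a h v hv
    rw [List.mem_singleton] at hv
    subst hv
    exact ⟨[], h, fun w hw => hw⟩
  | cons b s ih =>
    intro a h v hv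
    rcases List.mem_cons.1 hv with rfl | hv
    · exact ⟨b :: s, h, fun w hw => hw⟩
    · obtain ⟨t, h1, h2⟩ := ih b h.2.2 v hv
      exact ⟨t, h1, fun w hw => List.mem_cons_of_mem _ (h2 w hw)⟩

lemma bx_norm {z0 : Z2} {c : ℤ} {z : Z2} (h : bx z0 c z) : ‖cx z - cx z0‖ ≤ 2 * c := by
  have h1 := Complex.norm_le_abs_re_add_abs_im (cx z - cx z0)
  have h2 : |(cx z - cx z0).re| ≤ c := by
    have := h.1
    simp only [Complex.sub_re, cx_re]
    exact_mod_cast this
  have h3 : |(cx z - cx z0).im| ≤ c := by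
    have := h.2
    simp only [Complex.sub_im, cx_im]
    exact_mod_cast this
  linarith

lemma norm_bx {z0 z : Z2} {r : ℝ} {c : ℤ} (h : ‖cx z - cx z0‖ ≤ r) (hc : r ≤ c) : bx z0 c z := by
  have h1 := Complex.abs_re_le_norm (cx z - cx z0)
  have h2 := Complex.abs_im_le_norm (cx z - cx z0)
  simp only [Complex.sub_re, cx_re] at h1
  simp only [Complex.sub_im, cx_im] at h2
  constructor
  · have h3 : |(z.1 : ℝ) - z0.1| ≤ c := by linarith
    exact_mod_cast h3
  · have h3 : |(z.2 : ℝ) - z0.2| ≤ c := by linarith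
    exact_mod_cast h3

/-- the middle part -/
def Mid (n R ρ ε : ℝ) (L : List Z2) (w : Z2) : Prop :=
  w ∈ VV R (Mn n R) ∧ (1 + ρ / 2) * R ≤ ‖cx w‖ ∧ ‖cx w‖ ≤ Mn n R - ρ * R ∧ ∃ v ∈ L, ‖cx w - cx v‖ ≤ ε * R

theorem ev4 (n : ℝ) (hn : 0 < n) (ρ : ℝ) (hρ : 0 < ρ) (η : ℝ) (hη : 0 < η) :
    ∃ ε0 > 0, ∀ ε : ℝ, 0 < ε → ε ≤ ε0 → ∀ᶠ R in atTop, ∀ (a0 : Z2) (s0 : List Z2), P (VV R (Mn n R)) (OO (Mn n R)) a0 s0 →
      ∀ x ∈ VV R (Mn n R), ex (VV R (Mn n R)) (OO (Mn n R)) x
        {l | Av (VV R (Mn n R)) (a0 :: s0).toFinset l ∧ ∃ w ∈ l, Mid n R ρ ε (a0 :: s0) w} ≤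
        ENNReal.ofReal η := by
  obtain ⟨C0, hC0, hclose⟩ := hh_close n hn
  set c0 : ℝ := Real.log (1 + ρ / 2) / (2 * n) with hc0
  have hlog : 0 < Real.log (1 + ρ / 2) := Real.log_pos (by linarith)
  have hc0p : 0 < c0 := by positivity
  have hq : (1 - cLL) < 1 := by linarith [cLL_pos]
  have hq0 : 0 ≤ 1 - cLL := by linarith [cLL_le_one]
  obtain ⟨m0, hm0⟩ := exists_pow_lt_of_lt_one (show 0 < η * c0 by positivity) hq
  set m : ℕ := m0 + 1 with hm
  have hm1 : (1 - cLL) ^ m ≤ η * c0 := by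
    have : (1 - cLL) ^ m ≤ (1 - cLL) ^ m0 := pow_le_pow_of_le_one hq0 hq.le (by omega)
    linarith
  refine ⟨ρ / (32 * 6 ^ m), by positivity, fun ε hε hε0 => ?_⟩
  filter_upwards [hclose, eventually_ge_atTop (1 / ε), eventually_ge_atTop (C0 / c0),
    eventually_gt_atTop 0] with R hcl hR1 hR2 hR0
  intro a0 s0 hP0 x hx
  classical
  set V := VV R (Mn n R) with hV
  set O := OO (Mn n R) with hO
  set L : List Z2 := a0 :: s0 with hL
  set Φ : List Z2 → Prop := fun l => ∃ w ∈ l, Mid n R ρ ε L w with hΦ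
  have hVO : Disjoint V O := disj_VO R (Mn n R)
  have hVO' : Disjoint (V \ L.toFinset) O := hVO.mono_left Finset.sdiff_subset
  have hεR : 1 ≤ ε * R := by rw [div_le_iff₀ hε] at hR1; linarith
  have hx0 : 0 < hh n R x := by rw [← ZZ_hh]; exact ZZ_pos hx
  rw [prob_uu hx (fun l => Av V L.toFinset l ∧ Φ l)]
  apply ENNReal.ofReal_le_ofReal
  rw [div_le_iff₀ hx0]
  have h1 : uu V O (fun l => Av V L.toFinset l ∧ Φ l) x = uu (V \ L.toFinset) O Φ x := by
    unfold uu
    rw [PS_sdiff q1 hVO]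
    congr 1
    funext l
    by_cases hA : Av V L.toFinset l
    · by_cases hP : Φ l
      · rw [if_pos ⟨hA, hP⟩, if_pos hA, if_pos hP]
      · rw [if_neg (fun h => hP h.2), if_pos hA, if_neg hP]
    · rw [if_neg (fun h => hA h.1), if_neg hA]
  have h2 : uu V O (fun l => Av V L.toFinset l ∧ Φ l) x = uu V O (fun l => Av V L.toFinset l ∧ Φ l) x := rfl
  rw [h1]
  by_cases hxL : x ∈ L.toFinset
  · rw [uu_none (fun h => (Finset.mem_sdiff.1 h).2 hxL) (fun h => Finset.disjoint_left.1 hVO hx h)]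
    positivity
  have hxD : x ∈ V \ L.toFinset := Finset.mem_sdiff.2 ⟨hx, hxL⟩
  apply visit_bound hVO' (Mid n R ρ ε L) Φ _ (fun z => η * hh n R z) _
    (fun z => mul_nonneg hη.le (hh_nonneg n R z)) _ _ x hxD
  · intro z _ hz l
    simp only [hΦ, List.mem_cons]
    constructor
    · rintro ⟨v, rfl | hv, h1⟩
      · exact absurd h1 hz
      · exact ⟨v, hv, h1⟩
    · rintro ⟨v, hv, h⟩
      exact ⟨v, Or.inr hv, h⟩
  · intro z hz _
    rw [av_const_mul, ← hh_av (Finset.mem_sdiff.1 hz).1]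
  · rintro o ho ⟨w, hw, h3⟩
    rw [List.mem_singleton] at hw
    rw [hw] at h3
    exact Finset.disjoint_left.1 hVO h3.1 ho
  · intro z hzD hz
    obtain ⟨hzV, hz1, hz2, v, hvL, hv⟩ := hz
    set g : Z2 → ℝ := uu (V \ L.toFinset) O (fun _ => True) with hg
    have hg0 : ∀ y, 0 ≤ g y := fun y => uu_nonneg _ _ _ y
    have hg1 : ∀ y, g y ≤ 1 := fun y => uu_le_one hVO' _ y
    have h3 : uu (V \ L.toFinset) O Φ z ≤ g z := uu_mono hVO' (fun _ _ _ => trivial)
    set N : ℤ := ⌈ε * R⌉ with hN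
    have hN1 : 1 ≤ N := by
      have : (1 : ℝ) ≤ N := hεR.trans (Int.le_ceil _)
      exact_mod_cast this
    have hN2 : (N : ℝ) ≤ 2 * (ε * R) := by
      have := (Int.ceil_lt_add_one (ε * R)).le
      linarith
    set c : ℤ := 2 * N * 6 ^ m with hc
    have hcR : (c : ℝ) ≤ ρ * R / 8 := by
      have e1 : (c : ℝ) = 2 * N * 6 ^ m := by rw [hc]; push_cast; ring
      rw [e1]
      have e2 : ε * (32 * 6 ^ m) ≤ ρ := by rwa [le_div_iff₀ (by positivity)] at hε0
      have h6 : (0 : ℝ) < 6 ^ m := by positivity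
      calc 2 * (N : ℝ) * 6 ^ m ≤ 2 * (2 * (ε * R)) * 6 ^ m := by
            apply mul_le_mul_of_nonneg_right _ h6.le
            linarith
        _ = (ε * (32 * 6 ^ m)) * R / 8 := by ring
        _ ≤ ρ * R / 8 := by
            apply div_le_div_of_nonneg_right _ (by norm_num)
            exact mul_le_mul_of_nonneg_right e2 hR0.le
    have hρR : 0 < ρ * R := by positivity
    have hboxV : ∀ y, bx z c y → y ∈ V := by
      intro y hy
      have e1 := bx_norm hy
      have e2 := norm_sub_norm_le (cx z) (cx y)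
      have e3 := norm_sub_norm_le (cx y) (cx z)
      rw [norm_sub_rev] at e2
      rw [mem_VV]
      constructor
      · nlinarith
      · linarith
    have hc12 : 12 * N ≤ c := by
      rw [hc, hm, pow_succ]
      have : (1 : ℤ) ≤ 6 ^ m0 := one_le_pow₀ (by norm_num)
      nlinarith
    obtain ⟨t, ht, htL⟩ := P_suffix s0 a0 hP0 v hvL
    have hva : bx z (2 * N) v := by
      apply norm_bx (r := ε * R)
      · rw [norm_sub_rev]; exact hv
      · have := Int.le_ceil (ε * R)
        push_cast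
        have hN0 : (0 : ℝ) ≤ N := by exact_mod_cast (by linarith : (0 : ℤ) ≤ N)
        linarith
    have hex : ¬ bx z (c - 1) (en v t) := by
      intro hcon
      have e1 := bx_norm hcon
      have e2 := (mem_OO.1 (P_en ht)).1
      have e3 := norm_sub_norm_le (cx (en v t)) (cx z)
      push_cast at e1
      linarith
    obtain ⟨t', k1, k2, k3, k4⟩ := cut_box z c t v (P_Wk _ _ ht) (bx_mono (by linarith) hva) hex
    have hb := beurling m N hN1 z g (fun y hy => by
      have hyV : y ∈ V := hboxV y (bx_mono (by linarith) hy)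
      by_cases hyL : y ∈ L.toFinset
      · have : g y = 0 := uu_none (fun h => (Finset.mem_sdiff.1 h).2 hyL)
          (fun h => Finset.disjoint_left.1 hVO hyV h)
        rw [this]
        unfold av
        apply div_nonneg (Finset.sum_nonneg (fun w _ => hg0 w)) (by norm_num)
      · exact (uu_av hVO' (Finset.mem_sdiff.2 ⟨hyV, hyL⟩) (fun l => Iff.rfl)).le) 1 zero_le_one
      hg0 (fun y _ => hg1 y) v t' k1 hva k4 (fun y hy => by
        have hyV : y ∈ V := hboxV y (k3 y hy)
        have hyL : y ∈ L.toFinset := List.mem_toFinset.2 (htL y (k2 y hy))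
        exact uu_none (fun h => (Finset.mem_sdiff.1 h).2 hyL)
          (fun h => Finset.disjoint_left.1 hVO hyV h)) z (bx_self z (by linarith))
    rw [mul_one] at hb
    have hlow : c0 ≤ hh n R z := by
      have e1 := (abs_le.1 (hcl z hzV)).1
      have e2 : Real.log (1 + ρ / 2) ≤ Real.log (‖cx z‖ / R) := by
        apply Real.log_le_log (by linarith)
        rw [le_div_iff₀ hR0]
        exact hz1
      have e3 : C0 / R ≤ c0 := by
        rw [div_le_iff₀ hR0]
        rw [div_le_iff₀ hc0p] at hR2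
        linarith
      have e4 : 2 * c0 ≤ Real.log (‖cx z‖ / R) / n := by
        rw [le_div_iff₀ hn]
        have : 2 * c0 * n = Real.log (1 + ρ / 2) := by rw [hc0]; field_simp
        linarith
      linarith
    calc uu (V \ L.toFinset) O Φ z ≤ g z := h3
      _ ≤ (1 - cLL) ^ m := hb
      _ ≤ η * c0 := hm1
      _ ≤ η * hh n R z := mul_le_mul_of_nonneg_left hlow hη.le

end Pool.Agent.H96.LE
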