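import Pool.Agent.H96.LE.Ann
import Pool.Agent.H96.LE.Fomin

/-!
# Laws of paths and families of independent paths
-/

namespace Pool.Agent.H96.LE

open Finset MeasureTheory Filter
open scoped ENNReal

instance : MeasurableSpace (List Z2) := ⊤
instance : MeasurableSingletonClass (List Z2) := ⟨fun _ => trivial⟩

/-- total mass of the paths -/
noncomputable def ZZ (D O : Finset Z2) (a : Z2) : ℝ := PS q1 D O a (fun _ => 1)

lemma psTerm_one (D O : Finset Z2) (a : Z2) (t : List Z2) :
    psTerm q1 D O a (fun _ => 1) t = pm D O a t := by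
  unfold psTerm pm
  rw [wt_q1, mul_one]

lemma ZZ_eq (D O : Finset Z2) (a : Z2) : ZZ D O a = ∑' t, pm D O a t := by
  unfold ZZ PS
  congr 1
  funext t
  exact psTerm_one D O a t

/-- law of the path of an excursion: probability proportional to `4 ^ (- length)` -/
noncomputable def ex (D O : Finset Z2) (a : Z2) : Measure (List Z2) :=
  Measure.sum (fun t => ENNReal.ofReal (pm D O a t / ZZ D O a) • Measure.dirac (a :: t))

lemma ex_apply (D O : Finset Z2) (a : Z2) (s : Set (List Z2)) :
    ex D O a s = ∑' t, ENNReal.ofReal (pm D O a t / ZZ D O a) * s.indicator 1 (a :: t) := by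
  unfold ex
  rw [Measure.sum_apply _ (show MeasurableSet s from trivial)]
  congr 1
  funext t
  rw [Measure.smul_apply, Measure.dirac_apply, smul_eq_mul]

lemma isProb_ex {D O : Finset Z2} (hDO : Disjoint D O) {a : Z2} (hZ : 0 < ZZ D O a) :
    IsProbabilityMeasure (ex D O a) := by
  constructor
  rw [ex_apply]
  simp only [Set.indicator_univ, Pi.one_apply, mul_one]
  rw [← ENNReal.ofReal_tsum_of_nonneg (fun t => div_nonneg (pm_nonneg D O a t) hZ.le)
    ((summable_pm D O hDO a).div_const _), tsum_div_const, ← ZZ_eq, div_self hZ.ne',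
    ENNReal.ofReal_one]

lemma integral_ex {D O : Finset Z2} (hDO : Disjoint D O) {a : Z2} (hZ : 0 < ZZ D O a)
    (Φ : List Z2 → ℂ) (C : ℝ) (hΦ : ∀ l, ‖Φ l‖ ≤ C) :
    ∫ l, Φ l ∂(ex D O a) = PS q0 D O a Φ / (ZZ D O a : ℂ) := by
  have := isProb_ex hDO hZ
  have hint : Integrable Φ (ex D O a) :=
    Integrable.of_bound (Measurable.of_discrete.aestronglyMeasurable) C
      (Filter.Eventually.of_forall hΦ)
  unfold ex at hint ⊢
  rw [integral_sum_measure hint]
  unfold PS
  rw [← tsum_div_const]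
  congr 1
  funext t
  rw [integral_smul_measure, integral_dirac, ENNReal.toReal_ofReal (div_nonneg (pm_nonneg D O a t) hZ.le)]
  unfold psTerm pm
  split_ifs with h
  · rw [wt_q0, Complex.real_smul]
    push_cast
    ring
  · simp

lemma integral_ex_real {D O : Finset Z2} (hDO : Disjoint D O) {a : Z2} (hZ : 0 < ZZ D O a)
    (Φ : List Z2 → ℝ) (C : ℝ) (hΦ : ∀ l, ‖Φ l‖ ≤ C) :
    ∫ l, Φ l ∂(ex D O a) = PS q1 D O a Φ / ZZ D O a := by
  have h := integral_ex hDO hZ (fun l => (Φ l : ℂ)) C (fun l => by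
    rw [Complex.norm_real]; exact hΦ l)
  rw [integral_complex_ofReal, PS_ofReal] at h
  exact_mod_cast h

/-- probability of a property -/
lemma ex_prob {D O : Finset Z2} (hDO : Disjoint D O) {a : Z2} (hZ : 0 < ZZ D O a)
    (A : List Z2 → Prop) [DecidablePred A] :
    ex D O a {l | A l} = ENNReal.ofReal (PS q1 D O a (fun l => if A l then 1 else 0) / ZZ D O a) := by
  have := isProb_ex hDO hZ
  have h := integral_ex_real hDO hZ (fun l => if A l then (1 : ℝ) else 0) 1 (fun l => by split_ifs <;> simp)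
  have h2 : ∫ l, (if A l then (1 : ℝ) else 0) ∂(ex D O a) = (ex D O a {l | A l}).toReal := by
    have : (fun l => if A l then (1 : ℝ) else 0) = Set.indicator {l | A l} (fun _ => (1 : ℝ)) := by
      funext l
      simp [Set.indicator_apply]
    rw [this, integral_indicator_const _ (show MeasurableSet {l | A l} from trivial)]
    simp [Measure.real]
  rw [h2] at h
  rw [← h, ENNReal.ofReal_toReal (measure_ne_top _ _)]

section multi

variable {𝕜 : Type*} [RCLike 𝕜]

/-- sum over families of independent paths -/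
noncomputable def MP (q : Z2 → Z2 → 𝕜) (D O : Finset Z2) :
    (k : ℕ) → (Fin k → Z2) → ((Fin k → List Z2) → 𝕜) → 𝕜
  | 0, _, Φ => Φ (fun i => i.elim0)
  | k + 1, x, Φ => PS q D O (x 0) (fun l => MP q D O k (Fin.tail x) (fun ls => Φ (Fin.cons l ls)))

lemma norm_MP_le {q : Z2 → Z2 → 𝕜} (hq : GW q) {D O : Finset Z2} (hDO : Disjoint D O) (k : ℕ) :
    ∀ (x : Fin k → Z2) (Φ : (Fin k → List Z2) → 𝕜) (C : ℝ) (_ : ∀ ls, ‖Φ ls‖ ≤ C),
      ‖MP q D O k x Φ‖ ≤ C := by
  induction k with
  | zero => intro x Φ C hΦ; exact hΦ _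
  | succ k ih =>
    intro x Φ C hΦ
    exact norm_PS_le hq hDO _ _ C (fun l => ih _ _ C (fun ls => hΦ _))

lemma MP_mul_left {q : Z2 → Z2 → 𝕜} {D O : Finset Z2} (c : 𝕜) (k : ℕ) :
    ∀ (x : Fin k → Z2) (Φ : (Fin k → List Z2) → 𝕜),
      MP q D O k x (fun ls => c * Φ ls) = c * MP q D O k x Φ := by
  induction k with
  | zero => intro x Φ; rfl
  | succ k ih =>
    intro x Φ
    simp only [MP]
    rw [← PS_mul_left]
    congr 1
    funext l
    exact ih _ _

/-- the lists of the family are paths -/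
def Fam (D O : Finset Z2) {k : ℕ} (x : Fin k → Z2) (ls : Fin k → List Z2) : Prop :=
  ∀ j, ∃ t, P D O (x j) t ∧ ls j = x j :: t

lemma MP_congr {q : Z2 → Z2 → 𝕜} {D O : Finset Z2} (k : ℕ) :
    ∀ (x : Fin k → Z2) (Φ Φ' : (Fin k → List Z2) → 𝕜) (_ : ∀ ls, Fam D O x ls → Φ ls = Φ' ls),
      MP q D O k x Φ = MP q D O k x Φ' := by
  induction k with
  | zero =>
    intro x Φ Φ' h
    exact h _ (fun j => j.elim0)
  | succ k ih =>
    intro x Φ Φ' h
    simp only [MP]
    apply PS_congr
    intro t ht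
    apply ih
    intro ls hls
    apply h
    intro j
    refine Fin.cases ?_ (fun i => ?_) j
    · exact ⟨t, ht, by simp⟩
    · obtain ⟨t', h1, h2⟩ := hls i
      exact ⟨t', h1, by rw [Fin.cons_succ]; exact h2⟩

lemma TT_MP {q : Z2 → Z2 → 𝕜} (hq : GW q) {D O : Finset Z2} (hDO : Disjoint D O) (k : ℕ) :
    ∀ (x : Fin k → Z2) (E : (Fin k → Z2) → 𝕜),
      TT O (fun i => H q D O (x i)) E = MP q D O k x (fun ls => E (fun j => lst (ls j))) := by
  induction k with
  | zero =>
    intro x E
    unfold TT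
    simp only [MP, Finset.univ_unique, Finset.univ_eq_empty, Finset.prod_empty, one_mul,
      Finset.sum_singleton]
    congr 1
    funext i
    exact i.elim0
  | succ k ih =>
    intro x E
    rw [TT_cons]
    have h1 : ∀ y0 ∈ O, H q D O (x 0) y0 * TT O (fun i => H q D O (x i.succ)) (fun y' => E (Fin.cons y0 y')) =
        H q D O (x 0) y0 * (fun y0 => MP q D O k (Fin.tail x) (fun ls =>
          E (Fin.cons y0 (fun j => lst (ls j))))) y0 := by
      intro y0 _
      congr 1
      exact ih (Fin.tail x) (fun y' => E (Fin.cons y0 y'))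
    rw [Finset.sum_congr rfl h1, ← PS_lst hq hDO]
    simp only [MP]
    congr 1
    funext l
    congr 1
    funext ls
    congr 1
    funext j
    refine Fin.cases ?_ (fun i => ?_) j <;> simp

end multi

/-- sums over families of paths as expectations -/
theorem MP_integral {D O : Finset Z2} (hDO : Disjoint D O) (k : ℕ) :
    ∀ (x : Fin k → Z2) (_ : ∀ j, 0 < ZZ D O (x j)) (Φ : (Fin k → List Z2) → ℂ) (C : ℝ)
      (_ : ∀ ls, ‖Φ ls‖ ≤ C),
      MP q0 D O k x Φ = (∏ j, (ZZ D O (x j) : ℂ)) *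
        ∫ ls, Φ ls ∂(Measure.pi (fun j => ex D O (x j))) := by
  induction k with
  | zero =>
    intro x _ Φ C _
    simp only [MP, Finset.univ_eq_empty, Finset.prod_empty, one_mul]
    rw [Measure.pi_of_empty]
    rw [integral_dirac]
    congr 1
  | succ k ih =>
    intro x hZ Φ C hΦ
    have hp : ∀ j, IsProbabilityMeasure (ex D O (x j)) := fun j => isProb_ex hDO (hZ j)
    simp only [MP]
    have h1 : ∀ l, MP q0 D O k (Fin.tail x) (fun ls => Φ (Fin.cons l ls)) =
        (∏ j, (ZZ D O (Fin.tail x j) : ℂ)) *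
          ∫ ls, Φ (Fin.cons l ls) ∂(Measure.pi (fun j => ex D O (Fin.tail x j))) := by
      intro l
      exact ih (Fin.tail x) (fun j => hZ j.succ) _ C (fun ls => hΦ _)
    simp only [h1]
    rw [PS_mul_left]
    have hp' : ∀ j, IsProbabilityMeasure (ex D O (Fin.tail x j)) := fun j => hp j.succ
    have hb : ∀ l, ‖∫ ls, Φ (Fin.cons l ls) ∂(Measure.pi (fun j => ex D O (Fin.tail x j)))‖ ≤ C := by
      intro l
      have := norm_integral_le_of_norm_le_const (μ := Measure.pi (fun j => ex D O (Fin.tail x j)))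
        (f := fun ls => Φ (Fin.cons l ls)) (C := C) (Filter.Eventually.of_forall (fun ls => hΦ _))
      simpa using this
    have h2 := integral_ex hDO (hZ 0) _ C hb
    have h3 : PS q0 D O (x 0) (fun l => ∫ ls, Φ (Fin.cons l ls)
        ∂(Measure.pi (fun j => ex D O (Fin.tail x j)))) = (ZZ D O (x 0) : ℂ) *
        ∫ l, ∫ ls, Φ (Fin.cons l ls) ∂(Measure.pi (fun j => ex D O (Fin.tail x j))) ∂(ex D O (x 0)) := by
      rw [h2]
      have : (ZZ D O (x 0) : ℂ) ≠ 0 := by exact_mod_cast (hZ 0).ne'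
      field_simp
    rw [h3]
    have h4 := measurePreserving_piFinSuccAbove (fun j => ex D O (x j)) 0
    have h5 := h4.symm.integral_comp' (g := Φ)
    have hm : ∀ g : (List Z2 × (Fin k → List Z2)) → ℂ, Measurable g := fun g =>
      measurable_of_countable g
    have h6 : ∫ l, ∫ ls, Φ (Fin.cons l ls) ∂(Measure.pi (fun j => ex D O (Fin.tail x j))) ∂(ex D O (x 0)) =
        ∫ ls, Φ ls ∂(Measure.pi (fun j => ex D O (x j))) := by
      rw [← h5]
      rw [integral_prod]
      · simp only [MeasurableEquiv.piFinSuccAbove_symm_apply, Fin.insertNthEquiv,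
          Fin.insertNth_zero, Fin.zero_succAbove, Equiv.coe_fn_mk, Fin.tail, cast_eq]
      · apply Integrable.of_bound (hm _).aestronglyMeasurable C
        exact Filter.Eventually.of_forall (fun p => hΦ _)
    rw [h6, Fin.prod_univ_succ]
    simp only [Fin.tail]
    ring

end Pool.Agent.H96.LE
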