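import Pool.Agent.H96.LE.Lat

/-!
# Sums over nearest neighbour paths
-/

namespace Pool.Agent.H96.LE

open Finset
open scoped ENNReal

/-- `P D O a t`: the list `a :: t` is a nearest neighbour path whose vertices but the last lie
in `D`, and whose last vertex lies in `O` -/
def P (D O : Finset Z2) : Z2 → List Z2 → Prop
  | a, [] => a ∈ O
  | a, b :: t => a ∈ D ∧ b ∈ nb a ∧ P D O b t

@[simp] lemma P_nil (D O : Finset Z2) (a : Z2) : P D O a [] ↔ a ∈ O := Iff.rfl
@[simp] lemma P_cons (D O : Finset Z2) (a b : Z2) (t : List Z2) :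
    P D O a (b :: t) ↔ a ∈ D ∧ b ∈ nb a ∧ P D O b t := Iff.rfl

/-- the last vertex of the path `a :: t` -/
def en : Z2 → List Z2 → Z2
  | a, [] => a
  | _, b :: t => en b t

@[simp] lemma en_nil (a : Z2) : en a [] = a := rfl
@[simp] lemma en_cons (a b : Z2) (t : List Z2) : en a (b :: t) = en b t := rfl

lemma en_append (a : Z2) (s t : List Z2) : en a (s ++ t) = en (en a s) t := by
  induction s generalizing a with
  | nil => simp
  | cons b s ih => simp [ih]

lemma en_mem (a : Z2) (t : List Z2) : en a t ∈ a :: t := by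
  induction t generalizing a with
  | nil => simp
  | cons b s ih => rw [en_cons]; exact List.mem_cons_of_mem _ (ih b)

lemma P_en {D O : Finset Z2} : ∀ {t : List Z2} {a : Z2}, P D O a t → en a t ∈ O := by
  intro t
  induction t with
  | nil => intro a h; exact h
  | cons b t ih => intro a h; exact ih h.2.2

section weights

variable {𝕜 : Type*} [RCLike 𝕜]

/-- weight of the path `a :: t` -/
def wt (q : Z2 → Z2 → 𝕜) : Z2 → List Z2 → 𝕜
  | _, [] => 1
  | a, b :: t => q a b * wt q b t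

@[simp] lemma wt_nil (q : Z2 → Z2 → 𝕜) (a : Z2) : wt q a [] = 1 := rfl
@[simp] lemma wt_cons (q : Z2 → Z2 → 𝕜) (a b : Z2) (t : List Z2) :
    wt q a (b :: t) = q a b * wt q b t := rfl

lemma wt_append (q : Z2 → Z2 → 𝕜) (a : Z2) (s t : List Z2) :
    wt q a (s ++ t) = wt q a s * wt q (en a s) t := by
  induction s generalizing a with
  | nil => simp
  | cons b s ih => simp [ih, mul_assoc]

end weights

lemma tsum_list_ennreal (f : List Z2 → ℝ≥0∞) (s : Finset Z2)
    (h : ∀ b t, b ∉ s → f (b :: t) = 0) :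
    ∑' t, f t = f [] + ∑ b ∈ s, ∑' t, f (b :: t) := by
  rw [ENNReal.tsum_eq_add_tsum_ite ([] : List Z2)]
  congr 1
  have hinj : Function.Injective (fun p : Z2 × List Z2 => p.1 :: p.2) := by
    rintro ⟨a, t⟩ ⟨b, u⟩ hab
    simpa using hab
  have key : ∑' p : Z2 × List Z2, (if (p.1 :: p.2) = [] then 0 else f (p.1 :: p.2))
      = ∑' t : List Z2, (if t = [] then 0 else f t) := by
    apply hinj.tsum_eq (f := fun t => if t = [] then 0 else f t)
    intro t ht
    cases t with
    | nil => simp at ht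
    | cons b t => exact ⟨(b, t), rfl⟩
  have key2 : ∑' p : Z2 × List Z2, (if (p.1 :: p.2) = [] then 0 else f (p.1 :: p.2))
      = ∑ b ∈ s, ∑' t, f (b :: t) := by
    simp only [reduceCtorEq, if_false]
    have hs := ENNReal.tsum_prod (f := fun (b : Z2) (t : List Z2) => f (b :: t))
    refine hs.trans ?_
    rw [tsum_eq_sum (s := s)]
    intro b hb
    simp [h b _ hb]
  rw [← key2, key]
  exact tsum_congr (fun t => by by_cases h : t = [] <;> simp [h])

lemma tsum_list {E : Type*} [NormedAddCommGroup E] [CompleteSpace E] (f : List Z2 → E)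
    (hf : Summable f) (s : Finset Z2)
    (h : ∀ b t, b ∉ s → f (b :: t) = 0) :
    ∑' t, f t = f [] + ∑ b ∈ s, ∑' t, f (b :: t) := by
  rw [hf.tsum_eq_add_tsum_ite ([] : List Z2)]
  congr 1
  have hinj : Function.Injective (fun p : Z2 × List Z2 => p.1 :: p.2) := by
    rintro ⟨a, t⟩ ⟨b, u⟩ hab
    simpa using hab
  have key : ∑' p : Z2 × List Z2, (if (p.1 :: p.2) = [] then 0 else f (p.1 :: p.2))
      = ∑' t : List Z2, (if t = [] then 0 else f t) := by
    apply hinj.tsum_eq (f := fun t => if t = [] then 0 else f t)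
    intro t ht
    cases t with
    | nil => simp at ht
    | cons b t => exact ⟨(b, t), rfl⟩
  have key2 : ∑' p : Z2 × List Z2, (if (p.1 :: p.2) = [] then 0 else f (p.1 :: p.2))
      = ∑ b ∈ s, ∑' t, f (b :: t) := by
    simp only [reduceCtorEq, if_false]
    have hs : Summable (fun p : Z2 × List Z2 => f (p.1 :: p.2)) := hf.comp_injective hinj
    rw [hs.tsum_prod]
    rw [tsum_eq_sum (s := s)]
    intro b hb
    simp [h b _ hb]
  rw [← key2, key]

open Classical in
/-- the mass of the simple random walk path `a :: t` -/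
noncomputable def pm (D O : Finset Z2) (a : Z2) (t : List Z2) : ℝ :=
  if P D O a t then (1 / 4 : ℝ) ^ t.length else 0

lemma pm_nonneg (D O : Finset Z2) (a : Z2) (t : List Z2) : 0 ≤ pm D O a t := by
  unfold pm; split_ifs <;> positivity

lemma sum_trunc_le (D O : Finset Z2) (hDO : Disjoint D O) (N : ℕ) :
    ∀ a, ∑' t, (if t.length < N then ENNReal.ofReal (pm D O a t) else 0) ≤ 1 := by
  induction N with
  | zero => intro a; simp
  | succ N ih =>
    intro a
    rw [tsum_list_ennreal _ (nb a)]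
    · by_cases haD : a ∈ D
      · have haO : a ∉ O := Finset.disjoint_left.1 hDO haD
        have h0 : pm D O a [] = 0 := by simp [pm, haO]
        simp only [List.length_nil, Nat.succ_pos, if_true, h0, ENNReal.ofReal_zero, zero_add]
        have hb : ∀ b ∈ nb a, ∑' t : List Z2, (if (b :: t).length < N + 1 then
            ENNReal.ofReal (pm D O a (b :: t)) else 0) ≤ 1 / 4 := by
          intro b hb
          have : ∀ t : List Z2, (if (b :: t).length < N + 1 then
            ENNReal.ofReal (pm D O a (b :: t)) else 0) =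
            (1 / 4 : ℝ≥0∞) * (if t.length < N then ENNReal.ofReal (pm D O b t) else 0) := by
            intro t
            simp only [List.length_cons, Nat.add_lt_add_iff_right]
            split_ifs with h1
            · have : pm D O a (b :: t) = 1 / 4 * pm D O b t := by
                have hP : P D O a (b :: t) ↔ P D O b t := by simp [haD, hb]
                unfold pm
                by_cases h2 : P D O b t
                · rw [if_pos h2, if_pos (hP.2 h2), List.length_cons, pow_succ']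
                · rw [if_neg h2, if_neg (fun h3 => h2 (hP.1 h3)), mul_zero]
              rw [this, ENNReal.ofReal_mul (by norm_num)]
              congr 1
              rw [ENNReal.ofReal_div_of_pos (by norm_num)]
              simp
            · simp
          simp_rw [this]
          rw [ENNReal.tsum_mul_left]
          calc (1 / 4 : ℝ≥0∞) * ∑' t : List Z2,
                (if t.length < N then ENNReal.ofReal (pm D O b t) else 0)
              ≤ 1 / 4 * 1 := by gcongr; exact ih b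
            _ = 1 / 4 := by simp
        calc _ ≤ ∑ b ∈ nb a, (1 / 4 : ℝ≥0∞) := Finset.sum_le_sum hb
          _ = 1 := by
            rw [Finset.sum_const, card_nb, nsmul_eq_mul]
            rw [one_div]
            exact ENNReal.mul_inv_cancel (by norm_num) (by norm_num)
      · have : ∀ b ∈ nb a, ∑' t : List Z2, (if (b :: t).length < N + 1 then
            ENNReal.ofReal (pm D O a (b :: t)) else 0) = 0 := by
          intro b _
          simp [pm, haD]
        rw [Finset.sum_eq_zero this]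
        simp only [List.length_nil, Nat.succ_pos, if_true, add_zero]
        unfold pm
        split_ifs <;> simp
    · intro b t hb
      simp [pm, hb]

lemma tsum_pm_le (D O : Finset Z2) (hDO : Disjoint D O) (a : Z2) :
    ∑' t, ENNReal.ofReal (pm D O a t) ≤ 1 := by
  rw [ENNReal.tsum_eq_iSup_sum]
  apply iSup_le
  intro s
  obtain ⟨N, hN⟩ : ∃ N, ∀ t ∈ s, t.length < N := by
    refine ⟨(s.sup List.length) + 1, fun t ht => ?_⟩
    exact Nat.lt_succ_of_le (Finset.le_sup (f := List.length) ht)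
  calc ∑ t ∈ s, ENNReal.ofReal (pm D O a t)
      = ∑ t ∈ s, (if t.length < N then ENNReal.ofReal (pm D O a t) else 0) := by
        apply Finset.sum_congr rfl
        intro t ht
        rw [if_pos (hN t ht)]
    _ ≤ ∑' t, (if t.length < N then ENNReal.ofReal (pm D O a t) else 0) :=
        ENNReal.sum_le_tsum s
    _ ≤ 1 := sum_trunc_le D O hDO N a

lemma summable_pm (D O : Finset Z2) (hDO : Disjoint D O) (a : Z2) :
    Summable (pm D O a) := by
  have h := tsum_pm_le D O hDO a
  have h2 : ∑' t, ENNReal.ofReal (pm D O a t) ≠ ∞ := (h.trans_lt (by norm_num)).ne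
  have := ENNReal.summable_toReal h2
  refine this.congr (fun t => ?_)
  rw [ENNReal.toReal_ofReal (pm_nonneg D O a t)]

lemma tsum_pm_le_one (D O : Finset Z2) (hDO : Disjoint D O) (a : Z2) :
    ∑' t, pm D O a t ≤ 1 := by
  have h := tsum_pm_le D O hDO a
  rw [← ENNReal.ofReal_tsum_of_nonneg (pm_nonneg D O a) (summable_pm D O hDO a)] at h
  rwa [ENNReal.ofReal_le_one] at h

section weights

variable {𝕜 : Type*} [RCLike 𝕜]

/-- admissible weights -/
def GW (q : Z2 → Z2 → 𝕜) : Prop := ∀ z, ∀ w ∈ nb z, ‖q z w‖ ≤ 1 / 4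

lemma norm_wt_le {q : Z2 → Z2 → 𝕜} (hq : GW q) {D O : Finset Z2} :
    ∀ (t : List Z2) (a : Z2), P D O a t → ‖wt q a t‖ ≤ (1 / 4) ^ t.length := by
  intro t
  induction t with
  | nil => intro a _; simp
  | cons b t ih =>
    intro a h
    rw [P_cons] at h
    rw [wt_cons, norm_mul, List.length_cons, pow_succ']
    exact mul_le_mul (hq a b h.2.1) (ih b h.2.2) (norm_nonneg _) (by norm_num)

open Classical in
/-- term of the path sum -/
noncomputable def psTerm (q : Z2 → Z2 → 𝕜) (D O : Finset Z2) (a : Z2) (Φ : List Z2 → 𝕜)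
    (t : List Z2) : 𝕜 := if P D O a t then wt q a t * Φ (a :: t) else 0

/-- sum over all paths from `a` through `D` to `O` -/
noncomputable def PS (q : Z2 → Z2 → 𝕜) (D O : Finset Z2) (a : Z2) (Φ : List Z2 → 𝕜) : 𝕜 :=
  ∑' t, psTerm q D O a Φ t

lemma norm_psTerm_le {q : Z2 → Z2 → 𝕜} (hq : GW q) (D O : Finset Z2) (a : Z2)
    (Φ : List Z2 → 𝕜) (C : ℝ) (hΦ : ∀ l, ‖Φ l‖ ≤ C) (t : List Z2) :
    ‖psTerm q D O a Φ t‖ ≤ C * pm D O a t := by
  unfold psTerm pm
  split_ifs with h
  · rw [norm_mul, mul_comm C]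
    exact mul_le_mul (norm_wt_le hq t a h) (hΦ _) (norm_nonneg _) (by positivity)
  · simp

lemma summable_norm_psTerm {q : Z2 → Z2 → 𝕜} (hq : GW q) {D O : Finset Z2} (hDO : Disjoint D O)
    (a : Z2) (Φ : List Z2 → 𝕜) (C : ℝ) (hΦ : ∀ l, ‖Φ l‖ ≤ C) :
    Summable (fun t => ‖psTerm q D O a Φ t‖) :=
  Summable.of_nonneg_of_le (fun _ => norm_nonneg _)
    (fun t => norm_psTerm_le hq D O a Φ C hΦ t) ((summable_pm D O hDO a).mul_left C)

lemma summable_psTerm {q : Z2 → Z2 → 𝕜} (hq : GW q) {D O : Finset Z2} (hDO : Disjoint D O)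
    (a : Z2) (Φ : List Z2 → 𝕜) (C : ℝ) (hΦ : ∀ l, ‖Φ l‖ ≤ C) :
    Summable (psTerm q D O a Φ) := (summable_norm_psTerm hq hDO a Φ C hΦ).of_norm

lemma norm_PS_le {q : Z2 → Z2 → 𝕜} (hq : GW q) {D O : Finset Z2} (hDO : Disjoint D O)
    (a : Z2) (Φ : List Z2 → 𝕜) (C : ℝ) (hΦ : ∀ l, ‖Φ l‖ ≤ C) :
    ‖PS q D O a Φ‖ ≤ C := by
  have hC : 0 ≤ C := (norm_nonneg _).trans (hΦ [])
  calc ‖PS q D O a Φ‖ ≤ ∑' t, ‖psTerm q D O a Φ t‖ :=
        norm_tsum_le_tsum_norm (summable_norm_psTerm hq hDO a Φ C hΦ)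
    _ ≤ ∑' t, C * pm D O a t := (summable_norm_psTerm hq hDO a Φ C hΦ).tsum_le_tsum
        (fun t => norm_psTerm_le hq D O a Φ C hΦ t) ((summable_pm D O hDO a).mul_left C)
    _ = C * ∑' t, pm D O a t := tsum_mul_left
    _ ≤ C * 1 := by gcongr; exact tsum_pm_le_one D O hDO a
    _ = C := mul_one C

/-- first step decomposition -/
lemma PS_step {q : Z2 → Z2 → 𝕜} (hq : GW q) {D O : Finset Z2} (hDO : Disjoint D O)
    {a : Z2} (ha : a ∈ D) (Φ : List Z2 → 𝕜) (C : ℝ) (hΦ : ∀ l, ‖Φ l‖ ≤ C) :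
    PS q D O a Φ = ∑ b ∈ nb a, q a b * PS q D O b (fun l => Φ (a :: l)) := by
  have haO : a ∉ O := Finset.disjoint_left.1 hDO ha
  unfold PS
  rw [tsum_list _ (summable_psTerm hq hDO a Φ C hΦ) (nb a)]
  · have h0 : psTerm q D O a Φ [] = 0 := by simp [psTerm, haO]
    rw [h0, zero_add]
    apply Finset.sum_congr rfl
    intro b hb
    rw [← tsum_mul_left]
    congr 1
    ext t
    have hP : P D O a (b :: t) ↔ P D O b t := by simp [ha, hb]
    unfold psTerm
    by_cases h2 : P D O b t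
    · rw [if_pos h2, if_pos (hP.2 h2), wt_cons]; ring
    · rw [if_neg h2, if_neg (fun h3 => h2 (hP.1 h3)), mul_zero]
  · intro b t hb
    simp [psTerm, hb]

lemma PS_out {q : Z2 → Z2 → 𝕜} {D O : Finset Z2}
    {a : Z2} (ha : a ∉ D) (haO : a ∈ O) (Φ : List Z2 → 𝕜) :
    PS q D O a Φ = Φ [a] := by
  unfold PS
  rw [tsum_eq_single ([] : List Z2)]
  · simp [psTerm, haO]
  · intro t ht
    cases t with
    | nil => exact absurd rfl ht
    | cons b t => simp [psTerm, ha]

lemma PS_none {q : Z2 → Z2 → 𝕜} {D O : Finset Z2}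
    {a : Z2} (ha : a ∉ D) (haO : a ∉ O) (Φ : List Z2 → 𝕜) :
    PS q D O a Φ = 0 := by
  unfold PS
  have : psTerm q D O a Φ = fun _ => 0 := by
    ext t
    cases t with
    | nil => simp [psTerm, haO]
    | cons b t => simp [psTerm, ha]
  rw [this, tsum_zero]

lemma PS_congr {q : Z2 → Z2 → 𝕜} {D O : Finset Z2} {a : Z2} {Φ Φ' : List Z2 → 𝕜}
    (h : ∀ t, P D O a t → Φ (a :: t) = Φ' (a :: t)) : PS q D O a Φ = PS q D O a Φ' := by
  unfold PS psTerm
  congr 1
  ext t
  split_ifs with ht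
  · rw [h t ht]
  · rfl

lemma PS_add {q : Z2 → Z2 → 𝕜} (hq : GW q) {D O : Finset Z2} (hDO : Disjoint D O)
    (a : Z2) (Φ Φ' : List Z2 → 𝕜) (C C' : ℝ) (hΦ : ∀ l, ‖Φ l‖ ≤ C) (hΦ' : ∀ l, ‖Φ' l‖ ≤ C') :
    PS q D O a (fun l => Φ l + Φ' l) = PS q D O a Φ + PS q D O a Φ' := by
  unfold PS
  rw [← (summable_psTerm hq hDO a Φ C hΦ).tsum_add (summable_psTerm hq hDO a Φ' C' hΦ')]
  congr 1
  ext t
  unfold psTerm
  split_ifs
  · ring
  · simp

lemma PS_mul_left {q : Z2 → Z2 → 𝕜} {D O : Finset Z2} (a : Z2) (c : 𝕜) (Φ : List Z2 → 𝕜) :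
    PS q D O a (fun l => c * Φ l) = c * PS q D O a Φ := by
  unfold PS
  rw [← tsum_mul_left]
  congr 1
  ext t
  unfold psTerm
  split_ifs
  · ring
  · simp

lemma PS_sum {ι : Type*} {q : Z2 → Z2 → 𝕜} (hq : GW q) {D O : Finset Z2} (hDO : Disjoint D O)
    (a : Z2) (s : Finset ι) (Φ : ι → List Z2 → 𝕜) (C : ι → ℝ) (hΦ : ∀ i ∈ s, ∀ l, ‖Φ i l‖ ≤ C i) :
    PS q D O a (fun l => ∑ i ∈ s, Φ i l) = ∑ i ∈ s, PS q D O a (Φ i) := by
  unfold PS
  rw [← Summable.tsum_finsetSum (fun i hi => summable_psTerm hq hDO a (Φ i) (C i) (hΦ i hi))]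
  congr 1
  ext t
  unfold psTerm
  split_ifs
  · rw [Finset.mul_sum]
  · simp

/-- uniqueness for the twisted Dirichlet problem -/
lemma uniq {q : Z2 → Z2 → 𝕜} (hq : GW q) (D : Finset Z2) (u v : Z2 → 𝕜)
    (hu : ∀ z ∈ D, u z = ∑ w ∈ nb z, q z w * u w)
    (hv : ∀ z ∈ D, v z = ∑ w ∈ nb z, q z w * v w)
    (hb : ∀ z ∈ D, ∀ w ∈ nb z, w ∉ D → u w = v w) : ∀ z ∈ D, u z = v z := by
  intro z hz
  have h := max_prin D (fun w => ‖u w - v w‖) 0 (fun z hz => by
    have h1 : u z - v z = ∑ w ∈ nb z, q z w * (u w - v w) := by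
      rw [hu z hz, hv z hz, ← Finset.sum_sub_distrib]
      apply Finset.sum_congr rfl
      intro w _
      ring
    rw [h1, av]
    calc ‖∑ w ∈ nb z, q z w * (u w - v w)‖ ≤ ∑ w ∈ nb z, ‖q z w * (u w - v w)‖ :=
          norm_sum_le _ _
      _ ≤ ∑ w ∈ nb z, 1 / 4 * ‖u w - v w‖ := by
          apply Finset.sum_le_sum
          intro w hw
          rw [norm_mul]
          exact mul_le_mul_of_nonneg_right (hq z w hw) (norm_nonneg _)
      _ = (∑ w ∈ nb z, ‖u w - v w‖) / 4 := by rw [← Finset.mul_sum]; ring) (fun z hz w hw hwD => by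
    rw [hb z hz w hw hwD]; simp) z hz
  have h2 : ‖u z - v z‖ = 0 := le_antisymm h (norm_nonneg _)
  exact sub_eq_zero.1 (norm_eq_zero.1 h2)

end weights

end Pool.Agent.H96.LE
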