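import Pool.Agent.H96.LE.Det

/-!
# Schur complements of the lattice Laplacian
-/

namespace Pool.Agent.H96.LE

open Finset

variable {𝕜 : Type*} [RCLike 𝕜]

/-- return kernel to `X` through `D` -/
noncomputable def KK (q : Z2 → Z2 → 𝕜) (D X : Finset Z2) : Matrix X X 𝕜 :=
  Matrix.of (fun x y => ∑ b ∈ nb (x : Z2), q x b * H q D X b y)

/-- splitting the hitting kernel at the first visit of `Y` -/
lemma H_split {q : Z2 → Z2 → 𝕜} (hq : GW q) {D0 X Y : Finset Z2} (h1 : Disjoint D0 X)
    (h2 : Disjoint D0 Y) (h3 : Disjoint Y X) (z y : Z2) :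
    H q (D0 ∪ Y) X z y = H q D0 X z y + ∑ w ∈ Y, H q D0 Y z w * H q (D0 ∪ Y) X w y := by
  have hD : Disjoint (D0 ∪ Y) X := Finset.disjoint_union_left.2 ⟨h1, h3⟩
  have hout : ∀ v, v ∉ D0 → H q (D0 ∪ Y) X v y =
      H q D0 X v y + ∑ w ∈ Y, H q D0 Y v w * H q (D0 ∪ Y) X w y := by
    intro v hv
    by_cases hvY : v ∈ Y
    · have hvX : v ∉ X := Finset.disjoint_left.1 h3 hvY
      rw [H_none hv hvX, zero_add]
      have : ∀ w ∈ Y, H q D0 Y v w * H q (D0 ∪ Y) X w y =
          if v = w then H q (D0 ∪ Y) X w y else 0 := by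
        intro w _
        rw [H_out hv hvY]
        split_ifs <;> simp
      rw [Finset.sum_congr rfl this, Finset.sum_ite_eq, if_pos hvY]
    · have : ∀ w ∈ Y, H q D0 Y v w * H q (D0 ∪ Y) X w y = 0 := by
        intro w _
        rw [H_none hv hvY, zero_mul]
      rw [Finset.sum_congr rfl this, Finset.sum_const_zero, add_zero]
      have hvD : v ∉ D0 ∪ Y := by
        rw [Finset.mem_union]; tauto
      by_cases hvX : v ∈ X
      · rw [H_out hvD hvX, H_out hv hvX]
      · rw [H_none hvD hvX, H_none hv hvX]
  by_cases hz : z ∈ D0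
  · refine uniq hq D0 (fun v => H q (D0 ∪ Y) X v y)
      (fun v => H q D0 X v y + ∑ w ∈ Y, H q D0 Y v w * H q (D0 ∪ Y) X w y) ?_ ?_ ?_ z hz
    · intro v hv
      exact H_step hq hD (Finset.mem_union_left _ hv) y
    · intro v hv
      show H q D0 X v y + ∑ w ∈ Y, H q D0 Y v w * H q (D0 ∪ Y) X w y = _
      rw [H_step hq h1 hv y]
      have : ∀ w ∈ Y, H q D0 Y v w * H q (D0 ∪ Y) X w y =
          ∑ b ∈ nb v, q v b * (H q D0 Y b w * H q (D0 ∪ Y) X w y) := by
        intro w _
        rw [H_step hq h2 hv w, Finset.sum_mul]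
        apply Finset.sum_congr rfl
        intro b _; ring
      rw [Finset.sum_congr rfl this, Finset.sum_comm, ← Finset.sum_add_distrib]
      apply Finset.sum_congr rfl
      intro b _
      rw [mul_add, Finset.mul_sum]
    · intro v _ w _ hw
      exact hout w hw
  · exact hout z hz

theorem dl_schur {q : Z2 → Z2 → 𝕜} (hq : GW q) (D0 X : Finset Z2) (hd : Disjoint D0 X) :
    dl q (D0 ∪ X) = dl q D0 * (1 - KK q D0 X).det := by
  classical
  set D := D0 ∪ X with hD
  set A : Matrix D D 𝕜 := 1 - Qm q D with hA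
  let B : Matrix D D 𝕜 := Matrix.of (fun z y => if (y : Z2) ∈ X then H q D0 X z y else
    if z = y then 1 else 0)
  have hXD0 : ∀ z, z ∈ X → z ∉ D0 := fun z h => Finset.disjoint_right.1 hd h
  -- columns of the product
  have hcolX : ∀ z y : D, (y : Z2) ∈ X → (A * B) z y =
      H q D0 X z y - ∑ w ∈ nb (z : Z2), q z w * H q D0 X w y := by
    intro z y hy
    have h1 : (A * B) z y = (A.mulVec (fun w => H q D0 X (w : Z2) y)) z := by
      rw [Matrix.mul_apply]
      simp only [Matrix.mulVec, dotProduct]
      apply Finset.sum_congr rfl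
      intro w _
      simp only [B, Matrix.of_apply, if_pos hy]
    rw [h1, hA, mulVec_Qm q D (fun w => H q D0 X w y) (fun w hw => by
      rw [hD, Finset.mem_union, not_or] at hw
      exact H_none hw.1 hw.2 _) z]
  have hcolN : ∀ z y : D, (y : Z2) ∉ X → (A * B) z y = A z y := by
    intro z y hy
    rw [Matrix.mul_apply]
    simp only [B, Matrix.of_apply, if_neg hy]
    simp
  have hdetB : B.det = 1 := by
    rw [Matrix.twoBlockTriangular_det' B (fun z : D => (z : Z2) ∈ X)]
    · have b1 : B.toSquareBlockProp (fun z : D => (z : Z2) ∈ X) = 1 := by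
        ext i j
        simp only [Matrix.toSquareBlockProp, Matrix.toBlock, Matrix.submatrix_apply, B,
          Matrix.of_apply, if_pos j.2, Matrix.one_apply]
        rw [H_out (hXD0 _ i.2) i.2]
        have : ((i : D) : Z2) = ((j : D) : Z2) ↔ i = j := by
          rw [← Subtype.ext_iff, ← Subtype.ext_iff]
        simp only [this]
      have b2 : B.toSquareBlockProp (fun z : D => ¬ (z : Z2) ∈ X) = 1 := by
        ext i j
        simp only [Matrix.toSquareBlockProp, Matrix.toBlock, Matrix.submatrix_apply, B,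
          Matrix.of_apply, if_neg j.2, Matrix.one_apply]
        have : ((i : D)) = ((j : D)) ↔ i = j := by
          rw [← Subtype.ext_iff]
        simp only [this]
      rw [b1, b2, Matrix.det_one, Matrix.det_one, one_mul]
    · intro i hi j hj
      simp only [B, Matrix.of_apply, if_neg hj]
      rw [if_neg]
      intro h
      exact hj (h ▸ hi)
  have hdetAB : (A * B).det = (1 - KK q D0 X).det * dl q D0 := by
    rw [Matrix.twoBlockTriangular_det (A * B) (fun z : D => (z : Z2) ∈ X)]
    · congr 1
      · let e : {w : D // (w : Z2) ∈ X} ≃ (X : Finset Z2) :=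
          { toFun := fun w => ⟨w.1, w.2⟩
            invFun := fun w => ⟨⟨w.1, Finset.mem_union_right _ w.2⟩, w.2⟩
            left_inv := fun w => rfl
            right_inv := fun w => rfl }
        rw [← Matrix.det_submatrix_equiv_self e (1 - KK q D0 X)]
        congr 1
        ext i j
        simp only [Matrix.toSquareBlockProp, Matrix.toBlock, Matrix.submatrix_apply]
        rw [hcolX _ _ j.2, H_out (hXD0 _ i.2) i.2]
        simp only [Matrix.sub_apply, Matrix.one_apply, KK, Matrix.of_apply]
        have : ((i : D) : Z2) = ((j : D) : Z2) ↔ e i = e j := by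
          rw [e.apply_eq_iff_eq, ← Subtype.ext_iff, ← Subtype.ext_iff]
        simp only [this]
        rfl
      · unfold dl
        let e : {w : D // ¬ (w : Z2) ∈ X} ≃ (D0 : Finset Z2) :=
          { toFun := fun w => ⟨w.1, (Finset.mem_union.1 w.1.2).resolve_right w.2⟩
            invFun := fun w => ⟨⟨w.1, Finset.mem_union_left _ w.2⟩,
              Finset.disjoint_left.1 hd w.2⟩
            left_inv := fun w => rfl
            right_inv := fun w => rfl }
        rw [← Matrix.det_submatrix_equiv_self e (1 - Qm q D0)]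
        congr 1
        ext i j
        simp only [Matrix.toSquareBlockProp, Matrix.toBlock, Matrix.submatrix_apply]
        rw [hcolN _ _ j.2, hA]
        simp only [Matrix.sub_apply, Matrix.one_apply, Qm, Matrix.of_apply]
        have : ((i : D)) = ((j : D)) ↔ e i = e j := by
          rw [e.apply_eq_iff_eq, ← Subtype.ext_iff]
        simp only [this]
        rfl
    · intro i hi j hj
      rw [hcolX i j hj]
      have hi0 : (i : Z2) ∈ D0 := (Finset.mem_union.1 i.2).resolve_right hi
      rw [H_step hq hd hi0, sub_self]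
  rw [Matrix.det_mul, hdetB, mul_one] at hdetAB
  unfold dl at hdetAB ⊢
  rw [hdetAB, mul_comm]

end Pool.Agent.H96.LE
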