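import Mathlib

/-!
# Planar topology: continuous logarithms on the unit square and two crossing lemmas
-/

namespace Pool.Agent.H96.LE

open Set Complex

/-- continuous logarithm on a compact set which is star shaped about the origin -/
theorem exists_log {E : Type*} [NormedAddCommGroup E] [NormedSpace ℝ E] {K : Set E}
    (hK : IsCompact K) (hstar : ∀ x ∈ K, ∀ c : ℝ, 0 ≤ c → c ≤ 1 → c • x ∈ K)
    (f : E → ℂ) (hf : ContinuousOn f K) (h0 : ∀ x ∈ K, f x ≠ 0) :
    ∃ L : E → ℂ, ContinuousOn L K ∧ ∀ x ∈ K, exp (L x) = f x := by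
  rcases K.eq_empty_or_nonempty with hE | hne
  · subst hE
    exact ⟨fun _ => 0, continuousOn_const, by simp⟩
  obtain ⟨x0, hx0, hmin⟩ := hK.exists_isMinOn hne (hf.norm)
  have hc : 0 < ‖f x0‖ := norm_pos_iff.2 (h0 x0 hx0)
  have huc := hK.uniformContinuousOn_of_continuous hf
  rw [Metric.uniformContinuousOn_iff] at huc
  obtain ⟨δ, hδ, hd⟩ := huc _ hc
  obtain ⟨B, hB⟩ := hK.isBounded.exists_norm_le
  obtain ⟨N, hN⟩ := exists_nat_gt (B / δ)
  have hN0 : 0 < (N : ℝ) + 1 := by positivity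
  -- the ratio functions
  let r : ℕ → E → ℂ := fun j x => f ((((j : ℝ) + 1) / (N + 1)) • x) / f (((j : ℝ) / (N + 1)) • x)
  have hmem : ∀ x ∈ K, ∀ j : ℕ, j ≤ N + 1 → (((j : ℝ) / (N + 1)) • x) ∈ K := by
    intro x hx j hj
    apply hstar x hx
    · positivity
    · rw [div_le_one hN0]
      exact_mod_cast hj
  have hr : ∀ j < N + 1, ∀ x ∈ K, ‖r j x - 1‖ < 1 := by
    intro j hj x hx
    have m1 := hmem x hx j (by omega)
    have m2 := hmem x hx (j + 1) (by omega)
    push_cast at m2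
    have hne0 := h0 _ m1
    have h1 : r j x - 1 = (f ((((j : ℝ) + 1) / (N + 1)) • x) - f (((j : ℝ) / (N + 1)) • x)) /
        f (((j : ℝ) / (N + 1)) • x) := by
      simp only [r]
      field_simp
    rw [h1, norm_div, div_lt_one (norm_pos_iff.2 hne0)]
    have h2 : dist ((((j : ℝ) + 1) / (N + 1)) • x) (((j : ℝ) / (N + 1)) • x) < δ := by
      rw [dist_eq_norm, ← sub_smul, norm_smul]
      have : ((j : ℝ) + 1) / (N + 1) - (j : ℝ) / (N + 1) = 1 / (N + 1) := by
        field_simp; ring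
      rw [this, Real.norm_eq_abs, abs_of_pos (by positivity)]
      have hb := hB x hx
      have hB0 : 0 ≤ B := (norm_nonneg x).trans hb
      calc 1 / ((N : ℝ) + 1) * ‖x‖ ≤ 1 / ((N : ℝ) + 1) * B := by gcongr
        _ < δ := by
          rw [one_div, inv_mul_lt_iff₀ hN0]
          have := (div_lt_iff₀ hδ).1 hN
          nlinarith
    have h3 := hd _ m2 _ m1 h2
    rw [dist_eq_norm] at h3
    exact lt_of_lt_of_le h3 (hmin m1)
  have hslit : ∀ j < N + 1, ∀ x ∈ K, r j x ∈ slitPlane := by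
    intro j hj x hx
    have h1 := hr j hj x hx
    rw [mem_slitPlane_iff]
    left
    have h2 : |(r j x - 1).re| ≤ ‖r j x - 1‖ := abs_re_le_norm _
    have h3 := (abs_lt.1 (lt_of_le_of_lt h2 h1)).1
    simp only [sub_re, one_re] at h3
    linarith
  have hcont : ∀ j ≤ N + 1, ContinuousOn (fun x => f (((j : ℝ) / (N + 1)) • x)) K := by
    intro j hj
    apply hf.comp (by fun_prop)
    intro x hx
    exact hmem x hx j hj
  refine ⟨fun x => log (f 0) + ∑ j ∈ Finset.range (N + 1), log (r j x), ?_, ?_⟩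
  · apply ContinuousOn.add continuousOn_const
    apply continuousOn_finsetSum
    intro j hj
    rw [Finset.mem_range] at hj
    apply ContinuousOn.clog
    · apply ContinuousOn.div
      · have := hcont (j + 1) (by omega)
        push_cast at this
        exact this
      · exact hcont j (by omega)
      · intro x hx
        exact h0 _ (hmem x hx j (by omega))
    · intro x hx
      exact hslit j hj x hx
  · intro x hx
    have h00 : f 0 ≠ 0 := by
      apply h0
      have := hstar x hx 0 le_rfl zero_le_one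
      simpa using this
    have hprod : ∀ M ≤ N + 1, exp (log (f 0) + ∑ j ∈ Finset.range M, log (r j x)) =
        f (((M : ℝ) / (N + 1)) • x) := by
      intro M
      induction M with
      | zero => intro _; simp [exp_log h00]
      | succ M ih =>
        intro hM
        rw [Finset.sum_range_succ, ← add_assoc, exp_add, ih (by omega)]
        have hs := hslit M (by omega) x hx
        rw [exp_log (slitPlane_ne_zero hs)]
        simp only [r]
        have := h0 _ (hmem x hx M (by omega))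
        push_cast
        field_simp
    have := hprod (N + 1) le_rfl
    rw [this]
    congr 1
    push_cast
    rw [div_self hN0.ne', one_smul]

/-- a continuous function on `[0,1]` with values in `2 π i ℤ` is constant -/
lemma const_of_exp_one {g : ℝ → ℂ} (hg : ContinuousOn g (Icc 0 1))
    (h : ∀ t ∈ Icc (0 : ℝ) 1, exp (g t) = 1) : g 1 = g 0 := by
  have h1 : ∀ t ∈ Icc (0 : ℝ) 1, ∃ n : ℤ, g t = n * (2 * Real.pi * I) := by
    intro t ht
    exact exp_eq_one_iff.1 (h t ht)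
  have hre : ∀ t ∈ Icc (0 : ℝ) 1, (g t).re = 0 := by
    intro t ht
    obtain ⟨n, hn⟩ := h1 t ht
    rw [hn]
    simp
  have him : ∀ t ∈ Icc (0 : ℝ) 1, ∃ n : ℤ, (g t).im / (2 * Real.pi) = n := by
    intro t ht
    obtain ⟨n, hn⟩ := h1 t ht
    refine ⟨n, ?_⟩
    rw [hn]
    have : (2 * Real.pi : ℝ) ≠ 0 := by positivity
    simp
  have hpc : IsPreconnected (Icc (0 : ℝ) 1) := isPreconnected_Icc
  have hcont : ContinuousOn (fun t => (g t).im / (2 * Real.pi)) (Icc 0 1) := by
    apply ContinuousOn.div_const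
    exact Complex.continuous_im.comp_continuousOn hg
  have hconst : (g 1).im / (2 * Real.pi) = (g 0).im / (2 * Real.pi) := by
    have himg := hpc.image _ hcont
    have hsub : (fun t => (g t).im / (2 * Real.pi)) '' Icc (0 : ℝ) 1 ⊆ Set.range ((↑) : ℤ → ℝ) := by
      rintro _ ⟨t, ht, rfl⟩
      obtain ⟨n, hn⟩ := him t ht
      exact ⟨n, hn.symm⟩
    have hsubs : ((fun t => (g t).im / (2 * Real.pi)) '' Icc (0 : ℝ) 1).Subsingleton := by
      rw [isPreconnected_iff_ordConnected] at himg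
      intro a ha b hb
      obtain ⟨n, rfl⟩ := hsub ha
      obtain ⟨m, rfl⟩ := hsub hb
      by_contra hne
      have key : ∀ p q : ℤ, p < q → (p : ℝ) ∈ ((fun t => (g t).im / (2 * Real.pi)) '' Icc (0 : ℝ) 1) →
          (q : ℝ) ∈ ((fun t => (g t).im / (2 * Real.pi)) '' Icc (0 : ℝ) 1) → False := by
        intro p q hpq hp hq
        have hm : ((p : ℝ) + 1 / 2) ∈ ((fun t => (g t).im / (2 * Real.pi)) '' Icc (0 : ℝ) 1) := by
          apply himg.out hp hq
          have : (p : ℝ) + 1 ≤ q := by exact_mod_cast hpq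
          constructor <;> linarith
        obtain ⟨r, hr⟩ := hsub hm
        have h2 : (2 * r : ℤ) = 2 * p + 1 := by
          have : (2 * r : ℝ) = 2 * p + 1 := by rw [hr]; ring
          exact_mod_cast this
        omega
      rcases lt_trichotomy n m with hlt | heq | hgt
      · exact key n m hlt ha hb
      · exact hne (by rw [heq])
      · exact key m n hgt hb ha
    exact hsubs ⟨1, by simp, rfl⟩ ⟨0, by simp, rfl⟩
  have h2pi : (2 * Real.pi : ℝ) ≠ 0 := by positivity
  apply Complex.ext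
  · rw [hre 1 (by simp), hre 0 (by simp)]
  · field_simp at hconst
    exact hconst

/-- along a curve in a closed half plane the logarithm changes by the principal value -/
lemma log_change {L D : ℝ → ℂ} {u : ℂ} (hu : u ≠ 0) (hL : ContinuousOn L (Icc 0 1))
    (hD : ContinuousOn D (Icc 0 1)) (hexp : ∀ t ∈ Icc (0 : ℝ) 1, exp (L t) = D t)
    (hre : ∀ t ∈ Icc (0 : ℝ) 1, 0 ≤ (u * D t).re) :
    L 1 - L 0 = log (u * D 1) - log (u * D 0) := by
  have hD0 : ∀ t ∈ Icc (0 : ℝ) 1, D t ≠ 0 := by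
    intro t ht
    rw [← hexp t ht]
    exact exp_ne_zero _
  have hslit : ∀ t ∈ Icc (0 : ℝ) 1, u * D t ∈ slitPlane := by
    intro t ht
    rw [mem_slitPlane_iff]
    rcases (hre t ht).lt_or_eq with h | h
    · exact Or.inl h
    · right
      intro him
      apply mul_ne_zero hu (hD0 t ht)
      exact Complex.ext h.symm him
  have h := const_of_exp_one (g := fun t => log u + L t - log (u * D t)) (by
    apply ContinuousOn.sub (continuousOn_const.add hL)
    apply ContinuousOn.clog (continuousOn_const.mul hD)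
    exact hslit) (by
    intro t ht
    rw [exp_sub, exp_add, exp_log hu, hexp t ht, exp_log (mul_ne_zero hu (hD0 t ht))]
    exact div_self (mul_ne_zero hu (hD0 t ht)))
  linear_combination h

/-- the closed unit square -/
lemma square_star : ∀ x ∈ (Icc (0 : ℝ) 1 ×ˢ Icc (0 : ℝ) 1), ∀ c : ℝ, 0 ≤ c → c ≤ 1 →
    c • x ∈ (Icc (0 : ℝ) 1 ×ˢ Icc (0 : ℝ) 1) := by
  rintro ⟨a, b⟩ ⟨⟨ha0, ha1⟩, hb0, hb1⟩ c hc0 hc1
  simp only [Prod.smul_mk, smul_eq_mul, mem_prod, mem_Icc] at *
  refine ⟨⟨by positivity, ?_⟩, by positivity, ?_⟩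
  · exact mul_le_one₀ hc1 ha0 ha1
  · exact mul_le_one₀ hc1 hb0 hb1

/-- **order lemma**: two disjoint crossings of a strip keep their order -/
theorem strip_order (f g : ℝ → ℂ) (hf : Continuous f) (hg : Continuous g) (h0 h1 : ℝ)
    (hf0 : (f 0).re = h0) (hg0 : (g 0).re = h0) (hf1 : (f 1).re = h1) (hg1 : (g 1).re = h1)
    (hfr : ∀ t ∈ Icc (0 : ℝ) 1, h0 ≤ (f t).re ∧ (f t).re ≤ h1)
    (hgr : ∀ t ∈ Icc (0 : ℝ) 1, h0 ≤ (g t).re ∧ (g t).re ≤ h1)
    (hne : ∀ s ∈ Icc (0 : ℝ) 1, ∀ t ∈ Icc (0 : ℝ) 1, f s ≠ g t)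
    (hlt : (f 0).im < (g 0).im) : (f 1).im < (g 1).im := by
  by_contra hcon
  push Not at hcon
  have hne1 : f 1 ≠ g 1 := hne 1 (by simp) 1 (by simp)
  have hlt1 : (g 1).im < (f 1).im := by
    rcases hcon.lt_or_eq with h | h
    · exact h
    · exact absurd (Complex.ext (hf1.trans hg1.symm) h.symm) hne1
  obtain ⟨L, hLc, hL⟩ := exists_log (K := Icc (0 : ℝ) 1 ×ˢ Icc (0 : ℝ) 1)
    (isCompact_Icc.prod isCompact_Icc) square_star (fun p : ℝ × ℝ => g p.2 - f p.1)
    (by fun_prop) (by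
      rintro ⟨s, t⟩ ⟨hs, ht⟩
      exact sub_ne_zero.2 (hne s hs t ht).symm)
  have cont1 : ∀ s ∈ Icc (0 : ℝ) 1, ContinuousOn (fun t => L (s, t)) (Icc 0 1) := by
    intro s hs
    exact hLc.comp (by fun_prop) (fun t ht => ⟨hs, ht⟩)
  have cont2 : ∀ t ∈ Icc (0 : ℝ) 1, ContinuousOn (fun s => L (s, t)) (Icc 0 1) := by
    intro t ht
    exact hLc.comp (by fun_prop) (fun s hs => ⟨hs, ht⟩)
  have m0 : (0 : ℝ) ∈ Icc (0 : ℝ) 1 := by simp
  have m1 : (1 : ℝ) ∈ Icc (0 : ℝ) 1 := by simp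
  -- path A
  have a1 := log_change (L := fun t => L (0, t)) (D := fun t => g t - f 0) (u := 1) one_ne_zero
    (cont1 0 m0) (by fun_prop) (fun t ht => hL (0, t) ⟨m0, ht⟩) (fun t ht => by
      simp only [one_mul, sub_re]; linarith [(hgr t ht).1])
  have a2 := log_change (L := fun s => L (s, 1)) (D := fun s => g 1 - f s) (u := 1) one_ne_zero
    (cont2 1 m1) (by fun_prop) (fun s hs => hL (s, 1) ⟨hs, m1⟩) (fun s hs => by
      simp only [one_mul, sub_re]; linarith [(hfr s hs).2])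
  have b1 := log_change (L := fun s => L (s, 0)) (D := fun s => g 0 - f s) (u := -1) (by simp)
    (cont2 0 m0) (by fun_prop) (fun s hs => hL (s, 0) ⟨hs, m0⟩) (fun s hs => by
      simp only [neg_mul, one_mul, neg_re, sub_re]; linarith [(hfr s hs).1])
  have b2 := log_change (L := fun t => L (1, t)) (D := fun t => g t - f 1) (u := -1) (by simp)
    (cont1 1 m1) (by fun_prop) (fun t ht => hL (1, t) ⟨m1, ht⟩) (fun t ht => by
      simp only [neg_mul, one_mul, neg_re, sub_re]; linarith [(hgr t ht).2])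
  simp only [one_mul, neg_mul] at a1 a2 b1 b2
  have key : log (g 1 - f 1) - log (g 0 - f 0) = log (-(g 1 - f 1)) - log (-(g 0 - f 0)) := by
    linear_combination b1 + b2 - a1 - a2
  have e0 : g 0 - f 0 = (((g 0).im - (f 0).im : ℝ) : ℂ) * I := by
    apply Complex.ext <;> simp [hf0, hg0]
  have e1 : g 1 - f 1 = (((f 1).im - (g 1).im : ℝ) : ℂ) * (-I) := by
    apply Complex.ext <;> simp [hf1, hg1]
  have p0 : 0 < (g 0).im - (f 0).im := sub_pos.2 hlt
  have p1 : 0 < (f 1).im - (g 1).im := sub_pos.2 hlt1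
  have him := congrArg Complex.im key
  simp only [sub_im, log_im] at him
  rw [e0, e1] at him
  have q1 : arg ((((f 1).im - (g 1).im : ℝ) : ℂ) * (-I)) = -(Real.pi / 2) := by
    rw [arg_real_mul _ p1, arg_neg_I]
  have q2 : arg ((((g 0).im - (f 0).im : ℝ) : ℂ) * I) = Real.pi / 2 := by
    rw [arg_real_mul _ p0, arg_I]
  have q3 : arg (-((((f 1).im - (g 1).im : ℝ) : ℂ) * (-I))) = Real.pi / 2 := by
    have : -((((f 1).im - (g 1).im : ℝ) : ℂ) * (-I)) = (((f 1).im - (g 1).im : ℝ) : ℂ) * I := by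
      ring
    rw [this, arg_real_mul _ p1, arg_I]
  have q4 : arg (-((((g 0).im - (f 0).im : ℝ) : ℂ) * I)) = -(Real.pi / 2) := by
    have : -((((g 0).im - (f 0).im : ℝ) : ℂ) * I) = (((g 0).im - (f 0).im : ℝ) : ℂ) * (-I) := by
      ring
    rw [this, arg_real_mul _ p0, arg_neg_I]
  rw [q1, q2, q3, q4] at him
  have := Real.pi_pos
  linarith

lemma arg_I_mul {z : ℂ} (hz : z ≠ 0) (h1 : arg z ≤ Real.pi / 2) :
    arg (I * z) = Real.pi / 2 + arg z := by
  rw [arg_mul I_ne_zero hz, arg_I]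
  rw [arg_I]
  have := neg_pi_lt_arg z
  have := Real.pi_pos
  constructor <;> linarith

lemma arg_neg_I_mul {z : ℂ} (hz : z ≠ 0) (h1 : -(Real.pi / 2) < arg z) :
    arg (-I * z) = -(Real.pi / 2) + arg z := by
  rw [arg_mul (neg_ne_zero.2 I_ne_zero) hz, arg_neg_I]
  rw [arg_neg_I]
  have := arg_le_pi z
  have := Real.pi_pos
  constructor <;> linarith

/-- **crossing lemma** for a square -/
theorem square_cross (D : ℝ × ℝ → ℂ) (hD : Continuous D)
    (hl : ∀ t ∈ Icc (0 : ℝ) 1, (D (0, t)).re ≤ 0) (hr : ∀ t ∈ Icc (0 : ℝ) 1, 0 ≤ (D (1, t)).re)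
    (hb : ∀ s ∈ Icc (0 : ℝ) 1, 0 ≤ (D (s, 0)).im) (ht : ∀ s ∈ Icc (0 : ℝ) 1, (D (s, 1)).im ≤ 0) :
    ∃ s ∈ Icc (0 : ℝ) 1, ∃ t ∈ Icc (0 : ℝ) 1, D (s, t) = 0 := by
  by_contra hcon
  push Not at hcon
  obtain ⟨L, hLc, hL⟩ := exists_log (K := Icc (0 : ℝ) 1 ×ˢ Icc (0 : ℝ) 1)
    (isCompact_Icc.prod isCompact_Icc) square_star D hD.continuousOn (by
      rintro ⟨s, t⟩ ⟨hs, ht⟩
      exact hcon s hs t ht)
  have cont1 : ∀ s ∈ Icc (0 : ℝ) 1, ContinuousOn (fun t => L (s, t)) (Icc 0 1) := by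
    intro s hs
    exact hLc.comp (by fun_prop) (fun t ht => ⟨hs, ht⟩)
  have cont2 : ∀ t ∈ Icc (0 : ℝ) 1, ContinuousOn (fun s => L (s, t)) (Icc 0 1) := by
    intro t ht
    exact hLc.comp (by fun_prop) (fun s hs => ⟨hs, ht⟩)
  have m0 : (0 : ℝ) ∈ Icc (0 : ℝ) 1 := by simp
  have m1 : (1 : ℝ) ∈ Icc (0 : ℝ) 1 := by simp
  have a1 := log_change (L := fun s => L (s, 0)) (D := fun s => D (s, 0)) (u := -I) (by simp)
    (cont2 0 m0) (by fun_prop) (fun s hs => hL (s, 0) ⟨hs, m0⟩) (fun s hs => by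
      have := hb s hs
      simpa using this)
  have a2 := log_change (L := fun t => L (1, t)) (D := fun t => D (1, t)) (u := 1) one_ne_zero
    (cont1 1 m1) (by fun_prop) (fun t ht => hL (1, t) ⟨m1, ht⟩) (fun t ht => by
      simpa using hr t ht)
  have a3 := log_change (L := fun s => L (s, 1)) (D := fun s => D (s, 1)) (u := I) I_ne_zero
    (cont2 1 m1) (by fun_prop) (fun s hs => hL (s, 1) ⟨hs, m1⟩) (fun s hs => by
      have := ht s hs
      simp
      linarith)
  have a4 := log_change (L := fun t => L (0, t)) (D := fun t => D (0, t)) (u := -1) (by simp)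
    (cont1 0 m0) (by fun_prop) (fun t ht => hL (0, t) ⟨m0, ht⟩) (fun t ht => by
      have := hl t ht
      simp
      linarith)
  simp only [one_mul] at a1 a2 a3 a4
  have z00 := hcon 0 m0 0 m0
  have z10 := hcon 1 m1 0 m0
  have z01 := hcon 0 m0 1 m1
  have z11 := hcon 1 m1 1 m1
  have key : (log (-I * D (1, 0)) - log (-I * D (0, 0))) + (log (D (1, 1)) - log (D (1, 0)))
      - (log (I * D (1, 1)) - log (I * D (0, 1))) - (log (-1 * D (0, 1)) - log (-1 * D (0, 0))) = 0 := by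
    linear_combination -a1 - a2 + a3 + a4
  have him := congrArg Complex.im key
  simp only [sub_im, log_im, add_im, zero_im] at him
  have hp := Real.pi_pos
  -- corner (1,0): first quadrant
  have c10 : 0 ≤ arg (D (1, 0)) := arg_nonneg_iff.2 (hb 1 m1)
  have e1 : arg (-I * D (1, 0)) = -(Real.pi / 2) + arg (D (1, 0)) :=
    arg_neg_I_mul z10 (by linarith)
  -- corner (1,1): fourth quadrant
  have c11 : |arg (D (1, 1))| ≤ Real.pi / 2 := abs_arg_le_pi_div_two_iff.2 (hr 1 m1)
  have e2 : arg (I * D (1, 1)) = Real.pi / 2 + arg (D (1, 1)) :=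
    arg_I_mul z11 (abs_le.1 c11).2
  -- corner (0,1): third quadrant, so `-D` is in the first
  have r01 : 0 ≤ (-1 * D (0, 1)).re := by have := hl 1 m1; simp; linarith
  have i01 : 0 ≤ (-1 * D (0, 1)).im := by have := ht 0 m0; simp; linarith
  have c01 : 0 ≤ arg (-1 * D (0, 1)) := arg_nonneg_iff.2 i01
  have e3 : arg (I * D (0, 1)) = -(Real.pi / 2) + arg (-1 * D (0, 1)) := by
    have : I * D (0, 1) = -I * (-1 * D (0, 1)) := by ring
    rw [this]
    exact arg_neg_I_mul (by simpa using z01) (by linarith)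
  -- corner (0,0): second quadrant, so `-D` is in the fourth
  have r00 : 0 ≤ (-1 * D (0, 0)).re := by have := hl 0 m0; simp; linarith
  have c00 : |arg (-1 * D (0, 0))| ≤ Real.pi / 2 := abs_arg_le_pi_div_two_iff.2 r00
  have e4 : arg (-I * D (0, 0)) = Real.pi / 2 + arg (-1 * D (0, 0)) := by
    have : -I * D (0, 0) = I * (-1 * D (0, 0)) := by ring
    rw [this]
    exact arg_I_mul (by simpa using z00) (abs_le.1 c00).2
  rw [e1, e2, e3, e4] at him
  linarith

end Pool.Agent.H96.LE
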