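import Pool.Agent.H96.LE.Det
import Pool.Agent.H96.LE.Top1

/-!
# Lattice polygons
-/

namespace Pool.Agent.H96.LE

open Set Complex

/-- polygon through the points `a :: t` -/
def poly : ℂ → List ℂ → Set ℂ
  | a, [] => {a}
  | a, b :: t => segment ℝ a b ∪ poly b t

/-- last point -/
def enc : ℂ → List ℂ → ℂ
  | a, [] => a
  | _, b :: t => enc b t

lemma left_mem_poly (a : ℂ) (t : List ℂ) : a ∈ poly a t := by
  cases t with
  | nil => simp [poly]
  | cons b t => exact Or.inl (left_mem_segment ℝ a b)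

lemma joined_seg (a b : ℂ) : JoinedIn (segment ℝ a b) a b :=
  ((convex_segment a b).isPathConnected ⟨a, left_mem_segment ℝ a b⟩).joinedIn a
    (left_mem_segment ℝ a b) b (right_mem_segment ℝ a b)

lemma joined_poly (t : List ℂ) : ∀ a, JoinedIn (poly a t) a (enc a t) := by
  induction t with
  | nil => intro a; exact JoinedIn.refl (by simp [poly])
  | cons b t ih =>
    intro a
    exact ((joined_seg a b).mono subset_union_left).trans ((ih b).mono subset_union_right)

lemma poly_subset_convex {C : Set ℂ} (hC : Convex ℝ C) (t : List ℂ) :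
    ∀ a, (∀ z ∈ a :: t, z ∈ C) → poly a t ⊆ C := by
  induction t with
  | nil => intro a h; simpa [poly] using h
  | cons b t ih =>
    intro a h
    apply union_subset
    · exact hC.segment_subset (h a (by simp)) (h b (by simp))
    · exact ih b (fun z hz => h z (by simp at hz ⊢; tauto))

lemma enc_map (t : List Z2) : ∀ a, enc (cx a) (t.map cx) = cx (en a t) := by
  induction t with
  | nil => intro a; rfl
  | cons b t ih => intro a; exact ih b

/-- sum of the logarithms of successive ratios -/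
noncomputable def lsum : ℂ → List ℂ → ℂ
  | _, [] => 0
  | a, b :: t => log (b / a) + lsum b t

/-- consecutive ratios lie in the slit plane -/
def good : ℂ → List ℂ → Prop
  | a, [] => a ≠ 0
  | a, b :: t => a ≠ 0 ∧ b / a ∈ slitPlane ∧ good b t

/-- lifting of a polygon to the logarithmic plane -/
lemma joined_log (t : List ℂ) : ∀ a, good a t → ∀ l : ℂ, exp l = a →
    JoinedIn (exp ⁻¹' (poly a t)) l (l + lsum a t) := by
  induction t with
  | nil =>
    intro a _ l hl
    rw [lsum, add_zero]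
    exact JoinedIn.refl (by simp [poly, hl])
  | cons b t ih =>
    intro a hg l hl
    obtain ⟨ha, hba, hg'⟩ := hg
    have hb : exp (l + log (b / a)) = b := by
      rw [exp_add, hl, exp_log (slitPlane_ne_zero hba)]
      field_simp
    have h2 := ih b hg' _ hb
    rw [lsum, ← add_assoc]
    refine JoinedIn.trans ?_ (h2.mono (preimage_mono subset_union_right))
    refine JoinedIn.mono ?_ (preimage_mono (subset_union_left (t := poly b t)))
    have hsl : ∀ s ∈ Icc (0 : ℝ) 1, (1 : ℂ) + s * (b / a - 1) ∈ slitPlane := by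
      intro s hs
      have := starConvex_one_slitPlane.add_smul_sub_mem hba hs.1 hs.2
      simpa [Complex.real_smul] using this
    refine JoinedIn.ofLine (f := fun s : ℝ => l + log (1 + s * (b / a - 1))) ?_ ?_ ?_ ?_
    · apply ContinuousOn.add continuousOn_const
      apply ContinuousOn.clog (by fun_prop)
      intro s hs
      exact hsl s hs
    · simp
    · simp
    · rintro _ ⟨s, hs, rfl⟩
      simp only [mem_preimage]
      rw [exp_add, hl, exp_log (slitPlane_ne_zero (hsl s hs))]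
      rw [segment_eq_image']
      refine ⟨s, hs, ?_⟩
      simp only [Complex.real_smul]
      field_simp

/-- total winding of a lattice path about the origin -/
noncomputable def wind : Z2 → List Z2 → ℝ
  | _, [] => 0
  | a, b :: t => arg (cx b / cx a) + wind b t

@[simp] lemma wind_nil (a : Z2) : wind a [] = 0 := rfl
@[simp] lemma wind_cons (a b : Z2) (t : List Z2) :
    wind a (b :: t) = arg (cx b / cx a) + wind b t := rfl

lemma lsum_im (t : List Z2) : ∀ a, (lsum (cx a) (t.map cx)).im = wind a t := by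
  induction t with
  | nil => intro a; rfl
  | cons b t ih => intro a; simp [lsum, ih, log_im]

/-- coordinates of points of a segment -/
lemma seg_box {a b : Z2} {p : ℂ} (hp : p ∈ segment ℝ (cx a) (cx b)) :
    ((min a.1 b.1 : ℤ) : ℝ) ≤ p.re ∧ p.re ≤ ((max a.1 b.1 : ℤ) : ℝ) ∧
    ((min a.2 b.2 : ℤ) : ℝ) ≤ p.im ∧ p.im ≤ ((max a.2 b.2 : ℤ) : ℝ) := by
  obtain ⟨s, t, hs, ht, hst, rfl⟩ := hp
  push_cast
  have h1 : (s • cx a + t • cx b).re = s * a.1 + t * b.1 := by simp
  have h2 : (s • cx a + t • cx b).im = s * a.2 + t * b.2 := by simp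
  rw [h1, h2]
  have e1 := min_le_left (a.1 : ℝ) b.1
  have e2 := min_le_right (a.1 : ℝ) b.1
  have e3 := le_max_left (a.1 : ℝ) b.1
  have e4 := le_max_right (a.1 : ℝ) b.1
  have e5 := min_le_left (a.2 : ℝ) b.2
  have e6 := min_le_right (a.2 : ℝ) b.2
  have e7 := le_max_left (a.2 : ℝ) b.2
  have e8 := le_max_right (a.2 : ℝ) b.2
  refine ⟨?_, ?_, ?_, ?_⟩
  · calc min (a.1 : ℝ) b.1 = s * min (a.1 : ℝ) b.1 + t * min (a.1 : ℝ) b.1 := by
          rw [← add_mul, hst, one_mul]
      _ ≤ _ := by gcongr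
  · calc s * (a.1 : ℝ) + t * b.1 ≤ s * max (a.1 : ℝ) b.1 + t * max (a.1 : ℝ) b.1 := by gcongr
      _ = _ := by rw [← add_mul, hst, one_mul]
  · calc min (a.2 : ℝ) b.2 = s * min (a.2 : ℝ) b.2 + t * min (a.2 : ℝ) b.2 := by
          rw [← add_mul, hst, one_mul]
      _ ≤ _ := by gcongr
  · calc s * (a.2 : ℝ) + t * b.2 ≤ s * max (a.2 : ℝ) b.2 + t * max (a.2 : ℝ) b.2 := by gcongr
      _ = _ := by rw [← add_mul, hst, one_mul]

/-- the lattice points in the box of an edge are its end points -/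
lemma box_edge {a b : Z2} (hab : b ∈ nb a) {x y : ℤ} (h1 : min a.1 b.1 ≤ x) (h2 : x ≤ max a.1 b.1)
    (h3 : min a.2 b.2 ≤ y) (h4 : y ≤ max a.2 b.2) : (x, y) = a ∨ (x, y) = b := by
  rcases a with ⟨a1, a2⟩
  rcases b with ⟨b1, b2⟩
  rw [mem_nb] at hab
  simp only [Prod.mk.injEq] at *
  omega

/-- two lattice edges without common vertex are disjoint -/
lemma seg_disj {a b c d : Z2} (hab : b ∈ nb a) (hcd : d ∈ nb c) (h1 : a ≠ c) (h2 : a ≠ d)
    (h3 : b ≠ c) (h4 : b ≠ d) {p : ℂ} (hp : p ∈ segment ℝ (cx a) (cx b))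
    (hp' : p ∈ segment ℝ (cx c) (cx d)) : False := by
  obtain ⟨x1, x2, x3, x4⟩ := seg_box hp
  obtain ⟨y1, y2, y3, y4⟩ := seg_box hp'
  have i1 : min a.1 b.1 ≤ max c.1 d.1 := by exact_mod_cast x1.trans y2
  have i2 : min c.1 d.1 ≤ max a.1 b.1 := by exact_mod_cast y1.trans x2
  have i3 : min a.2 b.2 ≤ max c.2 d.2 := by exact_mod_cast x3.trans y4
  have i4 : min c.2 d.2 ≤ max a.2 b.2 := by exact_mod_cast y3.trans x4
  have e1 := box_edge hab (x := max (min a.1 b.1) (min c.1 d.1))
    (y := max (min a.2 b.2) (min c.2 d.2)) (le_max_left _ _) (max_le min_le_max i2)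
    (le_max_left _ _) (max_le min_le_max i4)
  have e2 := box_edge hcd (x := max (min a.1 b.1) (min c.1 d.1))
    (y := max (min a.2 b.2) (min c.2 d.2)) (le_max_right _ _) (max_le i1 min_le_max)
    (le_max_right _ _) (max_le i3 min_le_max)
  rcases e1 with e1 | e1 <;> rcases e2 with e2 | e2
  · exact h1 (e1.symm.trans e2)
  · exact h2 (e1.symm.trans e2)
  · exact h3 (e1.symm.trans e2)
  · exact h4 (e1.symm.trans e2)

lemma norm_nb {a b : Z2} (hab : b ∈ nb a) : ‖cx b - cx a‖ = 1 := by
  rw [mem_nb] at hab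
  have h : ‖cx b - cx a‖ ^ 2 = 1 := by
    rw [← Complex.normSq_eq_norm_sq, Complex.normSq_apply]
    rcases hab with h | h | h | h <;> rw [h] <;> simp
  have h0 : 0 ≤ ‖cx b - cx a‖ := norm_nonneg _
  nlinarith

/-- nearest neighbour walks -/
def Wk : Z2 → List Z2 → Prop
  | _, [] => True
  | a, b :: t => b ∈ nb a ∧ Wk b t

lemma point_seg {a c d : Z2} (hcd : d ∈ nb c) (h : cx a ∈ segment ℝ (cx c) (cx d)) :
    a = c ∨ a = d := by
  obtain ⟨y1, y2, y3, y4⟩ := seg_box h
  simp only [cx_re, cx_im] at y1 y2 y3 y4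
  have := box_edge hcd (x := a.1) (y := a.2) (by exact_mod_cast y1) (by exact_mod_cast y2)
    (by exact_mod_cast y3) (by exact_mod_cast y4)
  exact this

lemma cx_inj {a b : Z2} (h : cx a = cx b) : a = b := by
  have h1 := congrArg Complex.re h
  have h2 := congrArg Complex.im h
  simp only [cx_re, cx_im] at h1 h2
  exact Prod.ext (by exact_mod_cast h1) (by exact_mod_cast h2)

/-- every point of a lattice polygon is a vertex or on an edge -/
lemma mem_poly_edge {p : ℂ} (t : List Z2) : ∀ a, Wk a t → p ∈ poly (cx a) (t.map cx) →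
    p = cx (en a t) ∨ ∃ u ∈ a :: t, ∃ v ∈ a :: t, v ∈ nb u ∧ p ∈ segment ℝ (cx u) (cx v) := by
  induction t with
  | nil => intro a _ h; left; simpa [poly] using h
  | cons b t ih =>
    intro a hW h
    rcases h with h | h
    · right
      exact ⟨a, by simp, b, by simp, hW.1, h⟩
    · rcases ih b hW.2 h with h | ⟨u, hu, v, hv, huv, hp⟩
      · left; exact h
      · right
        exact ⟨u, List.mem_cons_of_mem _ hu, v, List.mem_cons_of_mem _ hv, huv, hp⟩

lemma poly_disj (t s : List Z2) (a b : Z2) (ht : Wk a t) (hs : Wk b s)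
    (hdis : ∀ z ∈ a :: t, z ∉ b :: s) {p : ℂ} (hp : p ∈ poly (cx a) (t.map cx))
    (hp' : p ∈ poly (cx b) (s.map cx)) : False := by
  have m1 := en_mem a t
  have m2 := en_mem b s
  rcases mem_poly_edge t a ht hp with h | ⟨u, hu, v, hv, huv, hpu⟩
  · rcases mem_poly_edge s b hs hp' with h' | ⟨u', hu', v', hv', huv', hpu'⟩
    · have := cx_inj (h.symm.trans h')
      exact hdis _ m1 (this ▸ m2)
    · rw [h] at hpu'
      rcases point_seg huv' hpu' with e | e
      · exact hdis _ m1 (e ▸ hu')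
      · exact hdis _ m1 (e ▸ hv')
  · rcases mem_poly_edge s b hs hp' with h' | ⟨u', hu', v', hv', huv', hpu'⟩
    · rw [h'] at hpu
      rcases point_seg huv hpu with e | e
      · exact hdis _ (e ▸ hu) m2
      · exact hdis _ (e ▸ hv) m2
    · refine seg_disj huv huv' ?_ ?_ ?_ ?_ hpu hpu'
      · exact fun e => hdis u hu (e ▸ hu')
      · exact fun e => hdis u hu (e ▸ hv')
      · exact fun e => hdis v hv (e ▸ hu')
      · exact fun e => hdis v hv (e ▸ hv')

/-- **crossing lemma** for lattice walks in a rectangle -/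
theorem cross_rect {x0 x1 y0 y1 : ℤ} (a b : Z2) (t s : List Z2) (ht : Wk a t) (hs : Wk b s)
    (hy : ∀ z ∈ a :: t, y0 ≤ z.2 ∧ z.2 ≤ y1) (hx : ∀ z ∈ b :: s, x0 ≤ z.1 ∧ z.1 ≤ x1)
    (ha : a.1 ≤ x0) (ha' : x1 ≤ (en a t).1) (hb : b.2 ≤ y0) (hb' : y1 ≤ (en b s).2) :
    ∃ z ∈ a :: t, z ∈ b :: s := by
  by_contra hcon
  push Not at hcon
  have j1 := joined_poly (t.map cx) (cx a)
  have j2 := joined_poly (s.map cx) (cx b)
  rw [enc_map] at j1 j2
  set γ := j1.somePath with hγ
  set ω := j2.somePath with hω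
  have hγm : ∀ u, γ u ∈ poly (cx a) (t.map cx) := j1.somePath_mem
  have hωm : ∀ u, ω u ∈ poly (cx b) (s.map cx) := j2.somePath_mem
  have hγe : ∀ u ∈ Icc (0 : ℝ) 1, γ.extend u ∈ poly (cx a) (t.map cx) := by
    intro u hu
    rw [γ.extend_apply hu]
    exact hγm _
  have hωe : ∀ u ∈ Icc (0 : ℝ) 1, ω.extend u ∈ poly (cx b) (s.map cx) := by
    intro u hu
    rw [ω.extend_apply hu]
    exact hωm _
  have c1 : poly (cx a) (t.map cx) ⊆ {z : ℂ | (y0 : ℝ) ≤ z.im ∧ z.im ≤ y1} := by
    apply poly_subset_convex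
    · have : {z : ℂ | (y0 : ℝ) ≤ z.im ∧ z.im ≤ y1} = Complex.im ⁻¹' (Icc (y0 : ℝ) y1) := rfl
      rw [this]
      exact (convex_Icc _ _).linear_preimage Complex.imLm
    · intro z hz
      rw [← List.map_cons] at hz
      obtain ⟨w, hw, rfl⟩ := List.mem_map.1 hz
      have := hy w hw
      exact ⟨by simpa using this.1, by simpa using this.2⟩
  have c2 : poly (cx b) (s.map cx) ⊆ {z : ℂ | (x0 : ℝ) ≤ z.re ∧ z.re ≤ x1} := by
    apply poly_subset_convex
    · have : {z : ℂ | (x0 : ℝ) ≤ z.re ∧ z.re ≤ x1} = Complex.re ⁻¹' (Icc (x0 : ℝ) x1) := rfl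
      rw [this]
      exact (convex_Icc _ _).linear_preimage Complex.reLm
    · intro z hz
      rw [← List.map_cons] at hz
      obtain ⟨w, hw, rfl⟩ := List.mem_map.1 hz
      have := hx w hw
      exact ⟨by simpa using this.1, by simpa using this.2⟩
  obtain ⟨u, hu, v, hv, h0⟩ := square_cross (fun p : ℝ × ℝ => γ.extend p.1 - ω.extend p.2)
    (by
      have h1 := γ.continuous_extend
      have h2 := ω.continuous_extend
      fun_prop) (by
      intro v hv
      have h1 := (c2 (hωe v hv)).1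
      simp only [Path.extend_zero, sub_re, cx_re]
      have h2 : (a.1 : ℝ) ≤ x0 := by exact_mod_cast ha
      linarith) (by
      intro v hv
      have h1 := (c2 (hωe v hv)).2
      simp only [Path.extend_one, sub_re, cx_re]
      have h2 : (x1 : ℝ) ≤ (en a t).1 := by exact_mod_cast ha'
      linarith) (by
      intro u hu
      have h1 := (c1 (hγe u hu)).1
      simp only [Path.extend_zero, sub_im, cx_im]
      have h2 : (b.2 : ℝ) ≤ y0 := by exact_mod_cast hb
      linarith) (by
      intro u hu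
      have h1 := (c1 (hγe u hu)).2
      simp only [Path.extend_one, sub_im, cx_im]
      have h2 : (y1 : ℝ) ≤ (en b s).2 := by exact_mod_cast hb'
      linarith)
  have h3 : γ.extend u = ω.extend v := sub_eq_zero.1 h0
  exact poly_disj t s a b ht hs hcon (hγe u hu) (h3 ▸ hωe v hv)

end Pool.Agent.H96.LE
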