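import Pool.Agent.H96.LE.Top2

/-!
# Disjoint crossings of a lattice annulus keep their cyclic order; closed walks that avoid a
crossing have total winding zero
-/

namespace Pool.Agent.H96.LE

open Set Complex

lemma ratio_slit {z w : Z2} (h : w ∈ nb z) (hz : 1 < ‖cx z‖) : cx w / cx z ∈ slitPlane := by
  have hz0 : cx z ≠ 0 := by
    intro h0
    rw [h0, norm_zero] at hz
    linarith
  have h1 : cx w / cx z - 1 = (cx w - cx z) / cx z := by field_simp
  have h2 : ‖cx w / cx z - 1‖ < 1 := by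
    rw [h1, norm_div, norm_nb h, div_lt_one (by linarith)]
    exact hz
  rw [mem_slitPlane_iff]
  left
  have h3 : |(cx w / cx z - 1).re| ≤ ‖cx w / cx z - 1‖ := abs_re_le_norm _
  have h4 := (abs_lt.1 (lt_of_le_of_lt h3 h2)).1
  simp only [sub_re, one_re] at h4
  linarith

lemma seg_near {u v : ℂ} {p : ℂ} (h : p ∈ segment ℝ u v) (huv : ‖v - u‖ ≤ 1) :
    ‖p - u‖ ≤ 1 ∧ ‖p - v‖ ≤ 1 := by
  obtain ⟨s, t, hs, ht, hst, rfl⟩ := h
  have e1 : s • u + t • v - u = t • (v - u) := by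
    have : s = 1 - t := by linarith
    rw [this]; module
  have e2 : s • u + t • v - v = s • (u - v) := by
    have : t = 1 - s := by linarith
    rw [this]; module
  constructor
  · rw [e1, norm_smul, Real.norm_eq_abs, abs_of_nonneg ht]
    nlinarith [norm_nonneg (v - u)]
  · rw [e2, norm_smul, Real.norm_eq_abs, abs_of_nonneg hs, norm_sub_rev]
    nlinarith [norm_nonneg (v - u)]

lemma P_Wk {D O : Finset Z2} (t : List Z2) : ∀ a, P D O a t → Wk a t := by
  induction t with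
  | nil => intro a _; trivial
  | cons b t ih => intro a h; exact ⟨h.2.1, ih b h.2.2⟩

/-- points on the polygon of a path -/
lemma P_edge {V O : Finset Z2} (t : List Z2) : ∀ a, P V O a t → a ∈ V → Disjoint V O →
    ∀ p ∈ poly (cx a) (t.map cx), ∃ u ∈ a :: t, ∃ v ∈ a :: t, v ∈ nb u ∧ u ∈ V ∧
      (v ∈ V ∨ (v = en a t ∧ v ∈ O)) ∧ p ∈ segment ℝ (cx u) (cx v) := by
  induction t with
  | nil => intro a h ha hd; exact absurd h (Finset.disjoint_left.1 hd ha)
  | cons b t ih =>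
    intro a h ha hd p hp
    rw [P_cons] at h
    rcases hp with hp | hp
    · refine ⟨a, by simp, b, by simp, h.2.1, ha, ?_, hp⟩
      cases t with
      | nil => right; exact ⟨rfl, h.2.2⟩
      | cons c t => left; exact h.2.2.1
    · cases t with
      | nil =>
        simp only [List.map_nil, poly, mem_singleton_iff] at hp
        refine ⟨a, by simp, b, by simp, h.2.1, ha, Or.inr ⟨rfl, h.2.2⟩, ?_⟩
        rw [hp]
        exact right_mem_segment ℝ _ _
      | cons c t =>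
        obtain ⟨u, hu, v, hv, huv, huV, hvV, hpuv⟩ := ih b h.2.2 h.2.2.1 hd p hp
        refine ⟨u, List.mem_cons_of_mem _ hu, v, List.mem_cons_of_mem _ hv, huv, huV, ?_, hpuv⟩
        simpa using hvV

/-- a lattice point of the closed disc cannot be hidden behind an edge outside the disc -/
lemma hidden {R : ℝ} (hR : 1 ≤ R) {u v b : Z2} (huv : v ∈ nb u) (hu : R < ‖cx u‖) (hv : R < ‖cx v‖)
    (hb : ‖cx b‖ ≤ R) {p : ℂ} (hp : p ∈ segment ℝ (cx u) (cx v)) {τ : ℝ} (h0 : 0 ≤ τ) (h1 : τ ≤ 1)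
    (hpb : p = τ * cx b) : False := by
  obtain ⟨s, t, hs, ht, hst, hpst⟩ := hp
  have hsq : ‖p‖ ^ 2 = s * ‖cx u‖ ^ 2 + t * ‖cx v‖ ^ 2 - s * t * ‖cx v - cx u‖ ^ 2 := by
    rw [← hpst]
    rw [← Complex.normSq_eq_norm_sq, ← Complex.normSq_eq_norm_sq, ← Complex.normSq_eq_norm_sq,
      ← Complex.normSq_eq_norm_sq]
    simp only [Complex.normSq_apply, add_re, add_im, Complex.real_smul, mul_re, mul_im, ofReal_re,
      ofReal_im, sub_re, sub_im]
    have : s = 1 - t := by linarith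
    subst this
    ring
  rw [norm_nb huv] at hsq
  have hst4 : s * t ≤ 1 / 4 := by nlinarith [sq_nonneg (s - t)]
  have hpR : R ^ 2 - 1 / 4 ≤ ‖p‖ ^ 2 := by
    have a1 : R ^ 2 ≤ ‖cx u‖ ^ 2 := by nlinarith
    have a2 : R ^ 2 ≤ ‖cx v‖ ^ 2 := by nlinarith
    rw [hsq]
    have : s * R ^ 2 + t * R ^ 2 = R ^ 2 := by rw [← add_mul, hst, one_mul]
    nlinarith
  have hpn : R - 1 / 4 ≤ ‖p‖ := by
    by_contra hlt
    push Not at hlt
    have := norm_nonneg p
    nlinarith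
  have hbp : ‖cx b - p‖ ≤ 1 / 4 := by
    have e1 : cx b - p = ((1 - τ : ℝ) : ℂ) * cx b := by rw [hpb]; push_cast; ring
    rw [e1, norm_mul, Complex.norm_real, Real.norm_eq_abs, abs_of_nonneg (by linarith)]
    have e2 : ‖p‖ = τ * ‖cx b‖ := by
      rw [hpb, norm_mul, Complex.norm_real, Real.norm_eq_abs, abs_of_nonneg h0]
    nlinarith
  have hseg : p ∈ segment ℝ (cx u) (cx v) := ⟨s, t, hs, ht, hst, hpst⟩
  obtain ⟨x1, x2, x3, x4⟩ := seg_box hseg
  have hre : |(cx b - p).re| ≤ 1 / 4 := (abs_re_le_norm _).trans hbp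
  have him : |(cx b - p).im| ≤ 1 / 4 := (abs_im_le_norm _).trans hbp
  simp only [sub_re, sub_im, cx_re, cx_im] at hre him
  rw [abs_le] at hre him
  have i1 : min u.1 v.1 ≤ b.1 := by
    by_contra h
    push Not at h
    have : (b.1 : ℝ) + 1 ≤ ((min u.1 v.1 : ℤ) : ℝ) := by exact_mod_cast h
    linarith [hre.1]
  have i2 : b.1 ≤ max u.1 v.1 := by
    by_contra h
    push Not at h
    have : ((max u.1 v.1 : ℤ) : ℝ) + 1 ≤ (b.1 : ℝ) := by exact_mod_cast h
    linarith [hre.2]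
  have i3 : min u.2 v.2 ≤ b.2 := by
    by_contra h
    push Not at h
    have : (b.2 : ℝ) + 1 ≤ ((min u.2 v.2 : ℤ) : ℝ) := by exact_mod_cast h
    linarith [him.1]
  have i4 : b.2 ≤ max u.2 v.2 := by
    by_contra h
    push Not at h
    have : ((max u.2 v.2 : ℤ) : ℝ) + 1 ≤ (b.2 : ℝ) := by exact_mod_cast h
    linarith [him.2]
  have := box_edge huv i1 i2 i3 i4
  rcases this with e | e
  · have : b = u := e
    rw [this] at hb
    linarith
  · have : b = v := e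
    rw [this] at hb
    linarith

/-- inner end of the extended curve -/
noncomputable def bh (R : ℝ) (b : Z2) : ℂ := ((R / 2 / ‖cx b‖ : ℝ) : ℂ) * cx b

/-- outer end of the extended curve -/
noncomputable def yh (N : ℝ) (y : Z2) : ℂ := ((N / ‖cx y‖ : ℝ) : ℂ) * cx y

/-- the extended curve -/
noncomputable def Kset (R N : ℝ) (b x : Z2) (t : List Z2) : Set ℂ :=
  segment ℝ (bh R b) (cx b) ∪ (segment ℝ (cx b) (cx x) ∪ (poly (cx x) (t.map cx) ∪
    segment ℝ (cx (en x t)) (yh N (en x t))))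

lemma seg_radial {z : ℂ} {c : ℝ} (hc : 0 ≤ c) {p : ℂ} (hp : p ∈ segment ℝ ((c : ℂ) * z) z) :
    ∃ τ : ℝ, 0 ≤ τ ∧ p = τ * z ∧ min c 1 ≤ τ ∧ τ ≤ max c 1 := by
  obtain ⟨s, t, hs, ht, hst, rfl⟩ := hp
  refine ⟨s * c + t, by positivity, ?_, ?_, ?_⟩
  · simp only [Complex.real_smul]; push_cast; ring
  · have h1 := min_le_left c 1
    have h2 := min_le_right c 1
    calc min c 1 = s * min c 1 + t * min c 1 := by rw [← add_mul, hst, one_mul]
      _ ≤ s * c + t * 1 := by gcongr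
      _ = s * c + t := by ring
  · have h1 := le_max_left c 1
    have h2 := le_max_right c 1
    calc s * c + t = s * c + t * 1 := by ring
      _ ≤ s * max c 1 + t * max c 1 := by gcongr
      _ = max c 1 := by rw [← add_mul, hst, one_mul]

section data

variable {R M N : ℝ} {V O : Finset Z2}

lemma radial_in (hR : 10 ≤ R) {b : Z2} (_hbR : ‖cx b‖ ≤ R) (hbR' : R - 1 ≤ ‖cx b‖) {p : ℂ}
    (hp : p ∈ segment ℝ (bh R b) (cx b)) :
    ∃ τ : ℝ, 0 ≤ τ ∧ τ ≤ 1 ∧ p = τ * cx b ∧ R / 2 ≤ ‖p‖ ∧ ‖p‖ ≤ ‖cx b‖ := by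
  have hb0 : 0 < ‖cx b‖ := by linarith
  obtain ⟨τ, h0, h1, h2, h3⟩ := seg_radial (c := R / 2 / ‖cx b‖) (by positivity) hp
  have hc : R / 2 / ‖cx b‖ ≤ 1 := by
    rw [div_le_one hb0]; linarith
  rw [min_eq_left hc] at h2
  rw [max_eq_right hc] at h3
  have hn : ‖p‖ = τ * ‖cx b‖ := by
    rw [h1, norm_mul, Complex.norm_real, Real.norm_eq_abs, abs_of_nonneg h0]
  refine ⟨τ, h0, h3, h1, ?_, ?_⟩
  · rw [hn]
    calc R / 2 = R / 2 / ‖cx b‖ * ‖cx b‖ := by field_simp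
      _ ≤ τ * ‖cx b‖ := by gcongr
  · rw [hn]
    nlinarith

lemma radial_out {y : Z2} (hM : 0 < M) (hy : M ≤ ‖cx y‖) (hN : ‖cx y‖ ≤ N) {p : ℂ}
    (hp : p ∈ segment ℝ (cx y) (yh N y)) :
    ∃ τ : ℝ, 1 ≤ τ ∧ p = τ * cx y ∧ ‖cx y‖ ≤ ‖p‖ ∧ ‖p‖ ≤ N := by
  have hy0 : 0 < ‖cx y‖ := by linarith
  rw [segment_symm] at hp
  obtain ⟨τ, h0, h1, h2, h3⟩ := seg_radial (c := N / ‖cx y‖) (by
    have : 0 < N := by linarith
    positivity) hp
  have hc : 1 ≤ N / ‖cx y‖ := by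
    rw [le_div_iff₀ hy0]; linarith
  rw [min_eq_right hc] at h2
  rw [max_eq_left hc] at h3
  have hn : ‖p‖ = τ * ‖cx y‖ := by
    rw [h1, norm_mul, Complex.norm_real, Real.norm_eq_abs, abs_of_nonneg h0]
  refine ⟨τ, h2, h1, ?_, ?_⟩
  · rw [hn]; nlinarith
  · rw [hn]
    calc τ * ‖cx y‖ ≤ N / ‖cx y‖ * ‖cx y‖ := by gcongr
      _ = N := by field_simp

lemma norm_nb_ge {u v : Z2} (h : v ∈ nb u) : ‖cx u‖ - 1 ≤ ‖cx v‖ ∧ ‖cx v‖ ≤ ‖cx u‖ + 1 := by
  have h1 := norm_nb h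
  have h2 := norm_sub_norm_le (cx v) (cx u)
  have h3 := norm_sub_norm_le (cx u) (cx v)
  rw [norm_sub_rev] at h3
  constructor <;> linarith

lemma seg_norm {u v : Z2} (h : v ∈ nb u) {p : ℂ} (hp : p ∈ segment ℝ (cx u) (cx v)) :
    ‖cx u‖ - 1 ≤ ‖p‖ ∧ ‖cx v‖ - 1 ≤ ‖p‖ ∧ ‖p‖ ≤ max ‖cx u‖ ‖cx v‖ := by
  have h1 := seg_near hp (norm_nb h).le
  have h2 := norm_sub_norm_le (cx u) p
  have h3 := norm_sub_norm_le (cx v) p
  rw [norm_sub_rev] at h2 h3
  refine ⟨by linarith [h1.1], by linarith [h1.2], ?_⟩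
  have hb : segment ℝ (cx u) (cx v) ⊆ Metric.closedBall (0 : ℂ) (max ‖cx u‖ ‖cx v‖) := by
    apply (convex_closedBall _ _).segment_subset <;> simp
  simpa using hb hp

/-- radial segments in the same direction -/
lemma same_dir {z w : ℂ} {σ τ : ℝ} (hσ : 0 < σ) (hτ : 0 < τ) (h : (σ : ℂ) * z = τ * w) :
    ‖z - w‖ = |‖z‖ - ‖w‖| := by
  have h1 : z = ((τ / σ : ℝ) : ℂ) * w := by
    have : (σ : ℂ) ≠ 0 := by exact_mod_cast hσ.ne'
    push_cast
    field_simp
    rw [mul_comm z]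
    exact h
  have hc : 0 < τ / σ := by positivity
  rw [h1]
  have h2 : ((τ / σ : ℝ) : ℂ) * w - w = ((τ / σ - 1 : ℝ) : ℂ) * w := by push_cast; ring
  rw [h2, norm_mul, norm_mul, Complex.norm_real, Complex.norm_real, Real.norm_eq_abs,
    Real.norm_eq_abs, abs_of_pos hc]
  have h3 : τ / σ * ‖w‖ - ‖w‖ = (τ / σ - 1) * ‖w‖ := by ring
  rw [h3, abs_mul, abs_of_nonneg (norm_nonneg w)]

lemma K_disj (hR : 10 ≤ R) (hRM : R + 10 ≤ M) (hMN : M + 1 ≤ N)
    (hV : ∀ z ∈ V, R < ‖cx z‖ ∧ ‖cx z‖ < M) (hO : ∀ z ∈ O, M ≤ ‖cx z‖) (hVO : Disjoint V O)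
    {x x' b b' : Z2} {t t' : List Z2} (hx : x ∈ V) (hx' : x' ∈ V) (hP : P V O x t)
    (hP' : P V O x' t') (hb : b ∈ nb x) (hb' : b' ∈ nb x') (hbR : ‖cx b‖ ≤ R)
    (hbR' : ‖cx b'‖ ≤ R) (hdis : ∀ z ∈ x :: t, z ∉ x' :: t') (hfar : 6 ≤ ‖cx b - cx b'‖)
    (hfar2 : 4 ≤ ‖cx (en x t) - cx (en x' t')‖) {p : ℂ} (hp : p ∈ Kset R N b x t)
    (hp' : p ∈ Kset R N b' x' t') : False := by
  have hyO := P_en hP
  have hyO' := P_en hP'
  have hxV := hV x hx
  have hxV' := hV x' hx'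
  have hbl : R - 1 ≤ ‖cx b‖ := by linarith [(norm_nb_ge hb).1]
  have hbl' : R - 1 ≤ ‖cx b'‖ := by linarith [(norm_nb_ge hb').1]
  have hM0 : 0 < M := by linarith
  -- bounds on end points
  have hyup : ∀ (a : Z2) (s : List Z2), a ∈ V → P V O a s → ‖cx (en a s)‖ < M + 1 := by
    intro a s
    induction s generalizing a with
    | nil => intro ha h; exact absurd h (Finset.disjoint_left.1 hVO ha)
    | cons c s ih =>
      intro ha h
      cases s with
      | nil =>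
        have h1 := (norm_nb_ge h.2.1).2
        have h2 := (hV a ha).2
        simp only [en_cons, en_nil]
        linarith
      | cons d s => exact ih c h.2.2.1 h.2.2
  have hy1 := hyup x t hx hP
  have hy1' := hyup x' t' hx' hP'
  have hyM := hO _ hyO
  have hyM' := hO _ hyO'
  -- generic facts
  have far_bx : ∀ {c c' z' : Z2}, c' ∈ nb z' → 6 ≤ ‖cx c - cx c'‖ → 5 ≤ ‖cx c - cx z'‖ := by
    intro c c' z' h1 h2
    have h3 := norm_nb h1
    have h4 : cx c - cx c' = (cx c - cx z') - (cx c' - cx z') := by ring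
    have h5 := norm_sub_le (cx c - cx z') (cx c' - cx z')
    rw [← h4, h3] at h5
    linarith
  -- A versus E'
  have AE : ∀ {c c' z' : Z2} {q : ℂ}, ‖cx c‖ ≤ R → R - 1 ≤ ‖cx c‖ → R - 1 ≤ ‖cx c'‖ →
      c' ∈ nb z' → 6 ≤ ‖cx c - cx c'‖ → q ∈ segment ℝ (bh R c) (cx c) →
      q ∈ segment ℝ (cx c') (cx z') → False := by
    intro c c' z' q h1 h2 h3 h4 h5 h6 h7
    obtain ⟨τ, k0, k1, k2, k3, k4⟩ := radial_in hR h1 h2 h6
    have k5 := seg_near h7 (by rw [norm_sub_rev]; exact (norm_nb h4).le)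
    have k6 : ‖q‖ = τ * ‖cx c‖ := by
      rw [k2, norm_mul, Complex.norm_real, Real.norm_eq_abs, abs_of_nonneg k0]
    have k7 : ‖cx c - q‖ = ‖cx c‖ - ‖q‖ := by
      have : cx c - q = ((1 - τ : ℝ) : ℂ) * cx c := by rw [k2]; push_cast; ring
      rw [this, norm_mul, Complex.norm_real, Real.norm_eq_abs, abs_of_nonneg (by linarith), k6]
      ring
    have k8 := norm_sub_norm_le (cx c') q
    rw [norm_sub_rev] at k8
    have k9 : ‖cx c - cx c'‖ ≤ ‖cx c - q‖ + ‖q - cx c'‖ := by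
      have : cx c - cx c' = (cx c - q) + (q - cx c') := by ring
      rw [this]; exact norm_add_le _ _
    linarith [k5.1]
  -- A versus edges of a path
  have AP : ∀ {c z' : Z2} {s : List Z2} {q : ℂ}, ‖cx c‖ ≤ R → R - 1 ≤ ‖cx c‖ → z' ∈ V →
      P V O z' s → q ∈ segment ℝ (bh R c) (cx c) → q ∈ poly (cx z') (s.map cx) → False := by
    intro c z' s q h1 h2 h3 h4 h5 h6
    obtain ⟨τ, k0, k1, k2, k3, k4⟩ := radial_in hR h1 h2 h5
    obtain ⟨u, hu, v, hv, huv, huV, hvV, hpuv⟩ := P_edge s z' h4 h3 hVO q h6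
    rcases hvV with hvV | ⟨_, hvO⟩
    · exact hidden (by linarith) huv (hV u huV).1 (hV v hvV).1 h1 hpuv k0 k1 k2
    · have := (seg_norm huv hpuv).2.1
      have := hO v hvO
      linarith
  -- F versus edges of a path
  have FP : ∀ {y z' : Z2} {s : List Z2} {q : ℂ}, M ≤ ‖cx y‖ → ‖cx y‖ < M + 1 → z' ∈ V →
      P V O z' s → 4 ≤ ‖cx y - cx (en z' s)‖ →
      q ∈ segment ℝ (cx y) (yh N y) → q ∈ poly (cx z') (s.map cx) → False := by
    intro y z' s q h1 h2 h3 h4 h5 h6 h7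
    obtain ⟨τ, k0, k1, k2, k3⟩ := radial_out hM0 h1 (by linarith) h6
    obtain ⟨u, hu, v, hv, huv, huV, hvV, hpuv⟩ := P_edge s z' h4 h3 hVO q h7
    rcases hvV with hvV | ⟨hve, hvO⟩
    · have e1 := (seg_norm huv hpuv).2.2
      have e2 := (hV u huV).2
      have e3 := (hV v hvV).2
      have := max_lt e2 e3
      linarith
    · have e1 := (seg_norm huv hpuv).2.2
      have e2 := (hV u huV).2
      have e3 := hyup z' s h3 h4
      rw [← hve] at e3 h5
      have e4 : ‖q‖ < M + 1 := lt_of_le_of_lt e1 (max_lt (by linarith) e3)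
      have e5 : ‖q‖ = τ * ‖cx y‖ := by
        rw [k1, norm_mul, Complex.norm_real, Real.norm_eq_abs, abs_of_nonneg (by linarith)]
      have e6 : ‖q - cx y‖ = ‖q‖ - ‖cx y‖ := by
        have : q - cx y = ((τ - 1 : ℝ) : ℂ) * cx y := by rw [k1]; push_cast; ring
        rw [this, norm_mul, Complex.norm_real, Real.norm_eq_abs, abs_of_nonneg (by linarith), e5]
        ring
      have e7 := (seg_near hpuv (norm_nb huv).le).2
      have e8 : ‖cx y - cx v‖ ≤ ‖q - cx y‖ + ‖q - cx v‖ := by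
        have : cx y - cx v = -(q - cx y) + (q - cx v) := by ring
        rw [this]
        exact (norm_add_le _ _).trans (by rw [norm_neg])
      linarith
  have EP : ∀ {c z z' : Z2} {s : List Z2} {q : ℂ}, ‖cx c‖ ≤ R → c ∈ nb z → z ∉ z' :: s → z' ∈ V →
      P V O z' s → q ∈ segment ℝ (cx c) (cx z) → q ∈ poly (cx z') (s.map cx) → False := by
    intro c z z' s q h1 h2 h3 h4 h5 h6 h7
    obtain ⟨u, hu, v, hv, huv, huV, hvV, hpuv⟩ := P_edge s z' h5 h4 hVO q h7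
    have hcu : c ≠ u := fun e => by have := (hV u huV).1; rw [e] at h1; linarith
    have hcv : c ≠ v := by
      intro e
      rw [e] at h1
      rcases hvV with hvV | ⟨_, hvO⟩
      · have := (hV v hvV).1; linarith
      · have := hO v hvO; linarith
    have hzu : z ≠ u := fun e => h3 (e ▸ hu)
    have hzv : z ≠ v := fun e => h3 (e ▸ hv)
    exact seg_disj (nb_symm.1 h2) huv hcu hcv hzu hzv h6 hpuv
  have AF : ∀ {c y : Z2} {q : ℂ}, ‖cx c‖ ≤ R → R - 1 ≤ ‖cx c‖ → M ≤ ‖cx y‖ → ‖cx y‖ < M + 1 →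
      q ∈ segment ℝ (bh R c) (cx c) → q ∈ segment ℝ (cx y) (yh N y) → False := by
    intro c y q h1 h2 h3 h4 h5 h6
    obtain ⟨τ, k0, k1, k2, k3, k4⟩ := radial_in hR h1 h2 h5
    obtain ⟨σ, l0, l1, l2, l3⟩ := radial_out hM0 h3 (by linarith) h6
    linarith
  have EF : ∀ {c z y : Z2} {q : ℂ}, ‖cx c‖ ≤ R → c ∈ nb z → M ≤ ‖cx y‖ → ‖cx y‖ < M + 1 →
      q ∈ segment ℝ (cx c) (cx z) → q ∈ segment ℝ (cx y) (yh N y) → False := by
    intro c z y q h1 h2 h3 h4 h5 h6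
    obtain ⟨σ, l0, l1, l2, l3⟩ := radial_out hM0 h3 (by linarith) h6
    have e1 := (seg_norm (nb_symm.1 h2) h5).2.2
    have e2 := (norm_nb_ge (nb_symm.1 h2)).2
    have : max ‖cx c‖ ‖cx z‖ ≤ R + 1 := max_le (by linarith) (by linarith)
    linarith
  have hxx' : x ∉ x' :: t' := hdis x (by simp)
  have hx'x : x' ∉ x :: t := fun h => hdis x' h (by simp)
  have hfar' : 6 ≤ ‖cx b' - cx b‖ := by rw [norm_sub_rev]; exact hfar
  have hfar2' : 4 ≤ ‖cx (en x' t') - cx (en x t)‖ := by rw [norm_sub_rev]; exact hfar2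
  rcases hp with hp | hp | hp | hp
  · rcases hp' with hp' | hp' | hp' | hp'
    · obtain ⟨τ, k0, k1, k2, k3, k4⟩ := radial_in hR hbR hbl hp
      obtain ⟨σ, l0, l1, l2, l3, l4⟩ := radial_in hR hbR' hbl' hp'
      have hτ : 0 < τ := by
        rcases k0.lt_or_eq with h | h
        · exact h
        · rw [k2, ← h] at k3; simp at k3; linarith
      have hσ : 0 < σ := by
        rcases l0.lt_or_eq with h | h
        · exact h
        · rw [l2, ← h] at l3; simp at l3; linarith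
      have := same_dir hτ hσ (k2.symm.trans l2)
      rw [this] at hfar
      have : |‖cx b‖ - ‖cx b'‖| ≤ 1 := by rw [abs_le]; constructor <;> linarith
      linarith
    · exact AE hbR hbl hbl' hb' hfar hp hp'
    · exact AP hbR hbl hx' hP' hp hp'
    · exact AF hbR hbl hyM' hy1' hp hp'
  · rcases hp' with hp' | hp' | hp' | hp'
    · exact AE hbR' hbl' hbl hb hfar' hp' hp
    · have f1 := far_bx hb' hfar
      have f2 := far_bx hb hfar'
      refine seg_disj (nb_symm.1 hb) (nb_symm.1 hb') ?_ ?_ ?_ ?_ hp hp'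
      · intro e; rw [e, sub_self, norm_zero] at hfar; linarith
      · intro e; rw [e, sub_self, norm_zero] at f1; linarith
      · intro e; rw [← e, sub_self, norm_zero] at f2; linarith
      · intro e; exact hxx' (by rw [e]; simp)
    · exact EP hbR hb hxx' hx' hP' hp hp'
    · exact EF hbR hb hyM' hy1' hp hp'
  · rcases hp' with hp' | hp' | hp' | hp'
    · exact AP hbR' hbl' hx hP hp' hp
    · exact EP hbR' hb' hx'x hx hP hp' hp
    · exact poly_disj t t' x x' (P_Wk t x hP) (P_Wk t' x' hP') hdis hp hp'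
    · exact FP hyM' hy1' hx hP hfar2' hp' hp
  · rcases hp' with hp' | hp' | hp' | hp'
    · exact AF hbR' hbl' hyM hy1 hp' hp
    · exact EF hbR' hb' hyM hy1 hp' hp
    · exact FP hyM hy1 hx' hP' hfar2 hp hp'
    · obtain ⟨τ, k0, k1, k2, k3⟩ := radial_out hM0 hyM (by linarith) hp
      obtain ⟨σ, l0, l1, l2, l3⟩ := radial_out hM0 hyM' (by linarith) hp'
      have := same_dir (by linarith) (by linarith) (k1.symm.trans l1)
      rw [this] at hfar2
      have : |‖cx (en x t)‖ - ‖cx (en x' t')‖| ≤ 1 := by rw [abs_le]; constructor <;> linarith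
      linarith

end data

end Pool.Agent.H96.LE
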