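import Pool.Agent.H96.LE.Top3

/-!
# Order of disjoint crossings, winding of closed walks
-/

namespace Pool.Agent.H96.LE

open Set Complex

section data

variable {R M N : ℝ} {V O : Finset Z2}

lemma en_upper (hV : ∀ z ∈ V, R < ‖cx z‖ ∧ ‖cx z‖ < M) (hVO : Disjoint V O) :
    ∀ (s : List Z2) (a : Z2), a ∈ V → P V O a s → ‖cx (en a s)‖ < M + 1 := by
  intro s
  induction s with
  | nil => intro a ha h; exact absurd h (Finset.disjoint_left.1 hVO ha)
  | cons c s ih =>
    intro a ha h
    cases s with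
    | nil =>
      have h1 := (norm_nb_ge h.2.1).2
      have h2 := (hV a ha).2
      simp only [en_cons, en_nil]
      linarith
    | cons d s => exact ih c h.2.2.1 h.2.2

lemma P_good (hR : 1 ≤ R) (hM : 0 < M) (hV : ∀ z ∈ V, R < ‖cx z‖ ∧ ‖cx z‖ < M)
    (hO : ∀ z ∈ O, M ≤ ‖cx z‖) : ∀ (s : List Z2) (a : Z2), P V O a s → good (cx a) (s.map cx) := by
  intro s
  induction s with
  | nil =>
    intro a h
    have := hO a h
    intro h0
    rw [h0, norm_zero] at this
    linarith
  | cons c s ih =>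
    intro a h
    have h1 := (hV a h.1).1
    refine ⟨?_, ratio_slit h.2.1 (by linarith), ih c h.2.2⟩
    intro h0
    rw [h0, norm_zero] at h1
    linarith

lemma log_real_im {c : ℝ} (hc : 0 < c) : (log (c : ℂ)).im = 0 := by
  rw [log_im, arg_ofReal_of_nonneg hc.le]

/-- lift of the extended curve to the logarithmic plane -/
lemma joined_K (hR : 10 ≤ R) (hRM : R + 10 ≤ M) (hMN : M + 1 ≤ N)
    (hV : ∀ z ∈ V, R < ‖cx z‖ ∧ ‖cx z‖ < M) (hO : ∀ z ∈ O, M ≤ ‖cx z‖) (hVO : Disjoint V O)
    {x b : Z2} {t : List Z2} (hx : x ∈ V) (hP : P V O x t)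
    (hb : b ∈ nb x) {β : ℝ} (hβ : cx b = ‖cx b‖ * exp (β * I)) :
    ∃ l0 l1 : ℂ, JoinedIn (exp ⁻¹' (Kset R N b x t)) l0 l1 ∧ l0.re = Real.log (R / 2) ∧
      l1.re = Real.log N ∧ l0.im = β ∧ l1.im = β + arg (cx x / cx b) + wind x t := by
  have hxV := hV x hx
  have hbl : R - 1 ≤ ‖cx b‖ := by linarith [(norm_nb_ge hb).1]
  have hb0 : 0 < ‖cx b‖ := by linarith
  have hbne : cx b ≠ 0 := norm_pos_iff.1 hb0
  have hyO := P_en hP
  have hyM := hO _ hyO
  have hyu := en_upper hV hVO t x hx hP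
  have hy0 : 0 < ‖cx (en x t)‖ := by linarith
  have hyne : cx (en x t) ≠ 0 := norm_pos_iff.1 hy0
  have hN0 : 0 < N := by linarith
  set l0 : ℂ := (Real.log (R / 2) : ℝ) + β * I with hl0
  have e0 : exp l0 = bh R b := by
    have h9 : bh R b = ((R / 2 / ‖cx b‖ : ℝ) : ℂ) * (‖cx b‖ * exp (β * I)) := by
      rw [← hβ]; rfl
    rw [hl0, exp_add, ← ofReal_exp, Real.exp_log (by linarith), h9]
    have : (‖cx b‖ : ℂ) ≠ 0 := by exact_mod_cast hb0.ne'
    push_cast
    field_simp
  have hbh0 : bh R b ≠ 0 := by rw [← e0]; exact exp_ne_zero _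
  have ratio1 : cx b / bh R b = ((‖cx b‖ / (R / 2) : ℝ) : ℂ) := by
    unfold bh
    have h1 : (‖cx b‖ : ℂ) ≠ 0 := by exact_mod_cast hb0.ne'
    have h2 : (R : ℂ) ≠ 0 := by
      have : R ≠ 0 := by linarith
      exact_mod_cast this
    push_cast
    field_simp
  have ratio2 : yh N (en x t) / cx (en x t) = ((N / ‖cx (en x t)‖ : ℝ) : ℂ) := by
    unfold yh
    field_simp
  have pos1 : 0 < ‖cx b‖ / (R / 2) := by
    have : 0 < R / 2 := by linarith
    positivity
  have pos2 : 0 < N / ‖cx (en x t)‖ := by positivity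
  -- pieces
  have j1 := joined_log [cx b] (bh R b) ⟨hbh0, by rw [ratio1]; exact ofReal_mem_slitPlane.2 pos1,
    hbne⟩ l0 e0
  simp only [poly, lsum, add_zero] at j1
  have e1 : exp (l0 + log (cx b / bh R b)) = cx b := by
    rw [exp_add, e0, exp_log (by rw [ratio1]; exact_mod_cast pos1.ne')]
    field_simp
  have hxb : cx x / cx b ∈ slitPlane := ratio_slit (nb_symm.1 hb) (by linarith)
  have hxne : cx x ≠ 0 := norm_pos_iff.1 (by linarith)
  have j2 := joined_log [cx x] (cx b) ⟨hbne, hxb, hxne⟩ _ e1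
  simp only [poly, lsum, add_zero] at j2
  have e2 : exp (l0 + log (cx b / bh R b) + log (cx x / cx b)) = cx x := by
    rw [exp_add, e1, exp_log (slitPlane_ne_zero hxb)]
    field_simp
  have j3 := joined_log (t.map cx) (cx x) (P_good (by linarith) (by linarith) hV hO t x hP) _ e2
  have e3 : exp (l0 + log (cx b / bh R b) + log (cx x / cx b) + lsum (cx x) (t.map cx)) =
      cx (en x t) := by
    have hgen : ∀ (s : List ℂ) (a : ℂ) (l : ℂ), good a s → exp l = a → exp (l + lsum a s) = enc a s := by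
      intro s
      induction s with
      | nil => intro a l _ h; simpa [lsum, enc] using h
      | cons c s ih =>
        intro a l hg h
        rw [lsum, ← add_assoc]
        apply ih c _ hg.2.2
        rw [exp_add, h, exp_log (slitPlane_ne_zero hg.2.1)]
        have := hg.1
        field_simp
    rw [hgen _ _ _ (P_good (by linarith) (by linarith) hV hO t x hP) e2, enc_map]
  have hyh0 : yh N (en x t) ≠ 0 := by
    have h3 : yh N (en x t) = ((N / ‖cx (en x t)‖ : ℝ) : ℂ) * cx (en x t) := rfl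
    rw [h3]
    exact mul_ne_zero (by exact_mod_cast pos2.ne') hyne
  have j4 := joined_log [yh N (en x t)] (cx (en x t)) ⟨hyne, by
    rw [ratio2]; exact ofReal_mem_slitPlane.2 pos2, hyh0⟩ _ e3
  simp only [poly, lsum, add_zero] at j4
  set l1 : ℂ := l0 + log (cx b / bh R b) + log (cx x / cx b) + lsum (cx x) (t.map cx) +
    log (yh N (en x t) / cx (en x t)) with hl1
  have e4 : exp l1 = yh N (en x t) := by
    rw [hl1, exp_add, e3, exp_log (by rw [ratio2]; exact_mod_cast pos2.ne')]
    field_simp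
  have hs2 : ∀ (A : Set ℂ) (u v : ℂ), A = segment ℝ u v → (segment ℝ u v ∪ {v}) ⊆ A := by
    rintro A u v rfl
    apply union_subset le_rfl
    rw [singleton_subset_iff]
    exact right_mem_segment ℝ _ _
  refine ⟨l0, l1, ?_, ?_, ?_, ?_, ?_⟩
  · refine JoinedIn.trans (y := l0 + log (cx b / bh R b)) (j1.mono (preimage_mono ?_)) ?_
    · refine (hs2 _ _ _ rfl).trans ?_
      exact subset_union_left
    refine JoinedIn.trans (y := l0 + log (cx b / bh R b) + log (cx x / cx b))
      (j2.mono (preimage_mono ?_)) ?_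
    · refine (hs2 _ _ _ rfl).trans ?_
      exact (subset_union_left.trans subset_union_right)
    refine JoinedIn.trans (j3.mono (preimage_mono ?_)) (j4.mono (preimage_mono ?_))
    · exact (subset_union_left.trans (subset_union_right.trans subset_union_right))
    · refine (hs2 _ _ _ rfl).trans ?_
      exact (subset_union_right.trans (subset_union_right.trans subset_union_right))
  · rw [hl0]
    simp
  · have h1 : Real.exp l1.re = N := by
      rw [← norm_exp, e4]
      unfold yh
      rw [norm_mul, Complex.norm_real, Real.norm_eq_abs, abs_of_pos pos2]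
      field_simp
    rw [← h1, Real.log_exp]
  · rw [hl0]
    simp
  · rw [hl1]
    simp only [add_im]
    rw [ratio1, ratio2, log_real_im pos1, log_real_im pos2, lsum_im, log_im, hl0]
    simp

lemma K_norm (hR : 10 ≤ R) (hRM : R + 10 ≤ M) (hMN : M + 1 ≤ N)
    (hV : ∀ z ∈ V, R < ‖cx z‖ ∧ ‖cx z‖ < M) (hO : ∀ z ∈ O, M ≤ ‖cx z‖) (hVO : Disjoint V O)
    {x b : Z2} {t : List Z2} (hx : x ∈ V) (hP : P V O x t)
    (hb : b ∈ nb x) (hbR : ‖cx b‖ ≤ R) {p : ℂ} (hp : p ∈ Kset R N b x t) :
    R / 2 ≤ ‖p‖ ∧ ‖p‖ ≤ N := by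
  have hxV := hV x hx
  have hbl : R - 1 ≤ ‖cx b‖ := by linarith [(norm_nb_ge hb).1]
  have hyM := hO _ (P_en hP)
  have hyu := en_upper hV hVO t x hx hP
  rcases hp with hp | hp | hp | hp
  · obtain ⟨τ, k0, k1, k2, k3, k4⟩ := radial_in hR hbR hbl hp
    exact ⟨k3, by linarith⟩
  · have e := seg_norm (nb_symm.1 hb) hp
    refine ⟨by linarith [e.2.1], ?_⟩
    have e2 := (norm_nb_ge (nb_symm.1 hb)).2
    have : max ‖cx b‖ ‖cx x‖ ≤ R + 1 := max_le (by linarith) (by linarith)
    linarith [e.2.2]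
  · obtain ⟨u, hu, v, hv, huv, huV, hvV, hpuv⟩ := P_edge t x hP hx hVO p hp
    have e := seg_norm huv hpuv
    have e2 := hV u huV
    refine ⟨by linarith [e.1], ?_⟩
    have e3 : ‖cx v‖ ≤ M + 1 := by linarith [(norm_nb_ge huv).2]
    have := max_le (by linarith [e2.2] : ‖cx u‖ ≤ M + 1) e3
    linarith [e.2.2]
  · obtain ⟨τ, k0, k1, k2, k3⟩ := radial_out (by linarith) hyM (by linarith) hp
    exact ⟨by linarith, k3⟩

/-- **order of disjoint crossings** -/
theorem paths_order (hR : 10 ≤ R) (hRM : R + 10 ≤ M)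
    (hV : ∀ z ∈ V, R < ‖cx z‖ ∧ ‖cx z‖ < M) (hO : ∀ z ∈ O, M ≤ ‖cx z‖) (hVO : Disjoint V O)
    {x x' b b' : Z2} {t t' : List Z2} (hx : x ∈ V) (hx' : x' ∈ V) (hP : P V O x t)
    (hP' : P V O x' t') (hb : b ∈ nb x) (hb' : b' ∈ nb x') (hbR : ‖cx b‖ ≤ R)
    (hbR' : ‖cx b'‖ ≤ R) (hdis : ∀ z ∈ x :: t, z ∉ x' :: t') (hfar : 6 ≤ ‖cx b - cx b'‖)
    (hfar2 : 4 ≤ ‖cx (en x t) - cx (en x' t')‖) {β β' : ℝ}
    (hβ : cx b = ‖cx b‖ * exp (β * I)) (hβ' : cx b' = ‖cx b'‖ * exp (β' * I)) (hlt : β < β') :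
    β + arg (cx x / cx b) + wind x t < β' + arg (cx x' / cx b') + wind x' t' := by
  have hMN : M + 1 ≤ M + 1 := le_rfl
  obtain ⟨l0, l1, j, r0, r1, i0, i1⟩ := joined_K hR hRM hMN hV hO hVO hx hP hb hβ
  obtain ⟨m0, m1, j', r0', r1', i0', i1'⟩ := joined_K hR hRM hMN hV hO hVO hx' hP' hb' hβ'
  set f := j.somePath with hf
  set g := j'.somePath with hg
  have hfm : ∀ u ∈ Icc (0 : ℝ) 1, exp (f.extend u) ∈ Kset R (M + 1) b x t := by
    intro u hu
    rw [f.extend_apply hu]
    exact j.somePath_mem _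
  have hgm : ∀ u ∈ Icc (0 : ℝ) 1, exp (g.extend u) ∈ Kset R (M + 1) b' x' t' := by
    intro u hu
    rw [g.extend_apply hu]
    exact j'.somePath_mem _
  have hlogs : ∀ (l : ℂ), R / 2 ≤ ‖exp l‖ ∧ ‖exp l‖ ≤ M + 1 →
      Real.log (R / 2) ≤ l.re ∧ l.re ≤ Real.log (M + 1) := by
    intro l hl
    rw [norm_exp] at hl
    constructor
    · rw [Real.log_le_iff_le_exp (by linarith)]; exact hl.1
    · rw [Real.le_log_iff_exp_le (by linarith)]; exact hl.2
  have h := strip_order (fun u => f.extend u) (fun u => g.extend u) f.continuous_extend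
    g.continuous_extend (Real.log (R / 2)) (Real.log (M + 1))
    (by simpa using r0) (by simpa using r0') (by simpa using r1) (by simpa using r1')
    (fun u hu => hlogs _ (K_norm hR hRM hMN hV hO hVO hx hP hb hbR (hfm u hu)))
    (fun u hu => hlogs _ (K_norm hR hRM hMN hV hO hVO hx' hP' hb' hbR' (hgm u hu)))
    (by
      intro s hs u hu heq
      have e1 := hfm s hs
      have e2 := hgm u hu
      rw [heq] at e1
      exact K_disj hR hRM hMN hV hO hVO hx hx' hP hP' hb hb' hbR hbR' hdis hfar hfar2 e1 e2)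
    (by simp only [Path.extend_zero]; rw [i0, i0']; exact hlt)
  simp only [Path.extend_one] at h
  rw [i1, i1'] at h
  exact h

/-- logarithmic sum seen from `p` -/
noncomputable def lsumAt (p : ℂ) : Z2 → List Z2 → ℂ
  | _, [] => 0
  | a, b :: t => log ((cx b - p) / (cx a - p)) + lsumAt p b t

lemma ratio_slit_of_notMem {a b p : ℂ} (hp : p ∉ segment ℝ a b) : (b - p) / (a - p) ∈ slitPlane := by
  have ha : a - p ≠ 0 := by
    intro h
    apply hp
    rw [← sub_eq_zero.1 h]
    exact left_mem_segment ℝ _ _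
  rw [mem_slitPlane_iff_not_le_zero]
  intro hle
  rw [Complex.le_def] at hle
  simp only [zero_re, zero_im] at hle
  set c : ℝ := -((b - p) / (a - p)).re with hc
  have hc0 : 0 ≤ c := by rw [hc]; linarith [hle.1]
  have e1 : (b - p) / (a - p) = ((-c : ℝ) : ℂ) := by
    apply Complex.ext
    · rw [ofReal_re, hc]; ring
    · rw [ofReal_im]; exact hle.2
  have e2 : b - p = ((-c : ℝ) : ℂ) * (a - p) := by
    rw [← e1]; field_simp
  apply hp
  have h1c : (0 : ℝ) < 1 + c := by linarith
  refine ⟨c / (1 + c), 1 / (1 + c), by positivity, by positivity, by field_simp; ring, ?_⟩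
  simp only [Complex.real_smul]
  have h1c' : (1 + (c : ℂ)) ≠ 0 := by exact_mod_cast h1c.ne'
  push_cast at e2 ⊢
  field_simp
  linear_combination e2

/-- the winding seen from a moving point is constant -/
lemma lsumAt_const {z : Z2} {s : List Z2} {p0 p1 : ℂ}
    (hcl : en z s = z)
    (hj : JoinedIn {p : ℂ | p ∉ poly (cx z) (s.map cx)} p0 p1) :
    lsumAt p0 z s = lsumAt p1 z s := by
  set f := hj.somePath with hf
  have hfm : ∀ u ∈ Icc (0 : ℝ) 1, f.extend u ∉ poly (cx z) (s.map cx) := by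
    intro u hu
    rw [f.extend_apply hu]
    exact hj.somePath_mem _
  have hcont : ∀ (s : List Z2) (z : Z2), (∀ u ∈ Icc (0 : ℝ) 1, f.extend u ∉ poly (cx z) (s.map cx)) →
      ContinuousOn (fun u : ℝ => lsumAt (f.extend u) z s) (Icc 0 1) := by
    intro s
    induction s with
    | nil => intro z _; exact continuousOn_const
    | cons b s ih =>
      intro z h
      have h1 : ∀ u ∈ Icc (0 : ℝ) 1, f.extend u ∉ segment ℝ (cx z) (cx b) :=
        fun u hu hh => h u hu (Or.inl hh)
      have h2 := ih b (fun u hu hh => h u hu (Or.inr hh))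
      apply ContinuousOn.add _ h2
      apply ContinuousOn.clog
      · apply ContinuousOn.div
        · exact (continuous_const.sub f.continuous_extend).continuousOn
        · exact (continuous_const.sub f.continuous_extend).continuousOn
        · intro u hu h0
          apply h1 u hu
          rw [← sub_eq_zero.1 h0]
          exact left_mem_segment ℝ _ _
      · intro u hu
        exact ratio_slit_of_notMem (h1 u hu)
  have hexp : ∀ (s : List Z2) (z : Z2) (p : ℂ), p ∉ poly (cx z) (s.map cx) →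
      exp (lsumAt p z s) * (cx z - p) = cx (en z s) - p := by
    intro s
    induction s with
    | nil => intro z p _; simp [lsumAt]
    | cons b s ih =>
      intro z p hp
      have h1 : p ∉ segment ℝ (cx z) (cx b) := fun hh => hp (Or.inl hh)
      have h2 : p ∉ poly (cx b) (s.map cx) := fun hh => hp (Or.inr hh)
      have h3 := ih b p h2
      have h4 := ratio_slit_of_notMem h1
      have h5 : cx z - p ≠ 0 := by
        intro h0
        apply h1
        rw [← sub_eq_zero.1 h0]
        exact left_mem_segment ℝ _ _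
      simp only [lsumAt, en_cons]
      rw [exp_add, exp_log (slitPlane_ne_zero h4), ← h3]
      field_simp
  have h := const_of_exp_one (g := fun u : ℝ => lsumAt (f.extend u) z s) (hcont s z hfm) (by
    intro u hu
    have h1 := hexp s z _ (hfm u hu)
    rw [hcl] at h1
    have h5 : cx z - f.extend u ≠ 0 := by
      intro h0
      apply hfm u hu
      rw [← sub_eq_zero.1 h0]
      exact left_mem_poly _ _
    exact mul_right_cancel₀ h5 (by rw [h1, one_mul]))
  simp only [Path.extend_zero, Path.extend_one] at h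
  exact h.symm

lemma lsumAt_zero (s : List Z2) : ∀ z, (lsumAt 0 z s).im = wind z s := by
  induction s with
  | nil => intro z; rfl
  | cons b s ih => intro z; simp [lsumAt, ih, log_im]

lemma lsumAt_far (s : List Z2) (B : ℝ) : ∀ (z : Z2) (p : ℂ), Wk z s → (∀ w ∈ z :: s, ‖cx w‖ ≤ B) →
    B + 2 ≤ ‖p‖ → ‖lsumAt p z s‖ ≤ s.length * (2 / (‖p‖ - B)) := by
  induction s with
  | nil => intro z p _ _ _; simp [lsumAt]
  | cons b s ih =>
    intro z p hW hB hp
    have h1 := ih b p hW.2 (fun w hw => hB w (List.mem_cons_of_mem _ hw)) hp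
    have hz := hB z (by simp)
    have h2 : ‖p‖ - B ≤ ‖cx z - p‖ := by
      have := norm_sub_norm_le p (cx z)
      rw [norm_sub_rev] at this
      linarith
    have h3 : 0 < ‖p‖ - B := by linarith
    have hne : cx z - p ≠ 0 := norm_pos_iff.1 (by linarith)
    have h4 : (cx b - p) / (cx z - p) = 1 + (cx b - cx z) / (cx z - p) := by
      field_simp; ring
    have h5 : ‖(cx b - cx z) / (cx z - p)‖ ≤ 1 / (‖p‖ - B) := by
      rw [norm_div, norm_nb hW.1]
      gcongr
    have h6 : 1 / (‖p‖ - B) ≤ 1 / 2 := by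
      apply one_div_le_one_div_of_le <;> linarith
    have h7 : ‖log ((cx b - p) / (cx z - p))‖ ≤ 2 * (1 / (‖p‖ - B)) := by
      rw [h4]
      have h8 := Complex.norm_log_one_add_half_le_self (z := (cx b - cx z) / (cx z - p)) (by linarith)
      calc _ ≤ (3 / 2) * ‖(cx b - cx z) / (cx z - p)‖ := h8
        _ ≤ (3 / 2) * (1 / (‖p‖ - B)) := by gcongr
        _ ≤ 2 * (1 / (‖p‖ - B)) := by
          have : 0 < 1 / (‖p‖ - B) := by positivity
          linarith
    simp only [lsumAt, List.length_cons]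
    push_cast
    calc _ ≤ ‖log ((cx b - p) / (cx z - p))‖ + ‖lsumAt p b s‖ := norm_add_le _ _
      _ ≤ 2 * (1 / (‖p‖ - B)) + s.length * (2 / (‖p‖ - B)) := add_le_add h7 h1
      _ = _ := by ring

/-- closed walks avoiding a crossing have winding zero -/
theorem closed_wind (hR : 10 ≤ R) (hRM : R + 10 ≤ M)
    (hV : ∀ z ∈ V, R < ‖cx z‖ ∧ ‖cx z‖ < M) (hO : ∀ z ∈ O, M ≤ ‖cx z‖)
    {x b : Z2} {t : List Z2} (hx : x ∈ V) (hP : P V O x t)
    (hb : b ∈ nb x) (hbR : ‖cx b‖ ≤ R) {z : Z2} {s : List Z2} (hW : Wk z s) (hcl : en z s = z)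
    (hs : ∀ w ∈ z :: s, w ∈ V ∧ w ∉ x :: t) : wind z s = 0 := by
  have hxV := hV x hx
  have hbl : R - 1 ≤ ‖cx b‖ := by linarith [(norm_nb_ge hb).1]
  have hyM := hO _ (P_en hP)
  set y := en x t with hy
  have hM0 : 0 < M := by linarith
  -- points on the closed polygon
  have hC : ∀ p ∈ poly (cx z) (s.map cx), ∃ u ∈ z :: s, ∃ v ∈ z :: s, (v ∈ nb u ∨ v = u) ∧
      p ∈ segment ℝ (cx u) (cx v) := by
    intro p hp
    rcases mem_poly_edge s z hW hp with h | ⟨u, hu, v, hv, huv, hpu⟩
    · refine ⟨z, by simp, z, by simp, Or.inr rfl, ?_⟩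
      rw [h, hcl]
      exact left_mem_segment ℝ _ _
    · exact ⟨u, hu, v, hv, Or.inl huv, hpu⟩
  -- length zero walks are trivial
  by_cases hs0 : s = []
  · subst hs0; rfl
  obtain ⟨c, s', rfl⟩ := List.exists_cons_of_ne_nil hs0
  have hC' : ∀ p ∈ poly (cx z) ((c :: s').map cx), ∃ u ∈ z :: c :: s', ∃ v ∈ z :: c :: s',
      v ∈ nb u ∧ p ∈ segment ℝ (cx u) (cx v) := by
    intro p hp
    rcases mem_poly_edge (c :: s') z hW hp with h | ⟨u, hu, v, hv, huv, hpu⟩
    · refine ⟨z, by simp, c, by simp, hW.1, ?_⟩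
      rw [h, hcl]
      exact left_mem_segment ℝ _ _
    · exact ⟨u, hu, v, hv, huv, hpu⟩
  have key : ∀ L : ℝ, 1 ≤ L → JoinedIn {p : ℂ | p ∉ poly (cx z) ((c :: s').map cx)} 0 (L * cx y) := by
    intro L hL
    -- from 0 to b
    have j1 : JoinedIn {p : ℂ | p ∉ poly (cx z) ((c :: s').map cx)} 0 (cx b) := by
      refine (joined_seg 0 (cx b)).mono ?_
      intro p hp hpp
      obtain ⟨u, hu, v, hv, huv, hpu⟩ := hC' p hpp
      have h0 : p ∈ segment ℝ (((0 : ℝ) : ℂ) * cx b) (cx b) := by simpa using hp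
      obtain ⟨τ, k0, k1, k2, k3⟩ := seg_radial le_rfl h0
      rw [max_eq_right zero_le_one] at k3
      exact hidden (by linarith) huv (hV u (hs u hu).1).1 (hV v (hs v hv).1).1 hbR hpu k0 k3 k1
    have j2 : JoinedIn {p : ℂ | p ∉ poly (cx z) ((c :: s').map cx)} (cx b) (cx x) := by
      refine (joined_seg (cx b) (cx x)).mono ?_
      intro p hp hpp
      obtain ⟨u, hu, v, hv, huv, hpu⟩ := hC' p hpp
      refine seg_disj (nb_symm.1 hb) huv ?_ ?_ ?_ ?_ hp hpu
      · intro e; have := (hV u (hs u hu).1).1; rw [e] at hbR; linarith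
      · intro e; have := (hV v (hs v hv).1).1; rw [e] at hbR; linarith
      · intro e; exact (hs u hu).2 (by rw [← e]; simp)
      · intro e; exact (hs v hv).2 (by rw [← e]; simp)
    have j3 : JoinedIn {p : ℂ | p ∉ poly (cx z) ((c :: s').map cx)} (cx x) (cx y) := by
      have := joined_poly (t.map cx) (cx x)
      rw [enc_map] at this
      refine this.mono ?_
      intro p hp hpp
      exact poly_disj t (c :: s') x z (P_Wk t x hP) hW (fun w hw hw' => (hs w hw').2 hw) hp hpp
    have j4 : JoinedIn {p : ℂ | p ∉ poly (cx z) ((c :: s').map cx)} (cx y) (L * cx y) := by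
      refine (joined_seg (cx y) (L * cx y)).mono ?_
      intro p hp hpp
      obtain ⟨u, hu, v, hv, huv, hpu⟩ := hC' p hpp
      rw [segment_symm] at hp
      obtain ⟨τ, k0, k1, k2, k3⟩ := seg_radial (by linarith) hp
      rw [min_eq_right hL] at k2
      have e1 : ‖p‖ = τ * ‖cx y‖ := by
        rw [k1, norm_mul, Complex.norm_real, Real.norm_eq_abs, abs_of_nonneg k0]
      have e2 := (seg_norm huv hpu).2.2
      have e3 := max_lt (hV u (hs u hu).1).2 (hV v (hs v hv).1).2
      nlinarith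
    exact ((j1.trans j2).trans j3).trans j4
  -- bound
  have hB : ∀ w ∈ z :: c :: s', ‖cx w‖ ≤ M := fun w hw => (hV w (hs w hw).1).2.le
  set m : ℝ := ((c :: s').length : ℝ) with hm
  have hm0 : 0 ≤ m := by positivity
  set L : ℝ := (M + 2 + 2 * m) / M with hL
  have hL1 : 1 ≤ L := by
    rw [hL, le_div_iff₀ hM0]; linarith
  have hpn : M + 2 + 2 * m ≤ ‖(L : ℂ) * cx y‖ := by
    rw [norm_mul, Complex.norm_real, Real.norm_eq_abs, abs_of_nonneg (by linarith)]
    calc M + 2 + 2 * m = L * M := by rw [hL]; field_simp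
      _ ≤ L * ‖cx y‖ := by gcongr
  have h1 := lsumAt_const hcl (key L hL1)
  have h2 := lsumAt_far (c :: s') M z (L * cx y) hW hB (by linarith)
  have h3 : ‖lsumAt ((L : ℂ) * cx y) z (c :: s')‖ ≤ 1 := by
    refine h2.trans ?_
    rw [← mul_div_assoc, div_le_one (by linarith)]
    linarith
  rw [← h1] at h3
  -- the total is a multiple of 2 pi i
  have hexp1 : exp (lsumAt 0 z (c :: s')) = 1 := by
    have h0 : (0 : ℂ) ∉ poly (cx z) ((c :: s').map cx) := (key 1 le_rfl).source_mem
    have hexp : ∀ (s : List Z2) (z : Z2) (p : ℂ), p ∉ poly (cx z) (s.map cx) →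
        exp (lsumAt p z s) * (cx z - p) = cx (en z s) - p := by
      intro s
      induction s with
      | nil => intro z p _; simp [lsumAt]
      | cons b s ih =>
        intro z p hp
        have h1 : p ∉ segment ℝ (cx z) (cx b) := fun hh => hp (Or.inl hh)
        have h2 : p ∉ poly (cx b) (s.map cx) := fun hh => hp (Or.inr hh)
        have h3 := ih b p h2
        have h4 := ratio_slit_of_notMem h1
        have h5 : cx z - p ≠ 0 := by
          intro h0
          apply h1
          rw [← sub_eq_zero.1 h0]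
          exact left_mem_segment ℝ _ _
        simp only [lsumAt, en_cons]
        rw [exp_add, exp_log (slitPlane_ne_zero h4), ← h3]
        field_simp
    have h4 := hexp (c :: s') z 0 h0
    rw [hcl] at h4
    simp only [sub_zero] at h4
    have hz : cx z ≠ 0 := norm_pos_iff.1 (by linarith [(hV z (hs z (by simp)).1).1])
    exact mul_right_cancel₀ hz (by rw [h4, one_mul])
  obtain ⟨n, hn⟩ := exp_eq_one_iff.1 hexp1
  have hn0 : n = 0 := by
    by_contra hne
    have h5 : ‖lsumAt 0 z (c :: s')‖ = |(n : ℝ)| * (2 * Real.pi) := by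
      rw [hn]
      simp only [norm_mul, norm_intCast, norm_ofNat, Complex.norm_real, Real.norm_eq_abs, norm_I,
        mul_one, abs_of_pos Real.pi_pos]
    have h6 : (1 : ℝ) ≤ |(n : ℝ)| := by exact_mod_cast Int.one_le_abs hne
    rw [h5] at h3
    have := Real.pi_gt_three
    nlinarith
  rw [← lsumAt_zero, hn, hn0]
  simp

end data

end Pool.Agent.H96.LE
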