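import Pool.Agent.H96.LE.Tor1

/-!
# Fourier coefficients of the sign function
-/

namespace Pool.Agent.H96.LE

open Finset MeasureTheory

/-- product Haar measure -/
noncomputable abbrev hm (k : ℕ) : Measure (Fin k → T1) :=
  Measure.pi (fun _ => (AddCircle.haarAddCircle : Measure T1))

lemma measurable_eps {k : ℕ} : Measurable (eps (k := k)) := by
  have h1 : (eps (k := k)) = fun x => (if 0 < Dd x then (1 : ℝ) else 0) - (if Dd x < 0 then (1 : ℝ) else 0) := by
    funext x
    unfold eps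
    rcases lt_trichotomy (Dd x) 0 with h | h | h
    · rw [sign_neg h, if_neg (not_lt.2 h.le), if_pos h]; simp
    · rw [h]; simp
    · rw [sign_pos h, if_pos h, if_neg (not_lt.2 h.le)]; simp
  rw [h1]
  apply Measurable.sub
  · apply Measurable.ite _ measurable_const measurable_const
    exact (isOpen_lt continuous_const continuous_Dd).measurableSet
  · apply Measurable.ite _ measurable_const measurable_const
    exact (isOpen_lt continuous_Dd continuous_const).measurableSet

/-- Fourier coefficients -/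
noncomputable def cf {k : ℕ} (m : Fin k → ℤ) : ℂ :=
  ∫ x, (eps x : ℂ) * ∏ j, fo (m j) (x j) ∂(hm k)

lemma continuous_prod_fo {k : ℕ} (m : Fin k → ℤ) :
    Continuous (fun x : Fin k → T1 => ∏ j, fo (m j) (x j)) :=
  continuous_finsetProd _ (fun j _ => (continuous_fo (m j)).comp (continuous_apply j))

lemma norm_prod_fo {k : ℕ} (m : Fin k → ℤ) (x : Fin k → T1) : ‖∏ j, fo (m j) (x j)‖ = 1 := by
  rw [norm_prod]
  exact Finset.prod_eq_one (fun j _ => norm_fo _ _)

lemma integrable_bdd {k : ℕ} {f : (Fin k → T1) → ℂ} (hf : Measurable f) (C : ℝ)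
    (h : ∀ x, ‖f x‖ ≤ C) : Integrable f (hm k) :=
  Integrable.of_bound hf.aestronglyMeasurable C (Filter.Eventually.of_forall h)

lemma measurable_epsC {k : ℕ} : Measurable (fun x : Fin k → T1 => (eps x : ℂ)) :=
  Complex.measurable_ofReal.comp measurable_eps

lemma integrable_eps_mul {k : ℕ} {f : (Fin k → T1) → ℂ} (hf : Measurable f) (C : ℝ)
    (h : ∀ x, ‖f x‖ ≤ C) : Integrable (fun x => (eps x : ℂ) * f x) (hm k) := by
  apply integrable_bdd (measurable_epsC.mul hf) C
  intro x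
  show ‖(eps x : ℂ) * f x‖ ≤ C
  rw [norm_mul, Complex.norm_real, Real.norm_eq_abs]
  have h1 := abs_eps_le x
  have h2 := h x
  have h3 := norm_nonneg (f x)
  calc |eps x| * ‖f x‖ ≤ 1 * C := mul_le_mul h1 h2 h3 zero_le_one
    _ = C := one_mul C

lemma integrable_cf {k : ℕ} (m : Fin k → ℤ) :
    Integrable (fun x => (eps x : ℂ) * ∏ j, fo (m j) (x j)) (hm k) :=
  integrable_eps_mul (continuous_prod_fo m).measurable 1 (fun x => (norm_prod_fo m x).le)

lemma norm_cf_le {k : ℕ} (m : Fin k → ℤ) : ‖cf m‖ ≤ 1 := by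
  unfold cf
  have h := norm_integral_le_of_norm_le_const (μ := hm k)
    (f := fun x => (eps x : ℂ) * ∏ j, fo (m j) (x j)) (C := 1) (Filter.Eventually.of_forall (fun x => by
      rw [norm_mul, norm_prod_fo, mul_one, Complex.norm_real]
      exact abs_eps_le x))
  simpa using h

lemma integral_perm {k : ℕ} (σ : Equiv.Perm (Fin k)) (f : (Fin k → T1) → ℂ) :
    ∫ x, f (x ∘ σ) ∂(hm k) = ∫ x, f x ∂(hm k) := by
  have h := measurePreserving_piCongrLeft (fun _ : Fin k => (AddCircle.haarAddCircle : Measure T1)) σ.symm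
  have h2 := h.integral_comp (MeasurableEquiv.measurableEmbedding _) f
  rw [← h2]
  congr 1
  funext x
  congr 1
  funext i
  simp only [Function.comp_apply]
  have h3 := MeasurableEquiv.piCongrLeft_apply_apply (β := fun _ : Fin k => T1) σ.symm x (σ i)
  rw [Equiv.symm_apply_apply] at h3
  exact h3.symm

lemma cf_perm {k : ℕ} (m : Fin k → ℤ) (σ : Equiv.Perm (Fin k)) :
    cf (m ∘ σ) = ((Equiv.Perm.sign σ : ℤ) : ℂ) * cf m := by
  unfold cf
  rw [← integral_perm σ, ← integral_const_mul]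
  congr 1
  funext x
  rw [eps_perm]
  have : ∏ j, fo ((m ∘ σ) j) ((x ∘ σ) j) = ∏ j, fo (m j) (x j) :=
    Equiv.prod_comp σ (fun j => fo (m j) (x j))
  rw [this]
  push_cast
  ring

lemma cf_inj {k : ℕ} (m : Fin k → ℤ) (h : cf m ≠ 0) : Function.Injective m := by
  intro i j hij
  by_contra hne
  apply h
  have h1 := cf_perm m (Equiv.swap i j)
  have h2 : m ∘ (Equiv.swap i j) = m := by
    funext l
    simp only [Function.comp_apply]
    by_cases h3 : l = i
    · rw [h3, Equiv.swap_apply_left, hij]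
    · by_cases h4 : l = j
      · rw [h4, Equiv.swap_apply_right, hij]
      · rw [Equiv.swap_apply_of_ne_of_ne h3 h4]
  rw [h2, Equiv.Perm.sign_swap hne] at h1
  push_cast at h1
  have h3 : (2 : ℂ) * cf m = 0 := by linear_combination h1
  exact (mul_eq_zero.1 h3).resolve_left two_ne_zero

lemma integral_shift {k : ℕ} (v : Fin k → T1) (f : (Fin k → T1) → ℂ) :
    ∫ x, f (fun j => x j + v j) ∂(hm k) = ∫ x, f x ∂(hm k) :=
  integral_add_right_eq_self f v

lemma cf_parity {k : ℕ} (m : Fin k → ℤ) (h : cf m ≠ 0) (j : Fin k) :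
    (-1 : ℂ) ^ (m j) = (-1 : ℂ) ^ ((k : ℤ) - 1) := by
  set δ : Fin k → ℤ := fun i => if i = j then 1 else 0 with hδ
  have h1 : cf m = ((-1 : ℂ) ^ ((k : ℤ) - 1) * (-1 : ℂ) ^ (m j)) * cf m := by
    conv_lhs => unfold cf
    rw [← integral_shift (fun i => (((δ i : ℝ) / 2 : ℝ) : T1))]
    unfold cf
    rw [← integral_const_mul]
    congr 1
    funext x
    rw [eps_shift]
    have e1 : ∏ i, fo (m i) (x i + (((δ i : ℝ) / 2 : ℝ) : T1)) =
        (-1 : ℂ) ^ (m j) * ∏ i, fo (m i) (x i) := by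
      have : ∀ i, fo (m i) (x i + (((δ i : ℝ) / 2 : ℝ) : T1)) =
          (if i = j then (-1 : ℂ) ^ (m j) else 1) * fo (m i) (x i) := by
        intro i
        rw [fo_arg_add, fo_half]
        simp only [hδ]
        by_cases hi : i = j
        · subst hi; simp; ring
        · simp [hi]
      simp only [this, Finset.prod_mul_distrib]
      rw [Finset.prod_ite_eq']
      simp
    have e2 : ∏ i, ((-1 : ℂ) ^ (δ i)) ^ ((k : ℤ) - 1) = (-1 : ℂ) ^ ((k : ℤ) - 1) := by
      have : ∀ i, ((-1 : ℂ) ^ (δ i)) ^ ((k : ℤ) - 1) =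
          (if i = j then (-1 : ℂ) ^ ((k : ℤ) - 1) else 1) := by
        intro i
        simp only [hδ]
        by_cases hi : i = j
        · simp [hi]
        · simp [hi]
      simp only [this]
      rw [Finset.prod_ite_eq']
      simp
    rw [e1, e2]
    ring
  have h2 : (-1 : ℂ) ^ ((k : ℤ) - 1) * (-1 : ℂ) ^ (m j) = 1 := by
    have h3 : ((-1 : ℂ) ^ ((k : ℤ) - 1) * (-1 : ℂ) ^ (m j) - 1) * cf m = 0 := by
      linear_combination (-1 : ℂ) * h1
    have := (mul_eq_zero.1 h3).resolve_right h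
    linear_combination this
  rcases negone_zpow ((k : ℤ) - 1) with h3 | h3 <;> rcases negone_zpow (m j) with h4 | h4 <;>
    rw [h3, h4] at h2 <;> rw [h3, h4] <;> norm_num at h2

lemma cf_parity' {k : ℕ} (m : Fin k → ℤ) (h : cf m ≠ 0) (j : Fin k) :
    (m j - ((k : ℤ) - 1)) % 2 = 0 := by
  have h1 := cf_parity m h j
  have h2 : (-1 : ℂ) ^ (m j - ((k : ℤ) - 1)) = 1 := by
    rw [zpow_sub₀ (by norm_num), h1, div_self (zpow_ne_zero _ (by norm_num))]
  rcases Int.even_or_odd (m j - ((k : ℤ) - 1)) with h3 | h3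
  · exact Int.even_iff.1 h3
  · rw [h3.neg_one_zpow] at h2
    norm_num at h2

/-- a point where the product of sines is positive -/
lemma exists_Dd_pos (k : ℕ) : ∃ x : Fin k → T1, 0 < Dd x := by
  refine ⟨fun j => (((j : ℝ) / (2 * k) : ℝ) : T1), ?_⟩
  unfold Dd
  apply Finset.prod_pos
  intro i _
  apply Finset.prod_pos
  intro j hj
  have hij : i < j := Finset.mem_Ioi.1 hj
  have e : ((((j : ℝ) / (2 * k) : ℝ) : T1) - (((i : ℝ) / (2 * k) : ℝ) : T1)) =
      ((((j : ℝ) - i) / (2 * k) : ℝ) : T1) := by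
    rw [← AddCircle.coe_sub]
    congr 1
    ring
  rw [e, Ss_coe]
  have hk : (0 : ℝ) < k := by
    have := i.isLt
    exact_mod_cast (by omega : 0 < k)
  have h1 : (0 : ℝ) < (j : ℝ) - i := by
    have : ((i : ℕ) : ℝ) < ((j : ℕ) : ℝ) := by exact_mod_cast hij
    linarith
  have h2 : ((j : ℝ) - i) < k := by
    have h3 : ((j : ℕ) : ℝ) < k := by exact_mod_cast j.isLt
    have h4 : (0 : ℝ) ≤ ((i : ℕ) : ℝ) := Nat.cast_nonneg _
    linarith
  apply Real.sin_pos_of_pos_of_lt_pi
  · have := Real.pi_pos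
    positivity
  · have h5 : 2 * Real.pi * (((j : ℝ) - i) / (2 * k)) = Real.pi * (((j : ℝ) - i) / k) := by
      field_simp
    rw [h5]
    have h6 : ((j : ℝ) - i) / k < 1 := by rw [div_lt_one hk]; exact h2
    nlinarith [Real.pi_pos]

lemma eps_mul_Dd {k : ℕ} (x : Fin k → T1) : eps x * Dd x = |Dd x| := by
  unfold eps
  rcases lt_trichotomy (Dd x) 0 with h | h | h
  · rw [sign_neg h, abs_of_neg h]; simp
  · rw [h]; simp
  · rw [sign_pos h, abs_of_pos h]; simp

lemma sum_perm_fo {k : ℕ} (x : Fin k → T1) :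
    ∑ σ : Equiv.Perm (Fin k), ((Equiv.Perm.sign σ : ℤ) : ℂ) * ∏ j, fo (rh k (σ j)) (x j) =
      (2 * Complex.I) ^ (np k) * (Dd x : ℂ) := by
  rw [← det_Km, ← Matrix.det_transpose, Matrix.det_apply']
  rfl

theorem cf_rh_ne_zero (k : ℕ) : cf (rh k) ≠ 0 := by
  have h1 : (Nat.factorial k : ℂ) * cf (rh k) =
      (2 * Complex.I) ^ (np k) * ((∫ x, |Dd x| ∂(hm k) : ℝ) : ℂ) := by
    have e1 : (Nat.factorial k : ℂ) * cf (rh k) = ∑ σ : Equiv.Perm (Fin k),
        ((Equiv.Perm.sign σ : ℤ) : ℂ) * cf (rh k ∘ σ) := by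
      have : ∀ σ : Equiv.Perm (Fin k), ((Equiv.Perm.sign σ : ℤ) : ℂ) * cf (rh k ∘ σ) = cf (rh k) := by
        intro σ
        rw [cf_perm, ← mul_assoc]
        have : ((Equiv.Perm.sign σ : ℤ) : ℂ) * ((Equiv.Perm.sign σ : ℤ) : ℂ) = 1 := by
          rcases Int.units_eq_one_or (Equiv.Perm.sign σ) with h | h <;> rw [h] <;> simp
        rw [this, one_mul]
      simp only [this]
      rw [Finset.sum_const, Finset.card_univ, Fintype.card_perm, Fintype.card_fin, nsmul_eq_mul]
    rw [e1]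
    have e2 : ∀ σ : Equiv.Perm (Fin k), ((Equiv.Perm.sign σ : ℤ) : ℂ) * cf (rh k ∘ σ) =
        ∫ x, ((Equiv.Perm.sign σ : ℤ) : ℂ) * ((eps x : ℂ) * ∏ j, fo ((rh k ∘ σ) j) (x j)) ∂(hm k) := by
      intro σ
      rw [integral_const_mul]
      rfl
    simp only [e2]
    rw [← integral_finsetSum]
    · rw [← integral_complex_ofReal, ← integral_const_mul]
      congr 1
      funext x
      rw [← eps_mul_Dd]
      push_cast
      have := sum_perm_fo x
      calc ∑ σ : Equiv.Perm (Fin k), ((Equiv.Perm.sign σ : ℤ) : ℂ) *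
          ((eps x : ℂ) * ∏ j, fo ((rh k ∘ σ) j) (x j)) =
          (eps x : ℂ) * ∑ σ : Equiv.Perm (Fin k), ((Equiv.Perm.sign σ : ℤ) : ℂ) *
            ∏ j, fo (rh k (σ j)) (x j) := by
            rw [Finset.mul_sum]
            apply Finset.sum_congr rfl
            intro σ _
            simp only [Function.comp_apply]
            ring
        _ = _ := by rw [this]; ring
    · intro σ _
      exact (integrable_cf _).const_mul _
  have h2 : 0 < ∫ x, |Dd x| ∂(hm k) := by
    obtain ⟨x0, hx0⟩ := exists_Dd_pos k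
    have hc : Continuous (fun x : Fin k → T1 => |Dd x|) := continuous_Dd.abs
    apply hc.integral_pos_of_hasCompactSupport_nonneg_nonzero (HasCompactSupport.of_compactSpace _)
      (fun x => abs_nonneg _)
    exact (abs_pos.2 hx0.ne').ne'
  intro h
  rw [h, mul_zero] at h1
  have h3 : (2 * Complex.I) ^ (np k) ≠ 0 := pow_ne_zero _ (by simp)
  have h4 := (mul_eq_zero.1 h1.symm).resolve_left h3
  have h5 : (∫ x, |Dd x| ∂(hm k) : ℝ) = 0 := by exact_mod_cast h4
  exact h2.ne' h5

end Pool.Agent.H96.LE
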