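import Pool.Agent.H96.LE.Twist

/-!
# The boundary ratio of twisted and untwisted harmonic functions
-/

namespace Pool.Agent.H96.LE

open Finset Filter

/-- limit of the twisted ratio -/
noncomputable def phi (n a : ℝ) : ℝ := if a = 0 then 1 else n * a / Real.sinh (n * a)

lemma arg_local {R : ℝ} (hR : 4 ≤ R) {e : ℂ} (he : ‖e‖ = 1) {z w : Z2} (hw : w ∈ nb z)
    (hz : ‖cx z - R * e‖ ≤ R / 2) :
    Complex.arg (cx w / e) = Complex.arg (cx z / e) + Complex.arg (cx w / cx z) := by
  have he0 : e ≠ 0 := by intro h; rw [h, norm_zero] at he; norm_num at he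
  have hzn : R / 2 ≤ ‖cx z‖ := by
    have h1 := norm_sub_norm_le ((R : ℂ) * e) (cx z)
    rw [norm_mul, he, mul_one, Complex.norm_real, Real.norm_eq_abs, abs_of_pos (by linarith),
      norm_sub_rev] at h1
    linarith
  have hz0 : cx z ≠ 0 := by intro h; rw [h, norm_zero] at hzn; linarith
  have hw1 := norm_nb hw
  have hw0 : cx w ≠ 0 := by
    intro h
    rw [h, zero_sub, norm_neg] at hw1
    linarith
  have r1 : |Complex.arg (cx z / e)| < Real.pi / 2 := by
    rw [Complex.abs_arg_lt_pi_div_two_iff]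
    left
    have h1 : ‖cx z / e - R‖ ≤ R / 2 := by
      have : cx z / e - R = (cx z - R * e) / e := by field_simp
      rw [this, norm_div, he, div_one]; exact hz
    have h2 := Complex.abs_re_le_norm (cx z / e - R)
    have h3 := (abs_le.1 (h2.trans h1)).1
    simp only [Complex.sub_re, Complex.ofReal_re] at h3
    linarith
  have r2 : |Complex.arg (cx w / cx z)| < Real.pi / 2 := by
    rw [Complex.abs_arg_lt_pi_div_two_iff]
    left
    have h1 : ‖cx w / cx z - 1‖ ≤ 1 / 2 := by
      have : cx w / cx z - 1 = (cx w - cx z) / cx z := by field_simp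
      rw [this, norm_div, hw1, div_le_iff₀ (by linarith)]
      linarith
    have h2 := Complex.abs_re_le_norm (cx w / cx z - 1)
    have h3 := (abs_le.1 (h2.trans h1)).1
    simp only [Complex.sub_re, Complex.one_re] at h3
    linarith
  have h1 : cx w / e = (cx z / e) * (cx w / cx z) := by field_simp
  rw [h1]
  apply Complex.arg_mul (div_ne_zero hz0 he0) (div_ne_zero hw0 hz0)
  rw [abs_lt] at r1 r2
  constructor <;> linarith

lemma arg_small {R η : ℝ} (hR : 0 < R) (hη : η ≤ 1 / 2) {e : ℂ} (he : ‖e‖ = 1) {z : ℂ}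
    (hz : ‖z - R * e‖ ≤ η * R) : |Complex.arg (z / e)| ≤ 3 / 2 * η := by
  have he0 : e ≠ 0 := by intro h; rw [h, norm_zero] at he; norm_num at he
  have hRc : (R : ℂ) ≠ 0 := by exact_mod_cast hR.ne'
  set v : ℂ := (z - R * e) / (R * e) with hv
  have h1 : z / e = (R : ℂ) * (1 + v) := by
    rw [hv]; field_simp; ring
  have hvn : ‖v‖ ≤ η := by
    rw [hv, norm_div, norm_mul, he, mul_one, Complex.norm_real, Real.norm_eq_abs, abs_of_pos hR,
      div_le_iff₀ hR]
    exact hz
  rw [h1, Complex.arg_real_mul _ hR]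
  have h2 : Complex.arg (1 + v) = (Complex.log (1 + v)).im := (Complex.log_im _).symm
  rw [h2]
  refine (Complex.abs_im_le_norm _).trans ?_
  refine (Complex.norm_log_one_add_half_le_self (hvn.trans hη)).trans ?_
  gcongr

theorem twist_limit (n : ℝ) (hn : 0 < n) (a : ℝ) (ε : ℝ) (hε : 0 < ε) :
    ∀ᶠ R in atTop, ∀ x ∈ VV R (Mn n R), ∀ b ∈ nb x, ‖cx b‖ ≤ R →
      ‖HA a n R x / hh n R x - phi n a‖ ≤ ε := by
  obtain ⟨c, hc0, hc⟩ := hh_ge n hn
  by_cases ha : a = 0
  · subst ha
    filter_upwards [hc, eventually_gt_atTop 0] with R hcR hR x hx b _ _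
    have h1 : HA 0 n R x = (hh n R x : ℂ) := by
      unfold HA hh PL
      rw [← PS_ofReal]
      have hq : (qa 0) = q0 := by
        funext z w
        simp [qa, ph]
      rw [hq]
      congr 1
      funext l
      split_ifs <;> simp
    have h2 : 0 < hh n R x := lt_of_lt_of_le (by positivity) (hcR x hx)
    rw [h1, phi, if_pos rfl, div_self (by exact_mod_cast h2.ne')]
    simp only [Complex.ofReal_one, sub_self, norm_zero]
    exact hε.le
  obtain ⟨C0, hC00, hC0⟩ := hh_close n hn
  obtain ⟨C1, hC10, hC1⟩ := HA_close n hn a ha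
  set s0 : ℝ := |Real.sinh (a * n)| with hs0
  have hsne : Real.sinh (a * n) ≠ 0 := by
    rw [Ne, Real.sinh_eq_zero]; exact mul_ne_zero ha hn.ne'
  have hs0p : 0 < s0 := abs_pos.2 hsne
  set lam : ℝ := n * a / Real.sinh (a * n) with hlam
  have hphi : phi n a = lam := by
    rw [phi, if_neg ha, hlam, mul_comm n a]
  have hab : 0 < |a| := abs_pos.2 ha
  set K : ℝ := 10 * |a| ^ 2 * Real.cosh |a| / s0 with hK
  have hcosh := Real.cosh_pos |a|
  have hK0 : 0 < K := by positivity
  set K' : ℝ := C1 + |lam| * C0 with hK'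
  have hK'0 : 0 < K' := by positivity
  set η : ℝ := min (min (1 / 4) (n / 4)) (ε * c / (80 * K)) with hη
  have hη0 : 0 < η := by
    rw [hη]; apply lt_min (lt_min (by norm_num) (by positivity)) (by positivity)
  have hη4 : η ≤ 1 / 4 := (min_le_left _ _).trans (min_le_left _ _)
  have hηn : η ≤ n / 4 := (min_le_left _ _).trans (min_le_right _ _)
  have hηε : 40 * K * η / c ≤ ε / 2 := by
    have : η ≤ ε * c / (80 * K) := min_le_right _ _
    rw [div_le_iff₀ hc0]
    rw [le_div_iff₀ (by positivity)] at this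
    linarith
  have hRpow : ∀ᶠ R : ℝ in atTop, 16 * Real.exp (2 * n) / η ^ 3 ≤ R := eventually_ge_atTop _
  filter_upwards [hc, hC0, hC1, eventually_ge_atTop 4, eventually_ge_atTop (2 / η), hRpow,
    eventually_ge_atTop (80 * K' / (η * c * ε)), eventually_gt_atTop (4 / n)] with
    R hcR hC0R hC1R hR4 hRη hRp hRK hRn x hx b hb hbR
  rw [hphi]
  have hR0 : 0 < R := by linarith
  have hηR : 2 ≤ η * R := by
    rw [div_le_iff₀ hη0] at hRη; linarith
  have hxV := mem_VV.1 hx
  have hx1 : ‖cx x‖ ≤ R + 1 := by linarith [(norm_nb_ge hb).1]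
  have hxn0 : 0 < ‖cx x‖ := by linarith
  have hMR := Mn_ge' (n := n) hR0.le
  set e : ℂ := cx x / (‖cx x‖ : ℂ) with hedef
  have hxc : (‖cx x‖ : ℂ) ≠ 0 := by exact_mod_cast hxn0.ne'
  have he : ‖e‖ = 1 := by
    rw [hedef, norm_div, Complex.norm_real, norm_norm, div_self hxn0.ne']
  have hxe : cx x = ‖cx x‖ * e := by rw [hedef]; field_simp
  set D : Finset Z2 := (VV R (Mn n R)).filter (fun z => ‖cx z - R * e‖ < η * R) with hD
  have hDV : ∀ z ∈ D, z ∈ VV R (Mn n R) ∧ ‖cx z - R * e‖ < η * R := fun z hz =>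
    Finset.mem_filter.1 hz
  have hxe' : ‖cx x - R * e‖ = ‖cx x‖ - R := by
    have : cx x - R * e = ((‖cx x‖ - R : ℝ) : ℂ) * e := by
      conv_lhs => rw [hxe]
      push_cast; ring
    rw [this, norm_mul, he, mul_one, Complex.norm_real, Real.norm_eq_abs, abs_of_pos (by linarith)]
  have hxD : x ∈ D := Finset.mem_filter.2 ⟨hx, by rw [hxe']; linarith⟩
  set U : Z2 → ℂ := fun z => Complex.exp ((a * Complex.arg (cx z / e) : ℝ) * Complex.I) * HA a n R z
    with hU
  set u : Z2 → ℝ := fun z => ‖U z - lam * hh n R z‖ with hu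
  set β : ℝ := K * η ^ 2 + K' / R with hβ
  have hβ0 : 0 ≤ β := by positivity
  have hsub : ∀ z ∈ D, u z ≤ av u z := by
    intro z hz
    obtain ⟨hzV, hzη⟩ := hDV z hz
    have hz' := mem_VV.1 hzV
    have h1 : HA a n R z = ∑ w ∈ nb z, qa a z w * HA a n R w :=
      PL_step (GW_qa a) (disj_VO R (Mn n R)) _ hzV
    have h2 : hh n R z = ∑ w ∈ nb z, q1 z w * hh n R w :=
      PL_step GW_q1 (disj_VO R (Mn n R)) _ hzV
    have h3 : U z - lam * hh n R z = ∑ w ∈ nb z, (1 / 4 : ℂ) * (U w - lam * hh n R w) := by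
      simp only [hU, h1, h2]
      push_cast
      rw [Finset.mul_sum, Finset.mul_sum, ← Finset.sum_sub_distrib]
      apply Finset.sum_congr rfl
      intro w hw
      have h4 := arg_local hR4 he hw (hzη.le.trans (by nlinarith))
      rw [h4, qa, ph, q0, q1]
      have h5 : Complex.exp ((a * (Complex.arg (cx z / e) + Complex.arg (cx w / cx z)) : ℝ) *
          Complex.I) = Complex.exp ((a * Complex.arg (cx z / e) : ℝ) * Complex.I) *
          Complex.exp ((a * Complex.arg (cx w / cx z) : ℝ) * Complex.I) := by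
        rw [← Complex.exp_add]; congr 1; push_cast; ring
      push_cast at h5 ⊢
      rw [h5]
      ring
    show ‖U z - lam * hh n R z‖ ≤ _
    rw [h3]
    refine (norm_sum_le _ _).trans (le_of_eq ?_)
    unfold av
    rw [Finset.sum_div]
    apply Finset.sum_congr rfl
    intro w _
    rw [norm_mul]
    simp only [hu]
    norm_num
    ring
  have hbd : ∀ z ∈ D, ∀ w ∈ nb z, w ∉ D → u w ≤ 0 ∨ (u w ≤ β ∧ R ≤ ‖cx w‖ ∧
      (2 * η * R) / 2 ≤ ‖cx w - R * e‖) := by
    intro z hz w hw hwD
    obtain ⟨hzV, hzη⟩ := hDV z hz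
    have hz' := mem_VV.1 hzV
    have hw1 := norm_nb hw
    have hwRe : ‖cx w - R * e‖ ≤ 2 * η * R := by
      have h1 : ‖cx w - R * e‖ ≤ ‖cx w - cx z‖ + ‖cx z - R * e‖ :=
        norm_sub_le_norm_sub_add_norm_sub _ _ _
      rw [hw1] at h1
      nlinarith
    have hwn : ‖cx w‖ ≤ R + 2 * η * R := by
      have h1 := norm_sub_norm_le (cx w) (R * e)
      rw [norm_mul, he, mul_one, Complex.norm_real, Real.norm_eq_abs, abs_of_pos hR0] at h1
      linarith
    by_cases hwV : w ∈ VV R (Mn n R)
    · right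
      have hw' := mem_VV.1 hwV
      have hwη : η * R ≤ ‖cx w - R * e‖ := by
        by_contra hcon
        push Not at hcon
        exact hwD (Finset.mem_filter.2 ⟨hwV, hcon⟩)
      refine ⟨?_, hw'.1.le, by linarith⟩
      -- the estimate
      set s : ℝ := Real.log (‖cx w‖ / R) with hs
      have hw0 : 0 < ‖cx w‖ := by linarith
      have hs00 : 0 ≤ s := Real.log_nonneg (by rw [le_div_iff₀ hR0]; linarith)
      have hs2 : s ≤ 2 * η := by
        have h1 := Real.log_le_sub_one_of_pos (show 0 < ‖cx w‖ / R by positivity)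
        have h2 : ‖cx w‖ / R - 1 ≤ 2 * η := by
          rw [div_sub_one hR0.ne', div_le_iff₀ hR0]; linarith
        linarith
      have hsabs : |a * s| ≤ |a| * (2 * η) := by
        rw [abs_mul, abs_of_nonneg hs00]; gcongr
      have hsB : |a * s| ≤ |a| := hsabs.trans (by nlinarith)
      have hFA : |FA a n R w| ≤ Real.cosh |a| * (|a| * (2 * η)) / s0 := by
        unfold FA
        rw [abs_div]
        gcongr
        have h1 := sinh_lip hsB (show |(0 : ℝ)| ≤ |a| by rw [abs_zero]; positivity)
        rw [Real.sinh_zero, sub_zero, sub_zero] at h1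
        exact h1.trans (by gcongr)
      have hFF : |FA a n R w - lam * (s / n)| ≤ Real.cosh |a| * (|a| * (2 * η)) * (|a| * (2 * η)) / s0 := by
        have h1 : FA a n R w - lam * (s / n) = (Real.sinh (a * s) - a * s) / Real.sinh (a * n) := by
          unfold FA
          rw [← hs, hlam]
          field_simp
        rw [h1, abs_div]
        gcongr
        refine (sinh_sub_self hsB).trans ?_
        gcongr
      have hα := arg_small (η := 2 * η) hR0 (by linarith) he hwRe
      have hα2 : ‖Complex.exp ((a * Complex.arg (cx w / e) : ℝ) * Complex.I) - 1‖ ≤ |a| * (3 * η) := by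
        rw [mul_comm _ Complex.I]
        refine Real.norm_exp_I_mul_ofReal_sub_one_le.trans ?_
        rw [Real.norm_eq_abs, abs_mul]
        gcongr
        linarith
      have hsplit : U w - lam * hh n R w =
          Complex.exp ((a * Complex.arg (cx w / e) : ℝ) * Complex.I) * (HA a n R w - FA a n R w) +
          (Complex.exp ((a * Complex.arg (cx w / e) : ℝ) * Complex.I) - 1) * FA a n R w +
          ((FA a n R w - lam * (s / n) : ℝ) : ℂ) - ((lam * (hh n R w - s / n) : ℝ) : ℂ) := by
        simp only [hU]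
        push_cast
        ring
      show ‖U w - lam * hh n R w‖ ≤ β
      rw [hsplit]
      have t1 : ‖Complex.exp ((a * Complex.arg (cx w / e) : ℝ) * Complex.I) *
          (HA a n R w - FA a n R w)‖ ≤ C1 / R := by
        rw [norm_mul, Complex.norm_exp_ofReal_mul_I, one_mul]
        exact hC1R w hwV
      have t2 : ‖(Complex.exp ((a * Complex.arg (cx w / e) : ℝ) * Complex.I) - 1) *
          (FA a n R w : ℂ)‖ ≤ |a| * (3 * η) * (Real.cosh |a| * (|a| * (2 * η)) / s0) := by
        rw [norm_mul, Complex.norm_real, Real.norm_eq_abs]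
        gcongr
      have t3 : ‖((FA a n R w - lam * (s / n) : ℝ) : ℂ)‖ ≤
          Real.cosh |a| * (|a| * (2 * η)) * (|a| * (2 * η)) / s0 := by
        rw [Complex.norm_real, Real.norm_eq_abs]; exact hFF
      have t4 : ‖((lam * (hh n R w - s / n) : ℝ) : ℂ)‖ ≤ |lam| * (C0 / R) := by
        rw [Complex.norm_real, Real.norm_eq_abs, abs_mul]
        gcongr
        exact hC0R w hwV
      have tt := (norm_sub_le _ _).trans (add_le_add ((norm_add_le _ _).trans (add_le_add
        ((norm_add_le _ _).trans (add_le_add t1 t2)) t3)) t4)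
      refine tt.trans (le_of_eq ?_)
      rw [hβ, hK, hK']
      field_simp
      ring
    · rcases VV_nb hzV hw hwV with h1 | h1
      · left
        have hMR' : R < Mn n R := by nlinarith
        have h2 : w ∉ OO (Mn n R) := by rw [mem_OO]; intro h; linarith [h.1]
        have h3 : HA a n R w = 0 := PL_none _ hwV h2
        have h4 : hh n R w = 0 := PL_none _ hwV h2
        simp [hu, hU, h3, h4]
      · exfalso
        rw [mem_OO] at h1
        have h2 : 2 * η * R ≤ n / 2 * R := by gcongr; linarith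
        have : 4 < n * R := by
          rw [div_lt_iff₀ hn] at hRn; linarith
        nlinarith
  have hcube : 32 * (Mn n R + 1) ^ 2 ≤ (2 * η * R) ^ 3 := by
    have h1 := M_sq_bd hn.le (show 1 ≤ R by linarith)
    have h2 : 16 * Real.exp (2 * n) ≤ R * η ^ 3 := by
      rw [div_le_iff₀ (by positivity)] at hRp; exact hRp
    calc 32 * (Mn n R + 1) ^ 2 ≤ 32 * (4 * Real.exp (2 * n) * R ^ 2) := by gcongr
      _ = 8 * (16 * Real.exp (2 * n)) * R ^ 2 := by ring
      _ ≤ 8 * (R * η ^ 3) * R ^ 2 := by gcongr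
      _ = (2 * η * R) ^ 3 := by ring
  have hfin := barrier_in D R (Mn n R) (by nlinarith) (fun z hz => mem_VV.1 (hDV z hz).1)
    (2 * η * R) (by linarith) (by nlinarith) hcube β hβ0 u hsub x hxD e he hxe hbd
  have hux : u x = ‖HA a n R x - lam * hh n R x‖ := by
    simp only [hu, hU]
    have h1 : cx x / e = ((‖cx x‖ : ℝ) : ℂ) := by
      have he0 : e ≠ 0 := by intro h; rw [h, norm_zero] at he; norm_num at he
      rw [div_eq_iff he0]; exact hxe
    rw [h1, Complex.arg_ofReal_of_nonneg hxn0.le]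
    simp
  have hhx : c / R ≤ hh n R x := hcR x hx
  have hhx0 : 0 < hh n R x := lt_of_lt_of_le (by positivity) hhx
  have hhc : (hh n R x : ℂ) ≠ 0 := by exact_mod_cast hhx0.ne'
  have h1 : HA a n R x / hh n R x - lam = (HA a n R x - lam * hh n R x) / hh n R x := by
    field_simp
  rw [h1, norm_div, Complex.norm_real, Real.norm_eq_abs, abs_of_pos hhx0, ← hux,
    div_le_iff₀ hhx0]
  refine hfin.trans ?_
  have h2 : (‖cx x‖ - R + 3) / (2 * η * R) ≤ 4 / (2 * η * R) := by gcongr; linarith
  have h3 : 20 * β * ((‖cx x‖ - R + 3) / (2 * η * R)) ≤ 20 * β * (4 / (2 * η * R)) := by gcongr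
  refine h3.trans ?_
  have h4 : ε * (c / R) ≤ ε * hh n R x := by gcongr
  refine le_trans ?_ h4
  have h5 : 20 * β * (4 / (2 * η * R)) = (40 * K * η / c + 40 * K' / (η * c * R)) * (c / R) := by
    rw [hβ]; field_simp; ring
  rw [h5]
  apply mul_le_mul_of_nonneg_right _ (by positivity)
  have h6 : 40 * K' / (η * c * R) ≤ ε / 2 := by
    rw [div_le_iff₀ (by positivity)] at hRK ⊢
    nlinarith
  linarith

end Pool.Agent.H96.LE
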