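import Pool.Agent.H96.LE.Tor2
import Pool.Agent.H96.LE.Twist2

/-!
# Asymptotics of the sign integral
-/

namespace Pool.Agent.H96.LE

open Finset MeasureTheory Filter Topology

/-- Fourier coefficients of the limit law -/
noncomputable def al (n : ℝ) (m : ℤ) : ℝ := phi n ((m : ℝ) / 2)

lemma div_sinh_bounds {y : ℝ} (hy : 0 < y) :
    Real.exp (-y) ≤ y / Real.sinh y ∧ y / Real.sinh y ≤ (1 + 2 * y) * Real.exp (-y) := by
  have hs : 0 < Real.sinh y := Real.sinh_pos_iff.2 hy
  have h1 : Real.exp (-y) * Real.exp y = 1 := by rw [← Real.exp_add]; simp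
  have h2 : Real.exp (-y) * Real.exp (-y) = Real.exp (-(2 * y)) := by
    rw [← Real.exp_add]; congr 1; ring
  have h3 : Real.exp (-(2 * y)) * Real.exp (2 * y) = 1 := by rw [← Real.exp_add]; simp
  have h4 := Real.add_one_le_exp (2 * y)
  have h5 := Real.add_one_le_exp (-(2 * y))
  have h6 := Real.exp_pos (-(2 * y))
  have h7 := Real.exp_pos (-y)
  constructor
  · rw [le_div_iff₀ hs, Real.sinh_eq]
    have : Real.exp (-y) * ((Real.exp y - Real.exp (-y)) / 2) = (1 - Real.exp (-(2 * y))) / 2 := by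
      rw [← h1, ← h2]; ring
    rw [this]
    linarith
  · rw [div_le_iff₀ hs, Real.sinh_eq]
    have : (1 + 2 * y) * Real.exp (-y) * ((Real.exp y - Real.exp (-y)) / 2) =
        (1 + 2 * y) * (1 - Real.exp (-(2 * y))) / 2 := by
      rw [← h1, ← h2]; ring
    rw [this]
    have h8 : (2 * y + 1) * Real.exp (-(2 * y)) ≤ 1 := by
      calc (2 * y + 1) * Real.exp (-(2 * y)) ≤ Real.exp (2 * y) * Real.exp (-(2 * y)) :=
            mul_le_mul_of_nonneg_right h4 h6.le
        _ = 1 := by rw [mul_comm]; exact h3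
    nlinarith

lemma phi_bounds {n : ℝ} (hn : 0 < n) (a : ℝ) :
    Real.exp (-(n * |a|)) ≤ phi n a ∧ phi n a ≤ (1 + 2 * (n * |a|)) * Real.exp (-(n * |a|)) := by
  unfold phi
  split_ifs with h
  · subst h; simp
  · have h1 : n * a / Real.sinh (n * a) = (n * |a|) / Real.sinh (n * |a|) := by
      rcases abs_cases a with ⟨h2, _⟩ | ⟨h2, _⟩
      · rw [h2]
      · rw [h2, mul_neg, Real.sinh_neg, neg_div_neg_eq]
    rw [h1]
    exact div_sinh_bounds (by positivity)

lemma al_bounds {n : ℝ} (hn : 0 < n) (m : ℤ) :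
    Real.exp (-(n * (|m| : ℤ) / 2)) ≤ al n m ∧
      al n m ≤ (1 + n * (|m| : ℤ)) * Real.exp (-(n * (|m| : ℤ) / 2)) := by
  have h := phi_bounds hn ((m : ℝ) / 2)
  unfold al
  have h1 : n * |(m : ℝ) / 2| = n * (|m| : ℤ) / 2 := by
    rw [abs_div, Int.cast_abs, abs_two]; ring
  rw [h1] at h
  refine ⟨h.1, h.2.trans (le_of_eq ?_)⟩
  ring

lemma al_pos {n : ℝ} (hn : 0 < n) (m : ℤ) : 0 < al n m :=
  lt_of_lt_of_le (Real.exp_pos _) (al_bounds hn m).1

lemma al_neg (n : ℝ) (m : ℤ) : al n (-m) = al n m := by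
  unfold al phi
  have h1 : (((-m : ℤ) : ℝ) / 2 = 0) ↔ ((m : ℝ) / 2 = 0) := by
    push_cast
    constructor <;> intro h <;> linarith
  by_cases h : (m : ℝ) / 2 = 0
  · rw [if_pos (h1.2 h), if_pos h]
  · rw [if_neg (fun e => h (h1.1 e)), if_neg h]
    have : n * (((-m : ℤ) : ℝ) / 2) = -(n * ((m : ℝ) / 2)) := by push_cast; ring
    rw [this, Real.sinh_neg, neg_div_neg_eq]

lemma al_le {n : ℝ} (hn : 0 < n) (m : ℤ) : al n m ≤ 4 * Real.exp (-(n * (|m| : ℤ) / 4)) := by
  refine (al_bounds hn m).2.trans ?_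
  set y : ℝ := n * (|m| : ℤ) / 4 with hy
  have hy0 : 0 ≤ y := by
    have : (0 : ℝ) ≤ (|m| : ℤ) := by exact_mod_cast abs_nonneg m
    positivity
  have e1 : n * (|m| : ℤ) = 4 * y := by rw [hy]; ring
  have e2 : Real.exp (-(n * (|m| : ℤ) / 2)) = Real.exp (-y) * Real.exp (-y) := by
    rw [← Real.exp_add]; congr 1; rw [hy]; ring
  rw [e2, e1]
  have h1 : (1 + 4 * y) * Real.exp (-y) ≤ 4 := by
    have h2 := Real.add_one_le_exp y
    have h3 : Real.exp y * Real.exp (-y) = 1 := by rw [← Real.exp_add]; simp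
    have h4 := Real.exp_pos (-y)
    nlinarith
  have h5 := Real.exp_pos (-y)
  nlinarith

/-- the uniform bound of the sums of the coefficients -/
noncomputable def C1 : ℝ := ∑' m : ℤ, 4 * Real.exp (-((|m| : ℤ) / 8 : ℝ))

lemma summable_exp_abs {b : ℝ} (hb : 0 < b) : Summable (fun m : ℤ => Real.exp (-(b * (|m| : ℤ)))) := by
  have h1 : Summable (fun n : ℕ => Real.exp (-(b * n))) := by
    have h2 := summable_geometric_of_lt_one (Real.exp_pos (-b)).le (by rw [Real.exp_lt_one_iff]; linarith : Real.exp (-b) < 1)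
    apply h2.congr
    intro n
    rw [← Real.exp_nat_mul]; congr 1; ring
  apply Summable.of_nat_of_neg
  · simpa using h1
  · simpa using h1

lemma summable_C1 : Summable (fun m : ℤ => 4 * Real.exp (-((|m| : ℤ) / 8 : ℝ))) := by
  have h := (summable_exp_abs (b := 1 / 8) (by norm_num)).mul_left 4
  apply h.congr
  intro m
  congr 2
  ring

lemma C1_ge : 1 ≤ C1 := by
  have h := summable_C1.le_tsum 0 (fun m _ => by positivity)
  have h2 : 4 * Real.exp (-((|(0 : ℤ)| : ℤ) / 8 : ℝ)) = 4 := by simp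
  rw [h2] at h
  exact le_trans (by norm_num) h

lemma summable_al {n : ℝ} (hn : 0 < n) : Summable (al n) := by
  have h := (summable_exp_abs (b := n / 4) (by positivity)).mul_left 4
  apply Summable.of_nonneg_of_le (fun m => (al_pos hn m).le) (fun m => ?_) h
  refine (al_le hn m).trans (le_of_eq ?_)
  congr 2
  ring

lemma al_le_C1 {n : ℝ} (hn : 1 ≤ n) (m : ℤ) : al n m ≤ 4 * Real.exp (-((|m| : ℤ) / 8 : ℝ)) := by
  refine (al_le (by linarith) m).trans ?_
  have : (0 : ℝ) ≤ (|m| : ℤ) := by exact_mod_cast abs_nonneg m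
  have h1 : Real.exp (-(n * (|m| : ℤ) / 4)) ≤ Real.exp (-((|m| : ℤ) / 8 : ℝ)) := by
    rw [Real.exp_le_exp]
    nlinarith
  linarith

/-- the density of the limit law -/
noncomputable def gC (n : ℝ) (x : T1) : ℂ := ∑' m : ℤ, (al n m : ℂ) * fo m x

lemma summable_gC {n : ℝ} (hn : 0 < n) (x : T1) : Summable (fun m : ℤ => (al n m : ℂ) * fo m x) := by
  apply Summable.of_norm_bounded (summable_al hn)
  intro m
  rw [norm_mul, norm_fo, mul_one, Complex.norm_real, Real.norm_eq_abs, abs_of_pos (al_pos hn m)]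

lemma continuous_gC {n : ℝ} (hn : 0 < n) : Continuous (gC n) := by
  apply continuous_tsum (fun m => continuous_const.mul (continuous_fo m)) (summable_al hn)
  intro m x
  show ‖(al n m : ℂ) * fo m x‖ ≤ al n m
  rw [norm_mul, norm_fo, mul_one, Complex.norm_real, Real.norm_eq_abs, abs_of_pos (al_pos hn m)]

lemma norm_gC_le {n : ℝ} (hn : 0 < n) (x : T1) : ‖gC n x‖ ≤ ∑' m, al n m := by
  unfold gC
  apply tsum_of_norm_bounded (summable_al hn).hasSum
  intro m
  rw [norm_mul, norm_fo, mul_one, Complex.norm_real, Real.norm_eq_abs, abs_of_pos (al_pos hn m)]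

lemma norm_gC_le' {n : ℝ} (hn : 1 ≤ n) (x : T1) : ‖gC n x‖ ≤ C1 :=
  (norm_gC_le (by linarith) x).trans
    ((summable_al (by linarith)).tsum_le_tsum (al_le_C1 hn) summable_C1)

lemma conj_gC (n : ℝ) (x : T1) : (starRingEnd ℂ) (gC n x) = gC n x := by
  unfold gC
  rw [Complex.conj_tsum]
  rw [← (Equiv.neg ℤ).tsum_eq]
  congr 1
  funext m
  simp only [Equiv.neg_apply, map_mul, Complex.conj_ofReal]
  rw [al_neg, ← fo_neg, neg_neg]

lemma gC_re (n : ℝ) (x : T1) : ((gC n x).re : ℂ) = gC n x := Complex.conj_eq_iff_re.1 (conj_gC n x)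

/-- truncated density -/
noncomputable def pK (n : ℝ) (K : ℕ) (x : T1) : ℂ :=
  ∑ m ∈ Icc (-(K : ℤ)) K, (al n m : ℂ) * fo m x

lemma norm_pK_le {n : ℝ} (hn : 1 ≤ n) (K : ℕ) (x : T1) : ‖pK n K x‖ ≤ C1 := by
  unfold pK
  have h1 : ‖∑ m ∈ Icc (-(K : ℤ)) K, (al n m : ℂ) * fo m x‖ ≤
      ∑ m ∈ Icc (-(K : ℤ)) K, 4 * Real.exp (-((|m| : ℤ) / 8 : ℝ)) := by
    apply (norm_sum_le _ _).trans
    apply Finset.sum_le_sum
    intro m _
    rw [norm_mul, norm_fo, mul_one, Complex.norm_real, Real.norm_eq_abs,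
      abs_of_pos (al_pos (by linarith) m)]
    exact al_le_C1 hn m
  refine h1.trans ?_
  exact summable_C1.sum_le_tsum _ (fun m _ => by positivity)

lemma gC_sub_pK {n : ℝ} (hn : 1 ≤ n) (K : ℕ) (x : T1) :
    ‖gC n x - pK n K x‖ ≤ C1 * Real.exp (-(n * K / 8)) := by
  have hn0 : 0 < n := by linarith
  have h1 : gC n x - pK n K x = ∑' m : ℤ, (if m ∈ Icc (-(K : ℤ)) K then 0 else (al n m : ℂ) * fo m x) := by
    unfold gC pK
    rw [sub_eq_iff_eq_add']
    have h2 : ∑ m ∈ Icc (-(K : ℤ)) K, (al n m : ℂ) * fo m x =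
        ∑' m : ℤ, (if m ∈ Icc (-(K : ℤ)) K then (al n m : ℂ) * fo m x else 0) := by
      rw [tsum_eq_sum (s := Icc (-(K : ℤ)) K)]
      · apply Finset.sum_congr rfl
        intro m hm
        rw [if_pos hm]
      · intro m hm
        rw [if_neg hm]
    rw [h2, ← Summable.tsum_add]
    · congr 1
      funext m
      split_ifs <;> simp
    · apply Summable.of_norm_bounded (summable_al hn0)
      intro m
      split_ifs
      · rw [norm_mul, norm_fo, mul_one, Complex.norm_real, Real.norm_eq_abs, abs_of_pos (al_pos hn0 m)]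
      · rw [norm_zero]; exact (al_pos hn0 m).le
    · apply Summable.of_norm_bounded (summable_al hn0)
      intro m
      split_ifs
      · rw [norm_zero]; exact (al_pos hn0 m).le
      · rw [norm_mul, norm_fo, mul_one, Complex.norm_real, Real.norm_eq_abs, abs_of_pos (al_pos hn0 m)]
  rw [h1]
  have h3 := (summable_C1.mul_right (Real.exp (-(n * K / 8)))).hasSum
  rw [tsum_mul_right] at h3
  apply tsum_of_norm_bounded h3
  intro m
  split_ifs with h
  · rw [norm_zero]; positivity
  · rw [norm_mul, norm_fo, mul_one, Complex.norm_real, Real.norm_eq_abs, abs_of_pos (al_pos hn0 m)]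
    refine (al_le hn0 m).trans ?_
    have hm : (K : ℤ) ≤ |m| := by
      by_contra hc
      push Not at hc
      apply h
      rw [Finset.mem_Icc]
      constructor
      · linarith [neg_abs_le m]
      · exact (le_abs_self m).trans hc.le
    have hm' : (K : ℝ) ≤ (|m| : ℤ) := by exact_mod_cast hm
    have hm0 : (0 : ℝ) ≤ (|m| : ℤ) := by exact_mod_cast abs_nonneg m
    rw [mul_assoc, ← Real.exp_add]
    apply mul_le_mul_of_nonneg_left _ (by norm_num)
    rw [Real.exp_le_exp]
    have hK0 : (0 : ℝ) ≤ K := Nat.cast_nonneg K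
    nlinarith [mul_le_mul_of_nonneg_left hm' hn0.le]

lemma prod_diff {ι : Type*} (s : Finset ι) (a b : ι → ℂ) (C η : ℝ) (hC : 1 ≤ C)
    (ha : ∀ i, ‖a i‖ ≤ C) (hb : ∀ i, ‖b i‖ ≤ C) (hab : ∀ i, ‖a i - b i‖ ≤ η) :
    ‖∏ i ∈ s, a i - ∏ i ∈ s, b i‖ ≤ s.card * C ^ s.card * η := by
  classical
  induction s using Finset.induction_on with
  | empty => simp
  | insert i s hi ih =>
    rw [Finset.prod_insert hi, Finset.prod_insert hi, Finset.card_insert_of_notMem hi]
    have e : a i * ∏ i ∈ s, a i - b i * ∏ i ∈ s, b i =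
        a i * (∏ i ∈ s, a i - ∏ i ∈ s, b i) + (a i - b i) * ∏ i ∈ s, b i := by ring
    rw [e]
    have hη : 0 ≤ η := (norm_nonneg _).trans (hab i)
    have hp : ‖∏ i ∈ s, b i‖ ≤ C ^ s.card := by
      rw [norm_prod]
      calc ∏ i ∈ s, ‖b i‖ ≤ ∏ _i ∈ s, C := Finset.prod_le_prod (fun _ _ => norm_nonneg _) (fun i _ => hb i)
        _ = C ^ s.card := by rw [Finset.prod_const]
    have hCp : C ^ s.card ≤ C ^ (s.card + 1) := pow_le_pow_right₀ hC (Nat.le_succ _)
    calc ‖a i * (∏ i ∈ s, a i - ∏ i ∈ s, b i) + (a i - b i) * ∏ i ∈ s, b i‖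
        ≤ C * (s.card * C ^ s.card * η) + η * C ^ s.card := by
          refine (norm_add_le _ _).trans (add_le_add ?_ ?_)
          · rw [norm_mul]
            exact mul_le_mul (ha i) ih (norm_nonneg _) (by linarith)
          · rw [norm_mul]
            exact mul_le_mul (hab i) hp (norm_nonneg _) hη
      _ ≤ ((s.card + 1 : ℕ) : ℝ) * C ^ (s.card + 1) * η := by
          push_cast
          have : η * C ^ s.card ≤ η * C ^ (s.card + 1) := mul_le_mul_of_nonneg_left hCp hη
          have e2 : C * (s.card * C ^ s.card * η) = s.card * C ^ (s.card + 1) * η := by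
            rw [pow_succ]; ring
          rw [e2]
          nlinarith

/-- the sign integral -/
noncomputable def FC {k : ℕ} (n : ℝ) (c : Fin k → T1) : ℂ :=
  ∫ x, (eps x : ℂ) * ∏ j, gC n (x j - c j) ∂(hm k)

/-- main part of the sign integral -/
noncomputable def FK {k : ℕ} (n : ℝ) (K : ℕ) (c : Fin k → T1) : ℂ :=
  ∑ m ∈ Fintype.piFinset (fun _ : Fin k => Icc (-(K : ℤ)) K),
    (∏ j, (al n (m j) : ℂ)) * ((∏ j, (starRingEnd ℂ) (fo (m j) (c j))) * cf m)

lemma FC_close {k : ℕ} {n : ℝ} (hn : 1 ≤ n) (K : ℕ) (c : Fin k → T1) :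
    ‖FC n c - FK n K c‖ ≤ k * C1 ^ k * (C1 * Real.exp (-(n * K / 8))) := by
  have hn0 : 0 < n := by linarith
  have h1 : FK n K c = ∫ x, (eps x : ℂ) * ∏ j, pK n K (x j - c j) ∂(hm k) := by
    have e1 : ∀ x : Fin k → T1, (eps x : ℂ) * ∏ j, pK n K (x j - c j) =
        ∑ m ∈ Fintype.piFinset (fun _ : Fin k => Icc (-(K : ℤ)) K),
          ((∏ j, (al n (m j) : ℂ)) * (∏ j, (starRingEnd ℂ) (fo (m j) (c j)))) *
            ((eps x : ℂ) * ∏ j, fo (m j) (x j)) := by
      intro x
      unfold pK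
      rw [Finset.prod_univ_sum, Finset.mul_sum]
      apply Finset.sum_congr rfl
      intro m _
      rw [Finset.prod_mul_distrib]
      have : ∏ j, fo (m j) (x j - c j) = (∏ j, fo (m j) (x j)) * ∏ j, (starRingEnd ℂ) (fo (m j) (c j)) := by
        rw [← Finset.prod_mul_distrib]
        apply Finset.prod_congr rfl
        intro j _
        rw [sub_eq_add_neg, fo_arg_add, fo_arg_neg]
      rw [this]
      ring
    simp only [e1]
    rw [integral_finsetSum]
    · unfold FK
      apply Finset.sum_congr rfl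
      intro m _
      rw [integral_const_mul]
      unfold cf
      ring
    · intro m _
      exact (integrable_cf m).const_mul _
  rw [h1]
  unfold FC
  have hcg : ∀ j : Fin k, Continuous (fun x : Fin k → T1 => gC n (x j - c j)) := fun j =>
    (continuous_gC hn0).comp ((continuous_apply j).sub continuous_const)
  have hcp : ∀ j : Fin k, Continuous (fun x : Fin k → T1 => pK n K (x j - c j)) := fun j => by
    unfold pK
    apply continuous_finsetSum
    intro m _
    exact continuous_const.mul ((continuous_fo m).comp ((continuous_apply j).sub continuous_const))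
  rw [← integral_sub]
  · have h2 := norm_integral_le_of_norm_le_const (μ := hm k)
      (f := fun x => (eps x : ℂ) * ∏ j, gC n (x j - c j) - (eps x : ℂ) * ∏ j, pK n K (x j - c j))
      (C := k * C1 ^ k * (C1 * Real.exp (-(n * K / 8)))) (Filter.Eventually.of_forall (fun x => by
        rw [← mul_sub, norm_mul, Complex.norm_real]
        have h3 := prod_diff univ (fun j => gC n (x j - c j)) (fun j => pK n K (x j - c j)) C1
          (C1 * Real.exp (-(n * K / 8))) C1_ge (fun j => norm_gC_le' hn _) (fun j => norm_pK_le hn K _)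
          (fun j => gC_sub_pK hn K _)
        rw [Finset.card_univ, Fintype.card_fin] at h3
        calc ‖eps x‖ * ‖∏ j, gC n (x j - c j) - ∏ j, pK n K (x j - c j)‖ ≤
            1 * (k * C1 ^ k * (C1 * Real.exp (-(n * K / 8)))) :=
              mul_le_mul (abs_eps_le x) h3 (norm_nonneg _) zero_le_one
          _ = _ := one_mul _))
    simpa using h2
  · apply integrable_eps_mul (continuous_finsetProd _ (fun j _ => hcg j)).measurable (C1 ^ k)
    intro x
    rw [norm_prod]
    calc ∏ j, ‖gC n (x j - c j)‖ ≤ ∏ _j : Fin k, C1 :=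
          Finset.prod_le_prod (fun _ _ => norm_nonneg _) (fun j _ => norm_gC_le' hn _)
      _ = C1 ^ k := by simp
  · apply integrable_eps_mul (continuous_finsetProd _ (fun j _ => hcp j)).measurable (C1 ^ k)
    intro x
    rw [norm_prod]
    calc ∏ j, ‖pK n K (x j - c j)‖ ≤ ∏ _j : Fin k, C1 :=
          Finset.prod_le_prod (fun _ _ => norm_nonneg _) (fun j _ => norm_pK_le hn K _)
      _ = C1 ^ k := by simp

end Pool.Agent.H96.LE
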