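import Pool.Agent.H96.LE.Tor3
import Pool.Agent.H96.LE.Loop8

/-!
# Asymptotics of the sign integral, continued
-/

namespace Pool.Agent.H96.LE

open Finset MeasureTheory Filter Topology

lemma rh_inj (k : ℕ) : Function.Injective (rh k) := by
  intro a b h
  unfold rh at h
  have : ((a : ℕ) : ℤ) = ((b : ℕ) : ℤ) := by linarith
  exact Fin.ext (by exact_mod_cast this)

lemma mem_image_rh {k : ℕ} {b : ℤ} (h1 : |b| ≤ (k : ℤ) - 1) (h2 : (b - ((k : ℤ) - 1)) % 2 = 0) :
    ∃ l, rh k l = b := by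
  have h3 := abs_le.1 h1
  obtain ⟨c, hc⟩ := Int.dvd_of_emod_eq_zero h2
  have h4 : 0 ≤ (b + ((k : ℤ) - 1)) := by linarith
  obtain ⟨l, hl⟩ : ∃ l : ℤ, b + ((k : ℤ) - 1) = 2 * l := ⟨c + ((k : ℤ) - 1), by linarith⟩
  have hl0 : 0 ≤ l := by linarith
  have hlk : l < k := by linarith [h3.2]
  refine ⟨⟨l.toNat, by omega⟩, ?_⟩
  unfold rh
  simp only
  rw [Int.toNat_of_nonneg hl0]
  linarith

lemma abs_rh_le {k : ℕ} (l : Fin k) : |rh k l| ≤ (k : ℤ) - 1 := by
  unfold rh
  have h1 : ((l : ℕ) : ℤ) < k := by exact_mod_cast l.isLt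
  have h2 : (0 : ℤ) ≤ ((l : ℕ) : ℤ) := Int.natCast_nonneg _
  rw [abs_le]
  constructor <;> linarith

/-- minimality of the frequencies -/
lemma freq_min {k : ℕ} (m : Fin k → ℤ) (hinj : Function.Injective m)
    (hpar : ∀ j, (m j - ((k : ℤ) - 1)) % 2 = 0) :
    (∃ σ : Equiv.Perm (Fin k), m = rh k ∘ σ) ∨ ∑ l, |rh k l| + 2 ≤ ∑ j, |m j| := by
  classical
  set A : Finset ℤ := univ.image m with hA
  set B : Finset ℤ := univ.image (rh k) with hB
  have hcA : A.card = k := by rw [hA, Finset.card_image_of_injective _ hinj]; simp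
  have hcB : B.card = k := by rw [hB, Finset.card_image_of_injective _ (rh_inj k)]; simp
  have hsA : ∑ j, |m j| = ∑ a ∈ A, |a| := by
    rw [hA, Finset.sum_image (fun a _ b _ h => hinj h)]
  have hsB : ∑ l, |rh k l| = ∑ b ∈ B, |b| := by
    rw [hB, Finset.sum_image (fun a _ b _ h => rh_inj k h)]
  have hd : (A \ B).card = (B \ A).card := by
    have h1 := Finset.card_sdiff_add_card_inter A B
    have h2 := Finset.card_sdiff_add_card_inter B A
    rw [Finset.inter_comm] at h2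
    omega
  have h1 : ∑ a ∈ A, |a| = ∑ a ∈ A \ B, |a| + ∑ a ∈ A ∩ B, |a| := by
    rw [← Finset.sum_sdiff (Finset.inter_subset_left : A ∩ B ⊆ A)]
    congr 1
    apply Finset.sum_congr _ (fun _ _ => rfl)
    ext z; simp
  have h2 : ∑ a ∈ B, |a| = ∑ a ∈ B \ A, |a| + ∑ a ∈ A ∩ B, |a| := by
    rw [← Finset.sum_sdiff (Finset.inter_subset_right : A ∩ B ⊆ B)]
    congr 1
    apply Finset.sum_congr _ (fun _ _ => rfl)
    ext z; simp
  have h3 : ((k : ℤ) + 1) * (A \ B).card ≤ ∑ a ∈ A \ B, |a| := by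
    rw [mul_comm, ← nsmul_eq_mul, ← Finset.sum_const]
    apply Finset.sum_le_sum
    intro a ha
    rw [Finset.mem_sdiff] at ha
    by_contra hc
    push Not at hc
    apply ha.2
    obtain ⟨j, _, hj⟩ := Finset.mem_image.1 ha.1
    have hp := hpar j
    rw [hj] at hp
    have hak : |a| ≤ (k : ℤ) - 1 := by
      by_contra hc2
      push Not at hc2
      have : |a| = k := by omega
      rcases abs_cases a with ⟨h, _⟩ | ⟨h, _⟩ <;> omega
    obtain ⟨l, hl⟩ := mem_image_rh hak hp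
    rw [← hl]
    exact Finset.mem_image_of_mem _ (Finset.mem_univ _)
  have h4 : ∑ a ∈ B \ A, |a| ≤ ((k : ℤ) - 1) * (B \ A).card := by
    rw [mul_comm, ← nsmul_eq_mul, ← Finset.sum_const]
    apply Finset.sum_le_sum
    intro b hb
    obtain ⟨l, _, hl⟩ := Finset.mem_image.1 (Finset.mem_sdiff.1 hb).1
    rw [← hl]
    exact abs_rh_le l
  by_cases hz : (A \ B).card = 0
  · left
    have hAB : A ⊆ B := Finset.sdiff_eq_empty_iff_subset.1 (Finset.card_eq_zero.1 hz)
    have hex : ∀ j, ∃ l, rh k l = m j := by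
      intro j
      have := hAB (Finset.mem_image_of_mem m (Finset.mem_univ j))
      obtain ⟨l, _, hl⟩ := Finset.mem_image.1 this
      exact ⟨l, hl⟩
    choose f hf using hex
    have hfi : Function.Injective f := by
      intro a b hab
      apply hinj
      rw [← hf a, ← hf b, hab]
    refine ⟨Equiv.ofBijective f (Finite.injective_iff_bijective.1 hfi), ?_⟩
    funext j
    simp only [Function.comp_apply, Equiv.ofBijective_apply]
    exact (hf j).symm
  · right
    have h5 : (1 : ℤ) ≤ (A \ B).card := by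
      have : 0 < (A \ B).card := Nat.pos_of_ne_zero hz
      exact_mod_cast this
    rw [hsA, hsB, h1, h2]
    rw [← hd] at h4
    nlinarith

/-- product of the leading coefficients -/
noncomputable def Ph (k : ℕ) (n : ℝ) : ℝ := ∏ l, al n (rh k l)

lemma Ph_pos (k : ℕ) {n : ℝ} (hn : 0 < n) : 0 < Ph k n := Finset.prod_pos (fun _ _ => al_pos hn _)

/-- sum of the frequencies -/
def sm (k : ℕ) : ℤ := ∑ l, |rh k l|

lemma prod_al_bounds {k : ℕ} {n : ℝ} (hn : 0 < n) (m : Fin k → ℤ) :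
    Real.exp (-(n * (∑ j, |m j| : ℤ) / 2)) ≤ ∏ j, al n (m j) ∧
    ∏ j, al n (m j) ≤ (∏ j, (1 + n * (|m j| : ℤ))) * Real.exp (-(n * (∑ j, |m j| : ℤ) / 2)) := by
  have h1 : Real.exp (-(n * (∑ j, |m j| : ℤ) / 2)) = ∏ j, Real.exp (-(n * (|m j| : ℤ) / 2)) := by
    rw [← Real.exp_sum]
    congr 1
    push_cast
    rw [Finset.mul_sum, Finset.sum_div, ← Finset.sum_neg_distrib]
  rw [h1]
  constructor
  · exact Finset.prod_le_prod (fun _ _ => (Real.exp_pos _).le) (fun j _ => (al_bounds hn (m j)).1)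
  · rw [← Finset.prod_mul_distrib]
    exact Finset.prod_le_prod (fun _ _ => (al_pos hn _).le) (fun j _ => (al_bounds hn (m j)).2)

lemma tendsto_poly_exp (b : ℝ) (hb : 0 < b) (k : ℕ) (K : ℝ) :
    Tendsto (fun n : ℝ => (1 + n * K) ^ k * Real.exp (-(b * n))) atTop (𝓝 0) := by
  have h1 : ∀ j : ℕ, Tendsto (fun n : ℝ => n ^ j * Real.exp (-(b * n))) atTop (𝓝 0) := by
    intro j
    have h2 := Real.tendsto_pow_mul_exp_neg_atTop_nhds_zero j
    have h3 : Tendsto (fun n : ℝ => b * n) atTop atTop := tendsto_id.const_mul_atTop hb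
    have h4 := (h2.comp h3).const_mul ((b ^ j)⁻¹)
    rw [mul_zero] at h4
    apply h4.congr
    intro n
    simp only [Function.comp_apply]
    rw [mul_pow]
    field_simp
  have h5 : (fun n : ℝ => (1 + n * K) ^ k * Real.exp (-(b * n))) =
      fun n : ℝ => ∑ i ∈ range (k + 1), (K ^ (k - i) * (k.choose i)) * (n ^ (k - i) * Real.exp (-(b * n))) := by
    funext n
    rw [add_pow, Finset.sum_mul]
    apply Finset.sum_congr rfl
    intro i _
    rw [one_pow, mul_pow]
    ring
  rw [h5]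
  have h6 : (0 : ℝ) = ∑ i ∈ range (k + 1), (K ^ (k - i) * (k.choose i)) * 0 := by simp
  rw [h6]
  exact tendsto_finsetSum _ (fun i _ => (h1 (k - i)).const_mul _)

/-- limit of each ratio -/
lemma ratio_lim {k : ℕ} (m : Fin k → ℤ) (hm : cf m ≠ 0) :
    Tendsto (fun n : ℝ => (∏ j, al n (m j)) / Ph k n) atTop
      (𝓝 (if ∃ σ : Equiv.Perm (Fin k), m = rh k ∘ σ then 1 else 0)) := by
  split_ifs with h
  · obtain ⟨σ, hσ⟩ := h
    apply tendsto_const_nhds.congr'
    filter_upwards [eventually_gt_atTop 0] with n hn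
    have : ∏ j, al n (m j) = Ph k n := by
      rw [hσ]
      exact Equiv.prod_comp σ (fun l => al n (rh k l))
    rw [this, div_self (Ph_pos k hn).ne']
  · have h2 := (freq_min m (cf_inj m hm) (cf_parity' m hm)).resolve_left h
    set K : ℝ := ∑ j, ((|m j| : ℤ) : ℝ) with hK
    have hK1 : ∀ j, ((|m j| : ℤ) : ℝ) ≤ K := by
      intro j
      exact Finset.single_le_sum (f := fun j => ((|m j| : ℤ) : ℝ))
        (fun i _ => by exact_mod_cast abs_nonneg (m i)) (Finset.mem_univ j)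
    have h3 := tendsto_poly_exp 1 one_pos k K
    apply squeeze_zero' (g := fun n : ℝ => (1 + n * K) ^ k * Real.exp (-(1 * n))) _ _ h3
    · filter_upwards [eventually_gt_atTop 0] with n hn
      exact div_nonneg (Finset.prod_nonneg (fun _ _ => (al_pos hn _).le)) (Ph_pos k hn).le
    · filter_upwards [eventually_gt_atTop 0] with n hn
      rw [div_le_iff₀ (Ph_pos k hn)]
      have h4 := (prod_al_bounds hn m).2
      have h5 := (prod_al_bounds hn (rh k)).1
      have h6 : ∏ j, (1 + n * (|m j| : ℤ)) ≤ (1 + n * K) ^ k := by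
        calc ∏ j, (1 + n * ((|m j| : ℤ) : ℝ)) ≤ ∏ _j : Fin k, (1 + n * K) := by
              apply Finset.prod_le_prod
              · intro j _
                have : (0 : ℝ) ≤ ((|m j| : ℤ) : ℝ) := by exact_mod_cast abs_nonneg (m j)
                positivity
              · intro j _
                have := mul_le_mul_of_nonneg_left (hK1 j) hn.le
                linarith
          _ = (1 + n * K) ^ k := by simp
      have h7 : Real.exp (-(n * (∑ j, |m j| : ℤ) / 2)) ≤
          Real.exp (-(1 * n)) * Real.exp (-(n * (∑ l, |rh k l| : ℤ) / 2)) := by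
        rw [← Real.exp_add, Real.exp_le_exp]
        have h8 : ((∑ l, |rh k l| : ℤ) : ℝ) + 2 ≤ ((∑ j, |m j| : ℤ) : ℝ) := by exact_mod_cast h2
        nlinarith
      have hK0 : 0 ≤ (1 + n * K) ^ k := by
        have : 0 ≤ K := Finset.sum_nonneg (fun i _ => by exact_mod_cast abs_nonneg (m i))
        positivity
      calc ∏ j, al n (m j) ≤ (∏ j, (1 + n * (|m j| : ℤ))) * Real.exp (-(n * (∑ j, |m j| : ℤ) / 2)) := h4
        _ ≤ (1 + n * K) ^ k * (Real.exp (-(1 * n)) * Real.exp (-(n * (∑ l, |rh k l| : ℤ) / 2))) :=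
            mul_le_mul h6 h7 (Real.exp_pos _).le hK0
        _ = (1 + n * K) ^ k * Real.exp (-(1 * n)) * Real.exp (-(n * (∑ l, |rh k l| : ℤ) / 2)) := by ring
        _ ≤ (1 + n * K) ^ k * Real.exp (-(1 * n)) * Ph k n :=
            mul_le_mul_of_nonneg_left h5 (mul_nonneg hK0 (Real.exp_pos _).le)

/-- the limiting constant -/
noncomputable def LC {k : ℕ} (c : Fin k → T1) : ℂ :=
  cf (rh k) * (starRingEnd ℂ) ((2 * Complex.I) ^ (np k) * (Dd c : ℂ))

lemma LC_ne_zero {k : ℕ} (c : Fin k → T1) (hc : Dd c ≠ 0) : LC c ≠ 0 := by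
  unfold LC
  apply mul_ne_zero (cf_rh_ne_zero k)
  rw [ne_eq, map_eq_zero]
  apply mul_ne_zero (pow_ne_zero _ (by simp))
  exact_mod_cast hc

lemma sum_LC {k : ℕ} (c : Fin k → T1) (K : ℕ) (hK : k ≤ K) :
    ∑ m ∈ Fintype.piFinset (fun _ : Fin k => Icc (-(K : ℤ)) K),
      ((if ∃ σ : Equiv.Perm (Fin k), m = rh k ∘ σ then (1 : ℝ) else 0 : ℝ) : ℂ) *
        ((∏ j, (starRingEnd ℂ) (fo (m j) (c j))) * cf m) = LC c := by
  classical
  have h1 : ∑ m ∈ Fintype.piFinset (fun _ : Fin k => Icc (-(K : ℤ)) K),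
      ((if ∃ σ : Equiv.Perm (Fin k), m = rh k ∘ σ then (1 : ℝ) else 0 : ℝ) : ℂ) *
        ((∏ j, (starRingEnd ℂ) (fo (m j) (c j))) * cf m) =
      ∑ m ∈ (univ : Finset (Equiv.Perm (Fin k))).image (fun σ : Equiv.Perm (Fin k) => rh k ∘ σ),
        ((∏ j, (starRingEnd ℂ) (fo (m j) (c j))) * cf m) := by
    symm
    apply Finset.sum_subset_zero_on_sdiff
    · intro m hm
      obtain ⟨σ, _, rfl⟩ := Finset.mem_image.1 hm
      rw [Fintype.mem_piFinset]
      intro j
      have := abs_le.1 (abs_rh_le (σ j))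
      rw [Finset.mem_Icc]
      simp only [Function.comp_apply]
      constructor <;> push_cast <;> omega
    · intro m hm
      rw [Finset.mem_sdiff] at hm
      rw [if_neg]
      · simp
      · rintro ⟨σ, hσ⟩
        exact hm.2 (Finset.mem_image.2 ⟨σ, Finset.mem_univ _, hσ.symm⟩)
    · intro m hm
      obtain ⟨σ, _, hσ⟩ := Finset.mem_image.1 hm
      rw [if_pos ⟨σ, hσ.symm⟩]
      simp
  rw [h1, Finset.sum_image]
  · unfold LC
    rw [← sum_perm_fo, map_sum, Finset.mul_sum]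
    apply Finset.sum_congr rfl
    intro σ _
    rw [cf_perm, map_mul, map_prod]
    simp only [Function.comp_apply, map_intCast]
    ring
  · intro σ _ τ _ h
    ext i
    have := congrFun h i
    simp only [Function.comp_apply] at this
    rw [rh_inj k this]

theorem FC_lim {k : ℕ} (hk : 1 ≤ k) (c : Fin k → T1) :
    Tendsto (fun n : ℝ => FC n c / (Ph k n : ℂ)) atTop (𝓝 (LC c)) := by
  set K : ℕ := 8 * k ^ 2 with hK
  have hkK : k ≤ K := by rw [hK]; nlinarith
  have h1 : Tendsto (fun n : ℝ => FK n K c / (Ph k n : ℂ)) atTop (𝓝 (LC c)) := by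
    rw [← sum_LC c K hkK]
    have e1 : (fun n : ℝ => FK n K c / (Ph k n : ℂ)) = fun n : ℝ =>
        ∑ m ∈ Fintype.piFinset (fun _ : Fin k => Icc (-(K : ℤ)) K),
          (((∏ j, al n (m j)) / Ph k n : ℝ) : ℂ) *
            ((∏ j, (starRingEnd ℂ) (fo (m j) (c j))) * cf m) := by
      funext n
      unfold FK
      rw [Finset.sum_div]
      apply Finset.sum_congr rfl
      intro m _
      push_cast
      ring
    rw [e1]
    apply tendsto_finsetSum
    intro m _
    by_cases hm : cf m = 0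
    · simp only [hm, mul_zero]
      exact tendsto_const_nhds
    · apply Tendsto.mul_const
      exact (Complex.continuous_ofReal.tendsto _).comp (ratio_lim m hm)
  have h2 : Tendsto (fun n : ℝ => (FC n c - FK n K c) / (Ph k n : ℂ)) atTop (𝓝 0) := by
    rw [tendsto_zero_iff_norm_tendsto_zero]
    have h3 : Tendsto (fun n : ℝ => (k * C1 ^ k * C1) * ((1 + n * 0) ^ 0 * Real.exp (-(((k : ℝ) ^ 2 / 2) * n))))
        atTop (𝓝 0) := by
      have h4 := (tendsto_poly_exp ((k : ℝ) ^ 2 / 2) (by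
        have : (1 : ℝ) ≤ k := by exact_mod_cast hk
        positivity) 0 0).const_mul (k * C1 ^ k * C1)
      rwa [mul_zero] at h4
    apply squeeze_zero' (Filter.Eventually.of_forall (fun n => norm_nonneg _)) _ h3
    filter_upwards [eventually_ge_atTop 1] with n hn
    have hn0 : 0 < n := by linarith
    rw [norm_div, Complex.norm_real, Real.norm_eq_abs, abs_of_pos (Ph_pos k hn0), div_le_iff₀ (Ph_pos k hn0)]
    refine (FC_close hn K c).trans ?_
    have h5 := (prod_al_bounds hn0 (rh k)).1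
    have hC : 0 < C1 := by linarith [C1_ge]
    have h6 : Real.exp (-(n * K / 8)) ≤ Real.exp (-(((k : ℝ) ^ 2 / 2) * n)) * Ph k n := by
      refine le_trans ?_ (mul_le_mul_of_nonneg_left h5 (Real.exp_pos _).le)
      rw [← Real.exp_add, Real.exp_le_exp]
      have h7 : ((∑ l, |rh k l| : ℤ) : ℝ) ≤ (k : ℝ) ^ 2 := by
        have : (∑ l, |rh k l| : ℤ) ≤ ∑ _l : Fin k, (k : ℤ) :=
          Finset.sum_le_sum (fun l _ => (abs_rh_le l).trans (by linarith))
        rw [Finset.sum_const, Finset.card_univ, Fintype.card_fin, nsmul_eq_mul] at this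
        have h8 : ((∑ l, |rh k l| : ℤ) : ℝ) ≤ ((k * k : ℤ) : ℝ) := by exact_mod_cast this
        push_cast at h8 ⊢
        nlinarith
      have h9 : (K : ℝ) = 8 * (k : ℝ) ^ 2 := by rw [hK]; push_cast; ring
      rw [h9]
      nlinarith
    calc k * C1 ^ k * (C1 * Real.exp (-(n * K / 8))) = k * C1 ^ k * C1 * Real.exp (-(n * K / 8)) := by ring
      _ ≤ k * C1 ^ k * C1 * (Real.exp (-(((k : ℝ) ^ 2 / 2) * n)) * Ph k n) :=
          mul_le_mul_of_nonneg_left h6 (by positivity)
      _ = (k * C1 ^ k * C1) * ((1 + n * 0) ^ 0 * Real.exp (-(((k : ℝ) ^ 2 / 2) * n))) * Ph k n := by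
          simp; ring
  have h3 := h1.add h2
  rw [add_zero] at h3
  apply h3.congr
  intro n
  ring

lemma al_log (m : ℤ) : Tendsto (fun n : ℝ => -(1 / n) * Real.log (al n m)) atTop (𝓝 ((|m| : ℤ) / 2 : ℝ)) := by
  have h0 : (0 : ℝ) ≤ ((|m| : ℤ) : ℝ) := by exact_mod_cast abs_nonneg m
  have h1 : Tendsto (fun n : ℝ => ((|m| : ℤ) / 2 : ℝ) - Real.log (1 + n * (|m| : ℤ)) / n) atTop
      (𝓝 ((|m| : ℤ) / 2 - 0 : ℝ)) := by
    apply tendsto_const_nhds.sub
    by_cases hm : ((|m| : ℤ) : ℝ) = 0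
    · simp only [hm, mul_zero, add_zero, Real.log_one, zero_div]
      exact tendsto_const_nhds
    · have hm' : 0 < ((|m| : ℤ) : ℝ) := lt_of_le_of_ne h0 (Ne.symm hm)
      have h2 : Tendsto (fun y : ℝ => Real.log y / y) atTop (𝓝 0) := by
        have := Real.isLittleO_log_id_atTop.tendsto_div_nhds_zero
        simpa using this
      have h3 : Tendsto (fun n : ℝ => 1 + n * ((|m| : ℤ) : ℝ)) atTop atTop :=
        tendsto_atTop_add_const_left _ _ (tendsto_id.atTop_mul_const hm')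
      have h4 := h2.comp h3
      have h5 : Tendsto (fun n : ℝ => (1 + n * ((|m| : ℤ) : ℝ)) / n) atTop (𝓝 (0 + ((|m| : ℤ) : ℝ))) := by
        have h6 : Tendsto (fun n : ℝ => 1 / n + ((|m| : ℤ) : ℝ)) atTop (𝓝 (0 + ((|m| : ℤ) : ℝ))) :=
          (tendsto_const_nhds.div_atTop tendsto_id).add tendsto_const_nhds
        apply h6.congr'
        filter_upwards [eventually_gt_atTop 0] with n hn
        field_simp
      have h7 := h4.mul h5
      rw [zero_mul] at h7
      apply h7.congr'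
      filter_upwards [eventually_gt_atTop 0] with n hn
      simp only [Function.comp_apply]
      have : 1 + n * ((|m| : ℤ) : ℝ) ≠ 0 := by positivity
      field_simp
  rw [sub_zero] at h1
  apply tendsto_of_tendsto_of_tendsto_of_le_of_le' h1 tendsto_const_nhds
  · filter_upwards [eventually_gt_atTop 0] with n hn
    have h2 := Real.log_le_log (al_pos hn m) (al_bounds hn m).2
    rw [Real.log_mul (by positivity) (Real.exp_pos _).ne', Real.log_exp] at h2
    have h3 : 0 < 1 / n := by positivity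
    have h4 := mul_le_mul_of_nonneg_left h2 h3.le
    have h5 : 1 / n * (Real.log (1 + n * (|m| : ℤ)) + -(n * (|m| : ℤ) / 2)) =
        Real.log (1 + n * (|m| : ℤ)) / n - (|m| : ℤ) / 2 := by
      field_simp
      ring
    rw [h5] at h4
    linarith
  · filter_upwards [eventually_gt_atTop 0] with n hn
    have h2 := Real.log_le_log (Real.exp_pos _) (al_bounds hn m).1
    rw [Real.log_exp] at h2
    have h3 : 0 < 1 / n := by positivity
    have h4 := mul_le_mul_of_nonneg_left h2 h3.le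
    have h5 : 1 / n * (-(n * (|m| : ℤ) / 2)) = -((|m| : ℤ) / 2 : ℝ) := by
      field_simp
    rw [h5] at h4
    linarith

lemma Ph_log (k : ℕ) : Tendsto (fun n : ℝ => -(1 / n) * Real.log (Ph k n)) atTop (𝓝 ((sm k : ℝ) / 2)) := by
  have h1 := tendsto_finsetSum (univ : Finset (Fin k)) (fun l _ => al_log (rh k l))
  have h2 : ∑ l, ((|rh k l| : ℤ) / 2 : ℝ) = (sm k : ℝ) / 2 := by
    unfold sm
    push_cast
    rw [Finset.sum_div]
  rw [h2] at h1
  apply h1.congr'
  filter_upwards [eventually_gt_atTop 0] with n hn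
  unfold Ph
  rw [Real.log_prod (fun l _ => (al_pos hn _).ne'), Finset.mul_sum]

theorem FC_log {k : ℕ} (hk : 1 ≤ k) (c : Fin k → T1) (hc : Dd c ≠ 0) :
    Tendsto (fun n : ℝ => -(1 / n) * Real.log ‖FC n c‖) atTop (𝓝 ((sm k : ℝ) / 2)) := by
  have h1 := (FC_lim hk c).norm
  have h2 : ‖LC c‖ ≠ 0 := norm_ne_zero_iff.2 (LC_ne_zero c hc)
  have h3 := h1.log h2
  have h4 : Tendsto (fun n : ℝ => -(1 / n)) atTop (𝓝 0) := by
    have := (tendsto_const_nhds (x := (1 : ℝ))).div_atTop (tendsto_id (α := ℝ) (x := atTop))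
    simpa using this.neg
  have h5 := (h4.mul h3).add (Ph_log k)
  rw [zero_mul, zero_add] at h5
  apply h5.congr'
  have h6 : ∀ᶠ n : ℝ in atTop, ‖FC n c / (Ph k n : ℂ)‖ ≠ 0 := by
    have := h1.eventually_ne h2
    exact this
  filter_upwards [eventually_gt_atTop 0, h6] with n hn h7
  have h8 : ‖FC n c‖ = ‖FC n c / (Ph k n : ℂ)‖ * Ph k n := by
    rw [norm_div, Complex.norm_real, Real.norm_eq_abs, abs_of_pos (Ph_pos k hn)]
    have := (Ph_pos k hn).ne'
    field_simp
  rw [h8, Real.log_mul h7 (Ph_pos k hn).ne']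
  ring

lemma sm_succ_succ (k : ℕ) : sm (k + 2) = sm k + 2 * (k + 1) := by
  unfold sm
  rw [Fin.sum_univ_succ, Fin.sum_univ_castSucc]
  have h1 : |rh (k + 2) 0| = (k : ℤ) + 1 := by
    unfold rh
    simp only [Fin.val_zero, Nat.cast_zero, mul_zero, zero_sub, abs_neg]
    push_cast
    have : (0 : ℤ) ≤ k := Int.natCast_nonneg k
    rw [abs_of_nonneg (by linarith)]
    ring
  have h2 : |rh (k + 2) (Fin.last k).succ| = (k : ℤ) + 1 := by
    unfold rh
    simp only [Fin.val_succ, Fin.val_last]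
    push_cast
    rw [abs_of_nonneg (by linarith [Int.natCast_nonneg k])]
    ring
  have h3 : ∀ i : Fin k, rh (k + 2) i.castSucc.succ = rh k i := by
    intro i
    unfold rh
    simp only [Fin.val_succ, Fin.val_castSucc]
    push_cast
    ring
  simp only [h1, h2, h3]
  ring

lemma sm_odd (j : ℕ) : (sm (2 * j + 1) : ℝ) = (((2 * j + 1 : ℕ) : ℝ) ^ 2 - 1) / 2 := by
  induction j with
  | zero => simp [sm, rh]
  | succ j ih =>
    have : 2 * (j + 1) + 1 = (2 * j + 1) + 2 := by ring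
    rw [this, sm_succ_succ]
    push_cast at ih ⊢
    rw [ih]
    ring

lemma sm_even (j : ℕ) : (sm (2 * j) : ℝ) = ((2 * j : ℕ) : ℝ) ^ 2 / 2 := by
  induction j with
  | zero => simp [sm]
  | succ j ih =>
    have : 2 * (j + 1) = 2 * j + 2 := by ring
    rw [this, sm_succ_succ]
    push_cast at ih ⊢
    rw [ih]
    ring

/-- the non-intersection probability in the scaling limit -/
noncomputable def pn {k : ℕ} (n : ℝ) (c : Fin k → T1) : ℝ :=
  ‖FC n c‖ * (if k % 2 = 0 then Real.exp (Lf n) else 1)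

theorem pn_log {k : ℕ} (hk : 1 ≤ k) (c : Fin k → T1) (hc : Dd c ≠ 0) :
    Tendsto (fun n : ℝ => -(1 / n) * Real.log (pn n c)) atTop (𝓝 (((k : ℝ) ^ 2 - 1) / 4)) := by
  have h0 := FC_log hk c hc
  have h00 : ∀ᶠ n : ℝ in atTop, ‖FC n c‖ ≠ 0 := by
    have h1 := (FC_lim hk c).norm
    have h2 : ‖LC c‖ ≠ 0 := norm_ne_zero_iff.2 (LC_ne_zero c hc)
    filter_upwards [h1.eventually_ne h2] with n hn h
    apply hn
    rw [norm_div, h, zero_div]
  rcases Nat.even_or_odd' k with ⟨j, hj | hj⟩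
  · have hk0 : k % 2 = 0 := by omega
    have h1 := h0.sub Lf_asym
    have h2 : (sm k : ℝ) / 2 - 1 / 4 = ((k : ℝ) ^ 2 - 1) / 4 := by
      rw [hj, sm_even]; push_cast; ring
    rw [h2] at h1
    apply h1.congr'
    filter_upwards [h00, eventually_gt_atTop 0] with n hn hn0
    unfold pn
    rw [if_pos hk0, Real.log_mul hn (Real.exp_pos _).ne', Real.log_exp]
    ring
  · have hk0 : ¬ k % 2 = 0 := by omega
    have h2 : (sm k : ℝ) / 2 = ((k : ℝ) ^ 2 - 1) / 4 := by
      rw [hj, sm_odd]; push_cast; ring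
    rw [h2] at h0
    apply h0.congr
    intro n
    unfold pn
    rw [if_neg hk0, mul_one]

end Pool.Agent.H96.LE
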