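import Pool.Agent.H96.LE.Tor4

/-!
# Weak convergence on the circle
-/

namespace Pool.Agent.H96.LE

open Finset MeasureTheory Filter Topology

/-- Haar probability measure on the circle -/
noncomputable abbrev hr : Measure T1 := AddCircle.haarAddCircle

lemma integral_fo (j : ℤ) : ∫ x, fo j x ∂hr = if j = 0 then 1 else 0 := by
  split_ifs with h
  · subst h
    simp [fo_zero]
  · set v : T1 := (((1 : ℝ) / (2 * j) : ℝ) : T1) with hv
    have h1 : ∫ x, fo j (x + v) ∂hr = ∫ x, fo j x ∂hr := integral_add_right_eq_self (fo j) v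
    have h2 : fo j v = -1 := by
      rw [hv, fo_coe]
      have hj : (j : ℂ) ≠ 0 := by exact_mod_cast h
      have : 2 * (Real.pi : ℂ) * Complex.I * (j : ℂ) * (((1 : ℝ) / (2 * j) : ℝ) : ℂ) = Real.pi * Complex.I := by
        push_cast
        field_simp
      rw [this, Complex.exp_pi_mul_I]
    have h3 : ∫ x, fo j (x + v) ∂hr = - ∫ x, fo j x ∂hr := by
      rw [← integral_neg]
      congr 1
      funext x
      rw [fo_arg_add, h2]
      ring
    rw [h3] at h1
    have h4 : (2 : ℂ) * ∫ x, fo j x ∂hr = 0 := by linear_combination -h1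
    exact (mul_eq_zero.1 h4).resolve_left two_ne_zero

lemma integrable_cont {f : T1 → ℂ} (hf : Continuous f) (μ : Measure T1) [IsFiniteMeasure μ] :
    Integrable f μ := by
  obtain ⟨C, hC⟩ := (isCompact_range hf).isBounded.exists_norm_le
  exact Integrable.of_bound hf.aestronglyMeasurable C
    (Filter.Eventually.of_forall (fun x => hC _ (Set.mem_range_self x)))

lemma integral_fo_gC {n : ℝ} (hn : 0 < n) (c : T1) (m : ℤ) :
    ∫ x, fo m x * gC n (x - c) ∂hr = (al n m : ℂ) * fo m c := by
  have h1 : ∀ x, fo m x * gC n (x - c) = ∑' j : ℤ, fo m x * ((al n j : ℂ) * fo j (x - c)) := by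
    intro x
    unfold gC
    rw [tsum_mul_left]
  simp only [h1]
  have hc : ∀ j : ℤ, Continuous (fun x : T1 => fo m x * ((al n j : ℂ) * fo j (x - c))) := fun j =>
    (continuous_fo m).mul (continuous_const.mul ((continuous_fo j).comp (continuous_id.sub continuous_const)))
  have hnorm : ∀ (j : ℤ) (x : T1), ‖fo m x * ((al n j : ℂ) * fo j (x - c))‖ = al n j := by
    intro j x
    rw [norm_mul, norm_mul, norm_fo, norm_fo, one_mul, mul_one, Complex.norm_real, Real.norm_eq_abs,
      abs_of_pos (al_pos hn j)]
  rw [← integral_tsum_of_summable_integral_norm (fun j => integrable_cont (hc j) hr)]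
  · have h2 : ∀ j : ℤ, ∫ x, fo m x * ((al n j : ℂ) * fo j (x - c)) ∂hr =
        if j = -m then (al n m : ℂ) * fo m c else 0 := by
      intro j
      have h3 : ∀ x, fo m x * ((al n j : ℂ) * fo j (x - c)) =
          ((al n j : ℂ) * (starRingEnd ℂ) (fo j c)) * fo (m + j) x := by
        intro x
        rw [sub_eq_add_neg, fo_arg_add, fo_arg_neg, fo_add]
        ring
      simp only [h3]
      rw [integral_const_mul, integral_fo]
      by_cases hj : j = -m
      · subst hj
        rw [if_pos (by ring), if_pos rfl, al_neg, ← fo_neg, neg_neg, mul_one]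
      · rw [if_neg (fun h => hj (by linarith)), if_neg hj, mul_zero]
    simp only [h2]
    rw [tsum_ite_eq]
  · simp only [hnorm]
    simpa using summable_al hn

section weak

variable {ι : Type*} {l : Filter ι}

lemma conv_all {n : ℝ} (hn : 0 < n) (c : T1) (P : ι → ProbabilityMeasure T1)
    (h : ∀ m : ℤ, Tendsto (fun i => ∫ x, fo m x ∂(P i : Measure T1)) l (𝓝 ((al n m : ℂ) * fo m c)))
    (f : C(T1, ℂ)) :
    Tendsto (fun i => ∫ x, f x ∂(P i : Measure T1)) l (𝓝 (∫ x, f x * gC n (x - c) ∂hr)) := by
  have hg : Continuous (fun x : T1 => gC n (x - c)) :=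
    (continuous_gC hn).comp (continuous_id.sub continuous_const)
  -- span
  have hspan : ∀ g ∈ Submodule.span ℂ (Set.range (fourier (T := (1 : ℝ)))),
      Tendsto (fun i => ∫ x, g x ∂(P i : Measure T1)) l (𝓝 (∫ x, g x * gC n (x - c) ∂hr)) := by
    intro g hg'
    induction hg' using Submodule.span_induction with
    | mem g hg' =>
      obtain ⟨m, rfl⟩ := hg'
      have := h m
      rw [← integral_fo_gC hn c m] at this
      exact this
    | zero =>
      simp only [ContinuousMap.zero_apply, integral_zero, zero_mul]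
      exact tendsto_const_nhds
    | add g1 g2 _ _ h1 h2 =>
      have h3 := h1.add h2
      have e1 : ∫ x, (g1 + g2) x * gC n (x - c) ∂hr =
          ∫ x, g1 x * gC n (x - c) ∂hr + ∫ x, g2 x * gC n (x - c) ∂hr := by
        have e0 : ∫ x, (g1 x * gC n (x - c) + g2 x * gC n (x - c)) ∂hr =
            ∫ x, g1 x * gC n (x - c) ∂hr + ∫ x, g2 x * gC n (x - c) ∂hr :=
          integral_add (integrable_cont (g1.continuous.mul hg) hr)
            (integrable_cont (g2.continuous.mul hg) hr)
        rw [← e0]
        congr 1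
        funext x
        simp only [ContinuousMap.add_apply]
        ring
      rw [e1]
      apply h3.congr
      intro i
      rw [← integral_add (integrable_cont g1.continuous _) (integrable_cont g2.continuous _)]
      rfl
    | smul a g _ h1 =>
      have h3 := h1.const_mul a
      have e1 : ∫ x, (a • g) x * gC n (x - c) ∂hr = a * ∫ x, g x * gC n (x - c) ∂hr := by
        rw [← integral_const_mul]
        congr 1
        funext x
        simp only [ContinuousMap.smul_apply, smul_eq_mul]
        ring
      rw [e1]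
      apply h3.congr
      intro i
      rw [← integral_const_mul]
      rfl
  have hcl : f ∈ closure ((Submodule.span ℂ (Set.range (fourier (T := (1 : ℝ)))) : Set C(T1, ℂ))) := by
    have := span_fourier_closure_eq_top (T := (1 : ℝ))
    have h2 : f ∈ (Submodule.span ℂ (Set.range (fourier (T := (1 : ℝ))))).topologicalClosure := by
      rw [this]; trivial
    exact h2
  rw [Metric.tendsto_nhds]
  intro ε hε
  set S : ℝ := ∑' m, al n m with hS
  have hS0 : 0 ≤ S := tsum_nonneg (fun m => (al_pos hn m).le)
  obtain ⟨g, hgs, hfg⟩ := Metric.mem_closure_iff.1 hcl (ε / (2 * (S + 2))) (by positivity)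
  have hfg' : ∀ x, ‖f x - g x‖ ≤ ε / (2 * (S + 2)) := by
    intro x
    rw [dist_eq_norm] at hfg
    exact ((f - g).norm_coe_le_norm x).trans hfg.le
  have h1 := Metric.tendsto_nhds.1 (hspan g hgs) (ε / 2) (by positivity)
  filter_upwards [h1] with i hi
  have h2 : ‖∫ x, f x ∂(P i : Measure T1) - ∫ x, g x ∂(P i : Measure T1)‖ ≤ ε / (2 * (S + 2)) := by
    rw [← integral_sub (integrable_cont f.continuous _) (integrable_cont g.continuous _)]
    have := norm_integral_le_of_norm_le_const (μ := (P i : Measure T1)) (f := fun x => f x - g x)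
      (Filter.Eventually.of_forall hfg')
    simpa using this
  have h3 : ‖∫ x, g x * gC n (x - c) ∂hr - ∫ x, f x * gC n (x - c) ∂hr‖ ≤ ε / (2 * (S + 2)) * S := by
    have e : ∫ x, g x * gC n (x - c) ∂hr - ∫ x, f x * gC n (x - c) ∂hr =
        ∫ x, (g x * gC n (x - c) - f x * gC n (x - c)) ∂hr :=
      (integral_sub (integrable_cont (g.continuous.mul hg) hr)
        (integrable_cont (f.continuous.mul hg) hr)).symm
    rw [e]
    have := norm_integral_le_of_norm_le_const (μ := hr)
      (f := fun x => g x * gC n (x - c) - f x * gC n (x - c)) (C := ε / (2 * (S + 2)) * S)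
      (Filter.Eventually.of_forall (fun x => by
        rw [← sub_mul, norm_mul, norm_sub_rev]
        exact mul_le_mul (hfg' x) (norm_gC_le hn _) (norm_nonneg _) (by positivity)))
    simpa using this
  rw [dist_eq_norm] at hi ⊢
  have h4 : ∫ x, f x ∂(P i : Measure T1) - ∫ x, f x * gC n (x - c) ∂hr =
      (∫ x, f x ∂(P i : Measure T1) - ∫ x, g x ∂(P i : Measure T1)) +
      (∫ x, g x ∂(P i : Measure T1) - ∫ x, g x * gC n (x - c) ∂hr) +
      (∫ x, g x * gC n (x - c) ∂hr - ∫ x, f x * gC n (x - c) ∂hr) := by ring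
  rw [h4]
  have h5 := norm_add₃_le (a := ∫ x, f x ∂(P i : Measure T1) - ∫ x, g x ∂(P i : Measure T1))
    (b := ∫ x, g x ∂(P i : Measure T1) - ∫ x, g x * gC n (x - c) ∂hr)
    (c := ∫ x, g x * gC n (x - c) ∂hr - ∫ x, f x * gC n (x - c) ∂hr)
  have h6 : ε / (2 * (S + 2)) + ε / (2 * (S + 2)) * S < ε / 2 := by
    have : ε / (2 * (S + 2)) + ε / (2 * (S + 2)) * S = ε / 2 * ((1 + S) / (S + 2)) := by
      field_simp
    rw [this]
    have h7 : (1 + S) / (S + 2) < 1 := by rw [div_lt_one (by linarith)]; linarith
    nlinarith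
  linarith

/-- real density -/
noncomputable def gR (n : ℝ) (c x : T1) : ℝ := (gC n (x - c)).re

lemma continuous_gR {n : ℝ} (hn : 0 < n) (c : T1) : Continuous (gR n c) :=
  Complex.continuous_re.comp ((continuous_gC hn).comp (continuous_id.sub continuous_const))

lemma gR_coe (n : ℝ) (c x : T1) : (gR n c x : ℂ) = gC n (x - c) := gC_re n _

lemma conv_real {n : ℝ} (hn : 0 < n) (c : T1) (P : ι → ProbabilityMeasure T1)
    (h : ∀ m : ℤ, Tendsto (fun i => ∫ x, fo m x ∂(P i : Measure T1)) l (𝓝 ((al n m : ℂ) * fo m c)))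
    {f : T1 → ℝ} (hf : Continuous f) :
    Tendsto (fun i => ∫ x, f x ∂(P i : Measure T1)) l (𝓝 (∫ x, f x * gR n c x ∂hr)) := by
  have h1 := conv_all hn c P h ⟨fun x => (f x : ℂ), Complex.continuous_ofReal.comp hf⟩
  simp only [ContinuousMap.coe_mk] at h1
  have h2 : ∫ x, (f x : ℂ) * gC n (x - c) ∂hr = ((∫ x, f x * gR n c x ∂hr : ℝ) : ℂ) := by
    rw [← integral_complex_ofReal]
    congr 1
    funext x
    push_cast
    rw [gR_coe]
  rw [h2] at h1
  have h3 := (Complex.continuous_re.tendsto _).comp h1
  rw [Complex.ofReal_re] at h3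
  apply h3.congr
  intro i
  simp only [Function.comp_apply]
  rw [integral_complex_ofReal, Complex.ofReal_re]

lemma gR_nonneg [l.NeBot] {n : ℝ} (hn : 0 < n) (c : T1) (P : ι → ProbabilityMeasure T1)
    (h : ∀ m : ℤ, Tendsto (fun i => ∫ x, fo m x ∂(P i : Measure T1)) l (𝓝 ((al n m : ℂ) * fo m c)))
    (x : T1) : 0 ≤ gR n c x := by
  by_contra hcon
  push Not at hcon
  set f : T1 → ℝ := fun x => max (-(gR n c x)) 0 with hf
  have hfc : Continuous f := (continuous_gR hn c).neg.max continuous_const
  have h1 := conv_real hn c P h hfc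
  have h2 : 0 ≤ ∫ x, f x * gR n c x ∂hr := by
    apply ge_of_tendsto h1
    exact Filter.Eventually.of_forall (fun i => integral_nonneg (fun x => le_max_right _ _))
  have h3 : ∀ x, f x * gR n c x = -(f x * f x) := by
    intro x
    simp only [hf]
    rcases le_total (-(gR n c x)) 0 with h4 | h4
    · rw [max_eq_right h4]; ring
    · rw [max_eq_left h4]; ring
  simp only [h3] at h2
  rw [integral_neg] at h2
  have h4 : 0 < ∫ x, f x * f x ∂hr := by
    apply (hfc.mul hfc).integral_pos_of_hasCompactSupport_nonneg_nonzero (HasCompactSupport.of_compactSpace _)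
      (fun x => mul_self_nonneg _) (x := x)
    have : 0 < f x := by
      simp only [hf]
      exact lt_max_of_lt_left (by linarith)
    exact (mul_pos this this).ne'
  linarith

lemma integral_gR {n : ℝ} (hn : 0 < n) (c : T1) : ∫ x, gR n c x ∂hr = 1 := by
  have h := integral_fo_gC hn c 0
  simp only [fo_zero, one_mul, mul_one] at h
  have h2 : ∫ x, gC n (x - c) ∂hr = ((∫ x, gR n c x ∂hr : ℝ) : ℂ) := by
    rw [← integral_complex_ofReal]
    congr 1
    funext x
    rw [gR_coe]
  rw [h2] at h
  have h3 : al n 0 = 1 := by simp [al, phi]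
  rw [h3] at h
  exact_mod_cast h

/-- the limit law -/
noncomputable def lM (n : ℝ) (c : T1) : Measure T1 := hr.withDensity (fun x => ENNReal.ofReal (gR n c x))

lemma isProb_lM {n : ℝ} (hn : 0 < n) (c : T1) (hpos : ∀ x, 0 ≤ gR n c x) :
    IsProbabilityMeasure (lM n c) := by
  constructor
  unfold lM
  rw [withDensity_apply _ MeasurableSet.univ, Measure.restrict_univ,
    ← ofReal_integral_eq_lintegral_ofReal _ (Filter.Eventually.of_forall hpos), integral_gR hn c,
    ENNReal.ofReal_one]
  obtain ⟨C, hC⟩ := (isCompact_range (continuous_gR hn c)).isBounded.exists_norm_le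
  exact Integrable.of_bound (continuous_gR hn c).aestronglyMeasurable C
    (Filter.Eventually.of_forall (fun x => hC _ (Set.mem_range_self x)))

lemma integral_lM {n : ℝ} (hn : 0 < n) (c : T1) (hpos : ∀ x, 0 ≤ gR n c x) (f : T1 → ℝ) :
    ∫ x, f x ∂(lM n c) = ∫ x, f x * gR n c x ∂hr := by
  unfold lM
  rw [integral_withDensity_eq_integral_toReal_smul]
  · congr 1
    funext x
    rw [ENNReal.toReal_ofReal (hpos x), smul_eq_mul, mul_comm]
  · exact (continuous_gR hn c).measurable.ennreal_ofReal
  · exact Filter.Eventually.of_forall (fun x => ENNReal.ofReal_lt_top)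

theorem circ_weak [l.NeBot] {n : ℝ} (hn : 0 < n) (c : T1) (P : ι → ProbabilityMeasure T1)
    (h : ∀ m : ℤ, Tendsto (fun i => ∫ x, fo m x ∂(P i : Measure T1)) l (𝓝 ((al n m : ℂ) * fo m c))) :
    Tendsto P l (𝓝 ⟨lM n c, isProb_lM hn c (gR_nonneg hn c P h)⟩) := by
  rw [ProbabilityMeasure.tendsto_iff_forall_integral_tendsto]
  intro f
  have h1 := conv_real hn c P h f.continuous
  rw [ProbabilityMeasure.coe_mk, integral_lM hn c (gR_nonneg hn c P h)]
  exact h1

end weak

/-! ### product measures -/

lemma pi_pair {k : ℕ} {X : Type*} [MeasurableSpace X] (μ : Fin k → Measure X)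
    [∀ i, IsProbabilityMeasure (μ i)] {i j : Fin k} (hij : i ≠ j) {S : Set (X × X)}
    (hS : MeasurableSet S) :
    Measure.pi μ {x | (x i, x j) ∈ S} = ((μ i).prod (μ j)) S := by
  have h1 : ProbabilityTheory.iIndepFun (fun (i : Fin k) (ω : Fin k → X) => (fun x : X => x) (ω i))
      (Measure.pi μ) :=
    ProbabilityTheory.iIndepFun_pi (X := fun _ x => x) (fun i => aemeasurable_id)
  have h2 := h1.indepFun hij
  rw [ProbabilityTheory.indepFun_iff_map_prod_eq_prod_map_map
    (measurable_pi_apply i).aemeasurable (measurable_pi_apply j).aemeasurable] at h2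
  have h3 : (Measure.pi μ).map (fun ω => ω i) = μ i := (measurePreserving_eval μ i).map_eq
  have h4 : (Measure.pi μ).map (fun ω => ω j) = μ j := (measurePreserving_eval μ j).map_eq
  rw [h3, h4] at h2
  rw [← h2, Measure.map_apply ((measurable_pi_apply i).prodMk (measurable_pi_apply j)) hS]
  rfl

lemma pi_withDensity {k : ℕ} (g : Fin k → T1 → ℝ) (hg : ∀ j, Continuous (g j))
    (hpos : ∀ j x, 0 ≤ g j x)
    [∀ j, IsProbabilityMeasure (hr.withDensity (fun x => ENNReal.ofReal (g j x)))] :
    Measure.pi (fun j => hr.withDensity (fun x => ENNReal.ofReal (g j x))) =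
      (hm k).withDensity (fun x => ENNReal.ofReal (∏ j, g j (x j))) := by
  classical
  apply Measure.pi_eq
  intro s hs
  have hint : ∀ j, Integrable (fun x => (s j).indicator (fun _ => (1 : ℝ)) x * g j x) hr := by
    intro j
    obtain ⟨C, hC⟩ := (isCompact_range (hg j)).isBounded.exists_norm_le
    have hC0 : 0 ≤ C := (norm_nonneg _).trans (hC _ (Set.mem_range_self 0))
    apply Integrable.of_bound (C := C)
    · exact ((measurable_const.indicator (hs j)).mul (hg j).measurable).aestronglyMeasurable
    · apply Filter.Eventually.of_forall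
      intro x
      rw [norm_mul]
      have h1 := hC _ (Set.mem_range_self (f := g j) x)
      have h2 : ‖(s j).indicator (fun _ => (1 : ℝ)) x‖ ≤ 1 := by
        by_cases hx : x ∈ s j
        · simp [hx]
        · simp [hx]
      calc ‖(s j).indicator (fun _ => (1 : ℝ)) x‖ * ‖g j x‖ ≤ 1 * C :=
            mul_le_mul h2 h1 (norm_nonneg _) zero_le_one
        _ = C := one_mul C
  have e1 : ∀ j, hr.withDensity (fun x => ENNReal.ofReal (g j x)) (s j) =
      ENNReal.ofReal (∫ x, (s j).indicator (fun _ => (1 : ℝ)) x * g j x ∂hr) := by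
    intro j
    rw [withDensity_apply _ (hs j), ← lintegral_indicator (hs j),
      ofReal_integral_eq_lintegral_ofReal (hint j)]
    · congr 1
      funext x
      by_cases hx : x ∈ s j
      · simp [hx]
      · simp [hx]
    · apply Filter.Eventually.of_forall
      intro x
      by_cases hx : x ∈ s j
      · simp [hx, hpos j x]
      · simp [hx]
  simp only [e1]
  rw [← ENNReal.ofReal_prod_of_nonneg]
  · rw [← integral_fintype_prod_eq_prod (f := fun j x => (s j).indicator (fun _ => (1 : ℝ)) x * g j x),
      withDensity_apply _ (MeasurableSet.univ_pi hs), ← lintegral_indicator (MeasurableSet.univ_pi hs),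
      ofReal_integral_eq_lintegral_ofReal]
    · congr 1
      funext x
      by_cases hx : x ∈ Set.univ.pi s
      · rw [Set.indicator_of_mem hx]
        congr 1
        apply Finset.prod_congr rfl
        intro j _
        have : x j ∈ s j := hx j (Set.mem_univ _)
        simp [this]
      · rw [Set.indicator_of_notMem hx]
        have : ∃ j, x j ∉ s j := by
          by_contra hc
          push Not at hc
          exact hx (fun j _ => hc j)
        obtain ⟨j, hj⟩ := this
        rw [Finset.prod_eq_zero (Finset.mem_univ j) (by simp [hj]), ENNReal.ofReal_zero]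
    · exact Integrable.fintype_prod hint
    · apply Filter.Eventually.of_forall
      intro x
      apply Finset.prod_nonneg
      intro j _
      apply mul_nonneg
      · by_cases hx : x j ∈ s j
        · simp [hx]
        · simp [hx]
      · exact hpos j _
  · intro j _
    apply integral_nonneg
    intro x
    apply mul_nonneg
    · by_cases hx : x ∈ s j
      · simp [hx]
      · simp [hx]
    · exact hpos j x

end Pool.Agent.H96.LE
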