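import Pool.Agent.H96.LE.Hfun

/-!
# Twisted harmonic functions of the annulus
-/

namespace Pool.Agent.H96.LE

open Finset Filter

lemma sinh_lip {B x y : ℝ} (hx : |x| ≤ B) (hy : |y| ≤ B) :
    |Real.sinh x - Real.sinh y| ≤ Real.cosh B * |x - y| := by
  have h := Convex.norm_image_sub_le_of_norm_deriv_le (f := Real.sinh) (s := Set.Icc (-B) B)
    (C := Real.cosh B) (x := y) (y := x) (fun t _ => Real.differentiable_sinh t)
    (fun t ht => by
      rw [Real.deriv_sinh, Real.norm_eq_abs, abs_of_pos (Real.cosh_pos t), Real.cosh_le_cosh]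
      have h1 : |t| ≤ B := abs_le.2 ht
      exact h1.trans (le_abs_self B)) (convex_Icc _ _) (abs_le.1 hy) (abs_le.1 hx)
  simpa [Real.norm_eq_abs] using h

lemma cosh_lip {B x : ℝ} (hx : |x| ≤ B) : |Real.cosh x - 1| ≤ Real.cosh B * |x| := by
  have hB : 0 ≤ B := (abs_nonneg x).trans hx
  have h := Convex.norm_image_sub_le_of_norm_deriv_le (f := Real.cosh) (s := Set.Icc (-B) B)
    (C := Real.cosh B) (x := 0) (y := x) (fun t _ => Real.differentiable_cosh t)
    (fun t ht => by
      rw [Real.deriv_cosh, Real.norm_eq_abs]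
      have h1 : |t| ≤ B := abs_le.2 ht
      have h2 : |Real.sinh t| ≤ Real.cosh t := by
        have h3 := Real.cosh_sq t
        have h4 : |Real.sinh t| ^ 2 ≤ Real.cosh t ^ 2 := by rw [sq_abs]; linarith
        exact abs_le_of_sq_le_sq' h4 (Real.cosh_pos t).le |>.2
      refine h2.trans ?_
      rw [Real.cosh_le_cosh]
      exact h1.trans (le_abs_self B)) (convex_Icc _ _) ⟨by linarith, hB⟩ (abs_le.1 hx)
  simpa [Real.norm_eq_abs] using h

lemma sinh_sub_self {B x : ℝ} (hx : |x| ≤ B) : |Real.sinh x - x| ≤ Real.cosh B * |x| * |x| := by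
  have h := Convex.norm_image_sub_le_of_norm_deriv_le (f := fun t => Real.sinh t - t)
    (s := Set.Icc (-|x|) |x|)
    (C := Real.cosh B * |x|) (x := 0) (y := x)
    (fun t _ => (Real.differentiable_sinh t).sub differentiableAt_id)
    (fun t ht => by
      have h0 : deriv (fun t => Real.sinh t - t) t = Real.cosh t - 1 :=
        ((Real.hasDerivAt_sinh t).sub (hasDerivAt_id t)).deriv
      rw [h0, Real.norm_eq_abs]
      have h1 : |t| ≤ |x| := abs_le.2 ht
      refine (cosh_lip (h1.trans hx)).trans ?_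
      exact mul_le_mul_of_nonneg_left h1 (Real.cosh_pos B).le)
    (convex_Icc _ _) ⟨by simp, abs_nonneg x⟩ (abs_le.1 le_rfl)
  simpa [Real.norm_eq_abs] using h

/-- twisted mass -/
noncomputable def HA (a n R : ℝ) (z : Z2) : ℂ :=
  PL (qa a) (VV R (Mn n R)) (OO (Mn n R)) (fun _ => 1) z

/-- its continuous counterpart -/
noncomputable def FA (a n R : ℝ) (z : Z2) : ℝ :=
  Real.sinh (a * Real.log (‖cx z‖ / R)) / Real.sinh (a * n)

lemma exp_log_split (a l : ℝ) (ζ : ℂ) : Complex.exp (a * (l + Complex.log ζ)) =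
    (Real.exp (a * (l + Real.log ‖ζ‖)) : ℝ) * Complex.exp ((a * Complex.arg ζ : ℝ) * Complex.I) := by
  rw [Complex.ofReal_exp, ← Complex.exp_add]
  congr 1
  have : Complex.log ζ = Real.log ‖ζ‖ + Complex.arg ζ * Complex.I := rfl
  rw [this]
  push_cast
  ring

lemma star_exp_log_split (a l : ℝ) (ζ : ℂ) :
    (starRingEnd ℂ) (Complex.exp ((-a : ℝ) * (l + Complex.log ζ))) =
    (Real.exp (-(a * (l + Real.log ‖ζ‖))) : ℝ) *
      Complex.exp ((a * Complex.arg ζ : ℝ) * Complex.I) := by
  rw [exp_log_split, map_mul, Complex.conj_ofReal, ← Complex.exp_conj]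
  congr 1
  · congr 2; ring
  · congr 1
    rw [map_mul, Complex.conj_ofReal, Complex.conj_I]
    push_cast
    ring

lemma FA_eq (a n R : ℝ) (z : Z2) : (FA a n R z : ℂ) =
    ((Real.exp (a * Real.log (‖cx z‖ / R)) : ℝ) - (Real.exp (-(a * Real.log (‖cx z‖ / R))) : ℝ)) /
      (2 * Real.sinh (a * n) : ℝ) := by
  unfold FA
  rw [Real.sinh_eq (a * Real.log (‖cx z‖ / R))]
  push_cast
  rw [div_div]

lemma differentiable_exp_mul (a : ℝ) : Differentiable ℂ (fun v : ℂ => Complex.exp ((a : ℂ) * v)) :=
  Complex.differentiable_exp.comp ((differentiable_const _).mul differentiable_id)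

lemma exp_bound {a l B : ℝ} (hl : |l| ≤ B) (v : ℂ) (hv : ‖v‖ ≤ 1) :
    ‖Complex.exp ((a : ℂ) * ((l : ℂ) + v))‖ ≤ Real.exp (|a| * (B + 1)) := by
  rw [Complex.norm_exp, Real.exp_le_exp]
  rw [Complex.re_ofReal_mul]
  simp only [Complex.add_re, Complex.ofReal_re]
  calc a * (l + v.re) ≤ |a * (l + v.re)| := le_abs_self _
    _ = |a| * |l + v.re| := abs_mul _ _
    _ ≤ |a| * (B + 1) := by
        apply mul_le_mul_of_nonneg_left _ (abs_nonneg _)
        have := abs_add_le l v.re
        have := Complex.abs_re_le_norm v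
        linarith

theorem HA_close (n : ℝ) (hn : 0 < n) (a : ℝ) (ha : a ≠ 0) : ∃ C > 0, ∀ᶠ R in atTop,
    ∀ z ∈ VV R (Mn n R), ‖HA a n R z - FA a n R z‖ ≤ C / R := by
  set s0 : ℝ := |Real.sinh (a * n)| with hs0
  have hsne : Real.sinh (a * n) ≠ 0 := by
    rw [Ne, Real.sinh_eq_zero]; exact mul_ne_zero ha hn.ne'
  have hs0p : 0 < s0 := abs_pos.2 hsne
  set E : ℝ := Real.exp (|a| * (n + 1)) with hE
  set B : ℝ := |a| * (n + 1) with hB
  refine ⟨2 * (Real.cosh B * |a|) / s0 + 128 * E * Real.exp (2 * n) / s0, by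
    have : 0 < |a| := abs_pos.2 ha
    have := Real.cosh_pos B
    positivity, ?_⟩
  filter_upwards [eventually_ge_atTop 4] with R hR
  have hR0 : 0 < R := by linarith
  have hMR : R ≤ Mn n R := Mn_ge hn.le hR0.le
  have hMR' : R < Mn n R := by
    have := Mn_ge' (n := n) hR0.le
    nlinarith
  have h2R : 2 / R ≤ 1 := by rw [div_le_one hR0]; linarith
  intro z hz
  have h := cmp_q (GW_qa a) (VV R (Mn n R)) (HA a n R) (fun z => (FA a n R z : ℂ))
    (32 * E / (s0 * R ^ 4)) (2 / R * (Real.cosh B * |a|) / s0) ((Mn n R + 1) ^ 2) (by positivity)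
    (fun z hz => PL_step (GW_qa a) (disj_VO R (Mn n R)) _ hz)
    (by
      intro z hz
      rw [mem_VV] at hz
      have hz0 : 0 < ‖cx z‖ := by linarith
      set l : ℝ := Real.log (‖cx z‖ / R) with hl
      have hl0 : 0 ≤ l := Real.log_nonneg (by rw [le_div_iff₀ hR0]; linarith)
      have hln : l ≤ n := by
        have h1 : Real.log (‖cx z‖ / R) ≤ Real.log (Real.exp n) := by
          apply Real.log_le_log (by positivity)
          rw [div_le_iff₀ hR0, mul_comm]; exact hz.2.le
        rwa [Real.log_exp] at h1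
      have hlabs : |l| ≤ n := by rw [abs_of_nonneg hl0]; exact hln
      have m1 := mv_nb (fun v => Complex.exp ((a : ℂ) * v)) (differentiable_exp_mul a) l 0 z
        (by rw [sub_zero]; linarith) E (fun v hv => exp_bound hlabs v hv)
      have m2 := mv_nb (fun v => Complex.exp (((-a : ℝ) : ℂ) * v)) (differentiable_exp_mul (-a)) l 0 z
        (by rw [sub_zero]; linarith) E (fun v hv => by
          have := exp_bound (a := -a) hlabs v hv
          rwa [abs_neg] at this)
      simp only [sub_zero] at m1 m2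
      have m3 : ‖(starRingEnd ℂ) ((∑ w ∈ nb z, Complex.exp (((-a : ℝ) : ℂ) * ((l : ℂ) +
          Complex.log (cx w / cx z)))) / 4 - Complex.exp (((-a : ℝ) : ℂ) * l))‖ ≤
          32 * E / ‖cx z‖ ^ 4 := by
        rw [Complex.norm_conj]; exact m2
      have hterm : ∀ w ∈ nb z, qa a z w * (FA a n R w : ℂ) =
          (Complex.exp ((a : ℂ) * ((l : ℂ) + Complex.log (cx w / cx z))) -
          (starRingEnd ℂ) (Complex.exp (((-a : ℝ) : ℂ) * ((l : ℂ) + Complex.log (cx w / cx z))))) / 4
            / (2 * Real.sinh (a * n) : ℝ) := by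
        intro w hw
        have hw0 : 0 < ‖cx w‖ := by linarith [(norm_nb_ge hw).1]
        rw [star_exp_log_split, exp_log_split, FA_eq]
        have hlw : l + Real.log ‖cx w / cx z‖ = Real.log (‖cx w‖ / R) := by
          rw [hl, norm_div, Real.log_div hz0.ne' hR0.ne', Real.log_div hw0.ne' hz0.ne',
            Real.log_div hw0.ne' hR0.ne']
          ring
        rw [hlw, qa, ph, q0]
        ring
      have hsum : (FA a n R z : ℂ) - ∑ w ∈ nb z, qa a z w * (FA a n R w : ℂ) =
          -((((∑ w ∈ nb z, Complex.exp ((a : ℂ) * ((l : ℂ) +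
            Complex.log (cx w / cx z)))) / 4 - Complex.exp ((a : ℂ) * l))) -
          (starRingEnd ℂ) ((∑ w ∈ nb z, Complex.exp (((-a : ℝ) : ℂ) * ((l : ℂ) +
          Complex.log (cx w / cx z)))) / 4 - Complex.exp (((-a : ℝ) : ℂ) * l))) /
            (2 * Real.sinh (a * n) : ℝ) := by
        rw [Finset.sum_congr rfl hterm, FA_eq, ← Finset.sum_div, ← Finset.sum_div,
          Finset.sum_sub_distrib]
        simp only [map_sub, map_div₀, map_sum]
        have e1 : ((Real.exp (a * Real.log (‖cx z‖ / R)) : ℝ) : ℂ) = Complex.exp ((a : ℂ) * l) := by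
          rw [Complex.ofReal_exp]; push_cast; rfl
        have e2 : ((Real.exp (-(a * Real.log (‖cx z‖ / R))) : ℝ) : ℂ) =
            (starRingEnd ℂ) (Complex.exp (((-a : ℝ) : ℂ) * l)) := by
          rw [← Complex.exp_conj, map_mul, Complex.conj_ofReal, Complex.conj_ofReal,
            Complex.ofReal_exp]
          congr 1
          rw [← hl]
          push_cast; ring
        have e3 : (starRingEnd ℂ) (4 : ℂ) = 4 := Complex.conj_ofNat 4
        rw [e1, e2, e3]
        ring
      rw [hsum, norm_div, norm_neg]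
      have hden : ‖((2 * Real.sinh (a * n) : ℝ) : ℂ)‖ = 2 * s0 := by
        rw [Complex.norm_real, Real.norm_eq_abs, abs_mul, abs_two]
      rw [hden]
      have hnum := (norm_sub_le _ _).trans (add_le_add m1 m3)
      have h5 : 32 * E / ‖cx z‖ ^ 4 ≤ 32 * E / R ^ 4 := by
        apply div_le_div_of_nonneg_left (by positivity) (by positivity)
        exact pow_le_pow_left₀ hR0.le hz.1.le 4
      calc _ ≤ (32 * E / ‖cx z‖ ^ 4 + 32 * E / ‖cx z‖ ^ 4) / (2 * s0) := by gcongr
        _ ≤ (32 * E / R ^ 4 + 32 * E / R ^ 4) / (2 * s0) := by gcongr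
        _ = 32 * E / (s0 * R ^ 4) := by field_simp; ring)
    (by
      intro z hz w hw hwV
      rcases VV_nb hz hw hwV with h1 | h1
      · have h2 : HA a n R w = 0 := PL_none _ hwV (by rw [mem_OO]; intro h; linarith [h.1])
        rw [h2, zero_sub, norm_neg, Complex.norm_real, Real.norm_eq_abs]
        unfold FA
        rw [abs_div]
        gcongr
        have h3 := inner_log (by linarith) h1.2 h1.1
        have h4 : |a * Real.log (‖cx w‖ / R)| ≤ B := by
          rw [abs_mul, hB]
          apply mul_le_mul_of_nonneg_left _ (abs_nonneg _)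
          linarith
        have h5 := sinh_lip h4 (show |(0 : ℝ)| ≤ B by rw [abs_zero]; positivity)
        rw [Real.sinh_zero, sub_zero, sub_zero, abs_mul] at h5
        refine h5.trans ?_
        have := Real.cosh_pos B
        calc Real.cosh B * (|a| * |Real.log (‖cx w‖ / R)|) ≤ Real.cosh B * (|a| * (2 / R)) := by
              gcongr
          _ = 2 / R * (Real.cosh B * |a|) := by ring
      · have h2 : HA a n R w = 1 := PL_out _ hwV h1
        rw [mem_OO] at h1
        have h3 := outer_log hn.le (by linarith) h1.1 h1.2.le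
        rw [h2]
        have h4 : (1 : ℂ) - (FA a n R w : ℂ) =
            (((Real.sinh (a * n) - Real.sinh (a * Real.log (‖cx w‖ / R))) / Real.sinh (a * n) : ℝ) : ℂ) := by
          unfold FA
          rw [sub_div, div_self hsne]
          push_cast; ring
        rw [h4, Complex.norm_real, Real.norm_eq_abs, abs_div]
        gcongr
        have h5 : |Real.log (‖cx w‖ / R)| ≤ n + 1 := by
          have := abs_sub_abs_le_abs_sub (Real.log (‖cx w‖ / R)) n
          rw [abs_of_pos hn] at this
          linarith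
        have h6 := sinh_lip (B := B) (x := a * n) (y := a * Real.log (‖cx w‖ / R))
          (by rw [abs_mul, hB, abs_of_pos hn]; gcongr; linarith)
          (by rw [abs_mul, hB]; gcongr)
        refine h6.trans ?_
        rw [← mul_sub, abs_mul, abs_sub_comm]
        have := Real.cosh_pos B
        calc Real.cosh B * (|a| * |Real.log (‖cx w‖ / R) - n|) ≤ Real.cosh B * (|a| * (2 / R)) := by
              gcongr
          _ = 2 / R * (Real.cosh B * |a|) := by ring)
    (fun z hz w hw => nsq_nb_le (by linarith) hz hw) z hz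
  refine h.trans ?_
  have h6 := M_sq_bd hn.le (show 1 ≤ R by linarith)
  have h7 : 32 * E / (s0 * R ^ 4) * (Mn n R + 1) ^ 2 ≤
      32 * E / (s0 * R ^ 4) * (4 * Real.exp (2 * n) * R ^ 2) := by gcongr
  have h8 : 32 * E / (s0 * R ^ 4) * (4 * Real.exp (2 * n) * R ^ 2) =
      128 * E * Real.exp (2 * n) / s0 / R ^ 2 := by
    field_simp; ring
  have h9 : 128 * E * Real.exp (2 * n) / s0 / R ^ 2 ≤ 128 * E * Real.exp (2 * n) / s0 / R := by
    apply div_le_div_of_nonneg_left (by positivity) hR0
    nlinarith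
  have h10 : (2 * (Real.cosh B * |a|) / s0 + 128 * E * Real.exp (2 * n) / s0) / R =
      2 / R * (Real.cosh B * |a|) / s0 + 128 * E * Real.exp (2 * n) / s0 / R := by
    field_simp
  rw [h10]
  linarith

end Pool.Agent.H96.LE
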